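import Mathlib

/-!
# K4: extension of characters to a commutative group
-/

set_option autoImplicit false
namespace Pool.Agent.H2S

/-- PROOF. `Additive ℂˣ` is divisible (`ℂ` is algebraically closed), so it is an injective `ℤ`-module: `Module.Baer.of_divisible`,
`Module.Baer.extension_property` (in the additive groups `Additive P`, `Additive A`). -/
theorem extend_subgroup {A : Type*} [CommGroup A] (P : Subgroup A) (f : P →* ℂˣ) :
    ∃ g : A →* ℂˣ, ∀ x : P, g x = f x := by
  have hroot : ∀ (x : ℂˣ) (n : ℤ), n ≠ 0 → ∃ y : ℂˣ, y ^ n = x := by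
    intro x n hn
    have hn' : 0 < n.natAbs := Int.natAbs_pos.2 hn
    obtain ⟨z, hz⟩ := IsAlgClosed.exists_pow_nat_eq (x : ℂ) hn'
    have hz0 : z ≠ 0 := by
      intro h
      rw [h, zero_pow hn'.ne'] at hz
      exact x.ne_zero hz.symm
    have hy : (Units.mk0 z hz0) ^ n.natAbs = x := by
      apply Units.ext
      rw [Units.val_pow_eq_pow_val, Units.val_mk0, hz]
    rcases Int.natAbs_eq n with h | h
    · refine ⟨Units.mk0 z hz0, ?_⟩
      rw [h, zpow_natCast, hy]
    · refine ⟨(Units.mk0 z hz0)⁻¹, ?_⟩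
      rw [h, zpow_neg, zpow_natCast, inv_pow, inv_inv, hy]
  let I : DivisibleBy (Additive ℂˣ) ℤ := divisibleByOfSMulRightSurj (Additive ℂˣ) ℤ (by
    intro n hn x
    obtain ⟨y, hy⟩ := hroot x.toMul n hn
    exact ⟨Additive.ofMul y, hy⟩)
  obtain ⟨h, hh⟩ := (Module.Baer.of_divisible (Additive ℂˣ)).extension_property_addMonoidHom
    (MonoidHom.toAdditive P.subtype) (fun x y hxy => Subtype.ext hxy) (MonoidHom.toAdditive f)
  refine ⟨MonoidHom.toAdditive.symm h, fun x => ?_⟩
  exact DFunLike.congr_fun hh (Additive.ofMul x)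

/-- The same for a submonoid.  PROOF. On the subgroup `P = {s t⁻¹ | s, t ∈ S}` put `f (s t⁻¹) = f s / f t`: well defined because `s t⁻¹ = s' t'⁻¹` gives
`s t' = s' t`.  Then `extend_subgroup`. -/
theorem extend_submonoid {A : Type*} [CommGroup A] (S : Submonoid A) (f : S →* ℂˣ) :
    ∃ g : A →* ℂˣ, ∀ x : S, g x = f x := by
  obtain ⟨P, hP⟩ : ∃ P : Subgroup A, ∀ x, x ∈ P ↔ ∃ s t : S, x = (s : A) * (t : A)⁻¹ :=
    ⟨{ carrier := {x | ∃ s t : S, x = (s : A) * (t : A)⁻¹}
       one_mem' := ⟨1, 1, by simp⟩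
       mul_mem' := by
        rintro a b ⟨s, t, rfl⟩ ⟨s', t', rfl⟩
        refine ⟨s * s', t * t', ?_⟩
        rw [Submonoid.coe_mul, Submonoid.coe_mul, mul_inv]
        exact mul_mul_mul_comm _ _ _ _
       inv_mem' := by
        rintro a ⟨s, t, rfl⟩
        refine ⟨t, s, ?_⟩
        rw [mul_inv, inv_inv, mul_comm] }, fun x => Iff.rfl⟩
  have hwd : ∀ s t s' t' : S, (s : A) * (t : A)⁻¹ = (s' : A) * (t' : A)⁻¹ →
      f s * (f t)⁻¹ = f s' * (f t')⁻¹ := by
    intro s t s' t' h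
    have h1 : s * t' = s' * t := by
      apply Subtype.ext
      rw [Submonoid.coe_mul, Submonoid.coe_mul]
      exact mul_inv_eq_mul_inv_iff_mul_eq_mul.1 h
    have h2 : f s * f t' = f s' * f t := by rw [← map_mul, h1, map_mul]
    exact mul_inv_eq_mul_inv_iff_mul_eq_mul.2 h2
  choose s t hst using fun x : P => (hP x).1 x.2
  obtain ⟨g, hg⟩ := extend_subgroup P
    { toFun := fun x => f (s x) * (f (t x))⁻¹
      map_one' := by
        have h := hwd (s 1) (t 1) 1 1 (by rw [← hst]; simp)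
        rw [h]
        simp
      map_mul' := by
        intro x y
        have h := hwd (s (x * y)) (t (x * y)) (s x * s y) (t x * t y) (by
          rw [← hst, Subgroup.coe_mul, Submonoid.coe_mul, Submonoid.coe_mul, mul_inv, mul_mul_mul_comm, ← hst x,
            ← hst y])
        rw [h, map_mul, map_mul, mul_inv]
        exact mul_mul_mul_comm _ _ _ _ }
  refine ⟨g, fun x => ?_⟩
  have hx : (x : A) ∈ P := (hP x).2 ⟨x, 1, by simp⟩
  have h1 := hg ⟨x, hx⟩
  have h2 := hwd (s ⟨x, hx⟩) (t ⟨x, hx⟩) x 1 (by rw [← hst]; simp)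
  have h3 : g x = f (s ⟨x, hx⟩) * (f (t ⟨x, hx⟩))⁻¹ := h1
  rw [h3, h2, map_one, inv_one, mul_one]

end Pool.Agent.H2S
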