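import Pool.Agent.Lib.H2S.N2

/-!
# N3: absolute values, units
-/

set_option autoImplicit false
namespace Pool.Agent.H2S
open Complex NumberField

variable {K L : Type*} [Field K] [NumberField K] [Field L] [NumberField L] [Algebra K L]

theorem Fld.n3_norm (F : Fld K L) (a : K) : ((Algebra.norm ℚ a : ℚ) : ℂ) = F.sK a * (starRingEnd ℂ) (F.sK a) := by
  classical
  have h := Algebra.norm_eq_prod_embeddings ℚ (L := K) (E := ℂ) a
  rw [F.n2_univ, Finset.prod_pair F.n2_ne] at h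
  exact h

/-- The embeddings of `K`. -/
theorem Fld.n3_embK (F : Fld K L) (ψ : K →+* ℂ) : ψ = F.sK ∨ ψ = (starRingEnd ℂ).comp F.sK := by
  classical
  have h : (RingHom.toRatAlgHom ψ : K →ₐ[ℚ] ℂ) ∈
      ({RingHom.toRatAlgHom F.sK, RingHom.toRatAlgHom ((starRingEnd ℂ).comp F.sK)} : Finset (K →ₐ[ℚ] ℂ)) := by
    rw [← F.n2_univ]
    exact Finset.mem_univ _
  rw [Finset.mem_insert, Finset.mem_singleton] at h
  rcases h with h | h
  · left
    ext a
    exact DFunLike.congr_fun h a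
  · right
    ext a
    exact DFunLike.congr_fun h a

/-- PROOF. `Ideal.absNorm_span_singleton`, `Algebra.norm_eq_prod_embeddings` (two conjugate embeddings, as in `trK`). -/
theorem Fld.absNorm (F : Fld K L) (a : 𝓞 K) : (Ideal.absNorm (Ideal.span {a}) : ℝ) = ‖F.sK (a : K)‖ ^ 2 := by
  have h := F.n3_norm (a : K)
  rw [Ideal.absNorm_span_singleton]
  have h2 : ‖(((Algebra.norm ℚ (a : K) : ℚ)) : ℂ)‖ = ‖F.sK (a : K)‖ ^ 2 := by
    rw [h, norm_mul, RCLike.norm_conj, pow_two]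
  rw [← h2, ← Algebra.coe_norm_int]
  push_cast
  rw [Complex.norm_intCast, Nat.cast_natAbs]
  push_cast
  rfl

theorem Fld.norm_unit (F : Fld K L) (u : (𝓞 K)ˣ) : ‖F.sK ((u : 𝓞 K) : K)‖ = 1 := by
  have h := F.absNorm (u : 𝓞 K)
  rw [Ideal.span_singleton_eq_top.2 u.isUnit, Ideal.absNorm_top] at h
  have h1 : ‖F.sK ((u : 𝓞 K) : K)‖ ^ 2 = 1 ^ 2 := by
    rw [← h]
    norm_num
  exact (pow_left_inj₀ (norm_nonneg _) zero_le_one two_ne_zero).1 h1

/-- PROOF. `Algebra.norm K u` is a unit of `𝓞 K`; `norm_eq`, `norm_unit`. -/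
theorem Fld.norm_unitL (F : Fld K L) (u : (𝓞 L)ˣ) : ‖F.s ((u : 𝓞 L) : L)‖ * ‖F.s (F.τ ((u : 𝓞 L) : L))‖ = 1 := by
  rw [← norm_mul, ← map_mul, ← F.norm_eq]
  have h := F.norm_unit (Units.map (RingOfIntegers.norm K) u)
  rw [Units.coe_map, RingOfIntegers.coe_norm] at h
  exact h

theorem Fld.n3_place (F : Fld K L) (w : InfinitePlace K) (u : (𝓞 K)ˣ) : w ((u : 𝓞 K) : K) = 1 := by
  rw [← InfinitePlace.norm_embedding_eq]
  rcases F.n3_embK w.embedding with h | h
  · rw [h]
    exact F.norm_unit u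
  · rw [h, RingHom.comp_apply, RCLike.norm_conj]
    exact F.norm_unit u

/-- The units of `𝓞 K` are roots of unity, finite in number.  PROOF. `|s u| = 1` for the two embeddings, Kronecker:
`NumberField.Units.mem_torsion` (`u` is a root of unity iff all its absolute values are `1`), `NumberField.Units.torsion` is finite. -/
theorem Fld.units_finite (F : Fld K L) : Finite (𝓞 K)ˣ := by
  have h : Units.torsion K = ⊤ := by
    rw [eq_top_iff]
    intro u _
    exact (Units.mem_torsion K).2 fun w => F.n3_place w u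
  have h2 : Finite (Units.torsion K) := inferInstance
  rw [h] at h2
  exact Finite.of_equiv _ Subgroup.topEquiv.toEquiv

/-- The embeddings of `L`.  PROOF. `s`, `s ∘ τ` and their conjugates are four different embeddings (`sK_not_real`, `τne`) and `[L : ℚ] = 4`. -/
theorem Fld.n3_emb (F : Fld K L) (φ : L →+* ℂ) (x : L) : φ x = F.s x ∨ φ x = F.s (F.τ x) ∨
    φ x = (starRingEnd ℂ) (F.s x) ∨ φ x = (starRingEnd ℂ) (F.s (F.τ x)) := by
  have h0 : x * x - algebraMap K L (Algebra.trace K L x) * x + algebraMap K L (Algebra.norm K x) = 0 := by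
    rw [F.trace_eq, F.norm_eq]
    ring
  have h1 : φ x * φ x - φ (algebraMap K L (Algebra.trace K L x)) * φ x + φ (algebraMap K L (Algebra.norm K x)) = 0 := by
    rw [← map_mul, ← map_mul, ← map_sub, ← map_add, h0, map_zero]
  rcases F.n3_embK (φ.comp (algebraMap K L)) with h | h
  · have h2 : ∀ a : K, φ (algebraMap K L a) = F.s (algebraMap K L a) := fun a => DFunLike.congr_fun h a
    rw [h2, h2, F.trace_eq, F.norm_eq, map_add, map_mul] at h1
    have h3 : (φ x - F.s x) * (φ x - F.s (F.τ x)) = 0 := by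
      rw [← h1]
      ring
    rcases mul_eq_zero.1 h3 with h4 | h4
    · exact Or.inl (sub_eq_zero.1 h4)
    · exact Or.inr (Or.inl (sub_eq_zero.1 h4))
  · have h2 : ∀ a : K, φ (algebraMap K L a) = (starRingEnd ℂ) (F.s (algebraMap K L a)) := fun a => DFunLike.congr_fun h a
    rw [h2, h2, F.trace_eq, F.norm_eq, map_add, map_mul, map_add, map_mul] at h1
    have h3 : (φ x - (starRingEnd ℂ) (F.s x)) * (φ x - (starRingEnd ℂ) (F.s (F.τ x))) = 0 := by
      rw [← h1]
      ring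
    rcases mul_eq_zero.1 h3 with h4 | h4
    · exact Or.inr (Or.inr (Or.inl (sub_eq_zero.1 h4)))
    · exact Or.inr (Or.inr (Or.inr (sub_eq_zero.1 h4)))

theorem Fld.n3_fin (F : Fld K L) : Module.finrank ℚ L = 4 := by
  rw [← Module.finrank_mul_finrank ℚ K L, F.deg, F.deg2]

theorem Fld.n3_cplx (F : Fld K L) : IsTotallyComplex L := by
  constructor
  intro w
  rw [← InfinitePlace.not_isReal_iff_isComplex]
  intro hw
  rw [InfinitePlace.isReal_iff, ComplexEmbedding.isReal_iff] at hw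
  have h1 : ∀ x : L, F.cc x = x := fun x => by
    apply w.embedding.injective
    rw [F.cj]
    exact DFunLike.congr_fun hw x
  obtain ⟨a, ha⟩ := F.sK_not_real
  apply ha
  rw [Fld.sK, RingHom.comp_apply, ← F.cj, h1]

theorem Fld.n3_rank (F : Fld K L) : Units.rank L = 1 := by
  have := F.n3_cplx
  have h1 := IsTotallyComplex.finrank L
  have h2 := InfinitePlace.card_eq_nrRealPlaces_add_nrComplexPlaces L
  rw [IsTotallyComplex.nrRealPlaces_eq_zero L] at h2
  rw [F.n3_fin] at h1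
  rw [Units.rank, h2]
  omega

theorem Fld.n3_nontors (F : Fld K L) : ∃ u : (𝓞 L)ˣ, u ∉ Units.torsion L := by
  have h := F.n3_rank
  let i : Fin (Units.rank L) := ⟨0, by omega⟩
  refine ⟨Units.fundSystem L i, fun hu => ?_⟩
  have h1 := (Units.exist_unique_eq_mul_prod L (Units.fundSystem L i)).unique
    (y₁ := (⟨Units.fundSystem L i, hu⟩, 0)) (y₂ := (1, Pi.single i 1)) (by simp) (by
      rw [Finset.prod_eq_single i]
      · simp
      · intro j _ hj
        simp [hj]
      · intro hi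
        exact absurd (Finset.mem_univ i) hi)
  have h2 := congrFun (congrArg Prod.snd h1) i
  simp at h2

/-- A unit of infinite order of relative norm one.  PROOF. `NumberField.Units.rank L = 1` (`L` totally complex of degree `4`; one can also use that
the rank of a CM field is that of its real quadratic subfield), so there is a unit `u` which is not a root of unity; by
`NumberField.Units.mem_torsion` some `|φ u| ≠ 1`.  The embeddings of `L` are `s`, `s ∘ τ` and their conjugates, and `|s u| |s (τ u)| = 1`, so `|s u| ≠ 1`.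
Replace `u` by `u⁻¹` if `|s u| < 1`, and by `u ^ k`, `k = Nat.card (𝓞 K)ˣ`: `N_{L/K}(u ^ k) = N(u) ^ k = 1`. -/
theorem Fld.exists_unit (F : Fld K L) : ∃ η : (𝓞 L)ˣ, 1 < ‖F.s ((η : 𝓞 L) : L)‖ ∧
    ((η : 𝓞 L) : L) * F.τ ((η : 𝓞 L) : L) = 1 := by
  obtain ⟨u, hu⟩ := F.n3_nontors
  have h1 : ‖F.s ((u : 𝓞 L) : L)‖ ≠ 1 := by
    intro h1
    apply hu
    have h2 := F.norm_unitL u
    rw [h1, one_mul] at h2
    refine (Units.mem_torsion L).2 fun w => ?_
    rw [← InfinitePlace.norm_embedding_eq]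
    rcases F.n3_emb w.embedding ((u : 𝓞 L) : L) with h | h | h | h
    · rw [h, h1]
    · rw [h, h2]
    · rw [h, RCLike.norm_conj, h1]
    · rw [h, RCLike.norm_conj, h2]
  have h3 : ∃ v : (𝓞 L)ˣ, 1 < ‖F.s ((v : 𝓞 L) : L)‖ := by
    rcases lt_or_gt_of_ne h1 with h2 | h2
    · refine ⟨u⁻¹, ?_⟩
      have h4 : ‖F.s ((u : 𝓞 L) : L)‖ * ‖F.s (((u⁻¹ : (𝓞 L)ˣ) : 𝓞 L) : L)‖ = 1 := by
        rw [← norm_mul, ← map_mul, ← map_mul, Units.mul_inv, map_one, map_one, norm_one]
      have h5 : 0 < ‖F.s ((u : 𝓞 L) : L)‖ := by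
        rcases (norm_nonneg (F.s ((u : 𝓞 L) : L))).eq_or_lt with h5 | h5
        · rw [← h5, zero_mul] at h4
          exact absurd h4 zero_ne_one
        · exact h5
      nlinarith [norm_nonneg (F.s (((u⁻¹ : (𝓞 L)ˣ) : 𝓞 L) : L))]
    · exact ⟨u, h2⟩
  obtain ⟨v, hv⟩ := h3
  have := F.units_finite
  have hk : 0 < Nat.card (𝓞 K)ˣ := Nat.card_pos
  have hc : ∀ n : ℕ, (((v ^ n : (𝓞 L)ˣ) : 𝓞 L) : L) = ((v : 𝓞 L) : L) ^ n := fun n => by
    exact NumberField.Units.coe_pow v n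
  refine ⟨v ^ Nat.card (𝓞 K)ˣ, ?_, ?_⟩
  · rw [hc, map_pow, norm_pow]
    exact one_lt_pow₀ hv hk.ne'
  · rw [hc, map_pow, ← mul_pow, ← F.norm_eq, ← map_pow]
    have h4 : (Units.map (RingOfIntegers.norm K) v) ^ Nat.card (𝓞 K)ˣ = 1 := pow_card_eq_one'
    have h5 := congrArg (fun w : (𝓞 K)ˣ => ((w : 𝓞 K) : K)) h4
    simp only [Units.val_pow_eq_pow_val, map_pow, Units.coe_map, RingOfIntegers.coe_norm, Units.val_one,
      map_one] at h5
    have h6 : Algebra.norm K ((v : 𝓞 L) : L) ^ Nat.card (𝓞 K)ˣ = 1 := h5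
    rw [h6, map_one]

/-- The embeddings of `L`.  PROOF. `s`, `s ∘ τ` and their conjugates are four different embeddings (`sK_not_real`, `τne`) and `[L : ℚ] = 4`. -/
theorem Fld.emb (F : Fld K L) (φ : L →+* ℂ) (x : L) : φ x = F.s x ∨ φ x = F.s (F.τ x) ∨
    φ x = (starRingEnd ℂ) (F.s x) ∨ φ x = (starRingEnd ℂ) (F.s (F.τ x)) := F.n3_emb φ x

end Pool.Agent.H2S
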