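import Pool.Agent.Lib.H2S.B1
import Pool.Agent.Lib.H2S.N3

/-!
# B2: discreteness, simultaneous approximation
-/

set_option autoImplicit false
namespace Pool.Agent.H2S
open Complex NumberField

variable {K L : Type*} [Field K] [NumberField K] [Field L] [NumberField L] [Algebra K L]

/-- PROOF. `K` has the embeddings `F.sK` and its conjugate, so all embeddings have the same absolute value on `a`;
`NumberField.Embeddings.finite_of_norm_le` (finitely many integral elements with bounded absolute values). -/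
theorem Fld.finite_le (F : Fld K L) (R : ℝ) : {a : 𝓞 K | ‖F.sK (a : K)‖ ≤ R}.Finite := by
  have h := NumberField.Embeddings.finite_of_norm_le K ℂ R
  refine Set.Finite.subset (h.preimage (f := fun a : 𝓞 K => (a : K)) ?_) ?_
  · exact (RingOfIntegers.coe_injective).injOn
  · intro a ha
    refine ⟨a.isIntegral_coe, ?_⟩
    intro φ
    rcases F.n3_embK φ with h | h
    · rw [h]; exact ha
    · rw [h]
      change ‖(starRingEnd ℂ) (F.sK (a : K))‖ ≤ R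
      rw [RCLike.norm_conj]
      exact ha

/-- PROOF. `‖F.sK a‖ ^ 2` is the absolute norm, a positive integer (`Fld.absNorm`). -/
theorem Fld.one_le (F : Fld K L) {a : 𝓞 K} (h : a ≠ 0) : 1 ≤ ‖F.sK (a : K)‖ := by
  have h1 := F.absNorm a
  have h2 : Ideal.absNorm (Ideal.span {a}) ≠ 0 := by
    rw [Ne, Ideal.absNorm_eq_zero_iff, Ideal.span_singleton_eq_bot]
    exact h
  have h3 : (1 : ℝ) ≤ (Ideal.absNorm (Ideal.span {a}) : ℝ) := by
    exact_mod_cast Nat.one_le_iff_ne_zero.mpr h2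
  rw [h1] at h3
  have := norm_nonneg (F.sK (a : K))
  nlinarith

/-- PROOF. `Qf P v ≤ R` bounds `|v₁|² t ≤ R` and then `|v₁ z + v₂|² ≤ R t`; `Fld.finite_le`. -/
theorem Fld.finite_Qf (F : Fld K L) {P : ℂ × ℝ} (hP : P ∈ H3) (R : ℝ) :
    {v : 𝓞 K × 𝓞 K | Qf P (F.sK (v.1 : K), F.sK (v.2 : K)) ≤ R}.Finite := by
  have ht : 0 < P.2 := hP
  set R1 : ℝ := Real.sqrt (R / P.2) with hR1
  set R2 : ℝ := Real.sqrt (R * P.2) + R1 * ‖P.1‖ with hR2
  refine Set.Finite.subset ((F.finite_le R1).prod (F.finite_le R2)) ?_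
  rintro ⟨v1, v2⟩ hv
  have hv' : (‖F.sK (v1 : K) * P.1 + F.sK (v2 : K)‖ ^ 2 + ‖F.sK (v1 : K)‖ ^ 2 * P.2 ^ 2) / P.2 ≤ R := hv
  rw [div_le_iff₀ ht] at hv'
  have n1 := norm_nonneg (F.sK (v1 : K))
  have n2 := norm_nonneg (F.sK (v1 : K) * P.1 + F.sK (v2 : K))
  have e1 : ‖F.sK (v1 : K)‖ ≤ R1 := by
    apply Real.le_sqrt_of_sq_le
    rw [le_div_iff₀ ht]
    have h3 : ‖F.sK (v1 : K)‖ ^ 2 * P.2 * P.2 ≤ R * P.2 := by nlinarith
    exact le_of_mul_le_mul_right h3 ht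
  have e2 : ‖F.sK (v1 : K) * P.1 + F.sK (v2 : K)‖ ≤ Real.sqrt (R * P.2) := by
    apply Real.le_sqrt_of_sq_le
    nlinarith [sq_nonneg (‖F.sK (v1 : K)‖ * P.2)]
  refine ⟨e1, ?_⟩
  change ‖F.sK (v2 : K)‖ ≤ R2
  have h3 : F.sK (v2 : K) = (F.sK (v1 : K) * P.1 + F.sK (v2 : K)) - F.sK (v1 : K) * P.1 := by ring
  rw [h3]
  refine (norm_sub_le _ _).trans ?_
  rw [norm_mul, hR2]
  have := mul_le_mul_of_nonneg_right e1 (norm_nonneg P.1)
  linarith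

theorem Fld.b2_omega (F : Fld K L) : ∃ w : 𝓞 K, (F.sK (w : K)).im ≠ 0 := by
  obtain ⟨a, ha⟩ := F.sK_not_real
  by_contra hcon
  have hcon : ∀ w : 𝓞 K, (F.sK (w : K)).im = 0 := fun w => by
    by_contra h
    exact hcon ⟨w, h⟩
  obtain ⟨x, y, hy, hxy⟩ := IsFractionRing.div_surjective (A := 𝓞 K) a
  apply ha
  rw [Complex.conj_eq_iff_im, ← hxy, map_div₀]
  have hx := hcon x
  have hy := hcon y
  change ((F.sK (x : K)) / (F.sK (y : K))).im = 0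
  rw [Complex.div_im, hx, hy]
  ring

theorem Fld.b2_lin (F : Fld K L) (m n : ℤ) (w : 𝓞 K) :
    F.sK ((-((m : 𝓞 K) + (n : 𝓞 K) * w) : 𝓞 K) : K) = -((m : ℂ) + (n : ℂ) * F.sK (w : K)) := by
  have e : ∀ m : ℤ, (((m : 𝓞 K)) : K) = (m : K) := fun m => map_intCast (algebraMap (𝓞 K) K) m
  have h : ((-((m : 𝓞 K) + (n : 𝓞 K) * w) : 𝓞 K) : K) = -((m : K) + (n : K) * (w : K)) := by
    rw [← e m, ← e n]
    push_cast
    rfl
  rw [h, map_neg, map_add, map_mul, map_intCast, map_intCast]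

theorem b2_coord {w : ℂ} (hw : w.im ≠ 0) (z : ℂ) :
    z = ((z.re - z.im / w.im * w.re : ℝ) : ℂ) + ((z.im / w.im : ℝ) : ℂ) * w := by
  apply Complex.ext
  · simp
  · simp [hw]

/-- The translates of a disc by the integers cover the plane.  PROOF. Choose `ω ∈ 𝓞 K` with `F.sK ω` not real (`Fld.sK_not_real` times a
denominator); every complex number is `x + y ω` with `x, y` real; subtract integers. -/
theorem Fld.cover (F : Fld K L) : ∃ R : ℝ, ∀ z : ℂ, ∃ a : 𝓞 K, ‖z + F.sK (a : K)‖ < R := by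
  obtain ⟨w, hw⟩ := F.b2_omega
  refine ⟨2 + ‖F.sK (w : K)‖, fun z => ?_⟩
  set x := z.re - z.im / (F.sK (w : K)).im * (F.sK (w : K)).re with hx
  set y := z.im / (F.sK (w : K)).im with hy
  refine ⟨-((⌊x⌋ : 𝓞 K) + (⌊y⌋ : 𝓞 K) * w), ?_⟩
  have h1 : F.sK ((-((⌊x⌋ : 𝓞 K) + (⌊y⌋ : 𝓞 K) * w) : 𝓞 K) : K) = -((⌊x⌋ : ℂ) + (⌊y⌋ : ℂ) * F.sK (w : K)) :=
    F.b2_lin _ _ _
  have h2 : z + F.sK ((-((⌊x⌋ : 𝓞 K) + (⌊y⌋ : 𝓞 K) * w) : 𝓞 K) : K) =
      ((Int.fract x : ℝ) : ℂ) + ((Int.fract y : ℝ) : ℂ) * F.sK (w : K) := by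
    rw [h1]
    nth_rewrite 1 [b2_coord hw z]
    rw [← hx, ← hy, Int.fract, Int.fract]
    push_cast
    ring
  rw [h2]
  refine lt_of_le_of_lt (norm_add_le _ _) ?_
  rw [norm_mul, Complex.norm_real, Complex.norm_real, Real.norm_of_nonneg (Int.fract_nonneg _),
    Real.norm_of_nonneg (Int.fract_nonneg _)]
  have f1 := Int.fract_lt_one x
  have f2 := (Int.fract_lt_one y).le
  have := mul_le_mul_of_nonneg_right f2 (norm_nonneg (F.sK (w : K)))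
  linarith

theorem b2_floor {k : ℕ} (hk : 0 < k) {u v : ℝ} (hu : 0 ≤ u) (hv : 0 ≤ v) (h : ⌊(k : ℝ) * u⌋₊ = ⌊(k : ℝ) * v⌋₊) :
    |u - v| ≤ 1 / k := by
  have hk' : (0 : ℝ) < k := by exact_mod_cast hk
  have h1 := Nat.floor_le (mul_nonneg hk'.le hu)
  have h2 := Nat.lt_floor_add_one ((k : ℝ) * u)
  have h3 := Nat.floor_le (mul_nonneg hk'.le hv)
  have h4 := Nat.lt_floor_add_one ((k : ℝ) * v)
  rw [h] at h1 h2
  rw [abs_le, neg_le, le_div_iff₀ hk', le_div_iff₀ hk']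
  constructor <;> nlinarith

/-- PROOF. With `ω` as before write `j z = x_j + y_j ω` (`j = 0, ..., n`), and consider the fractional parts of `x_j`, `y_j` in boxes of side
`1 / k` with `k` large (`(1 + |ω|)² / k² ≤ 1 / 2`): for `n = k²` two of the `n + 1` points lie in the same box (pigeonhole), their difference gives
`c = j - i`. -/
theorem Fld.approx (F : Fld K L) : ∃ n : ℕ, ∀ z : ℂ, ∃ c : ℕ, 0 < c ∧ c ≤ n ∧ ∃ d : 𝓞 K, ‖(c : ℂ) * z + F.sK (d : K)‖ ^ 2 ≤ 1 / 2 := by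
  classical
  obtain ⟨w, hw⟩ := F.b2_omega
  obtain ⟨k, hk⟩ := exists_nat_gt (2 * (1 + ‖F.sK (w : K)‖))
  have hw0 := norm_nonneg (F.sK (w : K))
  have hkpos' : (0 : ℝ) < k := by linarith
  have hkpos : 0 < k := by exact_mod_cast hkpos'
  refine ⟨k * k, fun z => ?_⟩
  set X : ℕ → ℝ := fun j => ((j : ℂ) * z).re - ((j : ℂ) * z).im / (F.sK (w : K)).im * (F.sK (w : K)).re with hX
  set Y : ℕ → ℝ := fun j => ((j : ℂ) * z).im / (F.sK (w : K)).im with hY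
  have hXY : ∀ j : ℕ, (j : ℂ) * z = ((X j : ℝ) : ℂ) + ((Y j : ℝ) : ℂ) * F.sK (w : K) := fun j => b2_coord hw _
  set f : ℕ → ℕ × ℕ := fun j => (⌊(k : ℝ) * Int.fract (X j)⌋₊, ⌊(k : ℝ) * Int.fract (Y j)⌋₊) with hf
  have hlt : ∀ x : ℝ, ⌊(k : ℝ) * Int.fract x⌋₊ < k := by
    intro x
    rw [Nat.floor_lt (mul_nonneg hkpos'.le (Int.fract_nonneg _))]
    have := Int.fract_lt_one x
    nlinarith
  obtain ⟨i, hi, j, hj, hij, he⟩ := Finset.exists_ne_map_eq_of_card_lt_of_maps_to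
    (s := Finset.range (k * k + 1)) (t := Finset.range k ×ˢ Finset.range k) (f := f)
    (by rw [Finset.card_product, Finset.card_range, Finset.card_range]; exact Nat.lt_succ_self _)
    (by
      intro j _
      rw [Finset.mem_coe, Finset.mem_product, Finset.mem_range, Finset.mem_range]
      exact ⟨hlt _, hlt _⟩)
  have key : ∀ i j : ℕ, i < j → j < k * k + 1 → f i = f j →
      ∃ c : ℕ, 0 < c ∧ c ≤ k * k ∧ ∃ d : 𝓞 K, ‖(c : ℂ) * z + F.sK (d : K)‖ ^ 2 ≤ 1 / 2 := by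
    intro i j hlt hjk hfe
    refine ⟨j - i, by omega, by omega, -(((⌊X j⌋ - ⌊X i⌋ : ℤ) : 𝓞 K) + ((⌊Y j⌋ - ⌊Y i⌋ : ℤ) : 𝓞 K) * w), ?_⟩
    have h1 : F.sK ((-(((⌊X j⌋ - ⌊X i⌋ : ℤ) : 𝓞 K) + ((⌊Y j⌋ - ⌊Y i⌋ : ℤ) : 𝓞 K) * w) : 𝓞 K) : K) =
        -((((⌊X j⌋ - ⌊X i⌋ : ℤ)) : ℂ) + (((⌊Y j⌋ - ⌊Y i⌋ : ℤ)) : ℂ) * F.sK (w : K)) :=
      F.b2_lin _ _ _
    have h2 : (((j - i : ℕ)) : ℂ) * z + F.sK ((-(((⌊X j⌋ - ⌊X i⌋ : ℤ) : 𝓞 K) + ((⌊Y j⌋ - ⌊Y i⌋ : ℤ) : 𝓞 K) * w) : 𝓞 K) : K) =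
        ((Int.fract (X j) - Int.fract (X i) : ℝ) : ℂ) + ((Int.fract (Y j) - Int.fract (Y i) : ℝ) : ℂ) * F.sK (w : K) := by
      rw [h1, Nat.cast_sub hlt.le, sub_mul, hXY j, hXY i, Int.fract, Int.fract, Int.fract, Int.fract]
      push_cast
      ring
    rw [h2]
    have e1 : |Int.fract (X j) - Int.fract (X i)| ≤ 1 / k :=
      b2_floor hkpos (Int.fract_nonneg _) (Int.fract_nonneg _) (congrArg Prod.fst hfe).symm
    have e2 : |Int.fract (Y j) - Int.fract (Y i)| ≤ 1 / k :=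
      b2_floor hkpos (Int.fract_nonneg _) (Int.fract_nonneg _) (congrArg Prod.snd hfe).symm
    have e3 : ‖((Int.fract (X j) - Int.fract (X i) : ℝ) : ℂ) +
        ((Int.fract (Y j) - Int.fract (Y i) : ℝ) : ℂ) * F.sK (w : K)‖ ≤ 1 / 2 := by
      refine (norm_add_le _ _).trans ?_
      rw [norm_mul, Complex.norm_real, Complex.norm_real, Real.norm_eq_abs, Real.norm_eq_abs]
      have e4 := mul_le_mul_of_nonneg_right e2 hw0
      have e5 : 1 / (k : ℝ) * (1 + ‖F.sK (w : K)‖) ≤ 1 / 2 := by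
        rw [one_div, inv_mul_le_iff₀ hkpos']
        linarith
      linarith
    have e6 := norm_nonneg (((Int.fract (X j) - Int.fract (X i) : ℝ) : ℂ) +
        ((Int.fract (Y j) - Int.fract (Y i) : ℝ) : ℂ) * F.sK (w : K))
    nlinarith
  rcases Nat.lt_or_gt_of_ne hij with h | h
  · exact key i j h (Finset.mem_range.mp hj) he
  · exact key j i h (Finset.mem_range.mp hi) he.symm

end Pool.Agent.H2S
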