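import Pool.Agent.Lib.H2S.N3
import Pool.Agent.Lib.H2S.B2

/-!
# A0: an integer of `K` which is not real (module A, helper21)
-/

set_option autoImplicit false
namespace Pool.Agent.H2S
open Complex NumberField

variable {K L : Type*} [Field K] [NumberField K] [Field L] [NumberField L] [Algebra K L]

/-- CHUNK A0a (S/M).  PROOF. `Fld.sK_not_real` gives `a : K` with `F.sK a` not real; `IsIntegral.exists_multiple_integral_of_isLocalization`
or `NumberField.exists_..`: some `n > 0` (an integer) with `n a = ω ∈ 𝓞 K` (`exists_integral_multiple` / `IsFractionRing.div_surjective` with a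
denominator in `ℤ`: `IsAlgebraic`..).  `F.sK ω = n F.sK a` is not real, so `x + y F.sK ω = 0` with real `x, y` gives `y = 0`, `x = 0`:
`LinearIndependent.pair_iff`. -/
theorem Fld.exists_om (F : Fld K L) : ∃ ω : 𝓞 K, LinearIndependent ℝ ![(1 : ℂ), F.sK (ω : K)] := by
  obtain ⟨w, hw⟩ := F.b2_omega
  refine ⟨w, LinearIndependent.pair_iff.2 fun x y h => ?_⟩
  have h1 := congrArg Complex.im h
  rw [Complex.add_im, Complex.real_smul, Complex.real_smul, mul_one, Complex.ofReal_im, Complex.im_ofReal_mul, zero_add,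
    Complex.zero_im] at h1
  have hy : y = 0 := (mul_eq_zero.1 h1).resolve_right hw
  have h2 := congrArg Complex.re h
  rw [hy, zero_smul, add_zero, Complex.real_smul, mul_one, Complex.ofReal_re, Complex.zero_re] at h2
  exact ⟨h2, hy⟩

/-- CHUNK A0b (S).  PROOF. `LinearIndependent.pair_iff`, multiply by `D⁻¹`. -/
theorem Fld.lin_D (F : Fld K L) {ω : 𝓞 K} (h : LinearIndependent ℝ ![(1 : ℂ), F.sK (ω : K)]) {D : ℕ} (hD : 0 < D) :
    LinearIndependent ℝ ![(D : ℂ), (D : ℂ) * F.sK (ω : K)] := by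
  have hD' : (D : ℂ) ≠ 0 := Nat.cast_ne_zero.2 hD.ne'
  refine LinearIndependent.pair_iff.2 fun x y h1 => LinearIndependent.pair_iff.1 h x y ?_
  have h2 : (D : ℂ) * (x • (1 : ℂ) + y • F.sK (ω : K)) = 0 := by
    rw [← h1, Complex.real_smul, Complex.real_smul, Complex.real_smul, Complex.real_smul]
    ring
  exact (mul_eq_zero.1 h2).resolve_left hD'

/-- CHUNK A0c (S).  For `y ∈ K` with `y` integral: `2 Re (sK y)` is an integer.  PROOF. `Fld.trK`: `sK y + conj (sK y) = Tr y` and the trace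
of an integer is an integer (`Algebra.isIntegral_trace`, `IsIntegrallyClosed.isIntegral_iff` for `ℤ`, `ℚ`). -/
theorem Fld.two_re (F : Fld K L) (y : 𝓞 K) : ∃ k : ℤ, 2 * (F.sK (y : K)).re = k := by
  have h1 := F.trK (y : K)
  have h2 : IsIntegral ℤ (Algebra.trace ℚ K (y : K)) := Algebra.isIntegral_trace y.isIntegral_coe
  obtain ⟨k, hk⟩ := IsIntegrallyClosed.isIntegral_iff.1 h2
  refine ⟨k, ?_⟩
  have h3 : (F.sK (y : K)) + (starRingEnd ℂ) (F.sK (y : K)) = ((k : ℝ) : ℂ) := by
    rw [← h1, ← hk]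
    push_cast
    rfl
  rw [Complex.add_conj] at h3
  exact_mod_cast h3

end Pool.Agent.H2S
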