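import Pool.Agent.Lib.H2S.I0

/-!
# I1: a basis and the dual basis
-/

set_option autoImplicit false
namespace Pool.Agent.H2S
open Complex NumberField

variable {K L : Type*} [Field K] [NumberField K] [Field L] [NumberField L] [Algebra K L] {F : Fld K L}

/-- PROOF. `[L : ℚ] = 4`.  A nonzero ideal of `𝓞 L` is a free `ℤ`-module of rank `4` (`Ideal.finrank_eq_finrank` or `Module.finrank` of a submodule of
full rank; `Module.Free`, `Module.finBasisOfFinrankEq`), and the images of a basis in `L` form a `ℚ`-basis.  The bilinear form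
`(x, y) ↦ Tr (ν x τ y)` is nondegenerate (`traceForm_nondegenerate`, `ν ≠ 0`, `τ` bijective): dual basis (`LinearMap.BilinForm.dualBasis`, for the
form `Tr (ν x y)`, then apply `τ⁻¹`). -/
theorem exists_ZB (D : Lat F) : Nonempty (ZB D) := by
  classical
  have hν : algebraMap K L D.ν ≠ 0 := by
    have h1 : D.ν ≠ 0 := by
      unfold Lat.ν
      refine inv_ne_zero (mul_ne_zero ?_ ?_)
      · exact fun h => D.nne (RingOfIntegers.ext h)
      · exact fun h => D.δne (RingOfIntegers.ext h)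
    exact (map_ne_zero (algebraMap K L)).2 h1
  have hI : ((D.b : Ideal (𝓞 L)) : FractionalIdeal (nonZeroDivisors (𝓞 L)) L) ≠ 0 := FractionalIdeal.coeIdeal_ne_zero.2 D.bne
  obtain ⟨I, hIe⟩ : ∃ I : (FractionalIdeal (nonZeroDivisors (𝓞 L)) L)ˣ, (I : FractionalIdeal (nonZeroDivisors (𝓞 L)) L) = (D.b : FractionalIdeal (nonZeroDivisors (𝓞 L)) L) :=
    ⟨Units.mk0 _ hI, rfl⟩
  have h4 : Module.finrank ℚ L = 4 := by
    rw [← Module.finrank_mul_finrank ℚ K L, F.deg, F.deg2]
  have hcard : Fintype.card (Module.Free.ChooseBasisIndex ℤ I) = Fintype.card (Fin 4) := by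
    rw [← Module.finrank_eq_card_basis (basisOfFractionalIdeal L I), h4, Fintype.card_fin]
  obtain ⟨b, hb⟩ : ∃ b : Module.Basis (Fin 4) ℚ L, Set.range b = Set.range (basisOfFractionalIdeal L I) :=
    ⟨(basisOfFractionalIdeal L I).reindex (Fintype.equivOfCardEq hcard), Module.Basis.range_reindex _ _⟩
  have hmem : ∀ x : L, x ∈ Submodule.span ℤ (Set.range b) ↔ ∃ y ∈ D.b, (y : L) = x := by
    intro x
    rw [hb, mem_span_basisOfFractionalIdeal, hIe]
    exact FractionalIdeal.mem_coeIdeal _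
  have hB : ∀ j, ∃ y ∈ D.b, ((y : 𝓞 L) : L) = b j := fun j => (hmem _).1 (Submodule.subset_span ⟨j, rfl⟩)
  choose B hBm hBe using hB
  have hsum : ∀ k : Fin 4 → ℤ, ((∑ j, (k j : 𝓞 L) * B j : 𝓞 L) : L) = ∑ j, k j • b j := by
    intro k
    change algebraMap (𝓞 L) L (∑ j, (k j : 𝓞 L) * B j) = ∑ j, k j • b j
    rw [map_sum]
    refine Finset.sum_congr rfl fun j _ => ?_
    have h5 : algebraMap (𝓞 L) L (B j) = b j := hBe j
    rw [map_mul, h5, map_intCast, zsmul_eq_mul]
  refine ⟨{ B := B, mem := hBm, rep := ?_, inj := ?_,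
            B' := fun j => F.τ ((algebraMap K L D.ν)⁻¹ * (Algebra.traceForm ℚ L).dualBasis (traceForm_nondegenerate ℚ L) b j)
            dual := ?_ }⟩
  · intro x hx
    obtain ⟨k, hk⟩ := (Submodule.mem_span_range_iff_exists_fun ℤ).1 ((hmem (x : L)).2 ⟨x, hx, rfl⟩)
    refine ⟨k, RingOfIntegers.ext ?_⟩
    rw [hsum, hk]
  · intro k k' h
    have h1 : ((∑ j, (k j : 𝓞 L) * B j : 𝓞 L) : L) = ((∑ j, (k' j : 𝓞 L) * B j : 𝓞 L) : L) := by rw [h]
    rw [hsum, hsum] at h1
    have h2 : ∑ j, ((k j - k' j : ℤ) : ℚ) • b j = 0 := by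
      rw [← sub_eq_zero.2 h1, ← Finset.sum_sub_distrib]
      refine Finset.sum_congr rfl fun j _ => ?_
      rw [← sub_smul, Int.cast_smul_eq_zsmul]
    have h3 := (Fintype.linearIndependent_iff.1 b.linearIndependent) _ h2
    funext j
    have h5 := h3 j
    have h6 : k j - k' j = 0 := by exact_mod_cast h5
    omega
  · intro i j
    have h1 : algebraMap K L D.ν * (B i : L) * F.τ (F.τ ((algebraMap K L D.ν)⁻¹ *
        (Algebra.traceForm ℚ L).dualBasis (traceForm_nondegenerate ℚ L) b j)) =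
        b i * (Algebra.traceForm ℚ L).dualBasis (traceForm_nondegenerate ℚ L) b j := by
      rw [F.ττ, hBe]
      field_simp
    rw [h1]
    have h2 := LinearMap.BilinForm.apply_dualBasis_right (traceForm_nondegenerate ℚ L) (Algebra.traceForm_isSymm ℚ) b i j
    rwa [Algebra.traceForm_apply] at h2

end Pool.Agent.H2S
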