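import Pool.Agent.Lib.H2S.N0

/-!
# M1: means of periodic functions, independence of the subgroup
-/

set_option autoImplicit false
namespace Pool.Agent.H2S

variable {A : Type*} [AddCommGroup A] {J J' : AddSubgroup A} {f g : A → ℂ}

/-- Periodic functions take the same value on points of the same class. -/
theorem m1_eq (hf : Per J f) {x y : A} (h : (QuotientAddGroup.mk x : A ⧸ J) = QuotientAddGroup.mk y) : f x = f y := by
  have h1 : -x + y ∈ J := QuotientAddGroup.eq.1 h
  have h2 := hf x _ h1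
  rw [add_neg_cancel_left] at h2
  exact h2.symm

/-- PROOF. `f` factors through `A ⧸ J`: `f x = f (Quotient.out (x : A ⧸ J))` because `x - out ∈ J`.  The map `A ⧸ J' → A ⧸ J` is surjective and
all its fibres have the cardinality `Nat.card (J ⧸ J'.addSubgroupOf J) = J'.relIndex J`; `J'.relIndex J * J.index = J'.index`
(`AddSubgroup.relIndex_mul_index`).  So `∑ over A ⧸ J'` = `relIndex * ∑ over A ⧸ J` (both quotients are finite; `finsum_eq_sum_of_fintype`). -/
theorem mJ_le (h : J' ≤ J) (hJ : J'.FiniteIndex) (hf : Per J f) : mJ J' f = mJ J f := by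
  classical
  have hJ2 : J.FiniteIndex := AddSubgroup.finiteIndex_of_le h
  let e := AddSubgroup.quotientEquivProdOfLE h
  have : Finite (A ⧸ J') := inferInstance
  have : Finite (A ⧸ J) := inferInstance
  have hfp : Finite ((A ⧸ J) × (J ⧸ J'.addSubgroupOf J)) := Finite.of_equiv _ e
  have : Finite (J ⧸ J'.addSubgroupOf J) := by
    have : Nonempty (A ⧸ J) := ⟨0⟩
    exact Finite.prod_right (A ⧸ J)
  have := Fintype.ofFinite (A ⧸ J')
  have := Fintype.ofFinite (A ⧸ J)
  have := Fintype.ofFinite (J ⧸ J'.addSubgroupOf J)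
  unfold mJ
  rw [finsum_eq_sum_of_fintype, finsum_eq_sum_of_fintype]
  have h1 : ∀ q : A ⧸ J', f (Quotient.out q) = f (Quotient.out (e q).1) := by
    intro q
    apply m1_eq hf
    have h2 : (e q).1 = (QuotientAddGroup.mk (Quotient.out q) : A ⧸ J) := by
      conv_lhs => rw [← Quotient.out_eq q]
      rfl
    rw [← h2]
    exact (Quotient.out_eq (e q).1).symm
  have h3 : ∑ q : A ⧸ J', f (Quotient.out q)
      = (Nat.card (J ⧸ J'.addSubgroupOf J) : ℂ) * ∑ q : A ⧸ J, f (Quotient.out q) := by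
    rw [Finset.sum_congr rfl (fun q _ => h1 q),
      Fintype.sum_equiv e (fun q => f (Quotient.out (e q).1)) (fun p => f (Quotient.out p.1)) (fun q => rfl),
      Fintype.sum_prod_type]
    simp only [Finset.sum_const, Finset.card_univ, nsmul_eq_mul]
    rw [← Finset.mul_sum, Nat.card_eq_fintype_card]
  have h4 : (Nat.card (A ⧸ J') : ℂ) = (Nat.card (A ⧸ J) : ℂ) * (Nat.card (J ⧸ J'.addSubgroupOf J) : ℂ) := by
    rw [Nat.card_congr e, Nat.card_prod]
    push_cast
    ring
  have h5 : (Nat.card (A ⧸ J) : ℂ) ≠ 0 := by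
    have : Nonempty (A ⧸ J) := ⟨0⟩
    exact_mod_cast Nat.card_pos.ne'
  have h6 : (Nat.card (J ⧸ J'.addSubgroupOf J) : ℂ) ≠ 0 := by
    have : Nonempty (J ⧸ J'.addSubgroupOf J) := ⟨0⟩
    exact_mod_cast Nat.card_pos.ne'
  rw [h3, h4]
  field_simp

/-- PROOF. `mn f = mJ J₁ f` for the chosen `J₁` (`dif_pos`); compare both with `J₁ ⊓ J` (`mJ_le`; `f` is periodic with respect to `J₁` and to `J`). -/
theorem mn_eq (hJ : J.FiniteIndex) (hf : Per J f) : mn f = mJ J f := by
  have h : ∃ J : AddSubgroup A, J.FiniteIndex ∧ Per J f := ⟨J, hJ, hf⟩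
  have h0 : mn f = mJ h.choose f := by
    unfold mn
    rw [dif_pos h]
  obtain ⟨h1, h2⟩ := h.choose_spec
  have h3 : (h.choose ⊓ J).FiniteIndex := inferInstance
  rw [h0, ← mJ_le (inf_le_left : h.choose ⊓ J ≤ h.choose) h3 h2, mJ_le (inf_le_right : h.choose ⊓ J ≤ J) h3 hf]

/-- PROOF. Intersection of the two subgroups. -/
theorem IsPer.mul (hf : IsPer f) (hg : IsPer g) : IsPer (fun x => f x * g x) := by
  obtain ⟨J, hJ, h1⟩ := hf
  obtain ⟨J', hJ', h2⟩ := hg
  refine ⟨J ⊓ J', inferInstance, fun x y hy => ?_⟩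
  simp only [h1 x y hy.1, h2 x y hy.2]

/-- PROOF. Intersection of the two subgroups. -/
theorem IsPer.add (hf : IsPer f) (hg : IsPer g) : IsPer (fun x => f x + g x) := by
  obtain ⟨J, hJ, h1⟩ := hf
  obtain ⟨J', hJ', h2⟩ := hg
  refine ⟨J ⊓ J', inferInstance, fun x y hy => ?_⟩
  simp only [h1 x y hy.1, h2 x y hy.2]

theorem IsPer.const (c : ℂ) : IsPer (fun _ : A => c) :=
  ⟨⊤, inferInstance, fun _ _ _ => rfl⟩

/-- PROOF. Composition with a homomorphism `α`: the preimage of a subgroup of finite index has finite index (`AddSubgroup.comap`, the quotient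
`B ⧸ comap α J` embeds in `A ⧸ J`; there is an instance or `AddSubgroup.instFiniteIndex_comap`). -/
theorem IsPer.comp {B : Type*} [AddCommGroup B] (hf : IsPer f) (α : B →+ A) (a : A) : IsPer (fun x => f (α x + a)) := by
  obtain ⟨J, hJ, h1⟩ := hf
  have h3 : (J.comap α).FiniteIndex := by
    refine ⟨?_⟩
    rw [AddSubgroup.index_comap]
    exact (inferInstance : (J.addSubgroupOf α.range).FiniteIndex).index_ne_zero
  refine ⟨J.comap α, h3, fun x y hy => ?_⟩
  have h2 : α (x + y) + a = (α x + a) + α y := by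
    rw [map_add]; abel
  simp only [h2]
  exact h1 _ _ hy

end Pool.Agent.H2S
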