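import Pool.Agent.Lib.H2S.I2
import Pool.Agent.Lib.H2S.M1

/-!
# I3: sums over `L` and sums over `ℤ⁴`; the mean over `b`
-/

set_option autoImplicit false
namespace Pool.Agent.H2S
open Complex NumberField

variable {K L : Type*} [Field K] [NumberField K] [Field L] [NumberField L] [Algebra K L] {F : Fld K L}

theorem i3_lp (F : Fld K L) (ν : K) (v : Fin 4 → L) (q : Fin 4 → ℚ) :
    F.io ν (∑ j, ((q j : ℚ) : L) * v j) = ∑ j, ((q j : ℚ) : ℝ) • F.io ν (v j) := by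
  refine Prod.ext ?_ ?_
  · change F.s (algebraMap K L ν * ∑ j, ((q j : ℚ) : L) * v j) = (∑ j, ((q j : ℚ) : ℝ) • F.io ν (v j)).1
    rw [Prod.fst_sum, Finset.mul_sum, map_sum]
    refine Finset.sum_congr rfl fun j _ => ?_
    change F.s (algebraMap K L ν * (((q j : ℚ) : L) * v j)) = ((q j : ℚ) : ℝ) • F.s (algebraMap K L ν * v j)
    rw [Complex.real_smul, map_mul, map_mul, map_mul, map_ratCast, Complex.ofReal_ratCast]
    ring
  · change F.s (F.τ (∑ j, ((q j : ℚ) : L) * v j)) = (∑ j, ((q j : ℚ) : ℝ) • F.io ν (v j)).2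
    rw [Prod.snd_sum, map_sum, map_sum]
    refine Finset.sum_congr rfl fun j _ => ?_
    change F.s (F.τ (((q j : ℚ) : L) * v j)) = ((q j : ℚ) : ℝ) • F.s (F.τ (v j))
    rw [Complex.real_smul, map_mul, map_mul, map_ratCast, map_ratCast, Complex.ofReal_ratCast]

/-- The subgroup `M b`. -/
def i3_J (b : Ideal (𝓞 L)) (M : ℕ) : AddSubgroup b := (nsmulAddMonoidHom M : b →+ b).range

/-- The point with coordinates `k`. -/
def i3_pt {D : Lat F} (Z : ZB D) (k : Fin 4 → ℤ) : D.b :=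
  ⟨∑ j, (k j : 𝓞 L) * Z.B j, D.b.sum_mem fun j _ => D.b.mul_mem_left _ (Z.mem j)⟩

theorem i3_bij {D : Lat F} (Z : ZB D) {M : ℕ} (hM : 0 < M) : Function.Bijective
    (fun r : Fin 4 → Fin M => (QuotientAddGroup.mk (i3_pt Z fun j => ((r j : ℕ) : ℤ)) : D.b ⧸ i3_J D.b M)) := by
  constructor
  · intro r r' h
    have h1 : -(i3_pt Z fun j => ((r j : ℕ) : ℤ)) + (i3_pt Z fun j => ((r' j : ℕ) : ℤ)) ∈ i3_J D.b M := QuotientAddGroup.eq.1 h
    obtain ⟨z, hz⟩ := h1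
    obtain ⟨k, hk⟩ := Z.rep z z.2
    have h2 : ((M • z : D.b) : 𝓞 L) = -(∑ j, (((r j : ℕ) : ℤ) : 𝓞 L) * Z.B j) + ∑ j, (((r' j : ℕ) : ℤ) : 𝓞 L) * Z.B j :=
      congrArg Subtype.val hz
    rw [Submodule.coe_smul_of_tower, nsmul_eq_mul, hk] at h2
    have h3 : ∑ j, (((M : ℤ) * k j + ((r j : ℕ) : ℤ) : ℤ) : 𝓞 L) * Z.B j = ∑ j, (((r' j : ℕ) : ℤ) : 𝓞 L) * Z.B j := by
      have h4 : ∑ j, (((M : ℤ) * k j + ((r j : ℕ) : ℤ) : ℤ) : 𝓞 L) * Z.B j =
          (M : 𝓞 L) * ∑ j, (k j : 𝓞 L) * Z.B j + ∑ j, (((r j : ℕ) : ℤ) : 𝓞 L) * Z.B j := by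
        rw [Finset.mul_sum, ← Finset.sum_add_distrib]
        refine Finset.sum_congr rfl fun j _ => ?_
        push_cast
        ring
      rw [h4, h2]
      ring
    have h5 := Z.inj (fun j => (M : ℤ) * k j + ((r j : ℕ) : ℤ)) (fun j => ((r' j : ℕ) : ℤ)) h3
    funext j
    have h6 : (M : ℤ) * k j + ((r j : ℕ) : ℤ) = ((r' j : ℕ) : ℤ) := congrFun h5 j
    have h7 := congrArg (fun t : ℤ => t % (M : ℤ)) h6
    beta_reduce at h7
    rw [Int.mul_add_emod_self_left, Int.emod_eq_of_lt (by positivity) (by exact_mod_cast (r j).2),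
      Int.emod_eq_of_lt (by positivity) (by exact_mod_cast (r' j).2)] at h7
    exact Fin.ext (by exact_mod_cast h7)
  · intro q
    obtain ⟨x, rfl⟩ := QuotientAddGroup.mk_surjective q
    obtain ⟨k, hk⟩ := Z.rep x x.2
    have hM' : (0 : ℤ) < M := by exact_mod_cast hM
    have hr : ∀ j, ∃ r : Fin M, ((r : ℕ) : ℤ) = k j % (M : ℤ) := fun j => by
      have h1 := Int.emod_nonneg (k j) hM'.ne'
      have h2 := Int.emod_lt_of_pos (k j) hM'
      refine ⟨⟨(k j % (M : ℤ)).toNat, ?_⟩, ?_⟩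
      · omega
      · exact Int.toNat_of_nonneg h1
    choose r hr using hr
    refine ⟨r, ?_⟩
    refine QuotientAddGroup.eq.2 ⟨i3_pt Z fun j => k j / (M : ℤ), ?_⟩
    apply Subtype.ext
    change ((M • (i3_pt Z fun j => k j / (M : ℤ)) : D.b) : 𝓞 L) = -(∑ j, (((r j : ℕ) : ℤ) : 𝓞 L) * Z.B j) + (x : 𝓞 L)
    rw [Submodule.coe_smul_of_tower, nsmul_eq_mul, hk]
    change (M : 𝓞 L) * ∑ j, ((k j / (M : ℤ) : ℤ) : 𝓞 L) * Z.B j = _
    rw [neg_add_eq_sub, ← Finset.sum_sub_distrib, Finset.mul_sum]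
    refine Finset.sum_congr rfl fun j _ => ?_
    have h1 : (k j : 𝓞 L) = (M : 𝓞 L) * ((k j / (M : ℤ) : ℤ) : 𝓞 L) + (((r j : ℕ) : ℤ) : 𝓞 L) := by
      rw [hr]
      have h2 := Int.mul_ediv_add_emod (k j) (M : ℤ)
      have h3 := congrArg (fun t : ℤ => (t : 𝓞 L)) h2
      beta_reduce at h3
      rw [← h3]
      push_cast
      rfl
    rw [h1]
    ring

/-- PROOF. `k ↦ ∑ k_j B_j` is a bijection of `ℤ⁴` with `b` (`Z.rep`, `Z.inj`), the terms outside `b` are zero (`tsum` over the support: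
`Function.Injective.tsum_eq`), `ZB.lpB`. -/
theorem ZB.GL_eq {D : Lat F} (Z : ZB D) (ρ : ℝ) (φ : L → ℂ) (h : ∀ x, φ x ≠ 0 → ∃ y ∈ D.b, (y : L) = x) (P : ℂ × ℝ) :
    F.GL ρ D.ν φ P = G ρ (fun j => F.io D.ν (Z.B j : L)) (fun k => φ (∑ j, (k j : L) * (Z.B j : L))) P := by
  have hinj : Function.Injective fun k : Fin 4 → ℤ => ∑ j, (k j : L) * (Z.B j : L) := fun k k' h => by
    refine Z.inj k k' (RingOfIntegers.ext ?_)
    rw [i2_csum, i2_csum]
    exact h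
  unfold Fld.GL G
  have hsup : Function.support (fun x : L => (Fd ρ).indicator (fun y => φ x * W P y) (F.io D.ν x)) ⊆
      Set.range fun k : Fin 4 → ℤ => ∑ j, (k j : L) * (Z.B j : L) := by
    intro x hx
    have h1 : φ x ≠ 0 := by
      intro h0
      apply hx
      beta_reduce
      rw [h0]
      simp
    obtain ⟨y, hy, rfl⟩ := h x h1
    obtain ⟨k, hk⟩ := Z.rep y hy
    exact ⟨k, (i2_coe hk).symm⟩
  rw [← hinj.tsum_eq hsup]
  refine tsum_congr fun k => ?_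
  rw [Z.lpB]

/-- PROOF. `k ↦ ∑ (k_j / M) B'_j` is injective (`Z.dual`), the terms of the left side outside its range are zero. -/
theorem ZB.GL_eq' {D : Lat F} (Z : ZB D) (ρ : ℝ) {M : ℕ} (hM : 0 < M) (φ : L → ℂ)
    (h : ∀ x, φ x ≠ 0 → ∃ k : Fin 4 → ℤ, x = ∑ j, ((k j : L) / (M : L)) * Z.B' j) (P : ℂ × ℝ) :
    F.GL ρ D.ν φ P = G ρ (fun j => ((M : ℝ)⁻¹) • F.io D.ν (Z.B' j))
      (fun k => φ (∑ j, ((k j : L) / (M : L)) * Z.B' j)) P := by
  have hMq : (M : ℚ) ≠ 0 := by exact_mod_cast hM.ne'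
  have hcast : ∀ k : Fin 4 → ℤ, ∑ j, ((k j : L) / (M : L)) * Z.B' j = ∑ j, (((k j : ℚ) / (M : ℚ) : ℚ) : L) * Z.B' j := fun k => by
    refine Finset.sum_congr rfl fun j _ => ?_
    push_cast
    rfl
  have hinj : Function.Injective fun k : Fin 4 → ℤ => ∑ j, ((k j : L) / (M : L)) * Z.B' j := fun k k' hk => by
    beta_reduce at hk
    rw [hcast, hcast] at hk
    funext i
    have h1 := i2_tr Z (fun j => (k j : ℚ) / (M : ℚ)) i
    have h2 := i2_tr Z (fun j => (k' j : ℚ) / (M : ℚ)) i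
    beta_reduce at h1 h2
    rw [hk, h2, div_left_inj' hMq] at h1
    exact_mod_cast h1.symm
  unfold Fld.GL G
  have hsup : Function.support (fun x : L => (Fd ρ).indicator (fun y => φ x * W P y) (F.io D.ν x)) ⊆
      Set.range fun k : Fin 4 → ℤ => ∑ j, ((k j : L) / (M : L)) * Z.B' j := by
    intro x hx
    have h1 : φ x ≠ 0 := by
      intro h0
      apply hx
      beta_reduce
      rw [h0]
      simp
    obtain ⟨k, rfl⟩ := h x h1
    exact ⟨k, rfl⟩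
  rw [← hinj.tsum_eq hsup]
  refine tsum_congr fun k => ?_
  have e : lp (fun j => ((M : ℝ)⁻¹) • F.io D.ν (Z.B' j)) k = F.io D.ν (∑ j, ((k j : L) / (M : L)) * Z.B' j) := by
    rw [hcast, i3_lp, lp]
    refine Finset.sum_congr rfl fun j _ => ?_
    rw [smul_smul]
    congr 1
    push_cast
    rw [div_eq_mul_inv]
  rw [e]

/-- The mean over `b` of a function with period `M b`.  PROOF. `mn_eq` for `J = M b` (a subgroup of finite index of `b`; `(r_j) ↦ ∑ r_j B_j` is a bijection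
from `Fin 4 → Fin M` to the quotient, which has `M ^ 4` elements). -/
theorem ZB.mn_eq' {D : Lat F} (Z : ZB D) {M : ℕ} (hM : 0 < M) (f : L → ℂ)
    (hf : ∀ x ∈ D.b, ∀ y ∈ D.b, f ((x : L) + (M : L) * (y : L)) = f (x : L)) :
    mn (fun x : D.b => f ((x : 𝓞 L) : L)) =
      ((M : ℂ) ^ 4)⁻¹ * ∑ r : Fin 4 → Fin M, f (∑ j, (((r j : ℕ) : ℤ) : L) * (Z.B j : L)) := by
  have hper : Per (i3_J D.b M) (fun x : D.b => f ((x : 𝓞 L) : L)) := by
    rintro x y ⟨z, rfl⟩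
    have h1 := hf x x.2 z z.2
    have e : (((x + (nsmulAddMonoidHom M) z : D.b) : 𝓞 L) : L) = ((x : 𝓞 L) : L) + (M : L) * ((z : 𝓞 L) : L) := by
      have e1 : ((x + (nsmulAddMonoidHom M) z : D.b) : 𝓞 L) = (x : 𝓞 L) + (M : 𝓞 L) * (z : 𝓞 L) := by
        change (x : 𝓞 L) + ((M • z : D.b) : 𝓞 L) = _
        rw [Submodule.coe_smul_of_tower, nsmul_eq_mul]
      rw [e1]
      change algebraMap (𝓞 L) L ((x : 𝓞 L) + (M : 𝓞 L) * (z : 𝓞 L)) = _
      rw [map_add, map_mul, map_natCast]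
    beta_reduce
    rw [e]
    exact h1
  have hbij := i3_bij Z hM
  have hfin : Finite (D.b ⧸ i3_J D.b M) := Finite.of_equiv _ (Equiv.ofBijective _ hbij)
  have hfi : (i3_J D.b M).FiniteIndex := AddSubgroup.finiteIndex_of_finite_quotient
  rw [mn_eq hfi hper]
  unfold mJ
  have hcard : Nat.card (D.b ⧸ i3_J D.b M) = M ^ 4 := by
    rw [← Nat.card_congr (Equiv.ofBijective _ hbij), Nat.card_eq_fintype_card, Fintype.card_fun, Fintype.card_fin, Fintype.card_fin]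
  rw [hcard, ← finsum_comp_equiv (Equiv.ofBijective _ hbij), finsum_eq_sum_of_fintype]
  push_cast
  congr 1
  refine Finset.sum_congr rfl fun r _ => ?_
  have h1 : (fun x : D.b => f ((x : 𝓞 L) : L)) (Quotient.out (Equiv.ofBijective _ hbij r)) =
      (fun x : D.b => f ((x : 𝓞 L) : L)) (i3_pt Z fun j => ((r j : ℕ) : ℤ)) := by
    refine m1_eq hper ?_
    exact Quotient.out_eq (Equiv.ofBijective _ hbij r)
  refine h1.trans ?_
  beta_reduce
  have e3 : ((i3_pt Z (fun j => ((r j : ℕ) : ℤ)) : D.b) : 𝓞 L) = ∑ j, ((((r j : ℕ) : ℤ)) : 𝓞 L) * Z.B j := rfl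
  rw [e3, i2_csum]
  push_cast
  rfl

end Pool.Agent.H2S
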