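import Pool.Agent.Lib.H2S.M1

/-!
# M2: elementary properties of the mean
-/

set_option autoImplicit false
namespace Pool.Agent.H2S

variable {A : Type*} [AddCommGroup A] {f g : A → ℂ}

lemma m2_fin {J : AddSubgroup A} (hJ : J.FiniteIndex) : Finite (A ⧸ J) :=
  AddSubgroup.finite_quotient_of_finiteIndex

lemma m2_rep {J : AddSubgroup A} (hf : Per J f) {x y : A}
    (h : (QuotientAddGroup.mk x : A ⧸ J) = QuotientAddGroup.mk y) : f x = f y := by
  rw [QuotientAddGroup.eq] at h
  have h1 := hf x (-x + y) h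
  rw [add_neg_cancel_left] at h1
  exact h1.symm

/-- PROOF. `mn_eq` for the intersection `J` of the two subgroups of periods, `finsum_add_distrib`. -/
theorem mn_add (hf : IsPer f) (hg : IsPer g) : mn (fun x => f x + g x) = mn f + mn g := by
  obtain ⟨J1, h1, p1⟩ := hf
  obtain ⟨J2, h2, p2⟩ := hg
  have hJ : (J1 ⊓ J2).FiniteIndex := inferInstance
  have q1 : Per (J1 ⊓ J2) f := fun x y hy => p1 x y hy.1
  have q2 : Per (J1 ⊓ J2) g := fun x y hy => p2 x y hy.2
  have q3 : Per (J1 ⊓ J2) (fun x => f x + g x) := fun x y hy => by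
    change f (x + y) + g (x + y) = f x + g x
    rw [q1 x y hy, q2 x y hy]
  rw [mn_eq hJ q1, mn_eq hJ q2, mn_eq hJ q3]
  have := m2_fin hJ
  unfold mJ
  rw [finsum_add_distrib (Set.toFinite _) (Set.toFinite _), mul_add]

/-- PROOF. `mn_eq`, `mul_finsum` (for `f` not periodic and `c = 0` both sides are `0`: only the periodic case is needed). -/
theorem mn_mul_const (hf : IsPer f) (c : ℂ) : mn (fun x => c * f x) = c * mn f := by
  obtain ⟨J, hJ, p⟩ := hf
  have q : Per J (fun x => c * f x) := fun x y hy => by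
    change c * f (x + y) = c * f x
    rw [p x y hy]
  rw [mn_eq hJ p, mn_eq hJ q]
  have := m2_fin hJ
  unfold mJ
  have h : ∑ᶠ z : A ⧸ J, (fun x => c * f x) (Quotient.out z) = c * ∑ᶠ z : A ⧸ J, f (Quotient.out z) :=
    (mul_finsum (fun z : A ⧸ J => f (Quotient.out z)) c).symm
  rw [h]
  ring

/-- PROOF. `J = ⊤`: the quotient has one element. -/
theorem mn_const (c : ℂ) : mn (fun _ : A => c) = c := by
  have hJ : (⊤ : AddSubgroup A).FiniteIndex := inferInstance
  have q : Per (⊤ : AddSubgroup A) (fun _ => c) := fun _ _ _ => rfl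
  rw [mn_eq hJ q]
  have := m2_fin hJ
  have := Fintype.ofFinite (A ⧸ (⊤ : AddSubgroup A))
  unfold mJ
  rw [finsum_eq_sum_of_fintype, Finset.sum_const, nsmul_eq_mul, Finset.card_univ,
    Nat.card_eq_fintype_card, inv_mul_cancel_left₀]
  exact_mod_cast Fintype.card_ne_zero

/-- PROOF. The translation by `a` permutes `A ⧸ J`; `f (out q + a) = f (out (q + a))` by periodicity. -/
theorem mn_add_right (hf : IsPer f) (a : A) : mn (fun x => f (x + a)) = mn f := by
  obtain ⟨J, hJ, p⟩ := hf
  have q : Per J (fun x => f (x + a)) := fun x y hy => by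
    change f (x + y + a) = f (x + a)
    rw [add_right_comm]
    exact p _ y hy
  rw [mn_eq hJ p, mn_eq hJ q]
  unfold mJ
  congr 1
  have h1 : ∀ z : A ⧸ J, f (Quotient.out z + a) =
      f (Quotient.out ((Equiv.addRight (QuotientAddGroup.mk a : A ⧸ J)) z)) := by
    intro z
    refine m2_rep p ?_
    have h2 : ∀ w : A ⧸ J, (QuotientAddGroup.mk (Quotient.out w) : A ⧸ J) = w :=
      fun w => Quotient.out_eq w
    rw [h2, QuotientAddGroup.mk_add, h2]
    rfl
  rw [finsum_congr h1]
  exact finsum_comp_equiv (Equiv.addRight (QuotientAddGroup.mk a : A ⧸ J))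
    (f := fun z => f (Quotient.out z))

/-- PROOF. `mn f = mn (fun x => f (x + u)) = ζ * mn f` (`mn_add_right`, `mn_mul_const`). -/
theorem mn_zero_of_shift (hf : IsPer f) {u : A} {ζ : ℂ} (hζ : ζ ≠ 1) (h : ∀ x, f (x + u) = ζ * f x) : mn f = 0 := by
  have h1 := mn_add_right hf u
  rw [funext h, mn_mul_const hf] at h1
  have h2 : (ζ - 1) * mn f = 0 := by rw [sub_mul, one_mul, h1, sub_self]
  exact (mul_eq_zero.mp h2).resolve_left (sub_ne_zero.mpr hζ)

lemma m2_isPer_sum {ι : Type*} (s : Finset ι) {F : ι → A → ℂ} (hF : ∀ i ∈ s, IsPer (F i)) :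
    IsPer (fun x => ∑ i ∈ s, F i x) := by
  classical
  induction s using Finset.induction_on with
  | empty =>
    have h : (fun x : A => ∑ i ∈ (∅ : Finset ι), F i x) = fun _ => 0 := by
      funext x
      exact Finset.sum_empty
    rw [h]
    exact IsPer.const 0
  | insert i s hi ih =>
    have h : (fun x : A => ∑ i ∈ insert i s, F i x) = fun x => F i x + ∑ i ∈ s, F i x := by
      funext x
      exact Finset.sum_insert hi
    rw [h]
    exact IsPer.add (hF i (Finset.mem_insert_self i s))
      (ih fun j hj => hF j (Finset.mem_insert_of_mem hj))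

/-- PROOF. Finite sums: induction with `mn_add`. -/
theorem mn_sum {ι : Type*} (s : Finset ι) {F : ι → A → ℂ} (hF : ∀ i ∈ s, IsPer (F i)) :
    mn (fun x => ∑ i ∈ s, F i x) = ∑ i ∈ s, mn (F i) := by
  classical
  induction s using Finset.induction_on with
  | empty =>
    have h : (fun x : A => ∑ i ∈ (∅ : Finset ι), F i x) = fun _ => 0 := by
      funext x
      exact Finset.sum_empty
    rw [h, mn_const, Finset.sum_empty]
  | insert i s hi ih =>
    have h : (fun x : A => ∑ i ∈ insert i s, F i x) = fun x => F i x + ∑ i ∈ s, F i x := by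
      funext x
      exact Finset.sum_insert hi
    rw [h, mn_add (hF i (Finset.mem_insert_self i s))
      (m2_isPer_sum s fun j hj => hF j (Finset.mem_insert_of_mem hj)),
      ih fun j hj => hF j (Finset.mem_insert_of_mem hj), Finset.sum_insert hi]

end Pool.Agent.H2S
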