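import Pool.Agent.Lib.H2S.TStm
import Pool.Agent.Lib.H2S.I1
import Pool.Agent.Lib.H2S.I3
import Pool.Agent.Lib.H2S.M2

/-!
# I4: Theorem W for an ideal
-/

set_option autoImplicit false
namespace Pool.Agent.H2S
open Complex NumberField

variable {K L : Type*} [Field K] [NumberField K] [Field L] [NumberField L] [Algebra K L] {F : Fld K L}

theorem i4_shift {b : Ideal (𝓞 L)} (M : ℕ) (x z : b) :
    (((x + M • z : b) : 𝓞 L) : L) = ((x : 𝓞 L) : L) + (M : L) * ((z : 𝓞 L) : L) := by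
  have e1 : ((x + M • z : b) : 𝓞 L) = (x : 𝓞 L) + (M : 𝓞 L) * (z : 𝓞 L) := by
    change (x : 𝓞 L) + ((M • z : b) : 𝓞 L) = _
    rw [Submodule.coe_smul_of_tower, nsmul_eq_mul]
  rw [e1]
  change algebraMap (𝓞 L) L ((x : 𝓞 L) + (M : 𝓞 L) * (z : 𝓞 L)) = _
  rw [map_add, map_mul, map_natCast]

theorem i4_per {b : Ideal (𝓞 L)} {M : ℕ} {f : L → ℂ}
    (hf : ∀ x ∈ b, ∀ y ∈ b, f ((x : L) + (M : L) * (y : L)) = f (x : L)) : Per (i3_J b M) (fun x : b => f ((x : 𝓞 L) : L)) := by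
  rintro x y ⟨z, rfl⟩
  beta_reduce
  have e := i4_shift M x z
  have e2 : (nsmulAddMonoidHom M : b →+ b) z = M • z := rfl
  rw [e2, e]
  exact hf x x.2 z z.2

theorem i4_fin {D : Lat F} (Z : ZB D) {M : ℕ} (hM : 0 < M) : (i3_J D.b M).FiniteIndex := by
  have hfin : Finite (D.b ⧸ i3_J D.b M) := Finite.of_equiv _ (Equiv.ofBijective _ (i3_bij Z hM))
  exact AddSubgroup.finiteIndex_of_finite_quotient

theorem i4_den {D : Lat F} (Z : ZB D) (v : L) : ∃ N : ℕ, 0 < N ∧ ∃ k : Fin 4 → ℤ, v = ∑ j, ((k j : L) / (N : L)) * Z.B' j := by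
  have hex := Z.expand v
  obtain ⟨q, hq⟩ : ∃ q : Fin 4 → ℚ, q = fun j => Algebra.trace ℚ L (algebraMap K L D.ν * (Z.B j : L) * F.τ v) := ⟨_, rfl⟩
  have hv : v = ∑ j, ((q j : ℚ) : L) * Z.B' j := by
    rw [hq]
    exact hex
  refine ⟨∏ j, (q j).den, Finset.prod_pos fun j _ => (q j).den_pos, fun j => (q j).num * ((∏ i ∈ Finset.univ.erase j, (q i).den : ℕ) : ℤ), ?_⟩
  conv_lhs => rw [hv]
  refine Finset.sum_congr rfl fun j _ => ?_
  congr 1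
  have h1 : (((∏ j, (q j).den : ℕ) : ℕ) : L) = ((q j).den : L) * ((∏ i ∈ Finset.univ.erase j, (q i).den : ℕ) : L) := by
    rw [← Finset.mul_prod_erase Finset.univ (fun i => (q i).den) (Finset.mem_univ j)]
    push_cast
    rfl
  have h2 : ((∏ i ∈ Finset.univ.erase j, (q i).den : ℕ) : L) ≠ 0 := by
    exact_mod_cast (Finset.prod_pos fun i _ => (q i).den_pos).ne'
  have h3 : ((q j).den : L) ≠ 0 := by exact_mod_cast (q j).den_pos.ne'
  rw [h1, Int.cast_mul, Int.cast_natCast, mul_div_mul_right _ _ h2]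
  exact Rat.cast_def (q j)

theorem i4_G (ρ : ℝ) (b : Fin 4 → ℂ × ℂ) (c : ℂ) (φ : (Fin 4 → ℤ) → ℂ) (P : ℂ × ℝ) :
    G ρ b (fun k => c * φ k) P = c * G ρ b φ P := by
  unfold G
  rw [← tsum_mul_left]
  refine tsum_congr fun m => ?_
  by_cases h : lp b m ∈ Fd ρ
  · rw [Set.indicator_of_mem h, Set.indicator_of_mem h]
    ring
  · rw [Set.indicator_of_notMem h, Set.indicator_of_notMem h, mul_zero]

/-- The Fourier transform of a function with period `M b` vanishes outside the dual of `M b`.  PROOF. By `ZB.mem_dual` there is `x₀ ∈ b` with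
`ζ = eQ (ν (M x₀) τ v) ≠ 1`; the function `f x = φ x * eQ (ν x τ v)` satisfies `f (x + M x₀) = ζ f x` (`eQ_add`); it is periodic with respect to `M' b`
for some multiple `M'` of `M` (`v` has a denominator); `mn_zero_of_shift`. -/
theorem ZB.FT_supp {D : Lat F} (Z : ZB D) {M : ℕ} (hM : 0 < M) (φ : L → ℂ)
    (hφ : ∀ x ∈ D.b, ∀ y ∈ D.b, φ ((x : L) + (M : L) * (y : L)) = φ (x : L)) (v : L) (hv : F.FT D.ν D.b φ v ≠ 0) :
    ∃ k : Fin 4 → ℤ, v = ∑ j, ((k j : L) / (M : L)) * Z.B' j := by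
  by_contra hk
  have h0 : ¬ ∀ x ∈ D.b, eQ (algebraMap K L D.ν * ((M : L) * (x : L)) * F.τ v) = 1 := fun h => hk ((Z.mem_dual hM v).1 h)
  push Not at h0
  obtain ⟨x₀, hx₀, hζ⟩ := h0
  apply hv
  unfold Fld.FT
  obtain ⟨N, hN, hNv⟩ := i4_den Z v
  have p1 : IsPer (fun x : D.b => φ ((x : 𝓞 L) : L)) := ⟨i3_J D.b M, i4_fin Z hM, i4_per hφ⟩
  have p2 : IsPer (fun x : D.b => eQ (algebraMap K L D.ν * ((x : 𝓞 L) : L) * F.τ v)) :=
    ⟨i3_J D.b N, i4_fin Z hN, i4_per (f := fun x => eQ (algebraMap K L D.ν * x * F.τ v)) fun x hx y hy => by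
      have h1 := (Z.mem_dual hN v).2 hNv y hy
      have e : algebraMap K L D.ν * ((x : L) + (N : L) * (y : L)) * F.τ v =
          algebraMap K L D.ν * (x : L) * F.τ v + algebraMap K L D.ν * ((N : L) * (y : L)) * F.τ v := by ring
      rw [e, eQ_add, h1, mul_one]⟩
  refine mn_zero_of_shift (p1.mul p2) (u := M • (⟨x₀, hx₀⟩ : D.b)) hζ fun x => ?_
  rw [i4_shift, hφ x x.2 x₀ hx₀]
  have e : algebraMap K L D.ν * (((x : 𝓞 L) : L) + (M : L) * (x₀ : L)) * F.τ v =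
      algebraMap K L D.ν * ((M : L) * (x₀ : L)) * F.τ v + algebraMap K L D.ν * ((x : 𝓞 L) : L) * F.τ v := by ring
  rw [e, eQ_add]
  ring

/-- PROOF. `ZB.mn_eq'` for `f x = φ x * eQ (ν x τ v)` with `v = ∑ (k_j / M) B'_j`: `f` has the period `M b`, and
`Tr (ν x τ v) = ∑ r_j k_j / M` for `x = ∑ r_j B_j` (`Z.dual`). -/
theorem ZB.FT_eq {D : Lat F} (Z : ZB D) {M : ℕ} (hM : 0 < M) (φ : L → ℂ)
    (hφ : ∀ x ∈ D.b, ∀ y ∈ D.b, φ ((x : L) + (M : L) * (y : L)) = φ (x : L)) (k : Fin 4 → ℤ) :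
    F.FT D.ν D.b φ (∑ j, ((k j : L) / (M : L)) * Z.B' j) =
      ((M : ℂ) ^ 4)⁻¹ * fh M (fun r => φ (∑ j, (r j : L) * (Z.B j : L))) k := by
  have hMq : (M : ℚ) ≠ 0 := by exact_mod_cast hM.ne'
  unfold Fld.FT
  have hper : ∀ x ∈ D.b, ∀ y ∈ D.b,
      (fun x : L => φ x * eQ (algebraMap K L D.ν * x * F.τ (∑ j, ((k j : L) / (M : L)) * Z.B' j))) ((x : L) + (M : L) * (y : L)) =
      (fun x : L => φ x * eQ (algebraMap K L D.ν * x * F.τ (∑ j, ((k j : L) / (M : L)) * Z.B' j))) (x : L) := fun x hx y hy => by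
    beta_reduce
    have h1 := (Z.mem_dual hM (∑ j, ((k j : L) / (M : L)) * Z.B' j)).2 ⟨k, rfl⟩ y hy
    generalize (∑ j, ((k j : L) / (M : L)) * Z.B' j) = v at h1 ⊢
    have e : algebraMap K L D.ν * ((x : L) + (M : L) * (y : L)) * F.τ v =
        algebraMap K L D.ν * (x : L) * F.τ v + algebraMap K L D.ν * ((M : L) * (y : L)) * F.τ v := by ring
    rw [e, eQ_add, h1, mul_one, hφ x hx y hy]
  have h1 := Z.mn_eq' hM (fun x : L => φ x * eQ (algebraMap K L D.ν * x * F.τ (∑ j, ((k j : L) / (M : L)) * Z.B' j))) hper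
  refine h1.trans ?_
  congr 1
  unfold fh
  refine Finset.sum_congr rfl fun r _ => ?_
  beta_reduce
  congr 1
  unfold eQ
  have h2 : Algebra.trace ℚ L (algebraMap K L D.ν * (∑ j, (((r j : ℕ) : ℤ) : L) * (Z.B j : L)) *
      F.τ (∑ j, ((k j : L) / (M : L)) * Z.B' j)) = ∑ j, ((r j : ℕ) : ℚ) * ((k j : ℚ) / (M : ℚ)) := by
    have h3 : ∀ j, Algebra.trace ℚ L (algebraMap K L D.ν * (Z.B j : L) * F.τ (∑ j, ((k j : L) / (M : L)) * Z.B' j)) =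
        (k j : ℚ) / (M : ℚ) := fun j => by
      have h4 := i2_tr Z (fun j => (k j : ℚ) / (M : ℚ)) j
      have h5 : ∑ j, (((k j : ℚ) / (M : ℚ) : ℚ) : L) * Z.B' j = ∑ j, ((k j : L) / (M : L)) * Z.B' j := by
        refine Finset.sum_congr rfl fun j _ => ?_
        push_cast
        rfl
      rw [h5] at h4
      exact h4
    generalize (∑ j, ((k j : L) / (M : L)) * Z.B' j) = v at h3 ⊢
    have h6 : algebraMap K L D.ν * (∑ j, (((r j : ℕ) : ℤ) : L) * (Z.B j : L)) * F.τ v =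
        ∑ j, ((r j : ℕ) : ℚ) • (algebraMap K L D.ν * (Z.B j : L) * F.τ v) := by
      rw [Finset.mul_sum, Finset.sum_mul]
      refine Finset.sum_congr rfl fun j _ => ?_
      rw [Algebra.smul_def, map_natCast]
      push_cast
      ring
    rw [h6, map_sum]
    refine Finset.sum_congr rfl fun j _ => ?_
    rw [map_smul, h3, smul_eq_mul]
  rw [h2]
  congr 1
  push_cast
  rw [mul_div_assoc, Finset.sum_div]
  congr 1
  refine Finset.sum_congr rfl fun j _ => ?_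
  ring

/-- THEOREM W for the ideal `b`.  PROOF. `thW` with `b = io (B_j)`, `b' = io (B'_j)` (`ZB.dual'`, `ZB.stab`, `ZB.stab'`); `ZB.GL_eq` for `φ`,
`ZB.GL_eq'` (`ZB.FT_supp`) and `ZB.FT_eq` for the Fourier transform; `F.s` of the inverse of `η`. -/
theorem thWL (H : Eta F) (D : Lat F) : ∃ κ : ℝ, 0 < κ ∧ ∀ φ : L → ℂ,
    (∀ x, φ x ≠ 0 → ∃ y ∈ D.b, (y : L) = x) →
    (∃ M : ℕ, 0 < M ∧ ∀ x ∈ D.b, ∀ y ∈ D.b, φ ((x : L) + (M : L) * (y : L)) = φ (x : L)) →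
    (∀ x, φ (((H.η : 𝓞 L) : L) * x) * (F.s ((H.η : 𝓞 L) : L) * (starRingEnd ℂ) (F.s ((H.η : 𝓞 L) : L))⁻¹) = φ x) →
    ∃ C : ℂ, ∀ P ∈ H3, F.GL (‖F.s ((H.η : 𝓞 L) : L)‖ ^ 2) D.ν φ (wi P) =
      (κ : ℂ) * F.GL (‖F.s ((H.η : 𝓞 L) : L)‖ ^ 2) D.ν (F.FT D.ν D.b φ) P + C := by
  obtain ⟨Z⟩ := exists_ZB D
  obtain ⟨e, he1, he⟩ := Z.stab H
  obtain ⟨e', he'⟩ := Z.stab' H
  obtain ⟨κ, hκ, hW⟩ := thW _ _ Z.dual' (F.s ((H.η : 𝓞 L) : L)) H.gt e e' he he'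
  refine ⟨κ, hκ, fun φ h1 h2 h3 => ?_⟩
  obtain ⟨M, hM, hφ⟩ := h2
  have hMr : (M : ℂ) ≠ 0 := by exact_mod_cast hM.ne'
  obtain ⟨C, hC⟩ := hW M hM (fun k => φ (∑ j, (k j : L) * (Z.B j : L))) (fun m k => by
    have h4 := hφ (i3_pt Z m) (i3_pt Z m).2 (i3_pt Z k) (i3_pt Z k).2
    have e1 : ((i3_pt Z m : 𝓞 L) : L) = ∑ j, (m j : L) * (Z.B j : L) := i2_csum m Z.B
    have e2 : ((i3_pt Z k : 𝓞 L) : L) = ∑ j, (k j : L) * (Z.B j : L) := i2_csum k Z.B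
    rw [e1, e2] at h4
    rw [← h4]
    congr 1
    rw [Finset.mul_sum, ← Finset.sum_add_distrib]
    refine Finset.sum_congr rfl fun j _ => ?_
    rw [Pi.add_apply, Pi.smul_apply, smul_eq_mul]
    push_cast
    ring) (fun m => by
    rw [he1]
    exact h3 _)
  refine ⟨C, fun P hP => ?_⟩
  have e1 := Z.GL_eq (‖F.s ((H.η : 𝓞 L) : L)‖ ^ 2) φ h1 (wi P)
  have e2 := Z.GL_eq' (‖F.s ((H.η : 𝓞 L) : L)‖ ^ 2) hM (F.FT D.ν D.b φ) (fun v hv => Z.FT_supp hM φ hφ v hv) P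
  rw [e1, e2, hC P hP]
  congr 1
  have e3 : (fun k : Fin 4 → ℤ => F.FT D.ν D.b φ (∑ j, ((k j : L) / (M : L)) * Z.B' j)) =
      fun k => ((M : ℂ) ^ 4)⁻¹ * fh M (fun r => φ (∑ j, (r j : L) * (Z.B j : L))) k := funext fun k => Z.FT_eq hM φ hφ k
  rw [e3, i4_G]
  push_cast
  field_simp

end Pool.Agent.H2S
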