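import Pool.Agent.Lib.H2S.N2

/-!
# N4: trace duality
-/

set_option autoImplicit false
namespace Pool.Agent.H2S
open Complex NumberField

variable {K L : Type*} [Field K] [NumberField K] [Field L] [NumberField L] [Algebra K L]

open nonZeroDivisors in
theorem n4_dual (A K B L : Type*) [CommRing A] [Field K] [CommRing B] [Field L] [Algebra A K] [Algebra B L]
    [Algebra A B] [Algebra K L] [Algebra A L] [IsScalarTower A K L] [IsScalarTower A B L] [IsDomain A]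
    [IsFractionRing A K] [FiniteDimensional K L] [Algebra.IsSeparable K L] [IsIntegralClosure B A L]
    [IsIntegrallyClosed A] [IsDedekindDomain B] [IsFractionRing B L] [Module.IsTorsionFree A B] (v : L) :
    (∀ b : B, Algebra.trace K L (v * algebraMap B L b) ∈ (algebraMap A K).range) ↔
      ∀ y ∈ differentIdeal A B, ∃ c : B, v * algebraMap B L y = algebraMap B L c := by
  have h1 : (1 : FractionalIdeal B⁰ L) ≠ 0 := one_ne_zero
  have h2 : v ∈ FractionalIdeal.dual A K (1 : FractionalIdeal B⁰ L) ↔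
      ∀ b : B, Algebra.trace K L (v * algebraMap B L b) ∈ (algebraMap A K).range := by
    rw [FractionalIdeal.mem_dual h1]
    constructor
    · intro h b
      exact h _ ((FractionalIdeal.mem_one_iff _).2 ⟨b, rfl⟩)
    · rintro h a ha
      obtain ⟨b, rfl⟩ := (FractionalIdeal.mem_one_iff _).1 ha
      exact h b
  have h3 : ((differentIdeal A B : Ideal B) : FractionalIdeal B⁰ L) ≠ 0 := by
    rw [coeIdeal_differentIdeal A K]
    exact inv_ne_zero (FractionalIdeal.dual_ne_zero A K h1)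
  rw [← h2, ← inv_inv (FractionalIdeal.dual A K (1 : FractionalIdeal B⁰ L)),
    ← coeIdeal_differentIdeal A K L B, FractionalIdeal.mem_inv_iff h3]
  constructor
  · intro h y hy
    have h4 := h _ (FractionalIdeal.mem_coeIdeal_of_mem _ hy)
    obtain ⟨c, hc⟩ := (FractionalIdeal.mem_one_iff _).1 h4
    exact ⟨c, hc.symm⟩
  · intro h y hy
    obtain ⟨y, hy', rfl⟩ := (FractionalIdeal.mem_coeIdeal _).1 hy
    obtain ⟨c, hc⟩ := h y hy'
    exact (FractionalIdeal.mem_one_iff _).2 ⟨c, hc.symm⟩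

/-- PROOF. `𝓞 K` is a principal ideal ring (`F.pid`); the different is not `⊥` (`differentIdeal_ne_bot`). -/
theorem Fld.exists_delta (F : Fld K L) : ∃ δ : 𝓞 K, δ ≠ 0 ∧ differentIdeal ℤ (𝓞 K) = Ideal.span {δ} := by
  obtain ⟨δ, hδ⟩ := (F.pid.principal (differentIdeal ℤ (𝓞 K)))
  refine ⟨δ, ?_, hδ⟩
  rintro rfl
  have h1 : differentIdeal ℤ (𝓞 K) = ⊥ := hδ.trans (Submodule.span_zero_singleton _)
  exact differentIdeal_ne_bot h1

/-- PROOF. The trace dual of `𝓞 K` is the inverse of the different `(δ)` (`coeIdeal_differentIdeal`, `FractionalIdeal.mem_dual`), i.e. `δ⁻¹ 𝓞 K`. -/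
theorem dualK {δ : 𝓞 K} (h0 : δ ≠ 0) (hd : differentIdeal ℤ (𝓞 K) = Ideal.span {δ}) (a : K) :
    (∀ b : 𝓞 K, eQ (a * b) = 1) ↔ ∃ c : 𝓞 K, a * δ = c := by
  have h1 : (∀ b : 𝓞 K, eQ (a * b) = 1) ↔
      ∀ b : 𝓞 K, Algebra.trace ℚ K (a * algebraMap (𝓞 K) K b) ∈ (algebraMap ℤ ℚ).range := by
    refine forall_congr' fun b => ?_
    rw [eQ_eq_one]
    constructor
    · rintro ⟨m, hm⟩
      exact ⟨m, hm.symm⟩
    · rintro ⟨m, hm⟩
      exact ⟨m, hm.symm⟩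
  rw [h1, n4_dual ℤ ℚ (𝓞 K) K a, hd]
  constructor
  · intro h
    exact h δ (Ideal.mem_span_singleton_self δ)
  · rintro ⟨c, hc⟩ y hy
    obtain ⟨z, rfl⟩ := Ideal.mem_span_singleton.1 hy
    refine ⟨c * z, ?_⟩
    rw [map_mul, map_mul, ← mul_assoc]
    exact congrArg (fun t => t * algebraMap (𝓞 K) K z) hc

theorem Fld.n4_tr (F : Fld K L) (a : K) (z : L) : eQ (algebraMap K L a * z) = eQ (a * Algebra.trace K L z) := by
  rw [F.eQL, ← Algebra.smul_def, map_smul, smul_eq_mul]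

theorem n4_one {δ : 𝓞 K} (h0 : δ ≠ 0) (hd : differentIdeal ℤ (𝓞 K) = Ideal.span {δ}) (z : 𝓞 K) :
    eQ ((δ : K)⁻¹ * (z : K)) = 1 := by
  refine (dualK h0 hd _).2 ⟨1, ?_⟩ z
  have h1 : (δ : K) ≠ 0 := by
    intro h
    exact h0 (RingOfIntegers.coe_injective (h.trans (map_zero _).symm))
  rw [inv_mul_cancel₀ h1]
  exact (map_one (algebraMap (𝓞 K) K)).symm

theorem n4_iff {δ : 𝓞 K} (h0 : δ ≠ 0) (hd : differentIdeal ℤ (𝓞 K) = Ideal.span {δ}) (t : K) :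
    (∀ b : 𝓞 K, eQ ((δ : K)⁻¹ * t * b) = 1) ↔ ∃ c : 𝓞 K, t = c := by
  rw [dualK h0 hd]
  have h1 : (δ : K) ≠ 0 := by
    intro h
    exact h0 (RingOfIntegers.coe_injective (h.trans (map_zero _).symm))
  rw [show (δ : K)⁻¹ * t * δ = t by field_simp]

/-- PROOF. `v ∈ L`, `I` an ideal.  `eQ (δ⁻¹ x v b) = eQ (δ⁻¹ Tr_{L/K}(x v) b)` for `b ∈ 𝓞 K` (`Fld.eQL`), so by `dualK` the left side says that
`Tr_{L/K}(x v) ∈ 𝓞 K` for all `x ∈ I` (`I` is stable under `𝓞 K`), and as `I` is an ideal of `𝓞 L`: `x v` is in the trace dual of `𝓞 L` over `𝓞 K`, the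
inverse of the different (`coeIdeal_differentIdeal`), for all `x ∈ I`. -/
theorem Fld.dualL (F : Fld K L) {δ : 𝓞 K} (h0 : δ ≠ 0) (hd : differentIdeal ℤ (𝓞 K) = Ideal.span {δ}) (I : Ideal (𝓞 L))
    (v : L) : (∀ x ∈ I, eQ (algebraMap K L (δ : K)⁻¹ * ((x : 𝓞 L) : L) * v) = 1) ↔
      ∀ x ∈ I, ∀ y ∈ differentIdeal (𝓞 K) (𝓞 L), ∃ c : 𝓞 L, ((x : 𝓞 L) : L) * ((y : 𝓞 L) : L) * v = (c : L) := by
  have hL : (∀ x ∈ I, eQ (algebraMap K L (δ : K)⁻¹ * ((x : 𝓞 L) : L) * v) = 1) ↔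
      ∀ x ∈ I, ∃ c : 𝓞 K, Algebra.trace K L (((x : 𝓞 L) : L) * v) = c := by
    constructor
    · intro h x hx
      refine (n4_iff h0 hd _).1 fun b => ?_
      have h1 := h (algebraMap (𝓞 K) (𝓞 L) b * x) (I.mul_mem_left _ hx)
      have h2 : ((algebraMap (𝓞 K) (𝓞 L) b * x : 𝓞 L) : L) = algebraMap K L (b : K) * (x : L) := by
        exact map_mul (algebraMap (𝓞 L) L) _ _
      rw [mul_assoc, F.n4_tr, h2, mul_assoc, ← Algebra.smul_def, map_smul, smul_eq_mul] at h1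
      rw [← h1]
      congr 1
      ring
    · intro h x hx
      obtain ⟨c, hc⟩ := h x hx
      rw [mul_assoc, F.n4_tr, hc]
      exact n4_one h0 hd c
  rw [hL]
  have hM : ∀ x ∈ I, (∀ b : 𝓞 L, ∃ c : 𝓞 K, Algebra.trace K L (((x : 𝓞 L) : L) * v * (b : L)) = c) ↔
      ∀ y ∈ differentIdeal (𝓞 K) (𝓞 L), ∃ c : 𝓞 L, ((x : 𝓞 L) : L) * ((y : 𝓞 L) : L) * v = (c : L) := by
    intro x _
    have h1 := n4_dual (𝓞 K) K (𝓞 L) L ((x : L) * v)
    have h2 : (∀ b : 𝓞 L, ∃ c : 𝓞 K, Algebra.trace K L (((x : 𝓞 L) : L) * v * (b : L)) = c) ↔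
        ∀ b : 𝓞 L, Algebra.trace K L ((x : L) * v * algebraMap (𝓞 L) L b) ∈ (algebraMap (𝓞 K) K).range :=
      forall_congr' fun b => exists_congr fun c => eq_comm
    rw [h2, h1]
    refine forall_congr' fun y => forall_congr' fun _ => exists_congr fun c => ?_
    rw [show (x : L) * v * algebraMap (𝓞 L) L y = (x : L) * (y : L) * v by ring]
  constructor
  · intro h x hx
    refine (hM x hx).1 fun b => ?_
    obtain ⟨c, hc⟩ := h (x * b) (I.mul_mem_right _ hx)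
    refine ⟨c, ?_⟩
    rw [← hc]
    have h2 : ((x * b : 𝓞 L) : L) = (x : L) * (b : L) := map_mul _ _ _
    rw [h2]
    congr 1
    ring
  · intro h x hx
    obtain ⟨c, hc⟩ := (hM x hx).2 (h x hx) 1
    refine ⟨c, ?_⟩
    rw [← hc]
    have h2 : ((1 : 𝓞 L) : L) = 1 := map_one _
    rw [h2, mul_one]

/-- For `z ∈ 𝓞 L`: `eQ (δ⁻¹ z) = 1`.  PROOF. `Tr_{L/K} z ∈ 𝓞 K`, `dualK`. -/
theorem Fld.eQ_int (F : Fld K L) {δ : 𝓞 K} (h0 : δ ≠ 0) (hd : differentIdeal ℤ (𝓞 K) = Ideal.span {δ}) (z : 𝓞 L) :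
    eQ (algebraMap K L (δ : K)⁻¹ * (z : L)) = 1 := by
  rw [F.n4_tr]
  have h1 : IsIntegral ℤ (Algebra.trace K L (z : L)) := Algebra.isIntegral_trace (RingOfIntegers.isIntegral_coe z)
  exact n4_one h0 hd ⟨Algebra.trace K L (z : L), h1⟩

/-- For `z ∈ 𝓞 K`: `eQ (δ⁻¹ z) = 1`. -/
theorem eQ_intK {δ : 𝓞 K} (h0 : δ ≠ 0) (hd : differentIdeal ℤ (𝓞 K) = Ideal.span {δ}) (z : 𝓞 K) :
    eQ ((δ : K)⁻¹ * (z : K)) = 1 := by
  exact n4_one h0 hd z

end Pool.Agent.H2S
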