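import Pool.Agent.Lib.H2S.I0
import Pool.Agent.Lib.H2S.N4

/-!
# I5: the group of shifts
-/

set_option autoImplicit false
namespace Pool.Agent.H2S
open Complex NumberField

variable {K L : Type*} [Field K] [NumberField K] [Field L] [NumberField L] [Algebra K L]
  {F : Fld K L} {m : Ideal (𝓞 L)}

theorem i5_ne {a : 𝓞 K} (h : a ≠ 0) : (a : K) ≠ 0 := fun h1 => h (RingOfIntegers.coe_injective (h1.trans (map_zero _).symm))

theorem Lat.i5_bb (D : Lat F) : D.b * F.tI D.b = up L D.n := by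
  rw [F.mul_tI, D.norm, Ideal.map_span, Set.image_singleton]
  rfl

theorem i5_up {a : 𝓞 K} {x : 𝓞 L} (h : x ∈ up L a) : ∃ z : 𝓞 L, (x : L) = algebraMap K L (a : K) * (z : L) := by
  obtain ⟨z, rfl⟩ := Ideal.mem_span_singleton'.1 h
  refine ⟨z, ?_⟩
  rw [mul_comm]
  exact map_mul (algebraMap (𝓞 L) L) _ _

theorem i5_upm (a b : 𝓞 K) : up L a * up L b = up L (a * b) := by
  unfold up
  rw [Ideal.span_singleton_mul_span_singleton, map_mul]

theorem Lat.i5_xy (D : Lat F) {x y : 𝓞 L} (hx : x ∈ D.b) (hy : y ∈ D.b) :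
    ∃ z : 𝓞 L, (x : L) * F.τ (y : L) = algebraMap K L (D.n : K) * (z : L) := by
  have h1 : x * F.τO y ∈ up L D.n := by
    rw [← D.i5_bb]
    refine Ideal.mul_mem_mul hx ((F.mem_tI _ _).2 ?_)
    rw [F.τO_τO]
    exact hy
  obtain ⟨z, hz⟩ := i5_up h1
  exact ⟨z, hz⟩

theorem Lat.i5_nu (D : Lat F) : D.ν * (D.n : K) = (D.δ : K)⁻¹ := by
  have h1 := i5_ne D.nne
  have h2 := i5_ne D.δne
  unfold Lat.ν
  field_simp

/-- `q(x) = N(x) / n` is an integer of `K` for `x ∈ b`.  PROOF. `N(x) = x τ x ∈ b τ(b) = (n)` (`Fld.mul_tI`, `D.norm`) and `N(x) / n ∈ K` is integral over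
`𝓞 K` (it is integral in `L`). -/
theorem Lat.q_int (D : Lat F) {x : 𝓞 L} (hx : x ∈ D.b) : ∃ q : 𝓞 K, D.ν * Algebra.norm K (x : L) = (D.δ : K)⁻¹ * (q : K) := by
  obtain ⟨z, hz⟩ := D.i5_xy hx hx
  have h1 := i5_ne D.nne
  rw [← F.norm_eq] at hz
  have h2 : algebraMap K L (Algebra.norm K (x : L) / (D.n : K)) = (z : L) := by
    rw [map_div₀, hz, mul_div_cancel_left₀]
    exact (map_ne_zero_iff _ (algebraMap K L).injective).2 h1
  have h3 : IsIntegral ℤ (Algebra.norm K (x : L) / (D.n : K)) := by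
    have h4 : IsIntegral ℤ (algebraMap K L (Algebra.norm K (x : L) / (D.n : K))) := by
      rw [h2]
      exact RingOfIntegers.isIntegral_coe z
    exact (isIntegral_algebraMap_iff (algebraMap K L).injective).1 h4
  refine ⟨⟨_, h3⟩, ?_⟩
  rw [← D.i5_nu]
  show D.ν * Algebra.norm K (x : L) = D.ν * (D.n : K) * (Algebra.norm K (x : L) / (D.n : K))
  field_simp

/-- `B(x, y) = x τ(y) / n` is integral for `x, y ∈ b`. -/
theorem Lat.B_int (D : Lat F) {x y : 𝓞 L} (hx : x ∈ D.b) (hy : y ∈ D.b) :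
    ∃ z : 𝓞 L, algebraMap K L D.ν * (x : L) * F.τ (y : L) = algebraMap K L (D.δ : K)⁻¹ * (z : L) := by
  obtain ⟨z, hz⟩ := D.i5_xy hx hy
  refine ⟨z, ?_⟩
  rw [mul_assoc, hz, ← mul_assoc, ← map_mul, D.i5_nu]

/-- PROOF. For `u ∈ U = m 𝔇 J b`, `u' ∈ U`: `u τ u' ∈ (m 𝔇 J b) (τ(m) 𝔇 τ(J) τ(b)) = (c) (n) τ(J)` (`tI_mul`, `tI_diff`, `mul_tI`, `D.norm`), so
`u τ(u') = c n z`. -/
theorem Lat.U_int (D : Lat F) {c : 𝓞 K} (hc : c ≠ 0) {J : Ideal (𝓞 L)}
    (hJ : up L c = m * F.tI m * differentIdeal (𝓞 K) (𝓞 L) * differentIdeal (𝓞 K) (𝓞 L) * J) {u u' : 𝓞 L}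
    (hu : u ∈ m * differentIdeal (𝓞 K) (𝓞 L) * J * D.b) (hu' : u' ∈ m * differentIdeal (𝓞 K) (𝓞 L) * J * D.b) :
    ∃ z : 𝓞 L, algebraMap K L (D.ν / (c : K)) * (u : L) * F.τ (u' : L) = algebraMap K L (D.δ : K)⁻¹ * (z : L) := by
  have h1 : u * F.τO u' ∈ up L (c * D.n) := by
    have h2 : u * F.τO u' ∈ (m * differentIdeal (𝓞 K) (𝓞 L) * J * D.b) * F.tI (m * differentIdeal (𝓞 K) (𝓞 L) * J * D.b) := by
      refine Ideal.mul_mem_mul hu ((F.mem_tI _ _).2 ?_)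
      rw [F.τO_τO]
      exact hu'
    have h3 : (m * differentIdeal (𝓞 K) (𝓞 L) * J * D.b) * F.tI (m * differentIdeal (𝓞 K) (𝓞 L) * J * D.b) = up L (c * D.n) * F.tI J := by
      rw [F.tI_mul, F.tI_mul, F.tI_mul, F.tI_diff, ← i5_upm, hJ, ← D.i5_bb]
      ring
    rw [h3] at h2
    have h4 : up L (c * D.n) * F.tI J ≤ up L (c * D.n) := Ideal.mul_le_left
    exact h4 h2
  obtain ⟨z, hz⟩ := i5_up h1
  have hz' : (u : L) * F.τ (u' : L) = algebraMap K L ((c * D.n : 𝓞 K) : K) * (z : L) := hz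
  refine ⟨z, ?_⟩
  rw [mul_assoc, hz', ← mul_assoc, ← map_mul]
  congr 2
  have h4 := i5_ne hc
  have h5 : ((c * D.n : 𝓞 K) : K) = (c : K) * (D.n : K) := map_mul _ _ _
  rw [h5, ← D.i5_nu]
  field_simp

/-- The annihilator of `U = m 𝔇 J b` is `m b`.  PROOF. Apply `Fld.dualL` with `I = τ(U)`, `v = w / (n c)`: the left side says that `w τ(u) y ∈ n c 𝓞 L` for
all `u ∈ U`, `y ∈ 𝔇`.  `τ(U) 𝔇 = τ(m) 𝔇 τ(J) τ(b) 𝔇`, and `(n c) = b τ(b) τ(m) m 𝔇 𝔇 τ(J)` (apply `τ` to `hJ`), so the condition is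
`w τ(U) 𝔇 ⊆ m b τ(U) 𝔇`, i.e. `w ∈ m b` (in particular `w` is integral): cancellation of the nonzero ideal `τ(U) 𝔇` (fractional ideals: `(w) I ≤ A I` iff
`(w) ≤ A`). -/
theorem Lat.U_dual (D : Lat F) {c : 𝓞 K} (hc : c ≠ 0) {J : Ideal (𝓞 L)}
    (hJ : up L c = m * F.tI m * differentIdeal (𝓞 K) (𝓞 L) * differentIdeal (𝓞 K) (𝓞 L) * J) (w : L) :
    (∀ u ∈ m * differentIdeal (𝓞 K) (𝓞 L) * J * D.b, eQ (algebraMap K L (D.ν / (c : K)) * w * F.τ (u : L)) = 1) ↔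
      ∃ y ∈ m * D.b, (y : L) = w := by
  have h1 := i5_ne D.nne
  have h2 := i5_ne hc
  have h3 := i5_ne D.δne
  have hcn : ((c * D.n : 𝓞 K) : K) = (c : K) * (D.n : K) := map_mul _ _ _
  have hne : algebraMap K L ((c * D.n : 𝓞 K) : K) ≠ 0 := by
    rw [hcn]
    exact (map_ne_zero_iff _ (algebraMap K L).injective).2 (mul_ne_zero h2 h1)
  -- reduction to the ideal `A`
  have hA : (∀ u ∈ m * differentIdeal (𝓞 K) (𝓞 L) * J * D.b, eQ (algebraMap K L (D.ν / (c : K)) * w * F.τ (u : L)) = 1) ↔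
      ∀ x ∈ F.tI (m * differentIdeal (𝓞 K) (𝓞 L) * J * D.b), ∀ y ∈ differentIdeal (𝓞 K) (𝓞 L),
        ∃ z : 𝓞 L, ((x : 𝓞 L) : L) * ((y : 𝓞 L) : L) * (w / algebraMap K L ((c * D.n : 𝓞 K) : K)) = (z : L) := by
    refine Iff.trans ?_ (F.dualL D.δne D.diff (F.tI (m * differentIdeal (𝓞 K) (𝓞 L) * J * D.b)) (w / algebraMap K L ((c * D.n : 𝓞 K) : K)))
    have key : ∀ x : 𝓞 L, algebraMap K L (D.δ : K)⁻¹ * (x : L) * (w / algebraMap K L ((c * D.n : 𝓞 K) : K)) =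
        algebraMap K L (D.ν / (c : K)) * w * (x : L) := by
      intro x
      have e1 : algebraMap K L (D.ν / (c : K)) = algebraMap K L (D.δ : K)⁻¹ / algebraMap K L ((c * D.n : 𝓞 K) : K) := by
        rw [← map_div₀, hcn, ← D.i5_nu]
        congr 1
        field_simp
      rw [e1]
      ring
    constructor
    · intro h x hx
      have h4 := h (F.τO x) ((F.mem_tI _ _).1 hx)
      rw [F.coe_τO, F.ττ] at h4
      rw [key]
      exact h4
    · intro h u hu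
      have h4 := h (F.τO u) ((F.mem_tI _ _).2 (by rw [F.τO_τO]; exact hu))
      rw [key, F.coe_τO] at h4
      exact h4
  rw [hA]
  have hT : (m * D.b) * (F.tI (m * differentIdeal (𝓞 K) (𝓞 L) * J * D.b) * differentIdeal (𝓞 K) (𝓞 L)) = up L (c * D.n) := by
    have e1 : up L c = F.tI (up L c) := by
      unfold up Fld.tI
      rw [Ideal.map_span, Set.image_singleton]
      congr 1
      have e2 : F.τO (algebraMap (𝓞 K) (𝓞 L) c) = algebraMap (𝓞 K) (𝓞 L) c := by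
        apply RingOfIntegers.ext
        rw [F.coe_τO]
        exact F.τ.commutes (c : K)
      rw [e2]
    rw [← i5_upm, e1, hJ, ← D.i5_bb]
    simp only [F.tI_mul, F.tI_diff, F.tI_tI]
    ring
  constructor
  · intro h
    -- all elements of `A`
    have h4 : ∀ a ∈ F.tI (m * differentIdeal (𝓞 K) (𝓞 L) * J * D.b) * differentIdeal (𝓞 K) (𝓞 L),
        ∃ g ∈ up L (c * D.n), (a : L) * w = (g : L) := by
      intro a ha
      refine Submodule.mul_induction_on ha (fun x hx y hy => ?_) ?_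
      · obtain ⟨z, hz⟩ := h x hx y hy
        refine ⟨algebraMap (𝓞 K) (𝓞 L) (c * D.n) * z, Ideal.mul_mem_right _ _ (Ideal.mem_span_singleton_self _), ?_⟩
        have e1 : ((algebraMap (𝓞 K) (𝓞 L) (c * D.n) * z : 𝓞 L) : L) = algebraMap K L ((c * D.n : 𝓞 K) : K) * (z : L) :=
          map_mul (algebraMap (𝓞 L) L) _ _
        have e2 : ((x * y : 𝓞 L) : L) = (x : L) * (y : L) := map_mul (algebraMap (𝓞 L) L) _ _
        rw [e1, ← hz, e2]
        field_simp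
      · rintro x y ⟨g, hg, e⟩ ⟨g', hg', e'⟩
        refine ⟨g + g', Ideal.add_mem _ hg hg', ?_⟩
        have e1 : ((g + g' : 𝓞 L) : L) = (g : L) + (g' : L) := map_add (algebraMap (𝓞 L) L) _ _
        have e2 : ((x + y : 𝓞 L) : L) = (x : L) + (y : L) := map_add (algebraMap (𝓞 L) L) _ _
        rw [e1, e2, ← e, ← e', add_mul]
    have hA0 : F.tI (m * differentIdeal (𝓞 K) (𝓞 L) * J * D.b) * differentIdeal (𝓞 K) (𝓞 L) ≠ ⊥ := by
      intro h5
      rw [h5, Ideal.mul_bot] at hT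
      have h6 : algebraMap (𝓞 K) (𝓞 L) (c * D.n) = 0 := by
        have h7 := hT.symm
        unfold up at h7
        exact Ideal.span_singleton_eq_bot.1 h7
      apply hne
      have h8 : algebraMap K L ((c * D.n : 𝓞 K) : K) = ((algebraMap (𝓞 K) (𝓞 L) (c * D.n) : 𝓞 L) : L) := rfl
      rw [h8, h6]
      exact map_zero _
    obtain ⟨a₀, ha₀, ha₁⟩ := Submodule.exists_mem_ne_zero_of_ne_bot hA0
    obtain ⟨A', hA'⟩ := Ideal.dvd_iff_le.2 ((Ideal.span_singleton_le_iff_mem _).2 ha₀)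
    -- `w (a₀) ⊆ (m b) (a₀)`
    have h5 : ∀ e ∈ (F.tI (m * differentIdeal (𝓞 K) (𝓞 L) * J * D.b) * differentIdeal (𝓞 K) (𝓞 L)) * A',
        ∃ g ∈ (m * D.b) * Ideal.span {a₀}, (e : L) * w = (g : L) := by
      intro e he
      refine Submodule.mul_induction_on he (fun x hx y hy => ?_) ?_
      · obtain ⟨g, hg, e1⟩ := h4 x hx
        refine ⟨g * y, ?_, ?_⟩
        · have h6 : g * y ∈ up L (c * D.n) * A' := Ideal.mul_mem_mul hg hy
          rw [← hT, mul_assoc (m * D.b), ← hA'] at h6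
          exact h6
        · have e2 : ((x * y : 𝓞 L) : L) = (x : L) * (y : L) := map_mul (algebraMap (𝓞 L) L) _ _
          have e3 : ((g * y : 𝓞 L) : L) = (g : L) * (y : L) := map_mul (algebraMap (𝓞 L) L) _ _
          rw [e2, e3, ← e1]
          ring
      · rintro x y ⟨g, hg, e⟩ ⟨g', hg', e'⟩
        refine ⟨g + g', Ideal.add_mem _ hg hg', ?_⟩
        have e1 : ((g + g' : 𝓞 L) : L) = (g : L) + (g' : L) := map_add (algebraMap (𝓞 L) L) _ _
        have e2 : ((x + y : 𝓞 L) : L) = (x : L) + (y : L) := map_add (algebraMap (𝓞 L) L) _ _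
        rw [e1, e2, ← e, ← e', add_mul]
    obtain ⟨g, hg, e⟩ := h5 a₀ (by rw [← hA']; exact Ideal.mem_span_singleton_self _)
    obtain ⟨y, hy, e1⟩ := Ideal.mem_mul_span_singleton.1 hg
    refine ⟨y, hy, ?_⟩
    have h6 : (a₀ : L) ≠ 0 := i5_ne ha₁
    have e2 : ((y * a₀ : 𝓞 L) : L) = (y : L) * (a₀ : L) := map_mul (algebraMap (𝓞 L) L) _ _
    rw [← e1, e2, mul_comm] at e
    exact (mul_right_cancel₀ h6 e).symm
  · rintro ⟨y, hy, rfl⟩ x hx y' hy'
    have h4 : y * (x * y') ∈ up L (c * D.n) := by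
      rw [← hT]
      exact Ideal.mul_mem_mul hy (Ideal.mul_mem_mul hx hy')
    obtain ⟨z, hz⟩ := i5_up h4
    refine ⟨z, ?_⟩
    have e1 : ((y * (x * y') : 𝓞 L) : L) = (y : L) * ((x : L) * (y' : L)) := by
      have e2 : ((y * (x * y') : 𝓞 L) : L) = (y : L) * ((x * y' : 𝓞 L) : L) := map_mul (algebraMap (𝓞 L) L) _ _
      have e3 : ((x * y' : 𝓞 L) : L) = (x : L) * (y' : L) := map_mul (algebraMap (𝓞 L) L) _ _
      rw [e2, e3]
    rw [e1] at hz
    rw [mul_div_assoc', div_eq_iff hne, mul_comm (z : L), ← hz]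
    ring

end Pool.Agent.H2S
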