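import Pool.Agent.Lib.H2S.I0
import Pool.Agent.Lib.H2S.N4
import Pool.Agent.Lib.H2S.M1

/-!
# I6: the functions `phb`, `phc`
-/

set_option autoImplicit false
namespace Pool.Agent.H2S
open Complex NumberField

variable {K L : Type*} [Field K] [NumberField K] [Field L] [NumberField L] [Algebra K L]
  {F : Fld K L} {m : Ideal (𝓞 L)}

theorem phb_coe (χ : Chr F m) {b : Ideal (𝓞 L)} {x : 𝓞 L} (hx : x ∈ b) : phb χ b (x : L) = χ.ε x := by
  have h : ∃ y ∈ b, ((y : 𝓞 L) : L) = (x : L) := ⟨x, hx, rfl⟩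
  unfold phb
  rw [dif_pos h]
  have h2 : h.choose = x := RingOfIntegers.coe_injective h.choose_spec.2
  rw [h2]

theorem phb_supp (χ : Chr F m) {b : Ideal (𝓞 L)} {x : L} (hx : phb χ b x ≠ 0) : ∃ y ∈ b, (y : L) = x := by
  by_contra h
  apply hx
  unfold phb
  rw [dif_neg h]

/-- PROOF. `ε (-1) * s (1) = 1` (`χ.unit (-1)`), multiplicativity. -/
theorem Chr.ε_neg (χ : Chr F m) (x : 𝓞 L) : χ.ε (-x) = χ.ε x := by
  have h1 : χ.ε (-1) = 1 := by
    have h2 := χ.unit (-1)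
    have h3 : (((-1 : (𝓞 L)ˣ) : 𝓞 L) : L) = -1 := by
      rw [Units.val_neg, Units.val_one]
      exact (map_neg (algebraMap (𝓞 L) L) 1).trans (by rw [map_one])
    rw [h3, map_neg, map_neg, map_one, map_one, neg_mul_neg, one_mul, map_one, mul_one, Units.val_neg,
      Units.val_one] at h2
    exact h2
  rw [neg_eq_neg_one_mul, χ.mul, h1, one_mul]

theorem Chr.i6_pow (χ : Chr F m) (x : 𝓞 L) (k : ℕ) : χ.ε (x ^ k) = χ.ε x ^ k := by
  induction k with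
  | zero => rw [pow_zero, pow_zero, χ.one]
  | succ k ih => rw [pow_succ, χ.mul, ih, pow_succ]

/-- PROOF. For `x` prime to `m` some power `x ^ k`, `k > 0`, is congruent to `1` modulo `m` (`𝓞 L ⧸ m` is finite), so `ε x ^ k = 1`; otherwise `ε x = 0`. -/
theorem Chr.ε_norm (χ : Chr F m) (hm : m ≠ ⊥) (x : 𝓞 L) : ‖χ.ε x‖ ≤ 1 := by
  by_cases hx : IsCoprime (Ideal.span {x}) m
  · have : Finite (𝓞 L ⧸ m) := Ideal.finiteQuotientOfFreeOfNeBot m hm
    obtain ⟨i, hi, j, hj, hij⟩ := Ideal.isCoprime_iff_exists.1 hx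
    obtain ⟨y, rfl⟩ := Ideal.mem_span_singleton.1 hi
    have h1 : Ideal.Quotient.mk m x * Ideal.Quotient.mk m y = 1 := by
      rw [← map_mul, ← map_one (Ideal.Quotient.mk m), Ideal.Quotient.eq, ← hij]
      rw [show x * y - (x * y + j) = -j by ring]
      exact m.neg_mem hj
    let u : (𝓞 L ⧸ m)ˣ := ⟨Ideal.Quotient.mk m x, Ideal.Quotient.mk m y, h1, by rw [mul_comm]; exact h1⟩
    obtain ⟨k, hk, huk⟩ := (isOfFinOrder_of_finite u).exists_pow_eq_one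
    have h2 : (Ideal.Quotient.mk m x) ^ k = 1 := by
      have := congrArg Units.val huk
      rw [Units.val_pow_eq_pow_val] at this
      exact this
    have h3 : x ^ k - 1 ∈ m := by
      rw [← Ideal.Quotient.eq, map_pow, h2, map_one]
    have h4 : χ.ε x ^ k = 1 := by
      rw [← χ.i6_pow, χ.per _ _ h3, χ.one]
    exact (norm_eq_one_of_pow_eq_one h4 hk.ne').le
  · rw [χ.zero x hx, norm_zero]
    exact zero_le_one

/-- A unit `u` of `𝓞 K` has `ε u = 1`.  PROOF. `χ.unit`: `u cc(τ u) = u cc(u)`, and `s (u cc u) = |s u|² = 1`.  (Hypothesis: `|sK u| = 1`.) -/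
theorem Chr.ε_unitK (χ : Chr F m) (u : (𝓞 K)ˣ) (hu : ‖F.sK ((u : 𝓞 K) : K)‖ = 1) :
    χ.ε (algebraMap (𝓞 K) (𝓞 L) (u : 𝓞 K)) = 1 := by
  have h1 := χ.unit (Units.map (algebraMap (𝓞 K) (𝓞 L)).toMonoidHom u)
  have h2 : (((Units.map (algebraMap (𝓞 K) (𝓞 L)).toMonoidHom u : (𝓞 L)ˣ) : 𝓞 L) : L) =
      algebraMap K L ((u : 𝓞 K) : K) := rfl
  have h3 : ((Units.map (algebraMap (𝓞 K) (𝓞 L)).toMonoidHom u : (𝓞 L)ˣ) : 𝓞 L) =
      algebraMap (𝓞 K) (𝓞 L) (u : 𝓞 K) := rfl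
  rw [h2, h3, AlgEquiv.commutes, map_mul, F.cj] at h1
  have h4 : F.s (algebraMap K L ((u : 𝓞 K) : K)) = F.sK ((u : 𝓞 K) : K) := rfl
  rw [h4, Complex.mul_conj, Complex.normSq_eq_norm_sq, hu] at h1
  simpa using h1

omit [NumberField L] in
theorem i6_cast (M : ℕ) : (((M : 𝓞 L)) : L) = (M : L) := map_natCast (algebraMap (𝓞 L) L) M

/-- The period of `phc`: a positive integer in `m` divisible by `c`.  PROOF. `M` = a positive integer in the ideal `m * (c)` (for instance its absolute norm);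
`M = c c'` with `c' ∈ 𝓞 K` (`M / c` is integral and in `K`).  `ε (x + M y) = ε x`; `N(x + M y) = N(x) + M Tr(x τ y) + M² N(y)` and
`eQ ((a / c) ν M Tr(x τ y)) = eQ (a c' ν x τ y) = 1` (`Lat.B_int` of I5 in the form `x τ y ∈ n 𝓞 L`; `Fld.eQ_int`), `eQ ((a / c) ν M² N(y)) = 1`
(`eQ_intK`). -/
theorem phc_per (χ : Chr F m) (hm : m ≠ ⊥) (D : Lat F) (a : 𝓞 K) {c : 𝓞 K} (hc : c ≠ 0)
    (hB : ∀ x ∈ D.b, ∀ y ∈ D.b, ∃ z : 𝓞 L, algebraMap K L D.ν * (x : L) * F.τ (y : L) = algebraMap K L (D.δ : K)⁻¹ * (z : L))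
    (hq : ∀ x ∈ D.b, ∃ q : 𝓞 K, D.ν * Algebra.norm K (x : L) = (D.δ : K)⁻¹ * (q : K)) :
    ∃ M : ℕ, 0 < M ∧ ∀ x ∈ D.b, ∀ y ∈ D.b, phc χ D a c ((x : L) + (M : L) * (y : L)) = phc χ D a c (x : L) := by
  have hM1 : Ideal.absNorm m ≠ 0 := by
    rw [Ne, Ideal.absNorm_eq_zero_iff]
    exact hm
  have hM2 : Ideal.absNorm (Ideal.span {c}) ≠ 0 := by
    rw [Ne, Ideal.absNorm_eq_zero_iff, Ideal.span_singleton_eq_bot]
    exact hc
  obtain ⟨c', hc'⟩ := Ideal.mem_span_singleton.1 (Ideal.absNorm_mem (Ideal.span {c}))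
  have hcK : (c : K) ≠ 0 := by
    intro h
    exact hc (RingOfIntegers.coe_injective (h.trans (map_zero _).symm))
  -- `M = c * d`
  obtain ⟨M, hM⟩ : ∃ M : ℕ, M = Ideal.absNorm m * Ideal.absNorm (Ideal.span {c}) := ⟨_, rfl⟩
  have hMc : ((M : ℕ) : K) = (c : K) * (((Ideal.absNorm m : ℕ) : 𝓞 K) * c' : 𝓞 K) := by
    have h1 : ((M : ℕ) : 𝓞 K) = c * (((Ideal.absNorm m : ℕ) : 𝓞 K) * c') := by
      rw [hM, Nat.cast_mul, hc']
      ring
    have h2 := congrArg (algebraMap (𝓞 K) K) h1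
    rw [map_natCast, map_mul] at h2
    exact h2
  have hMm : ((M : ℕ) : 𝓞 L) ∈ m := by
    rw [hM, Nat.cast_mul]
    exact m.mul_mem_right _ (Ideal.absNorm_mem m)
  refine ⟨M, ?_, ?_⟩
  · rw [hM]
    exact Nat.mul_pos (Nat.pos_of_ne_zero hM1) (Nat.pos_of_ne_zero hM2)
  intro x hx y hy
  have hxy : x + (M : 𝓞 L) * y ∈ D.b := D.b.add_mem hx (D.b.mul_mem_left _ hy)
  have e1 : (x : L) + (M : L) * (y : L) = ((x + (M : 𝓞 L) * y : 𝓞 L) : L) := by
    have h1 : ((x + (M : 𝓞 L) * y : 𝓞 L) : L) = (x : L) + (((M : 𝓞 L) : L)) * (y : L) := by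
      exact (map_add (algebraMap (𝓞 L) L) _ _).trans (by rw [map_mul])
    rw [h1, i6_cast]
  have e2 : χ.ε (x + (M : 𝓞 L) * y) = χ.ε x := by
    apply χ.per
    rw [add_sub_cancel_left]
    exact m.mul_mem_right _ hMm
  obtain ⟨z, hz⟩ := hB x hx y hy
  obtain ⟨q, hq'⟩ := hq y hy
  obtain ⟨d, hd⟩ : ∃ d : 𝓞 K, d = ((Ideal.absNorm m : ℕ) : 𝓞 K) * c' := ⟨_, rfl⟩
  rw [← hd] at hMc
  have e3 : Algebra.norm K ((x : L) + (M : L) * (y : L)) = Algebra.norm K (x : L) +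
      (M : K) * Algebra.trace K L ((x : L) * F.τ (y : L)) + (M : K) ^ 2 * Algebra.norm K (y : L) := by
    rw [F.norm_add]
    have h1 : (M : L) = algebraMap K L (M : K) := (map_natCast (algebraMap K L) M).symm
    have h2 : Algebra.trace K L ((x : L) * F.τ ((M : L) * (y : L))) =
        (M : K) * Algebra.trace K L ((x : L) * F.τ (y : L)) := by
      rw [map_mul F.τ, h1, AlgEquiv.commutes, mul_left_comm, ← Algebra.smul_def, map_smul, smul_eq_mul]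
    have h3 : Algebra.norm K ((M : L) * (y : L)) = (M : K) ^ 2 * Algebra.norm K (y : L) := by
      rw [map_mul, h1, Algebra.norm_algebraMap, F.deg2]
    rw [h2, h3]
  have f1 : eQ ((a : K) / (c : K) * (D.ν * ((M : K) * Algebra.trace K L ((x : L) * F.τ (y : L))))) = 1 := by
    have h1 : (a : K) / (c : K) * (D.ν * ((M : K) * Algebra.trace K L ((x : L) * F.τ (y : L)))) =
        ((a : K) * (d : K) * D.ν) * Algebra.trace K L ((x : L) * F.τ (y : L)) := by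
      rw [hMc]
      field_simp
    rw [h1, ← F.n4_tr]
    have h2 : algebraMap K L ((a : K) * (d : K) * D.ν) * ((x : L) * F.τ (y : L)) =
        algebraMap K L (D.δ : K)⁻¹ * ((algebraMap (𝓞 K) (𝓞 L) (a * d) * z : 𝓞 L) : L) := by
      have h3 : ((algebraMap (𝓞 K) (𝓞 L) (a * d) * z : 𝓞 L) : L) =
          algebraMap K L ((a : K) * (d : K)) * (z : L) := by
        rw [map_mul]
        exact (map_mul (algebraMap (𝓞 L) L) _ _).trans (by
          rw [map_mul, map_mul]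
          rfl)
      rw [h3, map_mul _ ((a : K) * (d : K)) D.ν]
      calc algebraMap K L ((a : K) * (d : K)) * algebraMap K L D.ν * ((x : L) * F.τ (y : L))
          = algebraMap K L ((a : K) * (d : K)) * (algebraMap K L D.ν * (x : L) * F.τ (y : L)) := by ring
        _ = _ := by rw [hz]; ring
    rw [h2]
    exact F.eQ_int D.δne D.diff _
  have f2 : eQ ((a : K) / (c : K) * (D.ν * ((M : K) ^ 2 * Algebra.norm K (y : L)))) = 1 := by
    have h1 : (a : K) / (c : K) * (D.ν * ((M : K) ^ 2 * Algebra.norm K (y : L))) =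
        (D.δ : K)⁻¹ * ((a * d * (M : 𝓞 K) * q : 𝓞 K) : K) := by
      have h3 : ((a * d * (M : 𝓞 K) * q : 𝓞 K) : K) = (a : K) * (d : K) * (M : K) * (q : K) := by
        have h4 : (((M : 𝓞 K)) : K) = (M : K) := map_natCast (algebraMap (𝓞 K) K) M
        rw [← h4]
        exact (map_mul (algebraMap (𝓞 K) K) _ _).trans (by
          rw [map_mul, map_mul])
      rw [h3]
      calc (a : K) / (c : K) * (D.ν * ((M : K) ^ 2 * Algebra.norm K (y : L)))
          = (a : K) / (c : K) * ((M : K) ^ 2 * (D.ν * Algebra.norm K (y : L))) := by ring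
        _ = (a : K) / (c : K) * ((c : K) * (d : K)) * (M : K) * ((D.δ : K)⁻¹ * (q : K)) := by
            rw [hq', ← hMc]; ring
        _ = _ := by field_simp
    rw [h1]
    exact eQ_intK D.δne D.diff _
  unfold phc
  rw [e3, e1, phb_coe χ hxy, phb_coe χ hx, e2, mul_add, mul_add, mul_add, mul_add, eQ_add, eQ_add, f1, f2,
    mul_one, mul_one]

/-- PROOF. `η x ∈ b` iff `x ∈ b`; `ε (η x) = ε η * ε x`, `N(η x) = N(x)` (`H.norm`, `Fld.norm_eq`), and `χ.unit η`: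
`ε η * s η * conj (s (τ η)) = 1` with `s (τ η) = (s η)⁻¹`. -/
theorem phc_eta (χ : Chr F m) (D : Lat F) (a c : 𝓞 K) (H : Eta F) (x : L) :
    phc χ D a c (((H.η : 𝓞 L) : L) * x) * (F.s ((H.η : 𝓞 L) : L) * (starRingEnd ℂ) (F.s ((H.η : 𝓞 L) : L))⁻¹) =
      phc χ D a c x := by
  by_cases hx : ∃ y ∈ D.b, ((y : 𝓞 L) : L) = x
  · obtain ⟨y, hy, rfl⟩ := hx
    have e1 : ((H.η : 𝓞 L) : L) * (y : L) = (((H.η : 𝓞 L) * y : 𝓞 L) : L) :=
      (map_mul (algebraMap (𝓞 L) L) _ _).symm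
    have e2 : Algebra.norm K (((H.η : 𝓞 L) : L) * (y : L)) = Algebra.norm K (y : L) := by
      rw [map_mul]
      have h1 : Algebra.norm K ((H.η : 𝓞 L) : L) = 1 := by
        apply (algebraMap K L).injective
        rw [F.norm_eq, H.norm, map_one]
      rw [h1, one_mul]
    have e3 : χ.ε (H.η : 𝓞 L) * (F.s ((H.η : 𝓞 L) : L) * (starRingEnd ℂ) (F.s ((H.η : 𝓞 L) : L))⁻¹) = 1 := by
      have h1 := χ.unit H.η
      have h2 : F.τ ((H.η : 𝓞 L) : L) = (((H.η : 𝓞 L) : L))⁻¹ :=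
        eq_inv_of_mul_eq_one_right H.norm
      rw [map_mul, F.cj, h2, map_inv₀] at h1
      exact h1
    unfold phc
    rw [e2, e1, phb_coe χ (D.b.mul_mem_left _ hy), phb_coe χ hy, χ.mul]
    calc χ.ε (H.η : 𝓞 L) * χ.ε y * eQ ((a : K) / (c : K) * (D.ν * Algebra.norm K (y : L))) *
          (F.s ((H.η : 𝓞 L) : L) * (starRingEnd ℂ) (F.s ((H.η : 𝓞 L) : L))⁻¹)
        = χ.ε y * eQ ((a : K) / (c : K) * (D.ν * Algebra.norm K (y : L))) *
          (χ.ε (H.η : 𝓞 L) * (F.s ((H.η : 𝓞 L) : L) * (starRingEnd ℂ) (F.s ((H.η : 𝓞 L) : L))⁻¹)) := by ring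
      _ = _ := by rw [e3, mul_one]
  · have h1 : phb χ D.b x = 0 := by
      by_contra h
      exact hx (phb_supp χ h)
    have h2 : phb χ D.b (((H.η : 𝓞 L) : L) * x) = 0 := by
      by_contra h
      obtain ⟨y, hy, hyx⟩ := phb_supp χ h
      apply hx
      refine ⟨((H.η⁻¹ : (𝓞 L)ˣ) : 𝓞 L) * y, D.b.mul_mem_left _ hy, ?_⟩
      have h3 : ((((H.η⁻¹ : (𝓞 L)ˣ) : 𝓞 L) * y : 𝓞 L) : L) =
          (((H.η⁻¹ : (𝓞 L)ˣ) : 𝓞 L) : L) * (y : L) := map_mul (algebraMap (𝓞 L) L) _ _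
      rw [h3, hyx, ← mul_assoc]
      have h4 : (((H.η⁻¹ : (𝓞 L)ˣ) : 𝓞 L) : L) * ((H.η : 𝓞 L) : L) = 1 := by
        have h5 : ((H.η⁻¹ : (𝓞 L)ˣ) : 𝓞 L) * (H.η : 𝓞 L) = 1 := Units.inv_mul _
        have h6 := congrArg (algebraMap (𝓞 L) L) h5
        rw [map_mul, map_one] at h6
        exact h6
      rw [h4, one_mul]
    unfold phc
    rw [h1, h2]
    simp

/-- The same for `phb` (`a = 0`). -/
theorem phb_eq_phc (χ : Chr F m) (D : Lat F) (x : L) : phc χ D 0 1 x = phb χ D.b x := by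
  unfold phc
  have h1 : ((0 : 𝓞 K) : K) = 0 := map_zero _
  rw [h1, zero_div, zero_mul]
  have h2 : eQ (0 : K) = 1 := by
    rw [eQ_eq_one]
    exact ⟨0, by rw [map_zero, Int.cast_zero]⟩
  rw [h2, mul_one]

end Pool.Agent.H2S
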