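import Pool.Agent.Lib.H2S.J0

/-!
# B1: the action on the upper half-space
-/

set_option autoImplicit false
namespace Pool.Agent.H2S
open Complex

/-- The positive definite hermitian form attached to a point. -/
noncomputable def Qf (P : ℂ × ℝ) (v : ℂ × ℂ) : ℝ := (‖v.1 * P.1 + v.2‖ ^ 2 + ‖v.1‖ ^ 2 * P.2 ^ 2) / P.2

theorem b1_pos {g : Matrix (Fin 2) (Fin 2) ℂ} (hg : g.det ≠ 0) {P : ℂ × ℝ} (hP : P ∈ H3) :
    0 < ‖g 1 0 * P.1 + g 1 1‖ ^ 2 + ‖g 1 0‖ ^ 2 * P.2 ^ 2 := by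
  have ht : 0 < P.2 := hP
  by_cases hc : g 1 0 = 0
  · have hd : g 1 1 ≠ 0 := by
      intro hd
      apply hg
      rw [Matrix.det_fin_two, hc, hd]
      ring
    rw [hc]
    simp only [zero_mul, zero_add, norm_zero]
    have := norm_pos_iff.mpr hd
    positivity
  · have := norm_pos_iff.mpr hc
    positivity

/-- PROOF. The denominator `D = |c z + d|² + |c|² t²` is positive: if `c = 0` then `d ≠ 0`. -/
theorem act_mem {g : Matrix (Fin 2) (Fin 2) ℂ} (hg : g.det ≠ 0) {P : ℂ × ℝ} (hP : P ∈ H3) : act g P ∈ H3 := by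
  have h1 := b1_pos hg hP
  have h2 := norm_pos_iff.mpr hg
  have ht : 0 < P.2 := hP
  change 0 < ‖g.det‖ * P.2 / (‖g 1 0 * P.1 + g 1 1‖ ^ 2 + ‖g 1 0‖ ^ 2 * P.2 ^ 2)
  positivity

theorem b1_id (α β Y c : ℂ) (t : ℝ) :
    normSq (α * (starRingEnd ℂ) Y + β * (starRingEnd ℂ) c * (t : ℂ) ^ 2) + t ^ 2 * normSq (α * c - β * Y) =
      (normSq Y + normSq c * t ^ 2) * (normSq α + normSq β * t ^ 2) := by
  have e : ((t : ℂ) ^ 2) = ((t ^ 2 : ℝ) : ℂ) := by push_cast; ring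
  rw [e]
  simp only [normSq_apply, add_re, add_im, mul_re, mul_im, conj_re, conj_im, sub_re, sub_im, ofReal_re, ofReal_im]
  ring

/-- PROOF. Write `X = a z + b`, `Y = c z + d`, `D = |Y|² + |c|² t²`, `(z', t') = act g P`, so `D z' = X conj Y + a conj(c) t²`, `t' = |det g| t / D`.
After multiplication by `D² t' ...` one has to show `|v₁ D z' + v₂ D|² + |v₁|² |det g|² t² = D (|v₁ X + v₂ Y|² + |v₁ a + v₂ c|² t²)`.
`v₁ D z' + v₂ D = α conj Y + β conj(c) t²` with `α = v₁ X + v₂ Y`, `β = v₁ a + v₂ c`, and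
`D (|α|² + |β|² t²) - |α conj Y + β conj(c) t²|² = t² |α c - β Y|²`, `α c - β Y = v₁ (X c - a Y) = - v₁ det g`.
(Write the squares of norms as `w * conj w` or with `Complex.normSq_apply`; then `ring`.) -/
theorem Qf_act {g : Matrix (Fin 2) (Fin 2) ℂ} (hg : g.det ≠ 0) {P : ℂ × ℝ} (hP : P ∈ H3) (v : ℂ × ℂ) :
    Qf (act g P) v = Qf P (v.1 * g 0 0 + v.2 * g 1 0, v.1 * g 0 1 + v.2 * g 1 1) / ‖g.det‖ := by
  have hD := b1_pos hg hP
  have hδ := norm_pos_iff.mpr hg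
  have ht : 0 < P.2 := hP
  obtain ⟨v1, v2⟩ := v
  have hdet : g.det = g 0 0 * g 1 1 - g 0 1 * g 1 0 := Matrix.det_fin_two g
  set a := g 0 0
  set b := g 0 1
  set c := g 1 0
  set d := g 1 1
  set D : ℝ := ‖c * P.1 + d‖ ^ 2 + ‖c‖ ^ 2 * P.2 ^ 2 with hDdef
  have hDn : normSq (c * P.1 + d) + normSq c * P.2 ^ 2 = D := by
    rw [hDdef, ← Complex.sq_norm, ← Complex.sq_norm]
  have hDc : (D : ℂ) ≠ 0 := by exact_mod_cast hD.ne'
  have hDe : (D : ℂ) = (c * P.1 + d) * (starRingEnd ℂ) (c * P.1 + d) + c * (starRingEnd ℂ) c * (P.2 : ℂ) ^ 2 := by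
    rw [Complex.mul_conj, Complex.mul_conj, ← hDn]
    push_cast
    ring
  have h1 : v1 * (act g P).1 + v2 =
      ((v1 * (a * P.1 + b) + v2 * (c * P.1 + d)) * (starRingEnd ℂ) (c * P.1 + d) +
        (v1 * a + v2 * c) * (starRingEnd ℂ) c * (P.2 : ℂ) ^ 2) / (D : ℂ) := by
    change v1 * (((a * P.1 + b) * (starRingEnd ℂ) (c * P.1 + d) + a * (starRingEnd ℂ) c * (P.2 : ℂ) ^ 2) / (D : ℂ)) +
      v2 = _
    rw [eq_div_iff hDc, add_mul, mul_assoc, div_mul_cancel₀ _ hDc, hDe]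
    ring
  have h2 : (act g P).2 = ‖g.det‖ * P.2 / D := rfl
  have h3 := b1_id (v1 * (a * P.1 + b) + v2 * (c * P.1 + d)) (v1 * a + v2 * c) (c * P.1 + d) c P.2
  have h4 : (v1 * (a * P.1 + b) + v2 * (c * P.1 + d)) * c - (v1 * a + v2 * c) * (c * P.1 + d) = - (v1 * g.det) := by
    rw [hdet]
    ring
  rw [h4, hDn, normSq_neg, normSq_mul] at h3
  have h5 : v1 * (a * P.1 + b) + v2 * (c * P.1 + d) = (v1 * a + v2 * c) * P.1 + (v1 * b + v2 * d) := by ring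
  unfold Qf
  rw [h1, h2]
  change (‖_‖ ^ 2 + ‖v1‖ ^ 2 * _) / _ = (‖(v1 * a + v2 * c) * P.1 + (v1 * b + v2 * d)‖ ^ 2 +
    ‖v1 * a + v2 * c‖ ^ 2 * P.2 ^ 2) / P.2 / ‖g.det‖
  rw [← h5, norm_div, Complex.norm_real, Real.norm_of_nonneg hD.le, div_pow, Complex.sq_norm]
  rw [Complex.sq_norm v1, Complex.sq_norm, Complex.sq_norm (v1 * a + v2 * c)]
  have h6 : normSq g.det = ‖g.det‖ ^ 2 := (Complex.sq_norm _).symm
  rw [h6] at h3
  have h7 : normSq ((v1 * (a * P.1 + b) + v2 * (c * P.1 + d)) * (starRingEnd ℂ) (c * P.1 + d) +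
        (v1 * a + v2 * c) * (starRingEnd ℂ) c * (P.2 : ℂ) ^ 2) =
      D * (normSq (v1 * (a * P.1 + b) + v2 * (c * P.1 + d)) + normSq (v1 * a + v2 * c) * P.2 ^ 2) -
        P.2 ^ 2 * (normSq v1 * ‖g.det‖ ^ 2) := by linarith
  rw [h7]
  field_simp
  ring

/-- PROOF. `v = (0, 1)`: `1 / t = 1 / t'`.  `v = (1, -z)`: `t = (|z' - z|² + t²) / t`, so `z' = z`. -/
theorem Qf_inj {P P' : ℂ × ℝ} (hP : P ∈ H3) (hP' : P' ∈ H3) (h : ∀ v, Qf P v = Qf P' v) : P = P' := by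
  have ht : 0 < P.2 := hP
  have ht' : 0 < P'.2 := hP'
  have h1 := h (0, 1)
  have e2 : P.2 = P'.2 := by
    simp only [Qf, zero_mul, zero_add, norm_zero, norm_one] at h1
    field_simp at h1
    linarith
  have h2 := h (1, -P.1)
  have e1 : P'.1 = P.1 := by
    simp only [Qf, one_mul, add_neg_cancel, norm_zero, norm_one, ← e2] at h2
    have h3 : ‖P'.1 + -P.1‖ ^ 2 = 0 := by
      field_simp at h2
      linarith
    have h4 : P'.1 + -P.1 = 0 := by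
      have := pow_eq_zero_iff (two_ne_zero) |>.mp h3
      exact norm_eq_zero.mp this
    linear_combination h4
  exact Prod.ext e1.symm e2

/-- PROOF. `Qf_inj`, `Qf_act` (three times), `Matrix.det_mul`. -/
theorem act_mul {g h : Matrix (Fin 2) (Fin 2) ℂ} (hg : g.det ≠ 0) (hh : h.det ≠ 0) {P : ℂ × ℝ} (hP : P ∈ H3) :
    act (g * h) P = act g (act h P) := by
  have hgh : (g * h).det ≠ 0 := by
    rw [Matrix.det_mul]
    exact mul_ne_zero hg hh
  apply Qf_inj (act_mem hgh hP) (act_mem hg (act_mem hh hP))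
  intro v
  rw [Qf_act hgh hP, Qf_act hg (act_mem hh hP), Qf_act hh hP, Matrix.det_mul, norm_mul]
  simp only [Matrix.mul_apply, Fin.sum_univ_two]
  rw [div_div, mul_comm ‖h.det‖]
  have e1 : v.1 * (g 0 0 * h 0 0 + g 0 1 * h 1 0) + v.2 * (g 1 0 * h 0 0 + g 1 1 * h 1 0) =
      (v.1 * g 0 0 + v.2 * g 1 0) * h 0 0 + (v.1 * g 0 1 + v.2 * g 1 1) * h 1 0 := by ring
  have e2 : v.1 * (g 0 0 * h 0 1 + g 0 1 * h 1 1) + v.2 * (g 1 0 * h 0 1 + g 1 1 * h 1 1) =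
      (v.1 * g 0 0 + v.2 * g 1 0) * h 0 1 + (v.1 * g 0 1 + v.2 * g 1 1) * h 1 1 := by ring
  rw [e1, e2]

theorem act_one (P : ℂ × ℝ) : act 1 P = P := by
  simp [act]

/-- The action of `(1 b; 0 1)`, of `(u 0; 0 1)` and of `(0 -1; 1 0)`. -/
theorem act_n (b : ℂ) (P : ℂ × ℝ) : act !![1, b; 0, 1] P = (P.1 + b, P.2) := by
  simp [act, Matrix.det_fin_two]

theorem act_diag (u v : ℂ) (hv : v ≠ 0) (P : ℂ × ℝ) : act !![u, 0; 0, v] P = (u / v * P.1, ‖u‖ / ‖v‖ * P.2) := by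
  have hv' : (‖v‖ : ℝ) ≠ 0 := (norm_pos_iff.mpr hv).ne'
  have hc : (starRingEnd ℂ) v = (‖v‖ : ℂ) ^ 2 / v := by
    rw [eq_div_iff hv, mul_comm, Complex.mul_conj, ← Complex.ofReal_pow, Complex.sq_norm]
  have hvc : ((‖v‖ : ℝ) : ℂ) ≠ 0 := by exact_mod_cast hv'
  refine Prod.ext ?_ ?_
  · simp only [act, Matrix.of_apply, Matrix.cons_val', Matrix.cons_val_zero, Matrix.cons_val_one, Matrix.cons_val_fin_one,
      zero_mul, zero_add, add_zero, norm_zero, map_zero, mul_zero]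
    simp only [ne_eq, OfNat.ofNat_ne_zero, not_false_eq_true, zero_pow, zero_mul, add_zero]
    rw [hc]
    push_cast
    field_simp
  · simp only [act, Matrix.of_apply, Matrix.cons_val', Matrix.cons_val_zero, Matrix.cons_val_one, Matrix.cons_val_fin_one,
      zero_mul, zero_add, add_zero, norm_zero, map_zero, mul_zero, Matrix.det_fin_two]
    simp only [ne_eq, OfNat.ofNat_ne_zero, not_false_eq_true, zero_pow, zero_mul, add_zero, sub_zero, norm_mul]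
    field_simp

theorem act_w (P : ℂ × ℝ) : act !![0, -1; 1, 0] P = wi P := by
  simp [act, wi, Matrix.det_fin_two]

/-- `g P = a / c + w (c² P + c d)`.  PROOF. `g = (1 a/c; 0 1) (0 -1; 1 0) (c d; 0 1/c)` (determinant `1`); `act_mul`, `act_n`, `act_w`, and
`act (c d; 0 1/c) P = (c² z + c d, |c|² t)`. -/
theorem act_bruhat {a b c d : ℂ} (hc : c ≠ 0) (h : a * d - b * c = 1) {P : ℂ × ℝ} (hP : P ∈ H3) :
    act !![a, b; c, d] P = ((wi (c ^ 2 * P.1 + c * d, ‖c‖ ^ 2 * P.2)).1 + a / c,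
      (wi (c ^ 2 * P.1 + c * d, ‖c‖ ^ 2 * P.2)).2) := by
  have hc' : (‖c‖ : ℝ) ≠ 0 := (norm_pos_iff.mpr hc).ne'
  have hm : (!![a, b; c, d] : Matrix (Fin 2) (Fin 2) ℂ) =
      !![1, a / c; 0, 1] * (!![0, -1; 1, 0] * !![c, d; 0, 1 / c]) := by
    rw [Matrix.mul_fin_two, Matrix.mul_fin_two]
    have h1 : a = 1 * (0 * c + -1 * 0) + a / c * (1 * c + 0 * 0) := by field_simp; ring
    have h2 : b = 1 * (0 * d + -1 * (1 / c)) + a / c * (1 * d + 0 * (1 / c)) := by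
      have hb : b = (a * d - 1) / c := by
        rw [eq_div_iff hc]
        linear_combination -h
      rw [hb]
      ring
    have h3 : c = 0 * (0 * c + -1 * 0) + 1 * (1 * c + 0 * 0) := by ring
    have h4 : d = 0 * (0 * d + -1 * (1 / c)) + 1 * (1 * d + 0 * (1 / c)) := by ring
    rw [← h1, ← h2, ← h3, ← h4]
  have d1 : (!![1, a / c; 0, 1] : Matrix (Fin 2) (Fin 2) ℂ).det ≠ 0 := by simp [Matrix.det_fin_two]
  have d2 : (!![0, -1; 1, 0] : Matrix (Fin 2) (Fin 2) ℂ).det ≠ 0 := by simp [Matrix.det_fin_two]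
  have d3' : (!![c, d; 0, 1 / c] : Matrix (Fin 2) (Fin 2) ℂ).det = 1 := by
    rw [Matrix.det_fin_two]
    simp [hc]
  have d3 : (!![c, d; 0, 1 / c] : Matrix (Fin 2) (Fin 2) ℂ).det ≠ 0 := by rw [d3']; exact one_ne_zero
  have d23 : ((!![0, -1; 1, 0] : Matrix (Fin 2) (Fin 2) ℂ) * !![c, d; 0, 1 / c]).det ≠ 0 := by
    rw [Matrix.det_mul]
    exact mul_ne_zero d2 d3
  have hcc : ((‖c‖ : ℝ) : ℂ) ≠ 0 := by exact_mod_cast hc'
  have hconj : (starRingEnd ℂ) c = (‖c‖ : ℂ) ^ 2 / c := by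
    rw [eq_div_iff hc, mul_comm, Complex.mul_conj, ← Complex.ofReal_pow, Complex.sq_norm]
  have e3 : act !![c, d; 0, 1 / c] P = (c ^ 2 * P.1 + c * d, ‖c‖ ^ 2 * P.2) := by
    refine Prod.ext ?_ ?_
    · simp only [act, Matrix.of_apply, Matrix.cons_val', Matrix.cons_val_zero, Matrix.cons_val_one,
        Matrix.cons_val_fin_one, zero_mul, zero_add, add_zero, norm_zero, map_zero, mul_zero]
      simp only [ne_eq, OfNat.ofNat_ne_zero, not_false_eq_true, zero_pow, zero_mul, add_zero, one_div, map_inv₀,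
        norm_inv]
      rw [hconj]
      push_cast
      field_simp
    · simp only [act, d3', Matrix.of_apply, Matrix.cons_val', Matrix.cons_val_zero, Matrix.cons_val_one,
        Matrix.cons_val_fin_one, zero_mul, zero_add, norm_zero, norm_one, one_mul]
      simp only [ne_eq, OfNat.ofNat_ne_zero, not_false_eq_true, zero_pow, zero_mul, add_zero, one_div, norm_inv]
      field_simp
  rw [hm, act_mul d1 d23 hP, act_mul d2 d3 hP, act_n, act_w, e3]

end Pool.Agent.H2S
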