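import Pool.Agent.Lib.H2S.I2
import Pool.Agent.Lib.H2S.I6
import Pool.Agent.Lib.H2S.B1

/-!
# I9: elementary transformations of the theta integrals
-/

set_option autoImplicit false
namespace Pool.Agent.H2S
open Complex NumberField

variable {K L : Type*} [Field K] [NumberField K] [Field L] [NumberField L] [Algebra K L]
  {F : Fld K L} {m : Ideal (𝓞 L)}

theorem i9_eT (a b : ℂ) : eT (a + b) = eT a * eT b := by
  rw [eT, eT, eT, ← Complex.exp_add, Complex.add_re]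
  congr 1
  push_cast
  ring

/-- Translation.  PROOF. `W (z + b, t) x = eT (b x₁ x₂) W (z, t) x`, `Fld.io_mul`, `Fld.eQK`. -/
theorem GL_add (F : Fld K L) (ρ : ℝ) (ν : K) (φ : L → ℂ) (b : K) (P : ℂ × ℝ) :
    F.GL ρ ν φ (P.1 + F.sK b, P.2) = F.GL ρ ν (fun x => φ x * eQ (b * (ν * Algebra.norm K x))) P := by
  classical
  rw [Fld.GL, Fld.GL]
  refine tsum_congr fun x => ?_
  rw [Set.indicator_apply, Set.indicator_apply]
  by_cases hx : F.io ν x ∈ Fd ρ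
  · rw [if_pos hx, if_pos hx]
    have h1 : eT ((P.1 + F.sK b) * ((F.io ν x).1 * (F.io ν x).2)) =
        eT (P.1 * ((F.io ν x).1 * (F.io ν x).2)) * eQ (b * (ν * Algebra.norm K x)) := by
      rw [add_mul, i9_eT, F.eQK, map_mul, ← F.io_mul]
    simp only [W]
    rw [h1]
    ring
  · rw [if_neg hx, if_neg hx]

/-- PROOF. `kap (c r, t / c) = c⁻² kap (r, t)`: substitute `ρ → ρ / c²` in the integral (`integral_comp_mul_left_Ioi` or similar). -/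
theorem kap_scale {c r t : ℝ} (hc : 0 < c) : kap (c * r) (t / c) = c⁻¹ ^ 2 * kap r t := by
  have hc2 : 0 < c ^ 2 := by positivity
  have h1 := MeasureTheory.integral_comp_mul_left_Ioi
    (fun ρ : ℝ => Real.exp (-(t ^ 2 / (4 * ρ)) - 16 * Real.pi ^ 2 * r ^ 2 * ρ)) 0 hc2
  rw [mul_zero] at h1
  have h2 : kap (c * r) (t / c) = ∫ x in Set.Ioi (0 : ℝ),
      Real.exp (-(t ^ 2 / (4 * (c ^ 2 * x))) - 16 * Real.pi ^ 2 * r ^ 2 * (c ^ 2 * x)) := by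
    rw [kap]
    refine MeasureTheory.integral_congr_ae (Filter.Eventually.of_forall fun x => ?_)
    change Real.exp (-((t / c) ^ 2 / (4 * x)) - 16 * Real.pi ^ 2 * (c * r) ^ 2 * x) =
      Real.exp (-(t ^ 2 / (4 * (c ^ 2 * x))) - 16 * Real.pi ^ 2 * r ^ 2 * (c ^ 2 * x))
    have e1 : (t / c) ^ 2 / (4 * x) = t ^ 2 / (4 * (c ^ 2 * x)) := by
      rw [div_pow, div_div]
      congr 1
      ring
    rw [e1]
    congr 1
    ring
  rw [h2, h1, smul_eq_mul, inv_pow]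
  rfl

theorem i9_io (F : Fld K L) (ν c : K) (x : L) :
    F.io ν (algebraMap K L c * x) = (F.sK c * (F.io ν x).1, F.sK c * (F.io ν x).2) := by
  simp only [Fld.io, Fld.sK, RingHom.comp_apply, map_mul, AlgEquiv.commutes]
  refine Prod.ext ?_ ?_
  · change _ * (_ * _) = _ * (_ * _)
    ring
  · rfl

theorem i9_Fd {ρ : ℝ} {c : ℂ} (hc : c ≠ 0) (y : ℂ × ℂ) : (c * y.1, c * y.2) ∈ Fd ρ ↔ y ∈ Fd ρ := by
  have h0 : 0 < ‖c‖ := norm_pos_iff.2 hc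
  change ‖c * y.2‖ ≤ ‖c * y.1‖ ∧ ‖c * y.1‖ < ρ * ‖c * y.2‖ ↔ ‖y.2‖ ≤ ‖y.1‖ ∧ ‖y.1‖ < ρ * ‖y.2‖
  rw [norm_mul, norm_mul, mul_le_mul_iff_right₀ h0, show ρ * (‖c‖ * ‖y.2‖) = ‖c‖ * (ρ * ‖y.2‖) by ring,
    mul_lt_mul_iff_right₀ h0]

theorem i9_W {c : ℂ} (hc : c ≠ 0) (P : ℂ × ℝ) (y : ℂ × ℂ) :
    W (c ^ 2 * P.1, ‖c‖ ^ 2 * P.2) y = (‖c‖ ^ 2 : ℝ) * W P (c * y.1, c * y.2) := by
  have h0 : 0 < ‖c‖ := norm_pos_iff.2 hc
  have h0' : ((‖c‖ : ℝ) : ℂ) ≠ 0 := by exact_mod_cast h0.ne'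
  have h1 : kap ‖c * y.1 * (c * y.2)‖ P.2 = (‖c‖ ^ 2)⁻¹ ^ 2 * kap ‖y.1 * y.2‖ (‖c‖ ^ 2 * P.2) := by
    have h2 := kap_scale (c := ‖c‖ ^ 2) (r := ‖y.1 * y.2‖) (t := ‖c‖ ^ 2 * P.2) (by positivity)
    rw [mul_div_cancel_left₀ _ (by positivity)] at h2
    rw [← h2]
    congr 1
    rw [show c * y.1 * (c * y.2) = c ^ 2 * (y.1 * y.2) by ring, norm_mul, norm_pow]
  have h3 : (starRingEnd ℂ) c * c = ((‖c‖ ^ 2 : ℝ) : ℂ) := by
    rw [mul_comm, Complex.mul_conj, Complex.normSq_eq_norm_sq]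
  have h4 : P.1 * (c * y.1 * (c * y.2)) = c ^ 2 * P.1 * (y.1 * y.2) := by ring
  simp only [W]
  rw [h1, h4, map_mul]
  have h5 : ((‖c‖ ^ 2 : ℝ) : ℂ) * ((‖c‖ ^ 2 : ℝ) : ℂ) * ((((‖c‖ ^ 2)⁻¹ ^ 2 * kap ‖y.1 * y.2‖ (‖c‖ ^ 2 * P.2) : ℝ)) : ℂ) =
      (kap ‖y.1 * y.2‖ (‖c‖ ^ 2 * P.2) : ℝ) := by
    push_cast
    field_simp
  rw [← h5]
  linear_combination (-(4 * (Real.pi : ℂ) * y.1 * (starRingEnd ℂ) y.2 * eT (c ^ 2 * P.1 * (y.1 * y.2)) * ((‖c‖ ^ 2 : ℝ) : ℂ) *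
    ((((‖c‖ ^ 2)⁻¹ ^ 2 * kap ‖y.1 * y.2‖ (‖c‖ ^ 2 * P.2) : ℝ)) : ℂ))) * h3

/-- Scaling.  PROOF. `x ↦ c x` is a bijection of `L`; `io (c⁻¹ y) = (c⁻¹ y₁, c⁻¹ y₂)`, the fundamental domain is stable, and
`W ((c² z, |c|² t); c⁻¹ y) = |c|⁻² 4 π y₁ conj y₂ eT (z y₁ y₂) kap (|y₁ y₂| / |c|², |c|² t) = |c|² W ((z, t); y)` (`kap_scale`). -/
theorem GL_scale (F : Fld K L) (ρ : ℝ) (ν : K) (φ : L → ℂ) {c : K} (hc : c ≠ 0) (P : ℂ × ℝ) :
    F.GL ρ ν φ (F.sK c ^ 2 * P.1, ‖F.sK c‖ ^ 2 * P.2) =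
      (‖F.sK c‖ ^ 2 : ℝ) * F.GL ρ ν (fun x => φ (x / algebraMap K L c)) P := by
  classical
  have hc' : F.sK c ≠ 0 := (map_ne_zero F.sK).2 hc
  have hcL : algebraMap K L c ≠ 0 := (map_ne_zero (algebraMap K L)).2 hc
  rw [Fld.GL, Fld.GL, ← tsum_mul_left]
  refine Eq.trans ?_ ((Equiv.mulLeft₀ (algebraMap K L c) hcL).tsum_eq _)
  refine tsum_congr fun x => ?_
  have h1 : (Equiv.mulLeft₀ (algebraMap K L c) hcL) x = algebraMap K L c * x := rfl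
  rw [h1, mul_div_cancel_left₀ _ hcL, Set.indicator_apply, Set.indicator_apply, i9_io]
  by_cases hx : F.io ν x ∈ Fd ρ
  · rw [if_pos hx, if_pos ((i9_Fd hc' _).2 hx), i9_W hc']
    ring
  · rw [if_neg hx, if_neg (fun h => hx ((i9_Fd hc' _).1 h)), mul_zero]

/-- PROOF. `act_bruhat` (B1) for the images under `F.sK`. -/
theorem actO_bruhat (F : Fld K L) (g : Matrix (Fin 2) (Fin 2) (𝓞 K)) (hg : g.det = 1) (hc : g 1 0 ≠ 0) {P : ℂ × ℝ}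
    (hP : P ∈ H3) : actO F.sK g P =
      ((wi (F.sK (g 1 0 : K) ^ 2 * P.1 + F.sK (g 1 0 : K) * F.sK (g 1 1 : K), ‖F.sK (g 1 0 : K)‖ ^ 2 * P.2)).1 +
        F.sK ((g 0 0 : K) / (g 1 0 : K)),
      (wi (F.sK (g 1 0 : K) ^ 2 * P.1 + F.sK (g 1 0 : K) * F.sK (g 1 1 : K), ‖F.sK (g 1 0 : K)‖ ^ 2 * P.2)).2) := by
  have h1 : (g.map fun a => F.sK (a : K)) =
      !![F.sK (g 0 0 : K), F.sK (g 0 1 : K); F.sK (g 1 0 : K), F.sK (g 1 1 : K)] := by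
    rw [Matrix.eta_fin_two (g.map fun a => F.sK (a : K))]
    rfl
  have h2 : F.sK (g 1 0 : K) ≠ 0 := by
    rw [map_ne_zero]
    intro h
    exact hc (RingOfIntegers.coe_injective (h.trans (map_zero _).symm))
  have h3 : F.sK (g 0 0 : K) * F.sK (g 1 1 : K) - F.sK (g 0 1 : K) * F.sK (g 1 0 : K) = 1 := by
    rw [Matrix.det_fin_two] at hg
    have e := congrArg (algebraMap (𝓞 K) K) hg
    rw [map_sub, map_mul, map_mul, map_one] at e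
    have e2 := congrArg F.sK e
    rw [map_sub, map_mul, map_mul, map_one] at e2
    exact e2
  rw [actO, h1, act_bruhat h2 h3 hP, map_div₀]

theorem i9_upper {a b d : ℂ} (h : a * d = 1) (ha : ‖a‖ = 1) (P : ℂ × ℝ) :
    act !![a, b; 0, d] P = (a ^ 2 * P.1 + a * b, P.2) := by
  have hd : ‖d‖ = 1 := by
    have h1 := congrArg norm h
    rw [norm_mul, ha, one_mul, norm_one] at h1
    exact h1
  have hcd : (starRingEnd ℂ) d = a := by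
    have h1 : d * (starRingEnd ℂ) d = 1 := by
      rw [Complex.mul_conj, Complex.normSq_eq_norm_sq, hd]
      norm_num
    linear_combination a * h1 - (starRingEnd ℂ) d * h
  simp only [act, Matrix.det_fin_two, Matrix.of_apply, Matrix.cons_val', Matrix.cons_val_zero, Matrix.cons_val_one,
    Matrix.cons_val_fin_one, zero_mul, zero_add, norm_zero, map_zero, mul_zero, hd, hcd, sub_zero, h, norm_one]
  refine Prod.ext ?_ ?_
  · norm_num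
    ring
  · norm_num

theorem i9_phb (χ : Chr F m) (b : Ideal (𝓞 L)) (u : (𝓞 K)ˣ) (hu : ‖F.sK ((u : 𝓞 K) : K)‖ = 1) (x : L) :
    phb χ b (algebraMap K L ((u : 𝓞 K) : K) * x) = phb χ b x := by
  have hcoe : ∀ (w : 𝓞 K) (y : 𝓞 L), ((algebraMap (𝓞 K) (𝓞 L) w * y : 𝓞 L) : L) = algebraMap K L (w : K) * (y : L) :=
    fun w y => map_mul (algebraMap (𝓞 L) L) _ _
  have hinv : algebraMap K L (((u⁻¹ : (𝓞 K)ˣ) : 𝓞 K) : K) * algebraMap K L ((u : 𝓞 K) : K) = 1 := by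
    rw [← map_mul, ← map_mul, Units.inv_mul, map_one, map_one]
  by_cases hx : phb χ b x = 0
  · rw [hx]
    by_contra h1
    obtain ⟨y, hy, hyx⟩ := phb_supp χ h1
    have h2 : x = ((algebraMap (𝓞 K) (𝓞 L) ((u⁻¹ : (𝓞 K)ˣ) : 𝓞 K) * y : 𝓞 L) : L) := by
      rw [hcoe, hyx, ← mul_assoc, hinv, one_mul]
    have h3 : algebraMap (𝓞 K) (𝓞 L) ((u⁻¹ : (𝓞 K)ˣ) : 𝓞 K) * y ∈ b := b.mul_mem_left _ hy
    have h4 : y = algebraMap (𝓞 K) (𝓞 L) (u : 𝓞 K) * (algebraMap (𝓞 K) (𝓞 L) ((u⁻¹ : (𝓞 K)ˣ) : 𝓞 K) * y) := by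
      rw [← mul_assoc, ← map_mul, Units.mul_inv, map_one, one_mul]
    rw [h2, phb_coe χ h3] at hx
    rw [← hyx, phb_coe χ hy, h4, χ.mul, hx, mul_zero] at h1
    exact h1 rfl
  · obtain ⟨y, hy, rfl⟩ := phb_supp χ hx
    rw [← hcoe, phb_coe χ (b.mul_mem_left _ hy), phb_coe χ hy, χ.mul, χ.ε_unitK u hu, one_mul]

/-- Case `c = 0`.  PROOF. `a d = 1`: `a` is a unit, `g P = (a² z + a b, t)` (`|a| = 1`: hypothesis `ha`).  `GL_add` with `eQ (a b ν N(x)) = 1` for `x ∈ b`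
(`hq`, `eQ_intK`), and `GL_scale` for the unit `a` : `φ (x / a) = φ x` (`ε_unitK`). -/
theorem GL_upper (χ : Chr F m) (D : Lat F) (ρ : ℝ)
    (hq : ∀ x ∈ D.b, ∃ q : 𝓞 K, D.ν * Algebra.norm K (x : L) = (D.δ : K)⁻¹ * (q : K))
    (g : Matrix (Fin 2) (Fin 2) (𝓞 K)) (hg : g.det = 1) (hc : g 1 0 = 0) (ha : ‖F.sK (g 0 0 : K)‖ = 1) (P : ℂ × ℝ) :
    F.GL ρ D.ν (phb χ D.b) (actO F.sK g P) = F.GL ρ D.ν (phb χ D.b) P := by
  have hdet : g 0 0 * g 1 1 = 1 := by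
    rw [Matrix.det_fin_two, hc, mul_zero, sub_zero] at hg
    exact hg
  have h1 : (g.map fun a => F.sK (a : K)) =
      !![F.sK (g 0 0 : K), F.sK (g 0 1 : K); 0, F.sK (g 1 1 : K)] := by
    rw [Matrix.eta_fin_two (g.map fun a => F.sK (a : K))]
    have h2 : (g.map fun a => F.sK (a : K)) 1 0 = 0 := by
      rw [Matrix.map_apply, hc]
      exact (congrArg F.sK (map_zero (algebraMap (𝓞 K) K))).trans (map_zero _)
    rw [h2]
    rfl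
  have h3 : F.sK (g 0 0 : K) * F.sK (g 1 1 : K) = 1 := by
    have e := congrArg (algebraMap (𝓞 K) K) hdet
    rw [map_mul, map_one] at e
    have e2 := congrArg F.sK e
    rw [map_mul, map_one] at e2
    exact e2
  obtain ⟨u, hu⟩ : ∃ u : (𝓞 K)ˣ, (u : 𝓞 K) = g 0 0 := ⟨⟨g 0 0, g 1 1, hdet, by rw [mul_comm]; exact hdet⟩, rfl⟩
  have hne : (g 0 0 : K) ≠ 0 := by
    intro h
    rw [h, map_zero, zero_mul] at h3
    exact zero_ne_one h3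
  rw [actO, h1, i9_upper h3 ha, ← map_mul]
  have h4 := GL_add F ρ D.ν (phb χ D.b) ((g 0 0 : K) * (g 0 1 : K)) (F.sK (g 0 0 : K) ^ 2 * P.1, P.2)
  rw [h4]
  have h5 : (fun x => phb χ D.b x * eQ ((g 0 0 : K) * (g 0 1 : K) * (D.ν * Algebra.norm K x))) = phb χ D.b := by
    funext x
    by_cases hx : phb χ D.b x = 0
    · rw [hx, zero_mul]
    · obtain ⟨y, hy, rfl⟩ := phb_supp χ hx
      obtain ⟨q, hq'⟩ := hq y hy
      have h6 := eQ_intK D.δne D.diff (g 0 0 * g 0 1 * q)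
      have h7 : (g 0 0 : K) * (g 0 1 : K) * (D.ν * Algebra.norm K (y : L)) = (D.δ : K)⁻¹ * ((g 0 0 * g 0 1 * q : 𝓞 K) : K) := by
        have e : ((g 0 0 * g 0 1 * q : 𝓞 K) : K) = (g 0 0 : K) * (g 0 1 : K) * (q : K) :=
          (map_mul (algebraMap (𝓞 K) K) _ _).trans (congrArg (fun t => t * (q : K)) (map_mul (algebraMap (𝓞 K) K) _ _))
        rw [hq', e]
        ring
      rw [h7, h6, mul_one]
  rw [h5]
  have h8 := GL_scale F ρ D.ν (phb χ D.b) hne P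
  rw [ha] at h8
  norm_num at h8
  rw [h8]
  congr 1
  funext x
  have h9 := i9_phb χ D.b u (by rw [hu]; exact ha) (x / algebraMap K L (g 0 0 : K))
  rw [hu] at h9
  rw [← h9, mul_div_cancel₀]
  exact (map_ne_zero (algebraMap K L)).2 hne

end Pool.Agent.H2S
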