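import Pool.Agent.Lib.H2S.I10
import Pool.Agent.Lib.H2S.I1
import Pool.Agent.Lib.H2S.I4
import Pool.Agent.Lib.H2S.I5
import Pool.Agent.Lib.H2S.I6
import Pool.Agent.Lib.H2S.I9
import Pool.Agent.Lib.H2S.N3

/-!
# I17: the theta integral at a cusp
-/

set_option autoImplicit false
namespace Pool.Agent.H2S
open Complex NumberField

variable {K L : Type*} [Field K] [NumberField K] [Field L] [NumberField L] [Algebra K L]
  {F : Fld K L} {m : Ideal (𝓞 L)} {p : ℕ}

/-- The mean of a bounded function is bounded. -/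
theorem i17_mn {A : Type*} [AddCommGroup A] (f : A → ℂ) {B : ℝ} (hB : 0 ≤ B) (h : ∀ x, ‖f x‖ ≤ B) : ‖mn f‖ ≤ B := by
  classical
  unfold mn
  split_ifs with hJ
  · obtain ⟨hfin, -⟩ := hJ.choose_spec
    set J := hJ.choose
    have hf : Finite (A ⧸ J) := AddSubgroup.finite_quotient_of_finiteIndex
    have := Fintype.ofFinite (A ⧸ J)
    unfold mJ
    rw [finsum_eq_sum_of_fintype, norm_mul, norm_inv, Complex.norm_natCast]
    have hc : (0 : ℝ) < Nat.card (A ⧸ J) := by exact_mod_cast Nat.card_pos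
    rw [inv_mul_le_iff₀ hc]
    refine (norm_sum_le _ _).trans ((Finset.sum_le_card_nsmul _ _ B fun q _ => h _).trans ?_)
    rw [Finset.card_univ, nsmul_eq_mul, Nat.card_eq_fintype_card]
  · rw [norm_zero]
    exact hB

/-- `phb` is bounded. -/
theorem i17_phb (χ : Chr F m) (hm : m ≠ ⊥) (b : Ideal (𝓞 L)) (x : L) : ‖phb χ b x‖ ≤ 1 := by
  classical
  unfold phb
  split_ifs with h
  · exact χ.ε_norm hm _
  · rw [norm_zero]
    exact zero_le_one

/-- A constant factor. -/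
theorem i17_GL (F : Fld K L) (ρ : ℝ) (ν : K) (φ : L → ℂ) (κ : ℂ) (P : ℂ × ℝ) :
    F.GL ρ ν (fun x => κ * φ x) P = κ * F.GL ρ ν φ P := by
  classical
  unfold Fld.GL
  rw [← tsum_mul_left]
  refine tsum_congr fun x => ?_
  by_cases hx : F.io ν x ∈ Fd ρ
  · rw [Set.indicator_of_mem hx, Set.indicator_of_mem hx, mul_assoc]
  · rw [Set.indicator_of_notMem hx, Set.indicator_of_notMem hx, mul_zero]

/-- PROOF. `c = 0`: `GL_upper`, with `φ' = phb`, `α = 1`, `β = 0`, `M = 1`.  `c ≠ 0`: `thWL`, `GL_bruhat`; `φ' = κ FT (phc)`, `α = c²`,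
`β = c d`.  Bounded: the mean of a function of absolute value `≤ 1` (`ε_norm`, `norm_eQ`).  Support: `ZB.FT_supp` (`exists_ZB`, `phc_per`) and a common
denominator of the `B'_j`. -/
theorem cuspI_proof (Ψ : Psi F m p) (η : (𝓞 L)ˣ) (h1 : 1 < ‖F.s ((η : 𝓞 L) : L)‖)
    (h2 : ((η : 𝓞 L) : L) * F.τ ((η : 𝓞 L) : L) = 1) (D : Lat F) (hb : IsCoprime D.b m)
    (g : Matrix (Fin 2) (Fin 2) (𝓞 K)) (hg : g.det = 1) :
    ∃ (C : ℂ) (φ' : L → ℂ) (α β : K) (M : ℕ) (B : ℝ), α ≠ 0 ∧ 0 < M ∧ (∀ x, ‖φ' x‖ ≤ B) ∧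
      (∀ x, φ' x ≠ 0 → ∃ y : 𝓞 L, (M : L) * x = (y : L)) ∧
      ∀ P ∈ H3, F.GL (‖F.s ((η : 𝓞 L) : L)‖ ^ 2) D.ν (phb Ψ.toChr D.b) (actO F.sK g P) =
        F.GL (‖F.s ((η : 𝓞 L) : L)‖ ^ 2) D.ν φ' (F.sK α * P.1 + F.sK β, ‖F.sK α‖ * P.2) + C := by
  classical
  by_cases hc : g 1 0 = 0
  · refine ⟨0, phb Ψ.toChr D.b, 1, 0, 1, 1, one_ne_zero, one_pos, i17_phb Ψ.toChr Ψ.mne D.b, ?_, ?_⟩
    · intro x hx
      obtain ⟨y, -, hy⟩ := phb_supp Ψ.toChr hx
      exact ⟨y, by rw [Nat.cast_one, one_mul, hy]⟩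
    · intro P _
      have hdet : g 0 0 * g 1 1 = 1 := by
        have := hg
        rw [Matrix.det_fin_two, hc, mul_zero, sub_zero] at this
        exact this
      have ha : ‖F.sK (g 0 0 : K)‖ = 1 :=
        F.norm_unit (Units.mkOfMulEqOne (g 0 0) (g 1 1) hdet)
      rw [GL_upper Ψ.toChr D _ (fun x hx => D.q_int hx) g hg hc ha P, map_one, map_zero, norm_one, one_mul, one_mul,
        add_zero, add_zero]
  · let H : Eta F := ⟨η, h1, h2⟩
    obtain ⟨κ, hκ0, hκ⟩ := thWL H D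
    have hW : WL H D κ := ⟨hκ0, hκ⟩
    obtain ⟨C, hC⟩ := GL_bruhat Ψ.toChr Ψ.mne H D hW g hg hc
    obtain ⟨Z⟩ := exists_ZB D
    obtain ⟨M, hM, hper⟩ := phc_per Ψ.toChr Ψ.mne D (g 0 0) hc (fun x hx y hy => D.B_int hx hy)
      (fun x hx => D.q_int hx)
    obtain ⟨y, hy0, hy⟩ := exists_integral_multiples ℤ ℚ (Finset.univ.image Z.B')
    have hcK : ((g 1 0 : 𝓞 K) : K) ≠ 0 := by
      intro h
      exact hc (RingOfIntegers.ext (by rw [h]; rfl))
    have hML : (M : L) ≠ 0 := by exact_mod_cast hM.ne'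
    refine ⟨C, fun x => (κ : ℂ) * F.FT D.ν D.b (phc Ψ.toChr D (g 0 0) (g 1 0)) x, (g 1 0 : K) ^ 2,
      (g 1 0 : K) * (g 1 1 : K), M * y.natAbs, κ * 1, pow_ne_zero 2 hcK,
      Nat.mul_pos hM (Int.natAbs_pos.2 hy0), ?_, ?_, ?_⟩
    · intro x
      rw [norm_mul, Complex.norm_real, Real.norm_of_nonneg hκ0.le]
      refine mul_le_mul_of_nonneg_left ?_ hκ0.le
      refine i17_mn _ zero_le_one fun z => ?_
      rw [norm_mul, norm_eQ, mul_one, phc, norm_mul, norm_eQ, mul_one]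
      exact i17_phb Ψ.toChr Ψ.mne D.b _
    · intro x hx
      obtain ⟨k, hk⟩ := Z.FT_supp hM _ hper x (right_ne_zero_of_mul hx)
      have hint : IsIntegral ℤ (((M * y.natAbs : ℕ) : L) * x) := by
        have e : ((M * y.natAbs : ℕ) : L) * x = ∑ j, (k j : L) * ((y.natAbs : L) * Z.B' j) := by
          rw [hk, Finset.mul_sum]
          refine Finset.sum_congr rfl fun j _ => ?_
          push_cast
          field_simp
        rw [e]
        refine IsIntegral.sum _ fun j _ => ?_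
        refine IsIntegral.mul ?_ ?_
        · exact (isIntegral_algebraMap (R := ℤ) (A := L) (x := k j))
        · have h3 := hy (Z.B' j) (Finset.mem_image_of_mem _ (Finset.mem_univ j))
          rw [zsmul_eq_mul] at h3
          rcases Int.natAbs_eq y with h4 | h4
          · have h5 : ((y.natAbs : ℕ) : L) = ((y : ℤ) : L) := by
              rw [← Int.cast_natCast (R := L), show ((y.natAbs : ℕ) : ℤ) = y by omega]
            rw [h5]
            exact h3
          · have h5 : ((y.natAbs : ℕ) : L) = -((y : ℤ) : L) := by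
              rw [← Int.cast_natCast (R := L), show ((y.natAbs : ℕ) : ℤ) = -y by omega, Int.cast_neg]
            rw [h5, neg_mul]
            exact h3.neg
      exact ⟨⟨_, hint⟩, rfl⟩
    · intro P hP
      rw [hC P hP, i17_GL, map_pow, norm_pow]

end Pool.Agent.H2S
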