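import Pool.Agent.Lib.H2S.I16
import Pool.Agent.Lib.H2S.I17

/-!
# H2S, module I: statements needed by the assembly (helper2)
-/

set_option autoImplicit false
namespace Pool.Agent.H2S
open Complex NumberField

variable {K L : Type*} [Field K] [NumberField K] [Field L] [NumberField L] [Algebra K L]
  {F : Fld K L} {m : Ideal (𝓞 L)} {p : ℕ}

/-- THEOREM I. -/
theorem thI (Ψ : Psi F m p) (η : (𝓞 L)ˣ) (h1 : 1 < ‖F.s ((η : 𝓞 L) : L)‖)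
    (h2 : ((η : 𝓞 L) : L) * F.τ ((η : 𝓞 L) : L) = 1) (D : Lat F) (hb : IsCoprime D.b m)
    (g : Matrix (Fin 2) (Fin 2) (𝓞 K)) (hg : g.det = 1) (hc : g 1 0 ∈ lev K m) :
    ∃ C : ℂ, ∀ P ∈ H3, F.GL (‖F.s ((η : 𝓞 L) : L)‖ ^ 2) D.ν (phb Ψ.toChr D.b) (actO F.sK g P) =
      F.GL (‖F.s ((η : 𝓞 L) : L)‖ ^ 2) D.ν (phb Ψ.toChr D.b) P + C :=
  thI_proof Ψ η h1 h2 D hb g hg hc

/-- The theta integral at a cusp: `φ'` is bounded and supported on `M⁻¹ 𝓞 L`. -/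
theorem cuspI (Ψ : Psi F m p) (η : (𝓞 L)ˣ) (h1 : 1 < ‖F.s ((η : 𝓞 L) : L)‖)
    (h2 : ((η : 𝓞 L) : L) * F.τ ((η : 𝓞 L) : L) = 1) (D : Lat F) (hb : IsCoprime D.b m)
    (g : Matrix (Fin 2) (Fin 2) (𝓞 K)) (hg : g.det = 1) :
    ∃ (C : ℂ) (φ' : L → ℂ) (α β : K) (M : ℕ) (B : ℝ), α ≠ 0 ∧ 0 < M ∧ (∀ x, ‖φ' x‖ ≤ B) ∧
      (∀ x, φ' x ≠ 0 → ∃ y : 𝓞 L, (M : L) * x = (y : L)) ∧
      ∀ P ∈ H3, F.GL (‖F.s ((η : 𝓞 L) : L)‖ ^ 2) D.ν (phb Ψ.toChr D.b) (actO F.sK g P) =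
        F.GL (‖F.s ((η : 𝓞 L) : L)‖ ^ 2) D.ν φ' (F.sK α * P.1 + F.sK β, ‖F.sK α‖ * P.2) + C :=
  cuspI_proof Ψ η h1 h2 D hb g hg

end Pool.Agent.H2S
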