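import Pool.Agent.Lib.H2S.B6
import Pool.Agent.Lib.H2S.IStm
import Pool.Agent.Lib.H2S.N3

/-!
# A1: units and the action (module A, helper21)
-/

set_option autoImplicit false
namespace Pool.Agent.H2S
open Complex NumberField

variable {K L : Type*} [Field K] [NumberField K] [Field L] [NumberField L] [Algebra K L]

theorem a1_map (σ : K →+* ℂ) (u v : 𝓞 K) : ((!![u, 0; 0, v] : Matrix (Fin 2) (Fin 2) (𝓞 K)).map fun a => σ (a : K)) =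
    !![σ (u : K), 0; 0, σ (v : K)] := by
  ext i j
  fin_cases i <;> fin_cases j <;> simp

/-- The action of diag(u, 1). -/
theorem Fld.a1_diag (F : Fld K L) (u : (𝓞 K)ˣ) (P : ℂ × ℝ) :
    actO F.sK !![(u : 𝓞 K), 0; 0, 1] P = (F.sK ((u : 𝓞 K) : K) * P.1, P.2) := by
  unfold actO
  have h1 : F.sK ((1 : 𝓞 K) : K) = 1 := map_one F.sK
  rw [a1_map, h1, act_diag _ _ one_ne_zero, div_one, norm_one, div_one, F.norm_unit, one_mul]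

theorem a1_det (u : (𝓞 K)ˣ) : (!![(u : 𝓞 K), 0; 0, 1] : Matrix (Fin 2) (Fin 2) (𝓞 K)).det ≠ 0 := by
  rw [Matrix.det_fin_two_of, mul_one, mul_zero, sub_zero]
  exact u.ne_zero

/-- CHUNK A1a (M).  PROOF. `g' := diag(u, 1) g diag(u⁻¹, 1)`, i.e. `!![g 0 0, u * g 0 1; u⁻¹ * g 1 0, g 1 1]` (`u⁻¹` the inverse unit).  Over `ℂ`:
`act !![sK u, 0; 0, 1] P = (sK u * P.1, P.2)` by `act_diag` and `Fld.norm_unit`; `act_mul` for `diag(u,1) * g` and for `g' * diag(u,1)`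
(the same matrix; all determinants are nonzero), as `Matrix.map` of a product (`actO_mul` with the matrices `!![u, 0; 0, 1]` over `𝓞 K`). -/
theorem Fld.act_unit (F : Fld K L) (N : Ideal (𝓞 K)) (u : (𝓞 K)ˣ) (g : Matrix (Fin 2) (Fin 2) (𝓞 K)) (hg : g.det = 1) :
    ∃ g' : Matrix (Fin 2) (Fin 2) (𝓞 K), g'.det = 1 ∧ (g 1 0 ∈ N → g' 1 0 ∈ N) ∧ ∀ P ∈ H3,
      (F.sK ((u : 𝓞 K) : K) * (actO F.sK g P).1, (actO F.sK g P).2) =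
        actO F.sK g' (F.sK ((u : 𝓞 K) : K) * P.1, P.2) := by
  have hu : (u : 𝓞 K) * ((u⁻¹ : (𝓞 K)ˣ) : 𝓞 K) = 1 := Units.mul_inv u
  have hdet : (!![g 0 0, (u : 𝓞 K) * g 0 1; ((u⁻¹ : (𝓞 K)ˣ) : 𝓞 K) * g 1 0, g 1 1] : Matrix (Fin 2) (Fin 2) (𝓞 K)).det = 1 := by
    rw [Matrix.det_fin_two_of, ← hg, Matrix.det_fin_two]
    linear_combination (-(g 0 1 * g 1 0)) * hu
  refine ⟨_, hdet, fun h => ?_, fun P hP => ?_⟩
  · exact Ideal.mul_mem_left N _ h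
  · rw [← F.a1_diag u (actO F.sK g P), ← F.a1_diag u P, ← actO_mul F.sK (a1_det u) (by rw [hg]; exact one_ne_zero) hP,
      ← actO_mul F.sK (by rw [hdet]; exact one_ne_zero) (a1_det u) hP]
    congr 1
    refine Matrix.ext fun i j => ?_
    fin_cases i <;> fin_cases j
    · simp [Matrix.mul_apply, Fin.sum_univ_two]
      ring
    · simp [Matrix.mul_apply, Fin.sum_univ_two]
    · change (!![(u : 𝓞 K), 0; 0, 1] * g) 1 0 = (!![g 0 0, (u : 𝓞 K) * g 0 1; ((u⁻¹ : (𝓞 K)ˣ) : 𝓞 K) * g 1 0, g 1 1] *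
        !![(u : 𝓞 K), 0; 0, 1]) 1 0
      rw [Matrix.mul_apply, Matrix.mul_apply, Fin.sum_univ_two, Fin.sum_univ_two]
      change 0 * g 0 0 + 1 * g 1 0 = (((u⁻¹ : (𝓞 K)ˣ) : 𝓞 K) * g 1 0) * (u : 𝓞 K) + g 1 1 * 0
      linear_combination (-(g 1 0)) * hu
    · simp [Matrix.mul_apply, Fin.sum_univ_two]

/-- CHUNK A1b (S/M).  PROOF. `v := det g` (`Matrix.GeneralLinearGroup.det g`), `g' := diag(v⁻¹, 1) g`, `g = diag(v, 1) g'`; `actO_mul` and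
`act_diag`, `Fld.norm_unit`. -/
theorem Fld.det_unit (F : Fld K L) (N : Ideal (𝓞 K)) (g : GL (Fin 2) (𝓞 K)) :
    ∃ (v : (𝓞 K)ˣ) (g' : Matrix (Fin 2) (Fin 2) (𝓞 K)), g'.det = 1 ∧
      ((g : Matrix (Fin 2) (Fin 2) (𝓞 K)) 1 0 ∈ N → g' 1 0 ∈ N) ∧ ∀ P ∈ H3,
      actO F.sK (g : Matrix (Fin 2) (Fin 2) (𝓞 K)) P =
        (F.sK ((v : 𝓞 K) : K) * (actO F.sK g' P).1, (actO F.sK g' P).2) := by
  obtain ⟨v, hv⟩ : ∃ v : (𝓞 K)ˣ, (v : 𝓞 K) = (g : Matrix (Fin 2) (Fin 2) (𝓞 K)).det := ⟨Matrix.GeneralLinearGroup.det g, rfl⟩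
  have hu : (v : 𝓞 K) * ((v⁻¹ : (𝓞 K)ˣ) : 𝓞 K) = 1 := Units.mul_inv v
  obtain ⟨h, hh⟩ : ∃ h : Matrix (Fin 2) (Fin 2) (𝓞 K), h = (g : Matrix (Fin 2) (Fin 2) (𝓞 K)) := ⟨_, rfl⟩
  rw [← hh] at hv ⊢
  have hdet : (!![((v⁻¹ : (𝓞 K)ˣ) : 𝓞 K) * h 0 0, ((v⁻¹ : (𝓞 K)ˣ) : 𝓞 K) * h 0 1; h 1 0, h 1 1] :
      Matrix (Fin 2) (Fin 2) (𝓞 K)).det = 1 := by
    rw [Matrix.det_fin_two_of]
    rw [Matrix.det_fin_two] at hv
    linear_combination (-((v⁻¹ : (𝓞 K)ˣ) : 𝓞 K)) * hv + hu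
  refine ⟨v, _, hdet, fun h1 => h1, fun P hP => ?_⟩
  rw [← F.a1_diag v, ← actO_mul F.sK (a1_det v) (by rw [hdet]; exact one_ne_zero) hP]
  congr 1
  ext i j
  fin_cases i <;> fin_cases j
  · simp [Matrix.mul_apply, Fin.sum_univ_two]
  · simp [Matrix.mul_apply, Fin.sum_univ_two]
  · simp [Matrix.mul_apply, Fin.sum_univ_two]
  · simp [Matrix.mul_apply, Fin.sum_univ_two]

end Pool.Agent.H2S
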