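import Mathlib

/-!
# H2S: draft of the statement (dihedral case of Serre's modularity conjecture over imaginary quadratic fields)
-/

set_option autoImplicit false
namespace Pool.Agent.H2S.Text
open NumberField

section
variable {K : Type*} [Field K] [NumberField K]

/-- `Γ₀(N)` in `GL₂ (𝓞 K)`. -/
def Gamma0 (N : Ideal (𝓞 K)) : Subgroup (GL (Fin 2) (𝓞 K)) where
  carrier := {g | (g : Matrix (Fin 2) (Fin 2) (𝓞 K)) 1 0 ∈ N}
  one_mem' := by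
    change (1 : Matrix (Fin 2) (Fin 2) (𝓞 K)) 1 0 ∈ N
    simp
  mul_mem' := by
    intro g h hg hh
    change ((g : Matrix (Fin 2) (Fin 2) (𝓞 K)) * (h : Matrix (Fin 2) (Fin 2) (𝓞 K))) 1 0 ∈ N
    rw [Matrix.mul_apply, Fin.sum_univ_two]
    exact N.add_mem (N.mul_mem_right _ hg) (N.mul_mem_left _ hh)
  inv_mem' := by
    intro g hg
    change ((g⁻¹ : GL (Fin 2) (𝓞 K)) : Matrix (Fin 2) (Fin 2) (𝓞 K)) 1 0 ∈ N
    rw [Matrix.coe_units_inv, Matrix.inv_def, Matrix.adjugate_fin_two]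
    simp only [Matrix.smul_apply, Matrix.of_apply, Matrix.cons_val', Matrix.cons_val_one, Matrix.cons_val_zero,
      smul_eq_mul]
    exact N.mul_mem_left _ (N.neg_mem hg)

/-- The double coset `Γ₀(N) diag(π, 1) Γ₀(N)`. -/
def DoubleCoset (N : Ideal (𝓞 K)) (π : 𝓞 K) : Set (Matrix (Fin 2) (Fin 2) (𝓞 K)) :=
  {x | ∃ g ∈ Gamma0 N, ∃ h ∈ Gamma0 N,
    x = (g : Matrix (Fin 2) (Fin 2) (𝓞 K)) * !![π, 0; 0, 1] * (h : Matrix (Fin 2) (Fin 2) (𝓞 K))}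

/-- `T_π c = a c` for a homomorphism `c : Γ₀(N) → k`, i.e. a class in `H¹(Γ₀(N), k)`: for a complete system `δ i` of
representatives of `Γ₀(N) \ Γ₀(N) diag(π, 1) Γ₀(N)` and every `γ ∈ Γ₀(N)` write `δ i γ = g i δ (t i)` with
`g i ∈ Γ₀(N)`; then `∑ c (g i) = a c γ`. -/
def HeckeEigen {k : Type*} [Field k] (N : Ideal (𝓞 K)) (π : 𝓞 K) (c : Gamma0 N →* Multiplicative k) (a : k) : Prop :=
  ∃ (r : ℕ) (δ : Fin r → Matrix (Fin 2) (Fin 2) (𝓞 K)), (∀ i, δ i ∈ DoubleCoset N π) ∧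
    (∀ x ∈ DoubleCoset N π, ∃! i, ∃ g ∈ Gamma0 N, x = (g : Matrix (Fin 2) (Fin 2) (𝓞 K)) * δ i) ∧
    ∀ γ : Gamma0 N, ∃ (t : Fin r → Fin r) (g : Fin r → Gamma0 N),
      (∀ i, δ i * ((γ : GL (Fin 2) (𝓞 K)) : Matrix (Fin 2) (Fin 2) (𝓞 K)) =
        ((g i : GL (Fin 2) (𝓞 K)) : Matrix (Fin 2) (Fin 2) (𝓞 K)) * δ (t i)) ∧
      ∑ i, (c (g i)).toAdd = a * (c γ).toAdd

/-- `a_π(E) = N(π) + 1 - #E(𝓞 K / π)` for a Weierstrass curve over `𝓞 K`. -/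
noncomputable def aE (E : WeierstrassCurve (𝓞 K)) (π : 𝓞 K) : ℤ :=
  (Ideal.absNorm (Ideal.span {π}) : ℤ) + 1 -
    (Nat.card (E.map (Ideal.Quotient.mk (Ideal.span {π}))).toAffine.Point : ℤ)

end

section
variable {K L : Type*} [Field K] [NumberField K] [Field L] [NumberField L] [Algebra K L] [IsCMField L]

/-- The level `N_{L/K}(m) disc(L/K)`. -/
noncomputable def level (K : Type*) {L : Type*} [Field K] [NumberField K] [Field L] [NumberField L] [Algebra K L]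
    (m : Ideal (𝓞 L)) : Ideal (𝓞 K) :=
  Ideal.relNorm (𝓞 K) (m * differentIdeal (𝓞 K) (𝓞 L))

/-- `π` is a prime of `𝓞 K` not dividing `p N`. -/
def Good (m : Ideal (𝓞 L)) (p : ℕ) (π : 𝓞 K) : Prop :=
  Prime π ∧ ¬ π ∣ (p : 𝓞 K) ∧ ¬ level K m ≤ Ideal.span {π}

/-- `χ` is a character (with values in `k`) of the ideals of `𝓞 L` prime to `m p`, of CM type at `p`:
`χ((x)) = r(x c(τ x))` for `x ≡ 1` modulo `m`, `x` prime to `p` (`c` the complex conjugation of `L`); and the determinant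
of `Ind χ` is the cyclotomic character modulo `p`. -/
structure IsCMCharacter (τ : L ≃ₐ[K] L) (p : ℕ) {k : Type*} [Field k] (r : 𝓞 L →+* k) (m : Ideal (𝓞 L))
    (χ : Ideal (𝓞 L) →*₀ k) : Prop where
  support : ∀ a, a ≠ ⊥ → (χ a ≠ 0 ↔ IsCoprime a (m * Ideal.span {(p : 𝓞 L)}))
  principal : ∀ x y : 𝓞 L, (y : L) = (x : L) * IsCMField.complexConj L (τ (x : L)) → x - 1 ∈ m →
    IsCoprime (Ideal.span {x}) (Ideal.span {(p : 𝓞 L)}) → χ (Ideal.span {x}) = r y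
  det : ∀ π : 𝓞 K, Good m p π → χ (Ideal.span {algebraMap (𝓞 K) (𝓞 L) π}) =
    (open Classical in if (Ideal.span {algebraMap (𝓞 K) (𝓞 L) π}).IsPrime then -1 else 1) *
      (Ideal.absNorm (Ideal.span {π}) : k)

/-- The trace of `Ind χ` at the Frobenius of `π`: the sum of `χ(w)` over the primes `w` of relative norm `(π)`
(two if `π` splits in `L`, none if `π` is inert). -/
noncomputable def traceInd {k : Type*} [Field k] (χ : Ideal (𝓞 L) →*₀ k) (π : 𝓞 K) : k :=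
  ∑ᶠ a ∈ {a : Ideal (𝓞 L) | Ideal.relNorm (𝓞 K) a = Ideal.span {π}}, χ a

/-- The theorem. -/
def Statement : Prop :=
  ∀ (K L : Type) [Field K] [NumberField K] [Field L] [NumberField L] [Algebra K L] [IsTotallyComplex K] [IsCMField L]
    [IsPrincipalIdealRing (𝓞 K)], Module.finrank ℚ K = 2 → Module.finrank K L = 2 →
    ∀ (τ : L ≃ₐ[K] L), τ ≠ 1 → ∀ (p : ℕ), p.Prime → 3 < p →
    ∀ (k : Type) [Field k] [CharP k p] [IsAlgClosed k] (r : 𝓞 L →+* k) (m : Ideal (𝓞 L)), m ≠ ⊥ →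
      IsCoprime m (Ideal.span {(p : 𝓞 L)}) → ∀ χ : Ideal (𝓞 L) →*₀ k, IsCMCharacter τ p r m χ →
      ∃ c : Gamma0 (level K m) →* Multiplicative k, c ≠ 1 ∧
        (∀ π : 𝓞 K, Good m p π → HeckeEigen (level K m) π c (traceInd χ π)) ∧
        ∀ E : WeierstrassCurve (𝓞 K), E.Δ ≠ 0 →
          (∀ π : 𝓞 K, Good m p π → ¬ π ∣ E.Δ → traceInd χ π = (aE E π : k)) →
          ∀ π : 𝓞 K, Good m p π → ¬ π ∣ E.Δ → HeckeEigen (level K m) π c (aE E π : k)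

end

end Pool.Agent.H2S.Text
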