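import Pool.Agent.Lib.H2S.AFin
import Pool.Agent.Lib.H2S.Text

/-!
# A10: the theorem (module A, helper21)
-/

set_option autoImplicit false
namespace Pool.Agent.H2S
open Complex NumberField

theorem text_main : Text.Statement := by
  intro K L _ _ _ _ _ _ _ _ hdK hdL τ hτ p hp hp3 k _ _ _ r m hm hmp χ hχ
  obtain ⟨s⟩ : Nonempty (L →+* ℂ) := inferInstance
  let F : Fld K L :=
    { deg := hdK
      cplx := inferInstance
      pid := inferInstance
      deg2 := hdL
      s := s
      τ := τ
      τne := hτ
      cc := (IsCMField.complexConj L : L ≃+* L)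
      cj := fun φ x => by
        have := IsCMField.complexEmbedding_complexConj L φ x
        exact this }
  have hG : ∀ π : 𝓞 K, GoodPrime m p π ↔ Text.Good m p π := fun π =>
    ⟨fun h => ⟨h.prime, h.p, h.lev⟩, fun h => ⟨h.1, h.2.1, h.2.2⟩⟩
  let X : ModChi F m p k :=
    { pprime := hp
      p3 := hp3
      char := inferInstance
      closed := inferInstance
      mne := hm
      mp := hmp
      r := r
      χ := χ
      ne := hχ.support
      h1 := fun x hx hxp => hχ.principal x (F.nc x) rfl hx hxp
      h2 := fun π hπ => hχ.det π ((hG π).1 hπ) }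
  obtain ⟨c, hadd, ⟨g₀, hg₀⟩, hE⟩ := modchi_main X
  have h1 : c 1 = 0 := by
    have := hadd 1 1
    rw [mul_one] at this
    simpa using this
  let c' : Text.Gamma0 (Text.level K m) →* Multiplicative k :=
    { toFun := fun g => Multiplicative.ofAdd (c g)
      map_one' := by
        change Multiplicative.ofAdd (c 1) = 1
        rw [h1]
        rfl
      map_mul' := fun g h => by
        exact congrArg Multiplicative.ofAdd (hadd g h) }
  have hE' : ∀ π : 𝓞 K, Text.Good m p π →
      Text.HeckeEigen (Text.level K m) π c' (Text.traceInd χ π) := fun π hπ => hE π ((hG π).2 hπ)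
  refine ⟨c', ?_, hE', fun E _ hEχ π hπ hπE => ?_⟩
  · intro hc
    apply hg₀
    have := DFunLike.congr_fun hc g₀
    exact congrArg Multiplicative.toAdd this
  · rw [← hEχ π hπ hπE]
    exact hE' π hπ

end Pool.Agent.H2S
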