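import Pool.Agent.Lib.H2S.A1

/-!
# A2: the homomorphism `Φ` (module A, helper21)
-/

set_option autoImplicit false
namespace Pool.Agent.H2S
open Complex NumberField

variable {K L : Type*} [Field K] [NumberField K] [Field L] [NumberField L] [Algebra K L]
  {F : Fld K L} {m : Ideal (𝓞 L)} {p : ℕ}

/-- CHUNK A2a (M).  PROOF. `η` from `Fld.exists_unit`, `FF_eq` (J3).  The units of `𝓞 K` are finite in number (`Fld.units_finite`), so the `∑ᶠ` is a finite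
sum (`finsum_eq_sum_of_fintype`).  For `u`: `Fld.act_unit` with `N = lev K m` gives `g'`; with `P' = (sK u * P.1, P.2) ∈ H3` and `thI` for `g'`:
`GL (sK u * (g P).1, (g P).2) = GL (g' P') = GL P' + C i u`.  `C := ∑ i, c i * ∑ u, C i u`. -/
theorem FF_step (Ψ : Psi F m p) (δ : 𝓞 K) (hδ : δ ≠ 0) (hd : differentIdeal ℤ (𝓞 K) = Ideal.span {δ})
    (g : Matrix (Fin 2) (Fin 2) (𝓞 K)) (hg : g.det = 1) (hc : g 1 0 ∈ lev K m) :
    ∃ C : ℂ, ∀ P ∈ H3, Ψ.FF δ (actO F.sK g P) = Ψ.FF δ P + C := by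
  obtain ⟨η, h1, h2⟩ := F.exists_unit
  obtain ⟨r, D, c, hD, hFF⟩ := FF_eq Ψ η h1 h2 δ hδ hd
  have hfin : Finite (𝓞 K)ˣ := F.units_finite
  have hfty : Fintype (𝓞 K)ˣ := Fintype.ofFinite _
  have key : ∀ (i : Fin r) (u : (𝓞 K)ˣ), ∃ C : ℂ, ∀ P ∈ H3,
      F.GL (‖F.s ((η : 𝓞 L) : L)‖ ^ 2) (D i).ν (phb Ψ.toChr (D i).b)
        (F.sK ((u : 𝓞 K) : K) * (actO F.sK g P).1, (actO F.sK g P).2) =
      F.GL (‖F.s ((η : 𝓞 L) : L)‖ ^ 2) (D i).ν (phb Ψ.toChr (D i).b) (F.sK ((u : 𝓞 K) : K) * P.1, P.2) + C := by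
    intro i u
    obtain ⟨g', hg', hN, hact⟩ := F.act_unit (lev K m) u g hg
    obtain ⟨C, hC⟩ := thI Ψ η h1 h2 (D i) (hD i).2 g' hg' (hN hc)
    refine ⟨C, fun P hP => ?_⟩
    rw [hact P hP]
    exact hC _ (show 0 < P.2 from hP)
  choose C hC using key
  refine ⟨∑ i, c i * ∑ u, C i u, fun P hP => ?_⟩
  have hgP : actO F.sK g P ∈ H3 := actO_mem F.sK (by rw [hg]; exact one_ne_zero) hP
  rw [hFF _ hgP, hFF P hP, ← Finset.sum_add_distrib]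
  refine Finset.sum_congr rfl fun i _ => ?_
  rw [finsum_eq_sum_of_fintype, finsum_eq_sum_of_fintype, ← mul_add, ← Finset.sum_add_distrib]
  congr 1
  exact Finset.sum_congr rfl fun u _ => hC i u P hP

/-- CHUNK A2b (M).  PROOF. For `g ∈ Gam0 (lev K m)`: `Fld.det_unit` and `FF_unit` reduce to `FF_step`; this gives `Φ` (`choose`).  Additivity: take the point
`P = (0, 1) ∈ H3`: `FF ((g h) P) = FF (g (h P))` (`actO_mul`; the determinants are units, so not `0`) `= FF (h P) + Φ g = FF P + Φ h + Φ g`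
(`actO_mem`). -/
theorem exists_Phi (Ψ : Psi F m p) (δ : 𝓞 K) (hδ : δ ≠ 0) (hd : differentIdeal ℤ (𝓞 K) = Ideal.span {δ}) :
    ∃ Φ : Gam0 (lev K m) → ℂ, (∀ g : Gam0 (lev K m), ∀ P ∈ H3,
        Ψ.FF δ (actO F.sK ((g : GL (Fin 2) (𝓞 K)) : Matrix (Fin 2) (Fin 2) (𝓞 K)) P) = Ψ.FF δ P + Φ g) ∧
      ∀ g h, Φ (g * h) = Φ g + Φ h := by
  have step : ∀ g : Gam0 (lev K m), ∃ C : ℂ, ∀ P ∈ H3,
      Ψ.FF δ (actO F.sK ((g : GL (Fin 2) (𝓞 K)) : Matrix (Fin 2) (Fin 2) (𝓞 K)) P) = Ψ.FF δ P + C := by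
    intro g
    obtain ⟨v, g', hg', hN, hact⟩ := F.det_unit (lev K m) (g : GL (Fin 2) (𝓞 K))
    obtain ⟨C, hC⟩ := FF_step Ψ δ hδ hd g' hg' (hN g.2)
    refine ⟨C, fun P hP => ?_⟩
    rw [hact P hP, FF_unit]
    exact hC P hP
  choose Φ hΦ using step
  refine ⟨Φ, hΦ, fun g h => ?_⟩
  have hP : ((0 : ℂ), (1 : ℝ)) ∈ H3 := by
    show (0 : ℝ) < 1
    norm_num
  have hgd := b6_gdet (g : GL (Fin 2) (𝓞 K))
  have hhd := b6_gdet (h : GL (Fin 2) (𝓞 K))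
  have h1 := hΦ (g * h) _ hP
  have e : (((g * h : Gam0 (lev K m)) : GL (Fin 2) (𝓞 K)) : Matrix (Fin 2) (Fin 2) (𝓞 K)) =
      ((g : GL (Fin 2) (𝓞 K)) : Matrix (Fin 2) (Fin 2) (𝓞 K)) *
        ((h : GL (Fin 2) (𝓞 K)) : Matrix (Fin 2) (Fin 2) (𝓞 K)) := rfl
  rw [e, actO_mul F.sK hgd hhd hP, hΦ g _ (actO_mem F.sK hhd hP), hΦ h _ hP] at h1
  linear_combination (-1 : ℂ) * h1

end Pool.Agent.H2S
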