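import Pool.Agent.Lib.H2S.E02

/-!
# H2S, chunk E04 (size M): derivatives of `Ks` along the coordinate lines

`e04x`, `e04y`, `e04t`: compose `e02` with the affine maps `s ↦ (P.1 + s, P.2)`, `s ↦ (P.1 + s I, P.2)`, `s ↦ (P.1, P.2 + s)` (derivatives
`(1, 0)`, `(I, 0)`, `(0, 1)`; `HasFDerivAt.comp_hasDerivAt`), evaluate by `e02e` and `DV_apply`:
`DV P w (1, 0) = eT (P.1 w) * (4 π Re w * kap) * I`, `DV P w (I, 0) = eT (P.1 w) (4 π Re (I w) kap) I`, `Re (I w) = - Im w`,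
`DV P w (0, 1) = eT (P.1 w) * kapt`; `tsum_congr`.
`e04tt`: term by term in one real variable: `hasDerivAt_tsum_of_isPreconnected` on the interval `(- P.2 / 2, P.2 / 2)`:
the derivative of `s ↦ a i * (eT (P.1 w) * kapt ‖w‖ (P.2 + s))` is `a i * eT (P.1 w) * (16 π ^ 2 ‖w‖ ^ 2 kap ‖w‖ (P.2 + s) + kapt ‖w‖ (P.2 + s) / (P.2 + s))`
(`t04b`; if `a i = 0` it is `0`, if `a i ≠ 0` then `w i ≠ 0`); bound for `P.2 + s ≥ P.2 / 2 =: t₀`, `‖w‖ ≥ δ`: by `t06a`, `t06b` at most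
`(2 + (2 π ^ 2 δ ^ 2 t₀ ^ 2)⁻¹) ‖a i‖ exp (-(2 π t₀) ‖w i‖)`, summable by `hk.sm`.  Then split the sum (both parts are summable).
`e04h`: take `ux = Ks (4 π Re w I a)`, `uxx = Ks ((4 π Re w I) ^ 2 a)`, `uy`, `uyy` similarly, `ut = Kt a w`, `utt` from `e04tt`
(all coefficient families are `KS` by `e01p`), and `(4 π Re w I) ^ 2 + (- 4 π Im w I) ^ 2 + 16 π ^ 2 ‖w‖ ^ 2 = 0`
(`Complex.sq_norm`, `Complex.normSq_apply`), so `uxx + uyy + utt = (P.2)⁻¹ Kt a w P` (`Summable.tsum_add`).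
-/

set_option autoImplicit false
namespace Pool.Agent.H2S
open Complex MeasureTheory

/-- The derivative of `Ks` in the direction of `t`. -/
noncomputable def Kt {ι : Type*} (a w : ι → ℂ) (P : ℂ × ℝ) : ℂ := ∑' i, a i * (eT (P.1 * w i) * (kapt ‖w i‖ P.2 : ℝ))

theorem e04_line {ι : Type*} {a w : ι → ℂ} (hk : KS a w) {P : ℂ × ℝ} (hP : P ∈ H3) (γ : ℝ → ℂ × ℝ)
    (ξ : ℂ × ℝ) (hγ : HasDerivAt γ ξ 0) (h0 : γ 0 = P) :
    HasDerivAt (fun s => Ks a w (γ s)) (∑' i, a i * DV P (w i) ξ) 0 := by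
  have h1 : HasFDerivAt (Ks a w) (∑' i, a i • DV P (w i)) (γ 0) := by
    rw [h0]
    exact e02 hk hP
  have h2 := h1.comp_hasDerivAt 0 hγ
  rw [e02e hk hP] at h2
  exact h2

theorem e04_dx (P : ℂ × ℝ) : HasDerivAt (fun s : ℝ => ((P.1 + (s : ℂ), P.2) : ℂ × ℝ)) ((1 : ℂ), (0 : ℝ)) 0 := by
  have h1 : HasDerivAt (fun s : ℝ => P.1 + (s : ℂ)) 1 0 := (Complex.ofRealCLM.hasDerivAt (x := 0)).const_add P.1
  exact h1.prodMk (hasDerivAt_const 0 P.2)

theorem e04_dy (P : ℂ × ℝ) :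
    HasDerivAt (fun s : ℝ => ((P.1 + (s : ℂ) * Complex.I, P.2) : ℂ × ℝ)) (Complex.I, (0 : ℝ)) 0 := by
  have h1 : HasDerivAt (fun s : ℝ => P.1 + (s : ℂ) * Complex.I) (1 * Complex.I) 0 :=
    ((Complex.ofRealCLM.hasDerivAt (x := 0)).mul_const Complex.I).const_add P.1
  rw [one_mul] at h1
  exact h1.prodMk (hasDerivAt_const 0 P.2)

theorem e04_dt (P : ℂ × ℝ) :
    HasDerivAt (fun s : ℝ => ((P.1, P.2 + s) : ℂ × ℝ)) ((0 : ℂ), (1 : ℝ)) 0 := by
  have h1 : HasDerivAt (fun s : ℝ => P.2 + s) 1 0 := (hasDerivAt_id (0 : ℝ)).const_add P.2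
  exact (hasDerivAt_const 0 P.1).prodMk h1

theorem e04x {ι : Type*} {a w : ι → ℂ} (hk : KS a w) {P : ℂ × ℝ} (hP : P ∈ H3) :
    HasDerivAt (fun s : ℝ => Ks a w (P.1 + s, P.2))
      (Ks (fun i => ((4 * Real.pi * (w i).re : ℝ) : ℂ) * Complex.I * a i) w P) 0 := by
  have h1 := e04_line hk hP _ _ (e04_dx P) (by simp)
  have h2 : ∑' i, a i * DV P (w i) ((1 : ℂ), (0 : ℝ)) =
      Ks (fun i => ((4 * Real.pi * (w i).re : ℝ) : ℂ) * Complex.I * a i) w P := by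
    refine tsum_congr fun i => ?_
    rw [DV_apply]
    unfold V
    simp only [one_mul, mul_zero]
    push_cast
    ring
  rw [h2] at h1
  exact h1

theorem e04y {ι : Type*} {a w : ι → ℂ} (hk : KS a w) {P : ℂ × ℝ} (hP : P ∈ H3) :
    HasDerivAt (fun s : ℝ => Ks a w (P.1 + s * Complex.I, P.2))
      (Ks (fun i => ((-(4 * Real.pi * (w i).im) : ℝ) : ℂ) * Complex.I * a i) w P) 0 := by
  have h1 := e04_line hk hP _ _ (e04_dy P) (by simp)
  have h2 : ∑' i, a i * DV P (w i) (Complex.I, (0 : ℝ)) =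
      Ks (fun i => ((-(4 * Real.pi * (w i).im) : ℝ) : ℂ) * Complex.I * a i) w P := by
    refine tsum_congr fun i => ?_
    rw [DV_apply]
    unfold V
    have h3 : (Complex.I * w i).re = -(w i).im := by simp
    simp only [h3, mul_zero]
    push_cast
    ring
  rw [h2] at h1
  exact h1

theorem e04_kt {ι : Type*} {a w : ι → ℂ} (P : ℂ × ℝ) (i : ι) :
    a i * DV P (w i) ((0 : ℂ), (1 : ℝ)) = a i * (eT (P.1 * w i) * (kapt ‖w i‖ P.2 : ℝ)) := by
  rw [DV_apply]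
  simp

theorem e04t {ι : Type*} {a w : ι → ℂ} (hk : KS a w) {P : ℂ × ℝ} (hP : P ∈ H3) :
    HasDerivAt (fun s : ℝ => Ks a w (P.1, P.2 + s)) (Kt a w P) 0 := by
  have h1 := e04_line hk hP _ _ (e04_dt P) (by simp)
  have h2 : ∑' i, a i * DV P (w i) ((0 : ℂ), (1 : ℝ)) = Kt a w P :=
    tsum_congr fun i => e04_kt P i
  rw [h2] at h1
  exact h1

theorem e04_sum {ι : Type*} {a w : ι → ℂ} (hk : KS a w) {P : ℂ × ℝ} (hP : P ∈ H3) :
    Summable (fun i => a i * (eT (P.1 * w i) * (kapt ‖w i‖ P.2 : ℝ))) := by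
  refine Summable.of_norm_bounded ((e02s hk hP).2.mul_right ‖((0 : ℂ), (1 : ℝ))‖) fun i => ?_
  rw [← e04_kt P i]
  exact (a i • DV P (w i)).le_opNorm ((0 : ℂ), (1 : ℝ))

theorem e04_KS2 {ι : Type*} {a w : ι → ℂ} (hk : KS a w) :
    KS (fun i => ((16 * Real.pi ^ 2 * ‖w i‖ ^ 2 : ℝ) : ℂ) * a i) w := by
  refine e01p hk (16 * Real.pi ^ 2) 2 fun i => ?_
  rw [norm_mul, Complex.norm_real, Real.norm_eq_abs, abs_of_nonneg (by positivity)]
  refine mul_le_mul_of_nonneg_right ?_ (norm_nonneg _)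
  refine mul_le_mul_of_nonneg_left ?_ (by positivity)
  exact pow_le_pow_left₀ (norm_nonneg _) (by linarith) 2

theorem e04_KSx {ι : Type*} {a w : ι → ℂ} (hk : KS a w) :
    KS (fun i => ((4 * Real.pi * (w i).re : ℝ) : ℂ) * Complex.I * a i) w := by
  have hp := Real.pi_pos
  refine e01p hk (4 * Real.pi) 1 fun i => ?_
  rw [norm_mul, norm_mul, Complex.norm_real, Complex.norm_I, mul_one, Real.norm_eq_abs, abs_mul,
    abs_of_nonneg (show 0 ≤ 4 * Real.pi by positivity), pow_one]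
  refine mul_le_mul_of_nonneg_right ?_ (norm_nonneg _)
  refine mul_le_mul_of_nonneg_left ?_ (by positivity)
  exact (Complex.abs_re_le_norm _).trans (by linarith)

theorem e04_KSy {ι : Type*} {a w : ι → ℂ} (hk : KS a w) :
    KS (fun i => ((-(4 * Real.pi * (w i).im) : ℝ) : ℂ) * Complex.I * a i) w := by
  have hp := Real.pi_pos
  refine e01p hk (4 * Real.pi) 1 fun i => ?_
  rw [norm_mul, norm_mul, Complex.norm_real, Complex.norm_I, mul_one, Real.norm_eq_abs, abs_neg, abs_mul,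
    abs_of_nonneg (show 0 ≤ 4 * Real.pi by positivity), pow_one]
  refine mul_le_mul_of_nonneg_right ?_ (norm_nonneg _)
  refine mul_le_mul_of_nonneg_left ?_ (by positivity)
  exact (Complex.abs_im_le_norm _).trans (by linarith)

theorem e04_bd {r t t₀ δ : ℝ} (hδ : 0 < δ) (hr : δ ≤ r) (ht₀ : 0 < t₀) (ht : t₀ ≤ t) :
    |16 * Real.pi ^ 2 * r ^ 2 * kap r t + kapt r t / t| ≤
      (2 + (2 * Real.pi ^ 2 * δ ^ 2 * t₀ * t₀)⁻¹) * Real.exp (-(2 * Real.pi * t₀ * r)) := by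
  have hp := Real.pi_pos
  have hr0 : 0 < r := hδ.trans_le hr
  have ht0 : 0 < t := ht₀.trans_le ht
  have hE : Real.exp (-(2 * Real.pi * r * t)) ≤ Real.exp (-(2 * Real.pi * t₀ * r)) := by
    refine Real.exp_le_exp.2 (neg_le_neg ?_)
    have h1 : 2 * Real.pi * r * t₀ ≤ 2 * Real.pi * r * t := mul_le_mul_of_nonneg_left ht (by positivity)
    linarith
  have h1 : |16 * Real.pi ^ 2 * r ^ 2 * kap r t| ≤ 2 * Real.exp (-(2 * Real.pi * t₀ * r)) := by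
    rw [abs_of_nonneg (mul_nonneg (by positivity) (t06p hr0 ht0).le)]
    refine (mul_le_mul_of_nonneg_left (t06a hr0 ht0) (by positivity)).trans ?_
    have h2 : 16 * Real.pi ^ 2 * r ^ 2 * ((8 * Real.pi ^ 2 * r ^ 2)⁻¹ * Real.exp (-(2 * Real.pi * r * t))) =
        2 * Real.exp (-(2 * Real.pi * r * t)) := by
      field_simp
      norm_num
    rw [h2]
    exact mul_le_mul_of_nonneg_left hE (by norm_num)
  have h3 : |kapt r t / t| ≤
      (2 * Real.pi ^ 2 * δ ^ 2 * t₀ * t₀)⁻¹ * Real.exp (-(2 * Real.pi * t₀ * r)) := by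
    rw [abs_div, abs_of_pos ht0]
    have h4 : |kapt r t| / t ≤ (2 * Real.pi ^ 2 * r ^ 2 * t)⁻¹ * Real.exp (-(2 * Real.pi * r * t)) / t :=
      div_le_div_of_nonneg_right (t06b hr0 ht0) ht0.le
    refine h4.trans ?_
    have h5 : (2 * Real.pi ^ 2 * r ^ 2 * t)⁻¹ * Real.exp (-(2 * Real.pi * r * t)) / t =
        (2 * Real.pi ^ 2 * r ^ 2 * t * t)⁻¹ * Real.exp (-(2 * Real.pi * r * t)) := by
      field_simp
    rw [h5]
    refine mul_le_mul ?_ hE (Real.exp_nonneg _) (by positivity)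
    refine inv_anti₀ (by positivity) ?_
    gcongr
  refine (abs_add_le _ _).trans ((add_le_add h1 h3).trans (le_of_eq ?_))
  ring

theorem e04tt {ι : Type*} {a w : ι → ℂ} (hk : KS a w) {P : ℂ × ℝ} (hP : P ∈ H3) :
    HasDerivAt (fun s : ℝ => Kt a w (P.1, P.2 + s))
      (Ks (fun i => ((16 * Real.pi ^ 2 * ‖w i‖ ^ 2 : ℝ) : ℂ) * a i) w P + (P.2 : ℂ)⁻¹ * Kt a w P) 0 := by
  have hP0 : 0 < P.2 := hP
  have hp := Real.pi_pos
  obtain ⟨δ, hδ, hlb⟩ := hk.lb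
  have ht₀ : 0 < P.2 / 2 := by positivity
  have hu : Summable (fun i => (2 + (2 * Real.pi ^ 2 * δ ^ 2 * (P.2 / 2) * (P.2 / 2))⁻¹) *
      (‖a i‖ * Real.exp (-(2 * Real.pi * (P.2 / 2) * ‖w i‖)))) :=
    (hk.sm (2 * Real.pi * (P.2 / 2)) (by positivity)).mul_left _
  have hmem : ∀ s ∈ Set.Ioo (-(P.2 / 2)) (P.2 / 2), P.2 / 2 ≤ P.2 + s := by
    intro s hs
    have := hs.1
    linarith
  have key := hasDerivAt_tsum_of_isPreconnected (𝕜 := ℝ)
    (g := fun i (s : ℝ) => a i * (eT (P.1 * w i) * (kapt ‖w i‖ (P.2 + s) : ℝ)))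
    (g' := fun i (s : ℝ) => a i * (eT (P.1 * w i) * ((16 * Real.pi ^ 2 * ‖w i‖ ^ 2 * kap ‖w i‖ (P.2 + s) +
      kapt ‖w i‖ (P.2 + s) / (P.2 + s) : ℝ) : ℂ)))
    (t := Set.Ioo (-(P.2 / 2)) (P.2 / 2)) (y₀ := 0) (y := 0) hu isOpen_Ioo isPreconnected_Ioo
    (by
      intro i s hs
      by_cases hai : a i = 0
      · simp only [hai, zero_mul]
        exact hasDerivAt_const s 0
      · have hw : 0 < ‖w i‖ := hδ.trans_le (hlb i hai)
        have hs0 : 0 < P.2 + s := ht₀.trans_le (hmem s hs)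
        have h1 := (t04b hw hs0).comp s ((hasDerivAt_id s).const_add P.2)
        rw [mul_one] at h1
        have h2 := h1.ofReal_comp
        exact (h2.const_mul (eT (P.1 * w i))).const_mul (a i))
    (by
      intro i s hs
      by_cases hai : a i = 0
      · simp [hai]
      · rw [norm_mul, norm_mul, t06e, one_mul, Complex.norm_real, Real.norm_eq_abs]
        have h1 := e04_bd hδ (hlb i hai) ht₀ (hmem s hs)
        refine (mul_le_mul_of_nonneg_left h1 (norm_nonneg (a i))).trans (le_of_eq ?_)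
        ring)
    (by constructor <;> linarith)
    (by
      simp only [add_zero]
      exact e04_sum hk hP)
    (by constructor <;> linarith)
  have h2 : ∑' i, a i * (eT (P.1 * w i) * ((16 * Real.pi ^ 2 * ‖w i‖ ^ 2 * kap ‖w i‖ (P.2 + 0) +
      kapt ‖w i‖ (P.2 + 0) / (P.2 + 0) : ℝ) : ℂ)) =
      Ks (fun i => ((16 * Real.pi ^ 2 * ‖w i‖ ^ 2 : ℝ) : ℂ) * a i) w P + (P.2 : ℂ)⁻¹ * Kt a w P := by
    unfold Ks Kt
    rw [← tsum_mul_left, ← ((e02s (e04_KS2 hk) hP).1.of_norm).tsum_add ((e04_sum hk hP).mul_left _)]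
    refine tsum_congr fun i => ?_
    unfold V
    simp only [add_zero]
    push_cast
    ring
  have key' : HasDerivAt (fun s : ℝ => Kt a w (P.1, P.2 + s))
      (∑' i, a i * (eT (P.1 * w i) * ((16 * Real.pi ^ 2 * ‖w i‖ ^ 2 * kap ‖w i‖ (P.2 + 0) +
      kapt ‖w i‖ (P.2 + 0) / (P.2 + 0) : ℝ) : ℂ))) 0 := key
  rw [h2] at key'
  exact key'

theorem e04h {ι : Type*} {a w : ι → ℂ} (hk : KS a w) : Harm (Ks a w) := by
  refine ⟨fun P hP => (e02 hk hP).differentiableAt,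
    Ks (fun i => ((4 * Real.pi * (w i).re : ℝ) : ℂ) * Complex.I * a i) w,
    Ks (fun i => ((-(4 * Real.pi * (w i).im) : ℝ) : ℂ) * Complex.I * a i) w, Kt a w,
    Ks (fun i => ((4 * Real.pi * (w i).re : ℝ) : ℂ) * Complex.I *
      (((4 * Real.pi * (w i).re : ℝ) : ℂ) * Complex.I * a i)) w,
    Ks (fun i => ((-(4 * Real.pi * (w i).im) : ℝ) : ℂ) * Complex.I *
      (((-(4 * Real.pi * (w i).im) : ℝ) : ℂ) * Complex.I * a i)) w,
    fun P => Ks (fun i => ((16 * Real.pi ^ 2 * ‖w i‖ ^ 2 : ℝ) : ℂ) * a i) w P + (P.2 : ℂ)⁻¹ * Kt a w P,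
    fun P hP => ⟨e04x hk hP, e04y hk hP, e04t hk hP, e04x (e04_KSx hk) hP, e04y (e04_KSy hk) hP,
      e04tt hk hP, ?_⟩⟩
  have hP0 : 0 < P.2 := hP
  have h0 : Ks (fun i => ((4 * Real.pi * (w i).re : ℝ) : ℂ) * Complex.I *
      (((4 * Real.pi * (w i).re : ℝ) : ℂ) * Complex.I * a i)) w P +
    Ks (fun i => ((-(4 * Real.pi * (w i).im) : ℝ) : ℂ) * Complex.I *
      (((-(4 * Real.pi * (w i).im) : ℝ) : ℂ) * Complex.I * a i)) w P +
    Ks (fun i => ((16 * Real.pi ^ 2 * ‖w i‖ ^ 2 : ℝ) : ℂ) * a i) w P = 0 := by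
    have s1 := (e02s (e04_KSx (e04_KSx hk)) hP).1.of_norm
    have s2 := (e02s (e04_KSy (e04_KSy hk)) hP).1.of_norm
    have s3 := (e02s (e04_KS2 hk) hP).1.of_norm
    unfold Ks
    rw [← s1.tsum_add s2, ← (s1.add s2).tsum_add s3]
    refine (tsum_congr fun i => ?_).trans tsum_zero
    have h1 : ((‖w i‖ ^ 2 : ℝ) : ℂ) = (((w i).re * (w i).re + (w i).im * (w i).im : ℝ) : ℂ) := by
      rw [Complex.sq_norm, Complex.normSq_apply]
    have h2 : Complex.I * Complex.I = -1 := Complex.I_mul_I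
    push_cast at h1 ⊢
    rw [h1]
    linear_combination (16 * (Real.pi : ℂ) ^ 2 * ((w i).re * (w i).re + (w i).im * (w i).im) * a i *
      V P (w i)) * h2
  change P.2 • (_ + _ + (Ks (fun i => ((16 * Real.pi ^ 2 * ‖w i‖ ^ 2 : ℝ) : ℂ) * a i) w P +
    (P.2 : ℂ)⁻¹ * Kt a w P)) = Kt a w P
  rw [← add_assoc, h0, zero_add, Complex.real_smul, ← mul_assoc,
    mul_inv_cancel₀ (by exact_mod_cast hP0.ne'), one_mul]

end Pool.Agent.H2S
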