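import Pool.Agent.Lib.H2S.JStm
import Pool.Agent.Lib.H2S.B2
import Pool.Agent.Lib.H2S.E04

/-!
# A3: `FF` is harmonic (module A, helper21)
-/

set_option autoImplicit false
namespace Pool.Agent.H2S
open Complex NumberField

variable {K L : Type*} [Field K] [NumberField K] [Field L] [NumberField L] [Algebra K L]
  {F : Fld K L} {m : Ideal (𝓞 L)} {p : ℕ}

/-- CHUNK A3a (M).  PROOF. The integrand `f ρ = exp (- t² / (4 ρ) - 16 π² r² ρ)` is nonnegative, continuous on `ρ > 0` and at most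
`exp (- 16 π² r² ρ)`, so it is integrable on `Ioi 0` (`integrableOn_exp_mul_Ioi`-like, `Integrable.mono'`).  With `ρ₀ = t / (8 π r)`: on
`Ioc ρ₀ (2 ρ₀)` one has `t² / (4 ρ) ≤ t² / (4 ρ₀) = 2 π r t` and `16 π² r² ρ ≤ 32 π² r² ρ₀ = 4 π r t`, so `f ≥ exp (- 6 π r t)`; the integral over `Ioi 0` is
at least the integral over `Ioc ρ₀ (2 ρ₀)` (`setIntegral_mono_set`), at least `ρ₀ exp (- 6 π r t)`. -/
theorem kap_ge {r t : ℝ} (hr : 0 < r) (ht : 0 < t) :
    t / (8 * Real.pi * r) * Real.exp (-(6 * Real.pi * r * t)) ≤ kap r t := by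
  have hp := Real.pi_pos
  obtain ⟨f, hf⟩ : ∃ f : ℝ → ℝ, f = fun ρ => Real.exp (-(t ^ 2 / (4 * ρ)) - 16 * Real.pi ^ 2 * r ^ 2 * ρ) := ⟨_, rfl⟩
  have hkap : kap r t = ∫ ρ in Set.Ioi (0 : ℝ), f ρ := by rw [hf]; rfl
  have hA : (0 : ℝ) < 16 * Real.pi ^ 2 * r ^ 2 := by positivity
  have hf0 : ∀ ρ, 0 ≤ f ρ := fun ρ => by rw [hf]; exact (Real.exp_pos _).le
  have hint : MeasureTheory.IntegrableOn f (Set.Ioi 0) := by
    have hg := exp_neg_integrableOn_Ioi 0 hA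
    refine MeasureTheory.Integrable.mono' hg ?_ ?_
    · rw [hf]
      have hm : Measurable fun ρ : ℝ => Real.exp (-(t ^ 2 / (4 * ρ)) - 16 * Real.pi ^ 2 * r ^ 2 * ρ) := by
        fun_prop
      exact hm.aestronglyMeasurable
    · filter_upwards [MeasureTheory.ae_restrict_mem measurableSet_Ioi] with ρ hρ
      have hρ0 : (0 : ℝ) < ρ := hρ
      rw [Real.norm_of_nonneg (hf0 ρ), hf]
      apply Real.exp_le_exp.2
      have : 0 ≤ t ^ 2 / (4 * ρ) := by positivity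
      linarith
  obtain ⟨ρ₀, hρ₀⟩ : ∃ ρ₀, ρ₀ = t / (8 * Real.pi * r) := ⟨_, rfl⟩
  have hρpos : 0 < ρ₀ := by rw [hρ₀]; positivity
  have hsub : Set.Ioc ρ₀ (2 * ρ₀) ⊆ Set.Ioi 0 := fun x hx => hρpos.trans hx.1
  have h1 : ∫ ρ in Set.Ioc ρ₀ (2 * ρ₀), f ρ ≤ ∫ ρ in Set.Ioi (0 : ℝ), f ρ :=
    MeasureTheory.setIntegral_mono_set hint (Filter.Eventually.of_forall hf0) hsub.eventuallyLE
  have h2 : ∫ _ρ in Set.Ioc ρ₀ (2 * ρ₀), Real.exp (-(6 * Real.pi * r * t)) ≤ ∫ ρ in Set.Ioc ρ₀ (2 * ρ₀), f ρ := by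
    refine MeasureTheory.setIntegral_mono_on ?_ (hint.mono_set hsub) measurableSet_Ioc fun ρ hρ => ?_
    · exact MeasureTheory.integrableOn_const (by simp) (by simp)
    · rw [hf]
      apply Real.exp_le_exp.2
      have hρ1 : 0 < ρ := hρpos.trans hρ.1
      have e1 : t ^ 2 / (4 * ρ) ≤ 2 * Real.pi * r * t := by
        have e2 : t ^ 2 / (4 * ρ) ≤ t ^ 2 / (4 * ρ₀) :=
          div_le_div_of_nonneg_left (by positivity) (by positivity) (by linarith [hρ.1])
        have e3 : t ^ 2 / (4 * ρ₀) = 2 * Real.pi * r * t := by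
          rw [hρ₀]
          field_simp
          ring
        linarith
      have e4 : 16 * Real.pi ^ 2 * r ^ 2 * ρ ≤ 4 * Real.pi * r * t := by
        have e5 : 16 * Real.pi ^ 2 * r ^ 2 * ρ ≤ 16 * Real.pi ^ 2 * r ^ 2 * (2 * ρ₀) :=
          mul_le_mul_of_nonneg_left hρ.2 hA.le
        have e6 : 16 * Real.pi ^ 2 * r ^ 2 * (2 * ρ₀) = 4 * Real.pi * r * t := by
          rw [hρ₀]
          field_simp
          ring
        linarith
      linarith
  have h3 : ∫ _ρ in Set.Ioc ρ₀ (2 * ρ₀), Real.exp (-(6 * Real.pi * r * t)) = ρ₀ * Real.exp (-(6 * Real.pi * r * t)) := by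
    rw [MeasureTheory.setIntegral_const, Real.volume_real_Ioc_of_le (by linarith), smul_eq_mul]
    ring
  rw [hkap, ← hρ₀]
  linarith

open Classical in
/-- The coefficients of `FF`. -/
noncomputable def Psi.ca (Ψ : Psi F m p) (β : 𝓞 K) : ℂ := if β = 0 then 0 else Ψ.A (Ideal.span {β})

/-- CHUNK A3b (M).  PROOF. `lb`: `δ₀ := 1 / ‖F.sK δ‖`; `Ψ.ca β ≠ 0` gives `β ≠ 0`, `1 ≤ ‖F.sK β‖` (`Fld.one_le`).
`sm`: given `c > 0` let `t := c / (7 π)`, `r := ‖F.sK (β / δ)‖`; for `β ≠ 0`, `r ≥ δ₀ > 0`, and `exp (- c r) = exp (- 6 π r t) exp (- π r t)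
≤ kap r t * (8 π r / t) * exp (- π r t) ≤ kap r t * (8 / t²)` by `kap_ge` and `x * exp (- x) ≤ 1`.  `FF_summable` and
`Summable.of_nonneg_of_le`. -/
theorem Psi.KS_ca (Ψ : Psi F m p) (δ : 𝓞 K) (hδ : δ ≠ 0) :
    KS Ψ.ca (fun β : 𝓞 K => F.sK ((β : K) / (δ : K))) := by
  have hp := Real.pi_pos
  have hδ0 : 0 < ‖F.sK (δ : K)‖ := lt_of_lt_of_le one_pos (F.one_le hδ)
  have hlb : ∀ β : 𝓞 K, β ≠ 0 → 1 / ‖F.sK (δ : K)‖ ≤ ‖F.sK ((β : K) / (δ : K))‖ := by
    intro β hβ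
    rw [map_div₀, norm_div]
    exact div_le_div_of_nonneg_right (F.one_le hβ) hδ0.le
  refine ⟨⟨1 / ‖F.sK (δ : K)‖, by positivity, fun β hβ => hlb β ?_⟩, fun c hc => ?_⟩
  · intro h
    apply hβ
    unfold Psi.ca
    rw [if_pos h]
  · obtain ⟨t, ht⟩ : ∃ t, t = c / (7 * Real.pi) := ⟨_, rfl⟩
    have ht0 : 0 < t := by rw [ht]; positivity
    have hct : c = 7 * Real.pi * t := by rw [ht]; field_simp
    have hs := (FF_summable Ψ δ hδ t ht0).mul_left (8 / t ^ 2)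
    refine Summable.of_nonneg_of_le (fun β => by positivity) (fun β => ?_) hs
    by_cases hβ : β = 0
    · unfold Psi.ca
      rw [if_pos hβ, if_pos hβ, norm_zero, zero_mul, mul_zero]
    · unfold Psi.ca
      rw [if_neg hβ, if_neg hβ]
      obtain ⟨r, hr⟩ : ∃ r, r = ‖F.sK ((β : K) / (δ : K))‖ := ⟨_, rfl⟩
      have hr0 : 0 < r := by
        rw [hr]
        exact lt_of_lt_of_le (by positivity) (hlb β hβ)
      rw [← hr]
      have h1 := kap_ge hr0 ht0
      have h2 : Real.exp (-(c * r)) = Real.exp (-(6 * Real.pi * r * t)) * Real.exp (-(Real.pi * r * t)) := by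
        rw [← Real.exp_add, hct]
        congr 1
        ring
      have h3 : Real.exp (-(Real.pi * r * t)) * (Real.pi * r * t) ≤ 1 := by
        have h4 := Real.add_one_le_exp (Real.pi * r * t)
        have h5 : Real.exp (-(Real.pi * r * t)) * Real.exp (Real.pi * r * t) = 1 := by
          rw [← Real.exp_add, neg_add_cancel, Real.exp_zero]
        have h6 := Real.exp_pos (-(Real.pi * r * t))
        nlinarith
      have h7 : Real.exp (-(c * r)) ≤ 8 / t ^ 2 * kap r t := by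
        have h8 : Real.exp (-(6 * Real.pi * r * t)) ≤ kap r t * (8 * Real.pi * r / t) := by
          have h9 := mul_le_mul_of_nonneg_right h1 (show 0 ≤ 8 * Real.pi * r / t by positivity)
          have h10 : t / (8 * Real.pi * r) * Real.exp (-(6 * Real.pi * r * t)) * (8 * Real.pi * r / t) =
              Real.exp (-(6 * Real.pi * r * t)) := by
            field_simp
          linarith
        have hk := t06p hr0 ht0
        calc Real.exp (-(c * r)) = Real.exp (-(6 * Real.pi * r * t)) * Real.exp (-(Real.pi * r * t)) := h2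
          _ ≤ kap r t * (8 * Real.pi * r / t) * Real.exp (-(Real.pi * r * t)) :=
              mul_le_mul_of_nonneg_right h8 (Real.exp_pos _).le
          _ = 8 / t ^ 2 * kap r t * (Real.exp (-(Real.pi * r * t)) * (Real.pi * r * t)) := by
              field_simp
          _ ≤ 8 / t ^ 2 * kap r t * 1 := mul_le_mul_of_nonneg_left h3 (by positivity)
          _ = 8 / t ^ 2 * kap r t := mul_one _
      calc ‖Ψ.A (Ideal.span {β})‖ * Real.exp (-(c * r)) ≤ ‖Ψ.A (Ideal.span {β})‖ * (8 / t ^ 2 * kap r t) :=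
            mul_le_mul_of_nonneg_left h7 (norm_nonneg _)
        _ = 8 / t ^ 2 * (‖Ψ.A (Ideal.span {β})‖ * kap r t) := by ring

/-- CHUNK A3c (S).  PROOF. Termwise: `F.w δ β P = V P (F.sK (β / δ))` by definition (`mul_comm`). -/
theorem Psi.FF_Ks (Ψ : Psi F m p) (δ : 𝓞 K) :
    Ψ.FF δ = Ks Ψ.ca (fun β : 𝓞 K => F.sK ((β : K) / (δ : K))) := by
  funext P
  unfold Psi.FF Ks
  refine tsum_congr fun β => ?_
  unfold Psi.ca
  by_cases hβ : β = 0
  · rw [if_pos hβ, if_pos hβ, zero_mul]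
  · rw [if_neg hβ, if_neg hβ]
    unfold Fld.w V
    ring

/-- CHUNK A3d (S).  PROOF. `e04h`. -/
theorem Psi.FF_harm (Ψ : Psi F m p) (δ : 𝓞 K) (hδ : δ ≠ 0) : Harm (Ψ.FF δ) := by
  rw [Psi.FF_Ks]
  exact e04h (Ψ.KS_ca δ hδ)

end Pool.Agent.H2S
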