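import Pool.Agent.Lib.H2S.T16

/-!
# H2S, chunk T23 (size S/M): `G` as a series `Ks`

For `x = lp b m ∈ Fd ρ` (`m ≠ 0`): `‖x₂‖ ≤ ‖x₁‖ < ρ ‖x₂‖`, so `‖x₂‖ > 0`, `‖x₁‖ > 0`, `‖x‖ = ‖x₁‖` and `‖x₁ x₂‖ ≥ ‖x‖ ^ 2 / ρ`
(also `‖x₁ x₂‖ ≤ ‖x‖ ^ 2`).
`t23k`: `lb`: `‖gw b m‖ ≥ δ ^ 2 / ρ` (`t16d`; `ga m ≠ 0` implies `lp b m ∈ Fd ρ`, and `m ≠ 0` because `0 ∉ Fd ρ`).
`sm`: `‖ga m‖ * exp (-(c ‖gw m‖)) ≤ B * 4 π ‖x‖ ^ 2 * exp (-(c / ρ) ‖x‖ ^ 2) ≤ B' * exp (-(c / (2 ρ)) ‖x‖ ^ 2)` (`y exp (-y) ≤ 1` with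
`y = (c / (2 ρ)) ‖x‖ ^ 2`), and `t16s`.
`t23g`: `W P x = (4 π x₁ conj x₂) * V P (x₁ x₂)` by definition; `Set.indicator` at `x` in / not in `Fd ρ` (`tsum_congr`, `by_cases`).
-/

set_option autoImplicit false
namespace Pool.Agent.H2S
open Complex MeasureTheory

theorem t23_ne {ρ : ℝ} {x : ℂ × ℂ} (hx : x ∈ Fd ρ) : x.1 ≠ 0 ∧ x.2 ≠ 0 := by
  obtain ⟨h1, h2⟩ := hx
  constructor
  · intro h
    rw [h, norm_zero] at h1 h2
    have h3 : ‖x.2‖ = 0 := le_antisymm h1 (norm_nonneg _)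
    rw [h3, mul_zero] at h2
    exact lt_irrefl _ h2
  · intro h
    rw [h, norm_zero, mul_zero] at h2
    exact absurd h2 (not_lt.2 (norm_nonneg _))

theorem t23_nm {ρ : ℝ} (hρ : 1 < ρ) {x : ℂ × ℂ} (hx : x ∈ Fd ρ) :
    ‖x‖ ^ 2 / ρ ≤ ‖x.1 * x.2‖ ∧ ‖x.1 * x.2‖ ≤ ‖x‖ ^ 2 := by
  obtain ⟨h1, h2⟩ := hx
  have h3 : ‖x‖ = ‖x.1‖ := by
    rw [Prod.norm_def, max_eq_left h1]
  have h4 := norm_nonneg x.1
  have h5 := norm_nonneg x.2
  have h6 : 0 < ρ := by linarith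
  rw [h3, norm_mul, div_le_iff₀ h6]
  constructor
  · nlinarith
  · nlinarith

theorem t23k {b b' : Fin 4 → ℂ × ℂ} (hb : Dual b b') {ρ : ℝ} (hρ : 1 < ρ) {φ : (Fin 4 → ℤ) → ℂ} {B : ℝ}
    (hφ : ∀ m, ‖φ m‖ ≤ B) : KS (ga ρ b φ) (gw b) := by
  have hρ0 : 0 < ρ := by linarith
  have hB : 0 ≤ B := (norm_nonneg _).trans (hφ 0)
  have hp := Real.pi_pos
  refine ⟨?_, fun c hc => ?_⟩
  · obtain ⟨δ, hδ, h⟩ := t16d hb
    refine ⟨δ ^ 2 / ρ, by positivity, fun m hm => ?_⟩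
    have hx : lp b m ∈ Fd ρ := by
      by_contra hx
      exact hm (Set.indicator_of_notMem hx _)
    have hm0 : m ≠ 0 := by
      intro h0
      have h1 := (t23_ne hx).1
      apply h1
      rw [h0]
      simp [lp]
    have h1 := h m hm0
    have h2 := (t23_nm hρ hx).1
    refine le_trans ?_ h2
    exact div_le_div_of_nonneg_right (pow_le_pow_left₀ hδ.le h1 2) hρ0.le
  · have hs := (t16s hb (show 0 < c / (2 * ρ) by positivity)).mul_left (B * (4 * Real.pi) * (2 * ρ / c))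
    refine Summable.of_nonneg_of_le (fun m => by positivity) (fun m => ?_) hs
    by_cases hx : lp b m ∈ Fd ρ
    · have h1 : ‖ga ρ b φ m‖ = ‖φ m‖ * (4 * Real.pi) * ‖gw b m‖ := by
        unfold ga gw
        rw [Set.indicator_of_mem hx]
        simp only [norm_mul, Complex.norm_conj, Complex.norm_real, Complex.norm_ofNat, Real.norm_eq_abs,
          abs_of_pos hp]
        ring
      obtain ⟨h2, h3⟩ := t23_nm hρ hx
      have h2' : ‖lp b m‖ ^ 2 / ρ ≤ ‖gw b m‖ := h2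
      have h3' : ‖gw b m‖ ≤ ‖lp b m‖ ^ 2 := h3
      obtain ⟨y, hy⟩ : ∃ y : ℝ, y = c / (2 * ρ) * ‖lp b m‖ ^ 2 := ⟨_, rfl⟩
      have hy0 : 0 ≤ y := by rw [hy]; positivity
      have h4 : Real.exp (-(c * ‖gw b m‖)) ≤ Real.exp (-y) * Real.exp (-y) := by
        rw [← Real.exp_add]
        apply Real.exp_le_exp.2
        have h5 : c * (‖lp b m‖ ^ 2 / ρ) ≤ c * ‖gw b m‖ := mul_le_mul_of_nonneg_left h2' hc.le
        have h6 : c * (‖lp b m‖ ^ 2 / ρ) = y + y := by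
          rw [hy]
          field_simp
          ring
        linarith
      have h7 : ‖lp b m‖ ^ 2 * Real.exp (-y) ≤ 2 * ρ / c := by
        have h8 : y * Real.exp (-y) ≤ 1 := by
          have h9 : y ≤ Real.exp y := by linarith [Real.add_one_le_exp y]
          calc y * Real.exp (-y) ≤ Real.exp y * Real.exp (-y) :=
                mul_le_mul_of_nonneg_right h9 (Real.exp_pos _).le
            _ = 1 := by rw [← Real.exp_add, add_neg_cancel, Real.exp_zero]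
        have h10 : ‖lp b m‖ ^ 2 * Real.exp (-y) = 2 * ρ / c * (y * Real.exp (-y)) := by
          rw [hy]
          field_simp
        rw [h10]
        exact mul_le_of_le_one_right (by positivity) h8
      have hE := Real.exp_pos (-y)
      rw [h1, ← hy]
      calc ‖φ m‖ * (4 * Real.pi) * ‖gw b m‖ * Real.exp (-(c * ‖gw b m‖))
          ≤ B * (4 * Real.pi) * ‖lp b m‖ ^ 2 * (Real.exp (-y) * Real.exp (-y)) := by
            refine mul_le_mul ?_ h4 (Real.exp_pos _).le (by positivity)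
            exact mul_le_mul (mul_le_mul_of_nonneg_right (hφ m) (by positivity)) h3' (norm_nonneg _) (by positivity)
        _ = B * (4 * Real.pi) * (‖lp b m‖ ^ 2 * Real.exp (-y)) * Real.exp (-y) := by ring
        _ ≤ B * (4 * Real.pi) * (2 * ρ / c) * Real.exp (-y) :=
            mul_le_mul_of_nonneg_right (mul_le_mul_of_nonneg_left h7 (by positivity)) hE.le
    · have h1 : ga ρ b φ m = 0 := Set.indicator_of_notMem hx _
      rw [h1, norm_zero, zero_mul]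
      positivity

theorem t23g (ρ : ℝ) (b : Fin 4 → ℂ × ℂ) (φ : (Fin 4 → ℤ) → ℂ) (P : ℂ × ℝ) :
    G ρ b φ P = Ks (ga ρ b φ) (gw b) P := by
  unfold G Ks
  refine tsum_congr fun m => ?_
  by_cases hx : lp b m ∈ Fd ρ
  · unfold ga gw V W
    rw [Set.indicator_of_mem hx, Set.indicator_of_mem hx]
    ring
  · unfold ga
    rw [Set.indicator_of_notMem hx, Set.indicator_of_notMem hx, zero_mul]

theorem t23x {ρ : ℝ} {x : ℂ × ℂ} (hx : x ∈ Fd ρ) : x.1 ≠ 0 ∧ x.2 ≠ 0 := t23_ne hx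

end Pool.Agent.H2S
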