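import Pool.Agent.Lib.H2S.N2
import Pool.Agent.Lib.H2S.N3
import Pool.Agent.Lib.H2S.T23

/-!
# A4: bases of lattices (module A, helper21)
-/

set_option autoImplicit false
namespace Pool.Agent.H2S
open Complex NumberField

variable {K L : Type*} [Field K] [NumberField K] [Field L] [NumberField L] [Algebra K L]

/-- CHUNK A4a (M).  PROOF. `β : Basis _ ℤ (𝓞 L)` (`RingOfIntegers.basis L`), the index type has `[L : ℚ] = 4` elements (`Fld.n3_fin`; reindex to `Fin 4`);
`ω j := β j / M`, a basis of `L` over `ℚ` (`integralBasis` scaled).  The trace form of `L / ℚ` is nondegenerate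
(`traceForm_nondegenerate`): dual basis `ω'` with `Tr (ω i * ω' j) = if i = j then 1 else 0` (`BilinForm.dualBasis`, `Algebra.traceForm`).
`b j := F.io ν (ω j)`, `b' j := F.io ν (F.τ (ω' j / ν))` (`ν` as an element of `L`).  `pr (b i) (b' j) = Tr (ν ω i τ τ (ω' j / ν)) =
Tr (ω i ω' j)` by `Fld.pr_io` and `Fld.ττ`.  If `M x = y ∈ 𝓞 L` write `y = ∑ m j • β j`; conversely `M ∑ m j ω j = ∑ m j β j ∈ 𝓞 L`. -/
theorem Fld.exists_basis (F : Fld K L) (ν : K) (hν : ν ≠ 0) (M : ℕ) (hM : 0 < M) :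
    ∃ (b b' : Fin 4 → ℂ × ℂ) (ω : Fin 4 → L), Dual b b' ∧ (∀ j, b j = F.io ν (ω j)) ∧
      (∀ x : L, (∃ y : 𝓞 L, (M : L) * x = (y : L)) ↔ ∃ k : Fin 4 → ℤ, x = ∑ j, (k j : L) * ω j) ∧
      ∀ k : Fin 4 → ℤ, lp b k = F.io ν (∑ j, (k j : L) * ω j) := by
  classical
  have hcard : Fintype.card (Module.Free.ChooseBasisIndex ℤ (𝓞 L)) = 4 := by
    rw [← Module.finrank_eq_card_basis (integralBasis L), F.n3_fin]
  set e := Fintype.equivFinOfCardEq hcard with he
  set Bz : Module.Basis (Fin 4) ℤ (𝓞 L) := (RingOfIntegers.basis L).reindex e with hBz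
  set Bq : Module.Basis (Fin 4) ℚ L := (integralBasis L).reindex e with hBq
  have hBB : ∀ j, Bq j = ((Bz j : 𝓞 L) : L) := by
    intro j
    rw [hBq, hBz, Module.Basis.reindex_apply, Module.Basis.reindex_apply, integralBasis_apply]
  have hML : (M : L) ≠ 0 := by exact_mod_cast hM.ne'
  have hνL : algebraMap K L ν ≠ 0 := by
    intro h
    exact hν ((map_eq_zero (algebraMap K L)).mp h)
  have hsum : ∀ k : Fin 4 → ℤ, (M : L) * ∑ j, (k j : L) * (Bq j / M) = ((∑ j, k j • Bz j : 𝓞 L) : L) := by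
    intro k
    have h1 : ((∑ j, k j • Bz j : 𝓞 L) : L) = ∑ j, (k j : L) * ((Bz j : 𝓞 L) : L) := by
      change algebraMap (𝓞 L) L (∑ j, k j • Bz j) = _
      rw [map_sum]
      refine Finset.sum_congr rfl fun j _ => ?_
      rw [map_zsmul, zsmul_eq_mul]
    rw [h1, Finset.mul_sum]
    refine Finset.sum_congr rfl fun j _ => ?_
    rw [hBB]
    field_simp
  refine ⟨fun j => F.io ν (Bq j / M), fun j => F.io ν (F.τ ((M * Bq.traceDual j) / algebraMap K L ν)),
    fun j => Bq j / M, ?_, fun j => rfl, ?_, ?_⟩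
  · intro i j
    rw [F.pr_io, F.ττ]
    have h1 : algebraMap K L ν * (Bq i / M) * (M * Bq.traceDual j / algebraMap K L ν) = Bq i * Bq.traceDual j := by
      field_simp
    rw [h1, Module.Basis.trace_mul_traceDual]
    split_ifs <;> simp
  · intro x
    constructor
    · rintro ⟨y, hy⟩
      refine ⟨fun j => Bz.repr y j, ?_⟩
      have h1 := hsum (fun j => Bz.repr y j)
      rw [Bz.sum_repr y, ← hy] at h1
      exact (mul_left_cancel₀ hML h1).symm
    · rintro ⟨k, hk⟩
      exact ⟨∑ j, k j • Bz j, by rw [hk]; exact hsum k⟩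
  · intro k
    unfold lp
    refine Prod.ext ?_ ?_
    · rw [Prod.fst_sum]
      simp only [Fld.io, Prod.smul_fst, Complex.real_smul]
      rw [Finset.mul_sum, map_sum]
      refine Finset.sum_congr rfl fun j _ => ?_
      rw [← mul_assoc, mul_comm (algebraMap K L ν) (k j : L), mul_assoc, map_mul F.s (k j : L), map_intCast]
      push_cast
      rfl
    · rw [Prod.snd_sum]
      simp only [Fld.io, Prod.smul_snd, Complex.real_smul]
      rw [map_sum, map_sum]
      refine Finset.sum_congr rfl fun j _ => ?_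
      rw [map_mul F.τ, map_mul F.s, map_intCast, map_intCast]
      push_cast
      rfl

/-- CHUNK A4b (M).  The theta integral of a bounded function with support in `M⁻¹ 𝓞 L` as a series over `ℤ⁴`.
PROOF. `b`, `ω` from `exists_basis`, `f k := ∑ j, k j * ω j`, injective (`t16i` and `lp b k = io ν (f k)`), its range is the set of the `x` with `M x ∈ 𝓞 L`, which
contains the support of `φ`.  `F.GL ρ ν φ P = ∑' k, indicator (φ (f k) * W P ..) (lp b k)` (`Function.Injective.tsum_eq`) `= G ρ b (φ ∘ f) P`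
`= Ks (ga ρ b (φ ∘ f)) (gw b) P` (`t23g`); `KS` by `t23k`.  `gw b k = (lp b k).1 * (lp b k).2 = F.sK (ν * N (f k))` (`Fld.io_mul`), and for
`x = f k`: `M ^ 2 N(x) = N(M x)` is integral (`Algebra.norm` of an integer: `RingOfIntegers.norm`). -/
theorem Fld.GL_Ks (F : Fld K L) {ρ : ℝ} (hρ : 1 < ρ) (ν : K) (hν : ν ≠ 0) (M : ℕ) (hM : 0 < M) (φ : L → ℂ) (B : ℝ)
    (hB : ∀ x, ‖φ x‖ ≤ B) (hs : ∀ x, φ x ≠ 0 → ∃ y : 𝓞 L, (M : L) * x = (y : L)) :
    ∃ (a : (Fin 4 → ℤ) → ℂ) (y : (Fin 4 → ℤ) → K), KS a (fun k => F.sK (y k)) ∧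
      (∀ k, ∃ z : 𝓞 K, (M : K) ^ 2 * y k = ν * (z : K)) ∧ ∀ P, F.GL ρ ν φ P = Ks a (fun k => F.sK (y k)) P := by
  obtain ⟨b, b', ω, hb, _, hrange, hlp⟩ := F.exists_basis ν hν M hM
  set f : (Fin 4 → ℤ) → L := fun k => ∑ j, (k j : L) * ω j with hf
  have hfinj : Function.Injective f := by
    intro k k' h
    apply t16i hb
    rw [hlp, hlp]
    exact congrArg (F.io ν) h
  have hgw : gw b = fun k => F.sK (ν * Algebra.norm K (f k)) := by
    funext k
    rw [gw, hlp, F.io_mul]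
  have hKS := t23k hb hρ (φ := fun k => φ (f k)) (B := B) (fun k => hB _)
  rw [hgw] at hKS
  refine ⟨ga ρ b (fun k => φ (f k)), fun k => ν * Algebra.norm K (f k), hKS, ?_, ?_⟩
  · intro k
    obtain ⟨y, hy⟩ := (hrange (f k)).mpr ⟨k, rfl⟩
    refine ⟨RingOfIntegers.norm K y, ?_⟩
    have h1 : ((RingOfIntegers.norm K y : 𝓞 K) : K) = (M : K) ^ 2 * Algebra.norm K (f k) := by
      rw [RingOfIntegers.coe_norm, ← hy, map_mul]
      congr 1
      have h2 : (M : L) = algebraMap K L (M : K) := by rw [map_natCast]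
      rw [h2, Algebra.norm_algebraMap, F.deg2]
    rw [h1]
    ring
  · intro P
    rw [← hgw, ← t23g]
    unfold Fld.GL G
    rw [← hfinj.tsum_eq (f := fun x : L => (Fd ρ).indicator (fun y => φ x * W P y) (F.io ν x))]
    · refine tsum_congr fun k => ?_
      rw [hlp]
    · intro x hx
      have h1 : φ x ≠ 0 := by
        intro h0
        apply hx
        change (Fd ρ).indicator (fun y => φ x * W P y) (F.io ν x) = 0
        rw [h0]
        simp only [zero_mul]
        exact Set.indicator_apply_eq_zero.mpr fun _ => rfl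
      obtain ⟨k, hk⟩ := (hrange x).mp (hs x h1)
      exact ⟨k, hk.symm⟩

end Pool.Agent.H2S
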