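import Pool.Agent.Lib.H2S.X00

/-!
# H2S, chunk X01 (size M): oscillating series

Write `hS : Osc v₁ v₂ S` with `ι, c, w`.
`x01p`: `eT (w (z + v)) = eT (w z) * exp (2 π I k)`, `k = 2 Re (w v)` an integer (`Complex.exp_int_mul_two_pi_mul_I`), so every term is unchanged.
`x01d`: `‖S P‖ ≤ ∑ ‖c i P.2‖` (`‖eT‖ = 1`, `norm_tsum_le_tsum_norm`), and this tends to `0`.
`x01c`: `continuous_tsum` (terms continuous in `z`, norm `‖c i t‖`).
`x01m`: exchange the sum with the two integrals (terms bounded by `‖c i t‖`, summable: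
`intervalIntegral.hasSum_integral_of_summable_norm` twice, or `integral_tsum_of_summable_integral_norm`) and `x00`.
`x02`: if `L (S (z, t)) < 0` for all `z`, the continuous function `(x, y) ↦ - L (S (x v₁ + y v₂, t))` is positive on `[0, 1] ^ 2`, so at least
some `m > 0` (compactness), and `0 < m ≤ ∫ ∫ - L (S ..) = - L (∫ ∫ S ..) = 0` (`ContinuousLinearMap.intervalIntegral_comp_comm`).
-/

set_option autoImplicit false
namespace Pool.Agent.H2S
open Complex MeasureTheory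

theorem x01_norm (w : ℂ) : ‖eT w‖ = 1 := by
  unfold eT
  exact Complex.norm_exp_ofReal_mul_I _

theorem x01_cont : Continuous eT := by
  unfold eT
  fun_prop

theorem x01_shift {w z v : ℂ} (h : ∃ k : ℤ, 2 * (w * v).re = k) : eT (w * (z + v)) = eT (w * z) := by
  obtain ⟨k, hk⟩ := h
  unfold eT
  have h1 : 4 * Real.pi * (w * (z + v)).re = 4 * Real.pi * (w * z).re + 2 * Real.pi * (k : ℝ) := by
    rw [mul_add, Complex.add_re, ← hk]
    ring
  rw [h1]
  have h2 : (((4 * Real.pi * (w * z).re + 2 * Real.pi * (k : ℝ)) : ℝ) : ℂ) * Complex.I =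
      ((4 * Real.pi * (w * z).re : ℝ) : ℂ) * Complex.I + (k : ℂ) * (2 * Real.pi * Complex.I) := by
    push_cast
    ring
  rw [h2, Complex.exp_add, Complex.exp_int_mul_two_pi_mul_I, mul_one]

theorem x01_sum {ι : Type} [Countable ι] (v₁ v₂ : ℂ) (c : ι → ℂ) (w : ι → ℂ) (hc : Summable fun i => ‖c i‖) :
    ∫ x in (0 : ℝ)..1, ∫ y in (0 : ℝ)..1, ∑' i, c i * eT (w i * ((x : ℂ) * v₁ + (y : ℂ) * v₂)) =
      ∑' i, c i * ∫ x in (0 : ℝ)..1, ∫ y in (0 : ℝ)..1, eT (w i * ((x : ℂ) * v₁ + (y : ℂ) * v₂)) := by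
  have hcont : ∀ i, Continuous (fun p : ℝ × ℝ => c i * eT (w i * ((p.1 : ℂ) * v₁ + (p.2 : ℂ) * v₂))) := by
    intro i
    have := x01_cont
    fun_prop
  have hn : ∀ (i : ι) (x y : ℝ), ‖c i * eT (w i * ((x : ℂ) * v₁ + (y : ℂ) * v₂))‖ ≤ ‖c i‖ := by
    intro i x y
    rw [norm_mul, x01_norm, mul_one]
  have h1 : ∀ x : ℝ, HasSum (fun i => ∫ y in (0 : ℝ)..1, c i * eT (w i * ((x : ℂ) * v₁ + (y : ℂ) * v₂)))
      (∫ y in (0 : ℝ)..1, ∑' i, c i * eT (w i * ((x : ℂ) * v₁ + (y : ℂ) * v₂))) := by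
    intro x
    refine intervalIntegral.hasSum_integral_of_dominated_convergence (fun i _ => ‖c i‖) ?_ ?_ ?_ ?_ ?_
    · intro i
      exact ((hcont i).comp (continuous_const.prodMk continuous_id : Continuous fun y : ℝ => (x, y))).aestronglyMeasurable
    · intro i
      exact Filter.Eventually.of_forall fun y _ => hn i x y
    · exact Filter.Eventually.of_forall fun y _ => hc
    · exact intervalIntegrable_const
    · exact Filter.Eventually.of_forall fun y _ => (Summable.of_norm_bounded hc (fun i => hn i x y)).hasSum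
  have h2 : HasSum (fun i => ∫ x in (0 : ℝ)..1, ∫ y in (0 : ℝ)..1, c i * eT (w i * ((x : ℂ) * v₁ + (y : ℂ) * v₂)))
      (∫ x in (0 : ℝ)..1, ∫ y in (0 : ℝ)..1, ∑' i, c i * eT (w i * ((x : ℂ) * v₁ + (y : ℂ) * v₂))) := by
    refine intervalIntegral.hasSum_integral_of_dominated_convergence (fun i _ => ‖c i‖) ?_ ?_ ?_ ?_ ?_
    · intro i
      exact (intervalIntegral.continuous_parametric_intervalIntegral_of_continuous'
        (f := fun x y : ℝ => c i * eT (w i * ((x : ℂ) * v₁ + (y : ℂ) * v₂))) (hcont i) 0 1).aestronglyMeasurable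
    · intro i
      refine Filter.Eventually.of_forall fun x _ => ?_
      refine le_trans (intervalIntegral.norm_integral_le_of_norm_le_const (C := ‖c i‖) fun y _ => hn i x y) ?_
      rw [sub_zero, abs_one, mul_one]
    · exact Filter.Eventually.of_forall fun y _ => hc
    · exact intervalIntegrable_const
    · exact Filter.Eventually.of_forall fun x _ => h1 x
  rw [← h2.tsum_eq]
  refine tsum_congr fun i => ?_
  simp only [intervalIntegral.integral_const_mul]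

theorem x01p {v₁ v₂ : ℂ} {S : ℂ × ℝ → ℂ} (hS : Osc v₁ v₂ S) {P : ℂ × ℝ} (hP : P ∈ H3) :
    S (P.1 + v₁, P.2) = S P ∧ S (P.1 + v₂, P.2) = S P := by
  obtain ⟨ι, c, w, hw, h1, h2, hs, ht, hS'⟩ := hS
  have hP1 : ((P.1 + v₁, P.2) : ℂ × ℝ) ∈ H3 := hP
  have hP2 : ((P.1 + v₂, P.2) : ℂ × ℝ) ∈ H3 := hP
  constructor
  · rw [hS' _ hP1, hS' P hP]
    exact tsum_congr fun i => by rw [x01_shift (h1 i)]
  · rw [hS' _ hP2, hS' P hP]
    exact tsum_congr fun i => by rw [x01_shift (h2 i)]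

theorem x01d {v₁ v₂ : ℂ} {S : ℂ × ℝ → ℂ} (hS : Osc v₁ v₂ S) {ε : ℝ} (hε : 0 < ε) :
    ∃ T : ℝ, ∀ P : ℂ × ℝ, T ≤ P.2 → ‖S P‖ ≤ ε := by
  obtain ⟨ι, c, w, hw, h1, h2, hs, ht, hS'⟩ := hS
  obtain ⟨T, hT⟩ := Filter.eventually_atTop.1 (ht.eventually (gt_mem_nhds hε))
  refine ⟨max T 1, fun P hP => ?_⟩
  have hP0 : P ∈ H3 := lt_of_lt_of_le one_pos (le_trans (le_max_right _ _) hP)
  have h3 : ∀ i, ‖c i P.2 * eT (w i * P.1)‖ = ‖c i P.2‖ := fun i => by rw [norm_mul, x01_norm, mul_one]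
  rw [hS' P hP0]
  refine le_trans (norm_tsum_le_tsum_norm ?_) ?_
  · simp only [h3]
    exact hs P.2 hP0
  · simp only [h3]
    exact (hT P.2 (le_trans (le_max_left _ _) hP)).le

theorem x01c {v₁ v₂ : ℂ} {S : ℂ × ℝ → ℂ} (hS : Osc v₁ v₂ S) {t : ℝ} (ht : 0 < t) : Continuous fun z : ℂ => S (z, t) := by
  obtain ⟨ι, c, w, hw, h1, h2, hs, -, hS'⟩ := hS
  have h3 : (fun z : ℂ => S (z, t)) = fun z => ∑' i, c i t * eT (w i * z) := by
    funext z
    exact hS' (z, t) ht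
  rw [h3]
  refine continuous_tsum (u := fun i => ‖c i t‖) (fun i => ?_) (hs t ht) (fun i z => ?_)
  · have := x01_cont
    fun_prop
  · rw [norm_mul, x01_norm, mul_one]

theorem x01m {v₁ v₂ : ℂ} (hv : LinearIndependent ℝ ![v₁, v₂]) {S : ℂ × ℝ → ℂ} (hS : Osc v₁ v₂ S) {t : ℝ} (ht : 0 < t) :
    ∫ x in (0 : ℝ)..1, ∫ y in (0 : ℝ)..1, S ((x : ℂ) * v₁ + (y : ℂ) * v₂, t) = 0 := by
  obtain ⟨ι, c, w, hw, h1, h2, hs, -, hS'⟩ := hS
  have hsum := hs t ht
  have hcs : (Function.support fun i => ‖c i t‖).Countable := hsum.countable_support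
  have : Countable (Function.support fun i => ‖c i t‖) := hcs.to_subtype
  have h3 : ∀ z : ℂ, S (z, t) = ∑' i : (Function.support fun i => ‖c i t‖), c i t * eT (w i * z) := by
    intro z
    rw [hS' (z, t) ht]
    symm
    refine tsum_subtype_eq_of_support_subset (f := fun i => c i t * eT (w i * z)) ?_
    intro i hi
    rw [Function.mem_support] at hi ⊢
    intro h
    exact hi (by rw [norm_eq_zero.1 h, zero_mul])
  simp only [h3]
  rw [x01_sum v₁ v₂ (fun i : (Function.support fun i => ‖c i t‖) => c i t) (fun i => w i) (hsum.subtype _)]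
  rw [tsum_congr (fun i => by rw [x00 hv (hw i) (h1 i) (h2 i), mul_zero]), tsum_zero]

theorem x02 {v₁ v₂ : ℂ} (hv : LinearIndependent ℝ ![v₁, v₂]) {S : ℂ × ℝ → ℂ} (hS : Osc v₁ v₂ S) {t : ℝ} (ht : 0 < t)
    (L : ℂ →L[ℝ] ℝ) (h : ∀ z, L (S (z, t)) ≤ 0) : ∃ z, L (S (z, t)) = 0 := by
  by_contra hc
  push Not at hc
  have hlt : ∀ z, 0 < -(L (S (z, t))) := fun z => neg_pos.2 (lt_of_le_of_ne (h z) (hc z))
  have hcS := x01c hS ht
  have hcf : Continuous (fun p : ℝ × ℝ => S ((p.1 : ℂ) * v₁ + (p.2 : ℂ) * v₂, t)) :=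
    hcS.comp (by fun_prop : Continuous fun p : ℝ × ℝ => (p.1 : ℂ) * v₁ + (p.2 : ℂ) * v₂)
  have hcg : Continuous (fun p : ℝ × ℝ => -(L (S ((p.1 : ℂ) * v₁ + (p.2 : ℂ) * v₂, t)))) :=
    (L.continuous.comp hcf).neg
  obtain ⟨p₀, hp₀, hmin⟩ := (isCompact_Icc.prod isCompact_Icc :
    IsCompact (Set.Icc (0:ℝ) 1 ×ˢ Set.Icc (0:ℝ) 1)).exists_isMinOn
      ⟨(0, 0), ⟨⟨le_rfl, zero_le_one⟩, ⟨le_rfl, zero_le_one⟩⟩⟩ hcg.continuousOn
  have hmean := x01m hv hS ht
  have hin : ∀ x : ℝ, ∫ y in (0 : ℝ)..1, -(L (S ((x : ℂ) * v₁ + (y : ℂ) * v₂, t))) =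
      -(L (∫ y in (0 : ℝ)..1, S ((x : ℂ) * v₁ + (y : ℂ) * v₂, t))) := by
    intro x
    rw [intervalIntegral.integral_neg, L.intervalIntegral_comp_comm]
    exact (hcf.comp (continuous_const.prodMk continuous_id : Continuous fun y : ℝ => (x, y))).intervalIntegrable 0 1
  have hout : ∫ x in (0 : ℝ)..1, ∫ y in (0 : ℝ)..1, -(L (S ((x : ℂ) * v₁ + (y : ℂ) * v₂, t))) = 0 := by
    simp only [hin]
    rw [intervalIntegral.integral_neg, L.intervalIntegral_comp_comm, hmean, map_zero, neg_zero]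
    exact (intervalIntegral.continuous_parametric_intervalIntegral_of_continuous'
      (f := fun x y : ℝ => S ((x : ℂ) * v₁ + (y : ℂ) * v₂, t)) hcf 0 1).intervalIntegrable 0 1
  have hm0 := hlt ((p₀.1 : ℂ) * v₁ + (p₀.2 : ℂ) * v₂)
  have hmi : ∀ x ∈ Set.Icc (0:ℝ) 1, -(L (S ((p₀.1 : ℂ) * v₁ + (p₀.2 : ℂ) * v₂, t))) ≤
      ∫ y in (0 : ℝ)..1, -(L (S ((x : ℂ) * v₁ + (y : ℂ) * v₂, t))) := by
    intro x hx
    have h5 := intervalIntegral.integral_mono_on (μ := volume) (zero_le_one' ℝ)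
      (f := fun _ => -(L (S ((p₀.1 : ℂ) * v₁ + (p₀.2 : ℂ) * v₂, t))))
      (g := fun y : ℝ => -(L (S ((x : ℂ) * v₁ + (y : ℂ) * v₂, t)))) intervalIntegrable_const
      ((hcg.comp (continuous_const.prodMk continuous_id : Continuous fun y : ℝ => (x, y))).intervalIntegrable 0 1)
      (fun y hy => hmin (⟨hx, hy⟩ : ((x, y) : ℝ × ℝ) ∈ Set.Icc (0:ℝ) 1 ×ˢ Set.Icc (0:ℝ) 1))
    rwa [intervalIntegral.integral_const, sub_zero, one_smul] at h5
  have h6 := intervalIntegral.integral_mono_on (μ := volume) (zero_le_one' ℝ)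
    (f := fun _ => -(L (S ((p₀.1 : ℂ) * v₁ + (p₀.2 : ℂ) * v₂, t))))
    (g := fun x : ℝ => ∫ y in (0 : ℝ)..1, -(L (S ((x : ℂ) * v₁ + (y : ℂ) * v₂, t)))) intervalIntegrable_const
    ((intervalIntegral.continuous_parametric_intervalIntegral_of_continuous'
      (f := fun x y : ℝ => -(L (S ((x : ℂ) * v₁ + (y : ℂ) * v₂, t)))) hcg 0 1).intervalIntegrable 0 1) hmi
  rw [intervalIntegral.integral_const, sub_zero, one_smul, hout] at h6
  linarith

end Pool.Agent.H2S
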