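import Pool.Agent.Lib.H2S.E05
import Pool.Agent.Lib.H2S.X01

/-!
# A5: operations on oscillating series (module A, helper21)
-/

set_option autoImplicit false
namespace Pool.Agent.H2S
open Complex NumberField

theorem a5_eT_add (x y : ℂ) : eT (x + y) = eT x * eT y := by
  unfold eT
  rw [← Complex.exp_add]
  congr 1
  rw [Complex.add_re]
  push_cast
  ring

/-- CHUNK A5a (M).  PROOF. `kap (c * r) (t / c) = c⁻² * kap r t` for `c > 0` (substitution `ρ ↦ c² ρ` in the integral,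
`integral_comp_mul_left_Ioi`), so `kap r (‖α‖ * t) = ‖α‖ ^ 2 * kap (‖α‖ * r) t`. -/
theorem a5_kap_scale {c : ℝ} (hc : 0 < c) (r t : ℝ) : kap r (c * t) = c ^ 2 * kap (c * r) t := by
  have h := MeasureTheory.integral_comp_mul_left_Ioi
    (fun ρ : ℝ => Real.exp (-((c * t) ^ 2 / (4 * ρ)) - 16 * Real.pi ^ 2 * r ^ 2 * ρ)) 0
    (b := c ^ 2) (by positivity)
  rw [mul_zero, smul_eq_mul] at h
  unfold kap
  have h2 : ∫ x in Set.Ioi (0 : ℝ), Real.exp (-((c * t) ^ 2 / (4 * (c ^ 2 * x))) - 16 * Real.pi ^ 2 * r ^ 2 * (c ^ 2 * x)) =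
      ∫ x in Set.Ioi (0 : ℝ), Real.exp (-(t ^ 2 / (4 * x)) - 16 * Real.pi ^ 2 * (c * r) ^ 2 * x) := by
    refine MeasureTheory.setIntegral_congr_fun measurableSet_Ioi fun x hx => ?_
    have hx0 : (0 : ℝ) < x := hx
    congr 1
    have e1 : (c * t) ^ 2 / (4 * (c ^ 2 * x)) = t ^ 2 / (4 * x) := by
      field_simp
    rw [e1]
    ring
  rw [h2] at h
  rw [h, ← mul_assoc, mul_inv_cancel₀ (by positivity), one_mul]

/-- CHUNK A5b (M).  The series at `(α z + β, |α| t)`.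
PROOF. `a' i := a i * eT (β * w i) * ‖α‖ ^ 2`, `w' i := α * w i`; `V (α z + β, ‖α‖ t) (w i) = eT (β w i) * ‖α‖² * V (z, t) (α w i)` by `a5_kap_scale` and
`eT (x + y) = eT x * eT y`; `‖eT x‖ = 1`, so `KS a' w'`: `lb` with `‖α‖ δ`, `sm` with `c ‖α‖`. -/
theorem Ks_affine {ι : Type*} {a w : ι → ℂ} (hk : KS a w) (α β : ℂ) (hα : α ≠ 0) :
    ∃ a' : ι → ℂ, KS a' (fun i => α * w i) ∧ ∀ P : ℂ × ℝ, Ks a w (α * P.1 + β, ‖α‖ * P.2) = Ks a' (fun i => α * w i) P := by
  have hα' : 0 < ‖α‖ := norm_pos_iff.2 hα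
  refine ⟨fun i => a i * eT (β * w i) * ((‖α‖ ^ 2 : ℝ) : ℂ), ⟨?_, ?_⟩, ?_⟩
  · obtain ⟨δ, hδ, h⟩ := hk.lb
    refine ⟨‖α‖ * δ, by positivity, fun i hi => ?_⟩
    rw [norm_mul]
    apply mul_le_mul_of_nonneg_left _ hα'.le
    apply h
    intro h0
    apply hi
    rw [h0, zero_mul, zero_mul]
  · intro c hc
    have h := (hk.sm (c * ‖α‖) (by positivity)).mul_left (‖α‖ ^ 2)
    refine h.congr fun i => ?_
    rw [norm_mul, norm_mul, x01_norm, norm_mul, Complex.norm_real, Real.norm_of_nonneg (by positivity)]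
    have e1 : c * ‖α‖ * ‖w i‖ = c * (‖α‖ * ‖w i‖) := by ring
    rw [e1]
    ring
  · intro P
    unfold Ks
    refine tsum_congr fun i => ?_
    unfold V
    simp only
    rw [a5_kap_scale hα', norm_mul]
    have e1 : (α * P.1 + β) * w i = β * w i + P.1 * (α * w i) := by ring
    rw [e1, a5_eT_add]
    push_cast
    ring

/-- CHUNK A5c (S).  PROOF. Empty index type. -/
theorem Osc.zero (v₁ v₂ : ℂ) : Osc v₁ v₂ (fun _ => 0) := by
  refine ⟨Empty, fun i => i.elim, fun i => i.elim, fun i => i.elim, fun i => i.elim, fun i => i.elim, ?_, ?_, ?_⟩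
  · intro t _
    exact (hasSum_empty).summable
  · simp
  · intro P _
    simp

/-- CHUNK A5d (S/M).  PROOF. Index type `ι ⊕ ι'`, `Sum.elim`; `Summable.tsum_sum`-like lemma (`tsum` over a sum type; the series converge absolutely,
`‖c i t * eT _‖ = ‖c i t‖`). -/
theorem Osc.add {v₁ v₂ : ℂ} {S T : ℂ × ℝ → ℂ} (hS : Osc v₁ v₂ S) (hT : Osc v₁ v₂ T) : Osc v₁ v₂ (fun P => S P + T P) := by
  obtain ⟨ι, c, w, h1, h2, h3, h4, h5, h6⟩ := hS
  obtain ⟨κ, d, u, k1, k2, k3, k4, k5, k6⟩ := hT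
  have hs : ∀ t : ℝ, 0 < t → HasSum (fun i : ι ⊕ κ => ‖Sum.elim c d i t‖) (∑' i, ‖c i t‖ + ∑' i, ‖d i t‖) := by
    intro t ht
    exact HasSum.sum (h4 t ht).hasSum (k4 t ht).hasSum
  refine ⟨ι ⊕ κ, Sum.elim c d, Sum.elim w u, ?_, ?_, ?_, ?_, ?_, ?_⟩
  · rintro (i | i)
    · exact h1 i
    · exact k1 i
  · rintro (i | i)
    · exact h2 i
    · exact k2 i
  · rintro (i | i)
    · exact h3 i
    · exact k3 i
  · exact fun t ht => (hs t ht).summable
  · have h7 := h5.add k5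
    rw [add_zero] at h7
    refine h7.congr' ?_
    filter_upwards [Filter.eventually_gt_atTop 0] with t ht
    exact (hs t ht).tsum_eq.symm
  · intro P hP
    have hP' : 0 < P.2 := hP
    have s1 : Summable fun i => c i P.2 * eT (w i * P.1) := by
      refine Summable.of_norm ((h4 P.2 hP').congr fun i => ?_)
      rw [norm_mul, x01_norm, mul_one]
    have s2 : Summable fun i => d i P.2 * eT (u i * P.1) := by
      refine Summable.of_norm ((k4 P.2 hP').congr fun i => ?_)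
      rw [norm_mul, x01_norm, mul_one]
    beta_reduce
    rw [h6 P hP, k6 P hP]
    have h8 : HasSum (fun i : ι ⊕ κ => Sum.elim c d i P.2 * eT (Sum.elim w u i * P.1))
        (∑' i, c i P.2 * eT (w i * P.1) + ∑' i, d i P.2 * eT (u i * P.1)) :=
      HasSum.sum s1.hasSum s2.hasSum
    exact h8.tsum_eq.symm

/-- CHUNK A5e (S).  PROOF. Multiply the coefficients by `a`. -/
theorem Osc.const_mul {v₁ v₂ : ℂ} {S : ℂ × ℝ → ℂ} (hS : Osc v₁ v₂ S) (a : ℂ) : Osc v₁ v₂ (fun P => a * S P) := by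
  obtain ⟨ι, c, w, h1, h2, h3, h4, h5, h6⟩ := hS
  refine ⟨ι, fun i t => a * c i t, w, h1, h2, h3, ?_, ?_, ?_⟩
  · intro t ht
    refine ((h4 t ht).mul_left ‖a‖).congr fun i => ?_
    rw [norm_mul]
  · have h7 := h5.const_mul ‖a‖
    rw [mul_zero] at h7
    refine h7.congr fun t => ?_
    rw [← tsum_mul_left]
    exact tsum_congr fun i => (norm_mul _ _).symm
  · intro P hP
    beta_reduce
    rw [h6 P hP, ← tsum_mul_left]
    exact tsum_congr fun i => by ring

/-- CHUNK A5f (S).  PROOF. `Finset.induction`, `Osc.zero`, `Osc.add`. -/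
theorem Osc.sum {κ : Type*} (s : Finset κ) {v₁ v₂ : ℂ} {S : κ → ℂ × ℝ → ℂ} (hS : ∀ i ∈ s, Osc v₁ v₂ (S i)) :
    Osc v₁ v₂ (fun P => ∑ i ∈ s, S i P) := by
  classical
  induction s using Finset.induction_on with
  | empty => simpa using Osc.zero v₁ v₂
  | insert i s hi ih =>
    have h := (hS i (Finset.mem_insert_self i s)).add (ih fun j hj => hS j (Finset.mem_insert_of_mem hj))
    have e : (fun P => ∑ j ∈ insert i s, S j P) = fun P => S i P + ∑ j ∈ s, S j P := by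
      funext P
      exact Finset.sum_insert hi
    rw [e]
    exact h

end Pool.Agent.H2S
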