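import Pool.Agent.Lib.H2S.A0
import Pool.Agent.Lib.H2S.A4
import Pool.Agent.Lib.H2S.A5
import Pool.Agent.Lib.H2S.N3

/-!
# A6: theta integrals at cusps (module A, helper21)
-/

set_option autoImplicit false
namespace Pool.Agent.H2S
open Complex NumberField

variable {K L : Type} [Field K] [NumberField K] [Field L] [NumberField L] [Algebra K L]

theorem a6_den (z : K) : ∃ n : ℕ, 0 < n ∧ ∃ z₀ : 𝓞 K, (n : K) * z = (z₀ : K) := by
  obtain ⟨y, hy, hi⟩ := (IsAlgebraic.exists_integral_multiple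
    (IsFractionRing.isAlgebraic_iff ℤ ℚ K |>.2 (Algebra.IsAlgebraic.isAlgebraic z)) :
      ∃ y ≠ (0 : ℤ), IsIntegral ℤ (y • z))
  rw [zsmul_eq_mul] at hi
  refine ⟨y.natAbs, Int.natAbs_pos.2 hy, ?_⟩
  have h1 : IsIntegral ℤ ((y.natAbs : K) * z) := by
    rcases Int.natAbs_eq y with h | h
    · have h2 : (y : K) = (y.natAbs : K) := by
        have h3 : ((y : ℤ) : K) = (((y.natAbs : ℕ) : ℤ) : K) := congrArg _ h
        rw [h3, Int.cast_natCast]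
      rw [h2] at hi
      exact hi
    · have h2 : (y : K) = -(y.natAbs : K) := by
        have h3 : ((y : ℤ) : K) = ((-((y.natAbs : ℕ) : ℤ) : ℤ) : K) := congrArg _ h
        rw [h3, Int.cast_neg, Int.cast_natCast]
      rw [h2, neg_mul] at hi
      have h4 := hi.neg
      rwa [neg_neg] at h4
  exact ⟨⟨_, h1⟩, rfl⟩

/-- CHUNK A6 (M).  PROOF. `Fld.GL_Ks` gives `a`, `y`; with `α₁ := F.sK (α * u)` (`≠ 0`, `‖α₁‖ = ‖F.sK α‖` by `Fld.norm_unit`) `Ks_affine` gives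
`a'` with `KS a' (fun k => α₁ * F.sK (y k))`, and the function in the claim equals `Ks a' (fun k => F.sK (α * u * y k))` (`funext`).
`D₀ := M ^ 2 * n` with `n > 0` and `n * (α * ν) = z₀` for some `z₀ ∈ 𝓞 K` (clear denominators with a positive integer, as in `exists_om`).  For
`D = D₀ * e`: `D * (α u y k) = e n α u M² y k = e u z₀ z` (`M² y k = ν z`) is in `𝓞 K`, and so is its product with `ω`: by `Fld.two_re`
`2 Re (F.sK (α u y k) * D)` and `2 Re (F.sK (α u y k) * (D * F.sK ω))` are integers.  `e05` (index type `Fin 4 → ℤ`). -/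
theorem Fld.osc_GL (F : Fld K L) {ρ : ℝ} (hρ : 1 < ρ) (ν : K) (hν : ν ≠ 0) (M : ℕ) (hM : 0 < M) (φ : L → ℂ) (B : ℝ)
    (hB : ∀ x, ‖φ x‖ ≤ B) (hs : ∀ x, φ x ≠ 0 → ∃ y : 𝓞 L, (M : L) * x = (y : L)) (α β : K) (hα : α ≠ 0)
    (u : (𝓞 K)ˣ) (ω : 𝓞 K) :
    ∃ D₀ : ℕ, 0 < D₀ ∧ ∀ D : ℕ, D₀ ∣ D → Osc (D : ℂ) ((D : ℂ) * F.sK (ω : K))
      (fun P => F.GL ρ ν φ (F.sK α * (F.sK ((u : 𝓞 K) : K) * P.1) + F.sK β, ‖F.sK α‖ * P.2)) := by
  obtain ⟨a, y, hk, hz, hG⟩ := F.GL_Ks hρ ν hν M hM φ B hB hs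
  have hu0 : ((u : 𝓞 K) : K) ≠ 0 := by
    intro h
    have h1 : (u : 𝓞 K) = 0 := RingOfIntegers.coe_injective h
    exact u.ne_zero h1
  have hα₁ : F.sK (α * ((u : 𝓞 K) : K)) ≠ 0 := by
    rw [Ne, map_eq_zero]
    exact mul_ne_zero hα hu0
  have hn : ‖F.sK (α * ((u : 𝓞 K) : K))‖ = ‖F.sK α‖ := by
    rw [map_mul, norm_mul, F.norm_unit, mul_one]
  obtain ⟨a', hk', ha'⟩ := Ks_affine hk (F.sK (α * ((u : 𝓞 K) : K))) (F.sK β) hα₁
  have hfun : (fun P : ℂ × ℝ => F.GL ρ ν φ (F.sK α * (F.sK ((u : 𝓞 K) : K) * P.1) + F.sK β, ‖F.sK α‖ * P.2)) =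
      Ks a' (fun k => F.sK (α * ((u : 𝓞 K) : K)) * F.sK (y k)) := by
    funext P
    rw [hG, ← ha' P, hn, map_mul, mul_assoc (F.sK α)]
  obtain ⟨n, hn0, z₀, hz₀⟩ := a6_den (α * ν)
  refine ⟨M ^ 2 * n, Nat.mul_pos (pow_pos hM 2) hn0, fun D hD => ?_⟩
  obtain ⟨e, he⟩ := hD
  have hY : ∀ k, ∃ Y : 𝓞 K, F.sK (α * ((u : 𝓞 K) : K)) * F.sK (y k) * (D : ℂ) = F.sK (Y : K) := by
    intro k
    obtain ⟨z, hz1⟩ := hz k
    refine ⟨(e : 𝓞 K) * u * z₀ * z, ?_⟩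
    have h1 : (((e : 𝓞 K) * u * z₀ * z : 𝓞 K) : K) = α * ((u : 𝓞 K) : K) * y k * (D : K) := by
      rw [he]
      push_cast
      linear_combination (-(e : K) * ((u : 𝓞 K) : K) * (z : K)) * hz₀ - (n : K) * e * α * ((u : 𝓞 K) : K) * hz1
    rw [h1]
    simp only [map_mul, map_natCast]
  rw [hfun]
  refine e05 hk' (fun k _ => ?_) (fun k _ => ?_)
  · obtain ⟨Y, hY1⟩ := hY k
    rw [hY1]
    exact F.two_re Y
  · obtain ⟨Y, hY1⟩ := hY k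
    rw [← mul_assoc, hY1, ← map_mul]
    exact F.two_re (Y * ω)

end Pool.Agent.H2S
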