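import Pool.Agent.Lib.H2S.A6
import Pool.Agent.Lib.H2S.A2

/-!
# A7: `FF` at the cusps (module A, helper21)
-/

set_option autoImplicit false
namespace Pool.Agent.H2S
open Complex NumberField

variable {K L : Type} [Field K] [NumberField K] [Field L] [NumberField L] [Algebra K L]
  {F : Fld K L} {m : Ideal (𝓞 L)} {p : ℕ}

/-- Auxiliary: one term. -/
theorem a7_term (Ψ : Psi F m p) (η : (𝓞 L)ˣ) (h1 : 1 < ‖F.s ((η : 𝓞 L) : L)‖)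
    (h2 : ((η : 𝓞 L) : L) * F.τ ((η : 𝓞 L) : L) = 1) (D : Lat F) (hb : IsCoprime D.b m)
    (g : Matrix (Fin 2) (Fin 2) (𝓞 K)) (hg : g.det = 1) (u : (𝓞 K)ˣ) (ω : 𝓞 K) :
    ∃ (C : ℂ) (S : ℂ × ℝ → ℂ) (D₀ : ℕ), 0 < D₀ ∧
      (∀ E : ℕ, D₀ ∣ E → Osc (E : ℂ) ((E : ℂ) * F.sK (ω : K)) S) ∧
      ∀ P ∈ H3, F.GL (‖F.s ((η : 𝓞 L) : L)‖ ^ 2) D.ν (phb Ψ.toChr D.b)
        (F.sK ((u : 𝓞 K) : K) * (actO F.sK g P).1, (actO F.sK g P).2) = C + S P := by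
  obtain ⟨g', hg', -, hact⟩ := F.act_unit ⊤ u g hg
  obtain ⟨C, φ', α, β, M, B, hα, hM, hB, hs, hcusp⟩ := cuspI Ψ η h1 h2 D hb g' hg'
  have hρ : 1 < ‖F.s ((η : 𝓞 L) : L)‖ ^ 2 := by
    have h3 : (0 : ℝ) ≤ ‖F.s ((η : 𝓞 L) : L)‖ := norm_nonneg _
    nlinarith
  have hν : D.ν ≠ 0 := by
    unfold Lat.ν
    apply inv_ne_zero
    apply mul_ne_zero
    · intro h0
      exact D.nne (RingOfIntegers.coe_injective (h0.trans (map_zero _).symm))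
    · intro h0
      exact D.δne (RingOfIntegers.coe_injective (h0.trans (map_zero _).symm))
  obtain ⟨D₀, hD₀, hosc⟩ := F.osc_GL hρ D.ν hν M hM φ' B hB hs α β hα u ω
  refine ⟨C, _, D₀, hD₀, hosc, fun P hP => ?_⟩
  have hP' : (F.sK ((u : 𝓞 K) : K) * P.1, P.2) ∈ H3 := hP
  rw [hact P hP, hcusp _ hP', add_comm]

/-- CHUNK A7a (M).  PROOF. `η` from `Fld.exists_unit`, `FF_eq`; the units of `𝓞 K` are finite in number (`Fld.units_finite`,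
`finsum_eq_sum_of_fintype`).  For `i` and `u`: `Fld.act_unit` gives `g'` of determinant one with
`(sK u * (g P).1, (g P).2) = actO g' P'`, `P' = (sK u * P.1, P.2) ∈ H3`; `cuspI` for `D i` and `g'` gives `C, φ', α, β, M, B`;
`Fld.osc_GL` (`ρ = ‖s η‖ ^ 2 > 1`, `ν = (D i).ν ≠ 0`) gives `D₀ i u`.  `A := ∑ i, c i * ∑ u, C i u`,
`S P := ∑ i, c i * ∑ u, GL (φ' i u) (sK α * (sK u * P.1) + sK β, ‖sK α‖ * P.2)`, `D₀ := ∏ i, ∏ u, D₀ i u`; `Osc.sum`, `Osc.const_mul`. -/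
theorem cusp_FF (Ψ : Psi F m p) (δ : 𝓞 K) (hδ : δ ≠ 0) (hd : differentIdeal ℤ (𝓞 K) = Ideal.span {δ}) (ω : 𝓞 K)
    (g : Matrix (Fin 2) (Fin 2) (𝓞 K)) (hg : g.det = 1) :
    ∃ (A : ℂ) (S : ℂ × ℝ → ℂ) (D₀ : ℕ), 0 < D₀ ∧
      (∀ D : ℕ, D₀ ∣ D → Osc (D : ℂ) ((D : ℂ) * F.sK (ω : K)) S) ∧
      ∀ P ∈ H3, Ψ.FF δ (actO F.sK g P) = A + S P := by
  obtain ⟨η, hη1, hη2⟩ := F.exists_unit
  obtain ⟨r, D, c, hD, hFF⟩ := FF_eq Ψ η hη1 hη2 δ hδ hd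
  have := F.units_finite
  have := Fintype.ofFinite (𝓞 K)ˣ
  have key := fun (i : Fin r) (u : (𝓞 K)ˣ) => a7_term Ψ η hη1 hη2 (D i) (hD i).2 g hg u ω
  choose C S D₀ hD₀ hosc hS using key
  refine ⟨∑ i, c i * ∑ u, C i u, fun P => ∑ i, c i * ∑ u, S i u P, ∏ i, ∏ u, D₀ i u,
    Finset.prod_pos fun i _ => Finset.prod_pos fun u _ => hD₀ i u, fun E hE => ?_, fun P hP => ?_⟩
  · refine Osc.sum Finset.univ fun i _ => Osc.const_mul ?_ (c i)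
    refine Osc.sum Finset.univ fun u _ => hosc i u E ?_
    exact ((Finset.dvd_prod_of_mem _ (Finset.mem_univ u)).trans
      (Finset.dvd_prod_of_mem (fun i => ∏ u, D₀ i u) (Finset.mem_univ i))).trans hE
  · have hg0 : g.det ≠ 0 := by
      rw [hg]
      exact one_ne_zero
    rw [hFF _ (actO_mem F.sK hg0 hP), ← Finset.sum_add_distrib]
    refine Finset.sum_congr rfl fun i _ => ?_
    rw [finsum_eq_sum_of_fintype, ← mul_add, ← Finset.sum_add_distrib]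
    congr 1
    exact Finset.sum_congr rfl fun u _ => hS i u P hP

/-- CHUNK A7b (S).  PROOF. `Fld.det_unit` (with `N = ⊤`) and `FF_unit` reduce to `cusp_FF`. -/
theorem cusp_FF' (Ψ : Psi F m p) (δ : 𝓞 K) (hδ : δ ≠ 0) (hd : differentIdeal ℤ (𝓞 K) = Ideal.span {δ}) (ω : 𝓞 K)
    (g : GL (Fin 2) (𝓞 K)) :
    ∃ (A : ℂ) (S : ℂ × ℝ → ℂ) (D₀ : ℕ), 0 < D₀ ∧
      (∀ D : ℕ, D₀ ∣ D → Osc (D : ℂ) ((D : ℂ) * F.sK (ω : K)) S) ∧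
      ∀ P ∈ H3, Ψ.FF δ (actO F.sK (g : Matrix (Fin 2) (Fin 2) (𝓞 K)) P) = A + S P := by
  obtain ⟨v, g', hg', -, hact⟩ := F.det_unit ⊤ g
  obtain ⟨A, S, D₀, hD₀, hosc, hS⟩ := cusp_FF Ψ δ hδ hd ω g' hg'
  refine ⟨A, S, D₀, hD₀, hosc, fun P hP => ?_⟩
  rw [hact P hP, FF_unit, hS P hP]

end Pool.Agent.H2S
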