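import Pool.Agent.Lib.H2S.B2

/-!
# B3: covering of the upper half-space (class number one)
-/

set_option autoImplicit false
namespace Pool.Agent.H2S
open Complex NumberField

variable {K L : Type*} [Field K] [NumberField K] [Field L] [NumberField L] [Algebra K L]

/-- In a principal ideal domain every nonzero pair is a multiple of a coprime pair. -/
theorem b3_pair {R : Type*} [CommRing R] [IsDomain R] [IsPrincipalIdealRing R] (a b : R) (h : a ≠ 0 ∨ b ≠ 0) :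
    ∃ g a' b' : R, g ≠ 0 ∧ a = g * a' ∧ b = g * b' ∧ IsCoprime a' b' := by
  obtain ⟨g, hg⟩ := (IsPrincipalIdealRing.principal (Ideal.span ({a, b} : Set R))).principal
  have hg' : Ideal.span ({a, b} : Set R) = Ideal.span {g} := hg
  have ha : a ∈ Ideal.span ({g} : Set R) := by
    rw [← hg']
    exact Ideal.subset_span (by simp)
  have hb : b ∈ Ideal.span ({g} : Set R) := by
    rw [← hg']
    exact Ideal.subset_span (by simp)
  obtain ⟨a', ha'⟩ := Ideal.mem_span_singleton.1 ha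
  obtain ⟨b', hb'⟩ := Ideal.mem_span_singleton.1 hb
  have hg1 : g ∈ Ideal.span ({a, b} : Set R) := by
    rw [hg']
    exact Ideal.mem_span_singleton_self g
  obtain ⟨s, r, hsr⟩ := Ideal.mem_span_pair.1 hg1
  have hg0 : g ≠ 0 := by
    rintro rfl
    rw [zero_mul] at ha' hb'
    rcases h with h | h
    · exact h ha'
    · exact h hb'
  refine ⟨g, a', b', hg0, ha', hb', s, r, ?_⟩
  apply mul_left_cancel₀ hg0
  calc g * (s * a' + r * b') = s * (g * a') + r * (g * b') := by ring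
    _ = s * a + r * b := by rw [← ha', ← hb']
    _ = g * 1 := by rw [hsr, mul_one]

/-- PROOF. Let `n` be as in `Fld.approx` and `t₀ = 1 / (2 n)` (or any `t₀ > 0` with `n² t₀² < 1 / 2`).  Given `P`, choose `v = (c, d)`, coprime
(`IsCoprime c d`), with `Qf P v` minimal among the coprime pairs (`Fld.finite_Qf`; `(0, 1)` is coprime).  Write `a d - b c = 1` and let
`g = (a b; c d)`, `P' = g P`.  For every coprime pair `w`: `Qf P' w = Qf P (w g)` (`Qf_act`, determinant `1`) and `w g` is coprime, so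
`Qf P' w ≥ Qf P v = Qf P' (0, 1) = 1 / t'`.  For every pair `w ≠ 0`, `w = x w'` with `w'` coprime (`𝓞 K` is a principal ideal ring, `F.pid`) and
`|x| ≥ 1` (`Fld.one_le`), so `Qf P' w ≥ 1 / t'`, i.e. `|w₁ z' + w₂|² + |w₁|² t'² ≥ 1`.  By `Fld.approx` for `z'` there is `w = (c, d)` with
`1/2 + n² t'² ≥ 1`.  So `t' ≥ t₀`. -/
theorem Fld.covering (F : Fld K L) : ∃ t₀ : ℝ, 0 < t₀ ∧ ∀ P ∈ H3, ∃ g : Matrix (Fin 2) (Fin 2) (𝓞 K), g.det = 1 ∧
    t₀ ≤ (actO F.sK g P).2 := by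
  classical
  obtain ⟨n, hn⟩ := F.approx
  have hn1 : 1 ≤ n := by
    obtain ⟨c, h1, h2, -⟩ := hn 0
    omega
  have hnr : (1 : ℝ) ≤ n := by exact_mod_cast hn1
  have hpid := F.pid
  refine ⟨1 / (2 * n), by positivity, fun P hP => ?_⟩
  let q : 𝓞 K × 𝓞 K → ℝ := fun v => Qf P (F.sK (v.1 : K), F.sK (v.2 : K))
  have hfin : {v : 𝓞 K × 𝓞 K | IsCoprime v.1 v.2 ∧ q v ≤ q (0, 1)}.Finite :=
    (F.finite_Qf hP (q (0, 1))).subset fun v hv => hv.2
  obtain ⟨v, hv1, hv2⟩ := Set.exists_min_image _ q hfin ⟨(0, 1), isCoprime_zero_left.2 isUnit_one, le_rfl⟩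
  have hmin : ∀ w : 𝓞 K × 𝓞 K, IsCoprime w.1 w.2 → q v ≤ q w := by
    intro w hw
    rcases le_or_gt (q w) (q (0, 1)) with h1 | h1
    · exact hv2 w ⟨hw, h1⟩
    · exact hv1.2.trans h1.le
  obtain ⟨c, d⟩ := v
  obtain ⟨x, y, hxy⟩ := hv1.1
  have hxy' : x * c + y * d = 1 := hxy
  let g : Matrix (Fin 2) (Fin 2) (𝓞 K) := !![y, -x; c, d]
  have hg : g.det = 1 := by
    rw [Matrix.det_fin_two_of, ← hxy']
    ring
  let gC : Matrix (Fin 2) (Fin 2) ℂ := g.map fun a => F.sK (a : K)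
  have hgC : gC.det = 1 := by
    have h1 : gC.det = F.sK ((g.det : 𝓞 K) : K) := by
      rw [Matrix.det_fin_two, Matrix.det_fin_two]
      simp [gC, Matrix.map_apply]
    rw [h1, hg]
    simp
  have hgC0 : gC.det ≠ 0 := by
    rw [hgC]
    exact one_ne_zero
  obtain ⟨P', hP'⟩ : ∃ P', P' = act gC P := ⟨_, rfl⟩
  have hP'3 : P' ∈ H3 := by
    rw [hP']
    exact act_mem hgC0 hP
  have ht' : 0 < P'.2 := hP'3
  have hQ : ∀ w : 𝓞 K × 𝓞 K, Qf P' (F.sK (w.1 : K), F.sK (w.2 : K)) = q (w.1 * y + w.2 * c, w.1 * (-x) + w.2 * d) := by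
    intro w
    rw [hP', Qf_act hgC0 hP, hgC, norm_one, div_one]
    simp [q, gC, g, Matrix.map_apply]
  have h01 : Qf P' (F.sK ((0 : 𝓞 K) : K), F.sK ((1 : 𝓞 K) : K)) = 1 / P'.2 := by
    simp [Qf]
  have h01' : Qf P' (F.sK ((0 : 𝓞 K) : K), F.sK ((1 : 𝓞 K) : K)) = q (c, d) := by
    rw [hQ (0, 1)]
    congr 1
    simp
  have hcop : ∀ w : 𝓞 K × 𝓞 K, IsCoprime w.1 w.2 → 1 / P'.2 ≤ Qf P' (F.sK (w.1 : K), F.sK (w.2 : K)) := by
    intro w hw
    rw [← h01, h01', hQ w]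
    apply hmin
    obtain ⟨s, r, hsr⟩ := hw
    refine ⟨s * d + r * x, -s * c + r * y, ?_⟩
    show (s * d + r * x) * (w.1 * y + w.2 * c) + (-s * c + r * y) * (w.1 * (-x) + w.2 * d) = 1
    linear_combination (s * w.1 + r * w.2) * hxy' + hsr
  have hall : ∀ a b : 𝓞 K, (a ≠ 0 ∨ b ≠ 0) → 1 / P'.2 ≤ Qf P' (F.sK (a : K), F.sK (b : K)) := by
    intro a b hab
    obtain ⟨e, a', b', he, ha, hb, hco⟩ := b3_pair a b hab
    have h1 := hcop (a', b') hco
    have h2 : Qf P' (F.sK (a : K), F.sK (b : K)) = ‖F.sK (e : K)‖ ^ 2 * Qf P' (F.sK (a' : K), F.sK (b' : K)) := by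
      rw [ha, hb]
      simp only [Qf, map_mul]
      have h3 : F.sK (e : K) * F.sK (a' : K) * P'.1 + F.sK (e : K) * F.sK (b' : K) =
          F.sK (e : K) * (F.sK (a' : K) * P'.1 + F.sK (b' : K)) := by ring
      rw [h3, norm_mul, norm_mul]
      ring
    rw [h2]
    have h4 := F.one_le he
    have h5 : (1 : ℝ) ≤ ‖F.sK (e : K)‖ ^ 2 := one_le_pow₀ h4
    have h6 : 0 ≤ Qf P' (F.sK (a' : K), F.sK (b' : K)) := le_trans (by positivity) h1
    nlinarith
  refine ⟨g, hg, ?_⟩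
  have hact : actO F.sK g P = P' := by
    rw [hP']
    rfl
  rw [hact]
  obtain ⟨m, hm0, hmn, e, he⟩ := hn P'.1
  have hm : ((m : 𝓞 K)) ≠ 0 := by
    exact_mod_cast hm0.ne'
  have h1 := hall (m : 𝓞 K) e (Or.inl hm)
  have h2 : F.sK (((m : 𝓞 K)) : K) = (m : ℂ) := by
    simp
  rw [h2] at h1
  simp only [Qf] at h1
  rw [div_le_div_iff_of_pos_right ht', Complex.norm_natCast] at h1
  have hmr : (m : ℝ) ≤ n := by exact_mod_cast hmn
  have h3 : (m : ℝ) ^ 2 * P'.2 ^ 2 ≤ (n : ℝ) ^ 2 * P'.2 ^ 2 := by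
    refine mul_le_mul_of_nonneg_right ?_ (by positivity)
    exact pow_le_pow_left₀ (Nat.cast_nonneg m) hmr 2
  have h4 : (1 : ℝ) / 2 ≤ ((n : ℝ) * P'.2) ^ 2 := by
    rw [mul_pow]
    linarith
  rw [div_le_iff₀ (by positivity)]
  by_contra h5
  push Not at h5
  have h6 : 0 < (n : ℝ) * P'.2 := by positivity
  nlinarith
end Pool.Agent.H2S
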