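import Pool.Agent.Lib.H2S.X06
import Pool.Agent.Lib.H2S.X01

/-!
# H2S, chunk X07 (size M): invariant harmonic functions with limits at the cusps are constant

`x07a`: if `f Q ≤ A` whenever `t₀ ≤ Q.2`, take `M = A`.  Otherwise there is `Q₀` with `f Q₀ > A`; let `ε = (f Q₀ - A) / 2`, `T` from `hd`; the set
`K = {(x v₁ + y v₂, t) | x, y ∈ [0, 1], t₀ ≤ t ≤ max T t₀}` is compact and contained in `H3`; every `Q` with `t₀ ≤ Q.2 ≤ max T t₀` has a translate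
`Q' ∈ K` with `f Q' = f Q` (`z = x v₁ + y v₂` with real `x`, `y` because `v₁, v₂` is a basis; subtract integer multiples of `v₁`, `v₂`: `hp₁`, `hp₂` and induction over `ℤ`).  `Q₀.2 < T`
(otherwise `f Q₀ ≤ A + ε < f Q₀`), so `K` is nonempty and contains a translate of `Q₀`; `f` is continuous on `K`, let `Q₁ ∈ K` be a maximum point; `M = f Q₁ ≥ f Q₀`.
For `Q.2 ≥ T`: `f Q ≤ A + ε < f Q₀ ≤ M`; for `t₀ ≤ Q.2 ≤ T`: `f Q = f Q' ≤ M`.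
`x07b`: let `u P = L (F P)`, `Harm` by `x03L`.  For every `i` apply `x07a` to `f = u ∘ s i`, `A = L (A i)` (continuity: `u` is differentiable on `H3`, `hsc`, `hs`; periodicity: `hFS`, `x01p`;
decay: `hFS`, `x01d`, `‖L‖`): `M i`.  `ι` is nonempty (`hcov` at any point); let `i` be such that `M i` is maximal (`Finite.exists_max`).  By `hcov` `u P ≤ M i` for all `P ∈ H3`.
If `M i = u (s i Q)` for some `Q` with `Q.2 ≥ t₀`: `x06` with `P₀ = s i Q`.  If `M i = L (A i)`: for every `z`, `L (S i (z, 1)) = u (s i (z, 1)) - L (A i) ≤ 0`, so by `x02` there is `z` with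
`L (S i (z, 1)) = 0`, `u (s i (z, 1)) = M i`: `x06` again.
`x07`: `x07b` for `L = reCLM` and `imCLM`.
-/

set_option autoImplicit false
namespace Pool.Agent.H2S
open Complex MeasureTheory

theorem x07_basis {v₁ v₂ : ℂ} (hv : LinearIndependent ℝ ![v₁, v₂]) (z : ℂ) :
    ∃ x y : ℝ, z = (x : ℂ) * v₁ + (y : ℂ) * v₂ := by
  have h1 := hv.span_eq_top_of_card_eq_finrank' (by rw [Fintype.card_fin, Complex.finrank_real_complex])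
  have h2 : z ∈ Submodule.span ℝ (Set.range ![v₁, v₂]) := by rw [h1]; trivial
  rw [Matrix.range_cons, Matrix.range_cons, Matrix.range_empty, Set.union_empty, Set.singleton_union,
    Submodule.mem_span_pair] at h2
  obtain ⟨x, y, h⟩ := h2
  exact ⟨x, y, by rw [← h, Complex.real_smul, Complex.real_smul]⟩

theorem x07_per {v₁ v₂ : ℂ} {f : ℂ × ℝ → ℝ} (hp₁ : ∀ P ∈ H3, f (P.1 + v₁, P.2) = f P)
    (hp₂ : ∀ P ∈ H3, f (P.1 + v₂, P.2) = f P) {t : ℝ} (ht : 0 < t) (z : ℂ) (m n : ℤ) :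
    f (z + m • v₁ + n • v₂, t) = f (z, t) := by
  have h1 : Function.Periodic (fun z : ℂ => f (z, t)) v₁ := fun z => hp₁ (z, t) ht
  have h2 : Function.Periodic (fun z : ℂ => f (z, t)) v₂ := fun z => hp₂ (z, t) ht
  exact ((h2.zsmul n) (z + m • v₁)).trans ((h1.zsmul m) z)

theorem x07a {v₁ v₂ : ℂ} (hv : LinearIndependent ℝ ![v₁, v₂]) {f : ℂ × ℝ → ℝ} (hf : ContinuousOn f H3) {A t₀ : ℝ}
    (ht₀ : 0 < t₀) (hp₁ : ∀ P ∈ H3, f (P.1 + v₁, P.2) = f P) (hp₂ : ∀ P ∈ H3, f (P.1 + v₂, P.2) = f P)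
    (hd : ∀ ε : ℝ, 0 < ε → ∃ T : ℝ, ∀ P ∈ H3, T ≤ P.2 → f P ≤ A + ε) :
    ∃ M : ℝ, (∀ Q : ℂ × ℝ, t₀ ≤ Q.2 → f Q ≤ M) ∧ (M = A ∨ ∃ Q : ℂ × ℝ, t₀ ≤ Q.2 ∧ f Q = M) := by
  by_cases h : ∀ Q : ℂ × ℝ, t₀ ≤ Q.2 → f Q ≤ A
  · exact ⟨A, h, Or.inl rfl⟩
  push Not at h
  obtain ⟨Q₀, h0, h1⟩ := h
  obtain ⟨T, hT⟩ := hd ((f Q₀ - A) / 2) (by linarith)
  obtain ⟨K, hK⟩ : ∃ K : Set (ℂ × ℝ), K = (fun a : ℝ × ℝ × ℝ => (((a.1 : ℂ) * v₁ + (a.2.1 : ℂ) * v₂, a.2.2) : ℂ × ℝ)) ''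
    (Set.Icc (0 : ℝ) 1 ×ˢ (Set.Icc (0 : ℝ) 1 ×ˢ Set.Icc t₀ (max T t₀))) := ⟨_, rfl⟩
  have hKc : IsCompact K := by
    rw [hK]
    refine (isCompact_Icc.prod (isCompact_Icc.prod isCompact_Icc)).image ?_
    fun_prop
  have hKH : K ⊆ H3 := by
    rw [hK]
    rintro _ ⟨a, ha, rfl⟩
    exact lt_of_lt_of_le ht₀ ha.2.2.1
  have hKt : ∀ Q ∈ K, t₀ ≤ Q.2 := by
    rw [hK]
    rintro _ ⟨a, ha, rfl⟩
    exact ha.2.2.1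
  have key : ∀ Q : ℂ × ℝ, t₀ ≤ Q.2 → Q.2 ≤ max T t₀ → ∃ Q' ∈ K, f Q' = f Q := by
    intro Q hQ1 hQ2
    obtain ⟨x, y, hz⟩ := x07_basis hv Q.1
    refine ⟨(((Int.fract x : ℝ) : ℂ) * v₁ + ((Int.fract y : ℝ) : ℂ) * v₂, Q.2), ?_, ?_⟩
    · rw [hK]
      exact ⟨(Int.fract x, Int.fract y, Q.2), ⟨⟨Int.fract_nonneg x, (Int.fract_lt_one x).le⟩,
        ⟨Int.fract_nonneg y, (Int.fract_lt_one y).le⟩, hQ1, hQ2⟩, rfl⟩
    · have h2 := x07_per hp₁ hp₂ (lt_of_lt_of_le ht₀ hQ1)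
        (((Int.fract x : ℝ) : ℂ) * v₁ + ((Int.fract y : ℝ) : ℂ) * v₂) ⌊x⌋ ⌊y⌋
      rw [← h2]
      have h3 : ((Int.fract x : ℝ) : ℂ) * v₁ + ((Int.fract y : ℝ) : ℂ) * v₂ + ⌊x⌋ • v₁ + ⌊y⌋ • v₂ = Q.1 := by
        have e1 : (x : ℂ) = ((Int.fract x : ℝ) : ℂ) + (⌊x⌋ : ℂ) := by
          exact_mod_cast (Int.fract_add_floor x).symm
        have e2 : (y : ℂ) = ((Int.fract y : ℝ) : ℂ) + (⌊y⌋ : ℂ) := by
          exact_mod_cast (Int.fract_add_floor y).symm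
        rw [hz, e1, e2, zsmul_eq_mul, zsmul_eq_mul]
        ring
      rw [h3]
  have hQ₀T : Q₀.2 < T := by
    by_contra hc
    have := hT Q₀ (lt_of_lt_of_le ht₀ h0) (not_lt.1 hc)
    linarith
  obtain ⟨Q₀', hQ₀', he₀⟩ := key Q₀ h0 (le_trans hQ₀T.le (le_max_left _ _))
  obtain ⟨Q₁, hQ₁, hmax⟩ := hKc.exists_isMaxOn ⟨Q₀', hQ₀'⟩ (hf.mono hKH)
  have hm : f Q₀ ≤ f Q₁ := by
    rw [← he₀]
    exact hmax hQ₀'
  refine ⟨f Q₁, fun Q hQ => ?_, Or.inr ⟨Q₁, hKt Q₁ hQ₁, rfl⟩⟩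
  rcases le_or_gt Q.2 (max T t₀) with h2 | h2
  · obtain ⟨Q', hQ', he⟩ := key Q hQ h2
    rw [← he]
    exact hmax hQ'
  · have h3 := hT Q (lt_of_lt_of_le ht₀ hQ) (le_trans (le_max_left _ _) h2.le)
    linarith

theorem x07b {ι : Type} [Finite ι] {F : ℂ × ℝ → ℂ} (hF : Harm F) {s : ι → ℂ × ℝ → ℂ × ℝ}
    (hs : ∀ i, Set.MapsTo (s i) H3 H3) (hsc : ∀ i, ContinuousOn (s i) H3) {t₀ : ℝ} (ht₀ : 0 < t₀)
    (hcov : ∀ P ∈ H3, ∃ i, ∃ Q : ℂ × ℝ, t₀ ≤ Q.2 ∧ F P = F (s i Q)) {A : ι → ℂ} {S : ι → ℂ × ℝ → ℂ} {v₁ v₂ : ℂ}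
    (hv : LinearIndependent ℝ ![v₁, v₂]) (hS : ∀ i, Osc v₁ v₂ (S i)) (hFS : ∀ i, ∀ Q ∈ H3, F (s i Q) = A i + S i Q)
    (L : ℂ →L[ℝ] ℝ) : ∃ c : ℝ, ∀ P ∈ H3, L (F P) = c := by
  have hcF : ContinuousOn F H3 := fun P hP => (hF.1 P hP).continuousAt.continuousWithinAt
  have hval : ∀ i, ∀ Q ∈ H3, L (F (s i Q)) = L (A i) + L (S i Q) := by
    intro i Q hQ
    rw [hFS i Q hQ, map_add]
  have hM : ∀ i, ∃ M : ℝ, (∀ Q : ℂ × ℝ, t₀ ≤ Q.2 → L (F (s i Q)) ≤ M) ∧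
      (M = L (A i) ∨ ∃ Q : ℂ × ℝ, t₀ ≤ Q.2 ∧ L (F (s i Q)) = M) := by
    intro i
    refine x07a hv (f := fun Q => L (F (s i Q))) ?_ ht₀ ?_ ?_ ?_
    · exact L.continuous.comp_continuousOn (hcF.comp (hsc i) (hs i))
    · intro P hP
      have hP' : ((P.1 + v₁, P.2) : ℂ × ℝ) ∈ H3 := hP
      rw [hval i _ hP', hval i P hP, (x01p (hS i) hP).1]
    · intro P hP
      have hP' : ((P.1 + v₂, P.2) : ℂ × ℝ) ∈ H3 := hP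
      rw [hval i _ hP', hval i P hP, (x01p (hS i) hP).2]
    · intro ε hε
      have hL : 0 < ‖L‖ + 1 := by positivity
      obtain ⟨T, hT⟩ := x01d (hS i) (ε := ε / (‖L‖ + 1)) (by positivity)
      refine ⟨T, fun P hP hTP => ?_⟩
      rw [hval i P hP]
      have h1 : L (S i P) ≤ ε := by
        calc L (S i P) ≤ ‖L (S i P)‖ := le_trans (le_abs_self _) (le_of_eq (Real.norm_eq_abs _).symm)
          _ ≤ ‖L‖ * ‖S i P‖ := L.le_opNorm _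
          _ ≤ (‖L‖ + 1) * (ε / (‖L‖ + 1)) :=
              mul_le_mul (by linarith) (hT P hTP) (norm_nonneg _) hL.le
          _ = ε := mul_div_cancel₀ _ hL.ne'
      linarith
  choose M hM1 hM2 using hM
  have h01 : ((0, 1) : ℂ × ℝ) ∈ H3 := (one_pos : (0:ℝ) < 1)
  obtain ⟨i0, -⟩ := hcov (0, 1) h01
  have : Nonempty ι := ⟨i0⟩
  obtain ⟨i, hi⟩ := Finite.exists_max M
  have hub : ∀ P ∈ H3, L (F P) ≤ M i := by
    intro P hP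
    obtain ⟨j, Q, hQ, he⟩ := hcov P hP
    rw [he]
    exact le_trans (hM1 j Q hQ) (hi j)
  have hfin : ∀ Q ∈ H3, L (F (s i Q)) = M i → ∃ c : ℝ, ∀ P ∈ H3, L (F P) = c := by
    intro Q hQ he
    refine ⟨L (F (s i Q)), ?_⟩
    exact x06 (x03L hF L) (hs i hQ) (fun P hP => by
      rw [he]
      exact hub P hP)
  rcases hM2 i with h | ⟨Q, hQ, he⟩
  · obtain ⟨z, hz⟩ := x02 hv (hS i) one_pos L (fun z => by
      have hz1 : ((z, 1) : ℂ × ℝ) ∈ H3 := (one_pos : (0:ℝ) < 1)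
      have h1 := hub (s i (z, 1)) (hs i hz1)
      rw [hval i _ hz1, h] at h1
      linarith)
    have hz1 : ((z, 1) : ℂ × ℝ) ∈ H3 := (one_pos : (0:ℝ) < 1)
    refine hfin (z, 1) hz1 ?_
    rw [hval i _ hz1, hz, h, add_zero]
  · exact hfin Q (lt_of_lt_of_le ht₀ hQ) he

theorem x07 {ι : Type} [Finite ι] {F : ℂ × ℝ → ℂ} (hF : Harm F) {s : ι → ℂ × ℝ → ℂ × ℝ}
    (hs : ∀ i, Set.MapsTo (s i) H3 H3) (hsc : ∀ i, ContinuousOn (s i) H3) {t₀ : ℝ} (ht₀ : 0 < t₀)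
    (hcov : ∀ P ∈ H3, ∃ i, ∃ Q : ℂ × ℝ, t₀ ≤ Q.2 ∧ F P = F (s i Q)) {A : ι → ℂ} {S : ι → ℂ × ℝ → ℂ} {v₁ v₂ : ℂ}
    (hv : LinearIndependent ℝ ![v₁, v₂]) (hS : ∀ i, Osc v₁ v₂ (S i)) (hFS : ∀ i, ∀ Q ∈ H3, F (s i Q) = A i + S i Q) :
    ∃ c : ℂ, ∀ P ∈ H3, F P = c := by
  obtain ⟨c1, h1⟩ := x07b hF hs hsc ht₀ hcov hv hS hFS Complex.reCLM
  obtain ⟨c2, h2⟩ := x07b hF hs hsc ht₀ hcov hv hS hFS Complex.imCLM
  refine ⟨⟨c1, c2⟩, fun P hP => ?_⟩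
  exact Complex.ext (h1 P hP) (h2 P hP)

end Pool.Agent.H2S
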