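import Pool.Agent.Lib.H2S.A7
import Pool.Agent.Lib.H2S.A3
import Pool.Agent.Lib.H2S.A0
import Pool.Agent.Lib.H2S.B3
import Pool.Agent.Lib.H2S.X07

/-!
# A8: the homomorphism is not zero (module A, helper21)
-/

set_option autoImplicit false
namespace Pool.Agent.H2S
open Complex NumberField

variable {K L : Type} [Field K] [NumberField K] [Field L] [NumberField L] [Algebra K L]
  {F : Fld K L} {m : Ideal (𝓞 L)} {p : ℕ}

/-- CHUNK A8a (S).  PROOF. `m ≠ ⊥`, `differentIdeal (𝓞 K) (𝓞 L) ≠ ⊥` (`differentIdeal_ne_bot`), a product of nonzero ideals is not zero and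
`Ideal.relNorm_eq_bot_iff`. -/
theorem lev_ne_bot (Ψ : Psi F m p) : lev K m ≠ ⊥ := by
  unfold lev
  rw [Ne, Ideal.relNorm_eq_bot_iff]
  exact mul_ne_zero Ψ.mne (differentIdeal_ne_bot)

/-- CHUNK A8b (S/M).  PROOF. In the definition of `act` the denominator `D` is positive on `H3` (`b1_pos` in B1; the determinant is a unit, so its
image is not `0`), everything else is polynomial in `P` and its conjugate: `ContinuousOn` by `fun_prop` / `ContinuousOn.div`. -/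
theorem Fld.actO_cont (F : Fld K L) (g : GL (Fin 2) (𝓞 K)) :
    ContinuousOn (actO F.sK (g : Matrix (Fin 2) (Fin 2) (𝓞 K))) H3 := by
  rw [continuousOn_iff_continuous_domRestrict]
  exact b6_cont (b6_det F.sK (b6_gdet g))

/-- CHUNK A8c (M).  PROOF. `N := lev K m`, `ω` from `Fld.exists_om`.  Index type `ι := Quotient (QuotientGroup.rightRel (Gam0 N))`, finite by `Gam0_finiteIndex`
(`lev_ne_bot`); `s i := actO F.sK (Quotient.out i)`; `cusp_FF'` gives `A i, S i, D₀ i`; `D := ∏ i, D₀ i > 0`, `v₁ := D`, `v₂ := D * F.sK ω`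
(`Fld.lin_D`).  `MapsTo`: `actO_mem`; continuity: `Fld.actO_cont`.  `Fld.covering` gives `t₀`.  `hcov`: for `P ∈ H3` let `g` (determinant one) with
`t₀ ≤ (g P).2`, `h : GL` with matrix `g`, `Q := g P ∈ H3`, `i := class of h⁻¹`, so `h⁻¹ = γ * Quotient.out i` with `γ ∈ Gam0 N`
(`QuotientGroup.rightRel_apply`, `Quotient.mk_out`); `P = h⁻¹ Q = γ (s i Q)` (`actO_mul`, `actO` of `1` is the identity: `act_one`), and the hypothesis `h`
for `γ` gives `FF P = FF (s i Q)`.  `x07` with `Psi.FF_harm`: `FF` is constant on `H3`; contradiction to `FF_not_const`. -/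
theorem FF_inv_false (Ψ : Psi F m p) (δ : 𝓞 K) (hδ : δ ≠ 0) (hd : differentIdeal ℤ (𝓞 K) = Ideal.span {δ})
    (h : ∀ g : Gam0 (lev K m), ∀ P ∈ H3,
      Ψ.FF δ (actO F.sK ((g : GL (Fin 2) (𝓞 K)) : Matrix (Fin 2) (Fin 2) (𝓞 K)) P) = Ψ.FF δ P) : False := by
  obtain ⟨ω, hω⟩ := F.exists_om
  have hfi : (Gam0 (lev K m)).FiniteIndex := Gam0_finiteIndex (lev_ne_bot Ψ)
  have hfin : Finite (Quotient (QuotientGroup.rightRel (Gam0 (lev K m)))) := by
    have h1 : Finite (GL (Fin 2) (𝓞 K) ⧸ Gam0 (lev K m)) := Subgroup.finite_quotient_of_finiteIndex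
    exact Finite.of_equiv _ (QuotientGroup.quotientRightRelEquivQuotientLeftRel (Gam0 (lev K m))).symm
  have hc : ∀ i : Quotient (QuotientGroup.rightRel (Gam0 (lev K m))), ∃ (A : ℂ) (S : ℂ × ℝ → ℂ) (D₀ : ℕ), 0 < D₀ ∧
      (∀ D : ℕ, D₀ ∣ D → Osc (D : ℂ) ((D : ℂ) * F.sK (ω : K)) S) ∧
      ∀ P ∈ H3, Ψ.FF δ (actO F.sK ((Quotient.out i : GL (Fin 2) (𝓞 K)) : Matrix (Fin 2) (Fin 2) (𝓞 K)) P) = A + S P :=
    fun i => cusp_FF' Ψ δ hδ hd ω (Quotient.out i)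
  choose A S D₀ hD₀ hS hAS using hc
  have := Fintype.ofFinite (Quotient (QuotientGroup.rightRel (Gam0 (lev K m))))
  have hDpos : 0 < ∏ i, D₀ i := Finset.prod_pos fun i _ => hD₀ i
  obtain ⟨t₀, ht₀, hcov⟩ := F.covering
  have hcv : ∀ P ∈ H3, ∃ i : Quotient (QuotientGroup.rightRel (Gam0 (lev K m))), ∃ Q : ℂ × ℝ, t₀ ≤ Q.2 ∧
      Ψ.FF δ P = Ψ.FF δ (actO F.sK ((Quotient.out i : GL (Fin 2) (𝓞 K)) : Matrix (Fin 2) (Fin 2) (𝓞 K)) Q) := by
    intro P hP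
    obtain ⟨g, hg, ht⟩ := hcov P hP
    obtain ⟨u, hu⟩ := (Matrix.isUnit_iff_isUnit_det g).2 (by rw [hg]; exact isUnit_one)
    have hgd : g.det ≠ 0 := by rw [hg]; exact one_ne_zero
    have hQ : actO F.sK g P ∈ H3 := actO_mem F.sK hgd hP
    let i : Quotient (QuotientGroup.rightRel (Gam0 (lev K m))) := Quotient.mk _ (u⁻¹ : GL (Fin 2) (𝓞 K))
    have hrel : u⁻¹ * (Quotient.out i)⁻¹ ∈ Gam0 (lev K m) := by
      have h1 : QuotientGroup.rightRel (Gam0 (lev K m)) (Quotient.out i) (u⁻¹) := Quotient.mk_out _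
      exact QuotientGroup.rightRel_apply.1 h1
    refine ⟨i, actO F.sK g P, ht, ?_⟩
    have h1 := h ⟨u⁻¹ * (Quotient.out i)⁻¹, hrel⟩
      (actO F.sK ((Quotient.out i : GL (Fin 2) (𝓞 K)) : Matrix (Fin 2) (Fin 2) (𝓞 K)) (actO F.sK g P))
      (actO_mem F.sK (b6_gdet _) hQ)
    rw [← h1]
    congr 1
    show P = actO F.sK ((u⁻¹ * (Quotient.out i)⁻¹ : GL (Fin 2) (𝓞 K)) : Matrix (Fin 2) (Fin 2) (𝓞 K)) _
    rw [← actO_mul F.sK (b6_gdet _) (b6_gdet _) hQ, ← Matrix.GeneralLinearGroup.coe_mul, inv_mul_cancel_right]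
    have h2 : actO F.sK g P = actO F.sK (u : Matrix (Fin 2) (Fin 2) (𝓞 K)) P := by rw [hu]
    rw [h2, ← actO_mul F.sK (b6_gdet _) (b6_gdet _) hP, ← Matrix.GeneralLinearGroup.coe_mul, inv_mul_cancel]
    have h3 : (((1 : GL (Fin 2) (𝓞 K)) : Matrix (Fin 2) (Fin 2) (𝓞 K)).map fun a => F.sK (a : K)) = 1 := by
      ext i j
      fin_cases i <;> fin_cases j <;> simp
    unfold actO
    rw [h3, act_one]
  obtain ⟨c, hcst⟩ := x07 (F := Ψ.FF δ) (Ψ.FF_harm δ hδ)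
    (s := fun i : Quotient (QuotientGroup.rightRel (Gam0 (lev K m))) =>
      actO F.sK ((Quotient.out i : GL (Fin 2) (𝓞 K)) : Matrix (Fin 2) (Fin 2) (𝓞 K)))
    (fun i P hP => actO_mem F.sK (b6_gdet _) hP) (fun i => F.actO_cont _) ht₀ hcv
    (F.lin_D hω hDpos) (A := A) (S := S) (fun i => hS i _ (Finset.dvd_prod_of_mem D₀ (Finset.mem_univ i)))
    (fun i P hP => hAS i P hP)
  obtain ⟨P, hP, hne⟩ := FF_not_const Ψ δ hδ hd c
  exact hne (hcst P hP)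

end Pool.Agent.H2S
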