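import Pool.Agent.Lib.H2S.N0

/-!
# H2S: Hecke characters, Hecke operators, the function `FF` (definitions)
-/

set_option autoImplicit false
namespace Pool.Agent.H2S
open Complex NumberField

section
variable {K L : Type*} [Field K] [NumberField K] [Field L] [NumberField L] [Algebra K L]

/-- The ideal of `𝓞 L` generated by an element of `𝓞 K`. -/
def up (L : Type*) {K : Type*} [Field K] [NumberField K] [Field L] [NumberField L] [Algebra K L] (a : 𝓞 K) :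
    Ideal (𝓞 L) := Ideal.span {algebraMap (𝓞 K) (𝓞 L) a}

open Classical in
/-- `1` if the prime `π` splits in `L`, `-1` if it is inert (`π` unramified in `L`). -/
noncomputable def sg (L : Type*) {K : Type*} [Field K] [NumberField K] [Field L] [NumberField L] [Algebra K L]
    (π : 𝓞 K) : ℂ := if (up L π).IsPrime then -1 else 1

/-- `π` is a prime element not dividing `p` and the level. -/
structure GoodPrime (m : Ideal (𝓞 L)) (p : ℕ) (π : 𝓞 K) : Prop where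
  prime : Prime π
  p : ¬ π ∣ (p : 𝓞 K)
  lev : ¬ lev K m ≤ Ideal.span {π}

/-- The Hecke character of `L`. -/
structure Psi (F : Fld K L) (m : Ideal (𝓞 L)) (p : ℕ) extends Chr F m where
  mne : m ≠ ⊥
  pprime : p.Prime
  p3 : 3 < p
  ψ : Ideal (𝓞 L) →*₀ ℂ
  int : ∀ a, IsIntegral ℤ (ψ a)
  ne : ∀ a, a ≠ ⊥ → (ψ a ≠ 0 ↔ IsCoprime a m)
  prin : ∀ x : 𝓞 L, ψ (Ideal.span {x}) = ε x * F.s ((x : L) * F.cc (F.τ (x : L)))
  good : ∀ π : 𝓞 K, GoodPrime m p π → ε (algebraMap (𝓞 K) (𝓞 L) π) = sg L π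

/-- The coefficients: `A n = ∑ ψ a`, over the ideals `a` of relative norm `n`. -/
noncomputable def Psi.A {F : Fld K L} {m : Ideal (𝓞 L)} {p : ℕ} (Ψ : Psi F m p) (n : Ideal (𝓞 K)) : ℂ :=
  ∑ᶠ a ∈ {a : Ideal (𝓞 L) | Ideal.relNorm (𝓞 K) a = n}, Ψ.ψ a

/-- `kap(|β/δ|, t) e(Tr (β z / δ))`. -/
noncomputable def Fld.w (F : Fld K L) (δ β : 𝓞 K) (P : ℂ × ℝ) : ℂ :=
  (kap ‖F.sK ((β : K) / (δ : K))‖ P.2 : ℝ) * eT (P.1 * F.sK ((β : K) / (δ : K)))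

open Classical in
/-- The function `F` of PROOF.md, section J. -/
noncomputable def Psi.FF {F : Fld K L} {m : Ideal (𝓞 L)} {p : ℕ} (Ψ : Psi F m p) (δ : 𝓞 K) (P : ℂ × ℝ) : ℂ :=
  ∑' β : 𝓞 K, if β = 0 then 0 else Ψ.A (Ideal.span {β}) * F.w δ β P

end

section
variable {K : Type*} [Field K] [NumberField K]

/-- `Γ₀(N)` in `GL₂ (𝓞 K)`. -/
def Gam0 (N : Ideal (𝓞 K)) : Subgroup (GL (Fin 2) (𝓞 K)) where
  carrier := {g | (g : Matrix (Fin 2) (Fin 2) (𝓞 K)) 1 0 ∈ N}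
  one_mem' := by
    change (1 : Matrix (Fin 2) (Fin 2) (𝓞 K)) 1 0 ∈ N
    simp
  mul_mem' := by
    intro g h hg hh
    change ((g : Matrix (Fin 2) (Fin 2) (𝓞 K)) * (h : Matrix (Fin 2) (Fin 2) (𝓞 K))) 1 0 ∈ N
    rw [Matrix.mul_apply, Fin.sum_univ_two]
    exact N.add_mem (N.mul_mem_right _ hg) (N.mul_mem_left _ hh)
  inv_mem' := by
    intro g hg
    change ((g⁻¹ : GL (Fin 2) (𝓞 K)) : Matrix (Fin 2) (Fin 2) (𝓞 K)) 1 0 ∈ N
    rw [Matrix.coe_units_inv, Matrix.inv_def, Matrix.adjugate_fin_two]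
    simp only [Matrix.smul_apply, Matrix.of_apply, Matrix.cons_val', Matrix.cons_val_one, Matrix.cons_val_zero,
      smul_eq_mul]
    exact N.mul_mem_left _ (N.neg_mem hg)

/-- The double coset `Γ₀(N) diag(π, 1) Γ₀(N)`. -/
def DC (N : Ideal (𝓞 K)) (π : 𝓞 K) : Set (Matrix (Fin 2) (Fin 2) (𝓞 K)) :=
  {x | ∃ g ∈ Gam0 N, ∃ h ∈ Gam0 N,
    x = (g : Matrix (Fin 2) (Fin 2) (𝓞 K)) * !![π, 0; 0, 1] * (h : Matrix (Fin 2) (Fin 2) (𝓞 K))}

/-- `T_π c = a c`: for a complete system of representatives `δ i` of `Γ₀(N) \ Γ₀(N) diag(π, 1) Γ₀(N)` and every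
`γ ∈ Γ₀(N)` one has `δ i γ = g i δ (t i)` with `g i ∈ Γ₀(N)`, and `∑ c (g i) = a c γ`. -/
def Eigen {k : Type*} [Ring k] (N : Ideal (𝓞 K)) (π : 𝓞 K) (c : Gam0 N → k) (a : k) : Prop :=
  ∃ (r : ℕ) (δ : Fin r → Matrix (Fin 2) (Fin 2) (𝓞 K)), (∀ i, δ i ∈ DC N π) ∧
    (∀ x ∈ DC N π, ∃! i, ∃ g ∈ Gam0 N, x = (g : Matrix (Fin 2) (Fin 2) (𝓞 K)) * δ i) ∧
    ∀ γ : Gam0 N, ∃ (t : Fin r → Fin r) (g : Fin r → Gam0 N),
      (∀ i, δ i * ((γ : GL (Fin 2) (𝓞 K)) : Matrix (Fin 2) (Fin 2) (𝓞 K)) =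
        ((g i : GL (Fin 2) (𝓞 K)) : Matrix (Fin 2) (Fin 2) (𝓞 K)) * δ (t i)) ∧
      ∑ i, c (g i) = a * c γ

/-- The action of `GL₂ (𝓞 K)` on the upper half-space (through an embedding of `K`). -/
noncomputable def actO (σ : K →+* ℂ) (g : Matrix (Fin 2) (Fin 2) (𝓞 K)) (P : ℂ × ℝ) : ℂ × ℝ :=
  act (g.map fun a => σ (a : K)) P

end

end Pool.Agent.H2S
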