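import Pool.Agent.Lib.H2S.N1
import Pool.Agent.Lib.H2S.J0

/-!
# N5: the automorphism `τ` and ideals
-/

set_option autoImplicit false
namespace Pool.Agent.H2S
open Complex NumberField

variable {K L : Type*} [Field K] [NumberField K] [Field L] [NumberField L] [Algebra K L]

/-- `τ` on the ring of integers. -/
noncomputable def Fld.τO (F : Fld K L) : 𝓞 L ≃+* 𝓞 L := RingOfIntegers.mapRingEquiv (F.τ : L ≃+* L)

theorem Fld.coe_τO (F : Fld K L) (x : 𝓞 L) : ((F.τO x : 𝓞 L) : L) = F.τ (x : L) := rfl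

theorem Fld.τO_τO (F : Fld K L) (x : 𝓞 L) : F.τO (F.τO x) = x := by
  exact RingOfIntegers.ext (F.ττ (x : L))

/-- The ideal `τ I`. -/
noncomputable def Fld.tI (F : Fld K L) (I : Ideal (𝓞 L)) : Ideal (𝓞 L) := I.map F.τO

theorem Fld.mem_tI (F : Fld K L) (I : Ideal (𝓞 L)) (x : 𝓞 L) : x ∈ F.tI I ↔ F.τO x ∈ I := by
  refine (Ideal.mem_map_of_equiv F.τO x).trans ⟨?_, fun h => ⟨F.τO x, h, F.τO_τO x⟩⟩
  rintro ⟨y, hy, rfl⟩
  rw [F.τO_τO]
  exact hy

theorem Fld.tI_mul (F : Fld K L) (I J : Ideal (𝓞 L)) : F.tI (I * J) = F.tI I * F.tI J := by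
  exact Ideal.map_mul _ I J

theorem Fld.tI_tI (F : Fld K L) (I : Ideal (𝓞 L)) : F.tI (F.tI I) = I := by
  ext x
  rw [F.mem_tI, F.mem_tI, F.τO_τO]

/-- Roots are unique in the monoid of ideals. -/
theorem n5_pow {X Y : Ideal (𝓞 L)} {h : ℕ} (hh : h ≠ 0) (e : X ^ h = Y ^ h) : X = Y := by
  have h1 : X ∣ Y := (UniqueFactorizationMonoid.pow_dvd_pow_iff_dvd hh).1 (dvd_of_eq e)
  have h2 : Y ∣ X := (UniqueFactorizationMonoid.pow_dvd_pow_iff_dvd hh).1 (dvd_of_eq e.symm)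
  exact dvd_antisymm h1 h2

/-- The case of a principal ideal. -/
theorem Fld.n5_prin (F : Fld K L) (x : 𝓞 L) :
    Ideal.span {x} * F.tI (Ideal.span {x}) = (Ideal.relNorm (𝓞 K) (Ideal.span {x})).map (algebraMap (𝓞 K) (𝓞 L)) := by
  have e1 : F.tI (Ideal.span {x}) = Ideal.span {F.τO x} := by
    unfold Fld.tI
    rw [Ideal.map_span, Set.image_singleton]
  have e2 : algebraMap (𝓞 K) (𝓞 L) (Algebra.intNorm (𝓞 K) (𝓞 L) x) = x * F.τO x := by
    apply RingOfIntegers.ext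
    have h1 : ((algebraMap (𝓞 K) (𝓞 L) (Algebra.intNorm (𝓞 K) (𝓞 L) x) : 𝓞 L) : L) =
        algebraMap K L (algebraMap (𝓞 K) K (Algebra.intNorm (𝓞 K) (𝓞 L) x)) := rfl
    rw [h1, Algebra.algebraMap_intNorm (K := K) (L := L), F.norm_eq]
    rfl
  rw [e1, Ideal.span_singleton_mul_span_singleton, Ideal.relNorm_singleton, Ideal.map_span, Set.image_singleton, e2]

/-- The trace is invariant. -/
theorem Fld.n5_tr (F : Fld K L) (z : L) : Algebra.trace K L (F.τ z) = Algebra.trace K L z := by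
  apply (algebraMap K L).injective
  rw [F.trace_eq, F.trace_eq, F.ττ, add_comm]

/-- Elements of the different. -/
theorem n5_mem (x : 𝓞 L) : x ∈ differentIdeal (𝓞 K) (𝓞 L) ↔
    ∀ y : L, (∀ a : 𝓞 L, ∃ b : 𝓞 K, (b : K) = Algebra.trace K L (y * (a : L))) → ∃ z : 𝓞 L, (z : L) = (x : L) * y := by
  have h1 : x ∈ differentIdeal (𝓞 K) (𝓞 L) ↔ (x : L) ∈ IsLocalization.coeSubmodule L (differentIdeal (𝓞 K) (𝓞 L)) := by
    rw [IsLocalization.mem_coeSubmodule]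
    constructor
    · intro h
      exact ⟨x, h, rfl⟩
    · rintro ⟨y, hy, hyx⟩
      have h2 : y = x := RingOfIntegers.ext hyx
      rw [← h2]
      exact hy
  rw [h1, coeSubmodule_differentIdeal (𝓞 K) K, Submodule.mem_div_iff_forall_mul_mem]
  have h3 : ∀ y : L, y ∈ Submodule.traceDual (𝓞 K) K (1 : Submodule (𝓞 L) L) ↔
      ∀ a : 𝓞 L, ∃ b : 𝓞 K, (b : K) = Algebra.trace K L (y * (a : L)) := by
    intro y
    rw [Submodule.mem_traceDual]
    constructor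
    · intro h a
      obtain ⟨b, hb⟩ := h (a : L) (Submodule.mem_one.2 ⟨a, rfl⟩)
      exact ⟨b, hb⟩
    · intro h a ha
      obtain ⟨a', rfl⟩ := Submodule.mem_one.1 ha
      obtain ⟨b, hb⟩ := h a'
      exact ⟨b, hb⟩
  constructor
  · intro h y hy
    obtain ⟨z, hz⟩ := Submodule.mem_one.1 (h y ((h3 y).2 hy))
    exact ⟨z, hz⟩
  · intro h y hy
    obtain ⟨z, hz⟩ := h y ((h3 y).1 hy)
    exact Submodule.mem_one.2 ⟨z, hz⟩

/-- The different is stable. -/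
theorem Fld.n5_diff (F : Fld K L) {x : 𝓞 L} (h : x ∈ differentIdeal (𝓞 K) (𝓞 L)) :
    F.τO x ∈ differentIdeal (𝓞 K) (𝓞 L) := by
  rw [n5_mem] at h ⊢
  intro y hy
  obtain ⟨z, hz⟩ := h (F.τ y) (fun a => by
    obtain ⟨b, hb⟩ := hy (F.τO a)
    refine ⟨b, ?_⟩
    rw [hb, ← F.n5_tr, map_mul, F.coe_τO, F.ττ])
  refine ⟨F.τO z, ?_⟩
  rw [F.coe_τO, hz, map_mul, F.ττ, F.coe_τO]

/-- PROOF. For principal `I = (x)`: both sides are generated by `x τ x = N(x)` (`Fld.norm_eq`, `Ideal.relNorm_singleton`, `Algebra.intNorm` is the norm).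
In general some power `I ^ h`, `h > 0`, is principal (finite class group), both sides are multiplicative (`relNorm` is a monoid homomorphism,
`Ideal.map_mul`), and `X ^ h = Y ^ h` implies `X = Y` for ideals of a Dedekind domain. -/
theorem Fld.mul_tI (F : Fld K L) (I : Ideal (𝓞 L)) :
    I * F.tI I = (Ideal.relNorm (𝓞 K) I).map (algebraMap (𝓞 K) (𝓞 L)) := by
  by_cases hI : I = ⊥
  · subst hI
    rw [Ideal.bot_mul, Ideal.relNorm_bot, Ideal.map_bot]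
  have hI0 : I ∈ nonZeroDivisors (Ideal (𝓞 L)) := mem_nonZeroDivisors_of_ne_zero hI
  obtain ⟨h, hh, hp⟩ : ∃ h : ℕ, h ≠ 0 ∧ (I ^ h).IsPrincipal := by
    refine ⟨Fintype.card (ClassGroup (𝓞 L)), Fintype.card_ne_zero, ?_⟩
    have h1 := pow_card_eq_one (x := ClassGroup.mk0 (⟨I, hI0⟩ : nonZeroDivisors (Ideal (𝓞 L))))
    rw [← map_pow] at h1
    exact (ClassGroup.mk0_eq_one_iff (pow_mem hI0 _)).1 h1
  obtain ⟨x, hx⟩ := hp
  have hx' : I ^ h = Ideal.span {x} := hx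
  have key : (I * F.tI I) ^ h = ((Ideal.relNorm (𝓞 K) I).map (algebraMap (𝓞 K) (𝓞 L))) ^ h := by
    have e1 : F.tI I ^ h = F.tI (I ^ h) := (Ideal.map_pow _ I h).symm
    rw [mul_pow, e1, ← Ideal.map_pow, ← map_pow, hx', F.n5_prin]
  exact n5_pow hh key

/-- PROOF. The trace dual of `𝓞 L` over `𝓞 K` is stable under `τ`, because the trace is (`Fld.trace_eq`, `coeIdeal_differentIdeal`). -/
theorem Fld.tI_diff (F : Fld K L) : F.tI (differentIdeal (𝓞 K) (𝓞 L)) = differentIdeal (𝓞 K) (𝓞 L) := by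
  ext x
  rw [F.mem_tI]
  exact ⟨fun h => by have h1 := F.n5_diff h; rwa [F.τO_τO] at h1, fun h => F.n5_diff h⟩

/-- PROOF. `lev K m = relNorm (m D)`, `mul_tI` for `m D` and `tI_diff`: `m D τ(m) D` divides `(c)`. -/
theorem Fld.exists_J (F : Fld K L) {m : Ideal (𝓞 L)} {c : 𝓞 K} (hc : c ∈ lev K m) :
    ∃ J : Ideal (𝓞 L), up L c = m * F.tI m * differentIdeal (𝓞 K) (𝓞 L) * differentIdeal (𝓞 K) (𝓞 L) * J := by
  have h1 : up L c ≤ (Ideal.relNorm (𝓞 K) (m * differentIdeal (𝓞 K) (𝓞 L))).map (algebraMap (𝓞 K) (𝓞 L)) := by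
    unfold up
    rw [Ideal.span_singleton_le_iff_mem]
    exact Ideal.mem_map_of_mem _ hc
  rw [← F.mul_tI, F.tI_mul, F.tI_diff] at h1
  obtain ⟨J, hJ⟩ := Ideal.dvd_iff_le.2 h1
  exact ⟨J, by rw [hJ]; ring⟩

end Pool.Agent.H2S
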