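import Pool.Agent.Lib.H2S.K0
import Pool.Agent.Lib.H2S.N4
import Pool.Agent.Lib.H2S.N5

/-!
# A9: reduction of the coefficients (module A, helper21)
-/

set_option autoImplicit false
namespace Pool.Agent.H2S
open Complex NumberField

variable {K L : Type*} [Field K] [NumberField K] [Field L] [NumberField L] [Algebra K L]
  {F : Fld K L} {m : Ideal (𝓞 L)} {p : ℕ}

/-- CHUNK A9a (S).  PROOF. A `finsum` of integral elements is integral (`finsum_mem_induction` or: `finsum_mem` is `0` or a finite sum; `IsIntegral.sum`). -/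
theorem Psi.A_int (Ψ : Psi F m p) (n : Ideal (𝓞 K)) : IsIntegral ℤ (Ψ.A n) := by
  unfold Psi.A
  exact finsum_mem_induction (fun z => IsIntegral ℤ z) isIntegral_zero (fun _ _ hx hy => hx.add hy) fun a _ => Ψ.int a

/-- CHUNK A9b (S/M).  PROOF. `Ideal.absNorm (Ideal.relNorm (𝓞 K) a) = Ideal.absNorm a` (search `absNorm_relNorm`), and there are finitely many ideals of
given nonzero absolute norm (`Ideal.finite_setOf_absNorm_eq`). -/
theorem finite_relNorm {n : Ideal (𝓞 K)} (hn : n ≠ ⊥) :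
    {a : Ideal (𝓞 L) | Ideal.relNorm (𝓞 K) a = n}.Finite := by
  refine (Ideal.finite_setOfPred_absNorm_eq (S := 𝓞 L) (Ideal.absNorm n)).subset fun a ha => ?_
  have ha' : Ideal.relNorm (𝓞 K) a = n := ha
  have h1 := Ideal.absNorm_relNorm (R := 𝓞 K) (S := 𝓞 L) a
  rw [ha'] at h1
  exact h1.symm

/-- CHUNK A9c (S/M).  PROOF. `Fld.mul_tI`: `a * τ a = (π) 𝓞 L`, so `π ∈ a`.  `𝓞 K` is a principal ideal ring (`F.pid`), `π` is prime and does not divide
`p`, so `x π + y p = 1` (`Irreducible.coprime_or_dvd` / `Prime.coprime_iff_not_dvd`); apply `algebraMap`: `1 ∈ a ⊔ (p)`. -/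
theorem coprime_of_relNorm (Ψ : Psi F m p) {π : 𝓞 K} (hπ : GoodPrime m p π) {a : Ideal (𝓞 L)}
    (ha : Ideal.relNorm (𝓞 K) a = Ideal.span {π}) : IsCoprime a (Ideal.span {(p : 𝓞 L)}) := by
  have h1 := F.mul_tI a
  rw [ha, Ideal.map_span, Set.image_singleton] at h1
  have h2 : algebraMap (𝓞 K) (𝓞 L) π ∈ a := by
    have h3 : algebraMap (𝓞 K) (𝓞 L) π ∈ a * F.tI a := by
      rw [h1]
      exact Ideal.mem_span_singleton_self _
    have h6 : a * F.tI a ≤ a := Ideal.mul_le_left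
    exact h6 h3
  have := F.pid
  have h4 : IsCoprime π (p : 𝓞 K) := (hπ.prime.irreducible.coprime_iff_not_dvd).2 hπ.p
  obtain ⟨x, y, hxy⟩ := h4
  rw [Ideal.isCoprime_iff_exists]
  refine ⟨algebraMap (𝓞 K) (𝓞 L) x * algebraMap (𝓞 K) (𝓞 L) π, a.mul_mem_left _ h2,
    algebraMap (𝓞 K) (𝓞 L) y * (p : 𝓞 L), Ideal.mul_mem_left _ _ (Ideal.mem_span_singleton_self _), ?_⟩
  have h5 := congrArg (algebraMap (𝓞 K) (𝓞 L)) hxy
  rw [map_add, map_mul, map_mul, map_natCast, map_one] at h5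
  exact h5

/-- CHUNK A9d (S/M).  PROOF. The set is finite (`finite_relNorm`), so both `finsum`s are finite sums (`finsum_mem_eq_finite_toFinset_sum`); `R` is additive:
`⟨∑ .., _⟩ = ∑ ⟨Ψ.ψ a, Ψ.int a⟩` in `Oc`; every `a` in the set is nonzero (`relNorm ⊥ = ⊥`) and prime to `p` (`coprime_of_relNorm`), `hR`. -/
theorem A_red {k : Type*} [Field k] (Ψ : Psi F m p) (χ : Ideal (𝓞 L) →*₀ k) (R : Oc →+* k)
    (hR : ∀ (a : Ideal (𝓞 L)) (z : Oc), a ≠ ⊥ → IsCoprime a (Ideal.span {(p : 𝓞 L)}) → (z : ℂ) = Ψ.ψ a → R z = χ a)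
    (π : 𝓞 K) (hπ : GoodPrime m p π) :
    R ⟨Ψ.A (Ideal.span {π}), Ψ.A_int _⟩ =
      ∑ᶠ a ∈ {a : Ideal (𝓞 L) | Ideal.relNorm (𝓞 K) a = Ideal.span {π}}, χ a := by
  have hne : Ideal.span {π} ≠ (⊥ : Ideal (𝓞 K)) := by
    rw [Ne, Ideal.span_singleton_eq_bot]
    exact hπ.prime.ne_zero
  have hf := finite_relNorm (K := K) (L := L) hne
  rw [finsum_mem_eq_finite_toFinset_sum _ hf]
  have e : (⟨Ψ.A (Ideal.span {π}), Ψ.A_int _⟩ : Oc) = ∑ a ∈ hf.toFinset, (⟨Ψ.ψ a, Ψ.int a⟩ : Oc) := by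
    apply Subtype.ext
    rw [AddSubmonoidClass.coe_finsetSum]
    show Ψ.A (Ideal.span {π}) = _
    unfold Psi.A
    rw [finsum_mem_eq_finite_toFinset_sum _ hf]
  rw [e, map_sum]
  refine Finset.sum_congr rfl fun a ha => ?_
  have ha' : Ideal.relNorm (𝓞 K) a = Ideal.span {π} := (hf.mem_toFinset).1 ha
  refine hR a _ ?_ (coprime_of_relNorm Ψ hπ ha') rfl
  rintro rfl
  rw [Ideal.relNorm_bot] at ha'
  exact hne ha'.symm

end Pool.Agent.H2S
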