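import Pool.Agent.Lib.H2S.K3

/-!
# K5: the character modulo `m` with values in `k`
-/

set_option autoImplicit false
namespace Pool.Agent.H2S
open Complex NumberField

variable {K L : Type*} [Field K] [NumberField K] [Field L] [NumberField L] [Algebra K L]
  {F : Fld K L} {m : Ideal (𝓞 L)} {p : ℕ} {k : Type*} [Field k]

theorem k5_coe_mul (a b : 𝓞 L) : ((a * b : 𝓞 L) : L) = (a : L) * (b : L) := map_mul (algebraMap (𝓞 L) L) a b

theorem k5_coe_one : ((1 : 𝓞 L) : L) = 1 := map_one (algebraMap (𝓞 L) L)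

theorem Fld.nc_mul (F : Fld K L) (x y : 𝓞 L) : F.nc (x * y) = F.nc x * F.nc y := by
  apply RingOfIntegers.ext
  rw [F.coe_nc, k5_coe_mul, k5_coe_mul, F.coe_nc, F.coe_nc, map_mul, map_mul]
  ring

theorem Fld.nc_one (F : Fld K L) : F.nc 1 = 1 := by
  apply RingOfIntegers.ext
  rw [F.coe_nc, k5_coe_one, map_one, map_one, mul_one]

/-- The automorphism `cc ∘ τ` of the ring of integers. -/
noncomputable def Fld.k5_sig (F : Fld K L) : 𝓞 L →+* 𝓞 L :=
  RingOfIntegers.mapRingHom ((F.cc : L →+* L).comp (F.τ : L →+* L))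

theorem Fld.k5_nc (F : Fld K L) (x : 𝓞 L) : F.nc x = x * F.k5_sig x := by
  apply RingOfIntegers.ext
  rw [F.coe_nc, k5_coe_mul]
  rfl

/-- PROOF. If `(x)` is prime to `(p)` then so is `(nc x)`: `1 = a x + b p` gives `1 = cc τ a * cc τ x + cc τ b * p`.  `r p = 0`. -/
theorem ModChi.r_nc_ne (X : ModChi F m p k) {x : 𝓞 L} (hx : IsCoprime (Ideal.span {x}) (Ideal.span {(p : 𝓞 L)})) :
    X.r (F.nc x) ≠ 0 := by
  have := X.char
  rw [Ideal.isCoprime_span_singleton_iff] at hx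
  obtain ⟨a, b, hab⟩ := hx
  have hp : X.r (p : 𝓞 L) = 0 := by
    rw [map_natCast]
    exact CharP.cast_eq_zero k p
  have h1 : X.r a * X.r x = 1 := by
    rw [← map_mul, ← map_one X.r, ← hab, map_add, map_mul X.r b, hp, mul_zero, add_zero]
  have h2 : X.r (F.k5_sig a) * X.r (F.k5_sig x) = 1 := by
    have h3 := congrArg (fun z => X.r (F.k5_sig z)) hab
    simp only [map_add, map_mul, map_natCast, map_one] at h3
    rw [← map_natCast X.r, hp, mul_zero, add_zero] at h3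
    exact h3
  rw [F.k5_nc, map_mul]
  exact mul_ne_zero (right_ne_zero_of_mul_eq_one h1) (right_ne_zero_of_mul_eq_one h2)

/-- The quotient `χ (x) / r (nc x)`. -/
noncomputable def ModChi.k5_e0 (X : ModChi F m p k) (x : 𝓞 L) : k := X.χ (Ideal.span {x}) / X.r (F.nc x)

theorem ModChi.k5_e0_mul (X : ModChi F m p k) (x y : 𝓞 L) : X.k5_e0 (x * y) = X.k5_e0 x * X.k5_e0 y := by
  rw [ModChi.k5_e0, ModChi.k5_e0, ModChi.k5_e0, ← Ideal.span_singleton_mul_span_singleton, map_mul, F.nc_mul, map_mul,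
    mul_div_mul_comm]

theorem ModChi.k5_e0_one (X : ModChi F m p k) {x : 𝓞 L} (h : x - 1 ∈ m)
    (hx : IsCoprime (Ideal.span {x}) (Ideal.span {(p : 𝓞 L)})) : X.k5_e0 x = 1 := by
  rw [ModChi.k5_e0, X.h1 x h hx, div_self (X.r_nc_ne hx)]

theorem k5_span_mul {I : Ideal (𝓞 L)} {x y : 𝓞 L} :
    IsCoprime (Ideal.span {x * y}) I ↔ IsCoprime (Ideal.span {x}) I ∧ IsCoprime (Ideal.span {y}) I := by
  rw [← Ideal.span_singleton_mul_span_singleton, IsCoprime.mul_left_iff]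

theorem k5_one {I : Ideal (𝓞 L)} : IsCoprime (Ideal.span {(1 : 𝓞 L)}) I := by
  rw [Ideal.span_singleton_one, ← Ideal.one_eq_top]
  exact isCoprime_one_left

theorem k5_of_one {I : Ideal (𝓞 L)} {x : 𝓞 L} (h : x - 1 ∈ I) : IsCoprime (Ideal.span {x}) I :=
  coprime_congr h k5_one

theorem ModChi.k5_congr (X : ModChi F m p k) {x x' : 𝓞 L} (h : x' - x ∈ m)
    (hx : IsCoprime (Ideal.span {x}) (m * Ideal.span {(p : 𝓞 L)}))
    (hx' : IsCoprime (Ideal.span {x'}) (m * Ideal.span {(p : 𝓞 L)})) : X.k5_e0 x' = X.k5_e0 x := by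
  rw [IsCoprime.mul_right_iff] at hx hx'
  obtain ⟨y, hy1, hy2⟩ := exists_inv X.mp hx.1
  have h1 : X.k5_e0 (y * x) = 1 := X.k5_e0_one hy1 (k5_span_mul.2 ⟨k5_of_one hy2, hx.2⟩)
  have h2 : X.k5_e0 (y * x') = 1 := by
    refine X.k5_e0_one ?_ (k5_span_mul.2 ⟨k5_of_one hy2, hx'.2⟩)
    have h3 : y * x' - 1 = (y * x - 1) + y * (x' - x) := by ring
    rw [h3]
    exact m.add_mem hy1 (m.mul_mem_left _ h)
  rw [X.k5_e0_mul] at h1 h2
  have h3 : X.k5_e0 y ≠ 0 := left_ne_zero_of_mul_eq_one h1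
  exact mul_left_cancel₀ h3 (h2.trans h1.symm)

/-- PROOF. For `x` prime to `m p` put `e₀ x = χ (x) / r (nc x)` (multiplicative, not zero).  If `x - x' ∈ m` (both prime to `m p`) then
`e₀ x = e₀ x'`: choose `y` with `y x - 1 ∈ m`, `y - 1 ∈ (p)` (`exists_inv`); then `y` is prime to `m p`, `y x - 1 ∈ m`, `y x' - 1 ∈ m`, and `h1` gives
`e₀ (y x) = 1 = e₀ (y x')`.  For `x` prime to `m` put `e x = e₀ x'` for any `x'` with `x' - x ∈ m`, `x' - 1 ∈ (p)` (`exists_congr` with `X.mp`), and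
`e x = 0` for `x` not prime to `m`.  Finite order: `(𝓞 L / m)ˣ` is finite, so `x ^ n - 1 ∈ m` for some `n > 0`, and `e (x ^ n) = e 1 = 1`. -/
theorem ModChi.exists_e (X : ModChi F m p k) : ∃ e : 𝓞 L → k, e 1 = 1 ∧ (∀ x y, e (x * y) = e x * e y) ∧
    (∀ x y, x - y ∈ m → e x = e y) ∧ (∀ x, ¬ IsCoprime (Ideal.span {x}) m → e x = 0) ∧
    (∀ x, IsCoprime (Ideal.span {x}) m → ∃ n : ℕ, 0 < n ∧ e x ^ n = 1) ∧
    (∀ x, IsCoprime (Ideal.span {x}) (m * Ideal.span {(p : 𝓞 L)}) → X.χ (Ideal.span {x}) = e x * X.r (F.nc x)) := by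
  classical
  choose l hl1 hl2 using fun x : 𝓞 L => exists_congr X.mp x
  have hlc : ∀ x, IsCoprime (Ideal.span {x}) m → IsCoprime (Ideal.span {l x}) (m * Ideal.span {(p : 𝓞 L)}) :=
    fun x hx => IsCoprime.mul_right_iff.2 ⟨coprime_congr (hl1 x) hx, k5_of_one (hl2 x)⟩
  let e : 𝓞 L → k := fun x => if IsCoprime (Ideal.span {x}) m then X.k5_e0 (l x) else 0
  have he0 : ∀ x, ¬ IsCoprime (Ideal.span {x}) m → e x = 0 := fun x hx => if_neg hx
  have hkey : ∀ x y, IsCoprime (Ideal.span {x}) m → IsCoprime (Ideal.span {y}) (m * Ideal.span {(p : 𝓞 L)}) →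
      y - x ∈ m → e x = X.k5_e0 y := by
    intro x y hx hy hxy
    have h1 : e x = X.k5_e0 (l x) := if_pos hx
    rw [h1]
    refine X.k5_congr ?_ hy (hlc x hx)
    have h2 : l x - y = (l x - x) - (y - x) := by ring
    rw [h2]
    exact m.sub_mem (hl1 x) hxy
  have hone : e 1 = 1 := by
    rw [hkey 1 1 k5_one k5_one (by rw [sub_self]; exact m.zero_mem)]
    exact X.k5_e0_one (by rw [sub_self]; exact m.zero_mem) k5_one
  have hmul : ∀ x y, e (x * y) = e x * e y := by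
    intro x y
    by_cases hx : IsCoprime (Ideal.span {x}) m
    · by_cases hy : IsCoprime (Ideal.span {y}) m
      · rw [hkey (x * y) (l x * l y) (k5_span_mul.2 ⟨hx, hy⟩) (k5_span_mul.2 ⟨hlc x hx, hlc y hy⟩), X.k5_e0_mul]
        · rw [show e x = X.k5_e0 (l x) from if_pos hx, show e y = X.k5_e0 (l y) from if_pos hy]
        · have h1 : l x * l y - x * y = l x * (l y - y) + y * (l x - x) := by ring
          rw [h1]
          exact m.add_mem (m.mul_mem_left _ (hl1 y)) (m.mul_mem_left _ (hl1 x))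
      · rw [he0 y hy, mul_zero, he0]
        exact fun h => hy (k5_span_mul.1 h).2
    · rw [he0 x hx, zero_mul, he0]
      exact fun h => hx (k5_span_mul.1 h).1
  have hper : ∀ x y, x - y ∈ m → e x = e y := by
    intro x y hxy
    by_cases hx : IsCoprime (Ideal.span {x}) m
    · have hy : IsCoprime (Ideal.span {y}) m := by
        refine coprime_congr ?_ hx
        rw [← neg_sub]
        exact m.neg_mem hxy
      rw [show e x = X.k5_e0 (l x) from if_pos hx]
      refine (hkey y (l x) hy (hlc x hx) ?_).symm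
      have h2 : l x - y = (l x - x) + (x - y) := by ring
      rw [h2]
      exact m.add_mem (hl1 x) hxy
    · have hy : ¬ IsCoprime (Ideal.span {y}) m := fun hy => hx (coprime_congr hxy hy)
      rw [he0 x hx, he0 y hy]
  refine ⟨e, hone, hmul, hper, he0, ?_, ?_⟩
  · intro x hx
    have hfin : Finite (𝓞 L ⧸ m) := Ideal.finiteQuotientOfFreeOfNeBot m X.mne
    have hfin2 : Finite (𝓞 L ⧸ m)ˣ := inferInstance
    obtain ⟨y, hy1, -⟩ := exists_inv X.mp hx
    have hyx : (Ideal.Quotient.mk m) y * (Ideal.Quotient.mk m) x = 1 := by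
      rw [← map_mul, ← map_one (Ideal.Quotient.mk m), Ideal.Quotient.mk_eq_mk_iff_sub_mem]
      exact hy1
    let u : (𝓞 L ⧸ m)ˣ := ⟨(Ideal.Quotient.mk m) x, (Ideal.Quotient.mk m) y, by rw [mul_comm]; exact hyx, hyx⟩
    have hu : u ^ Nat.card (𝓞 L ⧸ m)ˣ = 1 := pow_card_eq_one'
    have hu2 : (Ideal.Quotient.mk m) x ^ Nat.card (𝓞 L ⧸ m)ˣ = 1 := congrArg Units.val hu
    rw [← map_pow, ← map_one (Ideal.Quotient.mk m), Ideal.Quotient.mk_eq_mk_iff_sub_mem] at hu2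
    refine ⟨Nat.card (𝓞 L ⧸ m)ˣ, Nat.card_pos, ?_⟩
    have hpow : ∀ n : ℕ, e (x ^ n) = e x ^ n := by
      intro n
      induction n with
      | zero => rw [pow_zero, pow_zero, hone]
      | succ n ih => rw [pow_succ, pow_succ, hmul, ih]
    rw [← hpow, hper _ _ hu2, hone]
  · intro x hx
    rw [hkey x x (IsCoprime.mul_right_iff.1 hx).1 hx (by rw [sub_self]; exact m.zero_mem), ModChi.k5_e0,
      div_mul_cancel₀ _ (X.r_nc_ne (IsCoprime.mul_right_iff.1 hx).2)]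

end Pool.Agent.H2S
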