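import Pool.Agent.Lib.H2S.K3
import Pool.Agent.Lib.H2S.K4
import Pool.Agent.Lib.H2S.K5

/-!
# K8: the Hecke character in characteristic zero, first version
-/

set_option autoImplicit false
namespace Pool.Agent.H2S
open Complex NumberField

variable {K L : Type*} [Field K] [NumberField K] [Field L] [NumberField L] [Algebra K L]
  {F : Fld K L} {m : Ideal (𝓞 L)}

/-- The value at a principal ideal. -/
noncomputable def Chr.k8_v (c : Chr F m) (x : 𝓞 L) : ℂ := c.ε x * F.s (F.nc x : L)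

theorem Chr.k8_mul (c : Chr F m) (x y : 𝓞 L) : c.k8_v (x * y) = c.k8_v x * c.k8_v y := by
  unfold Chr.k8_v
  rw [c.mul, F.nc_mul, k5_coe_mul, map_mul]
  ring

theorem Chr.k8_one (c : Chr F m) : c.k8_v 1 = 1 := by
  unfold Chr.k8_v
  rw [c.one, F.nc_one, k5_coe_one, map_one, one_mul]

theorem Chr.k8_unit (c : Chr F m) (u : (𝓞 L)ˣ) : c.k8_v (u : 𝓞 L) = 1 := by
  unfold Chr.k8_v
  rw [F.coe_nc]
  exact c.unit u

theorem Fld.k8_nc_ne (F : Fld K L) {x : 𝓞 L} (hx : x ≠ 0) : (F.nc x : L) ≠ 0 := by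
  have h1 : (x : L) ≠ 0 := fun h => hx (RingOfIntegers.ext h)
  rw [F.coe_nc]
  refine mul_ne_zero h1 ?_
  rw [Ne, map_eq_zero_iff _ F.cc.injective, map_eq_zero_iff _ F.τ.injective]
  exact h1

theorem Chr.k8_ne (c : Chr F m) (hne : ∀ x, IsCoprime (Ideal.span {x}) m → c.ε x ≠ 0) {x : 𝓞 L} (hx : x ≠ 0)
    (hxm : IsCoprime (Ideal.span {x}) m) : c.k8_v x ≠ 0 := by
  unfold Chr.k8_v
  refine mul_ne_zero (hne x hxm) ?_
  rw [Ne, map_eq_zero_iff _ F.s.injective]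
  exact F.k8_nc_ne hx

theorem Chr.k8_wd (c : Chr F m) {x y : 𝓞 L} (h : Ideal.span {x} = Ideal.span {y}) : c.k8_v x = c.k8_v y := by
  rw [Ideal.span_singleton_eq_span_singleton] at h
  obtain ⟨u, rfl⟩ := h
  rw [c.k8_mul, c.k8_unit, mul_one]

theorem k8_span_ne {x : 𝓞 L} (hx : x ≠ 0) : Ideal.span {x} ∈ nonZeroDivisors (Ideal (𝓞 L)) := by
  apply mem_nonZeroDivisors_of_ne_zero
  rw [Ne, Ideal.zero_eq_bot, Ideal.span_singleton_eq_bot]
  exact hx

theorem k8_mk_inj {a b : Ideal (𝓞 L)} (ha : a ∈ nonZeroDivisors (Ideal (𝓞 L))) (hb : b ∈ nonZeroDivisors (Ideal (𝓞 L)))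
    (h : FractionalIdeal.mk0 L ⟨a, ha⟩ = FractionalIdeal.mk0 L ⟨b, hb⟩) : a = b := by
  have h1 := congrArg (fun u : (FractionalIdeal (nonZeroDivisors (𝓞 L)) L)ˣ =>
    (u : FractionalIdeal (nonZeroDivisors (𝓞 L)) L)) h
  simp only [FractionalIdeal.coe_mk0] at h1
  exact FractionalIdeal.coeIdeal_injective h1

/-- The classes of principal ideals prime to `m`. -/
def k8_S (m : Ideal (𝓞 L)) : Submonoid (FractionalIdeal (nonZeroDivisors (𝓞 L)) L)ˣ where
  carrier := {u | ∃ (x : 𝓞 L) (hx : x ≠ 0), IsCoprime (Ideal.span {x}) m ∧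
    u = FractionalIdeal.mk0 L ⟨Ideal.span {x}, k8_span_ne hx⟩}
  one_mem' := by
    refine ⟨1, one_ne_zero, k5_one, ?_⟩
    symm
    have h1 : (⟨Ideal.span {(1 : 𝓞 L)}, k8_span_ne one_ne_zero⟩ : nonZeroDivisors (Ideal (𝓞 L))) = 1 := by
      apply Subtype.ext
      show Ideal.span {(1 : 𝓞 L)} = 1
      rw [Ideal.span_singleton_one, Ideal.one_eq_top]
    rw [h1, map_one]
  mul_mem' := by
    rintro _ _ ⟨x, hx, hxm, rfl⟩ ⟨y, hy, hym, rfl⟩
    refine ⟨x * y, mul_ne_zero hx hy, k5_span_mul.2 ⟨hxm, hym⟩, ?_⟩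
    rw [← map_mul]
    congr 1
    apply Subtype.ext
    show Ideal.span {x} * Ideal.span {y} = Ideal.span {x * y}
    rw [Ideal.span_singleton_mul_span_singleton]

/-- PROOF. Let `A` be the group of units of `FractionalIdeal (𝓞 L)⁰ L` (all nonzero fractional ideals), `S` the submonoid of the classes of
`(x)`, `x ≠ 0` prime to `m`.  `f ((x)) = ε x * s (nc x)` is well defined on `S`: `(x) = (x')` gives `x' = u x` and `c.unit u` (`nc` is multiplicative:
`Fld.nc_mul`); it is not zero.  Extend to `g : A →* ℂˣ` (`extend_submonoid`) and put `ψ a = g a` for `a ≠ ⊥` prime to `m`, `0` otherwise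
(multiplicative: `a b` is prime to `m` iff `a` and `b` are; `FractionalIdeal.mk0` or `Units.mk0` of the coercion). -/
theorem Chr.exists_psi (c : Chr F m) (hm : m ≠ ⊥) (hne : ∀ x, IsCoprime (Ideal.span {x}) m → c.ε x ≠ 0) :
    ∃ ψ : Ideal (𝓞 L) →*₀ ℂ, (∀ a, a ≠ ⊥ → (ψ a ≠ 0 ↔ IsCoprime a m)) ∧
      ∀ x : 𝓞 L, ψ (Ideal.span {x}) = c.ε x * F.s (F.nc x : L) := by
  classical
  choose gx hx0 hxm hxe using fun u : k8_S m => u.2
  have hf : ∀ (u : k8_S m) (y : 𝓞 L) (hy : y ≠ 0),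
      (u : (FractionalIdeal (nonZeroDivisors (𝓞 L)) L)ˣ) = FractionalIdeal.mk0 L ⟨Ideal.span {y}, k8_span_ne hy⟩ →
      c.k8_v (gx u) = c.k8_v y := by
    intro u y hy h
    rw [hxe u] at h
    exact c.k8_wd (k8_mk_inj _ _ h)
  let f : k8_S m →* ℂˣ :=
    { toFun := fun u => Units.mk0 (c.k8_v (gx u)) (c.k8_ne hne (hx0 u) (hxm u))
      map_one' := by
        apply Units.ext
        rw [Units.val_mk0, Units.val_one, hf 1 1 one_ne_zero, c.k8_one]
        have h1 : (⟨Ideal.span {(1 : 𝓞 L)}, k8_span_ne one_ne_zero⟩ : nonZeroDivisors (Ideal (𝓞 L))) = 1 := by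
          apply Subtype.ext
          show Ideal.span {(1 : 𝓞 L)} = 1
          rw [Ideal.span_singleton_one, Ideal.one_eq_top]
        rw [h1, map_one]
        rfl
      map_mul' := by
        intro u v
        apply Units.ext
        rw [Units.val_mk0, Units.val_mul, Units.val_mk0, Units.val_mk0, hf (u * v) (gx u * gx v)
          (mul_ne_zero (hx0 u) (hx0 v)), c.k8_mul]
        rw [Submonoid.coe_mul, hxe u, hxe v, ← map_mul]
        congr 1
        apply Subtype.ext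
        show Ideal.span {gx u} * Ideal.span {gx v} = Ideal.span {gx u * gx v}
        rw [Ideal.span_singleton_mul_span_singleton] }
  have hfv : ∀ u : k8_S m, ((f u : ℂˣ) : ℂ) = c.k8_v (gx u) := fun u => rfl
  obtain ⟨g, hg⟩ := extend_submonoid (k8_S m) f
  have hmem : ∀ a : Ideal (𝓞 L), a ≠ ⊥ → a ∈ nonZeroDivisors (Ideal (𝓞 L)) := fun a ha =>
    mem_nonZeroDivisors_of_ne_zero ha
  let w : Ideal (𝓞 L) → ℂ := fun a => if h : a ≠ ⊥ ∧ IsCoprime a m then
    ((g (FractionalIdeal.mk0 L ⟨a, hmem a h.1⟩) : ℂˣ) : ℂ) else 0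
  have hw1 : ∀ a (h : a ≠ ⊥ ∧ IsCoprime a m), w a = ((g (FractionalIdeal.mk0 L ⟨a, hmem a h.1⟩) : ℂˣ) : ℂ) :=
    fun a h => dif_pos h
  have hw0 : ∀ a, ¬ (a ≠ ⊥ ∧ IsCoprime a m) → w a = 0 := fun a h => dif_neg h
  let ψ : Ideal (𝓞 L) →*₀ ℂ :=
    { toFun := w
      map_zero' := by
        refine hw0 _ ?_
        rintro ⟨h, -⟩
        exact h rfl
      map_one' := by
        have h1 : (1 : Ideal (𝓞 L)) ≠ ⊥ ∧ IsCoprime (1 : Ideal (𝓞 L)) m := ⟨one_ne_zero, isCoprime_one_left⟩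
        rw [hw1 1 h1]
        have h2 : (⟨1, hmem 1 h1.1⟩ : nonZeroDivisors (Ideal (𝓞 L))) = 1 := rfl
        rw [h2, map_one, map_one, Units.val_one]
      map_mul' := by
        intro a b
        by_cases ha : a ≠ ⊥ ∧ IsCoprime a m
        · by_cases hb : b ≠ ⊥ ∧ IsCoprime b m
          · have hab : a * b ≠ ⊥ ∧ IsCoprime (a * b) m :=
              ⟨mul_ne_zero (M₀ := Ideal (𝓞 L)) ha.1 hb.1, IsCoprime.mul_left ha.2 hb.2⟩
            rw [hw1 a ha, hw1 b hb, hw1 _ hab, ← Units.val_mul, ← map_mul, ← map_mul]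
            rfl
          · rw [hw0 b hb, mul_zero]
            refine hw0 _ ?_
            rintro ⟨h1, h2⟩
            refine hb ⟨?_, (IsCoprime.mul_left_iff.1 h2).2⟩
            rintro rfl
            exact h1 (mul_zero (M₀ := Ideal (𝓞 L)) a)
        · rw [hw0 a ha, zero_mul]
          refine hw0 _ ?_
          rintro ⟨h1, h2⟩
          refine ha ⟨?_, (IsCoprime.mul_left_iff.1 h2).1⟩
          rintro rfl
          exact h1 (zero_mul (M₀ := Ideal (𝓞 L)) b) }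
  have hψ : ∀ a, ψ a = w a := fun a => rfl
  refine ⟨ψ, ?_, ?_⟩
  · intro a ha
    rw [hψ]
    constructor
    · intro h
      by_contra h2
      exact h (hw0 a fun h3 => h2 h3.2)
    · intro h
      rw [hw1 a ⟨ha, h⟩]
      exact Units.ne_zero _
  · intro x
    rw [hψ]
    by_cases hx : x = 0
    · subst hx
      have h1 : w (Ideal.span {(0 : 𝓞 L)}) = 0 := by
        refine hw0 _ ?_
        rintro ⟨h, -⟩
        exact h Ideal.span_singleton_zero
      rw [h1, F.coe_nc]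
      have h2 : ((0 : 𝓞 L) : L) = 0 := map_zero (algebraMap (𝓞 L) L)
      rw [h2, zero_mul, map_zero, mul_zero]
    · by_cases hxm' : IsCoprime (Ideal.span {x}) m
      · have hxb : Ideal.span {x} ≠ ⊥ := by
          rw [Ne, Ideal.span_singleton_eq_bot]
          exact hx
        rw [hw1 _ ⟨hxb, hxm'⟩]
        have h3 := hg ⟨FractionalIdeal.mk0 L ⟨Ideal.span {x}, k8_span_ne hx⟩, x, hx, hxm', rfl⟩
        have h4 : ((g (FractionalIdeal.mk0 L ⟨Ideal.span {x}, hmem _ hxb⟩) : ℂˣ) : ℂ) =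
            ((f ⟨FractionalIdeal.mk0 L ⟨Ideal.span {x}, k8_span_ne hx⟩, x, hx, hxm', rfl⟩ : ℂˣ) : ℂ) :=
          congrArg Units.val h3
        rw [h4, hfv]
        exact hf _ x hx rfl
      · rw [hw0 _ fun h => hxm' h.2, c.zero x hxm', zero_mul]

/-- PROOF. Some power `a ^ h`, `h > 0`, is principal (`ClassGroup` finite), `ψ a ^ h = ψ (a ^ h) = ε x * s (nc x)` is integral, `IsIntegral.of_pow`. -/
theorem psi_int (c : Chr F m) (hint : ∀ x, IsIntegral ℤ (c.ε x)) (ψ : Ideal (𝓞 L) →*₀ ℂ)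
    (hψ : ∀ x : 𝓞 L, ψ (Ideal.span {x}) = c.ε x * F.s (F.nc x : L)) (a : Ideal (𝓞 L)) : IsIntegral ℤ (ψ a) := by
  classical
  by_cases ha : a = ⊥
  · have h1 : ψ a = 0 := by
      rw [ha, ← Ideal.zero_eq_bot, map_zero]
    rw [h1]
    exact isIntegral_zero
  · have hmem : a ∈ nonZeroDivisors (Ideal (𝓞 L)) := mem_nonZeroDivisors_of_ne_zero ha
    have h1 : ClassGroup.mk0 (⟨a, hmem⟩ : nonZeroDivisors (Ideal (𝓞 L))) ^ Fintype.card (ClassGroup (𝓞 L)) = 1 :=
      pow_card_eq_one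
    rw [← map_pow, ClassGroup.mk0_eq_one_iff] at h1
    obtain ⟨x, hx⟩ := h1.principal
    have hx' : a ^ Fintype.card (ClassGroup (𝓞 L)) = Ideal.span {x} := hx
    refine IsIntegral.of_pow Fintype.card_pos (n := Fintype.card (ClassGroup (𝓞 L))) ?_
    rw [← map_pow, hx', hψ]
    refine (hint x).mul ?_
    have h2 : IsIntegral ℤ (F.nc x : L) := (F.nc x).isIntegral_coe
    exact h2.map (F.s : L →+* ℂ).toIntAlgHom

end Pool.Agent.H2S
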