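import Pool.Agent.Lib.H2S.K7
import Pool.Agent.Lib.H2S.K8

/-!
# K9: the Hecke character, correction by a character of finite order
-/

set_option autoImplicit false
namespace Pool.Agent.H2S
open Complex NumberField

variable {K L : Type*} [Field K] [NumberField K] [Field L] [NumberField L] [Algebra K L]
  {F : Fld K L} {m : Ideal (𝓞 L)} {p : ℕ} {k : Type*} [Field k]

/-- The data of this file. -/
structure Pre (X : ModChi F m p k) where
  R : Oc →+* k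
  hR : ∀ x : 𝓞 L, ∀ y : Oc, (y : ℂ) = F.s (x : L) → R y = X.r x
  c : Chr F m
  fin : ∀ x, IsCoprime (Ideal.span {x}) m → ∃ n : ℕ, ¬ p ∣ n ∧ 0 < n ∧ c.ε x ^ n = 1
  red : ∀ x, IsCoprime (Ideal.span {x}) (m * Ideal.span {(p : 𝓞 L)}) →
        ∃ z : Oc, (z : ℂ) = c.ε x ∧ X.χ (Ideal.span {x}) = R z * X.r (F.nc x)
  ψ : Ideal (𝓞 L) →*₀ ℂ
  ne : ∀ a, a ≠ ⊥ → (ψ a ≠ 0 ↔ IsCoprime a m)
  prin : ∀ x : 𝓞 L, ψ (Ideal.span {x}) = c.ε x * F.s (F.nc x : L)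
  int : ∀ a, IsIntegral ℤ (ψ a)

/-- PROOF. `ψ ((x)) = z * s (nc x)` and `R z * R (s (nc x)) = R z * r (nc x)`. -/
theorem Pre.prin_red {X : ModChi F m p k} (Y : Pre X) {x : 𝓞 L}
    (hx : IsCoprime (Ideal.span {x}) (m * Ideal.span {(p : 𝓞 L)})) :
    Y.R ⟨Y.ψ (Ideal.span {x}), Y.int _⟩ = X.χ (Ideal.span {x}) := by
  obtain ⟨z, hz, hz2⟩ := Y.red x hx
  have hint : IsIntegral ℤ (F.s (F.nc x : L)) := (F.nc x).isIntegral_coe.map F.s.toIntAlgHom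
  have h1 : (⟨Y.ψ (Ideal.span {x}), Y.int _⟩ : Oc) = z * ⟨F.s (F.nc x : L), hint⟩ := by
    apply Subtype.ext
    change Y.ψ (Ideal.span {x}) = (z : ℂ) * F.s (F.nc x : L)
    rw [Y.prin, hz]
  rw [h1, map_mul, hz2, Y.hR (F.nc x) ⟨F.s (F.nc x : L), hint⟩ rfl]

/-- The reduction of `ψ a`. -/
noncomputable def Pre.k9_R {X : ModChi F m p k} (Y : Pre X) (a : Ideal (𝓞 L)) : k := Y.R ⟨Y.ψ a, Y.int _⟩

theorem Pre.k9_R_mul {X : ModChi F m p k} (Y : Pre X) (a b : Ideal (𝓞 L)) :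
    Y.k9_R (a * b) = Y.k9_R a * Y.k9_R b := by
  rw [Pre.k9_R, Pre.k9_R, Pre.k9_R, ← map_mul]
  congr 1
  apply Subtype.ext
  exact map_mul Y.ψ a b

theorem Pre.k9_R_one {X : ModChi F m p k} (Y : Pre X) : Y.k9_R 1 = 1 := by
  rw [Pre.k9_R, ← map_one Y.R]
  congr 1
  apply Subtype.ext
  exact map_one Y.ψ

theorem Pre.k9_R_pow {X : ModChi F m p k} (Y : Pre X) (a : Ideal (𝓞 L)) (n : ℕ) :
    Y.k9_R (a ^ n) = Y.k9_R a ^ n := by
  induction n with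
  | zero => rw [pow_zero, pow_zero, Y.k9_R_one]
  | succ n ih => rw [pow_succ, pow_succ, Y.k9_R_mul, ih]

theorem k9_pow {a : Ideal (𝓞 L)} (ha : a ≠ ⊥) : ∃ (h : ℕ) (x : 𝓞 L), 0 < h ∧ x ≠ 0 ∧ a ^ h = Ideal.span {x} := by
  have ha' : a ∈ nonZeroDivisors (Ideal (𝓞 L)) := mem_nonZeroDivisors_iff_ne_zero.2 ha
  have h1 : (ClassGroup.mk0 ⟨a, ha'⟩) ^ Nat.card (ClassGroup (𝓞 L)) = 1 := pow_card_eq_one'
  rw [← map_pow] at h1
  have h2 : ClassGroup.mk0 ⟨a ^ Nat.card (ClassGroup (𝓞 L)), pow_mem ha' _⟩ = 1 := h1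
  rw [ClassGroup.mk0_eq_one_iff] at h2
  obtain ⟨x, hx⟩ := h2
  refine ⟨Nat.card (ClassGroup (𝓞 L)), x, Nat.card_pos, ?_, hx⟩
  rintro rfl
  have h3 : a ^ Nat.card (ClassGroup (𝓞 L)) = 0 := by
    rw [hx, Ideal.submodule_span_eq, Ideal.span_singleton_eq_bot.2 rfl, Ideal.zero_eq_bot]
  exact pow_ne_zero _ ha h3

/-- PROOF. `a ^ h = (x)` with `h > 0` and `x` prime to `m p`: `R (ψ a) ^ h = χ (a) ^ h`, not zero (`prin_red`, `X.ne`). -/
theorem Pre.ratio {X : ModChi F m p k} (Y : Pre X) {a : Ideal (𝓞 L)} (ha : a ≠ ⊥)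
    (hx : IsCoprime a (m * Ideal.span {(p : 𝓞 L)})) :
    Y.R ⟨Y.ψ a, Y.int _⟩ ≠ 0 ∧ ∃ h : ℕ, 0 < h ∧ (X.χ a / Y.R ⟨Y.ψ a, Y.int _⟩) ^ h = 1 := by
  obtain ⟨h, x, hh, hx0, hax⟩ := k9_pow ha
  have h1 : IsCoprime (Ideal.span {x}) (m * Ideal.span {(p : 𝓞 L)}) := by
    rw [← hax]
    exact hx.pow_left
  have h2 : Y.k9_R a ^ h = X.χ a ^ h := by
    rw [← Y.k9_R_pow, hax, Pre.k9_R, Y.prin_red h1, ← hax, map_pow]
  have h3 : X.χ a ≠ 0 := (X.ne a ha).2 hx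
  have h4 : Y.k9_R a ≠ 0 := by
    intro h4
    rw [h4, zero_pow hh.ne'] at h2
    exact pow_ne_zero h h3 h2.symm
  refine ⟨h4, h, hh, ?_⟩
  change (X.χ a / Y.k9_R a) ^ h = 1
  rw [div_pow, h2, div_self (pow_ne_zero h h3)]

theorem ModChi.k9_J (X : ModChi F m p k) : m * Ideal.span {(p : 𝓞 L)} ≠ ⊥ := by
  rw [← Ideal.zero_eq_bot]
  refine mul_ne_zero X.mne ?_
  rw [Ideal.zero_eq_bot]
  intro h
  rw [Ideal.span_singleton_eq_bot] at h
  exact X.pprime.ne_zero (Nat.cast_eq_zero.1 h)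

/-- PROOF. By `exists_elt` (K3) there are `z` and `b` with `(z) = a b`, `b` prime to `m p`; `z` is prime to `m p`.  `(x z) = (x) a b = (x') a' b`, so `x'`
divides `x z`: `x z = x' w`, `(w) = a' b`, prime to `m p`.  `δ(a) δ(b) = δ((z)) = 1 = δ((w)) = δ(a') δ(b)` for `δ = χ / R ψ` (`prin_red`), `δ(b) ≠ 0`. -/
theorem Pre.ratio_eq {X : ModChi F m p k} (Y : Pre X) {a a' : Ideal (𝓞 L)} (ha : a ≠ ⊥) (ha' : a' ≠ ⊥)
    (hx : IsCoprime a (m * Ideal.span {(p : 𝓞 L)})) (hx' : IsCoprime a' (m * Ideal.span {(p : 𝓞 L)})) {x x' : 𝓞 L}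
    (h0 : x ≠ 0) (h0' : x' ≠ 0) (h : Ideal.span {x} * a = Ideal.span {x'} * a') :
    X.χ a / Y.R ⟨Y.ψ a, Y.int _⟩ = X.χ a' / Y.R ⟨Y.ψ a', Y.int _⟩ := by
  obtain ⟨z, b, hz0, hz, hb⟩ := exists_elt ha X.k9_J
  have hb0 : b ≠ ⊥ := by
    rintro rfl
    rw [Ideal.mul_bot, Ideal.span_singleton_eq_bot] at hz
    exact hz0 hz
  have h1 : Ideal.span {x * z} = Ideal.span {x'} * (a' * b) := by
    rw [← Ideal.span_singleton_mul_span_singleton, hz, ← mul_assoc, h, mul_assoc]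
  have h2 : x' ∣ x * z := by
    rw [← Ideal.mem_span_singleton]
    have h3 : x * z ∈ Ideal.span {x * z} := Ideal.mem_span_singleton_self _
    rw [h1] at h3
    have h4 : Ideal.span {x'} * (a' * b) ≤ Ideal.span {x'} := Ideal.mul_le_left
    exact h4 h3
  obtain ⟨w, hw⟩ := h2
  have h3 : Ideal.span {w} = a' * b := by
    rw [hw, ← Ideal.span_singleton_mul_span_singleton] at h1
    refine mul_left_cancel₀ ?_ h1
    rw [Ideal.zero_eq_bot]
    exact fun h => h0' (Ideal.span_singleton_eq_bot.1 h)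
  have hzc : IsCoprime (Ideal.span {z}) (m * Ideal.span {(p : 𝓞 L)}) := by
    rw [hz]
    exact hx.mul_left hb
  have hwc : IsCoprime (Ideal.span {w}) (m * Ideal.span {(p : 𝓞 L)}) := by
    rw [h3]
    exact hx'.mul_left hb
  have h4 : Y.k9_R a * Y.k9_R b = X.χ a * X.χ b := by
    rw [← Y.k9_R_mul, ← map_mul, ← hz]
    exact Y.prin_red hzc
  have h5 : Y.k9_R a' * Y.k9_R b = X.χ a' * X.χ b := by
    rw [← Y.k9_R_mul, ← map_mul, ← h3]
    exact Y.prin_red hwc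
  have h6 : X.χ b ≠ 0 := (X.ne b hb0).2 hb
  have h7 : Y.k9_R a ≠ 0 := (Y.ratio ha hx).1
  have h8 : Y.k9_R a' ≠ 0 := (Y.ratio ha' hx').1
  change X.χ a / Y.k9_R a = X.χ a' / Y.k9_R a'
  rw [div_eq_div_iff h7 h8]
  apply mul_right_cancel₀ h6
  calc X.χ a * Y.k9_R a' * X.χ b = (X.χ a * X.χ b) * Y.k9_R a' := by ring
    _ = (Y.k9_R a' * Y.k9_R b) * Y.k9_R a := by rw [← h4]; ring
    _ = X.χ a' * Y.k9_R a * X.χ b := by rw [h5]; ring

/-- Extension of a character of a submonoid of a commutative monoid which embeds in a group. -/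
theorem k9_ext {M A : Type*} [CommMonoid M] [CommGroup A] (ι : M →* A) (hι : Function.Injective ι) (S : Submonoid M)
    (f : S →* ℂˣ) : ∃ g : M →* ℂˣ, ∀ s : S, g s = f s := by
  obtain ⟨g, hg⟩ := extend_submonoid (S.map ι) (f.comp (S.equivMapOfInjective ι hι).symm.toMonoidHom)
  refine ⟨g.comp ι, fun s => ?_⟩
  have h1 := hg (S.equivMapOfInjective ι hι s)
  rw [Submonoid.coe_equivMapOfInjective_apply] at h1
  rw [MonoidHom.comp_apply, h1, MonoidHom.comp_apply]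
  congr 1
  exact (S.equivMapOfInjective ι hι).symm_apply_apply s

theorem k9_mk0 : ∃ ι : nonZeroDivisors (Ideal (𝓞 L)) →* (FractionalIdeal (nonZeroDivisors (𝓞 L)) L)ˣ,
    Function.Injective ι := by
  refine ⟨FractionalIdeal.mk0 L, fun a b hab => ?_⟩
  have h1 := congrArg Units.val hab
  rw [FractionalIdeal.coe_mk0, FractionalIdeal.coe_mk0] at h1
  exact Subtype.ext (FractionalIdeal.coeIdeal_injective h1)

/-- The representations `I = (x) a`. -/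
structure k9Rep (m : Ideal (𝓞 L)) (p : ℕ) (I : Ideal (𝓞 L)) (x : 𝓞 L) (a : Ideal (𝓞 L)) : Prop where
  x0 : x ≠ 0
  xm : IsCoprime (Ideal.span {x}) m
  a0 : a ≠ ⊥
  aJ : IsCoprime a (m * Ideal.span {(p : 𝓞 L)})
  eq : I = Ideal.span {x} * a

theorem k9Rep.mul {I I' : Ideal (𝓞 L)} {x x' : 𝓞 L} {a a' : Ideal (𝓞 L)} (h : k9Rep m p I x a) (h' : k9Rep m p I' x' a') :
    k9Rep m p (I * I') (x * x') (a * a') where
  x0 := mul_ne_zero h.x0 h'.x0
  xm := k5_span_mul.2 ⟨h.xm, h'.xm⟩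
  a0 := by
    rw [← Ideal.zero_eq_bot]
    exact mul_ne_zero h.a0 h'.a0
  aJ := h.aJ.mul_left h'.aJ
  eq := by
    rw [h.eq, h'.eq, ← Ideal.span_singleton_mul_span_singleton]
    exact mul_mul_mul_comm _ _ _ _

theorem k9Rep.one : k9Rep m p (1 : Ideal (𝓞 L)) 1 1 where
  x0 := one_ne_zero
  xm := k5_one
  a0 := by
    rw [← Ideal.zero_eq_bot]
    exact one_ne_zero
  aJ := isCoprime_one_left
  eq := by
    rw [mul_one, Ideal.span_singleton_one, Ideal.one_eq_top]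

/-- The submonoid. -/
def k9S (m : Ideal (𝓞 L)) (p : ℕ) : Submonoid (nonZeroDivisors (Ideal (𝓞 L))) where
  carrier := {I | ∃ x a, k9Rep m p (I : Ideal (𝓞 L)) x a}
  one_mem' := ⟨1, 1, k9Rep.one⟩
  mul_mem' := by
    rintro I I' ⟨x, a, h⟩ ⟨x', a', h'⟩
    exact ⟨x * x', a * a', h.mul h'⟩

/-- The character of finite order. -/
theorem Pre.k9_g {X : ModChi F m p k} (Y : Pre X) : ∃ g : nonZeroDivisors (Ideal (𝓞 L)) →* ℂˣ,
    (∀ (I : nonZeroDivisors (Ideal (𝓞 L))) (x : 𝓞 L), IsCoprime (Ideal.span {x}) m → (I : Ideal (𝓞 L)) = Ideal.span {x} →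
      g I = 1) ∧
    (∀ (I : nonZeroDivisors (Ideal (𝓞 L))), IsCoprime (I : Ideal (𝓞 L)) (m * Ideal.span {(p : 𝓞 L)}) →
      ∃ z : Oc, (z : ℂ) = g I ∧ Y.R z = X.χ I / Y.k9_R I) := by
  have := X.char
  obtain ⟨T, hT1, hT2, hT3⟩ := exists_teich X.pprime Y.R
  have hroot : ∀ {a : Ideal (𝓞 L)}, a ≠ ⊥ → IsCoprime a (m * Ideal.span {(p : 𝓞 L)}) →
      ∃ n : ℕ, 0 < n ∧ (X.χ a / Y.k9_R a) ^ n = 1 := fun ha hJ => (Y.ratio ha hJ).2
  have hne : ∀ y, (∃ n : ℕ, 0 < n ∧ y ^ n = 1) → ((T y : Oc) : ℂ) ≠ 0 := by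
    intro y hy h0
    obtain ⟨-, n, -, hn0, hn⟩ := hT1 y hy
    have h1 : T y = 0 := Subtype.ext h0
    rw [h1, zero_pow hn0.ne'] at hn
    exact zero_ne_one hn
  have hp1 : ¬ p ∣ 1 := X.pprime.one_lt.ne' ∘ Nat.dvd_one.1
  have hT1' : T 1 = 1 := by
    have h1 := hT3 1 1 hp1 zero_lt_one (one_pow 1)
    rwa [map_one] at h1
  -- the value of the character
  choose! xx aa hrep using fun (I : nonZeroDivisors (Ideal (𝓞 L))) (h : I ∈ k9S m p) =>
    (show ∃ x a, k9Rep m p (I : Ideal (𝓞 L)) x a from h)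
  let δ : Ideal (𝓞 L) → k := fun a => X.χ a / Y.k9_R a
  have hδmul : ∀ a b, δ (a * b) = δ a * δ b := by
    intro a b
    change X.χ (a * b) / Y.k9_R (a * b) = (X.χ a / Y.k9_R a) * (X.χ b / Y.k9_R b)
    rw [Y.k9_R_mul, map_mul, mul_div_mul_comm]
  have hδone : δ 1 = 1 := by
    change X.χ 1 / Y.k9_R 1 = 1
    rw [Y.k9_R_one, map_one, div_one]
  have hδroot : ∀ {I : Ideal (𝓞 L)} {x : 𝓞 L} {a : Ideal (𝓞 L)}, k9Rep m p I x a →
      ∃ n : ℕ, 0 < n ∧ δ a ^ n = 1 := fun h => hroot h.a0 h.aJ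
  have hδeq : ∀ {I : Ideal (𝓞 L)} {x x' : 𝓞 L} {a a' : Ideal (𝓞 L)}, k9Rep m p I x a → k9Rep m p I x' a' →
      δ a = δ a' := fun h h' => Y.ratio_eq h.a0 h'.a0 h.aJ h'.aJ h.x0 h'.x0 (h.eq.symm.trans h'.eq)
  let f : k9S (L := L) m p →* ℂˣ :=
    { toFun := fun I => Units.mk0 ((T (δ (aa I)) : Oc) : ℂ) (hne _ (hδroot (hrep I I.2)))
      map_one' := by
        apply Units.ext
        change ((T (δ (aa _)) : Oc) : ℂ) = 1
        have h1 : δ (aa ((1 : k9S (L := L) m p) : nonZeroDivisors (Ideal (𝓞 L)))) = δ 1 :=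
          hδeq (hrep _ (1 : k9S (L := L) m p).2) k9Rep.one
        rw [h1, hδone, hT1']
        rfl
      map_mul' := by
        intro I I'
        apply Units.ext
        change ((T (δ (aa _)) : Oc) : ℂ) = ((T (δ (aa I)) : Oc) : ℂ) * ((T (δ (aa I')) : Oc) : ℂ)
        have h1 : δ (aa ((I * I' : k9S (L := L) m p) : nonZeroDivisors (Ideal (𝓞 L)))) = δ (aa I * aa I') :=
          hδeq (hrep _ (I * I').2) ((hrep I I.2).mul (hrep I' I'.2))
        rw [h1, hδmul, hT2 _ _ (hδroot (hrep I I.2)) (hδroot (hrep I' I'.2))]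
        rfl }
  have hf : ∀ (I : k9S (L := L) m p) (x : 𝓞 L) (a : Ideal (𝓞 L)), k9Rep m p ((I : nonZeroDivisors (Ideal (𝓞 L))) : Ideal (𝓞 L)) x a →
      (f I : ℂ) = ((T (δ a) : Oc) : ℂ) := by
    intro I x a h
    change ((T (δ (aa I)) : Oc) : ℂ) = ((T (δ a) : Oc) : ℂ)
    rw [hδeq (hrep I I.2) h]
  obtain ⟨ι, hι⟩ := k9_mk0 (L := L)
  obtain ⟨g, hg⟩ := k9_ext ι hι (k9S m p) f
  refine ⟨g, ?_, ?_⟩
  · intro I x hx hI
    have hx0 : x ≠ 0 := by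
      rintro rfl
      rw [Ideal.span_singleton_eq_bot.2 rfl] at hI
      exact (mem_nonZeroDivisors_iff_ne_zero.1 I.2) hI
    have h1 : k9Rep m p (I : Ideal (𝓞 L)) x 1 := ⟨hx0, hx, (k9Rep.one (m := m) (p := p)).a0,
      (k9Rep.one (m := m) (p := p)).aJ, by rw [hI, mul_one]⟩
    have h2 := hg ⟨I, ⟨x, 1, h1⟩⟩
    apply Units.ext
    rw [Units.val_one, h2, hf _ x 1 h1, hδone, hT1']
    rfl
  · intro I hI
    have h1 : k9Rep m p (I : Ideal (𝓞 L)) 1 (I : Ideal (𝓞 L)) :=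
      ⟨one_ne_zero, k5_one, mem_nonZeroDivisors_iff_ne_zero.1 I.2, hI, by
        rw [Ideal.span_singleton_one, ← Ideal.one_eq_top, one_mul]⟩
    have h2 := hg ⟨I, ⟨1, _, h1⟩⟩
    refine ⟨T (δ I), ?_, (hT1 _ (hδroot h1)).1⟩
    rw [h2, hf _ 1 _ h1]

open Classical in
/-- PROOF. `δ a = χ a / R (ψ a)` for `a` prime to `m p`; let `T` be the Teichmüller map (`exists_teich`).  In the group `A` of the nonzero fractional
ideals let `S` be the submonoid of all `(x) a`, `x ≠ 0` prime to `m`, `a` prime to `m p`, and `f ((x) a) = T (δ a)`: well defined by `ratio_eq`,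
multiplicative, a root of unity.  Extend to `g : A →* ℂˣ` (`extend_submonoid`) and put `ψ' a = ψ a * g a` (`a ≠ ⊥`).  `g ((x)) = T 1 = 1` for `x` prime to
`m`, so `ψ' (x) = ψ (x)` for all `x` (both are `0` if `x` is not prime to `m`); `R (ψ' a) = R (ψ a) * δ a = χ a` for `a` prime to `m p`; for `a` prime to
`p`, not prime to `m`, both sides are `0`. -/
theorem Pre.exists_psi {X : ModChi F m p k} (Y : Pre X) : ∃ ψ' : Ideal (𝓞 L) →*₀ ℂ,
    (∀ a, a ≠ ⊥ → (ψ' a ≠ 0 ↔ IsCoprime a m)) ∧ (∀ x : 𝓞 L, ψ' (Ideal.span {x}) = Y.c.ε x * F.s (F.nc x : L)) ∧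
    (∀ a, IsIntegral ℤ (ψ' a)) ∧ ∀ (a : Ideal (𝓞 L)) (z : Oc), a ≠ ⊥ → IsCoprime a (Ideal.span {(p : 𝓞 L)}) →
      (z : ℂ) = ψ' a → Y.R z = X.χ a := by
  obtain ⟨g, hg1, hg2⟩ := Y.k9_g
  have hmem : ∀ {a : Ideal (𝓞 L)}, a ≠ ⊥ → a ∈ nonZeroDivisors (Ideal (𝓞 L)) := fun h =>
    mem_nonZeroDivisors_iff_ne_zero.2 h
  let G : Ideal (𝓞 L) → ℂ := fun a => if h : a = ⊥ then 0 else (g ⟨a, hmem h⟩ : ℂ)
  have hG0 : G ⊥ = 0 := dif_pos rfl
  have hG : ∀ {a : Ideal (𝓞 L)} (h : a ≠ ⊥), G a = (g ⟨a, hmem h⟩ : ℂ) := fun h => dif_neg h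
  have hGmul : ∀ a b, G (a * b) = G a * G b := by
    intro a b
    by_cases ha : a = ⊥
    · rw [ha, Ideal.bot_mul, hG0, zero_mul]
    by_cases hb : b = ⊥
    · rw [hb, Ideal.mul_bot, hG0, mul_zero]
    have hab : a * b ≠ ⊥ := by
      rw [← Ideal.zero_eq_bot]
      exact mul_ne_zero ha hb
    rw [hG hab, hG ha, hG hb, ← Units.val_mul, ← map_mul]
    rfl
  have htop : (1 : Ideal (𝓞 L)) ≠ ⊥ := (k9Rep.one (m := m) (p := p)).a0
  have hGone : G 1 = 1 := by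
    rw [hG htop]
    have h1 : g ⟨1, hmem htop⟩ = 1 := map_one g
    rw [h1, Units.val_one]
  let ψ' : Ideal (𝓞 L) →*₀ ℂ :=
    { toFun := fun a => Y.ψ a * G a
      map_zero' := by rw [map_zero, zero_mul]
      map_one' := by rw [map_one, hGone, one_mul]
      map_mul' := fun a b => by rw [map_mul, hGmul]; ring }
  have hψ' : ∀ a, ψ' a = Y.ψ a * G a := fun a => rfl
  have hprin : ∀ x : 𝓞 L, IsCoprime (Ideal.span {x}) m → Ideal.span {x} ≠ ⊥ → G (Ideal.span {x}) = 1 := by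
    intro x hx h
    rw [hG h, hg1 _ x hx rfl, Units.val_one]
  refine ⟨ψ', ?_, ?_, ?_, ?_⟩
  · intro a ha
    rw [hψ', hG ha, ← Y.ne a ha]
    constructor
    · exact fun h => left_ne_zero_of_mul h
    · exact fun h => mul_ne_zero h (Units.ne_zero _)
  · intro x
    rw [hψ', ← Y.prin]
    by_cases h : Ideal.span {x} = ⊥
    · rw [h, ← Ideal.zero_eq_bot, map_zero, zero_mul]
    by_cases hx : IsCoprime (Ideal.span {x}) m
    · rw [hprin x hx h, mul_one]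
    · have h1 : Y.ψ (Ideal.span {x}) = 0 := by
        by_contra h1
        exact hx ((Y.ne _ h).1 h1)
      rw [h1, zero_mul]
  · intro a
    rw [hψ']
    by_cases ha : a = ⊥
    · rw [ha, hG0, mul_zero]
      exact isIntegral_zero
    by_cases hx : IsCoprime a m
    · obtain ⟨h, x, hh, hx0, hax⟩ := k9_pow ha
      refine (Y.int a).mul ?_
      have hGp : ∀ n : ℕ, G (a ^ n) = G a ^ n := by
        intro n
        induction n with
        | zero => rw [pow_zero, pow_zero, hGone]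
        | succ n ih => rw [pow_succ, pow_succ, hGmul, ih]
      have h1 : G a ^ h = 1 := by
        rw [← hGp, hax]
        refine hprin x ?_ ?_
        · rw [← hax]
          exact hx.pow_left
        · exact fun h => hx0 (Ideal.span_singleton_eq_bot.1 h)
      refine IsIntegral.of_pow hh ?_
      rw [h1]
      exact isIntegral_one
    · have h1 : Y.ψ a = 0 := by
        by_contra h1
        exact hx ((Y.ne _ ha).1 h1)
      rw [h1, zero_mul]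
      exact isIntegral_zero
  · intro a z ha hap hz
    rw [hψ'] at hz
    by_cases hx : IsCoprime a m
    · have hJ : IsCoprime a (m * Ideal.span {(p : 𝓞 L)}) := hx.mul_right hap
      obtain ⟨w, hw, hw2⟩ := hg2 ⟨a, hmem ha⟩ hJ
      have h1 : z = ⟨Y.ψ a, Y.int _⟩ * w := by
        apply Subtype.ext
        rw [hz, hG ha, ← hw]
        rfl
      have h2 : Y.k9_R a ≠ 0 := (Y.ratio ha hJ).1
      rw [h1, map_mul, hw2]
      change Y.k9_R a * (X.χ a / Y.k9_R a) = X.χ a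
      rw [mul_div_cancel₀ _ h2]
    · have h1 : Y.ψ a = 0 := by
        by_contra h1
        exact hx ((Y.ne _ ha).1 h1)
      have h2 : X.χ a = 0 := by
        by_contra h2
        exact hx (IsCoprime.mul_right_iff.1 ((X.ne _ ha).1 h2)).1
      have h3 : z = 0 := by
        apply Subtype.ext
        rw [hz, h1, zero_mul]
        rfl
      rw [h2, h3, map_zero]

end Pool.Agent.H2S
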