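import Pool.Agent.Lib.H2S.K1
import Pool.Agent.Lib.H2S.K9

/-!
# K10: the Teichmüller lift (assembly)
-/

set_option autoImplicit false
namespace Pool.Agent.H2S
open Complex NumberField

variable {K L : Type*} [Field K] [NumberField K] [Field L] [NumberField L] [Algebra K L]
  {F : Fld K L} {m : Ideal (𝓞 L)} {p : ℕ} {k : Type*} [Field k]

/-- PROOF. `exists_red`, `ModChi.exists_chr`, `Chr.exists_psi`, `psi_int`, `Pre.exists_psi`, `ModChi.good`. -/
theorem ModChi.lift (X : ModChi F m p k) : ∃ (Ψ : Psi F m p) (R : Oc →+* k),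
    ∀ (a : Ideal (𝓞 L)) (z : Oc), a ≠ ⊥ → IsCoprime a (Ideal.span {(p : 𝓞 L)}) → (z : ℂ) = Ψ.ψ a → R z = X.χ a := by
  have := X.closed
  have := X.char
  obtain ⟨R, hR⟩ := exists_red X.pprime F X.r
  obtain ⟨c, hfin, hred⟩ := X.exists_chr R hR
  have hne : ∀ x, IsCoprime (Ideal.span {x}) m → c.ε x ≠ 0 := by
    intro x hx h0
    obtain ⟨n, -, hn, h⟩ := hfin x hx
    rw [h0, zero_pow hn.ne'] at h
    exact zero_ne_one h
  have hint : ∀ x, IsIntegral ℤ (c.ε x) := by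
    intro x
    by_cases hx : IsCoprime (Ideal.span {x}) m
    · obtain ⟨n, -, hn, h⟩ := hfin x hx
      refine IsIntegral.of_pow hn ?_
      rw [h]
      exact isIntegral_one
    · rw [c.zero x hx]
      exact isIntegral_zero
  obtain ⟨ψ, hψ1, hψ2⟩ := c.exists_psi X.mne hne
  obtain ⟨ψ', h1, h2, h3, h4⟩ := Pre.exists_psi
    (⟨R, hR, c, hfin, hred, ψ, hψ1, hψ2, psi_int c hint ψ hψ2⟩ : Pre X)
  exact ⟨⟨c, X.mne, X.pprime, X.p3, ψ', h3, h1, h2, X.good R c hfin hred⟩, R, h4⟩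

end Pool.Agent.H2S
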