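import Pool.Agent.Lib.H2S.K0

/-!
# K1: the reduction map on the algebraic integers; maximal kernel
-/

set_option autoImplicit false
namespace Pool.Agent.H2S
open Complex NumberField

variable {K L : Type*} [Field K] [NumberField K] [Field L] [NumberField L] [Algebra K L]

theorem k1_ext {A B k : Type*} [CommRing A] [CommRing B] [Field k] [IsAlgClosed k] (φ : A →+* B)
    (hφ : Function.Injective φ) (hint : ∀ b : B, IsIntegral ℤ b) (r : A →+* k) :
    ∃ R : B →+* k, ∀ x, R (φ x) = r x := by
  algebraize [φ]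
  have hi : Algebra.IsIntegral A B := ⟨fun b => (hint b).tower_top⟩
  have hP : (RingHom.ker r).IsPrime := RingHom.ker_isPrime r
  obtain ⟨Q, -, hQ, hQP⟩ := Ideal.exists_ideal_over_prime_of_isIntegral (RingHom.ker r) (⊥ : Ideal B) (by
    intro x hx
    have h0 : φ x = 0 := by
      rw [Ideal.mem_comap, Ideal.mem_bot] at hx
      exact hx
    rw [(map_eq_zero_iff φ hφ).1 h0]
    exact Ideal.zero_mem _)
  have hlo : Q.LiesOver (RingHom.ker r) := ⟨hQP.symm⟩
  let _ : Algebra (A ⧸ RingHom.ker r) k := (RingHom.kerLift r).toAlgebra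
  have hf1 : FaithfulSMul (A ⧸ RingHom.ker r) k :=
    (faithfulSMul_iff_algebraMap_injective _ _).2 (RingHom.kerLift_injective r)
  have hf2 : FaithfulSMul (A ⧸ RingHom.ker r) (B ⧸ Q) := inferInstance
  have hf3 : Algebra.IsIntegral (A ⧸ RingHom.ker r) (B ⧸ Q) := inferInstance
  have hf4 : Algebra.IsAlgebraic (A ⧸ RingHom.ker r) (B ⧸ Q) := inferInstance
  have hf5 : Module.IsTorsionFree (A ⧸ RingHom.ker r) (B ⧸ Q) := inferInstance
  have hf6 : Module.IsTorsionFree (A ⧸ RingHom.ker r) k := inferInstance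
  let g : (B ⧸ Q) →ₐ[A ⧸ RingHom.ker r] k := IsAlgClosed.lift
  refine ⟨g.toRingHom.comp (Ideal.Quotient.mk Q), fun x => ?_⟩
  have h1 : Ideal.Quotient.mk Q (φ x) = algebraMap (A ⧸ RingHom.ker r) (B ⧸ Q) (Ideal.Quotient.mk _ x) := rfl
  change g (Ideal.Quotient.mk Q (φ x)) = r x
  rw [h1, AlgHom.commutes]
  rfl

/-- PROOF. `𝓞 L` embeds in `Oc` by `F.s`, and `Oc` is integral over the image `R` (even over `ℤ`).  The kernel of `r` is a prime ideal `P` of
`𝓞 L ≅ R`; by lying over (`Ideal.exists_ideal_over_prime_of_isIntegral`) there is a prime `Q` of `Oc` above it.  `Oc ⧸ Q` is integral over the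
domain `𝓞 L ⧸ P`, which embeds in `k` by `r` and is integral over `ZMod p`, so it is a field and `Oc ⧸ Q` is an algebraic field extension of it;
as `k` is algebraically closed the embedding extends (`IsAlgClosed.lift`). -/
theorem exists_red {k : Type*} [Field k] [IsAlgClosed k] {p : ℕ} (hp : p.Prime) [CharP k p] (F : Fld K L) (r : 𝓞 L →+* k) :
    ∃ R : Oc →+* k, ∀ x : 𝓞 L, ∀ y : Oc, (y : ℂ) = F.s (x : L) → R y = r x := by
  let φ : 𝓞 L →+* Oc :=
    { toFun := fun x => ⟨F.s (x : L), x.isIntegral_coe.map F.s.toIntAlgHom⟩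
      map_one' := Subtype.ext (by simp)
      map_mul' := fun x y => Subtype.ext (by simp)
      map_zero' := Subtype.ext (by simp)
      map_add' := fun x y => Subtype.ext (by simp) }
  have hφ : Function.Injective φ := by
    intro x y hxy
    have h1 : F.s (x : L) = F.s (y : L) := congrArg (fun z : Oc => (z : ℂ)) hxy
    exact RingOfIntegers.ext (F.s.injective h1)
  obtain ⟨R, hR⟩ := k1_ext φ hφ (fun b => integralClosure.isIntegral b) r
  refine ⟨R, fun x y hy => ?_⟩
  have h1 : y = φ x := Subtype.ext hy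
  rw [h1, hR]

/-- PROOF. The image is a domain integral over `ZMod p` (the image of `ℤ`), so a field (`isField_of_isIntegral_of_isField'` and similar);
`Ideal.Quotient.maximal_of_isField`. -/
theorem ker_red_max {k : Type*} [Field k] {p : ℕ} (hp : p.Prime) [CharP k p] (R : Oc →+* k) : (RingHom.ker R).IsMaximal := by
  have h1 : (RingHom.ker R).IsPrime := RingHom.ker_isPrime R
  refine Ideal.isMaximal_of_isIntegral_of_isMaximal_comap (R := ℤ) (RingHom.ker R) ?_
  have h2 : (RingHom.ker R).comap (algebraMap ℤ Oc) = Ideal.span {(p : ℤ)} := by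
    ext n
    rw [Ideal.mem_comap, RingHom.mem_ker, Ideal.mem_span_singleton]
    have h3 : R (algebraMap ℤ Oc n) = (n : k) := by simp
    rw [h3]
    exact CharP.intCast_eq_zero_iff k p n
  rw [h2]
  exact PrincipalIdealRing.isMaximal_of_irreducible (Nat.prime_iff_prime_int.1 hp).irreducible

end Pool.Agent.H2S
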