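import Pool.Agent.Lib.H2S.R1
import Pool.Agent.Lib.H2S.K1

/-!
# R2: reduction of an eigenclass
-/

set_option autoImplicit false
namespace Pool.Agent.H2S
open NumberField

variable {K : Type*} [Field K] [NumberField K]

/-- PROOF. `exists_functional` for `O = Oc`, `V = ℂ`, `S = range Φ` (`fg_range`), `c = lam ∘ Φ`.  In `Eigen` keep the representatives `δ`, the permutation
`t` and the `g i`: `∑ c (g i) = lam (∑ Φ (g i)) = lam (a * Φ γ) = R a * c γ` (the additivity of `lam` on the span, `Finset` induction). -/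
theorem reduce {k : Type*} [Field k] {p : ℕ} (hp : p.Prime) [CharP k p] (R : Oc →+* k) {N : Ideal (𝓞 K)} [Group.FG (Gam0 N)]
    (Φ : Gam0 N → ℂ) (hΦ : ∀ g h, Φ (g * h) = Φ g + Φ h) (hne : ∃ g, Φ g ≠ 0) (S : Set (𝓞 K)) (a : 𝓞 K → Oc)
    (hE : ∀ π ∈ S, Eigen N π Φ (a π : ℂ)) :
    ∃ c : Gam0 N → k, (∀ g h, c (g * h) = c g + c h) ∧ (∃ g, c g ≠ 0) ∧ ∀ π ∈ S, Eigen N π c (R (a π)) := by
  have hmax := ker_red_max hp R
  have htf : ∀ (x : Oc) (v : ℂ), x • v = 0 → x = 0 ∨ v = 0 := by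
    intro x v h
    have h1 : (x : ℂ) * v = 0 := h
    rcases mul_eq_zero.1 h1 with h2 | h2
    · exact Or.inl (Subtype.ext h2)
    · exact Or.inr h2
  obtain ⟨g₁, hg₁⟩ := hne
  obtain ⟨lam, h1, h2, v, ⟨g₀, rfl⟩, h3⟩ := exists_functional (O := Oc) (V := ℂ) (k := k) R hmax htf (Set.range Φ)
    (fg_range Φ hΦ) ⟨Φ g₁, ⟨g₁, rfl⟩, hg₁⟩
  have hmem : ∀ g, Φ g ∈ Submodule.span Oc (Set.range Φ) := fun g => Submodule.subset_span ⟨g, rfl⟩
  have h0 : lam 0 = 0 := by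
    have h4 := h2 0 0 (Submodule.zero_mem _)
    rwa [zero_smul, map_zero, zero_mul] at h4
  have hsum : ∀ {ι : Type} (s : Finset ι) (f : ι → Gam0 N), lam (∑ i ∈ s, Φ (f i)) = ∑ i ∈ s, lam (Φ (f i)) := by
    intro ι s f
    classical
    induction s using Finset.induction_on with
    | empty => rw [Finset.sum_empty, Finset.sum_empty, h0]
    | insert i s hi ih =>
      rw [Finset.sum_insert hi, Finset.sum_insert hi, h1 _ (hmem _) _ (Submodule.sum_mem _ fun j _ => hmem _), ih]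
  refine ⟨fun g => lam (Φ g), fun g h => ?_, ⟨g₀, h3⟩, fun π hπ => ?_⟩
  · change lam (Φ (g * h)) = lam (Φ g) + lam (Φ h)
    rw [hΦ, h1 _ (hmem g) _ (hmem h)]
  · obtain ⟨r, δ, e1, e2, e3⟩ := hE π hπ
    refine ⟨r, δ, e1, e2, fun γ => ?_⟩
    obtain ⟨t, g, e4, e5⟩ := e3 γ
    refine ⟨t, g, e4, ?_⟩
    have e6 : (a π : ℂ) * Φ γ = a π • Φ γ := rfl
    have e7 := h2 (a π) (Φ γ) (hmem γ)
    rw [← e6, ← e5, hsum] at e7
    exact e7

end Pool.Agent.H2S
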