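import Pool.Agent.Lib.H2S.A2
import Pool.Agent.Lib.H2S.A8
import Pool.Agent.Lib.H2S.A9
import Pool.Agent.Lib.H2S.K10
import Pool.Agent.Lib.H2S.R2
import Pool.Agent.Lib.H2S.N4

/-!
# AFin: the theorem for the data `ModChi` (module A, helper21)
-/

set_option autoImplicit false
namespace Pool.Agent.H2S
open Complex NumberField

variable {K L : Type} [Field K] [NumberField K] [Field L] [NumberField L] [Algebra K L]
  {F : Fld K L} {m : Ideal (𝓞 L)} {p : ℕ}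

theorem modchi_main {k : Type} [Field k] (X : ModChi F m p k) :
    ∃ c : Gam0 (lev K m) → k, (∀ g h, c (g * h) = c g + c h) ∧ (∃ g, c g ≠ 0) ∧
      ∀ π : 𝓞 K, GoodPrime m p π → Eigen (lev K m) π c
        (∑ᶠ a ∈ {a : Ideal (𝓞 L) | Ideal.relNorm (𝓞 K) a = Ideal.span {π}}, X.χ a) := by
  obtain ⟨Ψ, R, hR⟩ := X.lift
  obtain ⟨δ, hδ, hd⟩ := F.exists_delta
  obtain ⟨Φ, hΦ, hadd⟩ := exists_Phi Ψ δ hδ hd
  have hne : ∃ g, Φ g ≠ 0 := by
    by_contra hc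
    push Not at hc
    refine FF_inv_false Ψ δ hδ hd (fun g P hP => ?_)
    rw [hΦ g P hP, hc g, add_zero]
  have hfg := F.fg_Gam0 (lev_ne_bot Ψ)
  have := X.char
  obtain ⟨c, hc1, hc2, hc3⟩ := reduce X.pprime R Φ hadd hne {π | GoodPrime m p π}
    (fun π => ⟨Ψ.A (Ideal.span {π}), Ψ.A_int _⟩)
    (fun π hπ => FF_eigen Ψ δ hδ hd Φ hΦ π hπ)
  refine ⟨c, hc1, hc2, fun π hπ => ?_⟩
  rw [← A_red Ψ X.χ R hR π hπ]
  exact hc3 π hπ

end Pool.Agent.H2S
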