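import Mathlib

/-!
# B4: generators from a covering
-/

set_option autoImplicit false
namespace Pool.Agent.H2S

/-- PROOF. Let `H` be the subgroup generated by `S = {g | ∃ x ∈ U, g • x ∈ U}`.  `A = ⋃ (h ∈ H) h U` and `B = ⋃ (g ∉ H) g U` are open (`act g` is a
homeomorphism: its inverse is `act g⁻¹`), cover `X`, and are disjoint: if `h u = g u'` then `h⁻¹ g u' = u ∈ U`, so `h⁻¹ g ∈ S ⊆ H` and `g ∈ H`.
`X` is connected and `A` is not empty (`U` is not empty since `X` is not), so `B = ∅`, and `H = ⊤` as `U` is not empty. -/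
theorem gen_of_cover {G X : Type*} [Group G] [TopologicalSpace X] [PreconnectedSpace X] [Nonempty X]
    (f : G → X → X) (h1 : ∀ x, f 1 x = x) (hm : ∀ g h x, f (g * h) x = f g (f h x)) (hc : ∀ g, Continuous (f g))
    {U : Set X} (hU : IsOpen U) (hcov : ∀ x, ∃ g, f g x ∈ U) (hfin : {g : G | ∃ x ∈ U, f g x ∈ U}.Finite) :
    Group.FG G := by
  have hinv : ∀ g x, f g⁻¹ (f g x) = x := fun g x => by rw [← hm, inv_mul_cancel, h1]
  have hinv' : ∀ g x, f g (f g⁻¹ x) = x := fun g x => by rw [← hm, mul_inv_cancel, h1]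
  obtain ⟨x0⟩ := (inferInstance : Nonempty X)
  obtain ⟨g0, hg0⟩ := hcov x0
  rw [Group.fg_iff]
  refine ⟨{g : G | ∃ x ∈ U, f g x ∈ U}, ?_, hfin⟩
  obtain ⟨H, hH⟩ : ∃ H, H = Subgroup.closure {g : G | ∃ x ∈ U, f g x ∈ U} := ⟨_, rfl⟩
  rw [← hH]
  have hS : ∀ g, (∃ x ∈ U, f g x ∈ U) → g ∈ H := fun g hg => by
    rw [hH]
    exact Subgroup.subset_closure hg
  have hA : IsOpen (⋃ g ∈ H, (f g) ⁻¹' U) := isOpen_biUnion fun g _ => hU.preimage (hc g)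
  have hB : IsOpen (⋃ g ∈ {g | g ∉ H}, (f g) ⁻¹' U) := isOpen_biUnion fun g _ => hU.preimage (hc g)
  have hAB : (Set.univ : Set X) ⊆ (⋃ g ∈ H, (f g) ⁻¹' U) ∪ ⋃ g ∈ {g | g ∉ H}, (f g) ⁻¹' U := by
    intro x _
    obtain ⟨g, hg⟩ := hcov x
    by_cases h : g ∈ H
    · exact Or.inl (Set.mem_biUnion h hg)
    · exact Or.inr (Set.mem_biUnion (show g ∈ {g | g ∉ H} from h) hg)
  rw [eq_top_iff]
  intro g _
  by_contra hg
  have hBne : (Set.univ ∩ ⋃ g ∈ {g | g ∉ H}, (f g) ⁻¹' U).Nonempty := by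
    refine ⟨f g⁻¹ (f g0 x0), Set.mem_univ _, Set.mem_biUnion (show g ∈ {g | g ∉ H} from hg) ?_⟩
    rw [Set.mem_preimage, hinv']
    exact hg0
  have hAne : (Set.univ ∩ ⋃ g ∈ H, (f g) ⁻¹' U).Nonempty := by
    refine ⟨f g0 x0, Set.mem_univ _, Set.mem_biUnion (H.one_mem) ?_⟩
    rw [Set.mem_preimage, h1]
    exact hg0
  obtain ⟨x, _, hxA, hxB⟩ := isPreconnected_univ _ _ hA hB hAB hAne hBne
  obtain ⟨h, hhH, hhx⟩ := Set.mem_iUnion₂.1 hxA
  obtain ⟨k, hkH, hkx⟩ := Set.mem_iUnion₂.1 hxB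
  apply hkH
  have h2 : k * h⁻¹ ∈ H := by
    refine hS _ ⟨f h x, hhx, ?_⟩
    rw [hm, hinv]
    exact hkx
  have h3 := H.mul_mem h2 hhH
  rwa [inv_mul_cancel_right] at h3

end Pool.Agent.H2S
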