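import Pool.Agent.Lib.H2S.B2

/-!
# B5: the Siegel property
-/

set_option autoImplicit false
namespace Pool.Agent.H2S
open Complex NumberField

variable {K L : Type*} [Field K] [NumberField K] [Field L] [NumberField L] [Algebra K L]

/-- The bounds for the lower row. -/
theorem b5_low {M : Matrix (Fin 2) (Fin 2) ℂ} (hM : ‖M.det‖ = 1) {t₁ R : ℝ} (h : 0 < t₁) {P : ℂ × ℝ}
    (h1 : t₁ < P.2) (h2 : ‖P.1‖ < R) (h3 : t₁ < (act M P).2)
    (hc : 1 ≤ ‖M 1 0‖ ∨ (M 1 0 = 0 ∧ ‖M 1 1‖ = 1)) :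
    ‖M 1 0‖ ≤ 1 + (1 + R) / t₁ ∧ ‖M 1 1‖ ≤ 1 + (1 + R) / t₁ := by
  have hR : 0 < R := lt_of_le_of_lt (norm_nonneg _) h2
  have ht : 0 < P.2 := lt_trans h h1
  set D : ℝ := ‖M 1 0 * P.1 + M 1 1‖ ^ 2 + ‖M 1 0‖ ^ 2 * P.2 ^ 2 with hDdef
  have h4 : (act M P).2 = P.2 / D := by
    simp only [act, hM, one_mul, hDdef]
  rw [h4] at h3
  have hD0 : 0 ≤ D := by positivity
  have hD : 0 < D := by
    rcases hD0.lt_or_eq with h5 | h5
    · exact h5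
    · rw [← h5, div_zero] at h3
      exact absurd h3 (not_lt.2 h.le)
  have h5 : t₁ * D < P.2 := (lt_div_iff₀ hD).1 h3
  have h6 : ‖M 1 0‖ ^ 2 * P.2 ^ 2 ≤ D := by
    have := sq_nonneg (‖M 1 0 * P.1 + M 1 1‖)
    linarith
  have h7 : ‖M 1 0 * P.1 + M 1 1‖ ^ 2 ≤ D := by
    have : 0 ≤ ‖M 1 0‖ ^ 2 * P.2 ^ 2 := by positivity
    linarith
  have h8 : ‖M 1 0‖ ^ 2 * P.2 * t₁ < 1 := by
    have h9 : (‖M 1 0‖ ^ 2 * P.2 * t₁) * P.2 < 1 * P.2 := by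
      calc (‖M 1 0‖ ^ 2 * P.2 * t₁) * P.2 = t₁ * (‖M 1 0‖ ^ 2 * P.2 ^ 2) := by ring
        _ ≤ t₁ * D := mul_le_mul_of_nonneg_left h6 h.le
        _ < 1 * P.2 := by rw [one_mul]; exact h5
    exact lt_of_mul_lt_mul_right h9 ht.le
  have h9 : ‖M 1 0‖ * t₁ < 1 := by
    have h10 : (‖M 1 0‖ * t₁) ^ 2 < 1 := by
      calc (‖M 1 0‖ * t₁) ^ 2 = ‖M 1 0‖ ^ 2 * t₁ * t₁ := by ring
        _ ≤ ‖M 1 0‖ ^ 2 * P.2 * t₁ := by
          apply mul_le_mul_of_nonneg_right _ h.le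
          exact mul_le_mul_of_nonneg_left h1.le (sq_nonneg _)
        _ < 1 := h8
    nlinarith [mul_nonneg (norm_nonneg (M 1 0)) h.le]
  have hB : ∀ x : ℝ, x * t₁ ≤ 1 + R → x ≤ 1 + (1 + R) / t₁ := by
    intro x hx
    have := (le_div_iff₀ h).2 hx
    linarith
  refine ⟨hB _ (by linarith), ?_⟩
  rcases hc with hc | ⟨hc, hd⟩
  · have h10 : P.2 * t₁ < 1 := by
      have h11 : P.2 * t₁ ≤ ‖M 1 0‖ ^ 2 * P.2 * t₁ := by
        have h12 : 1 ≤ ‖M 1 0‖ ^ 2 := by nlinarith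
        have h13 : 0 ≤ P.2 * t₁ := by positivity
        nlinarith
      linarith
    have h11 : ‖M 1 0 * P.1 + M 1 1‖ * t₁ < 1 := by
      have h12 : (‖M 1 0 * P.1 + M 1 1‖ * t₁) ^ 2 < 1 := by
        calc (‖M 1 0 * P.1 + M 1 1‖ * t₁) ^ 2 = t₁ * (t₁ * ‖M 1 0 * P.1 + M 1 1‖ ^ 2) := by ring
          _ ≤ t₁ * (t₁ * D) := by
            apply mul_le_mul_of_nonneg_left _ h.le
            exact mul_le_mul_of_nonneg_left h7 h.le
          _ ≤ t₁ * P.2 := mul_le_mul_of_nonneg_left h5.le h.le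
          _ < 1 := by rw [mul_comm]; exact h10
      nlinarith [mul_nonneg (norm_nonneg (M 1 0 * P.1 + M 1 1)) h.le]
    apply hB
    have h12 : ‖M 1 1‖ ≤ ‖M 1 0 * P.1 + M 1 1‖ + ‖M 1 0‖ * ‖P.1‖ := by
      have h13 : M 1 1 = (M 1 0 * P.1 + M 1 1) - M 1 0 * P.1 := by ring
      calc ‖M 1 1‖ = ‖(M 1 0 * P.1 + M 1 1) - M 1 0 * P.1‖ := by rw [← h13]
        _ ≤ ‖M 1 0 * P.1 + M 1 1‖ + ‖M 1 0 * P.1‖ := norm_sub_le _ _
        _ = _ := by rw [norm_mul (M 1 0) P.1]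
    calc ‖M 1 1‖ * t₁ ≤ (‖M 1 0 * P.1 + M 1 1‖ + ‖M 1 0‖ * ‖P.1‖) * t₁ := mul_le_mul_of_nonneg_right h12 h.le
      _ = ‖M 1 0 * P.1 + M 1 1‖ * t₁ + (‖M 1 0‖ * t₁) * ‖P.1‖ := by ring
      _ ≤ 1 + 1 * R := by
        apply add_le_add h11.le
        exact mul_le_mul h9.le h2.le (norm_nonneg _) zero_le_one
      _ = 1 + R := by ring
  · rw [hd]
    have : 0 ≤ (1 + R) / t₁ := by positivity
    linarith

/-- The matrix over `ℂ`. -/
noncomputable abbrev b5_m (F : Fld K L) (g : GL (Fin 2) (𝓞 K)) : Matrix (Fin 2) (Fin 2) ℂ :=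
  (g : Matrix (Fin 2) (Fin 2) (𝓞 K)).map fun a => F.sK (a : K)

theorem b5_det (F : Fld K L) (g : GL (Fin 2) (𝓞 K)) :
    (b5_m F g).det = F.sK (((g : Matrix (Fin 2) (Fin 2) (𝓞 K)).det : 𝓞 K) : K) := by
  rw [Matrix.det_fin_two, Matrix.det_fin_two]
  simp only [b5_m, Matrix.map_apply]
  push_cast
  simp only [map_sub, map_mul]

theorem b5_normdet (F : Fld K L) (g : GL (Fin 2) (𝓞 K)) : ‖(b5_m F g).det‖ = 1 := by
  rw [b5_det]
  have h := F.norm_unit (Matrix.GeneralLinearGroup.det g)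
  exact h

theorem b5_case (F : Fld K L) (g : GL (Fin 2) (𝓞 K)) :
    1 ≤ ‖b5_m F g 1 0‖ ∨ (b5_m F g 1 0 = 0 ∧ ‖b5_m F g 1 1‖ = 1) := by
  by_cases hc : (g : Matrix (Fin 2) (Fin 2) (𝓞 K)) 1 0 = 0
  · right
    refine ⟨by simp [b5_m, Matrix.map_apply, hc], ?_⟩
    have h1 : IsUnit ((g : Matrix (Fin 2) (Fin 2) (𝓞 K)).det) :=
      (Matrix.GeneralLinearGroup.det g).isUnit
    rw [Matrix.det_fin_two, hc, mul_zero, sub_zero] at h1
    have h2 : IsUnit ((g : Matrix (Fin 2) (Fin 2) (𝓞 K)) 1 1) := isUnit_of_mul_isUnit_right h1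
    obtain ⟨u, hu⟩ := h2
    have h3 := F.norm_unit u
    rw [hu] at h3
    exact h3
  · left
    exact F.one_le hc

theorem b5_mul (F : Fld K L) (g g' : GL (Fin 2) (𝓞 K)) : b5_m F (g * g') = b5_m F g * b5_m F g' := by
  ext i j
  simp only [b5_m, Matrix.map_apply, Matrix.mul_apply, Matrix.GeneralLinearGroup.coe_mul, Fin.sum_univ_two]
  push_cast
  simp only [map_add, map_mul]

theorem b5_one (F : Fld K L) : b5_m F 1 = 1 := by
  ext i j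
  fin_cases i <;> fin_cases j <;> simp [b5_m, Matrix.map_apply]

/-- The lower right entry of the inverse. -/
theorem b5_inv (F : Fld K L) (g : GL (Fin 2) (𝓞 K)) : ‖b5_m F g⁻¹ 1 1‖ = ‖b5_m F g 0 0‖ := by
  have h1 : b5_m F g⁻¹ * b5_m F g = 1 := by
    rw [← b5_mul, inv_mul_cancel, b5_one]
  have h2 := congrFun (congrFun h1 1) 0
  have h3 := congrFun (congrFun h1 1) 1
  rw [Matrix.mul_apply, Fin.sum_univ_two] at h2 h3
  have h4 : b5_m F g⁻¹ 1 1 * (b5_m F g).det = b5_m F g 0 0 := by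
    rw [Matrix.det_fin_two]
    have h5 : (1 : Matrix (Fin 2) (Fin 2) ℂ) 1 0 = 0 := by simp
    have h6 : (1 : Matrix (Fin 2) (Fin 2) ℂ) 1 1 = 1 := by simp
    rw [h5] at h2
    rw [h6] at h3
    linear_combination (b5_m F g 0 0) * h3 - (b5_m F g 0 1) * h2
  rw [← h4, norm_mul, b5_normdet, mul_one]

/-- The inverse is in the same set. -/
theorem b5_back (F : Fld K L) (g : GL (Fin 2) (𝓞 K)) {P : ℂ × ℝ} (hP : 0 < P.2) :
    act (b5_m F g⁻¹) (act (b5_m F g) P) = P := by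
  have h0 : ∀ g : GL (Fin 2) (𝓞 K), (b5_m F g).det ≠ 0 := by
    intro g hg
    have := b5_normdet F g
    rw [hg, norm_zero] at this
    exact zero_ne_one this
  rw [← act_mul (h0 _) (h0 _) hP, ← b5_mul, inv_mul_cancel, b5_one, act_one]

/-- PROOF. Let `g = (a b; c d)`, `P = (z, t)`, `g P = (z', t')`, both in the set.  `|det g| = 1` (`Fld.norm_unit`), `t' = t / D`,
`D = |c z + d|² + |c|² t²`.  `|c|² t² ≤ D = t / t' < t / t₁`, so `|c|² < 1 / (t t₁) < 1 / t₁²`: finitely many `c` (`Fld.finite_le`).  If `c ≠ 0` then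
`|c| ≥ 1`, `t < 1 / t₁` and `|c z + d|² ≤ D < t / t₁ < 1 / t₁²`: finitely many `d`.  If `c = 0` then `d` is a unit (finitely many, `Fld.units_finite`).
The same argument for `g⁻¹ = (det g)⁻¹ (d -b; -c a)`: finitely many `a` (divide by the finitely many units `det g`).  `b`: if `c ≠ 0` it is determined by
`a, c, d, det g`; if `c = 0`, `z' = (a z + b) / d` bounds `b`. -/
theorem Fld.siegel (F : Fld K L) (t₁ R : ℝ) (h : 0 < t₁) :
    {g : GL (Fin 2) (𝓞 K) | ∃ P : ℂ × ℝ, (t₁ < P.2 ∧ ‖P.1‖ < R) ∧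
      t₁ < (actO F.sK (g : Matrix (Fin 2) (Fin 2) (𝓞 K)) P).2 ∧
      ‖(actO F.sK (g : Matrix (Fin 2) (Fin 2) (𝓞 K)) P).1‖ < R}.Finite := by
  set B : ℝ := 1 + (1 + R) / t₁ with hB
  set B2 : ℝ := B + (B * B + 1 + R + B * R) with hB2
  have hfin : {M : Fin 2 → Fin 2 → 𝓞 K | ∀ i, M i ∈ {f : Fin 2 → 𝓞 K | ∀ j, f j ∈ {a : 𝓞 K | ‖F.sK (a : K)‖ ≤ B2}}}.Finite :=
    Set.Finite.pi' (fun _ => Set.Finite.pi' (fun _ => F.finite_le B2))
  have hpre : ((fun g : GL (Fin 2) (𝓞 K) => (g : Matrix (Fin 2) (Fin 2) (𝓞 K))) ⁻¹'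
      {M : Fin 2 → Fin 2 → 𝓞 K | ∀ i, M i ∈ {f : Fin 2 → 𝓞 K | ∀ j, f j ∈ {a : 𝓞 K | ‖F.sK (a : K)‖ ≤ B2}}}).Finite :=
    Set.Finite.preimage (Set.injOn_of_injective Units.val_injective) hfin
  refine hpre.subset ?_
  rintro g ⟨P, ⟨h1, h2⟩, h3, h4⟩
  have hR : 0 < R := lt_of_le_of_lt (norm_nonneg _) h2
  have hB0 : 0 ≤ B := by positivity
  have ht : 0 < P.2 := lt_trans h h1
  change t₁ < (act (b5_m F g) P).2 at h3
  change ‖(act (b5_m F g) P).1‖ < R at h4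
  obtain ⟨hc, hd⟩ := b5_low (b5_normdet F g) h h1 h2 h3 (b5_case F g)
  have h5 : t₁ < (act (b5_m F g⁻¹) (act (b5_m F g) P)).2 := by
    rw [b5_back F g ht]; exact h1
  obtain ⟨_, ha⟩ := b5_low (b5_normdet F g⁻¹) h h3 h4 h5 (b5_case F g⁻¹)
  rw [b5_inv] at ha
  have hb : ‖b5_m F g 0 1‖ ≤ B * B + 1 + R + B * R := by
    rcases b5_case F g with hc1 | ⟨hc1, hd1⟩
    · have h6 : b5_m F g 0 1 * b5_m F g 1 0 = b5_m F g 0 0 * b5_m F g 1 1 - (b5_m F g).det := by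
        rw [Matrix.det_fin_two]; ring
      have h7 : ‖b5_m F g 0 1‖ * ‖b5_m F g 1 0‖ ≤ B * B + 1 := by
        rw [← norm_mul, h6]
        refine le_trans (norm_sub_le _ _) ?_
        rw [b5_normdet, norm_mul]
        exact add_le_add_left (mul_le_mul ha hd (norm_nonneg _) hB0) 1
      have h8 : ‖b5_m F g 0 1‖ ≤ ‖b5_m F g 0 1‖ * ‖b5_m F g 1 0‖ :=
        le_mul_of_one_le_right (norm_nonneg _) hc1
      have h9 : 0 ≤ B * R := by positivity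
      linarith
    · have h6 : ‖(act (b5_m F g) P).1‖ = ‖b5_m F g 0 0 * P.1 + b5_m F g 0 1‖ := by
        have h7 : ‖(starRingEnd ℂ) (b5_m F g 1 1)‖ = 1 := by rw [RCLike.norm_conj, hd1]
        generalize b5_m F g = M at *
        simp only [act, hc1, zero_mul, zero_add, norm_zero, map_zero, mul_zero, add_zero, hd1]
        rw [norm_div, norm_mul, h7]
        simp
      rw [h6] at h4
      have h7 : ‖b5_m F g 0 1‖ ≤ ‖b5_m F g 0 0 * P.1 + b5_m F g 0 1‖ + ‖b5_m F g 0 0‖ * ‖P.1‖ := by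
        have h13 : b5_m F g 0 1 = (b5_m F g 0 0 * P.1 + b5_m F g 0 1) - b5_m F g 0 0 * P.1 := by ring
        calc ‖b5_m F g 0 1‖ = ‖(b5_m F g 0 0 * P.1 + b5_m F g 0 1) - b5_m F g 0 0 * P.1‖ := by rw [← h13]
          _ ≤ ‖b5_m F g 0 0 * P.1 + b5_m F g 0 1‖ + ‖b5_m F g 0 0 * P.1‖ := norm_sub_le _ _
          _ = _ := by rw [norm_mul (b5_m F g 0 0) P.1]
      have h8 : ‖b5_m F g 0 0‖ * ‖P.1‖ ≤ B * R := mul_le_mul ha h2.le (norm_nonneg _) hB0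
      nlinarith [mul_nonneg hB0 hB0]
  have hBB : 0 ≤ B * B + 1 + R + B * R := by positivity
  intro i j
  change ‖b5_m F g i j‖ ≤ B2
  fin_cases i <;> fin_cases j
  · exact le_trans ha (by simp only [hB2]; linarith)
  · exact le_trans hb (by simp only [hB2]; linarith)
  · exact le_trans hc (by simp only [hB2]; linarith)
  · exact le_trans hd (by simp only [hB2]; linarith)

end Pool.Agent.H2S
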