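import Pool.Agent.Lib.H2S.B3
import Pool.Agent.Lib.H2S.B4
import Pool.Agent.Lib.H2S.B5

/-!
# B6: finite generation
-/

set_option autoImplicit false
namespace Pool.Agent.H2S
open Complex NumberField

variable {K L : Type*} [Field K] [NumberField K] [Field L] [NumberField L] [Algebra K L]

theorem b6_det (σ : K →+* ℂ) {g : Matrix (Fin 2) (Fin 2) (𝓞 K)} (hg : g.det ≠ 0) :
    (g.map fun a => σ (a : K)).det ≠ 0 := by
  have h1 : (g.map fun a => σ (a : K)).det = σ ((g.det : 𝓞 K) : K) := by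
    rw [Matrix.det_fin_two, Matrix.det_fin_two]
    simp [Matrix.map_apply]
  rw [h1]
  intro h2
  apply hg
  have h3 : ((g.det : 𝓞 K) : K) = 0 := (map_eq_zero σ).1 h2
  exact_mod_cast h3

theorem b6_mul (σ : K →+* ℂ) (g h : Matrix (Fin 2) (Fin 2) (𝓞 K)) :
    ((g * h).map fun a => σ (a : K)) = (g.map fun a => σ (a : K)) * (h.map fun a => σ (a : K)) := by
  ext i j
  simp [Matrix.mul_apply, Fin.sum_univ_two]

theorem b6_D {g : Matrix (Fin 2) (Fin 2) ℂ} (hg : g.det ≠ 0) {P : ℂ × ℝ} (hP : P ∈ H3) :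
    0 < ‖g 1 0 * P.1 + g 1 1‖ ^ 2 + ‖g 1 0‖ ^ 2 * P.2 ^ 2 := by
  have ht : 0 < P.2 := hP
  by_cases hc : g 1 0 = 0
  · have hd : g 1 1 ≠ 0 := by
      intro hd
      apply hg
      rw [Matrix.det_fin_two, hc, hd]
      ring
    rw [hc, zero_mul, zero_add, norm_zero]
    have : 0 < ‖g 1 1‖ := norm_pos_iff.2 hd
    positivity
  · have : 0 < ‖g 1 0‖ := norm_pos_iff.2 hc
    positivity

theorem b6_cont {g : Matrix (Fin 2) (Fin 2) ℂ} (hg : g.det ≠ 0) : Continuous fun P : H3 => act g P.1 := by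
  have hD : ∀ P : H3, ‖g 1 0 * P.1.1 + g 1 1‖ ^ 2 + ‖g 1 0‖ ^ 2 * P.1.2 ^ 2 ≠ 0 := fun P => (b6_D hg P.2).ne'
  have h1 : Continuous fun P : H3 => P.1.1 := continuous_fst.comp continuous_subtype_val
  have h2 : Continuous fun P : H3 => P.1.2 := continuous_snd.comp continuous_subtype_val
  have hY : Continuous fun P : H3 => g 1 0 * P.1.1 + g 1 1 := (continuous_const.mul h1).add continuous_const
  have hX : Continuous fun P : H3 => g 0 0 * P.1.1 + g 0 1 := (continuous_const.mul h1).add continuous_const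
  have hDc : Continuous fun P : H3 => ‖g 1 0 * P.1.1 + g 1 1‖ ^ 2 + ‖g 1 0‖ ^ 2 * P.1.2 ^ 2 :=
    (hY.norm.pow 2).add (continuous_const.mul (h2.pow 2))
  have hN : Continuous fun P : H3 => (g 0 0 * P.1.1 + g 0 1) * (starRingEnd ℂ) (g 1 0 * P.1.1 + g 1 1) +
      g 0 0 * (starRingEnd ℂ) (g 1 0) * (P.1.2 : ℂ) ^ 2 :=
    (hX.mul (Complex.continuous_conj.comp hY)).add
      (continuous_const.mul ((Complex.continuous_ofReal.comp h2).pow 2))
  have h3 : Continuous fun P : H3 => ((g 0 0 * P.1.1 + g 0 1) * (starRingEnd ℂ) (g 1 0 * P.1.1 + g 1 1) +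
      g 0 0 * (starRingEnd ℂ) (g 1 0) * (P.1.2 : ℂ) ^ 2) /
      ((‖g 1 0 * P.1.1 + g 1 1‖ ^ 2 + ‖g 1 0‖ ^ 2 * P.1.2 ^ 2 : ℝ) : ℂ) :=
    hN.div (Complex.continuous_ofReal.comp hDc) fun P => by exact_mod_cast hD P
  have h4 : Continuous fun P : H3 => ‖g.det‖ * P.1.2 / (‖g 1 0 * P.1.1 + g 1 1‖ ^ 2 + ‖g 1 0‖ ^ 2 * P.1.2 ^ 2) :=
    (continuous_const.mul h2).div hDc hD
  exact h3.prodMk h4

/-- The matrix of a product, for `actO`.  PROOF. `act_mul`, `Matrix.map_mul`; the determinants of the images are not `0`. -/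
theorem actO_mul (σ : K →+* ℂ) {g h : Matrix (Fin 2) (Fin 2) (𝓞 K)} (hg : g.det ≠ 0) (hh : h.det ≠ 0) {P : ℂ × ℝ}
    (hP : P ∈ H3) : actO σ (g * h) P = actO σ g (actO σ h P) := by
  unfold actO
  rw [b6_mul, act_mul (b6_det σ hg) (b6_det σ hh) hP]

theorem actO_mem (σ : K →+* ℂ) {g : Matrix (Fin 2) (Fin 2) (𝓞 K)} (hg : g.det ≠ 0) {P : ℂ × ℝ} (hP : P ∈ H3) :
    actO σ g P ∈ H3 := by
  unfold actO
  exact act_mem (b6_det σ hg) hP

theorem b6_gdet (g : GL (Fin 2) (𝓞 K)) : (g : Matrix (Fin 2) (Fin 2) (𝓞 K)).det ≠ 0 :=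
  ((Matrix.isUnit_iff_isUnit_det _).1 g.isUnit).ne_zero

/-- PROOF. `gen_of_cover` (B4) with `X = H3` (a subtype; it is convex, so connected: `Convex.isPreconnected`, `Subtype.preconnectedSpace`), `f g = actO`
of the matrix `g` (`actO_mul`, `actO_mem`, continuity on `H3`: the denominator is positive), `U = {P | t₀ / 2 < t, |z| < R}` with `t₀` of `Fld.covering` and
`R` of `Fld.cover`: for `P ∈ H3` take `g` of determinant one with `t (g P) ≥ t₀` and then a translation `(1 a; 0 1)`.  `Fld.siegel` gives the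
finiteness. -/
theorem Fld.fg_GL (F : Fld K L) : Group.FG (GL (Fin 2) (𝓞 K)) := by
  obtain ⟨t₀, ht₀, hcov⟩ := F.covering
  obtain ⟨R, hR⟩ := F.cover
  have hconv : Convex ℝ H3 := by
    intro P hP Q hQ a b ha hb hab
    have hP' : 0 < P.2 := hP
    have hQ' : 0 < Q.2 := hQ
    show 0 < (a • P + b • Q).2
    rw [Prod.snd_add, Prod.smul_snd, Prod.smul_snd, smul_eq_mul, smul_eq_mul]
    rcases ha.eq_or_lt with h | h
    · have hb1 : b = 1 := by rw [← h, zero_add] at hab; exact hab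
      rw [← h, hb1]
      linarith
    · have h1 : 0 < a * P.2 := mul_pos h hP'
      have h2 : 0 ≤ b * Q.2 := mul_nonneg hb hQ'.le
      linarith
  have hpre : PreconnectedSpace H3 := Subtype.preconnectedSpace hconv.isPreconnected
  have hne : Nonempty H3 := ⟨⟨(0, 1), show (0:ℝ) < 1 from one_pos⟩⟩
  let f : GL (Fin 2) (𝓞 K) → H3 → H3 := fun g P =>
    ⟨actO F.sK (g : Matrix (Fin 2) (Fin 2) (𝓞 K)) P.1, actO_mem F.sK (b6_gdet g) P.2⟩
  refine gen_of_cover f (fun x => ?_) (fun g h x => ?_) (fun g => ?_)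
    (U := {P : H3 | t₀ / 2 < P.1.2 ∧ ‖P.1.1‖ < R}) ?_ (fun x => ?_) ?_
  · apply Subtype.ext
    show actO F.sK (1 : Matrix (Fin 2) (Fin 2) (𝓞 K)) x.1 = x.1
    unfold actO
    have h1 : ((1 : Matrix (Fin 2) (Fin 2) (𝓞 K)).map fun a => F.sK (a : K)) = 1 := by
      ext i j
      fin_cases i <;> fin_cases j <;> simp
    rw [h1, act_one]
  · apply Subtype.ext
    show actO F.sK ((g : Matrix (Fin 2) (Fin 2) (𝓞 K)) * (h : Matrix (Fin 2) (Fin 2) (𝓞 K))) x.1 = _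
    exact actO_mul F.sK (b6_gdet g) (b6_gdet h) x.2
  · exact Continuous.subtype_mk (b6_cont (b6_det F.sK (b6_gdet g))) _
  · have h1 : Continuous fun P : H3 => P.1.1 := continuous_fst.comp continuous_subtype_val
    have h2 : Continuous fun P : H3 => P.1.2 := continuous_snd.comp continuous_subtype_val
    exact (isOpen_lt continuous_const h2).inter (isOpen_lt h1.norm continuous_const)
  · obtain ⟨g, hg, ht⟩ := hcov x.1 x.2
    obtain ⟨a, ha⟩ := hR (actO F.sK g x.1).1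
    have hn : (!![1, a; 0, 1] : Matrix (Fin 2) (Fin 2) (𝓞 K)).det = 1 := by
      rw [Matrix.det_fin_two_of]
      ring
    have hng : (!![1, a; 0, 1] * g : Matrix (Fin 2) (Fin 2) (𝓞 K)).det = 1 := by
      rw [Matrix.det_mul, hn, hg, one_mul]
    obtain ⟨u, hu⟩ := (Matrix.isUnit_iff_isUnit_det (!![1, a; 0, 1] * g : Matrix (Fin 2) (Fin 2) (𝓞 K))).2
      (by rw [hng]; exact isUnit_one)
    refine ⟨u, ?_⟩
    have h1 : actO F.sK (u : Matrix (Fin 2) (Fin 2) (𝓞 K)) x.1 =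
        ((actO F.sK g x.1).1 + F.sK (a : K), (actO F.sK g x.1).2) := by
      rw [hu, actO_mul F.sK (by rw [hn]; exact one_ne_zero) (by rw [hg]; exact one_ne_zero) x.2]
      have h2 : ((!![1, a; 0, 1] : Matrix (Fin 2) (Fin 2) (𝓞 K)).map fun a => F.sK (a : K)) =
          !![1, F.sK (a : K); 0, 1] := by
        ext i j
        fin_cases i <;> fin_cases j <;> simp
      rw [show actO F.sK !![1, a; 0, 1] (actO F.sK g x.1) =
        act ((!![1, a; 0, 1] : Matrix (Fin 2) (Fin 2) (𝓞 K)).map fun a => F.sK (a : K)) (actO F.sK g x.1) from rfl,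
        h2, act_n]
    show t₀ / 2 < (actO F.sK (u : Matrix (Fin 2) (Fin 2) (𝓞 K)) x.1).2 ∧
      ‖(actO F.sK (u : Matrix (Fin 2) (Fin 2) (𝓞 K)) x.1).1‖ < R
    rw [h1]
    exact ⟨by show t₀ / 2 < (actO F.sK g x.1).2; linarith, ha⟩
  · refine (F.siegel (t₀ / 2) R (by linarith)).subset ?_
    rintro g ⟨P, hP, hgP⟩
    exact ⟨P.1, hP, hgP.1, hgP.2⟩

/-- PROOF. `Γ₀(N)` contains the kernel of `GL₂ (𝓞 K) → GL₂ (𝓞 K / N)` (a finite group: `𝓞 K / N` is finite, `Ideal.fintypeQuotientOfFreeOfNeBot` or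
`Ideal.finiteQuotientOfFreeOfNeBot`), so it has finite index (`Subgroup.finiteIndex_ker`, `Subgroup.finiteIndex_of_le`). -/
theorem Gam0_finiteIndex {N : Ideal (𝓞 K)} (hN : N ≠ ⊥) : (Gam0 N).FiniteIndex := by
  have hfin : Finite (𝓞 K ⧸ N) := Ideal.finiteQuotientOfFreeOfNeBot N hN
  have hfinM : Finite (Matrix (Fin 2) (Fin 2) (𝓞 K ⧸ N)) := by
    unfold Matrix
    infer_instance
  have hfinG : Finite (GL (Fin 2) (𝓞 K ⧸ N)) := inferInstanceAs (Finite (Matrix (Fin 2) (Fin 2) (𝓞 K ⧸ N))ˣ)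
  let φ : GL (Fin 2) (𝓞 K) →* GL (Fin 2) (𝓞 K ⧸ N) := Matrix.GeneralLinearGroup.map (Ideal.Quotient.mk N)
  have hk : φ.ker.FiniteIndex := Subgroup.finiteIndex_ker φ
  refine Subgroup.finiteIndex_of_le (H := φ.ker) ?_
  intro g hg
  show (g : Matrix (Fin 2) (Fin 2) (𝓞 K)) 1 0 ∈ N
  rw [← Ideal.Quotient.eq_zero_iff_mem]
  have h1 : φ g = 1 := hg
  have h2 : (φ g : Matrix (Fin 2) (Fin 2) (𝓞 K ⧸ N)) 1 0 = (1 : Matrix (Fin 2) (Fin 2) (𝓞 K ⧸ N)) 1 0 := by
    rw [h1]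
    rfl
  rw [Matrix.one_apply_ne (by decide)] at h2
  exact h2

/-- PROOF. A subgroup of finite index of a finitely generated group is finitely generated (`Subgroup.fg_of_index_ne_zero`). -/
theorem Fld.fg_Gam0 (F : Fld K L) {N : Ideal (𝓞 K)} (hN : N ≠ ⊥) : Group.FG (Gam0 N) := by
  have h1 : Group.FG (GL (Fin 2) (𝓞 K)) := F.fg_GL
  have h2 : (Gam0 N).FiniteIndex := Gam0_finiteIndex hN
  exact Subgroup.fg_of_index_ne_zero (Gam0 N)

end Pool.Agent.H2S
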