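import Mathlib

/-!
# H2S: definitions of the analytic part (module T)

`ℂ × ℂ` with the pairing `pr x y = 2 Re (x₁ y₂ + x₂ y₁)`; the upper half-space `H3` in `ℂ × ℝ`.
-/

set_option autoImplicit false
namespace Pool.Agent.H2S
open Complex MeasureTheory

/-- The upper half-space, in `ℂ × ℝ`. -/
def H3 : Set (ℂ × ℝ) := {P | 0 < P.2}

/-- `eT w = exp (2 π i (w + conj w))`. -/
noncomputable def eT (w : ℂ) : ℂ := Complex.exp ((4 * Real.pi * w.re : ℝ) * Complex.I)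

/-- `kap r t = ∫ exp (- t ^ 2 / (4 ρ) - 16 π ^ 2 r ^ 2 ρ) dρ` over `ρ > 0` (this is `t K₁(4 π r t) / (4 π r)`). -/
noncomputable def kap (r t : ℝ) : ℝ :=
  ∫ ρ in Set.Ioi (0 : ℝ), Real.exp (-(t ^ 2 / (4 * ρ)) - 16 * Real.pi ^ 2 * r ^ 2 * ρ)

/-- The harmonic function on `H3` attached to a point `x` of `ℂ × ℂ`. -/
noncomputable def W (P : ℂ × ℝ) (x : ℂ × ℂ) : ℂ :=
  4 * Real.pi * x.1 * (starRingEnd ℂ) x.2 * eT (P.1 * (x.1 * x.2)) * (kap ‖x.1 * x.2‖ P.2 : ℝ)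

/-- The inversion `P ↦ - P⁻¹` of the upper half-space. -/
noncomputable def wi (P : ℂ × ℝ) : ℂ × ℝ :=
  (-(starRingEnd ℂ) P.1 / ((‖P.1‖ ^ 2 + P.2 ^ 2 : ℝ) : ℂ), P.2 / (‖P.1‖ ^ 2 + P.2 ^ 2))

/-- The pairing on `ℂ × ℂ`. -/
def pr (x y : ℂ × ℂ) : ℝ := 2 * (x.1 * y.2 + x.2 * y.1).re

/-- The lattice point with coordinates `m`. -/
noncomputable def lp (b : Fin 4 → ℂ × ℂ) (m : Fin 4 → ℤ) : ℂ × ℂ := ∑ j, (m j : ℝ) • b j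

/-- The fundamental domain `|x₂| ≤ |x₁| < ρ |x₂|`. -/
def Fd (ρ : ℝ) : Set (ℂ × ℂ) := {x | ‖x.2‖ ≤ ‖x.1‖ ∧ ‖x.1‖ < ρ * ‖x.2‖}

/-- The sum of `φ m * W P x`, `x` running over the lattice points in the fundamental domain. -/
noncomputable def G (ρ : ℝ) (b : Fin 4 → ℂ × ℂ) (φ : (Fin 4 → ℤ) → ℂ) (P : ℂ × ℝ) : ℂ :=
  ∑' m : Fin 4 → ℤ, (Fd ρ).indicator (fun x => φ m * W P x) (lp b m)

/-- `b'` is the basis dual to `b`. -/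
def Dual (b b' : Fin 4 → ℂ × ℂ) : Prop := ∀ i j, pr (b i) (b' j) = if i = j then 1 else 0

/-- The finite Fourier transform of a function with period `M`. -/
noncomputable def fh (M : ℕ) (φ : (Fin 4 → ℤ) → ℂ) (m : Fin 4 → ℤ) : ℂ :=
  ∑ r : Fin 4 → Fin M, φ (fun j => ((r j : ℕ) : ℤ)) *
    Complex.exp (2 * Real.pi * Complex.I * (∑ j, ((r j : ℕ) : ℂ) * (m j : ℂ)) / (M : ℂ))

/-- The lattice with basis `b` is stable under `(x₁, x₂) ↦ (h x₁, h⁻¹ x₂)`; no nonzero lattice point has a coordinate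
equal to `0`. -/
structure Stab (h : ℂ) (b : Fin 4 → ℂ × ℂ) (e : (Fin 4 → ℤ) ≃ (Fin 4 → ℤ)) : Prop where
  map : ∀ m, lp b (e m) = (h * (lp b m).1, h⁻¹ * (lp b m).2)
  ne1 : ∀ m, m ≠ 0 → (lp b m).1 ≠ 0
  ne2 : ∀ m, m ≠ 0 → (lp b m).2 ≠ 0

end Pool.Agent.H2S
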