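import Mathlib

/-!
# Z1: units of relative norm one
-/

set_option autoImplicit false
namespace Pool.Agent.H2S
open Complex NumberField

variable {K L : Type*} [Field K] [NumberField K] [Field L] [NumberField L] [Algebra K L]

theorem z1_cplx [IsTotallyComplex K] : IsTotallyComplex L := by
  constructor
  intro w
  rw [← InfinitePlace.not_isReal_iff_isComplex]
  intro hw
  rw [InfinitePlace.isReal_iff, ComplexEmbedding.isReal_iff] at hw
  have h3 := IsTotallyComplex.isComplex (InfinitePlace.mk (w.embedding.comp (algebraMap K L)))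
  rw [← InfinitePlace.not_isReal_iff_isComplex] at h3
  apply h3
  refine ⟨w.embedding.comp (algebraMap K L), ?_, rfl⟩
  rw [ComplexEmbedding.isReal_iff]
  ext x
  exact DFunLike.congr_fun hw (algebraMap K L x)

omit [Algebra K L] [NumberField K] [Field K] in
theorem z1_rank [IsTotallyComplex L] {r : ℕ} (hL : Module.finrank ℚ L = 2 * r) : Units.rank L = r - 1 := by
  have h1 := IsTotallyComplex.finrank L
  have h2 := InfinitePlace.card_eq_nrRealPlaces_add_nrComplexPlaces L
  rw [IsTotallyComplex.nrRealPlaces_eq_zero L] at h2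
  rw [hL] at h1
  rw [Units.rank, h2]
  omega

omit [NumberField K] [Field K] [Algebra K L] in
theorem z1_nontors (h : Units.rank L = 1) : ∃ u : (𝓞 L)ˣ, u ∉ Units.torsion L := by
  let i : Fin (Units.rank L) := ⟨0, by omega⟩
  refine ⟨Units.fundSystem L i, fun hu => ?_⟩
  have h1 := (Units.exist_unique_eq_mul_prod L (Units.fundSystem L i)).unique
    (y₁ := (⟨Units.fundSystem L i, hu⟩, 0)) (y₂ := (1, Pi.single i 1)) (by simp) (by
      rw [Finset.prod_eq_single i]
      · simp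
      · intro j _ hj
        simp [hj]
      · intro hi
        exact absurd (Finset.mem_univ i) hi)
  have h2 := congrFun (congrArg Prod.snd h1) i
  simp at h2

theorem z1_finite [IsTotallyComplex K] (hK : Module.finrank ℚ K = 2) : Finite (𝓞 K)ˣ := by
  have h0 : Units.rank K = 0 := z1_rank (r := 1) (by rw [hK])
  have h : Units.torsion K = ⊤ := by
    rw [eq_top_iff]
    intro u _
    obtain ⟨⟨ζ, e⟩, he, -⟩ := Units.exist_unique_eq_mul_prod K u
    have h1 : u = ζ * ∏ i, Units.fundSystem K i ^ e i := he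
    have hemp : IsEmpty (Fin (Units.rank K)) := by rw [h0]; infer_instance
    rw [Finset.univ_eq_empty, Finset.prod_empty, mul_one] at h1
    rw [h1]
    exact ζ.2
  have h2 : Finite (Units.torsion K) := inferInstance
  rw [h] at h2
  exact Finite.of_equiv _ Subgroup.topEquiv.toEquiv

theorem z1_norm (hL : Module.finrank K L = 2) (τ : L ≃ₐ[K] L) (hτ : τ ≠ 1) (x : L) :
    x * τ x = algebraMap K L (Algebra.norm K x) := by
  classical
  have : Algebra.IsQuadraticExtension K L := ⟨hL⟩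
  have hgal : IsGalois K L := inferInstance
  have hcard : Nat.card Gal(L/K) = 2 := by rw [IsGalois.card_aut_eq_finrank, hL]
  obtain ⟨σ₀, hσ₀, huniq⟩ := (Nat.card_eq_two_iff' (1 : Gal(L/K))).1 hcard
  rw [Algebra.norm_eq_prod_automorphisms]
  have hu : (Finset.univ : Finset Gal(L/K)) = {1, τ} := by
    ext g
    simp only [Finset.mem_univ, Finset.mem_insert, Finset.mem_singleton, true_iff]
    by_cases h : g = 1
    · exact Or.inl h
    · exact Or.inr ((huniq g h).trans (huniq τ hτ).symm)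
  rw [hu, Finset.prod_pair (Ne.symm hτ)]
  rfl

/-- PROOF. (`N3.lean` proves nearly the same for CM fields `L`: `Fld.n3_cplx`, `Fld.n3_fin`, `Fld.n3_rank`,
`Fld.n3_nontors`, `Fld.exists_unit`; only `K` is used there in an essential way, copy what you need.)
`L` is totally complex: a real embedding of `L` would restrict to a real embedding of `K`.  So
`Units.rank L = 4 / 2 - 1 = 1` and there is a unit `u` of `L` which is not a root of unity (`Units.torsion L`).  The group
`(𝓞 K)ˣ` is finite (`Units.rank K = 0`); `u * τ u` is the image of a unit of `𝓞 K` (it is fixed by `τ`, and `L / K` is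
Galois of group `{1, τ}`), so there is `n > 0` with `(u * τ u) ^ n = 1`.  The ring `𝓞 L ⧸ m` is finite, so its group of
units is finite, of order `n'`: `ε = u ^ (n * n')` is congruent to `1` modulo `m`, `ε * τ ε = 1`, and `ε` is not a root of
unity; so there is `φ` with `‖φ ε‖ ≠ 1` (`Units.mem_torsion` and `InfinitePlace`). -/
theorem Z1_unit [IsTotallyComplex K] (hK : Module.finrank ℚ K = 2) (hL : Module.finrank K L = 2) (τ : L ≃ₐ[K] L)
    (hτ : τ ≠ 1) {m : Ideal (𝓞 L)} (hm : m ≠ ⊥) :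
    ∃ ε : (𝓞 L)ˣ, ((ε : 𝓞 L) : L) * τ ((ε : 𝓞 L) : L) = 1 ∧ (ε : 𝓞 L) - 1 ∈ m ∧
      ∃ φ : L →+* ℂ, ‖φ ((ε : 𝓞 L) : L)‖ ≠ 1 := by
  have hc : IsTotallyComplex L := z1_cplx (K := K)
  have h4 : Module.finrank ℚ L = 2 * 2 := by
    rw [← Module.finrank_mul_finrank ℚ K L, hK, hL]
  obtain ⟨u, hu⟩ := z1_nontors (z1_rank h4)
  have hfin := z1_finite hK
  have hn : 0 < Nat.card (𝓞 K)ˣ := Nat.card_pos
  have hfq : Finite (𝓞 L ⧸ m) := Ideal.finiteQuotientOfFreeOfNeBot m hm
  have hfu : Finite (𝓞 L ⧸ m)ˣ := inferInstance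
  have hn' : 0 < Nat.card (𝓞 L ⧸ m)ˣ := Nat.card_pos
  have hco : ∀ n : ℕ, (((u ^ n : (𝓞 L)ˣ) : 𝓞 L) : L) = ((u : 𝓞 L) : L) ^ n := fun n => NumberField.Units.coe_pow u n
  have hN : (((u : 𝓞 L) : L) * τ ((u : 𝓞 L) : L)) ^ Nat.card (𝓞 K)ˣ = 1 := by
    rw [z1_norm hL τ hτ, ← map_pow]
    have h4 : (Units.map (RingOfIntegers.norm K) u) ^ Nat.card (𝓞 K)ˣ = 1 := pow_card_eq_one'
    have h5 := congrArg (fun w : (𝓞 K)ˣ => ((w : 𝓞 K) : K)) h4
    simp only [Units.val_pow_eq_pow_val, map_pow, Units.coe_map, RingOfIntegers.coe_norm, Units.val_one,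
      map_one] at h5
    have h6 : Algebra.norm K ((u : 𝓞 L) : L) ^ Nat.card (𝓞 K)ˣ = 1 := h5
    rw [h6, map_one]
  refine ⟨u ^ (Nat.card (𝓞 K)ˣ * Nat.card (𝓞 L ⧸ m)ˣ), ?_, ?_, ?_⟩
  · rw [hco, map_pow, ← mul_pow, pow_mul, hN, one_pow]
  · rw [← Ideal.Quotient.eq_zero_iff_mem, map_sub, map_one, sub_eq_zero]
    have h5 : (Units.map (Ideal.Quotient.mk m : 𝓞 L →* 𝓞 L ⧸ m) u) ^ Nat.card (𝓞 L ⧸ m)ˣ = 1 := pow_card_eq_one'
    have h6 := congrArg (fun w : (𝓞 L ⧸ m)ˣ => (w : 𝓞 L ⧸ m)) h5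
    have h7 : (Ideal.Quotient.mk m (u : 𝓞 L)) ^ Nat.card (𝓞 L ⧸ m)ˣ = 1 := h6
    rw [Units.val_pow_eq_pow_val, map_pow, mul_comm, pow_mul, h7, one_pow]
  · by_contra hcon
    push Not at hcon
    apply hu
    refine (Units.mem_torsion L).2 fun w => ?_
    have h5 := hcon w.embedding
    rw [InfinitePlace.norm_embedding_eq, hco, map_pow] at h5
    exact (pow_eq_one_iff_of_nonneg (apply_nonneg w _) (Nat.mul_pos hn hn').ne').1 h5


end Pool.Agent.H2S
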