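import Mathlib

/-!
# Z2: when the trace of the unit is rational, `L` is a CM field
-/

set_option autoImplicit false
namespace Pool.Agent.H2S
open Complex NumberField

variable {K L : Type*} [Field K] [NumberField K] [Field L] [NumberField L] [Algebra K L]

theorem z2_root {z : ℂ} {t : ℤ} (h : z ^ 2 - t * z + 1 = 0) (hz : z.im ≠ 0) :
    2 * z.re = t ∧ z.re ^ 2 + z.im ^ 2 = 1 := by
  have hre := congrArg Complex.re h
  have him := congrArg Complex.im h
  simp only [pow_two, Complex.add_re, Complex.sub_re, Complex.mul_re, Complex.intCast_re, Complex.intCast_im,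
    Complex.one_re, Complex.zero_re, Complex.add_im, Complex.sub_im, Complex.mul_im, Complex.one_im,
    Complex.zero_im] at hre him
  have h1 : z.im * (2 * z.re - t) = 0 := by linarith
  rcases mul_eq_zero.1 h1 with h2 | h2
  · exact absurd h2 hz
  · refine ⟨by linarith, ?_⟩
    have h3 : (t : ℝ) = 2 * z.re := by linarith
    rw [h3] at hre
    nlinarith

theorem z2_real {z w : ℂ} {t : ℤ} (h : z ^ 2 - t * z + 1 = 0) (hz : ‖z‖ ≠ 1) (hw : w ^ 2 - t * w + 1 = 0) :
    w.im = 0 := by
  by_contra hwi
  obtain ⟨h1, h2⟩ := z2_root hw hwi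
  have hzi : z.im = 0 := by
    by_contra hzi
    obtain ⟨h3, h4⟩ := z2_root h hzi
    apply hz
    have : ‖z‖ ^ 2 = 1 := by
      rw [← Complex.normSq_eq_norm_sq, Complex.normSq_apply]
      nlinarith
    nlinarith [norm_nonneg z]
  have hre := congrArg Complex.re h
  simp only [pow_two, Complex.add_re, Complex.sub_re, Complex.mul_re, Complex.intCast_re, Complex.intCast_im,
    Complex.one_re, Complex.zero_re, hzi] at hre
  have h5 : (t : ℝ) = 2 * w.re := by linarith
  rw [h5] at hre
  have h6 : 0 < w.im ^ 2 := by positivity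
  nlinarith [sq_nonneg (z.re - w.re)]

theorem z2_not_real [IsTotallyComplex K] (ψ : L →+* ℂ) : ∃ a : K, star (ψ (algebraMap K L a)) ≠ ψ (algebraMap K L a) := by
  by_contra hc
  push Not at hc
  have h1 := IsTotallyComplex.complexEmbedding_not_isReal (ψ.comp (algebraMap K L))
  apply h1
  rw [ComplexEmbedding.isReal_iff]
  ext a
  exact hc a

/-- PROOF. `ε` is a root of `X ^ 2 - t X + 1`; if `t ^ 2 ≤ 4` then every complex root of this polynomial has absolute value
`1`, against `hφ`; so `t ^ 2 > 4` and both complex roots are real: `ψ ε` is real for every `ψ : L →+* ℂ`.  So the field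
`F = ℚ⟮ε⟯` (an `IntermediateField ℚ L`) is totally real; `ε` is not rational (a rational root of the polynomial is `± 1`,
or use `hφ`: `ε` rational gives `τ ε = ε`, `ε ^ 2 = 1`), so `[F : ℚ] = 2`, `[L : ℚ] = 4` and `[L : F] = 2`.  `L` is totally
complex (a real embedding of `L` would restrict to a real embedding of `K`).  `IsCMField.ofCMExtension F L` gives
`IsCMField L`; take `cc = IsCMField.complexConj L` (`IsCMField.complexEmbedding_complexConj`).  `cc ε = ε`: any embedding
`ψ` is injective and `ψ (cc ε) = conj (ψ ε) = ψ ε`. -/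
theorem Z2_cm [IsTotallyComplex K] (hK : Module.finrank ℚ K = 2) (hL : Module.finrank K L = 2) (τ : L ≃ₐ[K] L)
    (ε : L) (h1 : ε * τ ε = 1) (φ : L →+* ℂ) (hφ : ‖φ ε‖ ≠ 1) (t : ℤ) (ht : ε + τ ε = (t : L)) :
    ∃ cc : L ≃+* L, (∀ (ψ : L →+* ℂ) (x : L), ψ (cc x) = (starRingEnd ℂ) (ψ x)) ∧ cc ε = ε := by
  have hroot : ∀ ψ : L →+* ℂ, ψ ε ^ 2 - t * ψ ε + 1 = 0 := by
    intro ψ
    have h2 : ε ^ 2 - t * ε + 1 = 0 := by
      rw [← ht, ← h1]
      ring
    have h3 := congrArg ψ h2
    simpa using h3
  have hreal : ∀ ψ : L →+* ℂ, star (ψ ε) = ψ ε := by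
    intro ψ
    exact Complex.conj_eq_iff_im.2 (z2_real (hroot φ) hφ (hroot ψ))
  have hfin : Module.finrank ℚ L = 4 := by rw [← Module.finrank_mul_finrank ℚ K L, hK, hL]
  have hcplx : IsTotallyComplex L := by
    constructor
    intro w
    rw [← InfinitePlace.not_isReal_iff_isComplex]
    intro hw
    rw [InfinitePlace.isReal_iff, ComplexEmbedding.isReal_iff] at hw
    obtain ⟨a, ha⟩ := z2_not_real (K := K) w.embedding
    exact ha (DFunLike.congr_fun hw (algebraMap K L a))
  have hmem : ε ∈ maximalRealSubfield L := hreal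
  have hmul := Module.finrank_mul_finrank ℚ (maximalRealSubfield L) L
  rw [hfin] at hmul
  have hne1 : Module.finrank (maximalRealSubfield L) L ≠ 1 := by
    intro h
    obtain ⟨a, ha⟩ := z2_not_real (K := K) φ
    apply ha
    have h2 : (⊥ : Subalgebra (maximalRealSubfield L) L) = ⊤ := Subalgebra.bot_eq_top_of_finrank_eq_one h
    have h3 : algebraMap K L a ∈ (⊥ : Subalgebra (maximalRealSubfield L) L) := by rw [h2]; trivial
    obtain ⟨b, hb⟩ := Algebra.mem_bot.1 h3
    rw [← hb]
    exact b.2 φ
  have hne4 : Module.finrank ℚ (maximalRealSubfield L) ≠ 1 := by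
    intro h
    have h2 : (⊥ : Subalgebra ℚ (maximalRealSubfield L)) = ⊤ := Subalgebra.bot_eq_top_of_finrank_eq_one h
    have h3 : (⟨ε, hmem⟩ : maximalRealSubfield L) ∈ (⊥ : Subalgebra ℚ (maximalRealSubfield L)) := by
      rw [h2]; trivial
    obtain ⟨b, hb⟩ := Algebra.mem_bot.1 h3
    have h4 : ((b : ℚ) : L) = ε := by
      have := congrArg (fun x : maximalRealSubfield L => (x : L)) hb
      simpa using this
    have h5 : τ ε = ε := by rw [← h4]; simp
    rw [h5] at h1
    apply hφ
    have h6 : ‖φ ε‖ * ‖φ ε‖ = 1 := by rw [← norm_mul, ← map_mul, h1, map_one, norm_one]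
    nlinarith [norm_nonneg (φ ε)]
  have h2 : Module.finrank (maximalRealSubfield L) L = 2 := by
    have h3 : Module.finrank (maximalRealSubfield L) L ∣ 4 := ⟨_, by rw [mul_comm]; exact hmul.symm⟩
    have h4 : Module.finrank (maximalRealSubfield L) L ≤ 4 := Nat.le_of_dvd (by norm_num) h3
    interval_cases h5 : Module.finrank (maximalRealSubfield L) L
    · omega
    · exact absurd rfl hne1
    · rfl
    · omega
    · omega
  have hq : Algebra.IsQuadraticExtension (maximalRealSubfield L) L := ⟨h2⟩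
  have hCM : IsCMField L := ⟨⟩
  refine ⟨(IsCMField.complexConj L : L ≃+* L), fun ψ x => IsCMField.complexEmbedding_complexConj L ψ x, ?_⟩
  apply φ.injective
  have h3 := IsCMField.complexEmbedding_complexConj L φ ε
  exact h3.trans (hreal φ)

end Pool.Agent.H2S
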