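import Pool.Agent.Lib.H2S.Z3

/-!
# Z4: the type of the character
-/

set_option autoImplicit false
namespace Pool.Agent.H2S
open Complex NumberField

variable {K L : Type*} [Field K] [NumberField K] [Field L] [NumberField L] [Algebra K L]

theorem z4_mult {M : Type*} [Field M] [NumberField M] (x : M) :
    ∃ d : ℕ, d ≠ 0 ∧ ∃ a : 𝓞 M, (a : M) = (d : M) * x := by
  have h1 : IsAlgebraic ℤ x := (IsFractionRing.isAlgebraic_iff ℤ ℚ M).2 (Algebra.IsAlgebraic.isAlgebraic x)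
  obtain ⟨y, hy, hint⟩ := h1.exists_integral_multiple
  have h2 : IsIntegral ℤ (((y.natAbs : ℕ) : M) * x) := by
    rcases Int.natAbs_eq y with h | h
    · have h3 : ((y.natAbs : ℕ) : M) * x = y • x := by
        rw [zsmul_eq_mul]; congr 1
        have := congrArg (Int.cast : ℤ → M) h
        rw [this, Int.cast_natCast]
      rw [h3]; exact hint
    · have h3 : ((y.natAbs : ℕ) : M) * x = -(y • x) := by
        rw [zsmul_eq_mul]
        have := congrArg (Int.cast : ℤ → M) h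
        rw [this, Int.cast_neg, Int.cast_natCast, neg_mul, neg_neg]
      rw [h3]; exact hint.neg
  exact ⟨y.natAbs, Int.natAbs_ne_zero.2 hy, ⟨_, h2⟩, rfl⟩

theorem z4_coord (hL : Module.finrank K L = 2) (e : L) (he : ∀ a : K, algebraMap K L a ≠ e) (x : L) :
    ∃ a b : K, x = algebraMap K L a + algebraMap K L b * e := by
  have h1 : LinearIndependent K ![(1 : L), e] := by
    rw [LinearIndependent.pair_iff]
    intro s t hst
    by_cases ht : t = 0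
    · rw [ht, zero_smul, add_zero, Algebra.smul_def, mul_one] at hst
      exact ⟨(map_eq_zero _).1 hst, ht⟩
    · exfalso
      apply he (-(s / t))
      rw [Algebra.smul_def, Algebra.smul_def, mul_one] at hst
      have ht' : algebraMap K L t ≠ 0 := fun h => ht ((map_eq_zero _).1 h)
      rw [map_neg, map_div₀]
      field_simp
      linear_combination -hst
  have h2 : Submodule.span K (Set.range ![(1 : L), e]) = ⊤ :=
    h1.span_eq_top_of_card_eq_finrank' (by rw [hL]; simp)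
  have h3 : x ∈ Submodule.span K (Set.range ![(1 : L), e]) := by rw [h2]; trivial
  rw [Matrix.range_cons, Matrix.range_cons, Matrix.range_empty, Set.union_empty] at h3
  rw [Set.singleton_union, Submodule.mem_span_pair] at h3
  obtain ⟨a, b, hab⟩ := h3
  refine ⟨a, b, ?_⟩
  rw [← hab, Algebra.smul_def, Algebra.smul_def, mul_one]

theorem z4_one (hL : Module.finrank K L = 2) (e : 𝓞 L) (he : ∀ a : K, algebraMap K L a ≠ (e : L)) (x : 𝓞 L) :
    ∃ D : ℕ, D ≠ 0 ∧ ∃ a b : 𝓞 K, (D : 𝓞 L) * x = algebraMap (𝓞 K) (𝓞 L) a + algebraMap (𝓞 K) (𝓞 L) b * e := by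
  obtain ⟨a, b, hab⟩ := z4_coord hL (e : L) he (x : L)
  obtain ⟨d, hd, a', ha'⟩ := z4_mult a
  obtain ⟨d', hd', b', hb'⟩ := z4_mult b
  refine ⟨d * d', mul_ne_zero hd hd', (d' : 𝓞 K) * a', (d : 𝓞 K) * b', ?_⟩
  apply RingOfIntegers.coe_injective
  have e1 : algebraMap (𝓞 L) L (algebraMap (𝓞 K) (𝓞 L) a') = (d : L) * algebraMap K L a := by
    rw [show algebraMap (𝓞 L) L (algebraMap (𝓞 K) (𝓞 L) a') = algebraMap K L (a' : K) from rfl, ha', map_mul,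
      map_natCast]
  have e2 : algebraMap (𝓞 L) L (algebraMap (𝓞 K) (𝓞 L) b') = (d' : L) * algebraMap K L b := by
    rw [show algebraMap (𝓞 L) L (algebraMap (𝓞 K) (𝓞 L) b') = algebraMap K L (b' : K) from rfl, hb', map_mul,
      map_natCast]
  have e3 : algebraMap (𝓞 L) L x = algebraMap K L a + algebraMap K L b * algebraMap (𝓞 L) L e := hab
  simp only [map_mul, map_add, map_natCast, Nat.cast_mul]
  rw [e1, e2, e3]
  ring

theorem z4_all (hL : Module.finrank K L = 2) (e : 𝓞 L) (he : ∀ a : K, algebraMap K L a ≠ (e : L)) :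
    ∃ D : ℕ, D ≠ 0 ∧ ∀ x : 𝓞 L, ∃ a b : 𝓞 K,
      (D : 𝓞 L) * x = algebraMap (𝓞 K) (𝓞 L) a + algebraMap (𝓞 K) (𝓞 L) b * e := by
  let S : ℕ → AddSubgroup (𝓞 L) := fun D =>
    { carrier := {x | ∃ a b : 𝓞 K, (D : 𝓞 L) * x = algebraMap (𝓞 K) (𝓞 L) a + algebraMap (𝓞 K) (𝓞 L) b * e}
      zero_mem' := ⟨0, 0, by simp⟩
      add_mem' := by
        rintro x y ⟨a, b, h⟩ ⟨c, d, h'⟩
        refine ⟨a + c, b + d, ?_⟩
        rw [map_add, map_add]
        linear_combination h + h'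
      neg_mem' := by
        rintro x ⟨a, b, h⟩
        refine ⟨-a, -b, ?_⟩
        rw [map_neg, map_neg]
        linear_combination -h }
  have hfin : ∀ s : Finset (𝓞 L), ∃ D : ℕ, D ≠ 0 ∧ ∀ x ∈ s, x ∈ S D := by
    intro s
    classical
    induction s using Finset.induction_on with
    | empty => exact ⟨1, one_ne_zero, by simp⟩
    | insert x s hx ih =>
      obtain ⟨D, hD, h1⟩ := ih
      obtain ⟨D', hD', a', b', h2⟩ := z4_one hL e he x
      refine ⟨D * D', mul_ne_zero hD hD', ?_⟩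
      intro y hy
      rcases Finset.mem_insert.1 hy with rfl | hy
      · refine ⟨(D : 𝓞 K) * a', (D : 𝓞 K) * b', ?_⟩
        rw [map_mul, map_mul, map_natCast]
        push_cast
        linear_combination (D : 𝓞 L) * h2
      · obtain ⟨a, b, h⟩ := h1 y hy
        refine ⟨(D' : 𝓞 K) * a, (D' : 𝓞 K) * b, ?_⟩
        rw [map_mul, map_mul, map_natCast]
        push_cast
        linear_combination (D' : 𝓞 L) * h
  obtain ⟨s, hs⟩ := (Module.Finite.iff_addGroup_fg.1 (inferInstance : Module.Finite ℤ (𝓞 L))).out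
  obtain ⟨D, hD, h1⟩ := hfin s
  refine ⟨D, hD, fun x => ?_⟩
  have h2 : (⊤ : AddSubgroup (𝓞 L)) ≤ S D := by
    rw [← hs, AddSubgroup.closure_le]
    exact h1
  exact h2 (AddSubgroup.mem_top x)

/-- PROOF. `ε ∉ K` (else `τ ε = ε`, `ε ^ 2 = 1`, `‖φ ε‖ = 1`), so every element of `L` is `a + b ε` with `a, b ∈ K`
(`finrank K L = 2`); as `𝓞 L` is a finitely generated `ℤ`-module and `K` is the field of fractions of `𝓞 K`, there is a
positive integer `D` such that for every `x ∈ 𝓞 L` there are `a, b ∈ 𝓞 K` with `D x = a + b ε` (common denominator of the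
coordinates of a finite set of generators; for instance `exist_integer_multiples` of `IsLocalization` over `ℤ`, for
`nonZeroDivisors`).  The claim holds for every `p` prime to this `D`: for `x ∈ 𝓞 L` and `y = cc (τ x)`:
`D x = a + b ε`; `τ ε = ε⁻¹` and `cc (τ ε) = (cc ε)⁻¹ = ε⁻¹`; `cc (τ a) = cc a = σ a` for `a ∈ K` (apply an embedding `φ` of
`L`, which is injective: `φ (cc a) = conj (φ a) = φ (σ a)` by `hσ2`, used for `φ` restricted to `K`).  So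
`D y = σ a + σ b ε⁻¹`, `D * r₁ y = r₁ (σ a) + r₁ (σ b) (r₁ ε)⁻¹ = r₂ a + r₂ b * r₂ ε = r₂ (D x) = D * r₂ x` by `Z3_rest` and
`r₁ ε * r₂ ε = 1`; and `D ≠ 0` in `k`. -/
theorem Z4_type (hL : Module.finrank K L = 2) (τ : L ≃ₐ[K] L) (ε : (𝓞 L)ˣ)
    (h1 : ((ε : 𝓞 L) : L) * τ ((ε : 𝓞 L) : L) = 1) (φ : L →+* ℂ) (hφ : ‖φ ((ε : 𝓞 L) : L)‖ ≠ 1)
    (σ : 𝓞 K →+* 𝓞 K) (hσ : ∀ a : 𝓞 K, a * σ a = ((Algebra.norm ℤ a : ℤ) : 𝓞 K))
    (hσ2 : ∀ (φ : K →+* ℂ) (a : 𝓞 K), φ ((σ a : 𝓞 K) : K) = (starRingEnd ℂ) (φ (a : K)))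
    (cc : L ≃+* L) (hcc : ∀ (ψ : L →+* ℂ) (x : L), ψ (cc x) = (starRingEnd ℂ) (ψ x))
    (hcε : cc ((ε : 𝓞 L) : L) = ((ε : 𝓞 L) : L)) :
    ∃ D : ℕ, D ≠ 0 ∧ ∀ (p : ℕ), p.Prime → ¬ p ∣ D → ∀ (k : Type) [Field k] [CharP k p] (r₁ r₂ : 𝓞 L →+* k),
      (∀ a : 𝓞 K, r₁ (algebraMap (𝓞 K) (𝓞 L) a) * r₂ (algebraMap (𝓞 K) (𝓞 L) a) = ((Algebra.norm ℤ a : ℤ) : k)) →
      r₁ (ε : 𝓞 L) * r₂ (ε : 𝓞 L) = 1 → ∀ x y : 𝓞 L, (y : L) = cc (τ (x : L)) → r₂ x = r₁ y := by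
  have he : ∀ a : K, algebraMap K L a ≠ ((ε : 𝓞 L) : L) := by
    intro a ha
    apply hφ
    rw [← ha, τ.commutes, ha] at h1
    have h2 : ‖φ ((ε : 𝓞 L) : L)‖ * ‖φ ((ε : 𝓞 L) : L)‖ = 1 := by
      rw [← norm_mul, ← map_mul, h1, map_one, norm_one]
    nlinarith [norm_nonneg (φ ((ε : 𝓞 L) : L))]
  obtain ⟨D, hD, hall⟩ := z4_all hL (ε : 𝓞 L) he
  refine ⟨D, hD, ?_⟩
  intro p hp hpD k _ _ r₁ r₂ hn hr x y hy
  obtain ⟨a, b, hab⟩ := hall x
  have hcK : ∀ c : 𝓞 K, cc (τ ((algebraMap (𝓞 K) (𝓞 L) c : 𝓞 L) : L)) = ((algebraMap (𝓞 K) (𝓞 L) (σ c) : 𝓞 L) : L) := by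
    intro c
    apply φ.injective
    have e1 : ((algebraMap (𝓞 K) (𝓞 L) c : 𝓞 L) : L) = algebraMap K L (c : K) := rfl
    have e2 : ((algebraMap (𝓞 K) (𝓞 L) (σ c) : 𝓞 L) : L) = algebraMap K L ((σ c : 𝓞 K) : K) := rfl
    rw [hcc, e1, e2, τ.commutes]
    exact (hσ2 (φ.comp (algebraMap K L)) c).symm
  have hε0 : ((ε : 𝓞 L) : L) ≠ 0 := fun h => by
    rw [h, zero_mul] at h1
    exact zero_ne_one h1
  have hce : cc (τ ((ε : 𝓞 L) : L)) = (((ε⁻¹ : (𝓞 L)ˣ) : 𝓞 L) : L) := by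
    have h3 : cc ((ε : 𝓞 L) : L) * cc (τ ((ε : 𝓞 L) : L)) = 1 := by rw [← map_mul, h1, map_one]
    rw [hcε] at h3
    have h4 : ((ε : 𝓞 L) : L) * (((ε⁻¹ : (𝓞 L)ˣ) : 𝓞 L) : L) = 1 := by
      rw [← map_mul, Units.mul_inv, map_one]
    exact mul_left_cancel₀ hε0 (h3.trans h4.symm)
  have hyD : (D : 𝓞 L) * y = algebraMap (𝓞 K) (𝓞 L) (σ a) + algebraMap (𝓞 K) (𝓞 L) (σ b) * ((ε⁻¹ : (𝓞 L)ˣ) : 𝓞 L) := by
    apply RingOfIntegers.coe_injective
    have h5 := congrArg (fun z : 𝓞 L => cc (τ (z : L))) hab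
    simp only [map_mul, map_add, map_natCast] at h5
    rw [hcK, hcK, hce, ← hy] at h5
    simp only [map_mul, map_add, map_natCast]
    exact h5
  have hDk : (D : k) ≠ 0 := fun h => hpD ((CharP.cast_eq_zero_iff k p D).1 h)
  apply mul_left_cancel₀ hDk
  have h6 := congrArg r₂ hab
  have h7 := congrArg r₁ hyD
  rw [map_mul, map_add, map_mul, map_natCast, Z3_rest r₁ r₂ hn σ hσ, Z3_rest r₁ r₂ hn σ hσ] at h6
  rw [map_mul, map_add, map_mul, map_natCast] at h7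
  have h8 : r₂ (ε : 𝓞 L) = r₁ ((ε⁻¹ : (𝓞 L)ˣ) : 𝓞 L) := by
    have h9 : r₁ (ε : 𝓞 L) * r₁ ((ε⁻¹ : (𝓞 L)ˣ) : 𝓞 L) = 1 := by
      rw [← map_mul, Units.mul_inv, map_one]
    have h10 : r₁ (ε : 𝓞 L) ≠ 0 := fun h => by
      rw [h, zero_mul] at h9
      exact zero_ne_one h9
    exact mul_left_cancel₀ h10 (hr.trans h9.symm)
  rw [h6, h7, h8]

end Pool.Agent.H2S
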