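import Pool.Agent.Lib.H2S.J0

/-!
# Z5: the determinant condition on principal ideals of `𝓞 K`
-/

set_option autoImplicit false
namespace Pool.Agent.H2S
open Complex NumberField

variable {K L : Type*} [Field K] [NumberField K] [Field L] [NumberField L] [Algebra K L]

theorem z5_up_mul (a b : 𝓞 K) : up L (a * b) = up L a * up L b := by
  rw [up, up, up, map_mul, Ideal.span_singleton_mul_span_singleton]

/-- PROOF. Induction on the factorization of `x` (`UniqueFactorizationMonoid.induction_on_prime` or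
`WfDvdMonoid.induction_on_irreducible`) in the principal ideal domain `𝓞 K`: for `x` a unit, `span {x} = ⊤`, `χ ⊤ = 1` and
`absNorm = 1`; for `π * y` with `π` prime: `π` divides neither `p` nor an element of the level (hypothesis `hx`), so
`h2 π` gives `χ (up L π) ^ 2 = absNorm (span {π}) ^ 2`; both sides are multiplicative (`up L (a * b) = up L a * up L b`,
`Ideal.span_singleton_mul_span_singleton`). -/
theorem Z5_sq [IsPrincipalIdealRing (𝓞 K)] {m : Ideal (𝓞 L)} {p : ℕ} {k : Type*} [Field k] (χ : Ideal (𝓞 L) →*₀ k)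
    (h2 : ∀ π : 𝓞 K, GoodPrime m p π → χ (up L π) ^ 2 = (Ideal.absNorm (Ideal.span {π}) : k) ^ 2)
    (x : 𝓞 K) (hx0 : x ≠ 0) (hx : ∀ π : 𝓞 K, Prime π → π ∣ x → ¬ π ∣ (p : 𝓞 K) ∧ ¬ lev K m ≤ Ideal.span {π}) :
    χ (up L x) ^ 2 = (Ideal.absNorm (Ideal.span {x}) : k) ^ 2 := by
  revert hx0 hx
  refine UniqueFactorizationMonoid.induction_on_prime (P := fun x : 𝓞 K => x ≠ 0 →
    (∀ π : 𝓞 K, Prime π → π ∣ x → ¬ π ∣ (p : 𝓞 K) ∧ ¬ lev K m ≤ Ideal.span {π}) →
    χ (up L x) ^ 2 = (Ideal.absNorm (Ideal.span {x}) : k) ^ 2) x ?_ ?_ ?_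
  · intro h; exact absurd rfl h
  · intro x hu _ _
    have h1 : up L x = 1 := by
      rw [up, Ideal.one_eq_top, Ideal.span_singleton_eq_top]; exact hu.map _
    have h2 : Ideal.span {x} = (⊤ : Ideal (𝓞 K)) := Ideal.span_singleton_eq_top.2 hu
    rw [h1, map_one, h2, Ideal.absNorm_top]; simp
  · intro y π hy hπ ih _ hx
    have h3 := hx π hπ (dvd_mul_right _ _)
    rw [z5_up_mul, map_mul, mul_pow, ih hy (fun q hq hd => hx q hq (hd.mul_left _)), h2 π ⟨hπ, h3.1, h3.2⟩,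
      ← Ideal.span_singleton_mul_span_singleton, map_mul Ideal.absNorm]
    push_cast
    ring

/-- PROOF. `m` and `lev K m` are not zero, let `n₀ = absNorm (lev K m) ≠ 0` and `n₀ = p ^ e * n₁` with `p` not dividing
`n₁`; `n₂ = absNorm m` is prime to `p` (`hmp`), `n₂ ∈ m`.  `M = n₁ * n₂`. -/
theorem Z5_mod {m : Ideal (𝓞 L)} (hm : m ≠ ⊥) {p : ℕ} (hp : p.Prime) (hmp : IsCoprime m (Ideal.span {(p : 𝓞 L)})) :
    ∃ M : ℕ, ¬ p ∣ M ∧ ((M : ℕ) : 𝓞 L) ∈ m ∧ ∃ e : ℕ, ((p ^ e * M : ℕ) : 𝓞 K) ∈ lev K m := by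
  have h0 : lev K m ≠ ⊥ := by
    rw [lev]
    intro h
    rw [Ideal.relNorm_eq_bot_iff, Ideal.mul_eq_bot] at h
    rcases h with h | h
    · exact hm h
    · exact differentIdeal_ne_bot h
  have hn0 : Ideal.absNorm (lev K m) ≠ 0 := Ideal.absNorm_ne_zero_iff_mem_nonZeroDivisors.2 (mem_nonZeroDivisors_of_ne_zero h0)
  obtain ⟨e, n₁, hn₁, hn⟩ := Nat.exists_eq_pow_mul_and_not_dvd hn0 p hp.ne_one
  have hn2 : ¬ p ∣ Ideal.absNorm m := by
    intro hd
    haveI : Fact p.Prime := ⟨hp⟩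
    have hm0 : Ideal.absNorm m ≠ 0 :=
      Ideal.absNorm_ne_zero_iff_mem_nonZeroDivisors.2 (mem_nonZeroDivisors_of_ne_zero hm)
    haveI : Finite (𝓞 L ⧸ m) := Ideal.finiteQuotientOfFreeOfNeBot m hm
    rw [Ideal.absNorm_apply, Submodule.cardQuot_apply] at hd
    obtain ⟨x, hx⟩ := exists_prime_addOrderOf_dvd_card' p hd
    have h1 : p • x = 0 := by rw [← hx]; exact addOrderOf_nsmul_eq_zero x
    obtain ⟨a, ha, b, hb, hab⟩ := Ideal.isCoprime_iff_exists.1 hmp
    obtain ⟨c, rfl⟩ := Ideal.mem_span_singleton'.1 hb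
    have h2 : x = 0 := by
      have h3 : (Ideal.Quotient.mk m) (a + c * (p : 𝓞 L)) * x = x := by rw [hab, map_one, one_mul]
      rw [← h3, map_add, Ideal.Quotient.eq_zero_iff_mem.2 ha, zero_add, map_mul, map_natCast, mul_assoc,
        ← nsmul_eq_mul, h1, mul_zero]
    rw [h2, addOrderOf_zero] at hx
    exact hp.ne_one hx.symm
  refine ⟨n₁ * Ideal.absNorm m, ?_, ?_, e, ?_⟩
  · intro h
    rcases (hp.dvd_mul).1 h with h | h
    · exact hn₁ h
    · exact hn2 h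
  · push_cast
    exact Ideal.mul_mem_left _ _ (Ideal.absNorm_mem m)
  · rw [← mul_assoc, ← hn]
    push_cast
    exact Ideal.mul_mem_right _ _ (Ideal.absNorm_mem _)

end Pool.Agent.H2S
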