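import Pool.Agent.Lib.H2S.Z3
import Pool.Agent.Lib.H2S.Z5

/-!
# Z6: the product `r₁ r₂` is the norm on `𝓞 K`
-/

set_option autoImplicit false
namespace Pool.Agent.H2S
open Complex NumberField

variable {K L : Type*} [Field K] [NumberField K] [Field L] [NumberField L] [Algebra K L]

theorem z6_dich {A B : Type*} [AddCommGroup A] [AddCommGroup B] (f g h : A →+ B) (H : ∀ a, f a = g a ∨ f a = h a) :
    (∀ a, f a = g a) ∨ ∀ a, f a = h a := by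
  by_contra hc
  push Not at hc
  obtain ⟨⟨a, ha⟩, b, hb⟩ := hc
  have h1 : f a = h a := (H a).resolve_left ha
  have h2 : f b = g b := (H b).resolve_right hb
  rcases H (a + b) with h3 | h3
  · rw [map_add, map_add, h2] at h3
    exact ha (add_right_cancel h3)
  · rw [map_add, map_add, h1] at h3
    exact hb (add_left_cancel h3)

theorem z6_choose {k : Type*} [Field k] {p : ℕ} [CharP k p] (hp : p.Prime) (hp3 : 3 < p) (a b : k) :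
    ∃ n : ℕ, a + n ≠ 0 ∧ b + n ≠ 0 ∧ a + b + 2 * n ≠ 0 := by
  by_contra hc
  push Not at hc
  have h : ∀ n : ℕ, (a + n) * (b + n) * (a + b + 2 * n) = 0 := by
    intro n
    by_cases h1 : a + (n : k) = 0
    · rw [h1]; ring
    by_cases h2 : b + (n : k) = 0
    · rw [h2]; ring
    rw [hc n h1 h2, mul_zero]
  have h0 := h 0
  have h1 := h 1
  have h2 := h 2
  have h3 := h 3
  push_cast at h0 h1 h2 h3
  have h12 : ((12 : ℕ) : k) = 0 := by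
    push_cast
    linear_combination h3 - 3 * h2 + 3 * h1 - h0
  rw [CharP.cast_eq_zero_iff k p] at h12
  have h4 : p ∣ 2 * 2 * 3 := by simpa using h12
  rcases (hp.dvd_mul).1 h4 with h5 | h5
  · have h6 : p ∣ 2 := by
      rcases (hp.dvd_mul).1 h5 with h6 | h6 <;> exact h6
    have := Nat.le_of_dvd (by norm_num) h6
    omega
  · have := Nat.le_of_dvd (by norm_num) h5
    omega

theorem z6_key [IsPrincipalIdealRing (𝓞 K)]
    {m : Ideal (𝓞 L)} (hm : m ≠ ⊥) {p : ℕ} (hp : p.Prime)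
    (hmp : IsCoprime m (Ideal.span {(p : 𝓞 L)})) {k : Type*} [Field k] [CharP k p] (r₁ r₂ : 𝓞 L →+* k)
    (χ : Ideal (𝓞 L) →*₀ k)
    (h1 : ∀ x : 𝓞 L, x - 1 ∈ m → IsCoprime (Ideal.span {x}) (Ideal.span {(p : 𝓞 L)}) →
      χ (Ideal.span {x}) = r₁ x * r₂ x)
    (h2 : ∀ π : 𝓞 K, GoodPrime m p π → χ (up L π) ^ 2 = (Ideal.absNorm (Ideal.span {π}) : k) ^ 2)
    (σ : 𝓞 K →+* 𝓞 K) (hσ : ∀ a : 𝓞 K, a * σ a = ((Algebra.norm ℤ a : ℤ) : 𝓞 K))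
    (he : ∀ a : 𝓞 K, r₂ (algebraMap (𝓞 K) (𝓞 L) a) = r₁ (algebraMap (𝓞 K) (𝓞 L) a))
    (z : 𝓞 K) (hz : r₁ (algebraMap (𝓞 K) (𝓞 L) z) ≠ 0) (hz' : r₁ (algebraMap (𝓞 K) (𝓞 L) (σ z)) ≠ 0) :
    r₁ (algebraMap (𝓞 K) (𝓞 L) z) ^ 2 = r₁ (algebraMap (𝓞 K) (𝓞 L) (σ z)) ^ 2 := by
  obtain ⟨M, hpM, hMm, e, he2⟩ := Z5_mod (K := K) hm hp hmp
  have hcop : IsCoprime (M : ℤ) (p : ℤ) := by
    rw [Nat.isCoprime_iff_coprime]
    exact ((Nat.Prime.coprime_iff_not_dvd hp).2 hpM).symm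
  obtain ⟨M', v, hMv⟩ := hcop
  have hk1 : (M' : k) * (M : k) = 1 := by
    have h3 := congrArg (Int.cast : ℤ → k) hMv
    push_cast at h3
    rw [CharP.cast_eq_zero k p, mul_zero, add_zero] at h3
    exact h3
  set x : 𝓞 K := 1 + (M : 𝓞 K) * ((M' : 𝓞 K) * (z - 1)) with hx
  have hfx : r₁ (algebraMap (𝓞 K) (𝓞 L) x) = r₁ (algebraMap (𝓞 K) (𝓞 L) z) := by
    rw [hx]
    simp only [map_add, map_mul, map_one, map_natCast, map_intCast, map_sub]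
    linear_combination (r₁ (algebraMap (𝓞 K) (𝓞 L) z) - 1) * hk1
  have hfsx : r₁ (algebraMap (𝓞 K) (𝓞 L) (σ x)) = r₁ (algebraMap (𝓞 K) (𝓞 L) (σ z)) := by
    rw [hx]
    simp only [map_add, map_mul, map_one, map_natCast, map_intCast, map_sub]
    linear_combination (r₁ (algebraMap (𝓞 K) (𝓞 L) (σ z)) - 1) * hk1
  set n : ℤ := Algebra.norm ℤ x with hn
  have hnk : (n : k) = r₁ (algebraMap (𝓞 K) (𝓞 L) z) * r₁ (algebraMap (𝓞 K) (𝓞 L) (σ z)) := by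
    rw [← hfx, ← hfsx, ← map_mul, ← map_mul, hσ x, map_intCast, map_intCast]
  have hn0 : (n : k) ≠ 0 := by
    rw [hnk]; exact mul_ne_zero hz hz'
  have hpn : ¬ (p : ℤ) ∣ n := fun h => hn0 ((CharP.intCast_eq_zero_iff k p n).2 h)
  have hcn : IsCoprime n (p : ℤ) :=
    ((Nat.prime_iff_prime_int.1 hp).coprime_iff_not_dvd.2 hpn).symm
  have hcK : IsCoprime x (p : 𝓞 K) := by
    obtain ⟨u, w, huw⟩ := hcn
    refine ⟨(u : 𝓞 K) * σ x, (w : 𝓞 K), ?_⟩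
    have h3 := congrArg (Int.cast : ℤ → 𝓞 K) huw
    push_cast at h3
    rw [mul_assoc, mul_comm (σ x) x, hσ x]
    exact h3
  have hcL : IsCoprime (algebraMap (𝓞 K) (𝓞 L) x) (p : 𝓞 L) := by
    have h3 := hcK.map (algebraMap (𝓞 K) (𝓞 L))
    rwa [map_natCast] at h3
  have hx0 : x ≠ 0 := by
    rintro h0
    rw [h0, map_zero, map_zero] at hfx
    exact hz hfx.symm
  have hcond : ∀ π : 𝓞 K, Prime π → π ∣ x → ¬ π ∣ (p : 𝓞 K) ∧ ¬ lev K m ≤ Ideal.span {π} := by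
    intro π hπ hd
    have hA : ¬ π ∣ (p : 𝓞 K) := fun h => hπ.not_isUnit (hcK.isUnit_of_dvd' hd h)
    refine ⟨hA, fun h => ?_⟩
    have h3 := Ideal.mem_span_singleton.1 (h he2)
    push_cast at h3
    rcases hπ.dvd_or_dvd h3 with h4 | h4
    · exact hA (hπ.dvd_of_dvd_pow h4)
    · have h5 : π ∣ x - (M : 𝓞 K) * ((M' : 𝓞 K) * (z - 1)) := dvd_sub hd (h4.mul_right _)
      have h6 : x - (M : 𝓞 K) * ((M' : 𝓞 K) * (z - 1)) = 1 := by rw [hx]; ring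
      rw [h6] at h5
      exact hπ.not_isUnit (isUnit_of_dvd_one h5)
  have hsq := Z5_sq χ h2 x hx0 hcond
  have hval : χ (up L x) = r₁ (algebraMap (𝓞 K) (𝓞 L) x) * r₂ (algebraMap (𝓞 K) (𝓞 L) x) := by
    refine h1 _ ?_ ?_
    · rw [hx]
      simp only [map_add, map_mul, map_one, map_natCast, map_intCast, map_sub]
      rw [add_sub_cancel_left]
      exact m.mul_mem_right _ hMm
    · exact (Ideal.isCoprime_span_singleton_iff _ _).2 hcL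
  have hab : ((Ideal.absNorm (Ideal.span {x}) : ℕ) : k) ^ 2 = (n : k) ^ 2 := by
    rw [Ideal.absNorm_span_singleton, ← hn]
    have h3 : ((n.natAbs : ℕ) : ℤ) ^ 2 = n ^ 2 := Int.natAbs_sq n
    have h4 := congrArg (Int.cast : ℤ → k) h3
    rw [Int.cast_pow, Int.cast_pow, Int.cast_natCast] at h4
    exact h4
  rw [hval, hab, he, hnk, hfx] at hsq
  have h7 : r₁ (algebraMap (𝓞 K) (𝓞 L) z) ^ 2 ≠ 0 := pow_ne_zero _ hz
  apply mul_left_cancel₀ h7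
  linear_combination hsq

/-- PROOF. Let `f i` be `r i` on `𝓞 K` and `σ` as in `Z3_conj`.  `a + σ a` is an integer (it is fixed by `σ`) and so is
`a * σ a`; so `f₂ a` is a root of `X ^ 2 - f₁ (a + σ a) X + f₁ (a * σ a) = (X - f₁ a) (X - f₁ (σ a))`: `f₂ a = f₁ a` or
`f₂ a = f₁ (σ a)`.  So `𝓞 K` is the union of the two additive subgroups `{f₂ = f₁}` and `{f₂ = f₁ ∘ σ}`, and one of them is
everything (if `a` is not in the first and `b` is not in the second, then `a + b` is in neither).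
If `f₂ = f₁ ∘ σ`, then `f₁ a * f₂ a = f₁ (a * σ a)` is the norm.
Let `f₂ = f₁`.  Take `M`, `e` from `Z5_mod`, and `M'` an integer with `p ∣ M * M' - 1`.  Let `z ∈ 𝓞 K` with `f₁ z ≠ 0` and
`f₁ (σ z) ≠ 0`, and `x = 1 + M * M' * (z - 1)`.  Then `x - 1 ∈ m` (in `𝓞 L`), `f₁ x = f₁ z` and `f₁ (σ x) = f₁ (σ z)`, so
`f₁ (x * σ x) ≠ 0`: the norm of `x` is prime to `p`, and `x` is prime to `p` (in `𝓞 K` and in `𝓞 L`: if `n = N x` then
`x ∣ n`, and `n` is prime to `p`).  If a prime `π` divides `x`, then `π` does not divide `p` (both `x` and `p` would be in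
`(π)`), and not `lev K m ≤ (π)`: otherwise `π ∣ p ^ e * M`, so `π ∣ M`, so `π ∣ 1`.  By `Z5_sq` and `h1`,
`(r₁ x * r₂ x) ^ 2 = N x ^ 2` (`Ideal.absNorm_span_singleton`, `Algebra.norm ℤ x` up to sign, squares), that is
`f₁ x ^ 4 = f₁ x ^ 2 * f₁ (σ x) ^ 2`, so `f₁ z ^ 2 = f₁ (σ z) ^ 2`.
Now let `z ∈ 𝓞 K` be any element.  Among the residues `n` modulo `p` (`p ≥ 5`) at most two have `f₁ z + n = 0` or
`f₁ (σ z) + n = 0` and at most one has `f₁ z + f₁ (σ z) + 2 n = 0`; take another one: the result for `z + n` gives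
`(f₁ z + n) ^ 2 = (f₁ (σ z) + n) ^ 2`, `(f₁ z - f₁ (σ z)) * (f₁ z + f₁ (σ z) + 2 n) = 0`, so `f₁ z = f₁ (σ z)`.  So
`f₁ z * f₂ z = f₁ z * f₁ (σ z)` is the norm. -/
theorem Z6_norm [IsTotallyComplex K] [IsPrincipalIdealRing (𝓞 K)] (hK : Module.finrank ℚ K = 2)
    {m : Ideal (𝓞 L)} (hm : m ≠ ⊥) {p : ℕ} (hp : p.Prime) (hp3 : 3 < p)
    (hmp : IsCoprime m (Ideal.span {(p : 𝓞 L)})) {k : Type*} [Field k] [CharP k p] (r₁ r₂ : 𝓞 L →+* k)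
    (χ : Ideal (𝓞 L) →*₀ k)
    (h1 : ∀ x : 𝓞 L, x - 1 ∈ m → IsCoprime (Ideal.span {x}) (Ideal.span {(p : 𝓞 L)}) →
      χ (Ideal.span {x}) = r₁ x * r₂ x)
    (h2 : ∀ π : 𝓞 K, GoodPrime m p π → χ (up L π) ^ 2 = (Ideal.absNorm (Ideal.span {π}) : k) ^ 2) (a : 𝓞 K) :
    r₁ (algebraMap (𝓞 K) (𝓞 L) a) * r₂ (algebraMap (𝓞 K) (𝓞 L) a) = ((Algebra.norm ℤ a : ℤ) : k) := by
  obtain ⟨σ, hσ, hσσ, hσc, hσf⟩ := Z3_conj (K := K) hK
  have hdich : ∀ a : 𝓞 K, r₂ (algebraMap (𝓞 K) (𝓞 L) a) = r₁ (algebraMap (𝓞 K) (𝓞 L) a) ∨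
      r₂ (algebraMap (𝓞 K) (𝓞 L) a) = r₁ (algebraMap (𝓞 K) (𝓞 L) (σ a)) := by
    intro a
    obtain ⟨s, hs⟩ := hσf (a + σ a) (by rw [map_add, hσσ, add_comm])
    have e1 : r₂ (algebraMap (𝓞 K) (𝓞 L) a) + r₂ (algebraMap (𝓞 K) (𝓞 L) (σ a)) =
        r₁ (algebraMap (𝓞 K) (𝓞 L) a) + r₁ (algebraMap (𝓞 K) (𝓞 L) (σ a)) := by
      rw [← map_add, ← map_add, ← map_add, ← map_add, hs]
      simp only [map_intCast]
    have e2 : r₂ (algebraMap (𝓞 K) (𝓞 L) a) * r₂ (algebraMap (𝓞 K) (𝓞 L) (σ a)) =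
        r₁ (algebraMap (𝓞 K) (𝓞 L) a) * r₁ (algebraMap (𝓞 K) (𝓞 L) (σ a)) := by
      rw [← map_mul, ← map_mul, ← map_mul, ← map_mul, hσ]
      simp only [map_intCast]
    have e3 : (r₂ (algebraMap (𝓞 K) (𝓞 L) a) - r₁ (algebraMap (𝓞 K) (𝓞 L) a)) *
        (r₂ (algebraMap (𝓞 K) (𝓞 L) a) - r₁ (algebraMap (𝓞 K) (𝓞 L) (σ a))) = 0 := by
      linear_combination r₂ (algebraMap (𝓞 K) (𝓞 L) a) * e1 - e2
    rcases mul_eq_zero.1 e3 with h | h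
    · exact Or.inl (sub_eq_zero.1 h)
    · exact Or.inr (sub_eq_zero.1 h)
  have key : ∀ a : 𝓞 K, r₂ (algebraMap (𝓞 K) (𝓞 L) a) = r₁ (algebraMap (𝓞 K) (𝓞 L) (σ a)) := by
    rcases z6_dich ((r₂.comp (algebraMap (𝓞 K) (𝓞 L))).toAddMonoidHom)
      ((r₁.comp (algebraMap (𝓞 K) (𝓞 L))).toAddMonoidHom)
      (((r₁.comp (algebraMap (𝓞 K) (𝓞 L))).comp σ).toAddMonoidHom) hdich with h | h
    · have he : ∀ a : 𝓞 K, r₂ (algebraMap (𝓞 K) (𝓞 L) a) = r₁ (algebraMap (𝓞 K) (𝓞 L) a) := h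
      intro z
      rw [he]
      obtain ⟨n, hn1, hn2, hn3⟩ := z6_choose hp hp3 (r₁ (algebraMap (𝓞 K) (𝓞 L) z))
        (r₁ (algebraMap (𝓞 K) (𝓞 L) (σ z)))
      have e1 : r₁ (algebraMap (𝓞 K) (𝓞 L) (z + n)) = r₁ (algebraMap (𝓞 K) (𝓞 L) z) + n := by
        simp only [map_add, map_natCast]
      have e2 : r₁ (algebraMap (𝓞 K) (𝓞 L) (σ (z + n))) = r₁ (algebraMap (𝓞 K) (𝓞 L) (σ z)) + n := by
        simp only [map_add, map_natCast]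
      have h3 := z6_key hm hp hmp r₁ r₂ χ h1 h2 σ hσ he (z + n) (by rw [e1]; exact hn1) (by rw [e2]; exact hn2)
      rw [e1, e2] at h3
      have h4 : (r₁ (algebraMap (𝓞 K) (𝓞 L) z) - r₁ (algebraMap (𝓞 K) (𝓞 L) (σ z))) *
          (r₁ (algebraMap (𝓞 K) (𝓞 L) z) + r₁ (algebraMap (𝓞 K) (𝓞 L) (σ z)) + 2 * n) = 0 := by
        linear_combination h3
      exact sub_eq_zero.1 ((mul_eq_zero.1 h4).resolve_right hn3)
    · exact h
  rw [key, ← map_mul, ← map_mul, hσ, map_intCast, map_intCast]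

end Pool.Agent.H2S
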