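import Pool.Agent.Lib.H2S.AFin
import Pool.Agent.Lib.H2S.Z1
import Pool.Agent.Lib.H2S.Z2
import Pool.Agent.Lib.H2S.Z4
import Pool.Agent.Lib.H2S.Z6

/-!
# The dihedral case of the modularity conjecture over imaginary quadratic fields of class number one

`K` is an imaginary quadratic field of class number one, `L / K` a quadratic extension, `τ` the generator of
`Gal (L / K)`, `m` a nonzero ideal of `𝓞 L`, `p > 3` a prime not dividing the norm of `m`, `k` an algebraically closed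
field of characteristic `p`.
-/

set_option autoImplicit false
namespace Pool.Agent.H2S.Draft
open NumberField

section
variable {K : Type*} [Field K] [NumberField K]

/-- `Γ₀(N)` in `GL₂ (𝓞 K)`. -/
def Gamma0 (N : Ideal (𝓞 K)) : Subgroup (GL (Fin 2) (𝓞 K)) where
  carrier := {g | (g : Matrix (Fin 2) (Fin 2) (𝓞 K)) 1 0 ∈ N}
  one_mem' := by
    change (1 : Matrix (Fin 2) (Fin 2) (𝓞 K)) 1 0 ∈ N
    simp
  mul_mem' := by
    intro g h hg hh
    change ((g : Matrix (Fin 2) (Fin 2) (𝓞 K)) * (h : Matrix (Fin 2) (Fin 2) (𝓞 K))) 1 0 ∈ N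
    rw [Matrix.mul_apply, Fin.sum_univ_two]
    exact N.add_mem (N.mul_mem_right _ hg) (N.mul_mem_left _ hh)
  inv_mem' := by
    intro g hg
    change ((g⁻¹ : GL (Fin 2) (𝓞 K)) : Matrix (Fin 2) (Fin 2) (𝓞 K)) 1 0 ∈ N
    rw [Matrix.coe_units_inv, Matrix.inv_def, Matrix.adjugate_fin_two]
    simp only [Matrix.smul_apply, Matrix.of_apply, Matrix.cons_val', Matrix.cons_val_one, Matrix.cons_val_zero,
      smul_eq_mul]
    exact N.mul_mem_left _ (N.neg_mem hg)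

/-- The double coset `Γ₀(N) diag(π, 1) Γ₀(N)`. -/
def DoubleCoset (N : Ideal (𝓞 K)) (π : 𝓞 K) : Set (Matrix (Fin 2) (Fin 2) (𝓞 K)) :=
  {x | ∃ g ∈ Gamma0 N, ∃ h ∈ Gamma0 N,
    x = (g : Matrix (Fin 2) (Fin 2) (𝓞 K)) * !![π, 0; 0, 1] * (h : Matrix (Fin 2) (Fin 2) (𝓞 K))}

/-- `T_π c = a c` for a homomorphism `c : Γ₀(N) → k`, that is a class in `H¹(Γ₀(N), k)`: for a complete system `δ i` of
representatives of `Γ₀(N) \ Γ₀(N) diag(π, 1) Γ₀(N)` and every `γ ∈ Γ₀(N)` one has `δ i γ = g i δ (t i)` with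
`g i ∈ Γ₀(N)`, and `∑ c (g i) = a c γ`. -/
def HeckeEigen {k : Type*} [Field k] (N : Ideal (𝓞 K)) (π : 𝓞 K) (c : Gamma0 N →* Multiplicative k) (a : k) : Prop :=
  ∃ (r : ℕ) (δ : Fin r → Matrix (Fin 2) (Fin 2) (𝓞 K)), (∀ i, δ i ∈ DoubleCoset N π) ∧
    (∀ x ∈ DoubleCoset N π, ∃! i, ∃ g ∈ Gamma0 N, x = (g : Matrix (Fin 2) (Fin 2) (𝓞 K)) * δ i) ∧
    ∀ γ : Gamma0 N, ∃ (t : Fin r → Fin r) (g : Fin r → Gamma0 N),
      (∀ i, δ i * ((γ : GL (Fin 2) (𝓞 K)) : Matrix (Fin 2) (Fin 2) (𝓞 K)) =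
        ((g i : GL (Fin 2) (𝓞 K)) : Matrix (Fin 2) (Fin 2) (𝓞 K)) * δ (t i)) ∧
      ∑ i, (c (g i)).toAdd = a * (c γ).toAdd

/-- `a_π(E) = N(π) + 1 - #E(𝓞 K / π)` for a Weierstrass curve over `𝓞 K`. -/
noncomputable def aE (E : WeierstrassCurve (𝓞 K)) (π : 𝓞 K) : ℤ :=
  (Ideal.absNorm (Ideal.span {π}) : ℤ) + 1 -
    (Nat.card (E.map (Ideal.Quotient.mk (Ideal.span {π}))).toAffine.Point : ℤ)

end

section
variable {K L : Type*} [Field K] [NumberField K] [Field L] [NumberField L] [Algebra K L]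

/-- The level `N_{L/K}(m) disc(L/K)`. -/
noncomputable def level (K : Type*) {L : Type*} [Field K] [NumberField K] [Field L] [NumberField L] [Algebra K L]
    (m : Ideal (𝓞 L)) : Ideal (𝓞 K) :=
  Ideal.relNorm (𝓞 K) (m * differentIdeal (𝓞 K) (𝓞 L))

/-- `π` is a prime of `𝓞 K` not dividing `p N`, `N` the level. -/
def Good (m : Ideal (𝓞 L)) (p : ℕ) (π : 𝓞 K) : Prop :=
  Prime π ∧ ¬ π ∣ (p : 𝓞 K) ∧ ¬ level K m ≤ Ideal.span {π}

/-- `χ` is a character (with values in `k`) of the ideals of `𝓞 L` prime to `m p`, with `χ((x)) = r₁(x) r₂(x)` for the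
`x` prime to `p` which are `1` modulo `m` (so `m` is a modulus of `χ` away from `p`, and at `p` the weights of `χ` are `0`
and `1`: this is how a finite flat `Ind χ` behaves); and the determinant of `Ind χ` is the cyclotomic character modulo
`p`: for `π` not dividing `p N` the product of `χ((π))` and of the character of `L / K` at `π` is `N(π)`. -/
structure IsFlatCharacter (K : Type*) {L : Type*} [Field K] [NumberField K] [Field L] [NumberField L] [Algebra K L]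
    (p : ℕ) {k : Type*} [Field k] (r₁ r₂ : 𝓞 L →+* k) (m : Ideal (𝓞 L)) (χ : Ideal (𝓞 L) →*₀ k) : Prop where
  support : ∀ a, a ≠ ⊥ → (χ a ≠ 0 ↔ IsCoprime a (m * Ideal.span {(p : 𝓞 L)}))
  principal : ∀ x : 𝓞 L, x - 1 ∈ m → IsCoprime (Ideal.span {x}) (Ideal.span {(p : 𝓞 L)}) →
    χ (Ideal.span {x}) = r₁ x * r₂ x
  det : ∀ π : 𝓞 K, Good m p π → χ (Ideal.span {algebraMap (𝓞 K) (𝓞 L) π}) =
    (open Classical in if (Ideal.span {algebraMap (𝓞 K) (𝓞 L) π}).IsPrime then -1 else 1) *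
      (Ideal.absNorm (Ideal.span {π}) : k)

/-- `L` is a CM field with complex conjugation `cc`, and `r₂ = r₁ ∘ cc ∘ τ`. -/
def IsCMType (τ : L ≃ₐ[K] L) {k : Type*} [Field k] (r₁ r₂ : 𝓞 L →+* k) : Prop :=
  ∃ cc : L ≃+* L, (∀ (φ : L →+* ℂ) (x : L), φ (cc x) = (starRingEnd ℂ) (φ x)) ∧
    ∀ x y : 𝓞 L, (y : L) = cc (τ (x : L)) → r₂ x = r₁ y

/-- The trace of `Ind χ` at the Frobenius of `π`: the sum of `χ(w)` over the primes `w` of relative norm `(π)`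
(two if `π` splits in `L`, none if `π` is inert). -/
noncomputable def traceInd {k : Type*} [Field k] (χ : Ideal (𝓞 L) →*₀ k) (π : 𝓞 K) : k :=
  ∑ᶠ a ∈ {a : Ideal (𝓞 L) | Ideal.relNorm (𝓞 K) a = Ideal.span {π}}, χ a

/-- The case of CM type. -/
theorem cmcase (K L : Type) [Field K] [NumberField K] [Field L] [NumberField L] [Algebra K L] [IsTotallyComplex K]
    [IsPrincipalIdealRing (𝓞 K)] (hK : Module.finrank ℚ K = 2) (hL : Module.finrank K L = 2)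
    (τ : L ≃ₐ[K] L) (hτ : τ ≠ 1) (m : Ideal (𝓞 L)) (hm : m ≠ ⊥) (p : ℕ) (hp : p.Prime) (hp3 : 3 < p)
    (hmp : IsCoprime m (Ideal.span {(p : 𝓞 L)}))
    (k : Type) [Field k] [CharP k p] [IsAlgClosed k] (r₁ r₂ : 𝓞 L →+* k)
    (χ : Ideal (𝓞 L) →*₀ k) (hχ : IsFlatCharacter K p r₁ r₂ m χ) (hcm : IsCMType τ r₁ r₂) :
    ∃ c : Gamma0 (level K m) →* Multiplicative k, c ≠ 1 ∧
      (∀ π : 𝓞 K, Good m p π → HeckeEigen (level K m) π c (traceInd χ π)) := by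
  obtain ⟨cc, hcc, hr⟩ := hcm
  let F : Fld K L :=
    { deg := hK
      cplx := inferInstance
      pid := inferInstance
      deg2 := hL
      s := Classical.choice (inferInstance : Nonempty (L →+* ℂ))
      τ := τ
      τne := hτ
      cc := cc
      cj := hcc }
  have hg : ∀ π : 𝓞 K, GoodPrime m p π ↔ Good m p π := fun π =>
    ⟨fun h => ⟨h.prime, h.p, h.lev⟩, fun h => ⟨h.1, h.2.1, h.2.2⟩⟩
  let X : ModChi F m p k :=
    { pprime := hp
      p3 := hp3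
      char := inferInstance
      closed := inferInstance
      mne := hm
      mp := hmp
      r := r₁
      χ := χ
      ne := hχ.support
      h1 := fun x hx hxp => by
        have h1 : IsIntegral ℤ (F.τ (x : L)) := by
          have := x.isIntegral_coe.map (F.τ : L →ₐ[K] L).toRingHom.toIntAlgHom
          exact this
        have h2 : IsIntegral ℤ (F.cc (F.τ (x : L))) := by
          have := h1.map (F.cc : L →+* L).toIntAlgHom
          exact this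
        rw [hχ.principal x hx hxp, hr x ⟨F.cc (F.τ (x : L)), h2⟩ rfl, ← map_mul]
        rfl
      h2 := fun π hπ => hχ.det π ((hg π).1 hπ) }
  obtain ⟨c, hc, ⟨g, hgne⟩, hE⟩ := modchi_main X
  have hc1 : c 1 = 0 := by
    have := hc 1 1
    rw [mul_one] at this
    exact left_eq_add.mp this
  let c' : Gamma0 (level K m) →* Multiplicative k :=
    { toFun := fun g => Multiplicative.ofAdd (c g)
      map_one' := by
        change Multiplicative.ofAdd (c 1) = 1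
        rw [hc1]; rfl
      map_mul' := fun g h => congrArg Multiplicative.ofAdd (hc g h) }
  refine ⟨c', ?_, fun π hπ => hE π ((hg π).2 hπ)⟩
  intro h
  apply hgne
  have h1 : c' g = 1 := by rw [h]; rfl
  exact congrArg Multiplicative.toAdd h1

/-- The exceptional set. -/
theorem exceptional (K L : Type) [Field K] [NumberField K] [Field L] [NumberField L] [Algebra K L] [IsTotallyComplex K]
    [IsPrincipalIdealRing (𝓞 K)] (hK : Module.finrank ℚ K = 2) (hL : Module.finrank K L = 2)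
    (τ : L ≃ₐ[K] L) (hτ : τ ≠ 1) (m : Ideal (𝓞 L)) (hm : m ≠ ⊥) :
    ∃ S : Finset ℕ, ∀ p : ℕ, p.Prime → 3 < p → p ∉ S → IsCoprime m (Ideal.span {(p : 𝓞 L)}) →
      ∀ (k : Type) [Field k] [CharP k p] (r₁ r₂ : 𝓞 L →+* k) (χ : Ideal (𝓞 L) →*₀ k),
        IsFlatCharacter K p r₁ r₂ m χ → IsCMType τ r₁ r₂ := by
  classical
  obtain ⟨ε, hε1, hεm, φ, hφ⟩ := Z1_unit hK hL τ hτ hm
  obtain ⟨σ, hσ1, hσσ, hσ2, hσ3⟩ := Z3_conj hK
  have hi : IsIntegral ℤ (τ ((ε : 𝓞 L) : L)) := by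
    have := (ε : 𝓞 L).isIntegral_coe.map (τ : L →ₐ[K] L).toRingHom.toIntAlgHom
    exact this
  have hprod : ((ε : 𝓞 L)) * ⟨τ ((ε : 𝓞 L) : L), hi⟩ = 1 := by
    apply RingOfIntegers.ext
    exact hε1
  -- the trace
  have hquad : Algebra.IsQuadraticExtension K L := ⟨hL⟩
  have hgal : IsGalois K L := inferInstance
  have hall : ∀ g : L ≃ₐ[K] L, g = 1 ∨ g = τ := by
    intro g
    have hcard : Nat.card (L ≃ₐ[K] L) = 2 := by rw [IsGalois.card_aut_eq_finrank, hL]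
    by_contra hc
    push Not at hc
    have : ({1, τ, g} : Finset (L ≃ₐ[K] L)).card ≤ Nat.card (L ≃ₐ[K] L) := by
      rw [Nat.card_eq_fintype_card]
      exact Finset.card_le_univ _
    rw [hcard, Finset.card_eq_three.2 ⟨1, τ, g, hτ.symm, hc.1.symm, hc.2.symm, rfl⟩] at this
    omega
  obtain ⟨t, ht⟩ : ∃ t : 𝓞 K, ((ε : 𝓞 L)) + ⟨τ ((ε : 𝓞 L) : L), hi⟩ = algebraMap (𝓞 K) (𝓞 L) t := by
    have hττ : τ (τ ((ε : 𝓞 L) : L)) = ((ε : 𝓞 L) : L) := by
      rcases hall (τ * τ) with h | h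
      · exact DFunLike.congr_fun h ((ε : 𝓞 L) : L)
      · exact absurd (mul_eq_left.1 h) hτ
    obtain ⟨t, ht⟩ : ∃ t : K, algebraMap K L t = ((ε : 𝓞 L) : L) + τ ((ε : 𝓞 L) : L) := by
      have h1 := (IsGalois.mem_bot_iff_fixed (F := K) (E := L) (((ε : 𝓞 L) : L) + τ ((ε : 𝓞 L) : L))).2 (by
        intro g
        rcases hall g with rfl | rfl
        · rfl
        · rw [map_add, hττ, add_comm])
      exact IntermediateField.mem_bot.1 h1
    have hint : IsIntegral ℤ t := by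
      have h2 : IsIntegral ℤ (algebraMap K L t) := by
        rw [ht]
        exact (ε : 𝓞 L).isIntegral_coe.add hi
      exact (isIntegral_algebraMap_iff (algebraMap K L).injective).1 h2
    refine ⟨⟨t, hint⟩, ?_⟩
    apply RingOfIntegers.ext
    exact ht.symm
  have hpre : ∀ p : ℕ, p.Prime → 3 < p → IsCoprime m (Ideal.span {(p : 𝓞 L)}) →
      ∀ (k : Type) [Field k] [CharP k p] (r₁ r₂ : 𝓞 L →+* k) (χ : Ideal (𝓞 L) →*₀ k),
        IsFlatCharacter K p r₁ r₂ m χ → (∀ a : 𝓞 K, r₁ (algebraMap (𝓞 K) (𝓞 L) a) *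
          r₂ (algebraMap (𝓞 K) (𝓞 L) a) = ((Algebra.norm ℤ a : ℤ) : k)) ∧ r₁ (ε : 𝓞 L) * r₂ (ε : 𝓞 L) = 1 := by
    intro p hp hp3 hmp k _ _ r₁ r₂ χ hχ
    refine ⟨fun a => Z6_norm hK hm hp hp3 hmp r₁ r₂ χ hχ.principal (fun π hπ => ?_) a, ?_⟩
    · have := hχ.det π ⟨hπ.prime, hπ.p, hπ.lev⟩
      rw [up, this]
      split_ifs <;> ring
    · have htop : Ideal.span {(ε : 𝓞 L)} = ⊤ := Ideal.span_singleton_eq_top.2 ε.isUnit
      have hco : IsCoprime (Ideal.span {(ε : 𝓞 L)}) (Ideal.span {(p : 𝓞 L)}) := by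
        rw [htop, ← Ideal.one_eq_top]
        exact isCoprime_one_left
      rw [← hχ.principal (ε : 𝓞 L) hεm hco, htop, ← Ideal.one_eq_top]
      exact map_one χ
  by_cases hint : t = σ t
  · obtain ⟨n, hn⟩ := hσ3 t hint.symm
    obtain ⟨cc, hcc, hccε⟩ := Z2_cm hK hL τ ((ε : 𝓞 L) : L) hε1 φ hφ n (by
      have := congrArg (algebraMap (𝓞 L) L) ht
      rw [hn] at this
      simpa using this)
    obtain ⟨D, hD0, hD⟩ := Z4_type hL τ ε hε1 φ hφ σ hσ1 hσ2 cc hcc hccε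
    refine ⟨D.primeFactors, fun p hp hp3 hpS hmp k _ _ r₁ r₂ χ hχ => ?_⟩
    obtain ⟨hn1, hn2⟩ := hpre p hp hp3 hmp k r₁ r₂ χ hχ
    exact ⟨cc, hcc, hD p hp (fun h => hpS (Nat.mem_primeFactors.2 ⟨hp, h, hD0⟩)) k r₁ r₂ hn1 hn2⟩
  · refine ⟨(Algebra.norm ℤ (t - σ t)).natAbs.primeFactors, fun p hp hp3 hpS hmp k _ _ r₁ r₂ χ hχ => ?_⟩
    exfalso
    obtain ⟨hn1, hn2⟩ := hpre p hp hp3 hmp k r₁ r₂ χ hχ
    have h := Z3_div r₁ r₂ hn1 σ hσ1 (ε : 𝓞 L) ⟨τ ((ε : 𝓞 L) : L), hi⟩ hprod t ht hn2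
    apply hpS
    refine Nat.mem_primeFactors.2 ⟨hp, Int.natCast_dvd.1 h, ?_⟩
    rw [Int.natAbs_ne_zero]
    exact Algebra.norm_ne_zero_iff.2 (sub_ne_zero.2 hint)

/-- MAIN THEOREM. -/
theorem result (K L : Type) [Field K] [NumberField K] [Field L] [NumberField L] [Algebra K L] [IsTotallyComplex K]
    [IsPrincipalIdealRing (𝓞 K)] (hK : Module.finrank ℚ K = 2) (hL : Module.finrank K L = 2)
    (τ : L ≃ₐ[K] L) (hτ : τ ≠ 1) (m : Ideal (𝓞 L)) (hm : m ≠ ⊥) :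
    ∃ S : Finset ℕ, ∀ p : ℕ, p.Prime → 3 < p → IsCoprime m (Ideal.span {(p : 𝓞 L)}) →
      ∀ (k : Type) [Field k] [CharP k p] [IsAlgClosed k] (r₁ r₂ : 𝓞 L →+* k) (χ : Ideal (𝓞 L) →*₀ k),
        IsFlatCharacter K p r₁ r₂ m χ → (p ∉ S ∨ IsCMType τ r₁ r₂) →
        ∃ c : Gamma0 (level K m) →* Multiplicative k, c ≠ 1 ∧
          (∀ π : 𝓞 K, Good m p π → HeckeEigen (level K m) π c (traceInd χ π)) ∧
          ∀ E : WeierstrassCurve (𝓞 K), E.Δ ≠ 0 →
            (∀ π : 𝓞 K, Good m p π → ¬ π ∣ E.Δ → traceInd χ π = (aE E π : k)) →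
            ∀ π : 𝓞 K, Good m p π → ¬ π ∣ E.Δ → HeckeEigen (level K m) π c (aE E π : k) := by
  obtain ⟨S, hS⟩ := exceptional K L hK hL τ hτ m hm
  refine ⟨S, fun p hp hp3 hmp k _ _ _ r₁ r₂ χ hχ h => ?_⟩
  have hcm : IsCMType τ r₁ r₂ := h.elim (fun h => hS p hp hp3 h hmp k r₁ r₂ χ hχ) id
  obtain ⟨c, hc1, hc2⟩ := cmcase K L hK hL τ hτ m hm p hp hp3 hmp k r₁ r₂ χ hχ hcm
  refine ⟨c, hc1, hc2, fun E _ h π hπ hd => ?_⟩
  rw [← h π hπ hd]
  exact hc2 π hπ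

end

end Pool.Agent.H2S.Draft
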