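import Pool.Agent.Lib.H2S.J0

/-!
# U3: bounds from the level
-/

set_option autoImplicit false
namespace Pool.Agent.H2S
open Complex NumberField

variable {K L : Type*} [Field K] [NumberField K] [Field L] [NumberField L] [Algebra K L]

/-- PROOF. `lev K m = relNorm (m * 𝔡)`, `𝔡` the different, so `absNorm (lev K m) = absNorm (m * 𝔡) = absNorm m * absNorm 𝔡`
(`Ideal.absNorm_relNorm`), and both factors are positive (`m ≠ ⊥` because `lev K m ≠ ⊥`; `differentIdeal_ne_bot`).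
`natAbs_discr_eq_absNorm_differentIdeal_mul_natAbs_discr_pow K (𝓞 K) L (𝓞 L)`:
`(discr L).natAbs = absNorm 𝔡 * (discr K).natAbs ^ 2`. -/
theorem U3_bound (hL : Module.finrank K L = 2) {m : Ideal (𝓞 L)} (h : lev K m ≠ ⊥) :
    m ≠ ⊥ ∧ Ideal.absNorm m ≤ Ideal.absNorm (lev K m) ∧
      (discr L).natAbs ≤ Ideal.absNorm (lev K m) * (discr K).natAbs ^ 2 := by
  have h1 : Ideal.absNorm (lev K m) = Ideal.absNorm m * Ideal.absNorm (differentIdeal (𝓞 K) (𝓞 L)) := by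
    unfold lev
    rw [Ideal.absNorm_relNorm, map_mul]
  have hm : m ≠ ⊥ := by
    rintro rfl
    apply h
    unfold lev
    rw [Ideal.bot_mul, Ideal.relNorm_bot]
  have hd : differentIdeal (𝓞 K) (𝓞 L) ≠ ⊥ := differentIdeal_ne_bot
  have h2 : 0 < Ideal.absNorm m := Nat.pos_of_ne_zero fun h0 => hm (Ideal.absNorm_eq_zero_iff.1 h0)
  have h3 : 0 < Ideal.absNorm (differentIdeal (𝓞 K) (𝓞 L)) :=
    Nat.pos_of_ne_zero fun h0 => hd (Ideal.absNorm_eq_zero_iff.1 h0)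
  have h4 := natAbs_discr_eq_absNorm_differentIdeal_mul_natAbs_discr_pow K (𝓞 K) L (𝓞 L)
  rw [hL] at h4
  refine ⟨hm, ?_, ?_⟩
  · rw [h1]
    exact Nat.le_mul_of_pos_right _ h3
  · rw [h4, h1]
    exact Nat.mul_le_mul_right _ (Nat.le_mul_of_pos_left _ h2)

end Pool.Agent.H2S
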