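import Pool.Agent.Lib.H2S.U0

/-!
# U4: transport along an isomorphism
-/

set_option autoImplicit false
namespace Pool.Agent.H2S
open Complex NumberField

variable {K L L' : Type} [Field K] [NumberField K] [Field L] [NumberField L] [Algebra K L] [Field L'] [NumberField L']
  [Algebra K L']

/-- PROOF. Let `eO : 𝓞 L ≃+* 𝓞 L'` be the isomorphism given by `e` (`RingOfIntegers.mapRingEquiv`); it commutes with the
maps from `𝓞 K`.  Take `τ' = e.symm.trans (τ.trans e)` (or `e * τ * e⁻¹` in this order: `τ' (e x) = e (τ x)`),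
`m' = m.map eO` (and `m = m'.comap eO`, `Ideal.map_symm`, `Ideal.comap_symm`), `r i' = (r i).comp eO.symm`,
`χ' a = χ (a.map eO.symm) = χ (a.comap eO)`, which is a homomorphism of monoids with zero (`Ideal.map_mul`,
`Ideal.map_bot`, `Ideal.map_top`).  `Ideal.absNorm (m.map eO) = Ideal.absNorm m`: the quotients are isomorphic
(`Ideal.quotientEquiv`, `Ideal.absNorm_apply`, `Submodule.cardQuot_apply`, `Nat.card_congr`).  `UPre`: for `x' = eO x` and
`span {x'} = (span {x}).map eO` (`Ideal.map_span`); `up L' π = (up L π).map eO`.  `CMT`: for `cc' : L' ≃+* L'` take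
`cc = e.trans (cc'.trans e.symm)` (as ring isomorphisms); for `φ : L →+* ℂ` use `φ.comp e.symm : L' →+* ℂ`. -/
theorem U4_trans (e : L ≃ₐ[K] L') {N : Ideal (𝓞 K)} {p : ℕ} {m : Ideal (𝓞 L)} (hm : m ≠ ⊥)
    (hmp : IsCoprime m (Ideal.span {(p : 𝓞 L)})) (τ : L ≃ₐ[K] L) (hτ : τ ≠ 1) {k : Type} [Field k]
    (r₁ r₂ : 𝓞 L →+* k) (χ : Ideal (𝓞 L) →*₀ k) (h : UPre N p r₁ r₂ m χ) :
    ∃ (τ' : L' ≃ₐ[K] L') (m' : Ideal (𝓞 L')) (r₁' r₂' : 𝓞 L' →+* k) (χ' : Ideal (𝓞 L') →*₀ k), τ' ≠ 1 ∧ m' ≠ ⊥ ∧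
      Ideal.absNorm m' = Ideal.absNorm m ∧ IsCoprime m' (Ideal.span {(p : 𝓞 L')}) ∧ UPre N p r₁' r₂' m' χ' ∧
      (CMT τ' r₁' r₂' → CMT τ r₁ r₂) := by
  obtain ⟨eO, heO⟩ : ∃ eO : 𝓞 L ≃+* 𝓞 L', eO = RingOfIntegers.mapRingEquiv (e : L ≃+* L') := ⟨_, rfl⟩
  have hc : ∀ x : 𝓞 L, ((eO x : 𝓞 L') : L') = e (x : L) := by
    intro x
    rw [heO]
    rfl
  have halg : ∀ π : 𝓞 K, eO (algebraMap (𝓞 K) (𝓞 L) π) = algebraMap (𝓞 K) (𝓞 L') π := by
    intro π
    apply RingOfIntegers.ext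
    rw [hc]
    exact e.commutes (π : K)
  have halg' : ∀ π : 𝓞 K, eO.symm (algebraMap (𝓞 K) (𝓞 L') π) = algebraMap (𝓞 K) (𝓞 L) π := by
    intro π
    rw [← halg, RingEquiv.symm_apply_apply]
  obtain ⟨f, hf⟩ : ∃ f : 𝓞 L' →+* 𝓞 L, f = (eO.symm : 𝓞 L' →+* 𝓞 L) := ⟨_, rfl⟩
  have hfx : ∀ x, f x = eO.symm x := fun x => by rw [hf]; rfl
  have hfn : ∀ n : ℕ, f (n : 𝓞 L') = n := fun n => map_natCast f n
  have hspan : ∀ x : 𝓞 L', Ideal.map f (Ideal.span {x}) = Ideal.span {f x} := by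
    intro x
    rw [Ideal.map_span, Set.image_singleton]
  obtain ⟨m', hm'⟩ : ∃ m' : Ideal (𝓞 L'), m' = m.comap f := ⟨_, rfl⟩
  have hmem : ∀ x', x' ∈ m' ↔ f x' ∈ m := fun x' => by rw [hm', Ideal.mem_comap]
  have hsurj : Function.Surjective f := by
    intro x
    exact ⟨eO x, by rw [hfx, RingEquiv.symm_apply_apply]⟩
  have hmm : m = m'.map f := by rw [hm', Ideal.map_comap_of_surjective f hsurj]
  have hcard : Ideal.absNorm m' = Ideal.absNorm m := by
    rw [Ideal.absNorm_apply, Ideal.absNorm_apply, Submodule.cardQuot_apply, Submodule.cardQuot_apply]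
    exact Nat.card_congr (Ideal.quotientEquiv m' m eO.symm (by rw [← hf]; exact hmm)).toEquiv
  have hne : m' ≠ ⊥ := by
    intro h0
    apply hm
    rw [hmm, h0, Ideal.map_bot]
  obtain ⟨g, hg⟩ : ∃ g : 𝓞 L →+* 𝓞 L', g = (eO : 𝓞 L →+* 𝓞 L') := ⟨_, rfl⟩
  have hgm : m.map g = m' := by
    rw [hm', hf, hg]
    exact (Ideal.comap_symm eO).symm
  have hcop : IsCoprime m' (Ideal.span {(p : 𝓞 L')}) := by
    have h1 := hmp.map (Ideal.mapHom g)
    have h2 : Ideal.mapHom g m = m' := hgm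
    have h3 : Ideal.mapHom g (Ideal.span {(p : 𝓞 L)}) = Ideal.span {(p : 𝓞 L')} := by
      change Ideal.map g (Ideal.span {(p : 𝓞 L)}) = _
      rw [Ideal.map_span, Set.image_singleton, map_natCast]
    rwa [h2, h3] at h1
  refine ⟨e.symm.trans (τ.trans e), m', r₁.comp f, r₂.comp f, χ.comp (Ideal.mapHom f).toMonoidWithZeroHom, ?_, hne, hcard,
    hcop, ⟨?_, ?_⟩, ?_⟩
  · intro h1
    apply hτ
    apply AlgEquiv.ext
    intro x
    have h2 := DFunLike.congr_fun h1 (e x)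
    change e (τ (e.symm (e x))) = e x at h2
    rw [AlgEquiv.symm_apply_apply] at h2
    exact e.injective h2
  · intro x hx hxp
    have h1 : f x - 1 ∈ m := by
      have h2 := (hmem _).1 hx
      rwa [map_sub, map_one] at h2
    have h2 : IsCoprime (Ideal.span {f x}) (Ideal.span {(p : 𝓞 L)}) := by
      have h3 := hxp.map (Ideal.mapHom f)
      have h4 : Ideal.mapHom f (Ideal.span {x}) = Ideal.span {f x} := hspan x
      have h5 : Ideal.mapHom f (Ideal.span {(p : 𝓞 L')}) = Ideal.span {(p : 𝓞 L)} := by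
        rw [← hfn p]
        exact hspan _
      rwa [h4, h5] at h3
    have h3 := h.1 (f x) h1 h2
    change χ (Ideal.map f (Ideal.span {x})) = r₁ (f x) * r₂ (f x)
    rw [hspan]
    exact h3
  · intro π hπ
    have h1 := h.2 π hπ
    change χ (Ideal.map f (up L' π)) ^ 2 = _
    have h2 : Ideal.map f (up L' π) = up L π := by
      unfold up
      rw [hspan, hfx, halg']
    rw [h2]
    exact h1
  · rintro ⟨cc', hcc, hr⟩
    refine ⟨(e : L ≃+* L').trans (cc'.trans (e : L ≃+* L').symm), fun φ x => ?_, fun x y hxy => ?_⟩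
    · have h1 := hcc (φ.comp ((e : L ≃+* L').symm : L' →+* L)) (e x)
      change φ (e.symm (cc' (e x))) = (starRingEnd ℂ) (φ (e.symm (e x))) at h1
      rw [AlgEquiv.symm_apply_apply] at h1
      exact h1
    · have h1 := hr (eO x) (eO y) (by
        rw [hc, hc]
        change e (y : L) = cc' (e (τ (e.symm (e (x : L)))))
        rw [AlgEquiv.symm_apply_apply, hxy]
        change e (e.symm (cc' (e (τ (x : L))))) = _
        rw [AlgEquiv.apply_symm_apply])
      change r₂ (f (eO x)) = r₁ (f (eO y)) at h1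
      rw [hfx, hfx, RingEquiv.symm_apply_apply, RingEquiv.symm_apply_apply] at h1
      exact h1

end Pool.Agent.H2S
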