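import Pool.Agent.Lib.H2S.U2
import Pool.Agent.Lib.H2S.U3
import Pool.Agent.Lib.H2S.U4

/-!
# U5: the exceptional set depends only on the level
-/

set_option autoImplicit false
namespace Pool.Agent.H2S
open NumberField

/-- The exceptional primes of `(F, ι, m)`. -/
def u5_B {K : Type} [Field K] [NumberField K] (N : Ideal (𝓞 K)) (F : Type) [Field F] [NumberField F] (ι : K →+* F)
    (m : Ideal (𝓞 F)) : Set ℕ :=
  {p | p.Prime ∧ 3 < p ∧ (letI := ι.toAlgebra; Module.finrank K F = 2 ∧ m ≠ ⊥ ∧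
    IsCoprime m (Ideal.span {(p : 𝓞 F)}) ∧ ∃ (τ : F ≃ₐ[K] F) (k : Type) (_ : Field k) (_ : CharP k p)
      (r₁ r₂ : 𝓞 F →+* k) (χ : Ideal (𝓞 F) →*₀ k), τ ≠ 1 ∧ UPre N p r₁ r₂ m χ ∧ ¬ CMT τ r₁ r₂)}

theorem u5_fin {K : Type} [Field K] [NumberField K] [IsTotallyComplex K]
    [IsPrincipalIdealRing (𝓞 K)] (hK : Module.finrank ℚ K = 2) {N : Ideal (𝓞 K)} (hN : N ≠ ⊥) (F : Type) [Field F]
    [NumberField F] (ι : K →+* F) (m : Ideal (𝓞 F)) : (u5_B N F ι m).Finite := by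
  letI := ι.toAlgebra
  by_cases h1 : Module.finrank K F = 2
  · by_cases h2 : m = ⊥
    · refine Set.Finite.subset Set.finite_empty ?_
      rintro p ⟨-, -, -, h, -⟩
      exact absurd h2 h
    · obtain ⟨S, hS⟩ := U2_exc K F hK h1 hN h2
      refine Set.Finite.subset S.finite_toSet ?_
      rintro p ⟨hp, hp3, -, -, hmp, τ, k, i1, i2, r₁, r₂, χ, hτ, hpre, hcm⟩
      by_contra hpS
      exact hcm (hS p hp hp3 hpS hmp τ hτ k r₁ r₂ χ hpre)
  · refine Set.Finite.subset Set.finite_empty ?_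
    rintro p ⟨-, -, h, -⟩
    exact absurd h h1

/-- PROOF. For a subfield `L'` of `ℂ` (an `IntermediateField ℚ ℂ`), a ring homomorphism `ι : K → L'` and an ideal `m'` of
`𝓞 L'` let `B L' ι m'` be the set of the primes `p > 3` such that (with the algebra structure `ι.toAlgebra`)
`finrank K L' = 2`, `m' ≠ ⊥`, `m'` is prime to `p` and there are `τ' ≠ 1`, `k` (of characteristic `p`), `r₁', r₂', χ'`
with `UPre N p r₁' r₂' m' χ'` and not `CMT τ' r₁' r₂'`.  By `U2_exc` this is a finite set if `L'` is a number field.  Let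
`T` be the set of the `L'` which are number fields with `|discr L'| ≤ B₀ = absNorm N * |discr K| ^ 2`: a finite set
(`NumberField.finite_of_discr_bdd ℂ B₀`, image of a finite set of a subtype).  There are only finitely many
ring homomorphisms `K →+* L'` (they are `ℚ`-algebra homomorphisms, `K` is finite over `ℚ`; `Finite (K →ₐ[ℚ] L')` is an
instance, `RingHom.toRatAlgHom`), and finitely many ideals `m'` of `𝓞 L'` with `absNorm m' ≤ absNorm N`
(`Ideal.finite_setOf_absNorm_le`).  So the union of the `B L' ι m'` over these finite sets is finite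
(`Set.Finite.biUnion`, `Set.finite_iUnion`); let `S` be this union.
Let `p ∉ S` and `L, τ, m, k, r₁, r₂, χ` be given.  Let `s : L →+* ℂ` be an embedding and `L'` its image
(`(s.toRatAlgHom).fieldRange`), `ι = s' ∘ algebraMap K L` (`s' : L ≃ L'`), so that `s'` is an isomorphism of
`K`-algebras; `|discr L'| = |discr L| ≤ B₀` (`discr_eq_discr_of_ringEquiv`, `U3_bound`).  Apply `U4_trans`: if `CMT τ r₁ r₂` were
false then `CMT τ' r₁' r₂'` would be false and `p ∈ B L' ι m'`. -/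
theorem U5_exc (K : Type) [Field K] [NumberField K] [IsTotallyComplex K]
    [IsPrincipalIdealRing (𝓞 K)] (hK : Module.finrank ℚ K = 2) {N : Ideal (𝓞 K)} (hN : N ≠ ⊥) :
    ∃ S : Finset ℕ, ∀ p : ℕ, p.Prime → 3 < p → p ∉ S →
      ∀ (L : Type) [Field L] [NumberField L] [Algebra K L], Module.finrank K L = 2 →
      ∀ τ : L ≃ₐ[K] L, τ ≠ 1 → ∀ m : Ideal (𝓞 L), lev K m = N → IsCoprime m (Ideal.span {(p : 𝓞 L)}) →
      ∀ (k : Type) [Field k] [CharP k p] (r₁ r₂ : 𝓞 L →+* k) (χ : Ideal (𝓞 L) →*₀ k),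
        UPre N p r₁ r₂ m χ → CMT τ r₁ r₂ := by
  classical
  have hnf : ∀ i : {F : IntermediateField ℚ ℂ // FiniteDimensional ℚ F}, NumberField i.1 := fun i =>
    @NumberField.mk _ _ inferInstance i.2
  set B₀ : ℕ := Ideal.absNorm N * (discr K).natAbs ^ 2 with hB
  have hT := NumberField.finite_of_discr_bdd ℂ B₀
  set T := {F : {F : IntermediateField ℚ ℂ // FiniteDimensional ℚ F} |
      haveI : NumberField F := @NumberField.mk _ _ inferInstance F.prop
      |discr F| ≤ (B₀ : ℤ)} with hTd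
  have hfinι : ∀ i : {F : IntermediateField ℚ ℂ // FiniteDimensional ℚ F}, Finite (K →+* i.1) := by
    intro i
    have : Finite (K →ₐ[ℚ] i.1) := inferInstance
    exact Finite.of_injective (fun f : K →+* i.1 => f.toRatAlgHom) (fun f g h => by
      have := congrArg (fun a : K →ₐ[ℚ] i.1 => (a : K →+* i.1)) h
      simpa using this)
  have hU : (⋃ i ∈ T, ⋃ ι : K →+* i.1, ⋃ m ∈ {m : Ideal (𝓞 i.1) | Ideal.absNorm m ≤ Ideal.absNorm N},
      u5_B N i.1 ι m).Finite := by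
    refine hT.biUnion fun i _ => ?_
    have := hfinι i
    refine Set.finite_iUnion fun ι => ?_
    exact (Ideal.finite_setOf_absNorm_le _).biUnion fun m _ => u5_fin hK hN i.1 ι m
  refine ⟨hU.toFinset, fun p hp hp3 hpS L _ _ _ hL τ hτ m hlev hmp k _ _ r₁ r₂ χ hpre => ?_⟩
  by_contra hcm
  apply hpS
  rw [Set.Finite.mem_toFinset]
  obtain ⟨s⟩ : Nonempty (L →+* ℂ) := inferInstance
  let sA : L →ₐ[ℚ] ℂ := s.toRatAlgHom
  let L' : IntermediateField ℚ ℂ := sA.fieldRange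
  let f : L →ₐ[ℚ] L' := sA.codRestrict L'.toSubalgebra (fun x => ⟨x, rfl⟩)
  have hf : Function.Bijective f := by
    refine ⟨f.toRingHom.injective, ?_⟩
    rintro ⟨y, x, rfl⟩
    exact ⟨x, rfl⟩
  let e0 : L ≃ₐ[ℚ] L' := AlgEquiv.ofBijective f hf
  have hfd : FiniteDimensional ℚ L' := Module.Finite.equiv e0.toLinearEquiv
  let i : {F : IntermediateField ℚ ℂ // FiniteDimensional ℚ F} := ⟨L', hfd⟩
  let ι : K →+* i.1 := (e0 : L →+* L').comp (algebraMap K L)
  letI : Algebra K i.1 := ι.toAlgebra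
  let e : L ≃ₐ[K] i.1 := { (e0 : L ≃+* L') with commutes' := fun a => rfl }
  have hlev0 : lev K m ≠ ⊥ := by rw [hlev]; exact hN
  obtain ⟨hm, hb1, hb2⟩ := U3_bound hL hlev0
  obtain ⟨τ', m', r₁', r₂', χ', hτ', hm', hnm, hmp', hpre', hcm'⟩ := U4_trans e hm hmp τ hτ r₁ r₂ χ hpre
  have hiT : i ∈ T := by
    have h1 : discr i.1 = discr L := (discr_eq_discr_of_ringEquiv _ (e : L ≃+* i.1)).symm
    change |discr i.1| ≤ (B₀ : ℤ)
    rw [h1, Int.abs_eq_natAbs]
    rw [hlev] at hb2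
    exact_mod_cast hb2
  refine Set.mem_iUnion₂.2 ⟨i, hiT, Set.mem_iUnion.2 ⟨ι, Set.mem_iUnion₂.2 ⟨m', ?_, ?_⟩⟩⟩
  · change Ideal.absNorm m' ≤ Ideal.absNorm N
    rw [hnm, ← hlev]
    exact hb1
  · refine ⟨hp, hp3, ?_, hm', hmp', τ', k, inferInstance, inferInstance, r₁', r₂', χ', hτ', hpre', fun h => hcm (hcm' h)⟩
    rw [← hL]
    exact (e.toLinearEquiv.finrank_eq).symm

end Pool.Agent.H2S
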