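import Pool.Agent.Lib.H2S.T06

/-!
# H2S, chunk E01 (size S/M): a summable bound for the terms of `Ks`

Let `δ` be from `hk.lb`.  If `a i = 0` both terms are `0`.  If `a i ≠ 0`, `r = ‖w i‖ ≥ δ`, and for `P.2 ≥ t₀` (`t06V`, `t06D`)
`‖V P (w i)‖ ≤ (8 π ^ 2 δ ^ 2)⁻¹ exp (-(2 π t₀) r)`, `‖DV P (w i)‖ ≤ (δ⁻¹ + (δ ^ 2 t₀)⁻¹) exp (-(2 π t₀) r)`.
`u i = K * (‖a i‖ * exp (-(2 π t₀ * ‖w i‖)))` with `K` the sum of the two constants, summable by `hk.sm (2 π t₀)`.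
`‖a i • DV‖ ≤ ‖a i‖ ‖DV‖` (`norm_smul_le`).
`e01p`: `KS` is stable under polynomially bounded factors: `(1 + y) ^ n ≤ n! * exp (1 + y)`-like bounds:
for `c > 0`: `(1 + y) ^ n ≤ K exp (c y / 2)` for all `y ≥ 0` (`Real.pow_div_factorial_le_exp` applied to `(c / 2) (1 + y)`), so
`‖a' i‖ exp (- c y) ≤ C K ‖a i‖ exp (- (c / 2) y)`, `hk.sm (c / 2)`; and `a' i ≠ 0` implies `a i ≠ 0`.
(`C` may be replaced by `|C|`.)
-/

set_option autoImplicit false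
namespace Pool.Agent.H2S
open Complex MeasureTheory

theorem e01 {ι : Type*} {a w : ι → ℂ} (hk : KS a w) {t₀ : ℝ} (ht₀ : 0 < t₀) :
    ∃ u : ι → ℝ, Summable u ∧ ∀ i, ∀ P : ℂ × ℝ, t₀ ≤ P.2 → ‖a i * V P (w i)‖ ≤ u i ∧ ‖a i • DV P (w i)‖ ≤ u i := by
  obtain ⟨δ, hδ, hlb⟩ := hk.lb
  have hp := Real.pi_pos
  obtain ⟨K1, hK1⟩ : ∃ K1 : ℝ, K1 = (8 * Real.pi ^ 2 * δ ^ 2)⁻¹ := ⟨_, rfl⟩
  obtain ⟨K2, hK2⟩ : ∃ K2 : ℝ, K2 = δ⁻¹ + (δ ^ 2 * t₀)⁻¹ := ⟨_, rfl⟩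
  have hK1p : 0 < K1 := by rw [hK1]; positivity
  have hK2p : 0 < K2 := by rw [hK2]; positivity
  refine ⟨fun i => (K1 + K2) * (‖a i‖ * Real.exp (-(2 * Real.pi * t₀ * ‖w i‖))),
    (hk.sm (2 * Real.pi * t₀) (by positivity)).mul_left _, fun i P hP => ?_⟩
  have hsm : ‖a i • DV P (w i)‖ ≤ ‖a i‖ * ‖DV P (w i)‖ := ContinuousLinearMap.opNorm_smul_le (a i) (DV P (w i))
  show ‖a i * V P (w i)‖ ≤ (K1 + K2) * (‖a i‖ * Real.exp (-(2 * Real.pi * t₀ * ‖w i‖))) ∧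
    ‖a i • DV P (w i)‖ ≤ (K1 + K2) * (‖a i‖ * Real.exp (-(2 * Real.pi * t₀ * ‖w i‖)))
  by_cases ha : a i = 0
  · have h0 : ‖a i‖ = 0 := by rw [ha, norm_zero]
    rw [h0, zero_mul] at hsm
    rw [h0, zero_mul, mul_zero, norm_mul, h0, zero_mul]
    exact ⟨le_rfl, hsm⟩
  · have hr := hlb i ha
    have hr0 : 0 < ‖w i‖ := lt_of_lt_of_le hδ hr
    have hw : w i ≠ 0 := norm_pos_iff.1 hr0
    have hP3 : P ∈ H3 := lt_of_lt_of_le ht₀ hP
    have hV := t06V hP3 hw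
    have hD := t06D hP3 hw
    have hexp : Real.exp (-(2 * Real.pi * ‖w i‖ * P.2)) ≤ Real.exp (-(2 * Real.pi * t₀ * ‖w i‖)) := by
      apply Real.exp_le_exp.2
      have h1 : 2 * Real.pi * ‖w i‖ * t₀ ≤ 2 * Real.pi * ‖w i‖ * P.2 :=
        mul_le_mul_of_nonneg_left hP (by positivity)
      have h2 : 2 * Real.pi * t₀ * ‖w i‖ = 2 * Real.pi * ‖w i‖ * t₀ := by ring
      linarith
    have hc1 : (8 * Real.pi ^ 2 * ‖w i‖ ^ 2)⁻¹ ≤ K1 := by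
      rw [hK1]
      refine inv_anti₀ (by positivity) ?_
      refine mul_le_mul_of_nonneg_left ?_ (by positivity)
      exact pow_le_pow_left₀ hδ.le hr 2
    have hc2 : ‖w i‖⁻¹ + (‖w i‖ ^ 2 * P.2)⁻¹ ≤ K2 := by
      rw [hK2]
      refine add_le_add (inv_anti₀ hδ hr) (inv_anti₀ (by positivity) ?_)
      exact mul_le_mul (pow_le_pow_left₀ hδ.le hr 2) hP ht₀.le (by positivity)
    have hV2 : ‖V P (w i)‖ ≤ K1 * Real.exp (-(2 * Real.pi * t₀ * ‖w i‖)) :=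
      hV.trans (mul_le_mul hc1 hexp (Real.exp_pos _).le hK1p.le)
    have hD2 : ‖DV P (w i)‖ ≤ K2 * Real.exp (-(2 * Real.pi * t₀ * ‖w i‖)) :=
      hD.trans (mul_le_mul hc2 hexp (Real.exp_pos _).le hK2p.le)
    have hE := Real.exp_pos (-(2 * Real.pi * t₀ * ‖w i‖))
    constructor
    · rw [norm_mul]
      calc ‖a i‖ * ‖V P (w i)‖ ≤ ‖a i‖ * (K1 * Real.exp (-(2 * Real.pi * t₀ * ‖w i‖))) :=
            mul_le_mul_of_nonneg_left hV2 (norm_nonneg _)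
        _ = K1 * (‖a i‖ * Real.exp (-(2 * Real.pi * t₀ * ‖w i‖))) := by ring
        _ ≤ (K1 + K2) * (‖a i‖ * Real.exp (-(2 * Real.pi * t₀ * ‖w i‖))) :=
            mul_le_mul_of_nonneg_right (by linarith) (by positivity)
    · refine hsm.trans ?_
      calc ‖a i‖ * ‖DV P (w i)‖ ≤ ‖a i‖ * (K2 * Real.exp (-(2 * Real.pi * t₀ * ‖w i‖))) :=
            mul_le_mul_of_nonneg_left hD2 (norm_nonneg _)
        _ = K2 * (‖a i‖ * Real.exp (-(2 * Real.pi * t₀ * ‖w i‖))) := by ring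
        _ ≤ (K1 + K2) * (‖a i‖ * Real.exp (-(2 * Real.pi * t₀ * ‖w i‖))) :=
            mul_le_mul_of_nonneg_right (by linarith) (by positivity)

theorem e01p {ι : Type*} {a a' w : ι → ℂ} (hk : KS a w) (C : ℝ) (n : ℕ)
    (h : ∀ i, ‖a' i‖ ≤ C * (1 + ‖w i‖) ^ n * ‖a i‖) : KS a' w := by
  refine ⟨?_, fun c hc => ?_⟩
  · obtain ⟨δ, hδ, hlb⟩ := hk.lb
    refine ⟨δ, hδ, fun i hi => hlb i ?_⟩
    intro h0
    have h1 := h i
    rw [h0, norm_zero, mul_zero] at h1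
    exact hi (norm_le_zero_iff.1 h1)
  · obtain ⟨K, hK⟩ : ∃ K : ℝ, K = (n.factorial : ℝ) * Real.exp (c / 2) / (c / 2) ^ n := ⟨_, rfl⟩
    have hK0 : 0 < K := by
      rw [hK]
      have := Nat.factorial_pos n
      positivity
    have hb : ∀ y : ℝ, 0 ≤ y → (1 + y) ^ n ≤ K * Real.exp (c / 2 * y) := by
      intro y hy
      have h1 := Real.pow_div_factorial_le_exp (c / 2 * (1 + y)) (by positivity) n
      have h2 : (0:ℝ) < n.factorial := by exact_mod_cast Nat.factorial_pos n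
      rw [div_le_iff₀ h2, mul_pow] at h1
      have h3 : Real.exp (c / 2 * (1 + y)) = Real.exp (c / 2) * Real.exp (c / 2 * y) := by
        rw [← Real.exp_add]
        ring_nf
      rw [h3] at h1
      have h4 : 0 < (c / 2) ^ n := by positivity
      have h5 : K * Real.exp (c / 2 * y) = (Real.exp (c / 2) * Real.exp (c / 2 * y) * n.factorial) / (c / 2) ^ n := by
        rw [hK]
        ring
      rw [h5, le_div_iff₀ h4]
      calc (1 + y) ^ n * (c / 2) ^ n = (c / 2) ^ n * (1 + y) ^ n := mul_comm _ _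
        _ ≤ _ := h1
    have hs := (hk.sm (c / 2) (by positivity)).mul_left (|C| * K)
    refine Summable.of_nonneg_of_le (fun i => by positivity) (fun i => ?_) hs
    have h1 : ‖a' i‖ ≤ |C| * (K * Real.exp (c / 2 * ‖w i‖)) * ‖a i‖ := by
      refine (h i).trans ?_
      refine mul_le_mul_of_nonneg_right ?_ (norm_nonneg _)
      calc C * (1 + ‖w i‖) ^ n ≤ |C| * (1 + ‖w i‖) ^ n :=
            mul_le_mul_of_nonneg_right (le_abs_self _) (by positivity)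
        _ ≤ _ := mul_le_mul_of_nonneg_left (hb _ (norm_nonneg _)) (abs_nonneg _)
    calc ‖a' i‖ * Real.exp (-(c * ‖w i‖))
        ≤ |C| * (K * Real.exp (c / 2 * ‖w i‖)) * ‖a i‖ * Real.exp (-(c * ‖w i‖)) :=
          mul_le_mul_of_nonneg_right h1 (Real.exp_pos _).le
      _ = |C| * K * (‖a i‖ * (Real.exp (c / 2 * ‖w i‖) * Real.exp (-(c * ‖w i‖)))) := by ring
      _ = |C| * K * (‖a i‖ * Real.exp (-(c / 2 * ‖w i‖))) := by
          rw [← Real.exp_add]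
          ring_nf

end Pool.Agent.H2S
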