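import Pool.Agent.Lib.H2S.T04

/-!
# H2S, chunk T07 (size S/M): the derivative of `V`

`V P w = eT (P.1 * w) * kap ‖w‖ P.2`.  `eT (P.1 * w) = exp ((4 π Re (P.1 w) : ℝ) * I)`; the map `P ↦ 4 π Re (P.1 w)` is
real linear and continuous, so the derivative of the first factor is `ξ ↦ eT (P.1 * w) * ((4 π Re (ξ.1 w) : ℝ) * I)`
(`HasFDerivAt.cexp`); the second factor is `Complex.ofReal ∘ (kap ‖w‖) ∘ Prod.snd` (`t04a`, `HasDerivAt.comp_hasFDerivAt`,
`hasFDerivAt_snd`, `Complex.ofRealCLM`).  `HasFDerivAt.mul`, and compare the derivatives by `ContinuousLinearMap.ext`,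
`DV_apply` (`HasFDerivAt.congr_fderiv`).
-/

set_option autoImplicit false
namespace Pool.Agent.H2S
open Complex MeasureTheory

theorem t07 {P : ℂ × ℝ} (hP : P ∈ H3) {w : ℂ} (hw : w ≠ 0) : HasFDerivAt (fun Q => V Q w) (DV P w) P := by
  -- the first factor
  let L : ℂ × ℝ →L[ℝ] ℝ := (4 * Real.pi) • Complex.reCLM.comp
    (((ContinuousLinearMap.mul ℝ ℂ).flip w).comp (ContinuousLinearMap.fst ℝ ℂ ℝ))
  have hL : ∀ Q : ℂ × ℝ, L Q = 4 * Real.pi * (Q.1 * w).re := fun Q => rfl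
  have h1 : HasFDerivAt (fun Q : ℂ × ℝ => ((4 * Real.pi * (Q.1 * w).re : ℝ) : ℂ) * Complex.I)
      ((Complex.ofRealCLM.comp L).smulRight Complex.I) P := by
    have h : HasFDerivAt (fun Q : ℂ × ℝ => ((Complex.ofRealCLM.comp L).smulRight Complex.I) Q)
      ((Complex.ofRealCLM.comp L).smulRight Complex.I) P := ContinuousLinearMap.hasFDerivAt _
    exact h
  have h2 := h1.cexp
  -- the second factor
  have hk := t04a (r := ‖w‖) (t := P.2) (norm_pos_iff.2 hw) hP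
  have h3 : HasFDerivAt (fun Q : ℂ × ℝ => (kap ‖w‖ Q.2 : ℝ)) (kapt ‖w‖ P.2 • ContinuousLinearMap.snd ℝ ℂ ℝ) P :=
    HasDerivAt.comp_hasFDerivAt P hk hasFDerivAt_snd
  have h4 : HasFDerivAt (fun Q : ℂ × ℝ => ((kap ‖w‖ Q.2 : ℝ) : ℂ))
      (Complex.ofRealCLM.comp (kapt ‖w‖ P.2 • ContinuousLinearMap.snd ℝ ℂ ℝ)) P :=
    Complex.ofRealCLM.hasFDerivAt.comp P h3
  have h5 := h2.mul h4
  refine h5.congr_fderiv ?_
  refine ContinuousLinearMap.ext fun ξ => ?_
  rw [DV_apply]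
  simp only [ContinuousLinearMap.add_apply, ContinuousLinearMap.smul_apply, ContinuousLinearMap.smulRight_apply,
    ContinuousLinearMap.comp_apply, Complex.ofRealCLM_apply, hL, smul_eq_mul, ContinuousLinearMap.coe_snd', eT]
  push_cast
  ring

end Pool.Agent.H2S
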