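import Pool.Agent.Lib.H2S.E01
import Pool.Agent.Lib.H2S.T07

/-!
# H2S, chunk E02 (size M): differentiation of `Ks` term by term

`hasFDerivAt_tsum_of_isPreconnected` on the open convex set `{Q | P.2 / 2 < Q.2}` with the bound `u` of `e01` for `t₀ = P.2 / 2`
(`f i Q = a i * V Q (w i)`, `f' i Q = a i • DV Q (w i)`; for `a i ≠ 0`: `w i ≠ 0` by `hk.lb`, `t07` and `HasFDerivAt.const_mul`
(or `.const_smul`); for `a i = 0` both are `0`).
`e02s`: `e01` with `t₀ = P.2`.  `e02e`: evaluation at `ξ` is continuous and linear: `ContinuousLinearMap.apply`, `ContinuousLinearMap.map_tsum`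
(or `HasSum.mapL`), summability from `e02s`.
-/

set_option autoImplicit false
namespace Pool.Agent.H2S
open Complex MeasureTheory

theorem e02s {ι : Type*} {a w : ι → ℂ} (hk : KS a w) {P : ℂ × ℝ} (hP : P ∈ H3) :
    Summable (fun i => ‖a i * V P (w i)‖) ∧ Summable (fun i => ‖a i • DV P (w i)‖) := by
  obtain ⟨u, hu, hb⟩ := e01 hk (show 0 < P.2 from hP)
  exact ⟨Summable.of_nonneg_of_le (fun i => norm_nonneg _) (fun i => (hb i P le_rfl).1) hu,
    Summable.of_nonneg_of_le (fun i => norm_nonneg _) (fun i => (hb i P le_rfl).2) hu⟩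

theorem e02_one {ι : Type*} {a w : ι → ℂ} (hk : KS a w) {P : ℂ × ℝ} (hP : P ∈ H3) (i : ι) :
    HasFDerivAt (fun Q => a i * V Q (w i)) (a i • DV P (w i)) P := by
  by_cases ha : a i = 0
  · have h1 : (fun Q : ℂ × ℝ => a i * V Q (w i)) = fun _ => 0 := by
      funext Q
      rw [ha, zero_mul]
    have h2 : a i • DV P (w i) = 0 := by
      refine ContinuousLinearMap.ext fun ξ => ?_
      rw [ContinuousLinearMap.smul_apply, ha]
      exact zero_smul ℂ _
    rw [h1, h2]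
    exact hasFDerivAt_const _ _
  · obtain ⟨δ, hδ, hlb⟩ := hk.lb
    have hw : w i ≠ 0 := norm_pos_iff.1 (lt_of_lt_of_le hδ (hlb i ha))
    exact (t07 hP hw).const_mul (a i)

theorem e02 {ι : Type*} {a w : ι → ℂ} (hk : KS a w) {P : ℂ × ℝ} (hP : P ∈ H3) :
    HasFDerivAt (Ks a w) (∑' i, a i • DV P (w i)) P := by
  have hP' : 0 < P.2 := hP
  obtain ⟨u, hu, hb⟩ := e01 hk (show 0 < P.2 / 2 by linarith)
  have hopen : IsOpen {Q : ℂ × ℝ | P.2 / 2 < Q.2} := isOpen_lt continuous_const continuous_snd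
  have hconv : Convex ℝ {Q : ℂ × ℝ | P.2 / 2 < Q.2} := by
    intro Q hQ R hR x y hx hy hxy
    have hQ' : P.2 / 2 < Q.2 := hQ
    have hR' : P.2 / 2 < R.2 := hR
    show P.2 / 2 < (x • Q + y • R).2
    rw [Prod.snd_add, Prod.smul_snd, Prod.smul_snd, smul_eq_mul, smul_eq_mul]
    rcases hx.eq_or_lt with h | h
    · have hy1 : y = 1 := by rw [← h, zero_add] at hxy; exact hxy
      rw [← h, hy1]
      linarith
    · have h1 : x * (P.2 / 2) < x * Q.2 := mul_lt_mul_of_pos_left hQ' h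
      have h2 : y * (P.2 / 2) ≤ y * R.2 := mul_le_mul_of_nonneg_left hR'.le hy
      have h3 : P.2 / 2 = x * (P.2 / 2) + y * (P.2 / 2) := by rw [← add_mul, hxy, one_mul]
      linarith
  have hmem : ∀ Q : ℂ × ℝ, Q ∈ {Q : ℂ × ℝ | P.2 / 2 < Q.2} → Q ∈ H3 := by
    intro Q hQ
    have hQ' : P.2 / 2 < Q.2 := hQ
    show 0 < Q.2
    linarith
  have hPm : P ∈ {Q : ℂ × ℝ | P.2 / 2 < Q.2} := by
    show P.2 / 2 < P.2
    linarith
  have h := hasFDerivAt_tsum_of_isPreconnected (f := fun i Q => a i * V Q (w i))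
    (f' := fun i Q => a i • DV Q (w i)) hu hopen hconv.isPreconnected
    (fun i Q hQ => e02_one hk (hmem Q hQ) i)
    (fun i Q hQ => (hb i Q (le_of_lt hQ)).2) hPm ((e02s hk hP).1.of_norm) hPm
  exact h

theorem e02e {ι : Type*} {a w : ι → ℂ} (hk : KS a w) {P : ℂ × ℝ} (hP : P ∈ H3) (ξ : ℂ × ℝ) :
    (∑' i, a i • DV P (w i)) ξ = ∑' i, a i * DV P (w i) ξ := by
  have h1 := (ContinuousLinearMap.apply ℝ ℂ ξ).map_tsum (e02s hk hP).2.of_norm
  rw [ContinuousLinearMap.apply_apply] at h1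
  rw [h1]
  refine tsum_congr fun i => ?_
  rw [ContinuousLinearMap.apply_apply]
  rfl

end Pool.Agent.H2S
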