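import Pool.Agent.Lib.H2S.TD

/-!
# H2S, chunk X00 (size S/M): the mean of a character over a period parallelogram

With `k = 2 Re (w v₁)`, `l = 2 Re (w v₂)` (integers): `eT (w (x v₁ + y v₂)) = exp (2 π I k x) * exp (2 π I l y)` (`4 π Re (w (x v₁ + y v₂)) =
2 π (k x + l y)`), so the integral is the product of `∫ exp (2 π I k x)` and `∫ exp (2 π I l y)` (`intervalIntegral.integral_const_mul`,
`integral_mul_const`), and `∫ x in 0..1, exp (2 π I k x) = 0` for `k ≠ 0` (`integral_exp_mul_complex`, `Complex.exp_int_mul_two_pi_mul_I`).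
If `k = l = 0`: `Re (w v₁) = Re (w v₂) = 0`, and `1 = α v₁ + β v₂`, `I = ..` with real coefficients (`v₁`, `v₂` is a real basis of `ℂ`: two linearly
independent vectors in dimension two, `LinearIndependent.span_eq_top_of_card_eq_finrank'`, `Complex.finrank_real_complex`), so `Re (w z) = 0`
for all `z`; for `z = conj w` this is `‖w‖ ^ 2 = 0`, `w = 0`, contradiction.
-/

set_option autoImplicit false
namespace Pool.Agent.H2S
open Complex MeasureTheory

theorem x00_int {k : ℤ} (hk : k ≠ 0) :
    ∫ x in (0 : ℝ)..1, Complex.exp (2 * Real.pi * Complex.I * k * (x : ℂ)) = 0 := by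
  have hc : (2 * Real.pi * Complex.I * k : ℂ) ≠ 0 := by
    have : (k : ℂ) ≠ 0 := by exact_mod_cast hk
    have h2 : (Real.pi : ℂ) ≠ 0 := by exact_mod_cast Real.pi_ne_zero
    simp [this, h2]
  rw [integral_exp_mul_complex hc]
  have h1 : Complex.exp (2 * Real.pi * Complex.I * k * ((1 : ℝ) : ℂ)) = 1 := by
    have h3 := Complex.exp_int_mul_two_pi_mul_I k
    rw [← h3]
    congr 1
    push_cast
    ring
  rw [h1]
  simp

theorem x00 {v₁ v₂ w : ℂ} (hv : LinearIndependent ℝ ![v₁, v₂]) (hw : w ≠ 0) (h1 : ∃ k : ℤ, 2 * (w * v₁).re = k)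
    (h2 : ∃ k : ℤ, 2 * (w * v₂).re = k) :
    ∫ x in (0 : ℝ)..1, ∫ y in (0 : ℝ)..1, eT (w * ((x : ℂ) * v₁ + (y : ℂ) * v₂)) = 0 := by
  obtain ⟨k, hk⟩ := h1
  obtain ⟨l, hl⟩ := h2
  have e1 : ∀ x y : ℝ, eT (w * ((x : ℂ) * v₁ + (y : ℂ) * v₂)) =
      Complex.exp (2 * Real.pi * Complex.I * k * (x : ℂ)) *
        Complex.exp (2 * Real.pi * Complex.I * l * (y : ℂ)) := by
    intro x y
    rw [← Complex.exp_add]
    unfold eT
    congr 1
    have h3 : (w * ((x : ℂ) * v₁ + (y : ℂ) * v₂)).re = x * (w * v₁).re + y * (w * v₂).re := by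
      simp only [Complex.mul_re, Complex.add_re, Complex.add_im, Complex.mul_im, Complex.ofReal_re,
        Complex.ofReal_im]
      ring
    have h4 : 4 * Real.pi * (w * ((x : ℂ) * v₁ + (y : ℂ) * v₂)).re =
        2 * Real.pi * (x * k + y * l) := by
      rw [h3, ← hk, ← hl]
      ring
    rw [h4]
    push_cast
    ring
  have e2 : ∀ x : ℝ, ∫ y in (0 : ℝ)..1, eT (w * ((x : ℂ) * v₁ + (y : ℂ) * v₂)) =
      Complex.exp (2 * Real.pi * Complex.I * k * (x : ℂ)) *
        ∫ y in (0 : ℝ)..1, Complex.exp (2 * Real.pi * Complex.I * l * (y : ℂ)) := by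
    intro x
    rw [← intervalIntegral.integral_const_mul]
    exact intervalIntegral.integral_congr (fun y _ => e1 x y)
  have e3 : ∫ x in (0 : ℝ)..1, ∫ y in (0 : ℝ)..1, eT (w * ((x : ℂ) * v₁ + (y : ℂ) * v₂)) =
      (∫ x in (0 : ℝ)..1, Complex.exp (2 * Real.pi * Complex.I * k * (x : ℂ))) *
        ∫ y in (0 : ℝ)..1, Complex.exp (2 * Real.pi * Complex.I * l * (y : ℂ)) := by
    rw [← intervalIntegral.integral_mul_const]
    exact intervalIntegral.integral_congr (fun x _ => e2 x)
  rw [e3]
  by_cases hk0 : k = 0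
  · by_cases hl0 : l = 0
    · exfalso
      subst hk0 hl0
      have r1 : (w * v₁).re = 0 := by
        have := hk
        push_cast at this
        linarith
      have r2 : (w * v₂).re = 0 := by
        have := hl
        push_cast at this
        linarith
      rw [LinearIndependent.pair_iff] at hv
      have e4 : w * v₁ = ((w * v₁).im : ℂ) * Complex.I := by
        apply Complex.ext <;> simp [r1]
      have e5 : w * v₂ = ((w * v₂).im : ℂ) * Complex.I := by
        apply Complex.ext <;> simp [r2]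
      have e6 : (w * v₂).im • v₁ + (-(w * v₁).im) • v₂ = 0 := by
        rw [Complex.real_smul, Complex.real_smul]
        apply mul_left_cancel₀ hw
        rw [mul_zero, mul_add]
        have : w * (((w * v₂).im : ℂ) * v₁) + w * (((-(w * v₁).im : ℝ) : ℂ) * v₂) =
            ((w * v₂).im : ℂ) * (w * v₁) - ((w * v₁).im : ℂ) * (w * v₂) := by
          push_cast
          ring
        rw [this, e4, e5]
        simp
        ring
      obtain ⟨h5, h6⟩ := hv _ _ e6
      have h7 : (w * v₁).im = 0 := by linarith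
      have h8 : w * v₁ = 0 := by rw [e4, h7]; simp
      have h9 : v₁ = 0 := (mul_eq_zero.1 h8).resolve_left hw
      have h10 := hv 1 0 (by rw [h9]; simp)
      exact one_ne_zero h10.1
    · rw [x00_int hl0, mul_zero]
  · rw [x00_int hk0, zero_mul]

end Pool.Agent.H2S
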