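import Pool.Agent.Lib.H2S.T06
import Pool.Agent.Lib.H2S.X00

/-!
# H2S, chunk E05 (size M): `Ks` is an oscillating series

Index type `{i // a i ≠ 0}`, `c i t = a i * kap ‖w i‖ t`, frequency `w i` (nonzero by `hk.lb`).  For `t > 0` (`t06a`, `t06p`):
`‖c i t‖ ≤ (8 π ^ 2 δ ^ 2)⁻¹ ‖a i‖ exp (-(2 π t) ‖w i‖)`: summable (`hk.sm`, `Summable.subtype`).  For `t ≥ 1`: `2 π r t ≥ π r + π δ t`
(`r ≥ δ`, `r t ≥ r`), so `∑ ‖c i t‖ ≤ K exp (- π δ t)` with `K = (8 π ^ 2 δ ^ 2)⁻¹ ∑ ‖a i‖ exp (- π ‖w i‖)`, which tends to `0`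
(`squeeze_zero'`, `Summable.tsum_le_tsum`).  The series: the terms with `a i = 0` vanish (`tsum_subtype_eq_of_support_subset`, or
`tsum_subtype`), `V P w = eT (P.1 w) kap ‖w‖ P.2`, `mul_comm`.
`e05n`: suppose `a i₀ ≠ 0`; `w i₀ ≠ 0`.  With `t = 1`, `z = x v₁ + y v₂`: multiply `∑ a i kap ‖w i‖ 1 eT (w i z) = C` by `eT (- w i₀ z)` and integrate over
`x, y ∈ [0, 1]`: `eT (w i z) eT (- w i₀ z) = eT ((w i - w i₀) z)`, whose mean is `0` for `i ≠ i₀` with `a i ≠ 0` (`x00`, `w i ≠ w i₀`) and `1` for `i = i₀`; exchange sum and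
integral (`intervalIntegral.hasSum_integral_of_summable_norm`-like, twice, or view the double integral as an integral over the square;
the terms are bounded by the summable `‖a i‖ kap ‖w i‖ 1`).  So `a i₀ kap ‖w i₀‖ 1 = C * (mean of eT (- w i₀ z)) = 0` (`x00`), contradiction with `t06p`.
-/

set_option autoImplicit false
namespace Pool.Agent.H2S
open Complex MeasureTheory

theorem e05_bd {ι : Type} {a w : ι → ℂ} {δ : ℝ} (hδ : 0 < δ) (hl : ∀ i, a i ≠ 0 → δ ≤ ‖w i‖) {t : ℝ} (ht : 0 < t) (i : {i // a i ≠ 0}) :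
    ‖a i.1 * ((kap ‖w i.1‖ t : ℝ) : ℂ)‖ ≤ (8 * Real.pi ^ 2 * δ ^ 2)⁻¹ * (‖a i.1‖ * Real.exp (-(2 * Real.pi * t * ‖w i.1‖))) := by
  have hw : 0 < ‖w i.1‖ := lt_of_lt_of_le hδ (hl i.1 i.2)
  have hp := Real.pi_pos
  rw [norm_mul, Complex.norm_real, Real.norm_eq_abs, abs_of_pos (t06p hw ht)]
  have h1 := t06a hw ht
  have h2 : (8 * Real.pi ^ 2 * ‖w i.1‖ ^ 2)⁻¹ ≤ (8 * Real.pi ^ 2 * δ ^ 2)⁻¹ := by
    refine inv_anti₀ (by positivity) ?_
    have h3 : δ ^ 2 ≤ ‖w i.1‖ ^ 2 := pow_le_pow_left₀ hδ.le (hl i.1 i.2) 2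
    exact mul_le_mul_of_nonneg_left h3 (by positivity)
  have e : -(2 * Real.pi * ‖w i.1‖ * t) = -(2 * Real.pi * t * ‖w i.1‖) := by ring
  rw [e] at h1
  have h4 := mul_le_mul_of_nonneg_right h2 (Real.exp_pos (-(2 * Real.pi * t * ‖w i.1‖))).le
  have h5 := mul_le_mul_of_nonneg_left (h1.trans h4) (norm_nonneg (a i.1))
  linarith

theorem e05_sum {ι : Type} {a w : ι → ℂ} (hk : KS a w) {t : ℝ} (ht : 0 < t) :
    Summable fun i : {i // a i ≠ 0} => ‖a i.1 * ((kap ‖w i.1‖ t : ℝ) : ℂ)‖ := by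
  obtain ⟨δ, hδ, hl⟩ := hk.lb
  have hp := Real.pi_pos
  have h := (((hk.sm (2 * Real.pi * t) (by positivity)).subtype {i | a i ≠ 0}).mul_left (8 * Real.pi ^ 2 * δ ^ 2)⁻¹)
  exact Summable.of_nonneg_of_le (fun _ => norm_nonneg _) (fun i => e05_bd hδ hl ht i) h

theorem e05_series {ι : Type} (a w : ι → ℂ) (P : ℂ × ℝ) :
    Ks a w P = ∑' i : {i // a i ≠ 0}, a i.1 * ((kap ‖w i.1‖ P.2 : ℝ) : ℂ) * eT (w i.1 * P.1) := by
  have h1 : Function.support (fun i => a i * V P (w i)) ⊆ {i | a i ≠ 0} := by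
    intro i hi h0
    refine hi ?_
    show a i * V P (w i) = 0
    rw [show a i = 0 from h0, zero_mul]
  unfold Ks
  rw [← tsum_subtype_eq_of_support_subset h1]
  refine tsum_congr fun i => ?_
  show a i.1 * (eT (P.1 * w i.1) * ((kap ‖w i.1‖ P.2 : ℝ) : ℂ)) = _
  rw [mul_comm P.1 (w i.1)]
  ring

theorem e05_swap {J : Type} [Countable J] (f : J → ℝ → ℂ) (hc : ∀ j, Continuous (f j)) (u : J → ℝ) (hu : Summable u)
    (hb : ∀ j x, ‖f j x‖ ≤ u j) : ∫ x in (0 : ℝ)..1, ∑' j, f j x = ∑' j, ∫ x in (0 : ℝ)..1, f j x := by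
  have h := intervalIntegral.hasSum_integral_of_dominated_convergence (μ := volume) (a := 0) (b := 1) (F := f) (f := fun x => ∑' j, f j x)
    (fun j _ => u j) (fun j => (hc j).aestronglyMeasurable) (fun j => Filter.Eventually.of_forall fun x _ => hb j x)
    (Filter.Eventually.of_forall fun _ _ => hu) intervalIntegrable_const
    (Filter.Eventually.of_forall fun x _ => (Summable.of_norm_bounded hu fun j => hb j x).hasSum)
  exact h.tsum_eq.symm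

theorem e05_cont (w v₁ v₂ : ℂ) : Continuous fun p : ℝ × ℝ => eT (w * ((p.1 : ℂ) * v₁ + (p.2 : ℂ) * v₂)) := by
  unfold eT
  fun_prop

theorem e05_eT_mul (u v : ℂ) : eT u * eT v = eT (u + v) := by
  unfold eT
  rw [← Complex.exp_add]
  congr 1
  rw [Complex.add_re]
  push_cast
  ring

theorem e05_eT_zero : eT 0 = 1 := by
  unfold eT
  simp

theorem e05_int {J : Type} [Countable J] (c : J → ℂ) (hcs : Summable fun j => ‖c j‖) (q : J → ℂ) (v₁ v₂ : ℂ) (j0 : J) (h0 : q j0 = 0)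
    (hz : ∀ j, j ≠ j0 → ∫ x in (0 : ℝ)..1, ∫ y in (0 : ℝ)..1, eT (q j * ((x : ℂ) * v₁ + (y : ℂ) * v₂)) = 0) :
    ∫ x in (0 : ℝ)..1, ∫ y in (0 : ℝ)..1, ∑' j, c j * eT (q j * ((x : ℂ) * v₁ + (y : ℂ) * v₂)) = c j0 := by
  have hnrm : ∀ (j : J) (z : ℂ), ‖c j * eT z‖ = ‖c j‖ := by
    intro j z
    rw [norm_mul, t06e, mul_one]
  have hcont : ∀ j : J, Continuous (Function.uncurry fun x y : ℝ => c j * eT (q j * ((x : ℂ) * v₁ + (y : ℂ) * v₂))) := by
    intro j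
    unfold eT Function.uncurry
    fun_prop
  have e1 : ∀ x : ℝ, ∫ y in (0 : ℝ)..1, ∑' j : J, c j * eT (q j * ((x : ℂ) * v₁ + (y : ℂ) * v₂)) =
      ∑' j : J, ∫ y in (0 : ℝ)..1, c j * eT (q j * ((x : ℂ) * v₁ + (y : ℂ) * v₂)) := by
    intro x
    refine e05_swap (fun (j : J) (y : ℝ) => c j * eT (q j * ((x : ℂ) * v₁ + (y : ℂ) * v₂))) (fun j => ?_) (fun j => ‖c j‖) hcs
      fun j y => (hnrm j _).le
    show Continuous fun y : ℝ => c j * eT (q j * ((x : ℂ) * v₁ + (y : ℂ) * v₂))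
    unfold eT
    fun_prop
  have e2 : ∫ x in (0 : ℝ)..1, ∑' j : J, ∫ y in (0 : ℝ)..1, c j * eT (q j * ((x : ℂ) * v₁ + (y : ℂ) * v₂)) =
      ∑' j : J, ∫ x in (0 : ℝ)..1, ∫ y in (0 : ℝ)..1, c j * eT (q j * ((x : ℂ) * v₁ + (y : ℂ) * v₂)) := by
    refine e05_swap (fun (j : J) (x : ℝ) => ∫ y in (0 : ℝ)..1, c j * eT (q j * ((x : ℂ) * v₁ + (y : ℂ) * v₂))) (fun j => ?_) (fun j => ‖c j‖) hcs
      fun j x => ?_
    · exact intervalIntegral.continuous_parametric_intervalIntegral_of_continuous' (hcont j) 0 1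
    · refine (intervalIntegral.norm_integral_le_of_norm_le_const (C := ‖c j‖) fun y _ => (hnrm j _).le).trans ?_
      simp
  simp only [e1]
  rw [e2, tsum_eq_single j0]
  · simp only [h0, zero_mul, e05_eT_zero, mul_one, intervalIntegral.integral_const, sub_zero, one_smul]
  · intro j hj
    simp only [intervalIntegral.integral_const_mul]
    rw [hz j hj, mul_zero]

theorem e05 {ι : Type} {a w : ι → ℂ} (hk : KS a w) {v₁ v₂ : ℂ} (h1 : ∀ i, a i ≠ 0 → ∃ k : ℤ, 2 * (w i * v₁).re = k)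
    (h2 : ∀ i, a i ≠ 0 → ∃ k : ℤ, 2 * (w i * v₂).re = k) : Osc v₁ v₂ (Ks a w) := by
  obtain ⟨δ, hδ, hl⟩ := hk.lb
  have hp := Real.pi_pos
  refine ⟨{i // a i ≠ 0}, fun i t => a i.1 * ((kap ‖w i.1‖ t : ℝ) : ℂ), fun i => w i.1, fun i => ?_, fun i => h1 i.1 i.2,
    fun i => h2 i.1 i.2, fun t ht => e05_sum hk ht, ?_, fun P _ => e05_series a w P⟩
  · exact norm_pos_iff.1 (lt_of_lt_of_le hδ (hl i.1 i.2))
  · set K : ℝ := ∑' i : {i // a i ≠ 0}, (8 * Real.pi ^ 2 * δ ^ 2)⁻¹ * (‖a i.1‖ * Real.exp (-(Real.pi * ‖w i.1‖))) with hK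
    have hS : Summable fun i : {i // a i ≠ 0} => (8 * Real.pi ^ 2 * δ ^ 2)⁻¹ * (‖a i.1‖ * Real.exp (-(Real.pi * ‖w i.1‖))) :=
      ((hk.sm Real.pi hp).subtype {i | a i ≠ 0}).mul_left _
    have hlim : Filter.Tendsto (fun t : ℝ => K * Real.exp (-(Real.pi * δ * t))) Filter.atTop (nhds 0) := by
      have h3 : Filter.Tendsto (fun t : ℝ => Real.pi * δ * t) Filter.atTop Filter.atTop :=
        Filter.tendsto_id.const_mul_atTop (by positivity)
      have h4 := (Real.tendsto_exp_neg_atTop_nhds_zero.comp h3).const_mul K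
      rw [mul_zero] at h4
      exact h4
    refine squeeze_zero' (Filter.Eventually.of_forall fun t => tsum_nonneg fun i => norm_nonneg _) ?_ hlim
    filter_upwards [Filter.eventually_ge_atTop (1 : ℝ)] with t ht
    have ht0 : 0 < t := by linarith
    rw [hK, ← tsum_mul_right]
    refine Summable.tsum_le_tsum (fun i => ?_) (e05_sum hk ht0) (hS.mul_right _)
    refine (e05_bd hδ hl ht0 i).trans ?_
    have hw := hl i.1 i.2
    have e1 : Real.exp (-(2 * Real.pi * t * ‖w i.1‖)) ≤ Real.exp (-(Real.pi * ‖w i.1‖)) * Real.exp (-(Real.pi * δ * t)) := by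
      rw [← Real.exp_add, Real.exp_le_exp]
      have h5 : Real.pi * ‖w i.1‖ ≤ Real.pi * ‖w i.1‖ * t := by
        have h6 : 0 ≤ Real.pi * ‖w i.1‖ := by positivity
        nlinarith
      have h7 : Real.pi * δ * t ≤ Real.pi * ‖w i.1‖ * t := by
        refine mul_le_mul_of_nonneg_right ?_ ht0.le
        exact mul_le_mul_of_nonneg_left hw hp.le
      nlinarith
    have h8 := mul_le_mul_of_nonneg_left e1 (norm_nonneg (a i.1))
    have h9 := mul_le_mul_of_nonneg_left h8 (show (0 : ℝ) ≤ (8 * Real.pi ^ 2 * δ ^ 2)⁻¹ by positivity)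
    refine h9.trans (le_of_eq ?_)
    ring

theorem e05n {ι : Type} {a w : ι → ℂ} (hk : KS a w) {v₁ v₂ : ℂ} (hv : LinearIndependent ℝ ![v₁, v₂])
    (h1 : ∀ i, a i ≠ 0 → ∃ k : ℤ, 2 * (w i * v₁).re = k) (h2 : ∀ i, a i ≠ 0 → ∃ k : ℤ, 2 * (w i * v₂).re = k)
    (hw : Function.Injective w) (C : ℂ) (h : ∀ P ∈ H3, Ks a w P = C) (i : ι) : a i = 0 := by
  by_contra hi
  obtain ⟨δ, hδ, hl⟩ := hk.lb
  have hwi : 0 < ‖w i‖ := lt_of_lt_of_le hδ (hl i hi)
  have hJ : Countable {i // a i ≠ 0} := by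
    have h3 := (hk.sm 1 one_pos).countable_support
    refine (h3.mono ?_).to_subtype
    intro j hj
    refine mul_ne_zero (norm_ne_zero_iff.2 hj) (Real.exp_pos _).ne'
  set c : {i // a i ≠ 0} → ℂ := fun j => a j.1 * ((kap ‖w j.1‖ 1 : ℝ) : ℂ) with hc
  have hcs : Summable fun j => ‖c j‖ := e05_sum hk one_pos
  have hser : ∀ z : ℂ, ∑' j : {i // a i ≠ 0}, c j * eT ((w j.1 - w i) * z) = C * eT (-w i * z) := by
    intro z
    have h3 := h (z, 1) (show (0 : ℝ) < 1 from one_pos)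
    rw [e05_series] at h3
    rw [← h3, ← tsum_mul_right]
    refine tsum_congr fun j => ?_
    show c j * eT ((w j.1 - w i) * z) = c j * eT (w j.1 * z) * eT (-w i * z)
    rw [mul_assoc (c j) (eT (w j.1 * z)), e05_eT_mul]
    congr 2
    ring
  have hL : ∫ x in (0 : ℝ)..1, ∫ y in (0 : ℝ)..1, ∑' j : {i // a i ≠ 0}, c j * eT ((w j.1 - w i) * ((x : ℂ) * v₁ + (y : ℂ) * v₂)) = c ⟨i, hi⟩ := by
    refine e05_int c hcs (fun j => w j.1 - w i) v₁ v₂ ⟨i, hi⟩ (sub_self _) fun j hj => ?_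
    refine x00 hv (sub_ne_zero.2 fun h3 => hj (Subtype.ext (hw h3))) ?_ ?_
    · obtain ⟨k, hk1⟩ := h1 j.1 j.2
      obtain ⟨l, hl1⟩ := h1 i hi
      refine ⟨k - l, ?_⟩
      rw [sub_mul, Complex.sub_re, mul_sub, hk1, hl1]
      push_cast
      ring
    · obtain ⟨k, hk1⟩ := h2 j.1 j.2
      obtain ⟨l, hl1⟩ := h2 i hi
      refine ⟨k - l, ?_⟩
      rw [sub_mul, Complex.sub_re, mul_sub, hk1, hl1]
      push_cast
      ring
  simp only [hser] at hL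
  simp only [intervalIntegral.integral_const_mul] at hL
  rw [x00 hv (neg_ne_zero.2 (norm_pos_iff.1 hwi)), mul_zero] at hL
  · have h3 : a i * ((kap ‖w i‖ 1 : ℝ) : ℂ) = 0 := hL.symm
    rcases mul_eq_zero.1 h3 with h4 | h4
    · exact hi h4
    · exact (t06p hwi one_pos).ne' (by exact_mod_cast h4)
  · obtain ⟨l, hl1⟩ := h1 i hi
    refine ⟨-l, ?_⟩
    rw [neg_mul, Complex.neg_re, mul_neg, hl1]
    push_cast
    ring
  · obtain ⟨l, hl1⟩ := h2 i hi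
    refine ⟨-l, ?_⟩
    rw [neg_mul, Complex.neg_re, mul_neg, hl1]
    push_cast
    ring

end Pool.Agent.H2S
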