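import Pool.Agent.Lib.H2S.JStm
import Pool.Agent.Lib.H2S.N5

/-!
# I0: definitions for module I
-/

set_option autoImplicit false
namespace Pool.Agent.H2S
open Complex NumberField

variable {K L : Type*} [Field K] [NumberField K] [Field L] [NumberField L] [Algebra K L]
  {F : Fld K L} {m : Ideal (𝓞 L)}

/-- A `ℤ`-basis `B` of the ideal `b` and the dual basis `B'` with respect to `Tr (ν x τ y)`. -/
structure ZB (D : Lat F) where
  B : Fin 4 → 𝓞 L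
  mem : ∀ j, B j ∈ D.b
  rep : ∀ x ∈ D.b, ∃ k : Fin 4 → ℤ, x = ∑ j, (k j : 𝓞 L) * B j
  inj : ∀ k k' : Fin 4 → ℤ, ∑ j, (k j : 𝓞 L) * B j = ∑ j, (k' j : 𝓞 L) * B j → k = k'
  B' : Fin 4 → L
  dual : ∀ i j, Algebra.trace ℚ L (algebraMap K L D.ν * (B i : L) * F.τ (B' j)) = if i = j then 1 else 0

/-- A unit of relative norm one with `|s η| > 1`. -/
structure Eta (F : Fld K L) where
  η : (𝓞 L)ˣ
  gt : 1 < ‖F.s ((η : 𝓞 L) : L)‖
  norm : ((η : 𝓞 L) : L) * F.τ ((η : 𝓞 L) : L) = 1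

/-- `φ x = ε x e(Tr a q(x) / (c δ))` on `b`. -/
noncomputable def phc (χ : Chr F m) (D : Lat F) (a c : 𝓞 K) (x : L) : ℂ :=
  phb χ D.b x * eQ ((a : K) / (c : K) * (D.ν * Algebra.norm K x))

open Classical in
/-- `Ga(a, c)`: the mean over `x ∈ b` of `[x ∈ m b] e(Tr a q(x) / (c δ))`. -/
noncomputable def Ga (m : Ideal (𝓞 L)) (D : Lat F) (a c : 𝓞 K) : ℂ :=
  mn (fun x : D.b => if (x : 𝓞 L) ∈ m * D.b then
    eQ ((a : K) / (c : K) * (D.ν * Algebra.norm K ((x : 𝓞 L) : L))) else 0)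

/-- `S(c, a)`: the mean over `x ∈ b` of `e(Tr c q(x) / (a δ))`. -/
noncomputable def Sg (D : Lat F) (c a : 𝓞 K) : ℂ :=
  mn (fun x : D.b => eQ ((c : K) / (a : K) * (D.ν * Algebra.norm K ((x : 𝓞 L) : L))))

end Pool.Agent.H2S
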