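import Pool.Agent.Lib.H2S.I7

/-!
# I8: the Fourier transform of `phc`, evaluation
-/

set_option autoImplicit false
set_option linter.unusedSectionVars false
namespace Pool.Agent.H2S
open Complex NumberField

variable {K L : Type*} [Field K] [NumberField K] [Field L] [NumberField L] [Algebra K L]
  {F : Fld K L} {m : Ideal (𝓞 L)}

theorem i8_coe_mul (a b : 𝓞 L) : ((a * b : 𝓞 L) : L) = (a : L) * (b : L) := map_mul (algebraMap (𝓞 L) L) a b

theorem i8_coe_add (a b : 𝓞 L) : ((a + b : 𝓞 L) : L) = (a : L) + (b : L) := map_add (algebraMap (𝓞 L) L) a b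

theorem i8_coe_sub (a b : 𝓞 L) : ((a - b : 𝓞 L) : L) = (a : L) - (b : L) := map_sub (algebraMap (𝓞 L) L) a b

theorem i8_coe_neg (a : 𝓞 L) : ((-a : 𝓞 L) : L) = -(a : L) := map_neg (algebraMap (𝓞 L) L) a

theorem i8_coeK_mul (a b : 𝓞 K) : ((a * b : 𝓞 K) : K) = (a : K) * (b : K) := map_mul (algebraMap (𝓞 K) K) a b

theorem i8_coe_alg (a : 𝓞 K) : ((algebraMap (𝓞 K) (𝓞 L) a : 𝓞 L) : L) = algebraMap K L (a : K) := rfl

theorem i8_ne {c : 𝓞 K} (hc : c ≠ 0) : (c : K) ≠ 0 := by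
  intro h
  exact hc (RingOfIntegers.coe_injective (h.trans (map_zero _).symm))

theorem i8_left {I J : Ideal (𝓞 L)} {x : 𝓞 L} (h : x ∈ I * J) : x ∈ I := by
  have h1 : I * J ≤ I := Ideal.mul_le_left
  exact h1 h

theorem i8_right {I J : Ideal (𝓞 L)} {x : 𝓞 L} (h : x ∈ I * J) : x ∈ J := by
  have h1 : I * J ≤ J := Ideal.mul_le_right
  exact h1 h

theorem i8_tr (a : K) (z : L) : Algebra.trace K L (algebraMap K L a * z) = a * Algebra.trace K L z := by
  rw [← Algebra.smul_def, map_smul, smul_eq_mul]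

/-- PROOF. `fI_FT`, `fI_mean`: if `v` is not in `b` no `x ∈ b` satisfies the condition (`a x ∈ b`), `mn_const 0`. -/
theorem FT_phc_zero (χ : Chr F m) (hm : m ≠ ⊥) (D : Lat F) (a : 𝓞 K) {c : 𝓞 K} (hc : c ≠ 0) (hl : c ∈ lev K m) {v : L}
    (hv : ¬ ∃ y ∈ D.b, (y : L) = v) : F.FT D.ν D.b (phc χ D a c) (v / algebraMap K L (c : K)) = 0 := by
  classical
  obtain ⟨J, hJ⟩ := F.exists_J hl
  rw [fI_FT, fI_mean χ hm D a hc hJ v]
  have h1 : (fun x : D.b => if ∃ y ∈ m * D.b, (y : L) = algebraMap K L (a : K) * ((x : 𝓞 L) : L) + v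
      then fI χ D a c v x else 0) = fun _ => (0 : ℂ) := by
    funext x
    refine if_neg ?_
    rintro ⟨y, hy, hyx⟩
    apply hv
    refine ⟨y - algebraMap (𝓞 K) (𝓞 L) a * (x : 𝓞 L), D.b.sub_mem (i8_right hy) (D.b.mul_mem_left _ x.2), ?_⟩
    rw [i8_coe_sub, i8_coe_mul, i8_coe_alg, hyx]
    ring
  rw [h1]
  exact mn_const 0

/-- The two forms of the condition. -/
theorem i8_cond {I b : Ideal (𝓞 L)} {a b' c d : 𝓞 K} (hdet : a * d - b' * c = 1)
    (hc : algebraMap (𝓞 K) (𝓞 L) c ∈ I) {x v : 𝓞 L} (hx : x ∈ b) (hv : v ∈ b) :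
    (algebraMap (𝓞 K) (𝓞 L) a * x + v ∈ I * b) ↔ x + algebraMap (𝓞 K) (𝓞 L) d * v ∈ I * b := by
  have h0 := congrArg (algebraMap (𝓞 K) (𝓞 L)) hdet
  rw [map_sub, map_mul, map_mul, map_one] at h0
  generalize algebraMap (𝓞 K) (𝓞 L) a = a₁ at h0 ⊢
  generalize algebraMap (𝓞 K) (𝓞 L) d = d₁ at h0 ⊢
  generalize algebraMap (𝓞 K) (𝓞 L) b' = b₁ at h0 ⊢
  generalize algebraMap (𝓞 K) (𝓞 L) c = c₁ at h0 hc ⊢
  constructor
  · intro h
    have h1 : x + d₁ * v = d₁ * (a₁ * x + v) - b₁ * (c₁ * x) := by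
      linear_combination (-x) * h0
    rw [h1]
    exact Ideal.sub_mem _ (Ideal.mul_mem_left _ _ h) (Ideal.mul_mem_left _ _ (Ideal.mul_mem_mul hc hx))
  · intro h
    have h1 : a₁ * x + v = a₁ * (x + d₁ * v) - b₁ * (c₁ * v) := by
      linear_combination (-v) * h0
    rw [h1]
    exact Ideal.sub_mem _ (Ideal.mul_mem_left _ _ h) (Ideal.mul_mem_left _ _ (Ideal.mul_mem_mul hc hv))

/-- The elements of `b` in an ideal. -/
def i8_U (b I : Ideal (𝓞 L)) : AddSubgroup b := (Submodule.toAddSubgroup I).comap (Submodule.subtype b).toAddMonoidHom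

theorem i8_mem {b I : Ideal (𝓞 L)} {x : b} : x ∈ i8_U b I ↔ (x : 𝓞 L) ∈ I := Iff.rfl

theorem i8_fin (b : Ideal (𝓞 L)) {I : Ideal (𝓞 L)} (hI : I ≠ ⊥) : (i8_U b I).FiniteIndex := by
  have h1 : Finite (𝓞 L ⧸ I) := Ideal.finiteQuotientOfFreeOfNeBot I hI
  have h2 : (Submodule.toAddSubgroup I).FiniteIndex := by
    have h3 : Finite (𝓞 L ⧸ (Submodule.toAddSubgroup I)) := h1
    exact AddSubgroup.finiteIndex_of_finite_quotient
  refine ⟨?_⟩
  unfold i8_U
  rw [AddSubgroup.index_comap]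
  exact (inferInstance : ((Submodule.toAddSubgroup I).addSubgroupOf _).FiniteIndex).index_ne_zero

open Classical in
/-- The integrand of `Ga`. -/
noncomputable def i8_g (m : Ideal (𝓞 L)) (D : Lat F) (a c : 𝓞 K) (x : D.b) : ℂ :=
  if (x : 𝓞 L) ∈ m * D.b then eQ ((a : K) / (c : K) * (D.ν * Algebra.norm K ((x : 𝓞 L) : L))) else 0

theorem i8_B (D : Lat F) (a : 𝓞 K) {x y : 𝓞 L} (hx : x ∈ D.b) (hy : y ∈ D.b) :
    eQ ((a : K) * (D.ν * Algebra.trace K L ((x : L) * F.τ (y : L)))) = 1 := by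
  obtain ⟨z, hz⟩ := D.B_int hx hy
  have h1 : (a : K) * (D.ν * Algebra.trace K L ((x : L) * F.τ (y : L))) =
      (a : K) * Algebra.trace K L (algebraMap K L (D.δ : K)⁻¹ * (z : L)) := by
    rw [← hz, mul_assoc (algebraMap K L D.ν), i8_tr]
  rw [h1, ← F.n4_tr]
  have h2 : algebraMap K L (a : K) * (algebraMap K L (D.δ : K)⁻¹ * (z : L)) =
      algebraMap K L (D.δ : K)⁻¹ * ((algebraMap (𝓞 K) (𝓞 L) a * z : 𝓞 L) : L) := by
    rw [i8_coe_mul, i8_coe_alg]
    ring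
  rw [h2]
  exact F.eQ_int D.δne D.diff _

theorem i8_q (D : Lat F) (a : 𝓞 K) {x : 𝓞 L} (hx : x ∈ D.b) :
    eQ ((a : K) * (D.ν * Algebra.norm K (x : L))) = 1 := by
  obtain ⟨q, hq⟩ := D.q_int hx
  have h1 : (a : K) * (D.ν * Algebra.norm K (x : L)) = (D.δ : K)⁻¹ * ((a * q : 𝓞 K) : K) := by
    rw [hq, i8_coeK_mul]
    ring
  rw [h1]
  exact eQ_intK D.δne D.diff _

theorem i8_gper (hm : m ≠ ⊥) (D : Lat F) (a : 𝓞 K) {c : 𝓞 K} (hc : c ≠ 0) : IsPer (i8_g m D a c) := by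
  classical
  have hcL : algebraMap (𝓞 K) (𝓞 L) c ≠ 0 := by
    intro h
    have h1 : algebraMap K L (c : K) = 0 := by
      rw [← i8_coe_alg, h]
      exact map_zero _
    exact i8_ne hc ((map_eq_zero _).1 h1)
  have hbne : D.b ≠ ⊥ := D.bne
  have h1 : (i8_U D.b (m * D.b)).FiniteIndex := i8_fin _ (mul_ne_zero hm hbne)
  have h2 : (i8_U D.b (Ideal.span {algebraMap (𝓞 K) (𝓞 L) c} * D.b)).FiniteIndex := by
    refine i8_fin _ (mul_ne_zero ?_ hbne)
    rw [Ne, Ideal.zero_eq_bot, Ideal.span_singleton_eq_bot]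
    exact hcL
  refine ⟨i8_U D.b (m * D.b) ⊓ i8_U D.b (Ideal.span {algebraMap (𝓞 K) (𝓞 L) c} * D.b), inferInstance, ?_⟩
  rintro x y ⟨hy1, hy2⟩
  change (y : 𝓞 L) ∈ m * D.b at hy1
  change (y : 𝓞 L) ∈ Ideal.span {algebraMap (𝓞 K) (𝓞 L) c} * D.b at hy2
  have hmem : ((x + y : D.b) : 𝓞 L) ∈ m * D.b ↔ (x : 𝓞 L) ∈ m * D.b := by
    have e : ((x + y : D.b) : 𝓞 L) = (x : 𝓞 L) + (y : 𝓞 L) := rfl
    rw [e]
    exact Ideal.add_mem_iff_left _ hy1
  unfold i8_g
  simp only [hmem]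
  congr 1
  obtain ⟨z, hz, hzy⟩ := Ideal.mem_span_singleton_mul.1 hy2
  have e1 : (((x + y : D.b) : 𝓞 L) : L) = ((x : 𝓞 L) : L) + algebraMap K L (c : K) * (z : L) := by
    have e : ((x + y : D.b) : 𝓞 L) = (x : 𝓞 L) + (y : 𝓞 L) := rfl
    rw [e, ← hzy, i8_coe_add, i8_coe_mul, i8_coe_alg]
  have e2 : (a : K) / (c : K) * (D.ν * Algebra.norm K (((x + y : D.b) : 𝓞 L) : L)) =
      (a : K) / (c : K) * (D.ν * Algebra.norm K ((x : 𝓞 L) : L)) +
      ((a : K) * (D.ν * Algebra.trace K L (((x : 𝓞 L) : L) * F.τ (z : L))) +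
      ((a * c : 𝓞 K) : K) * (D.ν * Algebra.norm K (z : L))) := by
    have e3 : ((x : 𝓞 L) : L) * F.τ (algebraMap K L (c : K) * (z : L)) =
        algebraMap K L (c : K) * (((x : 𝓞 L) : L) * F.τ (z : L)) := by
      rw [map_mul, AlgEquiv.commutes]
      ring
    have e4 : Algebra.norm K (algebraMap K L (c : K) * (z : L)) = (c : K) ^ 2 * Algebra.norm K (z : L) := by
      rw [map_mul, Algebra.norm_algebraMap, F.deg2]
    rw [e1, F.norm_add, e3, i8_tr, e4, i8_coeK_mul]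
    have := i8_ne hc
    field_simp
    ring
  rw [e2, eQ_add, eQ_add, i8_B D a x.2 hz, i8_q D (a * c) hz, mul_one, mul_one]

/-- The value of the integrand. -/
theorem i8_val (χ : Chr F m) (D : Lat F) {a b' c d : 𝓞 K} (hdet : a * d - b' * c = 1) (hc : c ≠ 0)
    {x v : 𝓞 L} (hx : x ∈ m * D.b) (hv : v ∈ D.b) (w : D.b) (hw : (w : 𝓞 L) = x - algebraMap (𝓞 K) (𝓞 L) d * v) :
    fI χ D a c (v : L) w = χ.ε (algebraMap (𝓞 K) (𝓞 L) d) * χ.ε v *
      eQ (-((d : K) / (c : K) * (D.ν * Algebra.norm K (v : L)))) *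
      eQ ((a : K) / (c : K) * (D.ν * Algebra.norm K (x : L))) := by
  have hxb : x ∈ D.b := i8_right hx
  have hxm : x ∈ m := i8_left hx
  have h1 : phb χ D.b ((w : 𝓞 L) : L) = χ.ε (algebraMap (𝓞 K) (𝓞 L) d) * χ.ε v := by
    rw [phb_coe χ w.2, ← χ.mul, ← χ.ε_neg (algebraMap (𝓞 K) (𝓞 L) d * v)]
    apply χ.per
    rw [hw]
    have e : x - algebraMap (𝓞 K) (𝓞 L) d * v - -(algebraMap (𝓞 K) (𝓞 L) d * v) = x := by ring
    rw [e]
    exact hxm
  have hcK := i8_ne hc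
  have h2 : eQ (algebraMap K L D.ν * ((w : 𝓞 L) : L) * F.τ ((v : L) / algebraMap K L (c : K))) =
      eQ (D.ν / (c : K) * Algebra.trace K L (((w : 𝓞 L) : L) * F.τ (v : L))) := by
    have e : algebraMap K L D.ν * ((w : 𝓞 L) : L) * F.τ ((v : L) / algebraMap K L (c : K)) =
        algebraMap K L (D.ν / (c : K)) * (((w : 𝓞 L) : L) * F.τ (v : L)) := by
      rw [map_div₀, map_div₀, AlgEquiv.commutes]
      ring
    rw [e, F.n4_tr]
  have hwL : ((w : 𝓞 L) : L) = (x : L) + -(algebraMap K L (d : K) * (v : L)) := by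
    rw [hw, i8_coe_sub, i8_coe_mul, i8_coe_alg]
    ring
  have hN : Algebra.norm K ((w : 𝓞 L) : L) = Algebra.norm K (x : L) - (d : K) * Algebra.trace K L ((x : L) * F.τ (v : L)) +
      (d : K) ^ 2 * Algebra.norm K (v : L) := by
    have e3 : (x : L) * F.τ (-(algebraMap K L (d : K) * (v : L))) =
        algebraMap K L (-(d : K)) * ((x : L) * F.τ (v : L)) := by
      rw [map_neg, map_mul, AlgEquiv.commutes, map_neg]
      ring
    have e4 : Algebra.norm K (-(algebraMap K L (d : K) * (v : L))) = (d : K) ^ 2 * Algebra.norm K (v : L) := by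
      have e5 : -(algebraMap K L (d : K) * (v : L)) = algebraMap K L (-(d : K)) * (v : L) := by
        rw [map_neg]
        ring
      rw [e5, map_mul, Algebra.norm_algebraMap, F.deg2]
      ring
    rw [hwL, F.norm_add, e3, i8_tr, e4]
    ring
  have hT : Algebra.trace K L (((w : 𝓞 L) : L) * F.τ (v : L)) = Algebra.trace K L ((x : L) * F.τ (v : L)) -
      2 * (d : K) * Algebra.norm K (v : L) := by
    have e5 : Algebra.trace K L ((v : L) * F.τ (v : L)) = 2 * Algebra.norm K (v : L) := by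
      rw [← F.norm_eq, Algebra.trace_algebraMap, F.deg2]
      simp
    have e6 : ((w : 𝓞 L) : L) * F.τ (v : L) = (x : L) * F.τ (v : L) - algebraMap K L (d : K) * ((v : L) * F.τ (v : L)) := by
      rw [hwL]; ring
    rw [e6, map_sub, i8_tr, e5]
    ring
  have hdetK : (a : K) * (d : K) - (b' : K) * (c : K) = 1 := by
    have h0 := congrArg (algebraMap (𝓞 K) K) hdet
    rw [map_sub, map_mul, map_mul, map_one] at h0
    exact h0
  unfold fI phc
  rw [h1, h2]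
  have h3 : eQ ((a : K) / (c : K) * (D.ν * Algebra.norm K ((w : 𝓞 L) : L))) *
      eQ (D.ν / (c : K) * Algebra.trace K L (((w : 𝓞 L) : L) * F.τ (v : L))) =
      eQ (-((d : K) / (c : K) * (D.ν * Algebra.norm K (v : L)))) *
      eQ ((a : K) / (c : K) * (D.ν * Algebra.norm K (x : L))) := by
    rw [← eQ_add, hN, hT]
    have e7 : (a : K) / (c : K) * (D.ν * (Algebra.norm K (x : L) - (d : K) * Algebra.trace K L ((x : L) * F.τ (v : L)) +
        (d : K) ^ 2 * Algebra.norm K (v : L))) + D.ν / (c : K) * (Algebra.trace K L ((x : L) * F.τ (v : L)) -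
        2 * (d : K) * Algebra.norm K (v : L)) =
        (-((d : K) / (c : K) * (D.ν * Algebra.norm K (v : L))) + (a : K) / (c : K) * (D.ν * Algebra.norm K (x : L))) +
        (((-b' : 𝓞 K) : K) * (D.ν * Algebra.trace K L ((x : L) * F.τ (v : L))) +
        ((b' * d : 𝓞 K) : K) * (D.ν * Algebra.norm K (v : L))) := by
      have e8 : ((-b' : 𝓞 K) : K) = -(b' : K) := map_neg (algebraMap (𝓞 K) K) b'
      rw [e8, i8_coeK_mul]
      field_simp
      linear_combination (D.ν * (-(Algebra.trace K L ((x : L) * F.τ (v : L))) + (d : K) * Algebra.norm K (v : L))) * hdetK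
    rw [e7, eQ_add, eQ_add (((-b' : 𝓞 K) : K) * _), i8_B D (-b') hxb hv, i8_q D (b' * d) hv, mul_one, mul_one, eQ_add]
  rw [mul_assoc, h3]
  ring

/-- PROOF. `a d - b' c = 1`.  By `fI_mean` only the `x` with `a x + v ∈ m b` count; this is equivalent to `x + d v ∈ m b` (multiply by `d`:
`d (a x + v) = (x + d v) + b' c x`, `c x ∈ m b`; and by `a`: `a (x + d v) = (a x + v) + b' c v`).  Translate: `x = x' - d v` (`mn_add_right`), `x' ∈ m b`.
`ε (x' - d v) = ε (d v) = ε d ε v` (`χ.per`, `ε_neg`).  With `T(x, y) = Tr_{L/K}(x τ y)`: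
`a N(x' - d v) + T(x' - d v, v) = a N(x') + (1 - a d) T(x', v) + (a d² - 2 d) N(v)`, `1 - a d = - b' c`, `a d² - 2 d = - d + b' c d`, so after multiplication
by `ν / c` and `eQ` (`Lat.B_int`, `Lat.q_int`, `Fld.eQ_int`, `eQ_intK`) only `(a / c) ν N(x') - (d / c) ν N(v)` remains: the value is
`ε d ε v eQ (-(d / c) ν N(v))` times the mean of `[x' ∈ m b] eQ ((a / c) ν N(x'))` (`mn_mul_const`). -/
theorem FT_phc (χ : Chr F m) (hm : m ≠ ⊥) (D : Lat F) {a b' c d : 𝓞 K} (hdet : a * d - b' * c = 1) (hc : c ≠ 0)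
    (hl : c ∈ lev K m) {v : 𝓞 L} (hv : v ∈ D.b) :
    F.FT D.ν D.b (phc χ D a c) ((v : L) / algebraMap K L (c : K)) =
      χ.ε (algebraMap (𝓞 K) (𝓞 L) d) * χ.ε v * eQ (-((d : K) / (c : K) * (D.ν * Algebra.norm K (v : L)))) * Ga m D a c := by
  classical
  obtain ⟨J, hJ⟩ := F.exists_J hl
  have hcm : algebraMap (𝓞 K) (𝓞 L) c ∈ m := by
    have h1 : algebraMap (𝓞 K) (𝓞 L) c ∈ up L c := Ideal.mem_span_singleton_self _
    rw [hJ] at h1
    exact i8_left (i8_left (i8_left (i8_left h1)))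
  rw [fI_FT, fI_mean χ hm D a hc hJ (v : L)]
  set C : ℂ := χ.ε (algebraMap (𝓞 K) (𝓞 L) d) * χ.ε v * eQ (-((d : K) / (c : K) * (D.ν * Algebra.norm K (v : L)))) with hC
  have hg := i8_gper hm D a hc
  let dv : D.b := ⟨algebraMap (𝓞 K) (𝓞 L) d * v, D.b.mul_mem_left _ hv⟩
  have h1 : (fun x : D.b => if ∃ y ∈ m * D.b, (y : L) = algebraMap K L (a : K) * ((x : 𝓞 L) : L) + (v : L)
      then fI χ D a c (v : L) x else 0) = fun x : D.b => C * i8_g m D a c (x + dv) := by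
    funext x
    have h2 : (∃ y ∈ m * D.b, (y : L) = algebraMap K L (a : K) * ((x : 𝓞 L) : L) + (v : L)) ↔
        ((x + dv : D.b) : 𝓞 L) ∈ m * D.b := by
      have e : ((x + dv : D.b) : 𝓞 L) = (x : 𝓞 L) + algebraMap (𝓞 K) (𝓞 L) d * v := rfl
      rw [e, ← i8_cond hdet hcm x.2 hv]
      constructor
      · rintro ⟨y, hy, hyx⟩
        have h3 : algebraMap (𝓞 K) (𝓞 L) a * (x : 𝓞 L) + v = y := by
          apply RingOfIntegers.ext
          rw [i8_coe_add, i8_coe_mul, i8_coe_alg]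
          exact hyx.symm
        rw [h3]
        exact hy
      · intro h
        refine ⟨_, h, ?_⟩
        rw [i8_coe_add, i8_coe_mul, i8_coe_alg]
    unfold i8_g
    by_cases h3 : ((x + dv : D.b) : 𝓞 L) ∈ m * D.b
    · rw [if_pos (h2.2 h3), if_pos h3]
      refine i8_val χ D hdet hc h3 hv x ?_
      change (x : 𝓞 L) = (x : 𝓞 L) + algebraMap (𝓞 K) (𝓞 L) d * v - algebraMap (𝓞 K) (𝓞 L) d * v
      ring
    · rw [if_neg (fun h => h3 (h2.1 h)), if_neg h3, mul_zero]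
  rw [h1]
  have h3 : IsPer (fun x : D.b => i8_g m D a c (x + dv)) := hg.comp (AddMonoidHom.id D.b) dv
  rw [mn_mul_const h3]
  have h4 := mn_add_right hg dv
  rw [h4]
  rfl

end Pool.Agent.H2S
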