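import Pool.Agent.Lib.H2S.I4
import Pool.Agent.Lib.H2S.I8
import Pool.Agent.Lib.H2S.I9

/-!
# I10: the multiplier
-/

set_option autoImplicit false
namespace Pool.Agent.H2S
open Complex NumberField

variable {K L : Type*} [Field K] [NumberField K] [Field L] [NumberField L] [Algebra K L]
  {F : Fld K L} {m : Ideal (𝓞 L)}

/-- The statement of Theorem W for the lattice `D`, with the constant `κ`. -/
def WL (H : Eta F) (D : Lat F) (κ : ℝ) : Prop := 0 < κ ∧ ∀ φ : L → ℂ,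
    (∀ x, φ x ≠ 0 → ∃ y ∈ D.b, (y : L) = x) →
    (∃ M : ℕ, 0 < M ∧ ∀ x ∈ D.b, ∀ y ∈ D.b, φ ((x : L) + (M : L) * (y : L)) = φ (x : L)) →
    (∀ x, φ (((H.η : 𝓞 L) : L) * x) * (F.s ((H.η : 𝓞 L) : L) * (starRingEnd ℂ) (F.s ((H.η : 𝓞 L) : L))⁻¹) = φ x) →
    ∃ C : ℂ, ∀ P ∈ H3, F.GL (‖F.s ((H.η : 𝓞 L) : L)‖ ^ 2) D.ν φ (wi P) =
      (κ : ℂ) * F.GL (‖F.s ((H.η : 𝓞 L) : L)‖ ^ 2) D.ν (F.FT D.ν D.b φ) P + C

theorem i10_sK_ne (F : Fld K L) {c : 𝓞 K} (hc : c ≠ 0) : F.sK (c : K) ≠ 0 := by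
  rw [Ne, map_eq_zero]
  exact fun h => hc (RingOfIntegers.ext h)

theorem i10_GL_mul (F : Fld K L) (ρ : ℝ) (ν : K) (k : ℂ) (φ : L → ℂ) (P : ℂ × ℝ) :
    F.GL ρ ν (fun x => k * φ x) P = k * F.GL ρ ν φ P := by
  unfold Fld.GL
  rw [← tsum_mul_left]
  refine tsum_congr fun x => ?_
  by_cases h : F.io ν x ∈ Fd ρ
  · rw [Set.indicator_of_mem h, Set.indicator_of_mem h, mul_assoc]
  · rw [Set.indicator_of_notMem h, Set.indicator_of_notMem h, mul_zero]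

theorem i10_norm (F : Fld K L) (v : L) (c : K) :
    Algebra.norm K (v / algebraMap K L c) = Algebra.norm K v / c ^ 2 := by
  rw [div_eq_mul_inv, ← map_inv₀, map_mul, Algebra.norm_algebraMap, F.deg2, inv_pow, ← div_eq_mul_inv]

theorem i10_eQ_zero {M : Type*} [Field M] [NumberField M] : eQ (0 : M) = 1 := by
  unfold eQ
  simp

/-- For every `g` of determinant one with `c ≠ 0`.  PROOF. `actO_bruhat`, `GL_add` (this gives `phc` with `a / c`), `WL` for `phc` (`phc_per`, `phc_eta`,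
`phb_supp`) at the point `(c² z + c d, |c|² t)` of `H3`. -/
theorem GL_bruhat (χ : Chr F m) (hm : m ≠ ⊥) (H : Eta F) (D : Lat F) {κ : ℝ} (hκ : WL H D κ)
    (g : Matrix (Fin 2) (Fin 2) (𝓞 K)) (hg : g.det = 1) (hc : g 1 0 ≠ 0) :
    ∃ C : ℂ, ∀ P ∈ H3, F.GL (‖F.s ((H.η : 𝓞 L) : L)‖ ^ 2) D.ν (phb χ D.b) (actO F.sK g P) =
      (κ : ℂ) * F.GL (‖F.s ((H.η : 𝓞 L) : L)‖ ^ 2) D.ν (F.FT D.ν D.b (phc χ D (g 0 0) (g 1 0)))
        (F.sK (g 1 0 : K) ^ 2 * P.1 + F.sK ((g 1 0 : K) * (g 1 1 : K)), ‖F.sK (g 1 0 : K)‖ ^ 2 * P.2) + C := by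
  obtain ⟨C, hC⟩ := hκ.2 (phc χ D (g 0 0) (g 1 0))
    (fun x hx => phb_supp χ (b := D.b) fun h0 => hx (by unfold phc; rw [h0, zero_mul]))
    (phc_per χ hm D (g 0 0) hc (fun x hx y hy => D.B_int hx hy) (fun x hx => D.q_int hx))
    (fun x => phc_eta χ D (g 0 0) (g 1 0) H x)
  refine ⟨C, fun P hP => ?_⟩
  have hQ : (F.sK (g 1 0 : K) ^ 2 * P.1 + F.sK ((g 1 0 : K) * (g 1 1 : K)), ‖F.sK (g 1 0 : K)‖ ^ 2 * P.2) ∈ H3 := by
    have h1 : 0 < ‖F.sK (g 1 0 : K)‖ := norm_pos_iff.2 (i10_sK_ne F hc)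
    have h2 : 0 < P.2 := hP
    show 0 < ‖F.sK (g 1 0 : K)‖ ^ 2 * P.2
    positivity
  rw [actO_bruhat F g hg hc hP, GL_add, ← map_mul, ← hC _ hQ]
  rfl

/-- For `c` in the level.  PROOF. `GL_bruhat`; on the right side `GL_add` (with `c d`), `GL_scale`; the function
`y ↦ FT (phc) (y / c) * eQ (c d ν N(y / c)) = FT (phc) (y / c) * eQ ((d / c) ν N(y))` is `0` outside `b` (`FT_phc_zero`) and `ε d * Ga * ε y` for `y ∈ b`
(`FT_phc`; the two factors `eQ` cancel).  (`b'` of `FT_phc` is `g 0 1`; `Matrix.det_fin_two`.) -/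
theorem GL_mult (χ : Chr F m) (hm : m ≠ ⊥) (H : Eta F) (D : Lat F) {κ : ℝ} (hκ : WL H D κ)
    (g : Matrix (Fin 2) (Fin 2) (𝓞 K)) (hg : g.det = 1) (hc : g 1 0 ≠ 0) (hl : g 1 0 ∈ lev K m) :
    ∃ C : ℂ, ∀ P ∈ H3, F.GL (‖F.s ((H.η : 𝓞 L) : L)‖ ^ 2) D.ν (phb χ D.b) (actO F.sK g P) =
      ((κ : ℂ) * (‖F.sK (g 1 0 : K)‖ ^ 2 : ℝ) * χ.ε (algebraMap (𝓞 K) (𝓞 L) (g 1 1)) * Ga m D (g 0 0) (g 1 0)) *
        F.GL (‖F.s ((H.η : 𝓞 L) : L)‖ ^ 2) D.ν (phb χ D.b) P + C := by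
  obtain ⟨C, hC⟩ := GL_bruhat χ hm H D hκ g hg hc
  refine ⟨C, fun P hP => ?_⟩
  have hcK : (g 1 0 : K) ≠ 0 := fun h => hc (RingOfIntegers.ext h)
  have hdet : g 0 0 * g 1 1 - g 0 1 * g 1 0 = 1 := by rw [← Matrix.det_fin_two, hg]
  have hfun : (fun y : L => F.FT D.ν D.b (phc χ D (g 0 0) (g 1 0)) (y / algebraMap K L (g 1 0 : K)) *
      eQ ((g 1 0 : K) * (g 1 1 : K) * (D.ν * Algebra.norm K (y / algebraMap K L (g 1 0 : K))))) =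
      fun y => (χ.ε (algebraMap (𝓞 K) (𝓞 L) (g 1 1)) * Ga m D (g 0 0) (g 1 0)) * phb χ D.b y := by
    funext y
    by_cases hy : ∃ v ∈ D.b, ((v : 𝓞 L) : L) = y
    · obtain ⟨v, hv, rfl⟩ := hy
      rw [FT_phc χ hm D hdet hc hl hv, phb_coe χ hv, i10_norm F]
      have h1 : (g 1 0 : K) * (g 1 1 : K) * (D.ν * (Algebra.norm K (v : L) / (g 1 0 : K) ^ 2)) =
          (g 1 1 : K) / (g 1 0 : K) * (D.ν * Algebra.norm K (v : L)) := by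
        field_simp
      have h2 : eQ (-((g 1 1 : K) / (g 1 0 : K) * (D.ν * Algebra.norm K (v : L)))) *
          eQ ((g 1 1 : K) / (g 1 0 : K) * (D.ν * Algebra.norm K (v : L))) = 1 := by
        rw [← eQ_add, neg_add_cancel, i10_eQ_zero]
      rw [h1]
      calc _ = (χ.ε (algebraMap (𝓞 K) (𝓞 L) (g 1 1)) * Ga m D (g 0 0) (g 1 0)) * χ.ε v *
            (eQ (-((g 1 1 : K) / (g 1 0 : K) * (D.ν * Algebra.norm K (v : L)))) *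
          eQ ((g 1 1 : K) / (g 1 0 : K) * (D.ν * Algebra.norm K (v : L)))) := by ring
        _ = _ := by rw [h2, mul_one]
    · rw [FT_phc_zero χ hm D (g 0 0) hc hl hy, zero_mul]
      have h1 : phb χ D.b y = 0 := by
        by_contra h
        exact hy (phb_supp χ h)
      rw [h1, mul_zero]
  have h3 := GL_add F (‖F.s ((H.η : 𝓞 L) : L)‖ ^ 2) D.ν (F.FT D.ν D.b (phc χ D (g 0 0) (g 1 0)))
    ((g 1 0 : K) * (g 1 1 : K)) (F.sK (g 1 0 : K) ^ 2 * P.1, ‖F.sK (g 1 0 : K)‖ ^ 2 * P.2)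
  rw [hC P hP]
  congr 1
  rw [h3, GL_scale F _ _ _ hcK, hfun, i10_GL_mul]
  ring

end Pool.Agent.H2S
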