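import Pool.Agent.Lib.H2S.I10

/-!
# I11: lower unipotent elements
-/

set_option autoImplicit false
namespace Pool.Agent.H2S
open Complex NumberField

variable {K L : Type*} [Field K] [NumberField K] [Field L] [NumberField L] [Algebra K L]
  {F : Fld K L} {m : Ideal (𝓞 L)}

/-- The function in the Fourier transform of `phb` is periodic. -/
theorem i11_per (χ : Chr F m) (hm : m ≠ ⊥) (D : Lat F) (y : L) :
    IsPer (fun x : D.b => phb χ D.b ((x : 𝓞 L) : L) * eQ (algebraMap K L D.ν * ((x : 𝓞 L) : L) * F.τ y)) := by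
  have h1 := fI_per χ hm D 0 (c := 1) one_ne_zero y
  have h2 : fI χ D 0 1 y = fun x : D.b => phb χ D.b ((x : 𝓞 L) : L) *
      eQ (algebraMap K L D.ν * ((x : 𝓞 L) : L) * F.τ y) := by
    funext x
    unfold fI
    rw [phb_eq_phc]
    have h3 : algebraMap K L ((1 : 𝓞 K) : K) = 1 := by
      rw [show ((1 : 𝓞 K) : K) = 1 from rfl, map_one]
    rw [h3, div_one]
  rw [h2] at h1
  exact h1

/-- The characters `eQ (ν x τ y)` are trivial on `m b`. -/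
theorem i11_one (χ : Chr F m) (hm : m ≠ ⊥) (D : Lat F) {y : L}
    (hy : F.FT D.ν D.b (phb χ D.b) y ≠ 0) {x₀ : 𝓞 L} (hx₀ : x₀ ∈ m * D.b) :
    eQ (algebraMap K L D.ν * (x₀ : L) * F.τ y) = 1 := by
  by_contra hne
  apply hy
  have hb : x₀ ∈ D.b := Ideal.mul_le_right hx₀
  have hm0 : x₀ ∈ m := Ideal.mul_le_left hx₀
  refine mn_zero_of_shift (i11_per χ hm D y) (u := (⟨x₀, hb⟩ : D.b)) hne fun x => ?_
  have h1 : (((x + ⟨x₀, hb⟩ : D.b) : 𝓞 L) : L) = ((x : 𝓞 L) : L) + (x₀ : L) := rfl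
  have h2 : phb χ D.b ((((x + ⟨x₀, hb⟩ : D.b) : 𝓞 L)) : L) = phb χ D.b ((x : 𝓞 L) : L) := by
    rw [phb_coe χ (x + ⟨x₀, hb⟩ : D.b).2, phb_coe χ x.2]
    refine χ.per _ _ ?_
    have h3 : (((x + ⟨x₀, hb⟩ : D.b) : 𝓞 L)) - (x : 𝓞 L) = x₀ := by
      change (x : 𝓞 L) + x₀ - (x : 𝓞 L) = x₀
      ring
    rw [h3]
    exact hm0
  rw [h2, h1]
  have h4 : algebraMap K L D.ν * (((x : 𝓞 L) : L) + (x₀ : L)) * F.τ y =
      algebraMap K L D.ν * ((x : 𝓞 L) : L) * F.τ y + algebraMap K L D.ν * (x₀ : L) * F.τ y := by ring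
  rw [h4, eQ_add]
  ring

/-- Elements of a product of ideals multiply `w` into the integers. -/
theorem i11_ideal (w : L) (I J : Ideal (𝓞 L))
    (h : ∀ x ∈ I, ∀ y ∈ J, ∃ c : 𝓞 L, (x : L) * (y : L) * w = (c : L)) :
    ∀ z ∈ I * J, ∃ c : 𝓞 L, (z : L) * w = (c : L) := by
  intro z hz
  refine Submodule.mul_induction_on hz ?_ ?_
  · intro x hx y hy
    obtain ⟨c, hc⟩ := h x hx y hy
    exact ⟨c, by rw [show ((x * y : 𝓞 L) : L) = (x : L) * (y : L) from rfl, hc]⟩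
  · rintro a b ⟨c, hc⟩ ⟨d, hd⟩
    exact ⟨c + d, by
      rw [show ((a + b : 𝓞 L) : L) = (a : L) + (b : L) from rfl,
        show ((c + d : 𝓞 L) : L) = (c : L) + (d : L) from rfl, add_mul, hc, hd]⟩

theorem i11_ne {z : 𝓞 K} (hz : z ≠ 0) : (z : K) ≠ 0 := by
  intro h
  exact hz (RingOfIntegers.coe_injective (h.trans (map_zero _).symm))

theorem i11_a (D : Lat F) (J : Ideal (𝓞 L)) {y : L}
    (h0 : ∀ x ∈ J, eQ (algebraMap K L D.ν * (x : L) * F.τ y) = 1) :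
    ∀ x ∈ J * differentIdeal (𝓞 K) (𝓞 L),
      ∃ c : 𝓞 L, (x : L) * (F.τ y * algebraMap K L (D.n : K)⁻¹) = (c : L) := by
  refine i11_ideal _ _ _ ?_
  refine (F.dualL D.δne D.diff J _).1 fun x hx => ?_
  have h2 := h0 x hx
  have h3 : algebraMap K L (D.δ : K)⁻¹ * (x : L) * (F.τ y * algebraMap K L (D.n : K)⁻¹) =
      algebraMap K L D.ν * (x : L) * F.τ y := by
    unfold Lat.ν
    rw [mul_inv, map_mul]
    ring
  rw [h3]
  exact h2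

theorem i11_b (F : Fld K L) (A : Ideal (𝓞 L)) {y : L} (k : K)
    (h2 : ∀ x ∈ A, ∃ c : 𝓞 L, (x : L) * (F.τ y * algebraMap K L k) = (c : L)) :
    ∀ x ∈ A * F.tI A, ∃ c : 𝓞 L, (x : L) *
        ((F.τ y * algebraMap K L k) * (y * algebraMap K L k)) = (c : L) := by
  have hτn : F.τ (algebraMap K L k) = algebraMap K L k := F.τ.commutes _
  refine i11_ideal _ _ _ ?_
  intro x hx x' hx'
  obtain ⟨c, hc⟩ := h2 x hx
  obtain ⟨d, hd⟩ := h2 (F.τO x') ((F.mem_tI _ _).1 hx')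
  refine ⟨c * F.τO d, ?_⟩
  have h4 : (x' : L) * (y * algebraMap K L k) = F.τ (d : L) := by
    rw [← hd, map_mul, map_mul, F.coe_τO, F.ττ, F.ττ, hτn]
  rw [show ((c * F.τO d : 𝓞 L) : L) = (c : L) * ((F.τO d : 𝓞 L) : L) from rfl, F.coe_τO, ← h4, ← hc]
  ring

theorem i11_c (D : Lat F) {e : 𝓞 K} (he : e ∈ lev K m) :
    algebraMap (𝓞 K) (𝓞 L) (e * D.n) ∈ m * D.b * differentIdeal (𝓞 K) (𝓞 L) *
      F.tI (m * D.b * differentIdeal (𝓞 K) (𝓞 L)) := by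
  rw [F.mul_tI]
  refine Ideal.mem_map_of_mem _ ?_
  have h6 : Ideal.relNorm (𝓞 K) (m * D.b * differentIdeal (𝓞 K) (𝓞 L)) = lev K m * Ideal.span {D.n} := by
    have h7 : m * D.b * differentIdeal (𝓞 K) (𝓞 L) = m * differentIdeal (𝓞 K) (𝓞 L) * D.b := by
      rw [mul_assoc, mul_comm D.b, mul_assoc]
    rw [h7, map_mul, D.norm]
    rfl
  rw [h6]
  exact Ideal.mul_mem_mul he (Ideal.mem_span_singleton_self _)

theorem i11_d (D : Lat F) {e : 𝓞 K} {y : L} {c : 𝓞 L}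
    (hc : ((algebraMap (𝓞 K) (𝓞 L) (e * D.n) : 𝓞 L) : L) *
      ((F.τ y * algebraMap K L (D.n : K)⁻¹) * (y * algebraMap K L (D.n : K)⁻¹)) = (c : L)) :
    algebraMap K L ((e : K) * (Algebra.norm K y * (D.n : K)⁻¹)) = (c : L) := by
  have hn0 : (D.n : K) ≠ 0 := i11_ne D.nne
  rw [← hc, map_mul, map_mul, F.norm_eq]
  have h7 : ((algebraMap (𝓞 K) (𝓞 L) (e * D.n) : 𝓞 L) : L) =
      algebraMap K L (e : K) * algebraMap K L (D.n : K) := by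
    rw [← map_mul]
    rfl
  rw [h7]
  have h8 : algebraMap K L (D.n : K) * algebraMap K L (D.n : K)⁻¹ = 1 := by
    rw [← map_mul, mul_inv_cancel₀ hn0, map_one]
  linear_combination (-(algebraMap K L (e : K) * y * F.τ y * algebraMap K L (D.n : K)⁻¹)) * h8

theorem i11_e (D : Lat F) {e : 𝓞 K} {y : L} {c : 𝓞 L}
    (h6 : algebraMap K L ((e : K) * (Algebra.norm K y * (D.n : K)⁻¹)) = (c : L)) :
    eQ ((e : K) * (D.ν * Algebra.norm K y)) = 1 := by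
  have h7 : IsIntegral ℤ ((e : K) * (Algebra.norm K y * (D.n : K)⁻¹)) := by
    have h8 : IsIntegral ℤ (algebraMap K L ((e : K) * (Algebra.norm K y * (D.n : K)⁻¹))) := by
      rw [h6]
      exact RingOfIntegers.isIntegral_coe c
    exact (isIntegral_algebraMap_iff (algebraMap K L).injective).1 h8
  obtain ⟨q, hq⟩ : ∃ q : 𝓞 K, (q : K) = (e : K) * (Algebra.norm K y * (D.n : K)⁻¹) := ⟨⟨_, h7⟩, rfl⟩
  have h8 : (e : K) * (D.ν * Algebra.norm K y) = (D.δ : K)⁻¹ * (q : K) := by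
    rw [hq]
    unfold Lat.ν
    rw [mul_inv]
    ring
  rw [h8]
  exact eQ_intK D.δne D.diff _

/-- The Fourier transform of `phb` is supported on the dual of `m b`, where `e q` is integral.  PROOF. Let `FT (phb) (y) ≠ 0`.  For `x₀ ∈ m b` the function
`f x = ε x eQ (ν x τ y)` satisfies `f (x + x₀) = eQ (ν x₀ τ y) f x` (`x₀ ∈ m`), so `eQ (ν x₀ τ y) = 1` (`mn_zero_of_shift`).  By `Fld.dualL` (with
`v = τ y / n`, `I = m b`): `x τ(y) z / n` is integral for `x ∈ m b`, `z ∈ 𝔇`.  Apply this to `x`, `z` and (after `τ`) to `x'`, `z'`: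
`x τ(x') z τ(z') y τ(y) / n²` is integral for `x, x' ∈ m b`, `z, z' ∈ 𝔇`, i.e. `N(y) / n² * (m b 𝔇) τ(m b 𝔇) ⊆ 𝓞 L`, `(m b 𝔇) τ(m b 𝔇) = (lev) (n)`
(`Fld.mul_tI`, `D.norm`, `tI_diff`).  So `e N(y) / n` is integral for `e ∈ lev`, and `eQ (e ν N(y)) = 1` (`eQ_intK`). -/
theorem FT_phb_supp (χ : Chr F m) (hm : m ≠ ⊥) (D : Lat F) {e : 𝓞 K} (he : e ∈ lev K m) {y : L}
    (hy : F.FT D.ν D.b (phb χ D.b) y ≠ 0) : eQ ((e : K) * (D.ν * Algebra.norm K y)) = 1 := by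
  obtain ⟨c, hc⟩ := i11_b F _ _ (i11_a D (m * D.b) fun x hx => i11_one χ hm D hy hx) _ (i11_c D he)
  exact i11_e D (i11_d D hc)

theorem i11_wi {P : ℂ × ℝ} (hP : P ∈ H3) : wi P ∈ H3 := by
  rw [← act_w]
  exact act_mem (by simp [Matrix.det_fin_two]) hP

theorem i11_wiwi {P : ℂ × ℝ} (hP : P ∈ H3) : wi (wi P) = P := by
  have h0 : (!![0, -1; 1, 0] : Matrix (Fin 2) (Fin 2) ℂ).det ≠ 0 := by simp [Matrix.det_fin_two]
  have h1 := act_mul h0 h0 hP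
  rw [act_w, act_w] at h1
  rw [← h1]
  have h2 : (!![0, -1; 1, 0] : Matrix (Fin 2) (Fin 2) ℂ) * !![0, -1; 1, 0] = !![-1, 0; 0, -1] := by
    rw [Matrix.mul_fin_two]
    norm_num
  rw [h2, act_diag (-1) (-1) (by norm_num)]
  simp

theorem i11_low (F : Fld K L) (e : 𝓞 K) {P : ℂ × ℝ} (hP : P ∈ H3) :
    actO F.sK !![1, 0; e, 1] P = wi ((wi P).1 + F.sK (-(e : K)), (wi P).2) := by
  have h0 : (!![0, -1; 1, 0] : Matrix (Fin 2) (Fin 2) ℂ).det ≠ 0 := by simp [Matrix.det_fin_two]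
  have h1 : (!![1, 0; F.sK (e : K), 1] : Matrix (Fin 2) (Fin 2) ℂ).det ≠ 0 := by simp [Matrix.det_fin_two]
  have h2 : (!![1, F.sK (-(e : K)); 0, 1] : Matrix (Fin 2) (Fin 2) ℂ).det ≠ 0 := by simp [Matrix.det_fin_two]
  have hw := i11_wi hP
  have h3 : actO F.sK !![1, 0; e, 1] P = act !![1, 0; F.sK (e : K), 1] P := by
    unfold actO
    congr 1
    ext i j
    fin_cases i <;> fin_cases j
    · change F.sK ((1 : 𝓞 K) : K) = 1
      exact map_one F.sK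
    · change F.sK ((0 : 𝓞 K) : K) = 0
      exact map_zero F.sK
    · rfl
    · change F.sK ((1 : 𝓞 K) : K) = 1
      exact map_one F.sK
  have h4 : P = act !![0, -1; 1, 0] (wi P) := by
    rw [act_w, i11_wiwi hP]
  rw [h3]
  conv_lhs => rw [h4]
  rw [← act_mul h1 h0 hw, ← act_n, ← act_w (act !![1, F.sK (-(e : K)); 0, 1] (wi P)), ← act_mul h0 h2 hw]
  congr 1
  rw [Matrix.mul_fin_two, Matrix.mul_fin_two, map_neg]
  norm_num

theorem i11_WL (χ : Chr F m) (hm : m ≠ ⊥) (H : Eta F) (D : Lat F) {κ : ℝ} (hκ : WL H D κ) :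
    ∃ C : ℂ, ∀ P ∈ H3, F.GL (‖F.s ((H.η : 𝓞 L) : L)‖ ^ 2) D.ν (phb χ D.b) (wi P) =
      (κ : ℂ) * F.GL (‖F.s ((H.η : 𝓞 L) : L)‖ ^ 2) D.ν (F.FT D.ν D.b (phb χ D.b)) P + C := by
  refine hκ.2 (phb χ D.b) (fun x hx => phb_supp χ hx) ?_ ?_
  · obtain ⟨M, hM, h⟩ := phc_per χ hm D 0 (c := 1) one_ne_zero (fun x hx y hy => D.B_int hx hy)
      (fun x hx => D.q_int hx)
    refine ⟨M, hM, fun x hx y hy => ?_⟩
    have h1 := h x hx y hy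
    rw [phb_eq_phc, phb_eq_phc] at h1
    exact h1
  · intro x
    have h1 := phc_eta χ D 0 1 H x
    rw [phb_eq_phc, phb_eq_phc] at h1
    exact h1

theorem i11_FT (χ : Chr F m) (hm : m ≠ ⊥) (D : Lat F) (ρ : ℝ) {e : 𝓞 K}
    (he : e ∈ lev K m) (P : ℂ × ℝ) :
    F.GL ρ D.ν (F.FT D.ν D.b (phb χ D.b)) (P.1 + F.sK (-(e : K)), P.2) =
      F.GL ρ D.ν (F.FT D.ν D.b (phb χ D.b)) P := by
  rw [GL_add]
  congr 1
  funext x
  by_cases hx : F.FT D.ν D.b (phb χ D.b) x = 0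
  · rw [hx, zero_mul]
  · have h1 := FT_phb_supp χ hm D (e := -e) (Ideal.neg_mem_iff _ |>.2 he) hx
    rw [show ((-e : 𝓞 K) : K) = -(e : K) from rfl] at h1
    rw [h1, mul_one]

/-- PROOF. `(1 0; e 1) = w n(-e) w⁻¹`: `actO g P = wi (Q)`, `Q = (wi P).1 - e, (wi P).2` (`act_mul`, `act_w`, `act_n`).  By `WL` for `phb` (`phc` with
`a = 0`, `c = 1`: `phb_eq_phc`): `GL (wi Q) = κ GL (FT) (Q) + C`, `GL (FT) (Q) = GL (FT) (wi P)` by `GL_add` and `FT_phb_supp`, and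
`κ GL (FT) (wi P) + C = GL (wi (wi P)) = GL (P)`. -/
theorem GL_lower (χ : Chr F m) (hm : m ≠ ⊥) (H : Eta F) (D : Lat F) {κ : ℝ} (hκ : WL H D κ) {e : 𝓞 K}
    (he : e ∈ lev K m) {P : ℂ × ℝ} (hP : P ∈ H3) :
    F.GL (‖F.s ((H.η : 𝓞 L) : L)‖ ^ 2) D.ν (phb χ D.b) (actO F.sK !![1, 0; e, 1] P) =
      F.GL (‖F.s ((H.η : 𝓞 L) : L)‖ ^ 2) D.ν (phb χ D.b) P := by
  obtain ⟨C, hC⟩ := i11_WL χ hm H D hκ
  have hw := i11_wi hP
  have hw2 : ((wi P).1 + F.sK (-(e : K)), (wi P).2) ∈ H3 := hw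
  rw [i11_low F e hP, hC _ hw2, i11_FT χ hm D _ he, ← hC _ hw, i11_wiwi hP]

/-- PROOF. Compare `GL_lower` and `GL_mult` for `(1 0; e 1)`: `(κ |e|² Ga(1, e) - 1) GL(P)` is constant, `ε 1 = 1`. -/
theorem GL_one (χ : Chr F m) (hm : m ≠ ⊥) (H : Eta F) (D : Lat F) {κ : ℝ} (hκ : WL H D κ) {e : 𝓞 K}
    (he : e ∈ lev K m) (h0 : e ≠ 0) {P P' : ℂ × ℝ} (hP : P ∈ H3) (hP' : P' ∈ H3)
    (hne : F.GL (‖F.s ((H.η : 𝓞 L) : L)‖ ^ 2) D.ν (phb χ D.b) P ≠ F.GL (‖F.s ((H.η : 𝓞 L) : L)‖ ^ 2) D.ν (phb χ D.b) P') :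
    (κ : ℂ) * (‖F.sK (e : K)‖ ^ 2 : ℝ) * Ga m D 1 e = 1 := by
  have hdet : (!![1, 0; e, 1] : Matrix (Fin 2) (Fin 2) (𝓞 K)).det = 1 := by
    rw [Matrix.det_fin_two_of]
    ring
  obtain ⟨C, hC⟩ := GL_mult χ hm H D hκ !![1, 0; e, 1] hdet h0 he
  have h1 := hC P hP
  have h2 := hC P' hP'
  rw [GL_lower χ hm H D hκ he hP] at h1
  rw [GL_lower χ hm H D hκ he hP'] at h2
  have h3 : χ.ε (algebraMap (𝓞 K) (𝓞 L) ((!![1, 0; e, 1] : Matrix (Fin 2) (Fin 2) (𝓞 K)) 1 1)) = 1 := by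
    change χ.ε (algebraMap (𝓞 K) (𝓞 L) 1) = 1
    rw [map_one, χ.one]
  rw [h3, mul_one] at h1 h2
  change _ = (κ : ℂ) * (‖F.sK (e : K)‖ ^ 2 : ℝ) * Ga m D 1 e * _ + C at h1
  change _ = (κ : ℂ) * (‖F.sK (e : K)‖ ^ 2 : ℝ) * Ga m D 1 e * _ + C at h2
  refine mul_right_cancel₀ (sub_ne_zero.2 hne) ?_
  linear_combination h2 - h1

end Pool.Agent.H2S
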