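import Pool.Agent.Lib.H2S.M1

/-!
# M3: the mean and homomorphisms
-/

set_option autoImplicit false
namespace Pool.Agent.H2S

/-- Auxiliary: a periodic function and representatives. -/
theorem m3_out {A : Type*} [AddCommGroup A] {J : AddSubgroup A} {f : A → ℂ} (hf : Per J f) (x : A) {q : A ⧸ J}
    (h : (x : A ⧸ J) = q) : f (Quotient.out q) = f x := by
  have h1 : ((Quotient.out q : A) : A ⧸ J) = (x : A ⧸ J) := by
    rw [h]
    exact Quotient.out_eq q
  have h2 : -x + Quotient.out q ∈ J := QuotientAddGroup.eq.1 h1.symm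
  have h3 := hf x _ h2
  rw [add_neg_cancel_left] at h3
  exact h3

/-- Auxiliary: comparison of two means. -/
theorem m3_mJ {A B : Type*} [AddCommGroup A] [AddCommGroup B] {J : AddSubgroup A} {J' : AddSubgroup B} {f : A → ℂ} {g : B → ℂ}
    (e : (A ⧸ J) ≃ (B ⧸ J')) (h : ∀ q, f (Quotient.out q) = g (Quotient.out (e q))) : mJ J f = mJ J' g := by
  unfold mJ
  rw [Nat.card_congr e]
  congr 1
  rw [← finsum_comp_equiv e]
  exact finsum_congr h

/-- PROOF. Let `J' = comap α J`.  `α` induces a bijection `A' ⧸ J' → A ⧸ J` (injective by definition of `J'`, surjective by `hs`), so `J'` has finite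
index, `f ∘ α` is periodic with respect to `J'` and the two sums over the quotients agree (`mn_eq`; `f (α (out q)) = f (out (image of q))` by
periodicity). -/
theorem mn_comp {A A' : Type*} [AddCommGroup A] [AddCommGroup A'] (α : A' →+ A) {f : A → ℂ} {J : AddSubgroup A}
    (hJ : J.FiniteIndex) (hf : Per J f) (hs : ∀ y, ∃ x, y - α x ∈ J) : mn (fun x => f (α x)) = mn f := by
  have hfin : Finite (A ⧸ J) := AddSubgroup.finite_quotient_of_finiteIndex
  let β : (A' ⧸ J.comap α) →+ (A ⧸ J) := QuotientAddGroup.map (J.comap α) J α le_rfl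
  have hβ : ∀ x : A', β (x : A' ⧸ J.comap α) = ((α x : A) : A ⧸ J) := fun x => rfl
  have hinj : Function.Injective β := by
    intro q q' h
    obtain ⟨x, rfl⟩ := QuotientAddGroup.mk_surjective q
    obtain ⟨x', rfl⟩ := QuotientAddGroup.mk_surjective q'
    rw [hβ, hβ] at h
    have h1 : -α x + α x' ∈ J := QuotientAddGroup.eq.1 h
    refine QuotientAddGroup.eq.2 ?_
    rw [AddSubgroup.mem_comap, map_add, map_neg]
    exact h1
  have hsur : Function.Surjective β := by
    intro q
    obtain ⟨y, rfl⟩ := QuotientAddGroup.mk_surjective q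
    obtain ⟨x, hx⟩ := hs y
    refine ⟨(x : A' ⧸ J.comap α), ?_⟩
    rw [hβ]
    refine QuotientAddGroup.eq.2 ?_
    rw [neg_add_eq_sub]
    exact hx
  have hfin' : Finite (A' ⧸ J.comap α) := Finite.of_injective β hinj
  have hJ' : (J.comap α).FiniteIndex := AddSubgroup.finiteIndex_of_finite_quotient
  have hf' : Per (J.comap α) (fun x => f (α x)) := by
    intro x y hy
    change f (α (x + y)) = f (α x)
    rw [map_add]
    exact hf _ _ hy
  rw [mn_eq hJ' hf', mn_eq hJ hf]
  refine m3_mJ (Equiv.ofBijective β ⟨hinj, hsur⟩) fun q => ?_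
  symm
  refine m3_out hf (α (Quotient.out q)) ?_
  rw [← hβ]
  change β ((Quotient.out q : A') : A' ⧸ J.comap α) = β q
  congr 1
  exact Quotient.out_eq q

/-- PROOF. Use `J.prod J'` (finite index: the quotient of the product is the product of the quotients; or `AddSubgroup.index_prod`).  The sum over
`(A × B) ⧸ (J.prod J')` is the double sum (bijection with `(A ⧸ J) × (B ⧸ J')`). -/
theorem mn_prod {A B : Type*} [AddCommGroup A] [AddCommGroup B] {f : A → ℂ} {g : B → ℂ} (hf : IsPer f) (hg : IsPer g) :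
    mn (fun p : A × B => f p.1 * g p.2) = mn f * mn g := by
  obtain ⟨J, hJ, hfJ⟩ := hf
  obtain ⟨J', hJ', hgJ⟩ := hg
  have fin1 : Finite (A ⧸ J) := AddSubgroup.finite_quotient_of_finiteIndex
  have fin2 : Finite (B ⧸ J') := AddSubgroup.finite_quotient_of_finiteIndex
  let β : ((A × B) ⧸ J.prod J') →+ (A ⧸ J) × (B ⧸ J') :=
    QuotientAddGroup.lift (J.prod J') ((QuotientAddGroup.mk' J).prodMap (QuotientAddGroup.mk' J')) (by
      rintro ⟨x, y⟩ ⟨h1, h2⟩
      rw [AddMonoidHom.mem_ker]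
      refine Prod.ext ?_ ?_
      · exact (QuotientAddGroup.eq_zero_iff x).2 h1
      · exact (QuotientAddGroup.eq_zero_iff y).2 h2)
  have hβ : ∀ p : A × B, β (p : (A × B) ⧸ J.prod J') = ((p.1 : A ⧸ J), (p.2 : B ⧸ J')) := fun p => rfl
  have hinj : Function.Injective β := by
    intro q q' h
    obtain ⟨x, rfl⟩ := QuotientAddGroup.mk_surjective q
    obtain ⟨x', rfl⟩ := QuotientAddGroup.mk_surjective q'
    rw [hβ, hβ] at h
    refine QuotientAddGroup.eq.2 ⟨?_, ?_⟩
    · exact QuotientAddGroup.eq.1 (congrArg Prod.fst h)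
    · exact QuotientAddGroup.eq.1 (congrArg Prod.snd h)
  have hsur : Function.Surjective β := by
    rintro ⟨q, q'⟩
    obtain ⟨x, rfl⟩ := QuotientAddGroup.mk_surjective q
    obtain ⟨x', rfl⟩ := QuotientAddGroup.mk_surjective q'
    exact ⟨((x, x') : (A × B) ⧸ J.prod J'), hβ (x, x')⟩
  have hfin : Finite ((A × B) ⧸ J.prod J') := Finite.of_injective β hinj
  have hJJ : (J.prod J').FiniteIndex := AddSubgroup.finiteIndex_of_finite_quotient
  have hper : Per (J.prod J') (fun p : A × B => f p.1 * g p.2) := by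
    rintro ⟨x, y⟩ ⟨u, v⟩ ⟨h1, h2⟩
    change f (x + u) * g (y + v) = f x * g y
    rw [hfJ x u h1, hgJ y v h2]
  rw [mn_eq hJJ hper, mn_eq hJ hfJ, mn_eq hJ' hgJ]
  let e := Equiv.ofBijective β ⟨hinj, hsur⟩
  let _ := Fintype.ofFinite (A ⧸ J)
  let _ := Fintype.ofFinite (B ⧸ J')
  unfold mJ
  have h1 : ∑ᶠ q : (A × B) ⧸ J.prod J', f (Quotient.out q).1 * g (Quotient.out q).2 =
      ∑ᶠ p : (A ⧸ J) × (B ⧸ J'), f (Quotient.out p.1) * g (Quotient.out p.2) := by
    rw [← finsum_comp_equiv e]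
    refine finsum_congr fun q => ?_
    have h2 : β q = (((Quotient.out q : A × B).1 : A ⧸ J), ((Quotient.out q : A × B).2 : B ⧸ J')) := by
      rw [← hβ]
      congr 1
      exact (Quotient.out_eq q).symm
    have h3 : (((Quotient.out q : A × B).1 : A) : A ⧸ J) = (e q).1 := (congrArg Prod.fst h2).symm
    have h4 : (((Quotient.out q : A × B).2 : B) : B ⧸ J') = (e q).2 := (congrArg Prod.snd h2).symm
    rw [m3_out hfJ _ h3, m3_out hgJ _ h4]
  rw [h1, Nat.card_congr e, Nat.card_prod, finsum_eq_sum_of_fintype, finsum_eq_sum_of_fintype,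
    finsum_eq_sum_of_fintype, Fintype.sum_prod_type]
  have h5 : ∑ x : A ⧸ J, ∑ y : B ⧸ J', f (Quotient.out (x, y).1) * g (Quotient.out (x, y).2) =
      (∑ x : A ⧸ J, f (Quotient.out x)) * ∑ y : B ⧸ J', g (Quotient.out y) := by
    rw [Finset.sum_mul_sum]
  rw [h5]
  push_cast
  rw [mul_inv]
  ring

end Pool.Agent.H2S
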