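import Pool.Agent.Lib.H2S.M1

/-!
# M5: functions supported on a subgroup
-/

set_option autoImplicit false
namespace Pool.Agent.H2S

lemma m5_rep {A : Type*} [AddCommGroup A] {J : AddSubgroup A} {f : A → ℂ} (hf : Per J f) {x y : A}
    (h : (QuotientAddGroup.mk x : A ⧸ J) = QuotientAddGroup.mk y) : f x = f y := by
  rw [QuotientAddGroup.eq] at h
  have h1 := hf x (-x + y) h
  rw [add_neg_cancel_left] at h1
  exact h1.symm

lemma m5_out {A : Type*} [AddCommGroup A] {J : AddSubgroup A} (w : A ⧸ J) :
    (QuotientAddGroup.mk (Quotient.out w) : A ⧸ J) = w := Quotient.out_eq w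

/-- PROOF. Let `J` be a subgroup of periods of `f` of finite index, `R = α.range`, `J₁ = J ⊓ R` (finite index).  The function on the left is periodic
with respect to `J₁`, so its mean is `J₁.index⁻¹ * ∑ over the cosets of J₁ contained in R`, i.e. `J₁.index⁻¹ * ∑ over R ⧸ J₁`; and
`mn (f ∘ α) = (index of comap α J₁)⁻¹ * (the same sum)` (`α : A' ≃ R`), `J₁.index = R.index * (index of J₁ in R)` (`relIndex_mul_index`). -/
theorem mn_range {A A' : Type*} [AddCommGroup A] [AddCommGroup A'] (α : A' →+ A) (hα : Function.Injective α)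
    (hR : α.range.FiniteIndex) {f : A → ℂ} (hf : IsPer f) :
    mn (open Classical in fun x => if x ∈ α.range then f x else 0) = (α.range.index : ℂ)⁻¹ * mn (fun x => f (α x)) := by
  classical
  obtain ⟨J, hJ, p⟩ := hf
  set R := α.range with hRdef
  have hJ1 : (J ⊓ R).FiniteIndex := inferInstance
  have hJ' : (AddSubgroup.comap α (J ⊓ R)).FiniteIndex := by
    refine ⟨?_⟩
    rw [AddSubgroup.index_comap]
    intro h0
    have h5 := AddSubgroup.relIndex_mul_index (H := J ⊓ R) (K := R) inf_le_right
    rw [h0, zero_mul] at h5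
    exact hJ1.index_ne_zero h5.symm
  have p1 : Per (J ⊓ R) (fun x => if x ∈ R then f x else 0) := by
    intro x y hy
    have h1 : x + y ∈ R ↔ x ∈ R := by
      constructor
      · intro h
        have h2 := R.sub_mem h hy.2
        rwa [add_sub_cancel_right] at h2
      · intro h
        exact R.add_mem h hy.2
    change (if x + y ∈ R then f (x + y) else 0) = if x ∈ R then f x else 0
    rw [p x y hy.1]
    simp only [h1]
  have p2 : Per (AddSubgroup.comap α (J ⊓ R)) (fun x => f (α x)) := by
    intro x y hy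
    change f (α (x + y)) = f (α x)
    rw [map_add]
    exact p _ _ (AddSubgroup.mem_comap.mp hy).1
  rw [mn_eq hJ1 p1, mn_eq hJ' p2]
  -- the map between the quotients
  let Φ : (A' ⧸ AddSubgroup.comap α (J ⊓ R)) →+ A ⧸ (J ⊓ R) :=
    QuotientAddGroup.map _ _ α le_rfl
  have hΦ : ∀ x : A', Φ (QuotientAddGroup.mk x) = QuotientAddGroup.mk (α x) := fun x => rfl
  have hΦinj : Function.Injective Φ := by
    rw [injective_iff_map_eq_zero]
    intro q hq
    obtain ⟨x, rfl⟩ := QuotientAddGroup.mk_surjective q
    rw [hΦ, QuotientAddGroup.eq_zero_iff] at hq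
    rw [QuotientAddGroup.eq_zero_iff]
    exact hq
  have hsum : ∑ᶠ q : A ⧸ (J ⊓ R), (fun x => if x ∈ R then f x else 0) (Quotient.out q) =
      ∑ᶠ q : A' ⧸ AddSubgroup.comap α (J ⊓ R), f (α (Quotient.out q)) := by
    have h1 : (fun q : A ⧸ (J ⊓ R) => (fun x => if x ∈ R then f x else 0) (Quotient.out q)) =
        Set.indicator (Set.range Φ)
          (fun q : A ⧸ (J ⊓ R) => (fun x => if x ∈ R then f x else 0) (Quotient.out q)) := by
      symm
      rw [Set.indicator_eq_self]
      intro q hq
      by_contra hcon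
      refine hq ?_
      change (if Quotient.out q ∈ R then f (Quotient.out q) else 0) = 0
      rw [if_neg]
      rintro ⟨x, hx⟩
      refine hcon ⟨QuotientAddGroup.mk x, ?_⟩
      rw [hΦ, hx]
      exact m5_out q
    rw [h1, ← finsum_mem_def, finsum_mem_range hΦinj]
    refine finsum_congr fun q => ?_
    have h3 : (QuotientAddGroup.mk (Quotient.out (Φ q)) : A ⧸ (J ⊓ R)) =
        QuotientAddGroup.mk (α (Quotient.out q)) := by
      rw [m5_out, ← hΦ, m5_out]
    have h4 := m5_rep p1 h3
    refine h4.trans ?_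
    rw [if_pos ⟨_, rfl⟩]
  unfold mJ
  rw [hsum, ← AddSubgroup.index_eq_card, ← AddSubgroup.index_eq_card, AddSubgroup.index_comap,
    ← mul_assoc, ← mul_inv]
  congr 2
  have h5 := AddSubgroup.relIndex_mul_index (H := J ⊓ R) (K := R) inf_le_right
  rw [← h5, Nat.cast_mul, mul_comm]

/-- The number of elements of `A ⧸ J` on which a function takes the value `0`.  PROOF. `mn_eq`: the mean of the indicator function. -/
theorem mn_indicator {A : Type*} [AddCommGroup A] {J : AddSubgroup A} (hJ : J.FiniteIndex) {p : A → Prop}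
    (hp : ∀ x, ∀ y ∈ J, p (x + y) ↔ p x) :
    mn (open Classical in fun x => if p x then (1 : ℂ) else 0) =
      (Nat.card (A ⧸ J) : ℂ)⁻¹ * (Nat.card {q : A ⧸ J // p (Quotient.out q)} : ℂ) := by
  classical
  have p1 : Per J (fun x => if p x then (1 : ℂ) else 0) := by
    intro x y hy
    change (if p (x + y) then (1 : ℂ) else 0) = if p x then 1 else 0
    simp only [hp x y hy]
  rw [mn_eq hJ p1]
  have : Finite (A ⧸ J) := AddSubgroup.finite_quotient_of_finiteIndex
  have := Fintype.ofFinite (A ⧸ J)
  unfold mJ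
  congr 1
  rw [finsum_eq_sum_of_fintype]
  change ∑ q : A ⧸ J, (if p (Quotient.out q) then (1 : ℂ) else 0) = _
  rw [Finset.sum_boole, Nat.card_eq_fintype_card, Fintype.card_subtype]

end Pool.Agent.H2S
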