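import Pool.Agent.Lib.H2S.I0
import Pool.Agent.Lib.H2S.I5
import Pool.Agent.Lib.H2S.M2
import Pool.Agent.Lib.H2S.M3
import Pool.Agent.Lib.H2S.M5

/-!
# I12: Gauss sums, multiplicativity
-/

set_option autoImplicit false
namespace Pool.Agent.H2S
open Complex NumberField

variable {K L : Type*} [Field K] [NumberField K] [Field L] [NumberField L] [Algebra K L]
  {F : Fld K L} {m : Ideal (𝓞 L)}

/-- Multiplication by an element of `𝓞 K` on `b`. -/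
noncomputable def i12_mul (D : Lat F) (a : 𝓞 K) : D.b →+ D.b where
  toFun x := ⟨algebraMap (𝓞 K) (𝓞 L) a * (x : 𝓞 L), D.b.mul_mem_left _ x.2⟩
  map_zero' := Subtype.ext (mul_zero _)
  map_add' _ _ := Subtype.ext (mul_add _ _ _)

theorem i12_mul_coe (D : Lat F) (a : 𝓞 K) (x : D.b) :
    ((i12_mul D a x : D.b) : 𝓞 L) = algebraMap (𝓞 K) (𝓞 L) a * (x : 𝓞 L) := rfl

theorem i12_mul_coeL (D : Lat F) (a : 𝓞 K) (x : D.b) :
    (((i12_mul D a x : D.b) : 𝓞 L) : L) = algebraMap K L (a : K) * ((x : 𝓞 L) : L) := rfl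

/-- The image has finite index. -/
theorem i12_fin (D : Lat F) {a : 𝓞 K} (ha : a ≠ 0) : (i12_mul D a).range.FiniteIndex := by
  have h1 : Module.Finite ℤ D.b :=
    Module.Finite.of_injective (Submodule.subtype D.b).toAddMonoidHom.toIntLinearMap Subtype.coe_injective
  have h2 : Module.Finite ℤ (D.b ⧸ (i12_mul D a).range) :=
    Module.Finite.of_surjective (QuotientAddGroup.mk' (i12_mul D a).range).toIntLinearMap (QuotientAddGroup.mk'_surjective _)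
  have h3 : Ideal.absNorm (Ideal.span {a}) ≠ 0 := by
    rw [Ne, Ideal.absNorm_eq_zero_iff, Ideal.span_singleton_eq_bot]
    exact ha
  obtain ⟨a', ha'⟩ := Ideal.mem_span_singleton.1 (Ideal.absNorm_mem (Ideal.span {a}))
  have h4 : Finite (D.b ⧸ (i12_mul D a).range) := by
    refine Module.finite_of_fg_torsion _ ?_
    rintro ⟨q⟩
    refine ⟨⟨((Ideal.absNorm (Ideal.span {a}) : ℕ) : ℤ), mem_nonZeroDivisors_of_ne_zero (by exact_mod_cast h3)⟩, ?_⟩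
    change (((Ideal.absNorm (Ideal.span {a}) : ℕ) : ℤ)) • (QuotientAddGroup.mk q : D.b ⧸ (i12_mul D a).range) = 0
    rw [natCast_zsmul, ← QuotientAddGroup.mk_nsmul, QuotientAddGroup.eq_zero_iff]
    refine ⟨i12_mul D a' q, Subtype.ext ?_⟩
    rw [i12_mul_coe, i12_mul_coe, ← mul_assoc, ← map_mul, ← ha', map_natCast]
    change _ = ((Ideal.absNorm (Ideal.span {a}) • q : D.b) : 𝓞 L)
    rw [← nsmul_eq_mul]
    rfl
  exact AddSubgroup.finiteIndex_of_finite_quotient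

/-- An integral multiple of `q(x)` has trivial character. -/
theorem i12_one (D : Lat F) (w : 𝓞 K) (x : D.b) : eQ ((w : K) * (D.ν * Algebra.norm K ((x : 𝓞 L) : L))) = 1 := by
  obtain ⟨q, hq⟩ := D.q_int x.2
  have h1 : (w : K) * (D.ν * Algebra.norm K ((x : 𝓞 L) : L)) = (D.δ : K)⁻¹ * ((w * q : 𝓞 K) : K) := by
    rw [hq]
    have h2 : ((w * q : 𝓞 K) : K) = (w : K) * (q : K) := rfl
    rw [h2]
    ring
  rw [h1]
  exact n4_one D.δne D.diff _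

/-- The bilinear form. -/
theorem i12_tr (D : Lat F) (w : 𝓞 K) (x y : D.b) :
    eQ ((w : K) * (D.ν * Algebra.trace K L (((x : 𝓞 L) : L) * F.τ ((y : 𝓞 L) : L)))) = 1 := by
  obtain ⟨z, hz⟩ := D.B_int x.2 y.2
  have h1 : D.ν * Algebra.trace K L (((x : 𝓞 L) : L) * F.τ ((y : 𝓞 L) : L)) = (D.δ : K)⁻¹ * Algebra.trace K L ((z : 𝓞 L) : L) := by
    rw [← smul_eq_mul, ← map_smul, Algebra.smul_def, ← mul_assoc, hz, ← Algebra.smul_def, map_smul, smul_eq_mul]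
  have h2 : IsIntegral ℤ (Algebra.trace K L ((z : 𝓞 L) : L)) := Algebra.isIntegral_trace z.isIntegral_coe
  have h3 : (w : K) * (D.ν * Algebra.trace K L (((x : 𝓞 L) : L) * F.τ ((y : 𝓞 L) : L))) =
      (D.δ : K)⁻¹ * ((w * ⟨_, h2⟩ : 𝓞 K) : K) := by
    rw [h1]
    have h4 : ((w * ⟨_, h2⟩ : 𝓞 K) : K) = (w : K) * Algebra.trace K L ((z : 𝓞 L) : L) := rfl
    rw [h4]
    ring
  rw [h3]
  exact n4_one D.δne D.diff _

/-- The quadratic form at a combination. -/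
theorem i12_q (D : Lat F) (r : K) (s t w : 𝓞 K) (hr : r * (s : K) * (t : K) = (w : K)) (x y : D.b) :
    eQ (r * (D.ν * Algebra.norm K (((i12_mul D s x + i12_mul D t y : D.b) : 𝓞 L) : L))) =
      eQ (r * (s : K) ^ 2 * (D.ν * Algebra.norm K ((x : 𝓞 L) : L))) *
        eQ (r * (t : K) ^ 2 * (D.ν * Algebra.norm K ((y : 𝓞 L) : L))) := by
  have h1 : (((i12_mul D s x + i12_mul D t y : D.b) : 𝓞 L) : L) =
      algebraMap K L (s : K) * ((x : 𝓞 L) : L) + algebraMap K L (t : K) * ((y : 𝓞 L) : L) := rfl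
  have h2 : ∀ (c : K) (z : L), Algebra.norm K (algebraMap K L c * z) = c ^ 2 * Algebra.norm K z := by
    intro c z
    rw [map_mul, Algebra.norm_algebraMap, F.deg2]
  have h3 : Algebra.trace K L (algebraMap K L (s : K) * ((x : 𝓞 L) : L) * F.τ (algebraMap K L (t : K) * ((y : 𝓞 L) : L))) =
      (s : K) * (t : K) * Algebra.trace K L (((x : 𝓞 L) : L) * F.τ ((y : 𝓞 L) : L)) := by
    have e1 : algebraMap K L (s : K) * ((x : 𝓞 L) : L) * F.τ (algebraMap K L (t : K) * ((y : 𝓞 L) : L)) =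
        algebraMap K L ((s : K) * (t : K)) * (((x : 𝓞 L) : L) * F.τ ((y : 𝓞 L) : L)) := by
      rw [map_mul F.τ, AlgEquiv.commutes, map_mul (algebraMap K L)]
      ring
    rw [e1, ← Algebra.smul_def, map_smul, smul_eq_mul]
  have h4 : r * (D.ν * Algebra.norm K (((i12_mul D s x + i12_mul D t y : D.b) : 𝓞 L) : L)) =
      r * (s : K) ^ 2 * (D.ν * Algebra.norm K ((x : 𝓞 L) : L)) +
        ((w : K) * (D.ν * Algebra.trace K L (((x : 𝓞 L) : L) * F.τ ((y : 𝓞 L) : L))) +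
          r * (t : K) ^ 2 * (D.ν * Algebra.norm K ((y : 𝓞 L) : L))) := by
    rw [h1, F.norm_add, h2, h2, h3, ← hr]
    ring
  rw [h4, eQ_add, eQ_add, i12_tr, one_mul]

/-- Period of the quadratic character. -/
theorem i12_per (D : Lat F) (c : 𝓞 K) {a : 𝓞 K} (ha : a ≠ 0) (x z : D.b) :
    eQ ((c : K) / (a : K) * (D.ν * Algebra.norm K (((x + i12_mul D a z : D.b) : 𝓞 L) : L))) =
      eQ ((c : K) / (a : K) * (D.ν * Algebra.norm K ((x : 𝓞 L) : L))) := by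
  have ha' : (a : K) ≠ 0 := fun h => ha (RingOfIntegers.ext h)
  have h1 : i12_mul D 1 x = x := by
    apply Subtype.ext
    rw [i12_mul_coe, map_one, one_mul]
  have hone : ((1 : 𝓞 K) : K) = 1 := rfl
  have h2 := i12_q D ((c : K) / (a : K)) 1 a c (by rw [hone]; field_simp) x z
  rw [h1, hone, one_pow, mul_one] at h2
  have h3 : (c : K) / (a : K) * (a : K) ^ 2 = ((c * a : 𝓞 K) : K) := by
    have h4 : ((c * a : 𝓞 K) : K) = (c : K) * (a : K) := rfl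
    rw [h4]
    field_simp
  rw [h2, h3, i12_one, mul_one]

/-- The combination map. -/
noncomputable def i12_al (D : Lat F) (s t : 𝓞 K) : D.b × D.b →+ D.b :=
  (i12_mul D s).coprod (i12_mul D t)

theorem i12_al_apply (D : Lat F) (s t : 𝓞 K) (p : D.b × D.b) : i12_al D s t p = i12_mul D s p.1 + i12_mul D t p.2 := rfl

theorem i12_surj (D : Lat F) {s t : 𝓞 K} (h : IsCoprime s t) (y : D.b) : ∃ p, i12_al D s t p = y := by
  obtain ⟨u, v, huv⟩ := h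
  refine ⟨(i12_mul D u y, i12_mul D v y), Subtype.ext ?_⟩
  have h1 : ((i12_al D s t (i12_mul D u y, i12_mul D v y) : D.b) : 𝓞 L) =
      algebraMap (𝓞 K) (𝓞 L) s * (algebraMap (𝓞 K) (𝓞 L) u * (y : 𝓞 L)) +
        algebraMap (𝓞 K) (𝓞 L) t * (algebraMap (𝓞 K) (𝓞 L) v * (y : 𝓞 L)) := rfl
  rw [h1]
  have h2 : algebraMap (𝓞 K) (𝓞 L) u * algebraMap (𝓞 K) (𝓞 L) s + algebraMap (𝓞 K) (𝓞 L) v * algebraMap (𝓞 K) (𝓞 L) t = 1 := by
    rw [← map_mul, ← map_mul, ← map_add, huv, map_one]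
  linear_combination (y : 𝓞 L) * h2

/-- The functions are periodic.  PROOF. Period `M b`, `M` a positive multiple of `a` in `𝓞 K` (as in `phc_per`): `Lat.B_int`, `Lat.q_int`. -/
theorem q_per (D : Lat F) (c : 𝓞 K) {a : 𝓞 K} (ha : a ≠ 0) :
    IsPer (fun x : D.b => eQ ((c : K) / (a : K) * (D.ν * Algebra.norm K ((x : 𝓞 L) : L)))) := by
  refine ⟨(i12_mul D a).range, i12_fin D ha, ?_⟩
  rintro x _ ⟨z, rfl⟩
  exact i12_per D c ha x z

/-- PROOF. `x = a x₁ + c x₂`: `mn_comp` for `α : b × b → b`, `(x₁, x₂) ↦ a x₁ + c x₂` (surjective because `a`, `c` are coprime).  `x ∈ m b` iff `x₁ ∈ m b`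
(`c b ⊆ m b`, `a` is prime to `m`).  `N(a x₁ + c x₂) / (a c) = (a / c) N(x₁) + (c / a) N(x₂) + Tr (x₁ τ x₂)`, and `eQ (ν Tr(x₁ τ x₂)) = 1`.  `mn_prod`. -/
theorem Ga_mul (m : Ideal (𝓞 L)) (D : Lat F) {a c : 𝓞 K} (ha : a ≠ 0) (hc : c ≠ 0) (hl : c ∈ lev K m) (h : IsCoprime a c) :
    Ga m D 1 (a * c) = Ga m D a c * Sg D c a := by
  classical
  have ha' : (a : K) ≠ 0 := fun h => ha (RingOfIntegers.ext h)
  have hc' : (c : K) ≠ 0 := fun h => hc (RingOfIntegers.ext h)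
  have hac : a * c ≠ 0 := mul_ne_zero ha hc
  -- `c b ⊆ m b`
  have hcm : ∀ z : D.b, ((i12_mul D c z : D.b) : 𝓞 L) ∈ m * D.b := by
    intro z
    obtain ⟨J, hJ⟩ := F.exists_J hl
    have h1 : algebraMap (𝓞 K) (𝓞 L) c ∈ m := by
      have h2 : algebraMap (𝓞 K) (𝓞 L) c ∈ up L c := Ideal.mem_span_singleton_self _
      rw [hJ] at h2
      have h3 : m * F.tI m * differentIdeal (𝓞 K) (𝓞 L) * differentIdeal (𝓞 K) (𝓞 L) * J ≤ m := by
        exact le_trans Ideal.mul_le_left (le_trans Ideal.mul_le_left (le_trans Ideal.mul_le_left Ideal.mul_le_left))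
      exact h3 h2
    rw [i12_mul_coe]
    exact Ideal.mul_mem_mul h1 z.2
  have hmul : ∀ (w : 𝓞 K) (z : D.b), (z : 𝓞 L) ∈ m * D.b → ((i12_mul D w z : D.b) : 𝓞 L) ∈ m * D.b := by
    intro w z hz
    rw [i12_mul_coe]
    exact Ideal.mul_mem_left _ _ hz
  have hadd : ∀ (x y : D.b), (y : 𝓞 L) ∈ m * D.b → (((x + y : D.b) : 𝓞 L) ∈ m * D.b ↔ (x : 𝓞 L) ∈ m * D.b) := by
    intro x y hy
    exact Ideal.add_mem_iff_left _ hy
  have hax : ∀ x : D.b, ((i12_mul D a x : D.b) : 𝓞 L) ∈ m * D.b ↔ (x : 𝓞 L) ∈ m * D.b := by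
    intro x
    refine ⟨fun h1 => ?_, hmul a x⟩
    obtain ⟨u, v, huv⟩ := h
    have h2 : (x : 𝓞 L) = ((i12_mul D u (i12_mul D a x) + i12_mul D v (i12_mul D c x) : D.b) : 𝓞 L) := by
      have h3 : ((i12_mul D u (i12_mul D a x) + i12_mul D v (i12_mul D c x) : D.b) : 𝓞 L) =
          algebraMap (𝓞 K) (𝓞 L) u * (algebraMap (𝓞 K) (𝓞 L) a * (x : 𝓞 L)) +
            algebraMap (𝓞 K) (𝓞 L) v * (algebraMap (𝓞 K) (𝓞 L) c * (x : 𝓞 L)) := rfl
      have h4 : algebraMap (𝓞 K) (𝓞 L) u * algebraMap (𝓞 K) (𝓞 L) a + algebraMap (𝓞 K) (𝓞 L) v * algebraMap (𝓞 K) (𝓞 L) c = 1 := by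
        rw [← map_mul, ← map_mul, ← map_add, huv, map_one]
      rw [h3]
      linear_combination -(x : 𝓞 L) * h4
    rw [h2]
    exact Ideal.add_mem _ (hmul u _ h1) (hmul v _ (hcm x))
  have hper : Per (i12_mul D (a * c)).range (fun x : D.b => if (x : 𝓞 L) ∈ m * D.b then
      eQ (((1 : 𝓞 K) : K) / ((a * c : 𝓞 K) : K) * (D.ν * Algebra.norm K ((x : 𝓞 L) : L))) else 0) := by
    rintro x _ ⟨z, rfl⟩
    have h1 : i12_mul D (a * c) z = i12_mul D a (i12_mul D c z) := by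
      apply Subtype.ext
      rw [i12_mul_coe, i12_mul_coe, i12_mul_coe, map_mul, mul_assoc]
    have h2 : ((x + i12_mul D (a * c) z : D.b) : 𝓞 L) ∈ m * D.b ↔ (x : 𝓞 L) ∈ m * D.b :=
      hadd _ _ (by rw [h1]; exact hmul a _ (hcm z))
    simp only [h2]
    rw [i12_per D 1 hac x z]
  have hg1 : IsPer (fun x : D.b => if (x : 𝓞 L) ∈ m * D.b then
      eQ ((a : K) / (c : K) * (D.ν * Algebra.norm K ((x : 𝓞 L) : L))) else 0) := by
    refine ⟨(i12_mul D c).range, i12_fin D hc, ?_⟩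
    rintro x _ ⟨z, rfl⟩
    have h2 : ((x + i12_mul D c z : D.b) : 𝓞 L) ∈ m * D.b ↔ (x : 𝓞 L) ∈ m * D.b := hadd _ _ (hcm z)
    simp only [h2]
    rw [i12_per D a hc x z]
  have hcomp := mn_comp (i12_al D a c) (i12_fin D hac) hper (fun y => by
    obtain ⟨p, hp⟩ := i12_surj D h y
    exact ⟨p, by rw [hp, sub_self]; exact AddSubgroup.zero_mem _⟩)
  have hprod := mn_prod hg1 (q_per D c ha)
  have hfun : (fun p : D.b × D.b => if ((i12_al D a c p : D.b) : 𝓞 L) ∈ m * D.b then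
      eQ (((1 : 𝓞 K) : K) / ((a * c : 𝓞 K) : K) * (D.ν * Algebra.norm K (((i12_al D a c p : D.b) : 𝓞 L) : L))) else 0) =
      fun p : D.b × D.b => (if (p.1 : 𝓞 L) ∈ m * D.b then
        eQ ((a : K) / (c : K) * (D.ν * Algebra.norm K ((p.1 : 𝓞 L) : L))) else 0) *
          eQ ((c : K) / (a : K) * (D.ν * Algebra.norm K ((p.2 : 𝓞 L) : L))) := by
    funext p
    have h2 : ((i12_al D a c p : D.b) : 𝓞 L) ∈ m * D.b ↔ (p.1 : 𝓞 L) ∈ m * D.b := by
      rw [i12_al_apply]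
      exact (hadd _ _ (hcm p.2)).trans (hax p.1)
    simp only [h2]
    by_cases h3 : (p.1 : 𝓞 L) ∈ m * D.b
    · rw [if_pos h3, if_pos h3]
      have hone : ((1 : 𝓞 K) : K) = 1 := rfl
      have hacK : ((a * c : 𝓞 K) : K) = (a : K) * (c : K) := rfl
      have h4 := i12_q D (((1 : 𝓞 K) : K) / ((a * c : 𝓞 K) : K)) a c 1 (by rw [hone, hacK]; field_simp) p.1 p.2
      rw [i12_al_apply, h4]
      congr 2
      · rw [hone, hacK]; field_simp
      · rw [hone, hacK]; field_simp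
    · rw [if_neg h3, if_neg h3, zero_mul]
  unfold Ga Sg
  refine Eq.trans hcomp.symm (Eq.trans (congrArg mn hfun) hprod)

/-- PROOF. The same computation. -/
theorem Sg_mul (D : Lat F) {a₁ a₂ c : 𝓞 K} (h1 : a₁ ≠ 0) (h2 : a₂ ≠ 0) (h : IsCoprime a₁ a₂) :
    Sg D c (a₁ * a₂) = Sg D (c * a₂) a₁ * Sg D (c * a₁) a₂ := by
  have h1' : (a₁ : K) ≠ 0 := fun h => h1 (RingOfIntegers.ext h)
  have h2' : (a₂ : K) ≠ 0 := fun h => h2 (RingOfIntegers.ext h)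
  have h12 : a₁ * a₂ ≠ 0 := mul_ne_zero h1 h2
  have hper : Per (i12_mul D (a₁ * a₂)).range (fun x : D.b =>
      eQ ((c : K) / ((a₁ * a₂ : 𝓞 K) : K) * (D.ν * Algebra.norm K ((x : 𝓞 L) : L)))) := by
    rintro x _ ⟨z, rfl⟩
    exact i12_per D c h12 x z
  have hcomp := mn_comp (i12_al D a₂ a₁) (i12_fin D h12) hper (fun y => by
    obtain ⟨p, hp⟩ := i12_surj D h.symm y
    exact ⟨p, by rw [hp, sub_self]; exact AddSubgroup.zero_mem _⟩)
  have hprod := mn_prod (q_per D (c * a₂) h1) (q_per D (c * a₁) h2)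
  have hfun : (fun p : D.b × D.b =>
      eQ ((c : K) / ((a₁ * a₂ : 𝓞 K) : K) * (D.ν * Algebra.norm K (((i12_al D a₂ a₁ p : D.b) : 𝓞 L) : L)))) =
      fun p : D.b × D.b => eQ (((c * a₂ : 𝓞 K) : K) / (a₁ : K) * (D.ν * Algebra.norm K ((p.1 : 𝓞 L) : L))) *
          eQ (((c * a₁ : 𝓞 K) : K) / (a₂ : K) * (D.ν * Algebra.norm K ((p.2 : 𝓞 L) : L))) := by
    funext p
    have e1 : ((a₁ * a₂ : 𝓞 K) : K) = (a₁ : K) * (a₂ : K) := rfl
    have e2 : ((c * a₂ : 𝓞 K) : K) = (c : K) * (a₂ : K) := rfl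
    have e3 : ((c * a₁ : 𝓞 K) : K) = (c : K) * (a₁ : K) := rfl
    have h4 := i12_q D ((c : K) / ((a₁ * a₂ : 𝓞 K) : K)) a₂ a₁ c (by rw [e1]; field_simp) p.1 p.2
    rw [i12_al_apply, h4]
    congr 2
    · rw [e1, e2]; field_simp
    · rw [e1, e3]; field_simp
  unfold Sg
  exact Eq.trans hcomp.symm (Eq.trans (congrArg mn hfun) hprod)

/-- PROOF. `(c / u) ν N(x) = δ⁻¹ z` with `z` integral: the function is `1`. -/
theorem Sg_unit (D : Lat F) (c : 𝓞 K) {u : 𝓞 K} (hu : IsUnit u) : Sg D c u = 1 := by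
  obtain ⟨v, rfl⟩ := hu
  have h1 : (((v : 𝓞 K)) : K) * ((((v⁻¹ : (𝓞 K)ˣ) : 𝓞 K)) : K) = 1 := by
    have h2 : (v : 𝓞 K) * ((v⁻¹ : (𝓞 K)ˣ) : 𝓞 K) = 1 := v.mul_inv
    have h3 := congrArg (fun z : 𝓞 K => (z : K)) h2
    exact h3
  have hv : (((v : 𝓞 K)) : K) ≠ 0 := left_ne_zero_of_mul_eq_one h1
  have hfun : (fun x : D.b => eQ ((c : K) / (((v : 𝓞 K)) : K) * (D.ν * Algebra.norm K ((x : 𝓞 L) : L)))) = fun _ => 1 := by
    funext x
    have h4 : (c : K) / (((v : 𝓞 K)) : K) = ((c * ((v⁻¹ : (𝓞 K)ˣ) : 𝓞 K) : 𝓞 K) : K) := by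
      have h5 : ((c * ((v⁻¹ : (𝓞 K)ˣ) : 𝓞 K) : 𝓞 K) : K) = (c : K) * ((((v⁻¹ : (𝓞 K)ˣ) : 𝓞 K)) : K) := rfl
      rw [h5, div_eq_iff hv, mul_assoc, mul_comm ((((v⁻¹ : (𝓞 K)ˣ) : 𝓞 K)) : K), h1, mul_one]
    rw [h4]
    exact i12_one D _ x
  unfold Sg
  rw [hfun]
  exact mn_const 1

end Pool.Agent.H2S
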