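import Pool.Agent.Lib.H2S.M2

/-!
# M4: averaging over a subgroup
-/

set_option autoImplicit false
namespace Pool.Agent.H2S

theorem m4_sum {A : Type*} [AddCommGroup A] {f : A → ℂ} {J U : AddSubgroup A} (hJ : Per J f)
    {ψ : A → A → ℂ} (h1 : ∀ x, ∀ u ∈ U, f (x + u) = f x * ψ x u)
    (h2 : ∀ x, ∀ u ∈ U, ∀ u' ∈ U, ψ x (u + u') = ψ x u * ψ x u') (x : A) (hfx : f x ≠ 0) (u0 : A)
    (hu0 : u0 ∈ U) (hne : ψ x u0 ≠ 1) [Fintype (U ⧸ (J.addSubgroupOf U))] :
    ∑ q : U ⧸ (J.addSubgroupOf U), ψ x ((Quotient.out q : U) : A) = 0 := by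
  have hψ : ∀ u u' : U, (QuotientAddGroup.mk u : U ⧸ (J.addSubgroupOf U)) = QuotientAddGroup.mk u' →
      ψ x (u : A) = ψ x (u' : A) := by
    intro u u' h
    rw [QuotientAddGroup.eq, AddSubgroup.mem_addSubgroupOf] at h
    have h3 := hJ (x + (u : A)) _ h
    have h4 : x + (u : A) + ((-u + u' : U) : A) = x + (u' : A) := by
      push_cast
      abel
    rw [h4, h1 x _ u'.2, h1 x _ u.2] at h3
    exact (mul_left_cancel₀ hfx h3).symm
  have h3 : ∑ q : U ⧸ (J.addSubgroupOf U), ψ x ((Quotient.out q : U) : A) =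
      ∑ q : U ⧸ (J.addSubgroupOf U), ψ x ((Quotient.out q : U) : A) * ψ x u0 := by
    rw [← Equiv.sum_comp (Equiv.addRight (QuotientAddGroup.mk (⟨u0, hu0⟩ : U) : U ⧸ (J.addSubgroupOf U)))]
    refine Finset.sum_congr rfl fun q _ => ?_
    rw [← h2 x _ (Quotient.out q : U).2 u0 hu0]
    have h4 := hψ (Quotient.out (q + QuotientAddGroup.mk (⟨u0, hu0⟩ : U)))
      ((Quotient.out q : U) + ⟨u0, hu0⟩) (by
        rw [QuotientAddGroup.mk_add]
        have e1 : ∀ r : U ⧸ (J.addSubgroupOf U), (QuotientAddGroup.mk (Quotient.out r : U) :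
          U ⧸ (J.addSubgroupOf U)) = r := fun r => Quotient.out_eq r
        rw [e1, e1])
    exact h4
  rw [← Finset.sum_mul] at h3
  have h4 : (∑ q : U ⧸ (J.addSubgroupOf U), ψ x ((Quotient.out q : U) : A)) * (1 - ψ x u0) = 0 := by
    linear_combination h3
  rcases mul_eq_zero.1 h4 with h5 | h5
  · exact h5
  · exact absurd (sub_eq_zero.1 h5).symm hne

/-- PROOF. Let `g x = if ∀ u ∈ U, ψ x u = 1 then 0 else f x`, so `f = g + (the other function)`; all three are periodic with respect to `J ⊓ U` (`J`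
a subgroup of periods of `f`; `ψ (x + j) = ψ x` on `U` for `j ∈ U`), and it remains to prove `mn g = 0` (`mn_add`).  Choose representatives
`u_1, ..., u_k` of `U ⧸ (J ⊓ U)` (finite).  `k * mn g = ∑ i, mn (fun x => g (x + u_i)) = mn (fun x => ∑ i, g (x + u_i))` (`mn_add_right`, `mn_sum`) and
`∑ i, g (x + u_i) = g x * ∑ i, ψ x (u_i)`.  If `g x ≠ 0` there is `u ∈ U` with `ψ x u ≠ 1`; `ψ x` is trivial on `J ⊓ U` (because `f x ≠ 0`,
`f (x + j) = f x`), so `i ↦ ψ x u_i` is a nontrivial character of the finite group `U ⧸ (J ⊓ U)` and its sum is `0` (translate by `u`). -/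
theorem mn_sub {A : Type*} [AddCommGroup A] {f : A → ℂ} (hf : IsPer f) {U : AddSubgroup A} (hU : U.FiniteIndex)
    {ψ : A → A → ℂ} (h1 : ∀ x, ∀ u ∈ U, f (x + u) = f x * ψ x u)
    (h2 : ∀ x, ∀ u ∈ U, ∀ u' ∈ U, ψ x (u + u') = ψ x u * ψ x u') (h3 : ∀ x, ∀ u ∈ U, ∀ u' ∈ U, ψ (x + u') u = ψ x u) :
    mn f = mn (open Classical in fun x => if ∀ u ∈ U, ψ x u = 1 then f x else 0) := by
  classical
  obtain ⟨J, hJf, hJ⟩ := hf
  have hP : ∀ x, ∀ y ∈ U, ((∀ u ∈ U, ψ (x + y) u = 1) ↔ ∀ u ∈ U, ψ x u = 1) := by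
    intro x y hy
    constructor
    · intro h u hu
      rw [← h3 x u hu y hy]
      exact h u hu
    · intro h u hu
      rw [h3 x u hu y hy]
      exact h u hu
  have hKf : (J ⊓ U).FiniteIndex := inferInstance
  let g : A → ℂ := fun x => if ∀ u ∈ U, ψ x u = 1 then 0 else f x
  let p : A → ℂ := fun x => if ∀ u ∈ U, ψ x u = 1 then f x else 0
  have hg : IsPer g := by
    refine ⟨J ⊓ U, hKf, fun x y hy => ?_⟩
    show (if ∀ u ∈ U, ψ (x + y) u = 1 then 0 else f (x + y)) = if ∀ u ∈ U, ψ x u = 1 then 0 else f x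
    rw [hJ x y hy.1]
    simp only [hP x y hy.2]
  have hp : IsPer p := by
    refine ⟨J ⊓ U, hKf, fun x y hy => ?_⟩
    show (if ∀ u ∈ U, ψ (x + y) u = 1 then f (x + y) else 0) = if ∀ u ∈ U, ψ x u = 1 then f x else 0
    rw [hJ x y hy.1]
    simp only [hP x y hy.2]
  have hgp : f = fun x => g x + p x := by
    funext x
    show f x = (if ∀ u ∈ U, ψ x u = 1 then 0 else f x) + if ∀ u ∈ U, ψ x u = 1 then f x else 0
    split_ifs
    · rw [zero_add]
    · rw [add_zero]
  have hfi : (J.addSubgroupOf U).FiniteIndex := inferInstance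
  let _ : Fintype (U ⧸ (J.addSubgroupOf U)) := Fintype.ofFinite _
  have hmg : mn g = 0 := by
    have e1 : ∀ x, ∑ q : U ⧸ (J.addSubgroupOf U), g (x + ((Quotient.out q : U) : A)) = 0 := by
      intro x
      by_cases hx : ∀ u ∈ U, ψ x u = 1
      · refine Finset.sum_eq_zero fun q _ => ?_
        exact if_pos ((hP x _ (Quotient.out q : U).2).2 hx)
      · have e2 : ∀ q : U ⧸ (J.addSubgroupOf U), g (x + ((Quotient.out q : U) : A)) =
            f x * ψ x ((Quotient.out q : U) : A) := by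
          intro q
          have e3 : g (x + ((Quotient.out q : U) : A)) = f (x + ((Quotient.out q : U) : A)) :=
            if_neg (fun h => hx ((hP x _ (Quotient.out q : U).2).1 h))
          rw [e3, h1 x _ (Quotient.out q : U).2]
        rw [Finset.sum_congr rfl fun q _ => e2 q, ← Finset.mul_sum]
        by_cases hfx : f x = 0
        · rw [hfx, zero_mul]
        · push Not at hx
          obtain ⟨u0, hu0, hne⟩ := hx
          rw [m4_sum hJ h1 h2 x hfx u0 hu0 hne, mul_zero]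
    have e4 : ∑ q : U ⧸ (J.addSubgroupOf U), mn (fun x => g (x + ((Quotient.out q : U) : A))) = 0 := by
      have e0 := mn_sum Finset.univ (F := fun (q : U ⧸ (J.addSubgroupOf U)) (x : A) =>
        g (x + ((Quotient.out q : U) : A))) (fun q _ => hg.comp (AddMonoidHom.id A) _)
      have e5 : (fun x => ∑ q : U ⧸ (J.addSubgroupOf U), g (x + ((Quotient.out q : U) : A))) =
          fun _ => (0 : ℂ) := funext e1
      refine Eq.trans e0.symm (Eq.trans (congrArg mn e5) ?_)
      exact mn_const 0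
    have e10 : ∑ q : U ⧸ (J.addSubgroupOf U), mn (fun x => g (x + ((Quotient.out q : U) : A))) =
        ∑ _q : U ⧸ (J.addSubgroupOf U), mn g :=
      Finset.sum_congr rfl fun q _ => mn_add_right hg ((Quotient.out q : U) : A)
    have e11 := e10.symm.trans e4
    rw [Finset.sum_const, nsmul_eq_mul] at e11
    rcases mul_eq_zero.1 e11 with e6 | e6
    · exfalso
      have e7 : (Finset.univ : Finset (U ⧸ (J.addSubgroupOf U))).card = 0 := by exact_mod_cast e6
      rw [Finset.card_eq_zero] at e7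
      exact absurd (Finset.mem_univ (0 : U ⧸ (J.addSubgroupOf U))) (by rw [e7]; exact Finset.notMem_empty _)
    · exact e6
  have e8 : mn f = mn p := by
    have e9 := mn_add hg hp
    rw [hmg, zero_add] at e9
    rw [← e9]
    exact congrArg mn hgp
  exact e8

end Pool.Agent.H2S
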