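import Pool.Agent.Lib.H2S.I12
import Pool.Agent.Lib.H2S.M4
import Pool.Agent.Lib.H2S.N3

/-!
# I13: Gauss sums, the step `π² a'`
-/

set_option autoImplicit false
namespace Pool.Agent.H2S
open Complex NumberField

variable {K L : Type*} [Field K] [NumberField K] [Field L] [NumberField L] [Algebra K L]
  {F : Fld K L} {m : Ideal (𝓞 L)}

/-- Multiplication by `r` on the ideal `b`. -/
noncomputable def i13_mul (b : Ideal (𝓞 L)) (r : 𝓞 L) : b →+ b := DistribSMul.toAddMonoidHom b r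

theorem i13_coe (b : Ideal (𝓞 L)) (r : 𝓞 L) (x : b) : ((i13_mul b r x : b) : 𝓞 L) = r * (x : 𝓞 L) := rfl

theorem i13_inj (b : Ideal (𝓞 L)) {r : 𝓞 L} (hr : r ≠ 0) : Function.Injective (i13_mul b r) := by
  intro x y h
  have h1 := congrArg (fun z : b => (z : 𝓞 L)) h
  simp only [i13_coe] at h1
  exact Subtype.ext (mul_left_cancel₀ hr h1)

theorem i13_index (b : Ideal (𝓞 L)) (hb : b ≠ ⊥) (r : 𝓞 L) :
    (i13_mul b r).range.index = Ideal.absNorm (Ideal.span {r}) := by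
  let ι : b →+ 𝓞 L := (b.subtype : b →ₗ[𝓞 L] 𝓞 L).toAddMonoidHom
  have h1 : (i13_mul b r).range = (Ideal.span {r} * b).toAddSubgroup.comap ι := by
    ext x
    constructor
    · rintro ⟨y, rfl⟩
      exact Ideal.mem_span_singleton_mul.2 ⟨(y : 𝓞 L), y.2, rfl⟩
    · intro hx
      obtain ⟨y, hy, hyx⟩ := Ideal.mem_span_singleton_mul.1 (show (x : 𝓞 L) ∈ Ideal.span {r} * b from hx)
      exact ⟨⟨y, hy⟩, Subtype.ext hyx⟩
  have h2 : ι.range = b.toAddSubgroup := by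
    ext x
    constructor
    · rintro ⟨y, rfl⟩
      exact y.2
    · intro hx
      exact ⟨⟨x, hx⟩, rfl⟩
  have h3 := AddSubgroup.index_comap (Ideal.span {r} * b).toAddSubgroup ι
  rw [← h1, h2] at h3
  have hle : (Ideal.span {r} * b).toAddSubgroup ≤ b.toAddSubgroup := fun x hx =>
    Ideal.mul_le_right (I := Ideal.span {r}) hx
  have h4 := AddSubgroup.relIndex_mul_index hle
  have h5 : b.toAddSubgroup.index = Ideal.absNorm b := rfl
  have h6 : (Ideal.span {r} * b).toAddSubgroup.index = Ideal.absNorm (Ideal.span {r} * b) := rfl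
  rw [← h3, h5, h6, map_mul] at h4
  exact Nat.eq_of_mul_eq_mul_right (Nat.pos_of_ne_zero fun h0 => hb (Ideal.absNorm_eq_zero_iff.1 h0)) h4

theorem i13_fin (b : Ideal (𝓞 L)) (hb : b ≠ ⊥) {r : 𝓞 L} (hr : r ≠ 0) : (i13_mul b r).range.FiniteIndex := by
  refine ⟨?_⟩
  rw [i13_index b hb]
  intro h0
  exact hr (Ideal.span_singleton_eq_bot.1 (Ideal.absNorm_eq_zero_iff.1 h0))

theorem i13_up (F : Fld K L) (π : 𝓞 K) : (Ideal.absNorm (Ideal.span {algebraMap (𝓞 K) (𝓞 L) π}) : ℝ) = ‖F.sK (π : K)‖ ^ 4 := by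
  have h1 : (Ideal.span {algebraMap (𝓞 K) (𝓞 L) π} : Ideal (𝓞 L)) = (Ideal.span {π}).map (algebraMap (𝓞 K) (𝓞 L)) := by
    rw [Ideal.map_span, Set.image_singleton]
  rw [h1, Ideal.absNorm_algebraMap, ← IsFractionRing.finrank_eq (𝓞 K) K (𝓞 L) L, F.deg2, Nat.cast_pow, F.absNorm]
  ring

theorem i13_ne {r : 𝓞 K} (hr : r ≠ 0) : (r : K) ≠ 0 := by
  intro h
  exact hr (RingOfIntegers.coe_injective (h.trans (map_zero _).symm))

theorem i13_am (r : 𝓞 K) : ((algebraMap (𝓞 K) (𝓞 L) r : 𝓞 L) : L) = algebraMap K L (r : K) := rfl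

theorem i13_cmul (x y : 𝓞 L) : ((x * y : 𝓞 L) : L) = (x : L) * (y : L) := map_mul (algebraMap (𝓞 L) L) x y

theorem i13_cadd (x y : 𝓞 L) : ((x + y : 𝓞 L) : L) = (x : L) + (y : L) := map_add (algebraMap (𝓞 L) L) x y

theorem i13_cmulK (x y : 𝓞 K) : ((x * y : 𝓞 K) : K) = (x : K) * (y : K) := map_mul (algebraMap (𝓞 K) K) x y

/-- The ideal `(n)` of `𝓞 L` is `b τ(b)`. -/
theorem i13_n (D : Lat F) : D.b * F.tI D.b = Ideal.span {algebraMap (𝓞 K) (𝓞 L) D.n} := by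
  rw [F.mul_tI, D.norm, Ideal.map_span, Set.image_singleton]

/-- `π` prime to the different of `L / K`: the annihilator of `b` modulo `π`.  PROOF. The left side says (`Fld.dualL` with `I = τ(b)`, `v = c x / (n π)`) that
`c x τ(y) z / (n π)` is integral for `y ∈ b`, `z ∈ 𝔇`: `c x τ(b) 𝔇 ⊆ π n 𝓞 L = π b τ(b)`, i.e. `c x 𝔇 ⊆ π b`; `c` and `𝔇` are prime to `π`, so
`x ∈ π b` (the ideals `(c) 𝔇` and `(π)` are coprime and `(x) (c) 𝔇 ≤ (π) b`; if `1 = s + π t` with `s ∈ (c) 𝔇` then `x = x s + π t x`). -/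
theorem ann_pi (D : Lat F) {π c : 𝓞 K} (hπ : π ≠ 0) (hd : IsCoprime (up L π) (differentIdeal (𝓞 K) (𝓞 L)))
    (hc : IsCoprime c π) {x : 𝓞 L} (hx : x ∈ D.b)
    (h : ∀ y ∈ D.b, eQ (algebraMap K L (D.ν * ((c : K) / (π : K))) * (x : L) * F.τ ((y : 𝓞 L) : L)) = 1) :
    ∃ x' ∈ D.b, x = algebraMap (𝓞 K) (𝓞 L) π * x' := by
  have hL := (F.dualL D.δne D.diff (F.tI D.b) (algebraMap K L ((c : K) / ((D.n : K) * (π : K))) * (x : L))).1 (by
    intro u hu
    have h1 := h (F.τO u) ((F.mem_tI _ _).1 hu)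
    rw [F.coe_τO, F.ττ] at h1
    have h2 : algebraMap K L (D.δ : K)⁻¹ * ((u : 𝓞 L) : L) * (algebraMap K L ((c : K) / ((D.n : K) * (π : K))) * (x : L)) =
        algebraMap K L (D.ν * ((c : K) / (π : K))) * (x : L) * ((u : 𝓞 L) : L) := by
      have h3 : D.ν * ((c : K) / (π : K)) = (D.δ : K)⁻¹ * ((c : K) / ((D.n : K) * (π : K))) := by
        rw [Lat.ν]
        have := i13_ne D.δne
        have := i13_ne D.nne
        have := i13_ne hπ
        field_simp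
      rw [h3, map_mul]
      ring
    rw [h2]
    exact h1)
  have hle : Ideal.span {algebraMap (𝓞 K) (𝓞 L) c * x} * (differentIdeal (𝓞 K) (𝓞 L) * F.tI D.b) ≤
      Ideal.span {algebraMap (𝓞 K) (𝓞 L) π} * Ideal.span {algebraMap (𝓞 K) (𝓞 L) D.n} := by
    rw [Ideal.span_singleton_mul_le_iff]
    intro z hz
    refine Submodule.mul_induction_on hz ?_ ?_
    · intro y hy u hu
      obtain ⟨w, hw⟩ := hL u hu y hy
      rw [Ideal.mem_span_singleton_mul]
      refine ⟨algebraMap (𝓞 K) (𝓞 L) D.n * w, Ideal.mul_mem_right _ _ (Ideal.mem_span_singleton_self _), ?_⟩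
      apply RingOfIntegers.ext
      have hne : algebraMap K L ((D.n : K) * (π : K)) ≠ 0 := by
        rw [Ne, map_eq_zero]
        exact mul_ne_zero (i13_ne D.nne) (i13_ne hπ)
      rw [i13_cmul, i13_cmul, i13_cmul, i13_cmul, i13_cmul, i13_am, i13_am, i13_am, ← hw, map_div₀, map_mul]
      rw [map_mul] at hne
      have h3 := left_ne_zero_of_mul hne
      have h4 := right_ne_zero_of_mul hne
      field_simp
    · intro y1 y2 h1 h2
      rw [mul_add]
      exact Ideal.add_mem _ h1 h2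
  have htb : F.tI D.b ≠ 0 := by
    intro h0
    apply D.bne
    rw [← F.tI_tI D.b, h0]
    exact Ideal.map_bot
  have hle2 : Ideal.span {algebraMap (𝓞 K) (𝓞 L) c * x} * differentIdeal (𝓞 K) (𝓞 L) ≤
      Ideal.span {algebraMap (𝓞 K) (𝓞 L) π} * D.b := by
    rw [← i13_n D, ← mul_assoc, ← mul_assoc, ← Ideal.dvd_iff_le, mul_dvd_mul_iff_right htb, Ideal.dvd_iff_le] at hle
    exact hle
  -- coprimality
  have hc' : IsCoprime (up L π) (Ideal.span {algebraMap (𝓞 K) (𝓞 L) c}) := by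
    rw [up, Ideal.isCoprime_span_singleton_iff]
    exact (hc.map (algebraMap (𝓞 K) (𝓞 L))).symm
  obtain ⟨t, ht, s, hs, hts⟩ := Ideal.isCoprime_iff_exists.1 (hc'.mul_right hd)
  have hx1 : x = x * t + x * s := by rw [← mul_add, hts, mul_one]
  have hmem : x ∈ Ideal.span {algebraMap (𝓞 K) (𝓞 L) π} * D.b := by
    rw [hx1]
    refine Ideal.add_mem _ ?_ ?_
    · rw [mul_comm x t]
      exact Ideal.mul_mem_mul ht hx
    · refine hle2 ?_
      have e : Ideal.span {algebraMap (𝓞 K) (𝓞 L) c * x} * differentIdeal (𝓞 K) (𝓞 L) =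
          Ideal.span {x} * (Ideal.span {algebraMap (𝓞 K) (𝓞 L) c} * differentIdeal (𝓞 K) (𝓞 L)) := by
        rw [← mul_assoc, Ideal.span_singleton_mul_span_singleton, mul_comm x]
      rw [e]
      exact Ideal.mul_mem_mul (Ideal.mem_span_singleton_self x) hs
  obtain ⟨x', hx', e⟩ := Ideal.mem_span_singleton_mul.1 hmem
  exact ⟨x', hx', e.symm⟩

/-- PROOF. `f x = eQ (c / (π² a') ν N(x))` on `b`, `U = π a' b`: `N(x + π a' y) / (π² a') = N(x) / (π² a') + Tr(x τ y) / π + a' N(y)`, so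
`f (x + π a' y) = f x * eQ (ν (c / π) x τ y)`: `mn_sub` (M4), and by `ann_pi` only the `x ∈ π b` remain.  `mn_range` (M5) for `α = ` multiplication by `π`
on `b` (the index of `π b` in `b` is `|π|⁴`: `b / π b ≅ 𝓞 L / π 𝓞 L` has `N(π)² = |π|⁴` elements, `Fld.absNorm`), and `N(π x') / (π² a') = N(x') / a'`. -/
theorem Sg_sq (D : Lat F) {π a' c : 𝓞 K} (hπ : Prime π) (ha : a' ≠ 0) (hd : IsCoprime (up L π) (differentIdeal (𝓞 K) (𝓞 L)))
    (hc : IsCoprime c (π * a')) :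
    Sg D c (π ^ 2 * a') = ((‖F.sK (π : K)‖ ^ 4 : ℝ) : ℂ)⁻¹ * Sg D c a' := by
  classical
  have hπ0 : π ≠ 0 := hπ.ne_zero
  have ha2 : π ^ 2 * a' ≠ 0 := mul_ne_zero (pow_ne_zero 2 hπ0) ha
  have hpK := i13_ne hπ0
  have haK := i13_ne ha
  have hr : algebraMap (𝓞 K) (𝓞 L) (π * a') ≠ 0 := by
    rw [Ne, map_eq_zero_iff _ (FaithfulSMul.algebraMap_injective (𝓞 K) (𝓞 L))]
    exact mul_ne_zero hπ0 ha
  have hp : algebraMap (𝓞 K) (𝓞 L) π ≠ 0 := by
    rw [Ne, map_eq_zero_iff _ (FaithfulSMul.algebraMap_injective (𝓞 K) (𝓞 L))]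
    exact hπ0
  set κ : K := (c : K) / ((π ^ 2 * a' : 𝓞 K) : K) with hκ
  have hκ2 : κ = (c : K) / ((π : K) ^ 2 * (a' : K)) := by
    rw [hκ]
    congr 1
  set ψ : D.b → D.b → ℂ := fun x u => eQ (algebraMap K L (D.ν * κ) * ((x : 𝓞 L) : L) * F.τ ((u : 𝓞 L) : L)) with hψ
  have hf := q_per D c ha2
  have hψr : ∀ x u u' : D.b, ψ x (u + u') = ψ x u * ψ x u' := by
    intro x u u'
    simp only [hψ]
    rw [← eQ_add]
    congr 1
    rw [Submodule.coe_add, i13_cadd, map_add, mul_add]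
  have hψl : ∀ x x' u : D.b, ψ (x + x') u = ψ x u * ψ x' u := by
    intro x x' u
    simp only [hψ]
    rw [← eQ_add]
    congr 1
    rw [Submodule.coe_add, i13_cadd, mul_add, add_mul]
  have hUl : ∀ u' ∈ (i13_mul D.b (algebraMap (𝓞 K) (𝓞 L) (π * a'))).range,
      ∀ u ∈ (i13_mul D.b (algebraMap (𝓞 K) (𝓞 L) (π * a'))).range, ψ u' u = 1 := by
    rintro _ ⟨y', rfl⟩ _ ⟨y, rfl⟩
    simp only [hψ]
    obtain ⟨z, hz⟩ := D.B_int y'.2 y.2
    rw [i13_coe, i13_coe, i13_cmul, i13_cmul, i13_am, map_mul F.τ, AlgEquiv.commutes, i13_cmulK]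
    have h1 : algebraMap K L (D.ν * κ) * (algebraMap K L ((π : K) * (a' : K)) * ((y' : 𝓞 L) : L)) *
        (algebraMap K L ((π : K) * (a' : K)) * F.τ ((y : 𝓞 L) : L)) =
        algebraMap K L ((c : K) * (a' : K)) * (algebraMap K L D.ν * ((y' : 𝓞 L) : L) * F.τ ((y : 𝓞 L) : L)) := by
      have h2 : D.ν * κ * ((π : K) * (a' : K)) * ((π : K) * (a' : K)) = (c : K) * (a' : K) * D.ν := by
        rw [hκ2]
        field_simp
      have h3 := congrArg (algebraMap K L) h2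
      simp only [map_mul] at h3 ⊢
      linear_combination (((y' : 𝓞 L) : L) * F.τ ((y : 𝓞 L) : L)) * h3
    rw [h1, hz]
    have h2 := F.eQ_int D.δne D.diff (algebraMap (𝓞 K) (𝓞 L) (c * a') * z)
    rw [← h2]
    congr 1
    rw [i13_cmul, i13_am, i13_cmulK]
    ring
  have h1 : ∀ x, ∀ u ∈ (i13_mul D.b (algebraMap (𝓞 K) (𝓞 L) (π * a'))).range,
      (fun x : D.b => eQ (κ * (D.ν * Algebra.norm K ((x : 𝓞 L) : L)))) (x + u) =
        (fun x : D.b => eQ (κ * (D.ν * Algebra.norm K ((x : 𝓞 L) : L)))) x * ψ x u := by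
    rintro x _ ⟨y, rfl⟩
    simp only [hψ]
    have hN : eQ (κ * (D.ν * Algebra.norm K (((i13_mul D.b (algebraMap (𝓞 K) (𝓞 L) (π * a')) y : D.b) : 𝓞 L) : L))) = 1 := by
      obtain ⟨q, hq⟩ := D.q_int y.2
      rw [i13_coe, i13_cmul, i13_am, map_mul, Algebra.norm_algebraMap, F.deg2, i13_cmulK]
      have h2 : κ * (D.ν * (((π : K) * (a' : K)) ^ 2 * Algebra.norm K ((y : 𝓞 L) : L))) =
          (c : K) * (a' : K) * (D.ν * Algebra.norm K ((y : 𝓞 L) : L)) := by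
        rw [hκ2]
        field_simp
      rw [h2, hq]
      have h3 := eQ_intK D.δne D.diff (c * a' * q)
      rw [← h3]
      congr 1
      rw [i13_cmulK, i13_cmulK]
      ring
    rw [Submodule.coe_add, i13_cadd, F.norm_add, mul_add, mul_add, mul_add, mul_add, eQ_add, eQ_add, hN, mul_one]
    congr 1
    rw [mul_assoc (algebraMap K L (D.ν * κ)), F.n4_tr]
    congr 1
    ring
  have hkey : ∀ x : D.b, (∀ u ∈ (i13_mul D.b (algebraMap (𝓞 K) (𝓞 L) (π * a'))).range, ψ x u = 1) ↔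
      x ∈ (i13_mul D.b (algebraMap (𝓞 K) (𝓞 L) π)).range := by
    intro x
    have hval : ∀ y : D.b, ψ x (i13_mul D.b (algebraMap (𝓞 K) (𝓞 L) (π * a')) y) =
        eQ (algebraMap K L (D.ν * ((c : K) / (π : K))) * ((x : 𝓞 L) : L) * F.τ ((y : 𝓞 L) : L)) := by
      intro y
      simp only [hψ]
      congr 1
      rw [i13_coe, i13_cmul, i13_am, map_mul F.τ, AlgEquiv.commutes, i13_cmulK]
      have h2 : D.ν * κ * ((π : K) * (a' : K)) = D.ν * ((c : K) / (π : K)) := by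
        rw [hκ2]
        field_simp
      rw [← h2, map_mul _ (D.ν * κ)]
      ring
    constructor
    · intro hx
      obtain ⟨x', hx', e⟩ := ann_pi D hπ0 hd (hc.of_mul_right_left) x.2 (fun y hy => by
        rw [← hval ⟨y, hy⟩]
        exact hx _ ⟨⟨y, hy⟩, rfl⟩)
      exact ⟨⟨x', hx'⟩, Subtype.ext e.symm⟩
    · rintro ⟨x', rfl⟩ _ ⟨y, rfl⟩
      rw [hval, i13_coe, i13_cmul, i13_am]
      obtain ⟨z, hz⟩ := D.B_int x'.2 y.2
      have h2 : algebraMap K L (D.ν * ((c : K) / (π : K))) * (algebraMap K L (π : K) * ((x' : 𝓞 L) : L)) *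
          F.τ ((y : 𝓞 L) : L) = algebraMap K L (c : K) * (algebraMap K L D.ν * ((x' : 𝓞 L) : L) * F.τ ((y : 𝓞 L) : L)) := by
        have h4 : D.ν * ((c : K) / (π : K)) * (π : K) = (c : K) * D.ν := by field_simp
        have h3 := congrArg (algebraMap K L) h4
        rw [map_mul, map_mul (algebraMap K L) (c : K)] at h3
        linear_combination (((x' : 𝓞 L) : L) * F.τ ((y : 𝓞 L) : L)) * h3
      rw [h2, hz]
      have h5 := F.eQ_int D.δne D.diff (algebraMap (𝓞 K) (𝓞 L) c * z)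
      rw [← h5]
      congr 1
      rw [i13_cmul, i13_am]
      ring
  have e1 := mn_sub hf (i13_fin D.b D.bne hr) (ψ := ψ) h1 (fun x u _ u' _ => hψr x u u') (fun x u hu u' hu' => by
    rw [hψl, hUl u' hu' u hu, mul_one])
  have e2 := mn_range (i13_mul D.b (algebraMap (𝓞 K) (𝓞 L) π)) (i13_inj D.b hp) (i13_fin D.b D.bne hp) hf
  have e3 : (fun x : D.b => if ∀ u ∈ (i13_mul D.b (algebraMap (𝓞 K) (𝓞 L) (π * a'))).range, ψ x u = 1 then
      eQ (κ * (D.ν * Algebra.norm K ((x : 𝓞 L) : L))) else 0) =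
      fun x : D.b => if x ∈ (i13_mul D.b (algebraMap (𝓞 K) (𝓞 L) π)).range then
      eQ (κ * (D.ν * Algebra.norm K ((x : 𝓞 L) : L))) else 0 := by
    funext x
    simp only [hkey x]
  have e4 : Sg D c (π ^ 2 * a') = ((i13_mul D.b (algebraMap (𝓞 K) (𝓞 L) π)).range.index : ℂ)⁻¹ *
      mn (fun x : D.b => eQ (κ * (D.ν * Algebra.norm K (((i13_mul D.b (algebraMap (𝓞 K) (𝓞 L) π) x : D.b) : 𝓞 L) : L)))) := by
    rw [Sg]
    refine e1.trans (Eq.trans ?_ e2)
    exact congrArg mn e3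
  rw [e4, i13_index D.b D.bne, Sg]
  have e5 : ((Ideal.absNorm (Ideal.span {algebraMap (𝓞 K) (𝓞 L) π}) : ℕ) : ℂ) = ((‖F.sK (π : K)‖ ^ 4 : ℝ) : ℂ) := by
    rw [← i13_up F π]
    push_cast
    rfl
  rw [e5]
  congr 2
  funext x
  congr 1
  rw [i13_coe, i13_cmul, i13_am, map_mul, Algebra.norm_algebraMap, F.deg2, hκ2]
  field_simp

end Pool.Agent.H2S
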