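import Pool.Agent.Lib.H2S.I12
import Pool.Agent.Lib.H2S.N3

/-!
# I14: Gauss sums modulo a prime
-/

set_option autoImplicit false
namespace Pool.Agent.H2S
open Complex NumberField

variable {K L : Type*} [Field K] [NumberField K] [Field L] [NumberField L] [Algebra K L]
  {F : Fld K L} {m : Ideal (𝓞 L)}

theorem i14_up (π : 𝓞 K) : up L π = (Ideal.span {π}).map (algebraMap (𝓞 K) (𝓞 L)) := by
  unfold up
  rw [Ideal.map_span, Set.image_singleton]

theorem i14_fin (F : Fld K L) : Module.finrank (𝓞 K) (𝓞 L) = 2 := by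
  rw [← F.deg2]
  exact (IsFractionRing.finrank_eq (𝓞 K) K (𝓞 L) L).symm

theorem i14_rel (F : Fld K L) (π : 𝓞 K) : Ideal.relNorm (𝓞 K) (up L π) = Ideal.span {π} ^ 2 := by
  rw [i14_up, Ideal.relNorm_algebraMap, i14_fin F]

theorem i14_abs (F : Fld K L) (π : 𝓞 K) : Ideal.absNorm (up L π) = Ideal.absNorm (Ideal.span {π}) ^ 2 := by
  rw [i14_up, Ideal.absNorm_algebraMap, i14_fin F]

theorem i14_up_ne {π : 𝓞 K} (hπ : π ≠ 0) : up L π ≠ ⊥ := by
  unfold up
  rw [Ne, Ideal.span_singleton_eq_bot, map_eq_zero_iff _ (FaithfulSMul.algebraMap_injective (𝓞 K) (𝓞 L))]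
  exact hπ

theorem i14_up_top (F : Fld K L) {π : 𝓞 K} (hπ : ¬ IsUnit π) : up L π ≠ ⊤ := by
  intro h
  have h1 := i14_rel F π
  rw [h, Ideal.relNorm_top] at h1
  apply hπ
  rw [← Ideal.span_singleton_eq_top]
  exact (Ideal.isUnit_iff.1 ((isUnit_pow_iff two_ne_zero).1 (by rw [← h1, ← Ideal.one_eq_top]; exact isUnit_one)))

theorem i14_split (F : Fld K L) {π : 𝓞 K} (hπ : Prime π)
    (hd : IsCoprime (up L π) (differentIdeal (𝓞 K) (𝓞 L))) (hn : ¬ (up L π).IsPrime) :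
    ∃ w : Ideal (𝓞 L), w.IsMaximal ∧ (F.tI w).IsMaximal ∧ up L π = w * F.tI w ∧ IsCoprime w (F.tI w) ∧
      Ideal.relNorm (𝓞 K) w = Ideal.span {π} := by
  obtain ⟨w, hw, hle⟩ := Ideal.exists_le_maximal (up L π) (i14_up_top F hπ.not_isUnit)
  have htw : (F.tI w).IsMaximal := Ideal.map_isMaximal_of_equiv F.τO (hp := hw)
  have hwb : w ≠ ⊥ := by
    rintro rfl
    exact i14_up_ne hπ.ne_zero (le_bot_iff.1 hle)
  have hpi : Prime (Ideal.span {π}) := Ideal.prime_span_singleton_iff.2 hπ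
  have h1 : Ideal.relNorm (𝓞 K) w ∣ Ideal.span {π} ^ 2 := by
    rw [← i14_rel F]
    exact map_dvd _ (Ideal.dvd_iff_le.2 hle)
  rw [dvd_prime_pow hpi] at h1
  obtain ⟨i, hi, h2⟩ := h1
  rw [associated_iff_eq] at h2
  have h3 := F.mul_tI w
  rw [h2, Ideal.map_pow, ← i14_up] at h3
  have hup : (Ideal.span {π} : Ideal (𝓞 K)).IsMaximal := by
    have := (Ideal.span_singleton_prime hπ.ne_zero).2 hπ
    exact this.isMaximal (by rw [Ne, Ideal.span_singleton_eq_bot]; exact hπ.ne_zero)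
  interval_cases i
  · exfalso
    rw [pow_zero, Ideal.one_eq_top] at h3
    exact hw.ne_top (top_le_iff.1 (h3 ▸ Ideal.mul_le_left))
  · rw [pow_one] at h3 h2
    refine ⟨w, hw, htw, h3.symm, ?_, h2⟩
    have hne : w ≠ F.tI w := by
      intro he
      rw [← he] at h3
      have h4 := pow_sub_one_dvd_differentIdeal (A := 𝓞 K) (B := 𝓞 L) (p := Ideal.span {π}) w 2 hpi.ne_zero (by
        rw [← i14_up, ← h3, pow_two])
      rw [show 2 - 1 = 1 from rfl, pow_one, Ideal.dvd_iff_le] at h4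
      have h5 := Ideal.isCoprime_iff_sup_eq.1 hd
      exact hw.ne_top (top_le_iff.1 (h5 ▸ sup_le hle h4))
    exact Ideal.isCoprime_of_isMaximal hne
  · exfalso
    obtain ⟨J, hJ⟩ := Ideal.dvd_iff_le.2 hle
    have h4 : F.tI w = w * J ^ 2 := by
      apply mul_left_cancel₀ (show w ≠ 0 from hwb)
      rw [h3, hJ]
      ring
    have h5 : F.tI w = w := htw.eq_of_le hw.ne_top (h4 ▸ Ideal.mul_le_left)
    rw [h5] at h4
    have h6 : J ^ 2 = 1 := by
      apply mul_left_cancel₀ (show w ≠ 0 from hwb)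
      rw [← h4, mul_one]
    have h7 : J = 1 := by
      have h8 : IsUnit J := (isUnit_pow_iff two_ne_zero).1 (by rw [h6]; exact isUnit_one)
      rw [Ideal.isUnit_iff] at h8
      rw [h8, Ideal.one_eq_top]
    rw [h7, mul_one] at hJ
    exact hn (hJ ▸ hw.isPrime)


theorem i14_max {π : 𝓞 K} (hπ : Prime π) : (Ideal.span {π} : Ideal (𝓞 K)).IsMaximal := by
  have := (Ideal.span_singleton_prime hπ.ne_zero).2 hπ
  exact this.isMaximal (by rw [Ne, Ideal.span_singleton_eq_bot]; exact hπ.ne_zero)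

theorem i14_under {π : 𝓞 K} (hπ : Prime π) {P : Ideal (𝓞 L)} (hP : P ≠ ⊤) (hle : up L π ≤ P) :
    P.comap (algebraMap (𝓞 K) (𝓞 L)) = Ideal.span {π} := by
  symm
  refine (i14_max hπ).eq_of_le ?_ ?_
  · intro h
    rw [Ideal.comap_eq_top_iff] at h
    exact hP h
  · rw [Ideal.span_singleton_le_iff_mem, Ideal.mem_comap]
    exact hle (Ideal.mem_span_singleton_self _)

theorem i14_two {π : 𝓞 K} (hπ : Prime π) : 2 ≤ Ideal.absNorm (Ideal.span {π} : Ideal (𝓞 K)) := by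
  have h1 : Ideal.absNorm (Ideal.span {π} : Ideal (𝓞 K)) ≠ 0 := by
    rw [Ne, Ideal.absNorm_eq_zero_iff, Ideal.span_singleton_eq_bot]
    exact hπ.ne_zero
  have h2 : Ideal.absNorm (Ideal.span {π} : Ideal (𝓞 K)) ≠ 1 := by
    rw [Ne, Ideal.absNorm_eq_one_iff]
    exact (i14_max hπ).ne_top
  omega

/-- A generator of the unit group of the residue field of an inert prime. -/
theorem i14_gen (F : Fld K L) {π : 𝓞 K} (hπ : Prime π) (hp : (up L π).IsPrime) :
    ∃ g : (𝓞 L ⧸ up L π)ˣ, (∀ u, u ∈ Subgroup.zpowers g) ∧ orderOf g = Ideal.absNorm (Ideal.span {π} : Ideal (𝓞 K)) ^ 2 - 1 := by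
  have hm : (up L π).IsMaximal := hp.isMaximal (i14_up_ne hπ.ne_zero)
  let _ : Field (𝓞 L ⧸ up L π) := Ideal.Quotient.field _
  have hfin : Finite (𝓞 L ⧸ up L π) := Ideal.finiteQuotientOfFreeOfNeBot _ (i14_up_ne hπ.ne_zero)
  obtain ⟨g, hg⟩ := IsCyclic.exists_generator (α := (𝓞 L ⧸ up L π)ˣ)
  refine ⟨g, hg, ?_⟩
  rw [orderOf_eq_card_of_forall_mem_zpowers hg, Nat.card_units, ← i14_abs F, Ideal.absNorm_apply, Submodule.cardQuot_apply]

theorem i14_frob (F : Fld K L) {π : 𝓞 K} (hπ : Prime π) (hp : (up L π).IsPrime) (x : 𝓞 L) :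
    F.τO x - x ^ (Ideal.absNorm (Ideal.span {π})) ∈ up L π := by
  have hgal := F.isGalois
  have hq : (up L π).under (𝓞 K) = Ideal.span {π} := i14_under hπ hp.ne_top le_rfl
  have hfin : Finite (𝓞 L ⧸ up L π) := Ideal.finiteQuotientOfFreeOfNeBot _ (i14_up_ne hπ.ne_zero)
  obtain ⟨σ, hσ⟩ := IsArithFrobAt.exists_of_isInvariant (𝓞 K) (L ≃ₐ[K] L) (up L π)
  have h1 : ∀ x : 𝓞 L, σ • x - x ^ (Ideal.absNorm (Ideal.span {π})) ∈ up L π := by
    intro x
    have h2 := hσ x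
    rw [hq] at h2
    exact h2
  rcases F.gal σ with h | h
  · exfalso
    obtain ⟨g, hg1, hg2⟩ := i14_gen F hπ hp
    obtain ⟨y, hy⟩ := Ideal.Quotient.mk_surjective (g : 𝓞 L ⧸ up L π)
    have h2 := h1 y
    have h3 : σ • y = y := by rw [h, one_smul]
    rw [h3, ← Ideal.Quotient.mk_eq_mk_iff_sub_mem, map_pow, hy] at h2
    have h4 := i14_two hπ
    obtain ⟨r, hr⟩ : ∃ r, Ideal.absNorm (Ideal.span {π} : Ideal (𝓞 K)) = r + 1 := ⟨_, (Nat.succ_pred_eq_of_pos (by omega)).symm⟩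
    have h5 : g ^ r = 1 := by
      have h6 : g ^ (r + 1) = g := by
        apply Units.ext
        rw [Units.val_pow_eq_pow_val, ← hr]
        exact h2.symm
      rw [pow_succ] at h6
      exact mul_eq_right.1 h6
    have h7 := orderOf_dvd_of_pow_eq_one h5
    rw [hg2, hr] at h7
    have h8 := Nat.le_of_dvd (by omega) h7
    have h9 : (r + 1) ^ 2 = r ^ 2 + 2 * r + 1 := by ring
    rw [h9] at h8
    omega
  · have h2 := h1 x
    rw [h] at h2
    exact h2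

theorem i14_inert (F : Fld K L) {π : 𝓞 K} (hπ : Prime π) (hp : (up L π).IsPrime) (β : 𝓞 K) (hβ : ¬ π ∣ β) :
    ∃ α : 𝓞 L, algebraMap (𝓞 K) (𝓞 L) π ∣ α * F.τO α - algebraMap (𝓞 K) (𝓞 L) β := by
  have hm : (up L π).IsMaximal := hp.isMaximal (i14_up_ne hπ.ne_zero)
  obtain ⟨q, hq⟩ : ∃ q, q = Ideal.absNorm (Ideal.span {π} : Ideal (𝓞 K)) := ⟨_, rfl⟩
  have hq2 : 2 ≤ q := by
    rw [hq]
    exact i14_two hπ
  obtain ⟨g, hg1, hg2⟩ := i14_gen F hπ hp
  rw [← hq] at hg2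
  have hb : (Ideal.Quotient.mk (up L π)) (algebraMap (𝓞 K) (𝓞 L) β) ≠ 0 := by
    rw [Ne, Ideal.Quotient.eq_zero_iff_mem, ← Ideal.mem_comap, i14_under hπ hp.ne_top le_rfl, Ideal.mem_span_singleton]
    exact hβ
  let _ : Field (𝓞 L ⧸ up L π) := Ideal.Quotient.field _
  obtain ⟨b, hbv⟩ : ∃ b : (𝓞 L ⧸ up L π)ˣ, (b : 𝓞 L ⧸ up L π) = (Ideal.Quotient.mk (up L π)) (algebraMap (𝓞 K) (𝓞 L) β) :=
    ⟨Units.mk0 _ hb, rfl⟩
  have hbq : b ^ (q - 1) = 1 := by
    have hmK := i14_max hπ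
    let _ : Field (𝓞 K ⧸ (Ideal.span {π} : Ideal (𝓞 K))) := Ideal.Quotient.field _
    have hfin : Finite (𝓞 K ⧸ (Ideal.span {π} : Ideal (𝓞 K))) := Ideal.finiteQuotientOfFreeOfNeBot _ (by
      rw [Ne, Ideal.span_singleton_eq_bot]; exact hπ.ne_zero)
    let _ : Fintype (𝓞 K ⧸ (Ideal.span {π} : Ideal (𝓞 K))) := Fintype.ofFinite _
    have hc : Fintype.card (𝓞 K ⧸ (Ideal.span {π} : Ideal (𝓞 K))) = q := by
      rw [← Nat.card_eq_fintype_card, hq, Ideal.absNorm_apply, Submodule.cardQuot_apply]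
    have h1 := FiniteField.pow_card ((Ideal.Quotient.mk (Ideal.span {π} : Ideal (𝓞 K))) β)
    rw [hc, ← map_pow, Ideal.Quotient.mk_eq_mk_iff_sub_mem, ← i14_under (L := L) hπ hp.ne_top le_rfl, Ideal.mem_comap,
      map_sub, map_pow, ← Ideal.Quotient.mk_eq_mk_iff_sub_mem, map_pow, ← hbv] at h1
    have h2 : b ^ q = b := Units.ext (by rw [Units.val_pow_eq_pow_val]; exact h1)
    obtain ⟨r, hr⟩ : ∃ r, q = r + 1 := ⟨_, (Nat.succ_pred_eq_of_pos (by omega)).symm⟩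
    rw [hr, pow_succ] at h2
    rw [hr, Nat.add_sub_cancel]
    exact mul_eq_right.1 h2
  obtain ⟨j, hj⟩ := (Subgroup.mem_zpowers_iff.1 (hg1 b))
  have h3 : ((q ^ 2 - 1 : ℕ) : ℤ) ∣ j * ((q - 1 : ℕ) : ℤ) := by
    rw [← hg2, orderOf_dvd_iff_zpow_eq_one, zpow_mul, hj, zpow_natCast]
    exact hbq
  have h4 : ((q + 1 : ℕ) : ℤ) ∣ j := by
    have h5 : ((q ^ 2 - 1 : ℕ) : ℤ) = ((q + 1 : ℕ) : ℤ) * ((q - 1 : ℕ) : ℤ) := by
      rw [Nat.cast_sub (Nat.one_le_pow _ _ (by omega)), Nat.cast_sub (by omega)]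
      push_cast
      ring
    rw [h5] at h3
    exact Int.dvd_of_mul_dvd_mul_right (by
      have : (0 : ℤ) < ((q - 1 : ℕ) : ℤ) := by exact_mod_cast (by omega : 0 < q - 1)
      exact this.ne') h3
  obtain ⟨i, hi⟩ := h4
  have h6 : b = (g ^ i) ^ (q + 1) := by
    rw [← hj, hi, mul_comm, zpow_mul, zpow_natCast]
  obtain ⟨α, hα⟩ := Ideal.Quotient.mk_surjective ((g ^ i : (𝓞 L ⧸ up L π)ˣ) : 𝓞 L ⧸ up L π)
  refine ⟨α, ?_⟩
  have h7 := i14_frob F hπ hp α
  rw [← hq] at h7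
  have h8 : α * F.τO α - algebraMap (𝓞 K) (𝓞 L) β ∈ up L π := by
    rw [← Ideal.Quotient.mk_eq_mk_iff_sub_mem, map_mul, ← hbv, h6, Units.val_pow_eq_pow_val, ← hα]
    rw [← Ideal.Quotient.mk_eq_mk_iff_sub_mem, map_pow] at h7
    rw [h7, pow_succ, mul_comm]
  exact Ideal.mem_span_singleton.1 h8

theorem i14_tau (F : Fld K L) (β : 𝓞 K) : F.τO (algebraMap (𝓞 K) (𝓞 L) β) = algebraMap (𝓞 K) (𝓞 L) β := by
  apply RingOfIntegers.ext
  rw [F.coe_τO]
  exact F.τ.commutes (β : K)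

theorem i14_splitsurj (F : Fld K L) {π : 𝓞 K} {w : Ideal (𝓞 L)} (hw : up L π = w * F.tI w) (hc : IsCoprime w (F.tI w))
    (β : 𝓞 K) : ∃ α : 𝓞 L, algebraMap (𝓞 K) (𝓞 L) π ∣ α * F.τO α - algebraMap (𝓞 K) (𝓞 L) β := by
  obtain ⟨a, ha, b, hb, hab⟩ := Ideal.isCoprime_iff_exists.1 hc
  obtain ⟨β', hβ'⟩ : ∃ β', β' = algebraMap (𝓞 K) (𝓞 L) β := ⟨_, rfl⟩
  have ht : F.τO β' = β' := by
    rw [hβ']
    exact i14_tau F β
  obtain ⟨α, hα⟩ : ∃ α, α = β' * b + a := ⟨_, rfl⟩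
  have h1 : α - β' ∈ w := by
    have e : α - β' = a * (1 - β') := by
      rw [hα]
      linear_combination β' * hab
    rw [e]
    exact Ideal.mul_mem_right _ _ ha
  have h2 : F.τO α - 1 ∈ w := by
    have e : α - 1 = b * (β' - 1) := by
      rw [hα]
      linear_combination hab
    have e2 : α - 1 ∈ F.tI w := by
      rw [e]
      exact Ideal.mul_mem_right _ _ hb
    rw [F.mem_tI, map_sub, map_one] at e2
    exact e2
  have h3 : α * F.τO α - β' ∈ w := by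
    have e : α * F.τO α - β' = α * (F.τO α - 1) + (α - β') := by ring
    rw [e]
    exact Ideal.add_mem _ (Ideal.mul_mem_left _ _ h2) h1
  have h4 : α * F.τO α - β' ∈ F.tI w := by
    rw [F.mem_tI, map_sub, map_mul, F.τO_τO, ht, mul_comm]
    exact h3
  refine ⟨α, ?_⟩
  rw [← hβ']
  have h5 : α * F.τO α - β' ∈ up L π := by
    rw [hw, Ideal.mul_eq_inf_of_isCoprime hc]
    exact ⟨h3, h4⟩
  exact Ideal.mem_span_singleton.1 h5

/-- The norm is surjective modulo an unramified prime.  PROOF. `π` inert: `𝓞 L / π` is a field with `q²` elements, `q = N(π)`, `τ` acts on it as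
`x ↦ x ^ q` (nontrivial automorphism over `𝓞 K / π`; nontrivial because otherwise `x - τ x ∈ π 𝓞 L` for all `x`, which makes `π` ramified; or: the
automorphism `τ` of the quotient has fixed field `𝓞 K / π`), and `x ^ (q + 1)` is surjective onto the units of `𝓞 K / π` (cyclic groups).  `π` split,
`π 𝓞 L = w w'`, `w' = τ w ≠ w`: choose `α` with `α - β ∈ w`, `α - 1 ∈ w'` (Chinese remainder theorem); then `τ α - 1 ∈ w`, and
`α τ α - β ∈ w`, and it is in `w'` too (`τ`), so in `π 𝓞 L`. -/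
theorem norm_surj (F : Fld K L) {π : 𝓞 K} (hπ : Prime π) (hd : IsCoprime (up L π) (differentIdeal (𝓞 K) (𝓞 L)))
    (β : 𝓞 K) (hβ : ¬ π ∣ β) : ∃ α : 𝓞 L, algebraMap (𝓞 K) (𝓞 L) π ∣ α * F.τO α - algebraMap (𝓞 K) (𝓞 L) β := by
  by_cases hp : (up L π).IsPrime
  · exact i14_inert F hπ hp β hβ
  · obtain ⟨w, -, -, h1, h2, -⟩ := i14_split F hπ hd hp
    exact i14_splitsurj F h1 h2 β

theorem i14_mulc (a b : 𝓞 L) : ((a * b : 𝓞 L) : L) = (a : L) * (b : L) := map_mul (algebraMap (𝓞 L) L) a b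

/-- The subgroup `I b` of `b`. -/
def i14_J (I b : Ideal (𝓞 L)) : AddSubgroup b :=
  AddSubgroup.comap (b.subtype.toAddMonoidHom : b →+ 𝓞 L) (I * b).toAddSubgroup

theorem i14_memJ {I b : Ideal (𝓞 L)} {x : b} : x ∈ i14_J I b ↔ (x : 𝓞 L) ∈ I * b := Iff.rfl

theorem i14_index {I b : Ideal (𝓞 L)} (hb : b ≠ ⊥) : (i14_J I b).index = Ideal.absNorm I := by
  have h1 : (b.subtype.toAddMonoidHom : b →+ 𝓞 L).range = b.toAddSubgroup := by
    ext x
    constructor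
    · rintro ⟨y, rfl⟩
      exact y.2
    · intro h
      exact ⟨⟨x, h⟩, rfl⟩
  unfold i14_J
  rw [AddSubgroup.index_comap, h1]
  have h2 : (I * b).toAddSubgroup ≤ b.toAddSubgroup := by
    intro x hx
    exact (Ideal.mul_le_right : I * b ≤ b) hx
  have h3 := AddSubgroup.relIndex_mul_index h2
  have h4 : ∀ J : Ideal (𝓞 L), J.toAddSubgroup.index = Ideal.absNorm J := by
    intro J
    rw [Ideal.absNorm_apply, Submodule.cardQuot_apply]
    rfl
  rw [h4, h4, map_mul] at h3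
  have h5 : Ideal.absNorm b ≠ 0 := by
    rw [Ne, Ideal.absNorm_eq_zero_iff]
    exact hb
  exact mul_right_cancel₀ h5 h3

theorem i14_fi {I b : Ideal (𝓞 L)} (hI : I ≠ ⊥) (hb : b ≠ ⊥) : (i14_J I b).FiniteIndex := by
  refine ⟨?_⟩
  rw [i14_index hb, Ne, Ideal.absNorm_eq_zero_iff]
  exact hI

open Classical in
/-- The indicator function of `I b`. -/
noncomputable def i14_ind (I b : Ideal (𝓞 L)) (x : b) : ℂ := if (x : 𝓞 L) ∈ I * b then 1 else 0

theorem i14_padd {I b : Ideal (𝓞 L)} (x y : b) (hy : y ∈ i14_J I b) :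
    ((x + y : b) : 𝓞 L) ∈ I * b ↔ (x : 𝓞 L) ∈ I * b := by
  show (x : 𝓞 L) + (y : 𝓞 L) ∈ I * b ↔ _
  exact Ideal.add_mem_iff_left _ hy

theorem i14_indper {I b : Ideal (𝓞 L)} (hI : I ≠ ⊥) (hb : b ≠ ⊥) : IsPer (i14_ind I b) := by
  refine ⟨i14_J I b, i14_fi hI hb, fun x y hy => ?_⟩
  by_cases h : (x : 𝓞 L) ∈ I * b
  · rw [i14_ind, i14_ind, if_pos h, if_pos ((i14_padd x y hy).2 h)]
  · rw [i14_ind, i14_ind, if_neg h, if_neg (fun h2 => h ((i14_padd x y hy).1 h2))]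

theorem i14_mn {I b : Ideal (𝓞 L)} (hI : I ≠ ⊥) (hb : b ≠ ⊥) :
    mn (i14_ind I b) = (Ideal.absNorm I : ℂ)⁻¹ := by
  classical
  have h1 := mn_indicator (i14_fi hI hb) (p := fun x : b => (x : 𝓞 L) ∈ I * b) (fun x y hy => i14_padd x y hy)
  have h2 : Nat.card {q : b ⧸ i14_J I b // ((Quotient.out q : b) : 𝓞 L) ∈ I * b} = 1 := by
    have h3 : ∀ q : b ⧸ i14_J I b, ((Quotient.out q : b) : 𝓞 L) ∈ I * b → q = 0 := by
      intro q hq
      have h4 : (QuotientAddGroup.mk (Quotient.out q : b) : b ⧸ i14_J I b) = q := Quotient.out_eq q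
      rw [← h4, QuotientAddGroup.eq_zero_iff]
      exact hq
    have h5 : ((Quotient.out (0 : b ⧸ i14_J I b) : b) : 𝓞 L) ∈ I * b := by
      have h4 : (QuotientAddGroup.mk (Quotient.out (0 : b ⧸ i14_J I b) : b) : b ⧸ i14_J I b) = 0 := Quotient.out_eq _
      rw [QuotientAddGroup.eq_zero_iff] at h4
      exact h4
    rw [Nat.card_eq_one_iff_unique]
    refine ⟨⟨fun q q' => Subtype.ext ((h3 q.1 q.2).trans (h3 q'.1 q'.2).symm)⟩, ⟨0, h5⟩⟩
  have h6 : Nat.card (b ⧸ i14_J I b) = Ideal.absNorm I := i14_index hb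
  rw [h2, h6, Nat.cast_one, mul_one] at h1
  rw [← h1]
  congr 1

theorem i14_coe (n : 𝓞 K) : ((algebraMap (𝓞 K) (𝓞 L) n : 𝓞 L) : L) = algebraMap K L (n : K) := rfl

theorem i14_upmul (a b : 𝓞 K) : up L (a * b) = up L a * up L b := by
  unfold up
  rw [map_mul, Ideal.span_singleton_mul_span_singleton]

/-- The condition for the norm in terms of ideals. -/
theorem i14_cond (D : Lat F) {π : 𝓞 K} (hπ : π ≠ 0) {x : 𝓞 L} {a : Ideal (𝓞 L)} (ha : Ideal.span {x} = D.b * a) :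
    (∃ z : 𝓞 K, Algebra.norm K (x : L) = (D.n : K) * (π : K) * (z : K)) ↔ up L π ∣ a * F.tI a := by
  have hn : up L D.n ≠ ⊥ := i14_up_ne D.nne
  have h1 : D.b * F.tI D.b = up L D.n := by
    rw [F.mul_tI, D.norm, i14_up]
  have h2 : Ideal.span {x * F.τO x} = up L D.n * (a * F.tI a) := by
    have e1 : F.tI (Ideal.span {x}) = Ideal.span {F.τO x} := by
      unfold Fld.tI
      rw [Ideal.map_span, Set.image_singleton]
    rw [← Ideal.span_singleton_mul_span_singleton, ← e1, ha, F.tI_mul, ← h1]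
    ring
  have h3 : up L π ∣ a * F.tI a ↔ algebraMap (𝓞 K) (𝓞 L) (D.n * π) ∣ x * F.τO x := by
    have e0 : algebraMap (𝓞 K) (𝓞 L) (D.n * π) ∣ x * F.τO x ↔
        Ideal.span {algebraMap (𝓞 K) (𝓞 L) (D.n * π)} ∣ Ideal.span {x * F.τO x} := by
      rw [Ideal.dvd_iff_le, Ideal.span_singleton_le_span_singleton]
    have e2 : Ideal.span {algebraMap (𝓞 K) (𝓞 L) (D.n * π)} = up L D.n * up L π := i14_upmul _ _
    rw [e0, h2, e2]
    exact (mul_dvd_mul_iff_left (show up L D.n ≠ 0 from hn)).symm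
  rw [h3]
  have hnK : (D.n : K) ≠ 0 := fun h => D.nne (RingOfIntegers.ext h)
  have hπK : (π : K) ≠ 0 := fun h => hπ (RingOfIntegers.ext h)
  constructor
  · rintro ⟨z, hz⟩
    refine ⟨algebraMap (𝓞 K) (𝓞 L) z, ?_⟩
    apply RingOfIntegers.ext
    have h4 := congrArg (algebraMap K L) hz
    rw [F.norm_eq] at h4
    have e3 : ((x * F.τO x : 𝓞 L) : L) = (x : L) * F.τ (x : L) := i14_mulc x (F.τO x)
    rw [e3, h4, i14_mulc, i14_coe, i14_coe]
    have e4 : ((D.n * π : 𝓞 K) : K) = (D.n : K) * (π : K) := map_mul (algebraMap (𝓞 K) K) _ _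
    rw [e4, map_mul, map_mul]
  · rintro ⟨y, hy⟩
    have h4 : (x : L) * F.τ (x : L) = algebraMap K L ((D.n : K) * (π : K)) * (y : L) := by
      have h5 := congrArg (fun t : 𝓞 L => (t : L)) hy
      have e3 : ((x * F.τO x : 𝓞 L) : L) = (x : L) * F.τ (x : L) := i14_mulc x (F.τO x)
      have e5 : ((algebraMap (𝓞 K) (𝓞 L) (D.n * π) * y : 𝓞 L) : L) = algebraMap K L ((D.n : K) * (π : K)) * (y : L) := by
        rw [i14_mulc, i14_coe]
        have e4 : ((D.n * π : 𝓞 K) : K) = (D.n : K) * (π : K) := map_mul (algebraMap (𝓞 K) K) _ _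
        rw [e4]
      exact e3.symm.trans (h5.trans e5)
    have hne : (D.n : K) * (π : K) ≠ 0 := mul_ne_zero hnK hπK
    rw [← F.norm_eq] at h4
    have h6 : algebraMap K L (Algebra.norm K (x : L) / ((D.n : K) * (π : K))) = (y : L) := by
      rw [map_div₀, h4, mul_div_cancel_left₀]
      exact (map_ne_zero _).2 hne
    have h7 : IsIntegral ℤ (Algebra.norm K (x : L) / ((D.n : K) * (π : K))) := by
      rw [← isIntegral_algebraMap_iff (algebraMap K L).injective, h6]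
      exact y.isIntegral_coe
    refine ⟨⟨_, h7⟩, ?_⟩
    show Algebra.norm K (x : L) = (D.n : K) * (π : K) * (Algebra.norm K (x : L) / ((D.n : K) * (π : K)))
    rw [mul_div_cancel₀ _ hne]

theorem i14_memdvd {I b a : Ideal (𝓞 L)} (hb : b ≠ ⊥) {x : 𝓞 L} (ha : Ideal.span {x} = b * a) : x ∈ I * b ↔ I ∣ a := by
  rw [← Ideal.span_singleton_le_iff_mem, ← Ideal.dvd_iff_le, ha, mul_comm I b]
  exact mul_dvd_mul_iff_left (show b ≠ 0 from hb)

theorem i14_tau_dvd (F : Fld K L) {I J : Ideal (𝓞 L)} (h : I ∣ J) : F.tI I ∣ F.tI J := by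
  obtain ⟨c, rfl⟩ := h
  rw [F.tI_mul]
  exact dvd_mul_right _ _

theorem i14_tau_up (F : Fld K L) (π : 𝓞 K) : F.tI (up L π) = up L π := by
  unfold Fld.tI up
  rw [Ideal.map_span, Set.image_singleton]
  congr 2
  exact i14_tau F π

theorem i14_q (F : Fld K L) (π : 𝓞 K) : ((Ideal.absNorm (Ideal.span {π} : Ideal (𝓞 K)) : ℕ) : ℂ) = ((‖F.sK (π : K)‖ ^ 2 : ℝ) : ℂ) := by
  rw [← F.absNorm]
  push_cast
  rfl

open Classical in
/-- The indicator of the condition. -/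
theorem i14_zeros_inert (D : Lat F) {π : 𝓞 K} (hπ : Prime π) (hp : (up L π).IsPrime) :
    (fun x : D.b => if ∃ z : 𝓞 K, Algebra.norm K ((x : 𝓞 L) : L) = (D.n : K) * (π : K) * (z : K) then (1 : ℂ) else 0) =
      i14_ind (up L π) D.b := by
  funext x
  obtain ⟨a, ha⟩ := Ideal.dvd_iff_le.2 ((Ideal.span_singleton_le_iff_mem (I := D.b)).2 x.2)
  have h1 := i14_cond D hπ.ne_zero ha
  have h2 := i14_memdvd (I := up L π) D.bne ha
  have hP : Prime (up L π) := Ideal.prime_of_isPrime (i14_up_ne hπ.ne_zero) hp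
  have h3 : up L π ∣ a * F.tI a ↔ up L π ∣ a := by
    constructor
    · intro h
      rcases hP.dvd_or_dvd h with h | h
      · exact h
      · have h4 := i14_tau_dvd F h
        rwa [F.tI_tI, i14_tau_up] at h4
    · intro h
      exact h.mul_right _
  unfold i14_ind
  exact if_congr (h1.trans (h3.trans h2.symm)) rfl rfl

open Classical in
theorem i14_zeros_split (D : Lat F) {π : 𝓞 K} (hπ : Prime π) {w : Ideal (𝓞 L)} (hwm : w.IsMaximal) (hw : up L π = w * F.tI w)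
    (hc : IsCoprime w (F.tI w)) :
    (fun x : D.b => if ∃ z : 𝓞 K, Algebra.norm K ((x : 𝓞 L) : L) = (D.n : K) * (π : K) * (z : K) then (1 : ℂ) else 0) =
      fun x => i14_ind w D.b x + (i14_ind (F.tI w) D.b x + (-1) * i14_ind (up L π) D.b x) := by
  funext x
  obtain ⟨a, ha⟩ := Ideal.dvd_iff_le.2 ((Ideal.span_singleton_le_iff_mem (I := D.b)).2 x.2)
  have h1 := i14_cond D hπ.ne_zero ha
  have h2 := i14_memdvd (I := up L π) D.bne ha
  have h2w := i14_memdvd (I := w) D.bne ha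
  have h2t := i14_memdvd (I := F.tI w) D.bne ha
  have hwb : w ≠ ⊥ := by
    rintro rfl
    rw [Ideal.bot_mul] at hw
    exact i14_up_ne hπ.ne_zero hw
  have hP : Prime w := Ideal.prime_of_isPrime hwb hwm.isPrime
  have h3 : up L π ∣ a * F.tI a ↔ (w ∣ a ∨ F.tI w ∣ a) := by
    constructor
    · intro h
      have h4 : w ∣ a * F.tI a := by
        refine dvd_trans ?_ h
        rw [hw]
        exact dvd_mul_right _ _
      rcases hP.dvd_or_dvd h4 with h | h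
      · exact Or.inl h
      · have h4 := i14_tau_dvd F h
        rw [F.tI_tI] at h4
        exact Or.inr h4
    · rintro (h | h)
      · rw [hw]
        exact mul_dvd_mul h (i14_tau_dvd F h)
      · have h4 := i14_tau_dvd F h
        rw [F.tI_tI] at h4
        rw [hw, mul_comm a]
        exact mul_dvd_mul h4 h
  have h5 : up L π ∣ a ↔ (w ∣ a ∧ F.tI w ∣ a) := by
    rw [hw]
    exact ⟨fun h => ⟨(dvd_mul_right _ _).trans h, (dvd_mul_left _ _).trans h⟩, fun h => hc.mul_dvd h.1 h.2⟩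
  unfold i14_ind
  rw [if_congr (h1.trans h3) rfl rfl, if_congr h2w rfl rfl, if_congr h2t rfl rfl, if_congr (h2.trans h5) rfl rfl]
  by_cases c1 : w ∣ a
  · by_cases c2 : F.tI w ∣ a
    · rw [if_pos (Or.inl c1), if_pos c1, if_pos c2, if_pos ⟨c1, c2⟩]
      ring
    · rw [if_pos (Or.inl c1), if_pos c1, if_neg c2, if_neg (fun h => c2 h.2)]
      ring
  · by_cases c2 : F.tI w ∣ a
    · rw [if_pos (Or.inr c2), if_neg c1, if_pos c2, if_neg (fun h => c1 h.1)]
      ring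
    · rw [if_neg (fun h => h.elim c1 c2), if_neg c1, if_neg c2, if_neg (fun h => c1 h.1)]
      ring

/-- The number of zeros of `q` on `b / π b`.  PROOF. `π` inert: `q(x) ∈ (π)` means `x τ x ∈ π n 𝓞 L = π b τ(b)`; write `(x) = b a`, then
`π ∣ a τ(a)`, so `π ∣ a` (`π` generates a prime ideal stable under `τ`) and `x ∈ π b`: one zero.  `π` split, `π 𝓞 L = w w'`: `w w' ∣ a τ(a)` iff `w ∣ a` or
`w' ∣ a`, i.e. `x ∈ w b ∪ w' b`; the subgroups `w b / π b`, `w' b / π b` have `q` elements each and intersect in `0`: `2 q - 1` zeros.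
(Here the number of cosets of `π b` in `b` on which `π ∣ q(x)`, `q(x) = n⁻¹ N(x)`, is expressed by the mean of the indicator function times `q²`.) -/
theorem zeros (D : Lat F) {π : 𝓞 K} (hπ : Prime π) (hd : IsCoprime (up L π) (differentIdeal (𝓞 K) (𝓞 L))) :
    mn (open Classical in fun x : D.b => if ∃ z : 𝓞 K, Algebra.norm K ((x : 𝓞 L) : L) = (D.n : K) * (π : K) * (z : K) then (1 : ℂ) else 0) =
      (open Classical in if (up L π).IsPrime then 1 else 2 * (‖F.sK (π : K)‖ ^ 2 : ℝ) - 1) / ((‖F.sK (π : K)‖ ^ 4 : ℝ) : ℂ) := by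
  classical
  obtain ⟨q, hq⟩ : ∃ q, q = Ideal.absNorm (Ideal.span {π} : Ideal (𝓞 K)) := ⟨_, rfl⟩
  have hqc := i14_q F π
  rw [← hq] at hqc
  have hq2 : 2 ≤ q := by
    rw [hq]
    exact i14_two hπ
  have hq0 : (q : ℂ) ≠ 0 := by exact_mod_cast (by omega : q ≠ 0)
  have h4 : ((‖F.sK (π : K)‖ ^ 4 : ℝ) : ℂ) = (q : ℂ) ^ 2 := by
    rw [hqc, ← Complex.ofReal_pow]
    congr 1
    ring
  have hup := i14_up_ne (L := L) hπ.ne_zero
  by_cases hp : (up L π).IsPrime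
  · rw [if_pos hp, h4]
    refine (congrArg mn (i14_zeros_inert D hπ hp)).trans ?_
    rw [i14_mn hup D.bne, i14_abs F, ← hq]
    push_cast
    rw [one_div]
  · have h6 : ((2 * ‖F.sK (π : K)‖ ^ 2 - 1 : ℝ) : ℂ) = 2 * (q : ℂ) - 1 := by
      rw [hqc]
      push_cast
      ring
    rw [if_neg hp, h4, h6]
    obtain ⟨w, hwm, htm, hw, hc, hr⟩ := i14_split F hπ hd hp
    have hwb : w ≠ ⊥ := by
      rintro rfl
      rw [Ideal.bot_mul] at hw
      exact hup hw
    have htb : F.tI w ≠ ⊥ := by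
      intro h
      rw [h, Ideal.mul_bot] at hw
      exact hup hw
    have hwq : Ideal.absNorm w = q := by
      rw [hq, ← hr, Ideal.absNorm_relNorm]
    have htq : Ideal.absNorm (F.tI w) = q := by
      have h5 := i14_abs F π
      rw [hw, map_mul, hwq, ← hq, pow_two] at h5
      exact Nat.eq_of_mul_eq_mul_left (by omega) h5
    refine (congrArg mn (i14_zeros_split D hπ hwm hw hc)).trans ?_
    have p1 := i14_indper hwb D.bne
    have p2 := i14_indper htb D.bne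
    have p3 := i14_indper hup D.bne
    have p4 : IsPer (fun x => (-1) * i14_ind (up L π) D.b x) := (IsPer.const (-1)).mul p3
    have e1 := mn_add p1 (p2.add p4)
    have e2 := mn_add p2 p4
    have e3 := mn_mul_const p3 (-1)
    rw [e1, e2, e3, i14_mn hwb D.bne, i14_mn htb D.bne, i14_mn hup D.bne, hwq, htq, i14_abs F, ← hq]
    push_cast
    field_simp
    ring

/-- The summand of the Gauss sum. -/
noncomputable def i14_f (D : Lat F) (π β : 𝓞 K) (x : D.b) : ℂ :=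
  eQ ((β : K) / (π : K) * (D.ν * Algebra.norm K ((x : 𝓞 L) : L)))

theorem i14_mulK (a b : 𝓞 K) : ((a * b : 𝓞 K) : K) = (a : K) * (b : K) := map_mul (algebraMap (𝓞 K) K) a b

theorem i14_addK (a b : 𝓞 K) : ((a + b : 𝓞 K) : K) = (a : K) + (b : K) := map_add (algebraMap (𝓞 K) K) a b

theorem i14_one1 (D : Lat F) (β : 𝓞 K) {x : 𝓞 L} (hx : x ∈ D.b) : eQ ((β : K) * (D.ν * Algebra.norm K (x : L))) = 1 := by
  obtain ⟨q, hq⟩ := D.q_int hx
  have h1 : (β : K) * (D.ν * Algebra.norm K (x : L)) = (D.δ : K)⁻¹ * ((β * q : 𝓞 K) : K) := by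
    rw [hq, i14_mulK]
    ring
  rw [h1]
  exact eQ_intK D.δne D.diff _

theorem i14_one2 (D : Lat F) (β : 𝓞 K) {x y : 𝓞 L} (hx : x ∈ D.b) (hy : y ∈ D.b) :
    eQ ((β : K) * (D.ν * Algebra.trace K L ((x : L) * F.τ (y : L)))) = 1 := by
  obtain ⟨z, hz⟩ := D.B_int hx hy
  have h1 : (β : K) * (D.ν * Algebra.trace K L ((x : L) * F.τ (y : L))) =
      ((β : K) * D.ν) * Algebra.trace K L ((x : L) * F.τ (y : L)) := by ring
  rw [h1, ← F.n4_tr]
  have h2 : algebraMap K L ((β : K) * D.ν) * ((x : L) * F.τ (y : L)) =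
      algebraMap K L (D.δ : K)⁻¹ * ((algebraMap (𝓞 K) (𝓞 L) β * z : 𝓞 L) : L) := by
    rw [i14_mulc, i14_coe, map_mul]
    linear_combination (algebraMap K L (β : K)) * hz
  rw [h2]
  exact F.eQ_int D.δne D.diff _

theorem i14_per (D : Lat F) {π : 𝓞 K} (hπ : π ≠ 0) (β : 𝓞 K) : Per (i14_J (up L π) D.b) (i14_f D π β) := by
  intro x y hy
  rw [i14_memJ, up, Ideal.mem_span_singleton_mul] at hy
  obtain ⟨y', hy', hyy⟩ := hy
  have hπK : (π : K) ≠ 0 := fun h => hπ (RingOfIntegers.ext h)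
  have h1 : (((x + y : D.b) : 𝓞 L) : L) = ((x : 𝓞 L) : L) + algebraMap K L (π : K) * (y' : L) := by
    have e1 : ((x + y : D.b) : 𝓞 L) = (x : 𝓞 L) + (y : 𝓞 L) := rfl
    have e2 : (((x : 𝓞 L) + (y : 𝓞 L) : 𝓞 L) : L) = ((x : 𝓞 L) : L) + ((y : 𝓞 L) : L) := map_add (algebraMap (𝓞 L) L) _ _
    rw [e1, e2, ← hyy, i14_mulc, i14_coe]
  have h2 : Algebra.norm K (((x + y : D.b) : 𝓞 L) : L) = Algebra.norm K ((x : 𝓞 L) : L) +
      (π : K) * Algebra.trace K L (((x : 𝓞 L) : L) * F.τ (y' : L)) + (π : K) ^ 2 * Algebra.norm K (y' : L) := by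
    rw [h1, F.norm_add, map_mul F.τ, map_mul (Algebra.norm K), Algebra.norm_algebraMap, F.deg2, F.τ.commutes]
    have e3 : ((x : 𝓞 L) : L) * (algebraMap K L (π : K) * F.τ (y' : L)) =
        (π : K) • (((x : 𝓞 L) : L) * F.τ (y' : L)) := by
      rw [Algebra.smul_def]
      ring
    rw [e3, map_smul, smul_eq_mul]
  unfold i14_f
  rw [h2]
  have h3 : (β : K) / (π : K) * (D.ν * (Algebra.norm K ((x : 𝓞 L) : L) +
      (π : K) * Algebra.trace K L (((x : 𝓞 L) : L) * F.τ (y' : L)) + (π : K) ^ 2 * Algebra.norm K (y' : L))) =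
      (β : K) / (π : K) * (D.ν * Algebra.norm K ((x : 𝓞 L) : L)) +
        (β : K) * (D.ν * Algebra.trace K L (((x : 𝓞 L) : L) * F.τ (y' : L))) +
        ((β * π : 𝓞 K) : K) * (D.ν * Algebra.norm K (y' : L)) := by
    rw [i14_mulK]
    field_simp
  rw [h3, eQ_add, eQ_add, i14_one1 D _ hy', i14_one2 D β x.2 hy', mul_one, mul_one]

theorem i14_fper (D : Lat F) {π : 𝓞 K} (hπ : π ≠ 0) (β : 𝓞 K) : IsPer (i14_f D π β) :=
  ⟨i14_J (up L π) D.b, i14_fi (i14_up_ne hπ) D.bne, i14_per D hπ β⟩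

theorem i14_inv {π β : 𝓞 K} (hπ : Prime π) (hβ : ¬ π ∣ β) : ∃ β' s : 𝓞 K, β * β' = 1 + π * s := by
  have hm := i14_max hπ
  have h1 : Ideal.span {π} ⊔ Ideal.span {β} = ⊤ := by
    refine hm.out.2 _ (lt_of_le_of_ne le_sup_left ?_)
    intro h
    apply hβ
    rw [← Ideal.mem_span_singleton, h]
    exact Ideal.mem_sup_right (Ideal.mem_span_singleton_self β)
  have h2 : IsCoprime π β := by
    rw [← Ideal.isCoprime_span_singleton_iff, Ideal.isCoprime_iff_sup_eq]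
    exact h1
  obtain ⟨a, b, hab⟩ := h2
  exact ⟨b, -a, by linear_combination hab⟩

/-- Multiplication by an integer, on the ideal. -/
def i14_m (α : 𝓞 L) (b : Ideal (𝓞 L)) : b →+ b where
  toFun x := ⟨α * x, b.mul_mem_left _ x.2⟩
  map_zero' := by
    apply Subtype.ext
    show α * 0 = 0
    rw [mul_zero]
  map_add' x y := by
    apply Subtype.ext
    show α * ((x : 𝓞 L) + (y : 𝓞 L)) = α * x + α * y
    rw [mul_add]

theorem i14_const (D : Lat F) {π c β : 𝓞 K} (hπ : Prime π) (hd : IsCoprime (up L π) (differentIdeal (𝓞 K) (𝓞 L)))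
    (hc : ¬ π ∣ c) (hβ : ¬ π ∣ β) : Sg D β π = Sg D c π := by
  obtain ⟨c', s1, h1⟩ := i14_inv hπ hc
  obtain ⟨β', s2, h2⟩ := i14_inv hπ hβ
  have hbc : ¬ π ∣ β * c' := by
    intro h
    rcases hπ.dvd_or_dvd h with h | h
    · exact hβ h
    · apply hπ.not_isUnit
      rw [isUnit_iff_dvd_one]
      have h3 : (1 : 𝓞 K) = c * c' - π * s1 := by rw [h1]; ring
      rw [h3]
      exact dvd_sub (h.mul_left _) (dvd_mul_right _ _)
  obtain ⟨α, t, hα⟩ := norm_surj F hπ hd (β * c') hbc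
  have hπK : (π : K) ≠ 0 := fun h => hπ.ne_zero (RingOfIntegers.ext h)
  -- the norm of `α`
  obtain ⟨N, hN⟩ : ∃ N : 𝓞 K, (N : K) = Algebra.norm K (α : L) := ⟨RingOfIntegers.norm K α, RingOfIntegers.coe_norm K α⟩
  have hNL : algebraMap (𝓞 K) (𝓞 L) N = α * F.τO α := by
    apply RingOfIntegers.ext
    rw [i14_coe, hN, F.norm_eq, i14_mulc]
    rfl
  have hdiv : π ∣ N - β * c' := by
    rw [← Ideal.mem_span_singleton, ← i14_under (L := L) hπ (P := up L π) (i14_up_top F hπ.not_isUnit) le_rfl, Ideal.mem_comap,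
      map_sub, hNL, hα]
    exact Ideal.mem_span_singleton.2 (dvd_mul_right _ _)
  obtain ⟨u, hu⟩ := hdiv
  have hcN : c * N = β + π * (c * u + β * s1) := by
    linear_combination c * hu + β * h1
  have hcomp : ∀ x : D.b, i14_f D π c (i14_m α D.b x) = i14_f D π β x := by
    intro x
    unfold i14_f
    have e1 : (((i14_m α D.b x : D.b) : 𝓞 L) : L) = (α : L) * ((x : 𝓞 L) : L) := i14_mulc _ _
    rw [e1, map_mul, ← hN]
    have e2 : (c : K) / (π : K) * (D.ν * ((N : K) * Algebra.norm K ((x : 𝓞 L) : L))) =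
        (β : K) / (π : K) * (D.ν * Algebra.norm K ((x : 𝓞 L) : L)) +
          ((c * u + β * s1 : 𝓞 K) : K) * (D.ν * Algebra.norm K ((x : 𝓞 L) : L)) := by
      have e3 := congrArg (fun t : 𝓞 K => (t : K)) hcN
      simp only [i14_mulK, i14_addK] at e3
      rw [i14_addK, i14_mulK, i14_mulK]
      field_simp
      linear_combination (D.ν * Algebra.norm K ((x : 𝓞 L) : L)) * e3
    rw [e2, eQ_add, i14_one1 D _ x.2, mul_one]
  have hs : ∀ y : D.b, ∃ x : D.b, y - i14_m α D.b x ∈ i14_J (up L π) D.b := by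
    intro y
    refine ⟨i14_m (F.τO α * algebraMap (𝓞 K) (𝓞 L) (c * β')) D.b y, ?_⟩
    rw [i14_memJ]
    show (y : 𝓞 L) - α * (F.τO α * algebraMap (𝓞 K) (𝓞 L) (c * β') * (y : 𝓞 L)) ∈ up L π * D.b
    have e1 : (y : 𝓞 L) - α * (F.τO α * algebraMap (𝓞 K) (𝓞 L) (c * β') * (y : 𝓞 L)) =
        algebraMap (𝓞 K) (𝓞 L) (1 - N * (c * β')) * (y : 𝓞 L) := by
      rw [map_sub, map_mul _ N, hNL, map_one]
      ring
    have e2 : 1 - N * (c * β') = π * (-(s2 + (c * u + β * s1) * β')) := by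
      linear_combination (-β') * hcN - h2
    rw [e1, e2, map_mul, mul_assoc]
    exact Ideal.mul_mem_mul (Ideal.mem_span_singleton_self _) (D.b.mul_mem_left _ y.2)
  have h5 := mn_comp (i14_m α D.b) (i14_fi (i14_up_ne hπ.ne_zero) D.bne) (i14_per D hπ.ne_zero c) hs
  have h6 : (fun x => i14_f D π c (i14_m α D.b x)) = i14_f D π β := funext hcomp
  rw [h6] at h5
  exact h5

/-- Orthogonality, for a function on the residue ring. -/
theorem i14_sum0 {I : Ideal (𝓞 K)} [Fintype (𝓞 K ⧸ I)] (g : 𝓞 K → ℂ) (hg : ∀ a b, g (a + b) = g a * g b)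
    (hI : ∀ a ∈ I, g a = 1) {b0 : 𝓞 K} (hb : g b0 ≠ 1) : ∑ r : 𝓞 K ⧸ I, g (Quotient.out r) = 0 := by
  have hout : ∀ r : 𝓞 K ⧸ I, Ideal.Quotient.mk I (Quotient.out r) = r := fun r => Quotient.out_eq r
  have hwd : ∀ a b : 𝓞 K, Ideal.Quotient.mk I a = Ideal.Quotient.mk I b → g a = g b := by
    intro a b h
    rw [Ideal.Quotient.mk_eq_mk_iff_sub_mem] at h
    have e : a = b + (a - b) := by ring
    rw [e, hg, hI _ h, mul_one]
  have h1 : ∑ r : 𝓞 K ⧸ I, g (Quotient.out r) = ∑ r : 𝓞 K ⧸ I, g (Quotient.out r) * g b0 := by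
    rw [← Equiv.sum_comp (Equiv.addRight (Ideal.Quotient.mk I b0))]
    refine Finset.sum_congr rfl fun r _ => ?_
    rw [← hg]
    apply hwd
    rw [hout, map_add, hout]
    rfl
  rw [← Finset.sum_mul] at h1
  have h2 : (∑ r : 𝓞 K ⧸ I, g (Quotient.out r)) * (1 - g b0) = 0 := by linear_combination h1
  rcases mul_eq_zero.1 h2 with h | h
  · exact h
  · exact absurd (sub_eq_zero.1 h).symm hb

open Classical in
theorem i14_orth (D : Lat F) {π : 𝓞 K} (hπ : Prime π) [Fintype (𝓞 K ⧸ (Ideal.span {π} : Ideal (𝓞 K)))] (x : D.b) :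
    ∑ r : 𝓞 K ⧸ (Ideal.span {π} : Ideal (𝓞 K)), i14_f D π (Quotient.out r) x =
      (Fintype.card (𝓞 K ⧸ (Ideal.span {π} : Ideal (𝓞 K))) : ℂ) *
        (if ∃ z : 𝓞 K, Algebra.norm K ((x : 𝓞 L) : L) = (D.n : K) * (π : K) * (z : K) then (1 : ℂ) else 0) := by
  have hnK : (D.n : K) ≠ 0 := fun h => D.nne (RingOfIntegers.ext h)
  have hδK : (D.δ : K) ≠ 0 := fun h => D.δne (RingOfIntegers.ext h)
  have hπK : (π : K) ≠ 0 := fun h => hπ.ne_zero (RingOfIntegers.ext h)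
  obtain ⟨q, hq⟩ := D.q_int x.2
  have hN : Algebra.norm K ((x : 𝓞 L) : L) = (D.n : K) * (q : K) := by
    unfold Lat.ν at hq
    rw [mul_inv] at hq
    have h1 : (D.n : K) * (D.δ : K) * ((D.n : K)⁻¹ * (D.δ : K)⁻¹ * Algebra.norm K ((x : 𝓞 L) : L)) =
        (D.n : K) * (D.δ : K) * ((D.δ : K)⁻¹ * (q : K)) := by rw [hq]
    have h2 : (D.n : K) * (D.δ : K) * ((D.n : K)⁻¹ * (D.δ : K)⁻¹ * Algebra.norm K ((x : 𝓞 L) : L)) =
        Algebra.norm K ((x : 𝓞 L) : L) := by field_simp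
    have h3 : (D.n : K) * (D.δ : K) * ((D.δ : K)⁻¹ * (q : K)) = (D.n : K) * (q : K) := by field_simp
    rw [h2, h3] at h1
    exact h1
  have hf : ∀ β : 𝓞 K, i14_f D π β x = eQ ((D.δ : K)⁻¹ * ((q : K) / (π : K)) * (β : K)) := by
    intro β
    unfold i14_f
    rw [hq]
    congr 1
    field_simp
  by_cases h : ∃ z : 𝓞 K, Algebra.norm K ((x : 𝓞 L) : L) = (D.n : K) * (π : K) * (z : K)
  · rw [if_pos h, mul_one]
    obtain ⟨z, hz⟩ := h
    have h1 : (q : K) = (π : K) * (z : K) := by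
      rw [hN, mul_assoc] at hz
      exact mul_left_cancel₀ hnK hz
    have h2 : ∀ β : 𝓞 K, i14_f D π β x = 1 := by
      intro β
      rw [hf, h1]
      have e : (D.δ : K)⁻¹ * ((π : K) * (z : K) / (π : K)) * (β : K) = (D.δ : K)⁻¹ * ((z * β : 𝓞 K) : K) := by
        rw [i14_mulK]
        field_simp
      rw [e]
      exact eQ_intK D.δne D.diff _
    refine (Finset.sum_congr rfl fun r _ => h2 (Quotient.out r)).trans ?_
    rw [Finset.sum_const, Finset.card_univ, nsmul_eq_mul, mul_one]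
    rfl
  · rw [if_neg h, mul_zero]
    have h1 : ∃ b0 : 𝓞 K, i14_f D π b0 x ≠ 1 := by
      by_contra h2
      push Not at h2
      have h3 : ∀ b : 𝓞 K, eQ ((D.δ : K)⁻¹ * ((q : K) / (π : K)) * (b : K)) = 1 := fun b => by
        rw [← hf]
        exact h2 b
      obtain ⟨c, hc⟩ := (dualK D.δne D.diff _).1 h3
      apply h
      refine ⟨c, ?_⟩
      rw [hN, ← hc]
      field_simp
    obtain ⟨b0, hb0⟩ := h1
    refine i14_sum0 (I := Ideal.span {π}) (fun β => i14_f D π β x) ?_ ?_ hb0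
    · intro a b
      show i14_f D π (a + b) x = i14_f D π a x * i14_f D π b x
      rw [hf, hf, hf, ← eQ_add, i14_addK, mul_add]
    · intro a ha
      obtain ⟨s, rfl⟩ := Ideal.mem_span_singleton.1 ha
      show i14_f D π (π * s) x = 1
      rw [hf]
      have e : (D.δ : K)⁻¹ * ((q : K) / (π : K)) * ((π * s : 𝓞 K) : K) = (D.δ : K)⁻¹ * ((q * s : 𝓞 K) : K) := by
        rw [i14_mulK, i14_mulK]
        field_simp
      rw [e]
      exact eQ_intK D.δne D.diff _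

/-- PROOF. Let `q = N(π) = |π|²`, `f β = Sg D β π` for `β ∈ 𝓞 K / π`.  `f β = f c` if `π` divides neither `β` nor `c`: by `norm_surj` there is `α` with
`N(α) c = β` modulo `π`, and `x ↦ α x` is surjective modulo `π b` (`α` is a unit modulo `π`): `mn_comp`.  `f 0 = 1`.
`∑ (β mod π) f β = mean of ∑ β eQ ((β / π) ν N(x)) = q * (mean of the indicator of π ∣ q(x))` (orthogonality of the characters
`β ↦ eQ (δ⁻¹ β q(x) / π)` of `𝓞 K / π`: trivial iff `π ∣ q(x)`, by `dualK`; `mn_sum`).  So `1 + (q - 1) f c = q * zeros`, and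
`q * (2 q - 1) / q² - 1 = (q - 1) / q`, `q / q² - 1 = - (q - 1) / q`. -/
theorem Sg_prime (D : Lat F) {π c : 𝓞 K} (hπ : Prime π) (hd : IsCoprime (up L π) (differentIdeal (𝓞 K) (𝓞 L)))
    (hc : ¬ π ∣ c) : Sg D c π = sg L π * ((‖F.sK (π : K)‖ ^ 2 : ℝ) : ℂ)⁻¹ := by
  classical
  have hne : (Ideal.span {π} : Ideal (𝓞 K)) ≠ ⊥ := by
    rw [Ne, Ideal.span_singleton_eq_bot]
    exact hπ.ne_zero
  have hfin : Finite (𝓞 K ⧸ (Ideal.span {π} : Ideal (𝓞 K))) := Ideal.finiteQuotientOfFreeOfNeBot _ hne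
  let _ : Fintype (𝓞 K ⧸ (Ideal.span {π} : Ideal (𝓞 K))) := Fintype.ofFinite _
  obtain ⟨q, hq⟩ : ∃ q, q = Ideal.absNorm (Ideal.span {π} : Ideal (𝓞 K)) := ⟨_, rfl⟩
  have hcard : Fintype.card (𝓞 K ⧸ (Ideal.span {π} : Ideal (𝓞 K))) = q := by
    rw [← Nat.card_eq_fintype_card, hq, Ideal.absNorm_apply, Submodule.cardQuot_apply]
  have hq2 : 2 ≤ q := by
    rw [hq]
    exact i14_two hπ
  have hqc := i14_q F π
  rw [← hq] at hqc
  have h4 : ((‖F.sK (π : K)‖ ^ 4 : ℝ) : ℂ) = (q : ℂ) ^ 2 := by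
    rw [hqc, ← Complex.ofReal_pow]
    congr 1
    ring
  have hq0 : (q : ℂ) ≠ 0 := by exact_mod_cast (by omega : q ≠ 0)
  have hq1 : (q : ℂ) - 1 ≠ 0 := by
    intro h
    have h1 : (q : ℂ) = 1 := by linear_combination h
    have h2 : q = 1 := by exact_mod_cast h1
    omega
  have hval : ∀ r : 𝓞 K ⧸ (Ideal.span {π} : Ideal (𝓞 K)), Sg D (Quotient.out r) π =
      Sg D c π + (if r = 0 then 1 - Sg D c π else 0) := by
    intro r
    have hout : Ideal.Quotient.mk (Ideal.span {π} : Ideal (𝓞 K)) (Quotient.out r) = r := Quotient.out_eq r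
    by_cases hr : r = 0
    · rw [if_pos hr, add_sub_cancel]
      rw [hr, Ideal.Quotient.eq_zero_iff_mem, Ideal.mem_span_singleton] at hout
      rw [hr]
      obtain ⟨s, hs⟩ := hout
      have h1 : (fun x : D.b => eQ (((Quotient.out (0 : 𝓞 K ⧸ (Ideal.span {π} : Ideal (𝓞 K))) : 𝓞 K) : K) / (π : K) *
          (D.ν * Algebra.norm K ((x : 𝓞 L) : L)))) = fun _ => 1 := by
        funext x
        have hπK : (π : K) ≠ 0 := fun h => hπ.ne_zero (RingOfIntegers.ext h)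
        rw [hs, i14_mulK, mul_div_cancel_left₀ _ hπK]
        exact i14_one1 D s x.2
      unfold Sg
      rw [h1]
      exact mn_const 1
    · rw [if_neg hr, add_zero]
      refine i14_const D hπ hd hc ?_
      intro h
      apply hr
      rw [← hout, Ideal.Quotient.eq_zero_iff_mem, Ideal.mem_span_singleton]
      exact h
  have hsum1 : ∑ r : 𝓞 K ⧸ (Ideal.span {π} : Ideal (𝓞 K)), Sg D (Quotient.out r) π = 1 + ((q : ℂ) - 1) * Sg D c π := by
    rw [Finset.sum_congr rfl fun r _ => hval r, Finset.sum_add_distrib, Finset.sum_const, Finset.card_univ, hcard,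
      nsmul_eq_mul, Finset.sum_ite_eq' Finset.univ 0, if_pos (Finset.mem_univ _)]
    ring
  have hsum2 : ∑ r : 𝓞 K ⧸ (Ideal.span {π} : Ideal (𝓞 K)), Sg D (Quotient.out r) π =
      (q : ℂ) * mn (fun x : D.b => if ∃ z : 𝓞 K, Algebra.norm K ((x : 𝓞 L) : L) = (D.n : K) * (π : K) * (z : K) then (1 : ℂ) else 0) := by
    have h1 := mn_sum Finset.univ (F := fun (r : 𝓞 K ⧸ (Ideal.span {π} : Ideal (𝓞 K))) (x : D.b) =>
      i14_f D π (Quotient.out r) x) (fun r _ => i14_fper D hπ.ne_zero _)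
    have h2 : (fun x : D.b => ∑ r : 𝓞 K ⧸ (Ideal.span {π} : Ideal (𝓞 K)), i14_f D π (Quotient.out r) x) =
        fun x : D.b => (q : ℂ) * (if ∃ z : 𝓞 K, Algebra.norm K ((x : 𝓞 L) : L) = (D.n : K) * (π : K) * (z : K) then (1 : ℂ) else 0) := by
      funext x
      rw [i14_orth D hπ x, hcard]
    have h3 : IsPer (fun x : D.b => if ∃ z : 𝓞 K, Algebra.norm K ((x : 𝓞 L) : L) = (D.n : K) * (π : K) * (z : K) then (1 : ℂ) else 0) := by
      obtain ⟨J, hJ, hJ2⟩ := m2_isPer_sum (Finset.univ) (F := fun (r : 𝓞 K ⧸ (Ideal.span {π} : Ideal (𝓞 K))) (x : D.b) =>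
        i14_f D π (Quotient.out r) x) (fun r _ => i14_fper D hπ.ne_zero _)
      refine ⟨J, hJ, fun x y hy => ?_⟩
      have h5 := hJ2 x y hy
      have h6 := congrFun h2 (x + y)
      have h7 := congrFun h2 x
      exact mul_left_cancel₀ hq0 (h6.symm.trans (h5.trans h7))
    have h8 := mn_mul_const h3 (q : ℂ)
    exact (h1.symm.trans ((congrArg mn h2).trans h8))
  rw [hsum1, zeros D hπ hd, h4] at hsum2
  have hi : (q : ℂ) * (q : ℂ)⁻¹ = 1 := mul_inv_cancel₀ hq0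
  have key : ((q : ℂ) - 1) * Sg D c π = ((q : ℂ) - 1) * (sg L π * (q : ℂ)⁻¹) := by
    apply mul_left_cancel₀ hq0
    by_cases hp : (up L π).IsPrime
    · rw [if_pos hp] at hsum2
      rw [sg, if_pos hp]
      have e : (q : ℂ) * (1 / (q : ℂ) ^ 2) = (q : ℂ)⁻¹ := by field_simp
      push_cast at hsum2
      rw [e] at hsum2
      field_simp at hsum2
      linear_combination hsum2 + ((q : ℂ) - 1) * hi
    · rw [if_neg hp] at hsum2
      rw [sg, if_neg hp]
      have h6 : ((2 * ‖F.sK (π : K)‖ ^ 2 - 1 : ℝ) : ℂ) = 2 * (q : ℂ) - 1 := by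
        rw [hqc]
        push_cast
        ring
      rw [h6] at hsum2
      field_simp at hsum2
      linear_combination hsum2 - ((q : ℂ) - 1) * hi
  rw [← hqc]
  exact mul_left_cancel₀ hq1 key

end Pool.Agent.H2S
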