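import Pool.Agent.Lib.H2S.I6
import Pool.Agent.Lib.H2S.N3
import Pool.Agent.Lib.H2S.I13
import Pool.Agent.Lib.H2S.I14

/-!
# I15: Gauss sums, value
-/

set_option autoImplicit false
namespace Pool.Agent.H2S
open Complex NumberField

variable {K L : Type*} [Field K] [NumberField K] [Field L] [NumberField L] [Algebra K L]
  {F : Fld K L} {m : Ideal (𝓞 L)} {p : ℕ}

theorem i15_fac {A : Type*} [CommRing A] [IsDomain A] [UniqueFactorizationMonoid A] (a r : A) (hr : r ≠ 0) :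
    ∃ k : A, (∀ q, Prime q → q ∣ k → ¬ q ∣ a) ∧ ∀ q, Prime q → q ∣ r → ¬ q ∣ a → q ∣ k := by
  induction r using UniqueFactorizationMonoid.induction_on_prime with
  | h₁ => exact absurd rfl hr
  | h₂ x hx => exact ⟨1, fun q hq h1 _ => hq.not_isUnit (isUnit_of_dvd_one h1), fun q hq h1 _ =>
      absurd (isUnit_of_dvd_unit h1 hx) hq.not_isUnit⟩
  | h₃ x q hx hq ih =>
    obtain ⟨k, h1, h2⟩ := ih hx
    by_cases hqa : q ∣ a
    · refine ⟨k, h1, fun q' hq' h3 h4 => ?_⟩
      rcases hq'.dvd_or_dvd h3 with h5 | h5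
      · exact absurd ((hq'.associated_of_dvd hq h5).dvd.trans hqa) h4
      · exact h2 q' hq' h5 h4
    · refine ⟨q * k, fun q' hq' h3 => ?_, fun q' hq' h3 h4 => ?_⟩
      · rcases hq'.dvd_or_dvd h3 with h5 | h5
        · exact fun h6 => hqa ((hq'.associated_of_dvd hq h5).symm.dvd.trans h6)
        · exact h1 q' hq' h5
      · rcases hq'.dvd_or_dvd h3 with h5 | h5
        · exact h5.mul_right k
        · exact (h2 q' hq' h5 h4).mul_left q

/-- A prime which does not divide the level is prime to the different.  PROOF. Otherwise a prime `w` of `𝓞 L` divides `π` and `𝔇`, and `relNorm w` divides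
`lev K m`; `relNorm w` is a power of `(π)` (`Ideal.exists_relNorm_eq_pow_of_isPrime`), not `⊤`, so `π` divides the level. -/
theorem GoodPrime.cop {π : 𝓞 K} (hπ : GoodPrime m p π) : IsCoprime (up L π) (differentIdeal (𝓞 K) (𝓞 L)) := by
  by_contra hcon
  rw [Ideal.isCoprime_iff_sup_eq] at hcon
  obtain ⟨w, hw, hle⟩ := Ideal.exists_le_maximal _ hcon
  have hw1 : up L π ≤ w := le_sup_left.trans hle
  have hw2 : differentIdeal (𝓞 K) (𝓞 L) ≤ w := le_sup_right.trans hle
  have hP : (Ideal.span {π} : Ideal (𝓞 K)).IsPrime := (Ideal.span_singleton_prime hπ.prime.ne_zero).2 hπ.prime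
  have hPm : (Ideal.span {π} : Ideal (𝓞 K)).IsMaximal :=
    hP.isMaximal (by rw [Ne, Ideal.span_singleton_eq_bot]; exact hπ.prime.ne_zero)
  have hover : w.LiesOver (Ideal.span {π} : Ideal (𝓞 K)) := by
    constructor
    refine hPm.eq_of_le (Ideal.IsPrime.under (𝓞 K) w).ne_top ?_
    rw [Ideal.span_singleton_le_iff_mem]
    exact hw1 (Ideal.mem_span_singleton_self _)
  obtain ⟨s, hs⟩ := Ideal.exists_relNorm_eq_pow_of_isPrime w (Ideal.span {π} : Ideal (𝓞 K))
  apply hπ.lev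
  have h1 : Ideal.relNorm (𝓞 K) w ∣ Pool.Agent.H2S.lev K m := by
    rw [Pool.Agent.H2S.lev]
    exact map_dvd _ ((Ideal.dvd_iff_le.2 hw2).mul_left m)
  have hs0 : s ≠ 0 := by
    rintro rfl
    rw [pow_zero, Ideal.one_eq_top] at hs
    have h2 : w = ⊤ := by
      have h3 := Ideal.absNorm_relNorm (𝓞 K) (𝓞 L) w
      rw [hs, Ideal.absNorm_top] at h3
      exact Ideal.absNorm_eq_one_iff.1 h3.symm
    exact hw.ne_top h2
  refine (Ideal.dvd_iff_le.1 h1).trans ?_
  rw [hs]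
  exact Ideal.pow_le_self hs0

/-- PROOF. Induction on the number of prime factors of `a` (`𝓞 K` is a principal ideal ring, a unique factorization domain): `a` a unit: `Sg_unit`, `ε_unitK`
(`Fld.norm_unit`).  `a = π a'`, `π` prime (good).  If `π ∣ a'`, `a = π² a''`: `Sg_sq`, `ε π ^ 2 = sg ^ 2 = 1`.  Otherwise `Sg_mul` (`π`, `a'` coprime),
`Sg_prime` and the induction hypothesis for `a'` and `c π`. -/
theorem Sg_val (Ψ : Psi F m p) (D : Lat F) {a c : 𝓞 K} (ha : a ≠ 0) (hc : IsCoprime c a)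
    (hg : ∀ π, Prime π → π ∣ a → GoodPrime m p π) :
    Sg D c a = Ψ.ε (algebraMap (𝓞 K) (𝓞 L) a) * ((‖F.sK (a : K)‖ ^ 2 : ℝ) : ℂ)⁻¹ ∧
      Ψ.ε (algebraMap (𝓞 K) (𝓞 L) a) ^ 2 = 1 := by
  have hpid := F.pid
  have key : ∀ a : 𝓞 K, ∀ c : 𝓞 K, a ≠ 0 → IsCoprime c a → (∀ π, Prime π → π ∣ a → GoodPrime m p π) →
      Sg D c a = Ψ.ε (algebraMap (𝓞 K) (𝓞 L) a) * ((‖F.sK (a : K)‖ ^ 2 : ℝ) : ℂ)⁻¹ ∧
      Ψ.ε (algebraMap (𝓞 K) (𝓞 L) a) ^ 2 = 1 := by
    intro a
    refine (wellFounded_dvdNotUnit (α := 𝓞 K)).induction (C := fun a => ∀ c : 𝓞 K, a ≠ 0 → IsCoprime c a →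
      (∀ π, Prime π → π ∣ a → GoodPrime m p π) →
      Sg D c a = Ψ.ε (algebraMap (𝓞 K) (𝓞 L) a) * ((‖F.sK (a : K)‖ ^ 2 : ℝ) : ℂ)⁻¹ ∧
      Ψ.ε (algebraMap (𝓞 K) (𝓞 L) a) ^ 2 = 1) a ?_
    · intro a ih c ha hc hg
      by_cases hu : IsUnit a
      · obtain ⟨u, rfl⟩ := hu
        have h1 := F.norm_unit u
        have h2 := Ψ.toChr.ε_unitK u h1
        rw [Sg_unit D c u.isUnit, h1, h2]
        norm_num
      · obtain ⟨π, hπ, a', rfl⟩ := WfDvdMonoid.exists_irreducible_factor hu ha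
        have hpr : Prime π := hπ.prime
        have hgood := hg π hpr (dvd_mul_right π a')
        have hcop := hgood.cop
        have hε := Ψ.good π hgood
        have hsg : sg L π ^ 2 = 1 := by
          rw [sg]
          split_ifs <;> norm_num
        have ha' : a' ≠ 0 := right_ne_zero_of_mul ha
        by_cases hd : π ∣ a'
        · obtain ⟨a'', rfl⟩ := hd
          have ha'' : a'' ≠ 0 := right_ne_zero_of_mul ha'
          obtain ⟨h1, h2⟩ := ih a'' ⟨ha'', π ^ 2, fun h => hpr.not_isUnit (isUnit_of_dvd_unit (dvd_pow_self π two_ne_zero) h), by ring⟩ c ha''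
            (hc.of_isCoprime_of_dvd_right ⟨π * π, by ring⟩) (fun q hq hqa => hg q hq (hqa.trans ⟨π * π, by ring⟩))
          have e : π * (π * a'') = π ^ 2 * a'' := by ring
          rw [e, Sg_sq D hpr ha'' hcop (hc.of_isCoprime_of_dvd_right ⟨π, by ring⟩), h1, map_mul, map_pow,
            pow_two (algebraMap (𝓞 K) (𝓞 L) π), Ψ.mul,
            Ψ.mul, hε, ← pow_two (sg L π), hsg, one_mul]
          refine ⟨?_, h2⟩
          have e2 : ‖F.sK ((π ^ 2 * a'' : 𝓞 K) : K)‖ ^ 2 = ‖F.sK (π : K)‖ ^ 4 * ‖F.sK (a'' : K)‖ ^ 2 := by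
            have e3 : ((π ^ 2 * a'' : 𝓞 K) : K) = (π : K) ^ 2 * (a'' : K) := rfl
            rw [e3, map_mul, map_pow, norm_mul, norm_pow]
            ring
          rw [e2]
          push_cast
          rw [mul_inv]
          ring
        · have hcop2 : IsCoprime π a' := (hπ.coprime_iff_not_dvd).2 hd
          have hcπ : ¬ π ∣ c := by
            intro h
            have h3 := hc.of_isCoprime_of_dvd_right (dvd_mul_right π a')
            exact hpr.not_isUnit (h3.isUnit_of_dvd' h dvd_rfl)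
          obtain ⟨h1, h2⟩ := ih a' ⟨ha', π, hpr.not_isUnit, mul_comm _ _⟩ (c * π) ha'
            (IsCoprime.mul_left (hc.of_isCoprime_of_dvd_right (dvd_mul_left a' π)) hcop2)
            (fun q hq hqa => hg q hq (hqa.mul_left π))
          have h3 := Sg_prime D (c := c * a') hpr hcop (fun h => (hpr.dvd_or_dvd h).elim hcπ hd)
          rw [Sg_mul D hpr.ne_zero ha' hcop2, h1, h3, map_mul, Ψ.mul, hε, mul_pow, hsg, h2]
          refine ⟨?_, one_mul 1⟩
          have e2 : ‖F.sK ((π * a' : 𝓞 K) : K)‖ ^ 2 = ‖F.sK (π : K)‖ ^ 2 * ‖F.sK (a' : K)‖ ^ 2 := by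
            have e3 : ((π * a' : 𝓞 K) : K) = (π : K) * (a' : K) := rfl
            rw [e3, map_mul, norm_mul]
            ring
          rw [e2]
          push_cast
          rw [mul_inv]
          ring
  exact key a c ha hc hg

/-- PROOF. Chinese remainder theorem: for the primes `π ∣ p` of `𝓞 K` choose `k` such that `a + k c` is not divisible by `π` (if `π ∣ a` then `π ∤ c`). -/
theorem exists_shift (F : Fld K L) {a c : 𝓞 K} (h : IsCoprime a c) (hp : p ≠ 0) :
    ∃ k : 𝓞 K, a + k * c ≠ 0 ∧ ∀ π, Prime π → π ∣ (p : 𝓞 K) → ¬ π ∣ a + k * c := by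
  have hpid := F.pid
  have hp' : (p : 𝓞 K) ≠ 0 := by
    exact_mod_cast hp
  obtain ⟨k, h1, h2⟩ := i15_fac a (p : 𝓞 K) hp'
  have key : ∀ q, Prime q → q ∣ (p : 𝓞 K) → ¬ q ∣ a + k * c := by
    intro q hq hqp h3
    by_cases hqa : q ∣ a
    · have h4 : q ∣ k * c := (dvd_add_right hqa).1 h3
      rcases hq.dvd_or_dvd h4 with h5 | h5
      · exact h1 q hq h5 hqa
      · exact hq.not_isUnit (h.isUnit_of_dvd' hqa h5)
    · exact hqa ((dvd_add_left ((h2 q hq hqp hqa).mul_right c)).1 h3)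
  by_cases hu : IsUnit (p : 𝓞 K)
  · by_cases ha : a = 0
    · refine ⟨1, ?_, fun q hq hqp => absurd (isUnit_of_dvd_unit hqp hu) hq.not_isUnit⟩
      rw [ha, zero_add, one_mul]
      rintro rfl
      rw [ha] at h
      exact not_isCoprime_zero_zero h
    · refine ⟨0, ?_, fun q hq hqp => absurd (isUnit_of_dvd_unit hqp hu) hq.not_isUnit⟩
      rw [zero_mul, add_zero]
      exact ha
  · obtain ⟨q, hq, hqp⟩ := WfDvdMonoid.exists_irreducible_factor hu hp'
    refine ⟨k, ?_, key⟩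
    intro h0
    exact key q hq.prime hqp (h0 ▸ dvd_zero q)

end Pool.Agent.H2S
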