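import Pool.Agent.Lib.H2S.I11
import Pool.Agent.Lib.H2S.I15

/-!
# I16: Theorem I
-/

set_option autoImplicit false
namespace Pool.Agent.H2S
open Complex NumberField

variable {K L : Type*} [Field K] [NumberField K] [Field L] [NumberField L] [Algebra K L]
  {F : Fld K L} {m : Ideal (𝓞 L)} {p : ℕ}

theorem i16_det (F : Fld K L) (g : Matrix (Fin 2) (Fin 2) (𝓞 K)) (hg : g.det = 1) :
    (g.map fun a => F.sK (a : K)).det = 1 := by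
  have h := (F.sK.comp (algebraMap (𝓞 K) K)).map_det g
  rw [hg, map_one] at h
  exact h.symm

theorem i16_shift (F : Fld K L) (g : Matrix (Fin 2) (Fin 2) (𝓞 K)) (hg : g.det = 1) (k : 𝓞 K) {P : ℂ × ℝ} (hP : P ∈ H3) :
    actO F.sK (!![1, k; 0, 1] * g) P = ((actO F.sK g P).1 + F.sK (k : K), (actO F.sK g P).2) := by
  unfold actO
  have e : ((!![1, k; 0, 1] * g).map fun a => F.sK (a : K)) = !![1, F.sK (k : K); 0, 1] * (g.map fun a => F.sK (a : K)) := by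
    have h := Matrix.map_mul (L := !![1, k; 0, 1]) (M := g) (f := F.sK.comp (algebraMap (𝓞 K) K))
    have h2 : (!![1, k; 0, 1] : Matrix (Fin 2) (Fin 2) (𝓞 K)).map (F.sK.comp (algebraMap (𝓞 K) K)) = !![1, F.sK (k : K); 0, 1] := by
      ext i j
      fin_cases i <;> fin_cases j <;> simp
    rw [h2] at h
    exact h
  have d1 : (!![1, F.sK (k : K); 0, 1] : Matrix (Fin 2) (Fin 2) ℂ).det ≠ 0 := by simp [Matrix.det_fin_two]
  rw [e, act_mul d1 (by rw [i16_det F g hg]; exact one_ne_zero) hP, act_n]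

theorem i16_GL (χ : Chr F m) (D : Lat F) (ρ : ℝ) (k : 𝓞 K) (P : ℂ × ℝ) :
    F.GL ρ D.ν (phb χ D.b) (P.1 + F.sK (k : K), P.2) = F.GL ρ D.ν (phb χ D.b) P := by
  rw [GL_add]
  have e : (fun x => phb χ D.b x * eQ ((k : K) * (D.ν * Algebra.norm K x))) = phb χ D.b := by
    funext x
    by_cases hx : phb χ D.b x = 0
    · rw [hx, zero_mul]
    · obtain ⟨y, hy, rfl⟩ := phb_supp χ hx
      obtain ⟨q, hq⟩ := D.q_int hy
      have e1 : ((k * q : 𝓞 K) : K) = (k : K) * (q : K) := map_mul (algebraMap (𝓞 K) K) k q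
      have e2 : (k : K) * ((D.δ : K)⁻¹ * (q : K)) = (D.δ : K)⁻¹ * ((k * q : 𝓞 K) : K) := by
        rw [e1]
        ring
      rw [hq, e2, eQ_intK D.δne D.diff, mul_one]
  rw [e]

/-- THEOREM I.  PROOF. `c = 0`: `GL_upper`.  `c ≠ 0`: `actO (n(k) g) P = actO g P + k` and `GL_add` (`q_int`): replace `g` by `n(k) g`, so that `a = g 0 0` is
not `0` and not divisible by a prime above `p` (`exists_shift`; `IsCoprime a c` from the determinant); every prime divisor of `a` is a good prime (it does not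
divide `c`, so not the level).  If `GL` is constant on `H3` the claim is trivial (`C = 0`).  Otherwise let `κ` be as in `thWL`: `GL_mult` for `g`;
`GL_one` for `e = a c` (in the level): `κ |a c|² Ga(1, a c) = 1`; `Ga_mul`, `Sg_val`: `κ |c|² Ga(a, c) ε(a) = 1`; `ε(a)² = 1`, `ε(a) ε(d) = ε(a d) = 1` as
`a d - 1 = b' c ∈ m` (`lev K m ⊆ m`): so `κ |c|² ε(d) Ga(a, c) = 1`. -/
theorem thI_proof (Ψ : Psi F m p) (η : (𝓞 L)ˣ) (h1 : 1 < ‖F.s ((η : 𝓞 L) : L)‖)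
    (h2 : ((η : 𝓞 L) : L) * F.τ ((η : 𝓞 L) : L) = 1) (D : Lat F) (hb : IsCoprime D.b m)
    (g : Matrix (Fin 2) (Fin 2) (𝓞 K)) (hg : g.det = 1) (hc : g 1 0 ∈ lev K m) :
    ∃ C : ℂ, ∀ P ∈ H3, F.GL (‖F.s ((η : 𝓞 L) : L)‖ ^ 2) D.ν (phb Ψ.toChr D.b) (actO F.sK g P) =
      F.GL (‖F.s ((η : 𝓞 L) : L)‖ ^ 2) D.ν (phb Ψ.toChr D.b) P + C := by
  classical
  have hm : m ≠ ⊥ := Ψ.mne
  have hmem : ∀ P ∈ H3, actO F.sK g P ∈ H3 := fun P hP => act_mem (by rw [i16_det F g hg]; exact one_ne_zero) hP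
  have hdet := Matrix.det_fin_two g
  rw [hg] at hdet
  by_cases h0 : g 1 0 = 0
  · refine ⟨0, fun P hP => ?_⟩
    rw [add_zero]
    refine GL_upper Ψ.toChr D _ (fun x hx => D.q_int hx) g hg h0 ?_ P
    rw [h0, mul_zero, sub_zero] at hdet
    exact F.norm_unit (Units.mkOfMulEqOne _ _ hdet.symm)
  by_cases hconst : ∀ P ∈ H3, ∀ P' ∈ H3, F.GL (‖F.s ((η : 𝓞 L) : L)‖ ^ 2) D.ν (phb Ψ.toChr D.b) P =
      F.GL (‖F.s ((η : 𝓞 L) : L)‖ ^ 2) D.ν (phb Ψ.toChr D.b) P'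
  · exact ⟨0, fun P hP => by rw [add_zero]; exact hconst _ (hmem P hP) _ hP⟩
  push Not at hconst
  obtain ⟨P1, hP1, P2, hP2, hne⟩ := hconst
  obtain ⟨κ, hκ0, hκ'⟩ := thWL (⟨η, h1, h2⟩ : Eta F) D
  have hκ : WL (⟨η, h1, h2⟩ : Eta F) D κ := ⟨hκ0, hκ'⟩
  have hcop : IsCoprime (g 0 0) (g 1 0) := ⟨g 1 1, -g 0 1, by linear_combination -hdet⟩
  obtain ⟨k, hk0, hkp⟩ := exists_shift F hcop Ψ.pprime.ne_zero
  obtain ⟨g', hg'⟩ : ∃ g' : Matrix (Fin 2) (Fin 2) (𝓞 K), g' = !![1, k; 0, 1] * g := ⟨_, rfl⟩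
  have e00 : g' 0 0 = g 0 0 + k * g 1 0 := by
    rw [hg']
    simp [Matrix.mul_apply, Fin.sum_univ_two]
  have e10 : g' 1 0 = g 1 0 := by
    rw [hg']
    simp [Matrix.mul_apply, Fin.sum_univ_two]
  have e11 : g' 1 1 = g 1 1 := by
    rw [hg']
    simp [Matrix.mul_apply, Fin.sum_univ_two]
  have hdet' : g'.det = 1 := by
    rw [hg', Matrix.det_mul, hg, mul_one, Matrix.det_fin_two_of]
    ring
  obtain ⟨a, ha⟩ : ∃ a : 𝓞 K, a = g 0 0 + k * g 1 0 := ⟨_, rfl⟩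
  obtain ⟨c, hcdef⟩ : ∃ c : 𝓞 K, c = g 1 0 := ⟨_, rfl⟩
  obtain ⟨d, hd⟩ : ∃ d : 𝓞 K, d = g 1 1 := ⟨_, rfl⟩
  have had : a * d - 1 = (g 0 1 + k * g 1 1) * c := by
    rw [ha, hd, hcdef]
    linear_combination -hdet
  obtain ⟨C, hC⟩ : ∃ C : ℂ, ∀ P ∈ H3, F.GL (‖F.s ((η : 𝓞 L) : L)‖ ^ 2) D.ν (phb Ψ.toChr D.b) (actO F.sK g' P) =
      ((κ : ℂ) * (‖F.sK (g' 1 0 : K)‖ ^ 2 : ℝ) * Ψ.toChr.ε (algebraMap (𝓞 K) (𝓞 L) (g' 1 1)) * Ga m D (g' 0 0) (g' 1 0)) *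
        F.GL (‖F.s ((η : 𝓞 L) : L)‖ ^ 2) D.ν (phb Ψ.toChr D.b) P + C :=
    GL_mult Ψ.toChr hm (⟨η, h1, h2⟩ : Eta F) D hκ g' hdet' (by rw [e10]; exact h0) (by rw [e10]; exact hc)
  rw [e00, e10, e11, ← ha, ← hcdef, ← hd] at hC
  rw [← hcdef] at h0 hc
  rw [← ha] at hk0 hkp
  have hcop' : IsCoprime a c := ⟨d, -(g 0 1 + k * g 1 1), by linear_combination had⟩
  have hac : a * c ∈ lev K m := (lev K m).mul_mem_left a hc
  have E1 : (κ : ℂ) * (‖F.sK ((a * c : 𝓞 K) : K)‖ ^ 2 : ℝ) * Ga m D 1 (a * c) = 1 :=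
    GL_one Ψ.toChr hm (⟨η, h1, h2⟩ : Eta F) D hκ hac (mul_ne_zero hk0 h0) hP1 hP2 hne
  have hgood : ∀ π, Prime π → π ∣ a → GoodPrime m p π := by
    intro π hπ hπa
    refine ⟨hπ, fun h => hkp π hπ h hπa, fun h => ?_⟩
    have h3 : π ∣ c := Ideal.mem_span_singleton.1 (h hc)
    exact hπ.not_isUnit (hcop'.isUnit_of_dvd' hπa h3)
  obtain ⟨hS, hε⟩ := Sg_val Ψ D hk0 hcop'.symm hgood
  rw [Ga_mul m D hk0 h0 hc hcop', hS] at E1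
  have hcm : algebraMap (𝓞 K) (𝓞 L) c ∈ m := by
    obtain ⟨J, hJ⟩ := F.exists_J hc
    have h3 : algebraMap (𝓞 K) (𝓞 L) c ∈ up L c := Ideal.mem_span_singleton_self _
    rw [hJ, mul_assoc, mul_assoc, mul_assoc] at h3
    exact Ideal.mul_le_left h3
  have hεad : Ψ.ε (algebraMap (𝓞 K) (𝓞 L) a) * Ψ.ε (algebraMap (𝓞 K) (𝓞 L) d) = 1 := by
    rw [← Ψ.mul, ← map_mul]
    refine (Ψ.per _ 1 ?_).trans Ψ.one
    have h3 : algebraMap (𝓞 K) (𝓞 L) (a * d) - 1 = algebraMap (𝓞 K) (𝓞 L) (g 0 1 + k * g 1 1) * algebraMap (𝓞 K) (𝓞 L) c := by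
      rw [← map_mul, ← had, map_sub, map_one]
    rw [h3]
    exact m.mul_mem_left _ hcm
  have hεd : Ψ.ε (algebraMap (𝓞 K) (𝓞 L) d) = Ψ.ε (algebraMap (𝓞 K) (𝓞 L) a) := by
    linear_combination Ψ.ε (algebraMap (𝓞 K) (𝓞 L) a) * hεad - Ψ.ε (algebraMap (𝓞 K) (𝓞 L) d) * hε
  have hn : ‖F.sK ((a * c : 𝓞 K) : K)‖ ^ 2 = ‖F.sK (a : K)‖ ^ 2 * ‖F.sK (c : K)‖ ^ 2 := by
    have e1 : ((a * c : 𝓞 K) : K) = (a : K) * (c : K) := map_mul (algebraMap (𝓞 K) K) a c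
    rw [e1, map_mul, norm_mul, mul_pow]
  have hna : ((‖F.sK (a : K)‖ ^ 2 : ℝ) : ℂ) ≠ 0 := by
    have h3 : F.sK (a : K) ≠ 0 := (map_ne_zero _).2 fun h => hk0 (RingOfIntegers.ext h)
    exact_mod_cast pow_ne_zero 2 (norm_ne_zero_iff.2 h3)
  have hcoef : (κ : ℂ) * (‖F.sK (c : K)‖ ^ 2 : ℝ) * Ψ.ε (algebraMap (𝓞 K) (𝓞 L) d) * Ga m D a c = 1 := by
    rw [hεd, ← E1, hn, Complex.ofReal_mul]
    field_simp
  refine ⟨C, fun P hP => ?_⟩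
  have h3 := hC P hP
  rw [hcoef, one_mul, hg', i16_shift F g hg k hP, i16_GL] at h3
  exact h3

end Pool.Agent.H2S
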