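import Pool.Agent.Lib.H2S.N1

/-!
# N2: traces and characters
-/

set_option autoImplicit false
namespace Pool.Agent.H2S
open Complex NumberField

variable {K L : Type*} [Field K] [NumberField K] [Field L] [NumberField L] [Algebra K L]

/-- The two embeddings of `K` are different. -/
theorem Fld.n2_ne (F : Fld K L) :
    (RingHom.toRatAlgHom F.sK : K →ₐ[ℚ] ℂ) ≠ RingHom.toRatAlgHom ((starRingEnd ℂ).comp F.sK) := by
  intro h
  obtain ⟨a, ha⟩ := F.sK_not_real
  exact ha (DFunLike.congr_fun h a).symm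

theorem Fld.n2_univ (F : Fld K L) [Fintype (K →ₐ[ℚ] ℂ)] [DecidableEq (K →ₐ[ℚ] ℂ)] :
    (Finset.univ : Finset (K →ₐ[ℚ] ℂ)) =
      {RingHom.toRatAlgHom F.sK, RingHom.toRatAlgHom ((starRingEnd ℂ).comp F.sK)} := by
  symm
  apply Finset.eq_univ_of_card
  have h : Fintype.card (K →ₐ[ℚ] ℂ) = Module.finrank ℚ K := by
    rw [Fintype.card_eq_nat_card]
    exact (Fintype.card_eq_nat_card).symm.trans (AlgHom.card ℚ K ℂ)
  rw [Finset.card_pair F.n2_ne, h, F.deg]

/-- PROOF. `K` has exactly the two embeddings `F.sK` and its conjugate (`Fld.sK_not_real`, `Module.finrank ℚ K = 2` =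
number of embeddings `Embeddings.card`); `trace_eq_sum_embeddings`. -/
theorem Fld.trK (F : Fld K L) (a : K) : ((Algebra.trace ℚ K a : ℚ) : ℂ) = F.sK a + (starRingEnd ℂ) (F.sK a) := by
  classical
  have h := trace_eq_sum_embeddings (K := ℚ) (L := K) ℂ (x := a)
  rw [F.n2_univ, Finset.sum_pair F.n2_ne] at h
  exact h

/-- PROOF. `Algebra.trace_trace`, `trK`, `trace_eq`. -/
theorem Fld.trL (F : Fld K L) (x : L) : ((Algebra.trace ℚ L x : ℚ) : ℂ) =
    F.s x + F.s (F.τ x) + (starRingEnd ℂ) (F.s x + F.s (F.τ x)) := by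
  rw [← Algebra.trace_trace (S := K), F.trK]
  have h : F.sK (Algebra.trace K L x) = F.s x + F.s (F.τ x) := by
    rw [Fld.sK, RingHom.comp_apply, F.trace_eq, map_add]
  rw [h]

/-- PROOF. Definitions, `trK`. -/
theorem Fld.eQK (F : Fld K L) (a : K) : eQ a = eT (F.sK a) := by
  rw [eQ, eT, F.trK, Complex.add_conj]
  congr 1
  push_cast
  ring

theorem Fld.eQL (F : Fld K L) (x : L) : eQ x = eQ (Algebra.trace K L x) := by
  rw [eQ, eQ, Algebra.trace_trace]

theorem eQ_add {M : Type*} [Field M] [NumberField M] (a b : M) : eQ (a + b) = eQ a * eQ b := by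
  rw [eQ, eQ, eQ, ← Complex.exp_add, map_add]
  congr 1
  push_cast
  ring

/-- PROOF. `Complex.exp_eq_one_iff`. -/
theorem eQ_eq_one {M : Type*} [Field M] [NumberField M] (a : M) :
    eQ a = 1 ↔ ∃ m : ℤ, Algebra.trace ℚ M a = (m : ℚ) := by
  rw [eQ, Complex.exp_eq_one_iff]
  refine exists_congr fun m => ?_
  have h : (2 * (Real.pi : ℂ) * Complex.I) ≠ 0 := by
    simp [Real.pi_ne_zero]
  constructor
  · intro h1
    rw [mul_comm (m : ℂ)] at h1
    have h2 := mul_left_cancel₀ h h1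
    exact_mod_cast h2
  · intro h1
    rw [h1]
    push_cast
    ring

theorem norm_eQ {M : Type*} [Field M] [NumberField M] (a : M) : ‖eQ a‖ = 1 := by
  rw [eQ]
  have : (2 * (Real.pi : ℂ) * Complex.I * ((Algebra.trace ℚ M a : ℚ) : ℂ)) =
      ((2 * Real.pi * ((Algebra.trace ℚ M a : ℚ) : ℝ) : ℝ) : ℂ) * Complex.I := by
    push_cast
    ring
  rw [this, Complex.norm_exp_ofReal_mul_I]

/-- PROOF. `pr (io ν x) (io ν y) = 2 Re (s(ν x) s(τ y) + s(τ x) s(ν y))`, and this is `Tr (ν x τ y)` by `trL` (`τ (ν x τ y) = ν τ x y`). -/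
theorem Fld.pr_io (F : Fld K L) (ν : K) (x y : L) :
    pr (F.io ν x) (F.io ν y) = ((Algebra.trace ℚ L (algebraMap K L ν * x * F.τ y) : ℚ) : ℝ) := by
  have h := F.trL (algebraMap K L ν * x * F.τ y)
  rw [Complex.add_conj] at h
  have h2 : (((Algebra.trace ℚ L (algebraMap K L ν * x * F.τ y) : ℚ) : ℝ) : ℂ) =
      ((2 * (F.s (algebraMap K L ν * x * F.τ y) + F.s (F.τ (algebraMap K L ν * x * F.τ y))).re : ℝ) : ℂ) := by
    rw [← h]
    push_cast
    rfl
  rw [Complex.ofReal_injective h2]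
  simp only [pr, Fld.io, map_mul, AlgEquiv.commutes, F.ττ]
  congr 2
  ring

/-- PROOF. `(io ν x).1 * (io ν x).2 = s (ν x τ x)`, `norm_eq`. -/
theorem Fld.io_mul (F : Fld K L) (ν : K) (x : L) :
    (F.io ν x).1 * (F.io ν x).2 = F.sK (ν * Algebra.norm K x) := by
  simp only [Fld.io, Fld.sK, RingHom.comp_apply, map_mul, F.norm_eq]
  ring

/-- PROOF. `trace_eq`: `(x + y) τ (x + y)`. -/
theorem Fld.norm_add (F : Fld K L) (x y : L) :
    Algebra.norm K (x + y) = Algebra.norm K x + Algebra.trace K L (x * F.τ y) + Algebra.norm K y := by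
  apply (algebraMap K L).injective
  simp only [map_add, F.norm_eq, F.trace_eq, map_mul, F.ττ]
  ring

end Pool.Agent.H2S
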