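import Pool.Agent.Lib.H2S.I0
import Pool.Agent.Lib.H2S.N2

/-!
# I2: the lattice in `ℂ × ℂ`
-/

set_option autoImplicit false
namespace Pool.Agent.H2S
open Complex NumberField

variable {K L : Type*} [Field K] [NumberField K] [Field L] [NumberField L] [Algebra K L] {F : Fld K L}

theorem io_add (F : Fld K L) (ν : K) (x y : L) : F.io ν (x + y) = F.io ν x + F.io ν y := by
  refine Prod.ext ?_ ?_
  · change F.s (algebraMap K L ν * (x + y)) = F.s (algebraMap K L ν * x) + F.s (algebraMap K L ν * y)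
    rw [mul_add, map_add]
  · change F.s (F.τ (x + y)) = F.s (F.τ x) + F.s (F.τ y)
    rw [map_add, map_add]

theorem io_inj (F : Fld K L) {ν : K} (hν : ν ≠ 0) : Function.Injective (F.io ν) := by
  intro x y h
  have h1 : F.s (F.τ x) = F.s (F.τ y) := congrArg Prod.snd h
  exact F.τ.injective (F.s.injective h1)

theorem Lat.νne (D : Lat F) : D.ν ≠ 0 := by
  unfold Lat.ν
  refine inv_ne_zero (mul_ne_zero ?_ ?_)
  · intro h
    exact D.nne (RingOfIntegers.coe_eq_zero_iff.1 h)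
  · intro h
    exact D.δne (RingOfIntegers.coe_eq_zero_iff.1 h)

theorem i2_lp (F : Fld K L) (ν : K) (v : Fin 4 → L) (k : Fin 4 → ℤ) :
    lp (fun j => F.io ν (v j)) k = F.io ν (∑ j, (k j : L) * v j) := by
  refine Prod.ext ?_ ?_
  · change (∑ j, (k j : ℝ) • F.io ν (v j)).1 = F.s (algebraMap K L ν * ∑ j, (k j : L) * v j)
    rw [Prod.fst_sum, Finset.mul_sum, map_sum]
    refine Finset.sum_congr rfl fun j _ => ?_
    change (k j : ℝ) • F.s (algebraMap K L ν * v j) = F.s (algebraMap K L ν * ((k j : L) * v j))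
    rw [Complex.real_smul, map_mul, map_mul, map_mul, map_intCast, Complex.ofReal_intCast]
    ring
  · change (∑ j, (k j : ℝ) • F.io ν (v j)).2 = F.s (F.τ (∑ j, (k j : L) * v j))
    rw [Prod.snd_sum, map_sum, map_sum]
    refine Finset.sum_congr rfl fun j _ => ?_
    change (k j : ℝ) • F.s (F.τ (v j)) = F.s (F.τ ((k j : L) * v j))
    rw [Complex.real_smul, map_mul, map_mul, map_intCast, map_intCast, Complex.ofReal_intCast]

theorem i2_tr {D : Lat F} (Z : ZB D) (q : Fin 4 → ℚ) (i : Fin 4) :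
    Algebra.trace ℚ L (algebraMap K L D.ν * (Z.B i : L) * F.τ (∑ j, ((q j : ℚ) : L) * Z.B' j)) = q i := by
  have e : algebraMap K L D.ν * (Z.B i : L) * F.τ (∑ j, ((q j : ℚ) : L) * Z.B' j) =
      ∑ j, q j • (algebraMap K L D.ν * (Z.B i : L) * F.τ (Z.B' j)) := by
    rw [map_sum, Finset.mul_sum]
    refine Finset.sum_congr rfl fun j _ => ?_
    rw [map_mul, map_ratCast, Algebra.smul_def, eq_ratCast]
    ring
  rw [e, map_sum]
  simp only [map_smul, Z.dual, smul_eq_mul, mul_ite, mul_one, mul_zero, Finset.sum_ite_eq, Finset.mem_univ, if_true]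

theorem i2_csum (k : Fin 4 → ℤ) (B : Fin 4 → 𝓞 L) :
    ((∑ j, (k j : 𝓞 L) * B j : 𝓞 L) : L) = ∑ j, (k j : L) * (B j : L) := by
  change algebraMap (𝓞 L) L (∑ j, (k j : 𝓞 L) * B j) = _
  rw [map_sum]
  refine Finset.sum_congr rfl fun j _ => ?_
  rw [map_mul, map_intCast]

theorem i2_mul (x y : 𝓞 L) : ((x * y : 𝓞 L) : L) = (x : L) * (y : L) := map_mul (algebraMap (𝓞 L) L) x y

theorem i2_coe {x : 𝓞 L} {k : Fin 4 → ℤ} {B : Fin 4 → 𝓞 L} (h : x = ∑ j, (k j : 𝓞 L) * B j) :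
    (x : L) = ∑ j, (k j : L) * (B j : L) := by
  rw [h, i2_csum]

theorem i2_inv (H : Eta F) : ((H.η : 𝓞 L) : L) * (((H.η⁻¹ : (𝓞 L)ˣ) : 𝓞 L) : L) = 1 := by
  rw [← map_mul, H.η.mul_inv, map_one]

theorem i2_stab {D : Lat F} (H : Eta F) (v : Fin 4 → L)
    (hinj : ∀ k k' : Fin 4 → ℤ, ∑ j, (k j : L) * v j = ∑ j, (k' j : L) * v j → k = k')
    (h1 : ∀ k : Fin 4 → ℤ, ∃ k' : Fin 4 → ℤ, ((H.η : 𝓞 L) : L) * ∑ j, (k j : L) * v j = ∑ j, (k' j : L) * v j)
    (h2 : ∀ k : Fin 4 → ℤ, ∃ k' : Fin 4 → ℤ,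
      (((H.η⁻¹ : (𝓞 L)ˣ) : 𝓞 L) : L) * ∑ j, (k j : L) * v j = ∑ j, (k' j : L) * v j) :
    ∃ e : (Fin 4 → ℤ) ≃ (Fin 4 → ℤ),
    (∀ k, ∑ j, ((e k j : ℤ) : L) * v j = ((H.η : 𝓞 L) : L) * ∑ j, (k j : L) * v j) ∧
      Stab (F.s ((H.η : 𝓞 L) : L)) (fun j => F.io D.ν (v j)) e := by
  choose f hf using h1
  choose g hg using h2
  have hη := i2_inv H
  have hη' : (((H.η⁻¹ : (𝓞 L)ˣ) : 𝓞 L) : L) * ((H.η : 𝓞 L) : L) = 1 := by rw [mul_comm]; exact hη
  have hx0 : ∀ m : Fin 4 → ℤ, m ≠ 0 → ∑ j, (m j : L) * v j ≠ 0 := fun m hm h0 => by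
    apply hm
    apply hinj m 0
    rw [h0]
    symm
    refine Finset.sum_eq_zero fun j _ => ?_
    rw [Pi.zero_apply, Int.cast_zero, zero_mul]
  have hν := D.νne
  have hνL : algebraMap K L D.ν ≠ 0 := fun h => hν ((algebraMap K L).injective (by rw [h, map_zero]))
  refine ⟨{ toFun := f, invFun := g, left_inv := fun k => hinj _ _ ?_, right_inv := fun k => hinj _ _ ?_ }, fun k => (hf k).symm, ?_, ?_, ?_⟩
  · rw [← hg, ← hf, ← mul_assoc, hη', one_mul]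
  · rw [← hf, ← hg, ← mul_assoc, hη, one_mul]
  · intro m
    change lp (fun j => F.io D.ν (v j)) (f m) = _
    rw [i2_lp, i2_lp, ← hf m]
    refine Prod.ext ?_ ?_
    · change F.s (algebraMap K L D.ν * (((H.η : 𝓞 L) : L) * ∑ j, (m j : L) * v j)) =
        F.s ((H.η : 𝓞 L) : L) * F.s (algebraMap K L D.ν * ∑ j, (m j : L) * v j)
      rw [← map_mul]
      congr 1
      ring
    · change F.s (F.τ (((H.η : 𝓞 L) : L) * ∑ j, (m j : L) * v j)) =
        (F.s ((H.η : 𝓞 L) : L))⁻¹ * F.s (F.τ (∑ j, (m j : L) * v j))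
      rw [map_mul, map_mul]
      congr 1
      refine eq_inv_of_mul_eq_one_right ?_
      rw [← map_mul, H.norm, map_one]
  · intro m hm
    rw [i2_lp]
    change F.s (algebraMap K L D.ν * ∑ j, (m j : L) * v j) ≠ 0
    intro h0
    exact mul_ne_zero hνL (hx0 m hm) (F.s.injective (by rw [h0, map_zero]))
  · intro m hm
    rw [i2_lp]
    change F.s (F.τ (∑ j, (m j : L) * v j)) ≠ 0
    intro h0
    refine hx0 m hm (F.τ.injective ?_)
    rw [map_zero]
    exact F.s.injective (by rw [h0, map_zero])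

theorem ZB.lpB {D : Lat F} (Z : ZB D) (k : Fin 4 → ℤ) :
    lp (fun j => F.io D.ν (Z.B j : L)) k = F.io D.ν (∑ j, (k j : L) * (Z.B j : L)) := by
  exact i2_lp F D.ν (fun j => (Z.B j : L)) k

theorem ZB.lpB' {D : Lat F} (Z : ZB D) (k : Fin 4 → ℤ) :
    lp (fun j => F.io D.ν (Z.B' j)) k = F.io D.ν (∑ j, (k j : L) * Z.B' j) := by
  exact i2_lp F D.ν Z.B' k

/-- PROOF. `Fld.pr_io` and `Z.dual`. -/
theorem ZB.dual' {D : Lat F} (Z : ZB D) : Dual (fun j => F.io D.ν (Z.B j : L)) (fun j => F.io D.ν (Z.B' j)) := by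
  intro i j
  rw [F.pr_io, Z.dual]
  split_ifs
  · norm_num
  · norm_num

/-- PROOF. `B` is a `ℚ`-basis of `L` (it has `4` elements, independent by `Z.dual`), so `v = ∑ q_j B'_j` with `q_j = Tr (ν B_j τ v)`. -/
theorem ZB.expand {D : Lat F} (Z : ZB D) (v : L) :
    v = ∑ j, ((Algebra.trace ℚ L (algebraMap K L D.ν * (Z.B j : L) * F.τ v) : ℚ) : L) * Z.B' j := by
  have hli : LinearIndependent ℚ Z.B' := by
    rw [Fintype.linearIndependent_iff]
    intro q hq i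
    have h1 := i2_tr Z q i
    have h2 : ∑ j, ((q j : ℚ) : L) * Z.B' j = 0 := by
      rw [← hq]
      refine Finset.sum_congr rfl fun j _ => ?_
      rw [Algebra.smul_def, eq_ratCast]
    rw [h2, map_zero, mul_zero, map_zero] at h1
    exact h1.symm
  have hfr : Fintype.card (Fin 4) = Module.finrank ℚ L := by
    rw [← Module.finrank_mul_finrank ℚ K L, F.deg, F.deg2]
    rfl
  have hv : v ∈ Submodule.span ℚ (Set.range Z.B') := by
    rw [hli.span_eq_top_of_card_eq_finrank' hfr]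
    trivial
  obtain ⟨q, hq⟩ := (Submodule.mem_span_range_iff_exists_fun ℚ).1 hv
  have h2 : v = ∑ j, ((q j : ℚ) : L) * Z.B' j := by
    rw [← hq]
    refine Finset.sum_congr rfl fun j _ => ?_
    rw [Algebra.smul_def, eq_ratCast]
  have h3 : ∀ j, Algebra.trace ℚ L (algebraMap K L D.ν * (Z.B j : L) * F.τ v) = q j := fun j => by
    rw [h2]
    exact i2_tr Z q j
  simp only [h3]
  exact h2

/-- The lattice dual to `M b`.  PROOF. `Z.expand`, `Z.rep`, `eQ_eq_one`: the condition for `x = B_j` says that `M Tr (ν B_j τ v)` is an integer. -/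
theorem ZB.mem_dual {D : Lat F} (Z : ZB D) {M : ℕ} (hM : 0 < M) (v : L) :
    (∀ x ∈ D.b, eQ (algebraMap K L D.ν * ((M : L) * (x : L)) * F.τ v) = 1) ↔
      ∃ k : Fin 4 → ℤ, v = ∑ j, ((k j : L) / (M : L)) * Z.B' j := by
  have hMq : (M : ℚ) ≠ 0 := by exact_mod_cast hM.ne'
  constructor
  · intro h
    have h1 : ∀ j, ∃ m : ℤ, Algebra.trace ℚ L (algebraMap K L D.ν * (Z.B j : L) * F.τ v) = (m : ℚ) / (M : ℚ) := fun j => by
      obtain ⟨m, hm⟩ := (eQ_eq_one _).1 (h (Z.B j) (Z.mem j))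
      refine ⟨m, ?_⟩
      rw [eq_div_iff hMq, ← hm]
      have e : algebraMap K L D.ν * ((M : L) * (Z.B j : L)) * F.τ v = (M : ℚ) • (algebraMap K L D.ν * (Z.B j : L) * F.τ v) := by
        rw [Algebra.smul_def, map_natCast]
        ring
      rw [e, map_smul, smul_eq_mul, mul_comm]
    choose m hm using h1
    refine ⟨m, ?_⟩
    conv_lhs => rw [Z.expand v]
    refine Finset.sum_congr rfl fun j _ => ?_
    rw [hm]
    push_cast
    rfl
  · rintro ⟨k, hk⟩ x hx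
    obtain ⟨l, hl⟩ := Z.rep x hx
    rw [eQ_eq_one]
    refine ⟨∑ j, l j * k j, ?_⟩
    have h1 : ∀ j, Algebra.trace ℚ L (algebraMap K L D.ν * (Z.B j : L) * F.τ v) = (k j : ℚ) / (M : ℚ) := fun j => by
      have h2 := i2_tr Z (fun j => (k j : ℚ) / (M : ℚ)) j
      have h3 : ∑ j, (((k j : ℚ) / (M : ℚ) : ℚ) : L) * Z.B' j = v := by
        rw [hk]
        refine Finset.sum_congr rfl fun j _ => ?_
        push_cast
        rfl
      rw [h3] at h2
      exact h2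
    have h4 : algebraMap K L D.ν * ((M : L) * (x : L)) * F.τ v =
        ∑ j, ((l j : ℚ) * (M : ℚ)) • (algebraMap K L D.ν * (Z.B j : L) * F.τ v) := by
      rw [i2_coe hl, Finset.mul_sum, Finset.mul_sum, Finset.sum_mul]
      refine Finset.sum_congr rfl fun j _ => ?_
      rw [Algebra.smul_def, map_mul, map_intCast, map_natCast]
      ring
    rw [h4, map_sum]
    push_cast
    refine Finset.sum_congr rfl fun j _ => ?_
    rw [map_smul, h1, smul_eq_mul]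
    field_simp

/-- `b` is stable under the unit `η`.  PROOF. `e` from `Z.rep`, `Z.inj` applied to `η x` and `η⁻¹ x`; `F.s (F.τ η) = (F.s η)⁻¹` by `H.norm`.
Nonzero lattice points have nonzero coordinates because `F.s` is injective. -/
theorem ZB.stab {D : Lat F} (Z : ZB D) (H : Eta F) : ∃ e : (Fin 4 → ℤ) ≃ (Fin 4 → ℤ),
    (∀ k, ∑ j, ((e k j : ℤ) : L) * (Z.B j : L) = ((H.η : 𝓞 L) : L) * ∑ j, (k j : L) * (Z.B j : L)) ∧
      Stab (F.s ((H.η : 𝓞 L) : L)) (fun j => F.io D.ν (Z.B j : L)) e := by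
  refine i2_stab (D := D) H (fun j => (Z.B j : L)) (fun k k' h => ?_) (fun k => ?_) (fun k => ?_)
  · refine Z.inj k k' ?_
    apply RingOfIntegers.ext
    rw [i2_csum, i2_csum]
    exact h
  · have hmem : ∑ j, (k j : 𝓞 L) * Z.B j ∈ D.b := D.b.sum_mem fun j _ => D.b.mul_mem_left _ (Z.mem j)
    obtain ⟨k', hk'⟩ := Z.rep _ (D.b.mul_mem_left (H.η : 𝓞 L) hmem)
    refine ⟨k', ?_⟩
    have h1 := i2_coe hk'
    rw [i2_mul, i2_csum] at h1
    exact h1
  · have hmem : ∑ j, (k j : 𝓞 L) * Z.B j ∈ D.b := D.b.sum_mem fun j _ => D.b.mul_mem_left _ (Z.mem j)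
    obtain ⟨k', hk'⟩ := Z.rep _ (D.b.mul_mem_left ((H.η⁻¹ : (𝓞 L)ˣ) : 𝓞 L) hmem)
    refine ⟨k', ?_⟩
    have h1 := i2_coe hk'
    rw [i2_mul, i2_csum] at h1
    exact h1

/-- The dual lattice is stable under the unit `η`.  PROOF. As `ZB.stab`, with `ZB.mem_dual` for `M = 1`:
`Tr (ν x τ (η v)) = Tr (ν (τ η) x τ v)` and `(τ η) x = η⁻¹ x ∈ b`. -/
theorem ZB.stab' {D : Lat F} (Z : ZB D) (H : Eta F) : ∃ e : (Fin 4 → ℤ) ≃ (Fin 4 → ℤ),
    Stab (F.s ((H.η : 𝓞 L) : L)) (fun j => F.io D.ν (Z.B' j)) e := by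
  have hτ : F.τ ((H.η : 𝓞 L) : L) = (((H.η⁻¹ : (𝓞 L)ˣ) : 𝓞 L) : L) := by
    have h1 := i2_inv H
    have h2 : ((H.η : 𝓞 L) : L) ≠ 0 := left_ne_zero_of_mul_eq_one h1
    exact mul_left_cancel₀ h2 (H.norm.trans h1.symm)
  have hτ' : F.τ (((H.η⁻¹ : (𝓞 L)ˣ) : 𝓞 L) : L) = ((H.η : 𝓞 L) : L) := by
    rw [← hτ, F.ττ]
  have hone : ∀ k : Fin 4 → ℤ, ∑ j, (k j : L) * Z.B' j = ∑ j, ((k j : L) / ((1 : ℕ) : L)) * Z.B' j := fun k => by
    simp only [Nat.cast_one, div_one]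
  have key : ∀ (c c' : 𝓞 L) (_ : F.τ (c : L) = (c' : L)) (k : Fin 4 → ℤ), ∃ k' : Fin 4 → ℤ,
      (c : L) * ∑ j, (k j : L) * Z.B' j = ∑ j, (k' j : L) * Z.B' j := fun c c' hc k => by
    obtain ⟨k', hk'⟩ := (Z.mem_dual one_pos ((c : L) * ∑ j, (k j : L) * Z.B' j)).1 fun x hx => by
      have h1 := (Z.mem_dual one_pos (∑ j, (k j : L) * Z.B' j)).2 ⟨k, hone k⟩ (c' * x) (D.b.mul_mem_left _ hx)
      have e : algebraMap K L D.ν * (((1 : ℕ) : L) * (x : L)) * F.τ ((c : L) * ∑ j, (k j : L) * Z.B' j) =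
          algebraMap K L D.ν * (((1 : ℕ) : L) * ((c' * x : 𝓞 L) : L)) * F.τ (∑ j, (k j : L) * Z.B' j) := by
        rw [map_mul F.τ, hc, i2_mul]
        ring
      rw [e]
      exact h1
    exact ⟨k', by rw [hk', ← hone]⟩
  obtain ⟨e, -, he⟩ := i2_stab (D := D) H Z.B' (fun k k' h => by
    funext i
    have h1 := i2_tr Z (fun j => (k j : ℚ)) i
    have h2 := i2_tr Z (fun j => (k' j : ℚ)) i
    simp only [Rat.cast_intCast] at h1 h2
    rw [h, h2] at h1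
    exact_mod_cast h1.symm) (key _ _ hτ) (key _ _ hτ')
  exact ⟨e, he⟩

end Pool.Agent.H2S
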