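import Pool.Agent.Lib.H2S.I5
import Pool.Agent.Lib.H2S.I6
import Pool.Agent.Lib.H2S.M2
import Pool.Agent.Lib.H2S.M4

/-!
# I7: the Fourier transform of `phc`
-/

set_option autoImplicit false
namespace Pool.Agent.H2S
open Complex NumberField

variable {K L : Type*} [Field K] [NumberField K] [Field L] [NumberField L] [Algebra K L]
  {F : Fld K L} {m : Ideal (𝓞 L)}

/-- The integrand, on `b`.  `v ∈ L`; `f x = phc x * eQ (ν x τ(v / c))`. -/
noncomputable def fI (χ : Chr F m) (D : Lat F) (a c : 𝓞 K) (v : L) (x : D.b) : ℂ :=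
  phc χ D a c ((x : 𝓞 L) : L) * eQ (algebraMap K L D.ν * ((x : 𝓞 L) : L) * F.τ (v / algebraMap K L (c : K)))

theorem i7_fg (b : Ideal (𝓞 L)) {M : ℕ} (hM : M ≠ 0) : (nsmulAddMonoidHom (α := b) M).range.FiniteIndex := by
  have h : Module.Finite ℤ b := inferInstance
  have : AddGroup.FG b := Module.Finite.iff_addGroup_fg.1 h
  exact AddSubgroup.finiteIndex_range_nsmulAddMonoidHom_of_fg b hM

/-- Integers of `L` have `eQ = 1`. -/
theorem i7_int (D : Lat F) (z : 𝓞 L) : eQ (z : L) = 1 := by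
  have h := F.eQ_int D.δne D.diff (algebraMap (𝓞 K) (𝓞 L) D.δ * z)
  have h1 : (D.δ : K) ≠ 0 := by
    intro h0
    exact D.δne (RingOfIntegers.coe_injective (h0.trans (map_zero _).symm))
  have h2 : ((algebraMap (𝓞 K) (𝓞 L) D.δ * z : 𝓞 L) : L) = algebraMap K L (D.δ : K) * (z : L) := rfl
  rw [h2, ← mul_assoc, ← map_mul, inv_mul_cancel₀ h1, map_one, one_mul] at h
  exact h

theorem i7_add (s t : 𝓞 L) : ((s + t : 𝓞 L) : L) = (s : L) + (t : L) := rfl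

theorem i7_mul (s t : 𝓞 L) : ((s * t : 𝓞 L) : L) = (s : L) * (t : L) := rfl

theorem i7_nat (M : ℕ) : ((M : 𝓞 L) : L) = (M : L) := map_natCast (algebraMap (𝓞 L) L) M

theorem i7_addb {b : Ideal (𝓞 L)} (x u : b) : (((x + u : b) : 𝓞 L) : L) = ((x : 𝓞 L) : L) + ((u : 𝓞 L) : L) := rfl

theorem i7_den (x : L) : ∃ (N : ℕ) (z : 𝓞 L), N ≠ 0 ∧ (N : L) * x = (z : L) := by
  obtain ⟨⟨N, hN⟩, h⟩ := IsLocalization.exist_integer_multiples_of_finset (Algebra.algebraMapSubmonoid (𝓞 L) (nonZeroDivisors ℤ)) ({x} : Finset L)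
  obtain ⟨n, hn, rfl⟩ := hN
  obtain ⟨z, hz⟩ := h x (Finset.mem_singleton_self x)
  have hn0 : n ≠ 0 := nonZeroDivisors.ne_zero hn
  have hz' : (n : L) * x = (z : L) := by
    have h2 : (algebraMap (𝓞 L) L) z = (algebraMap ℤ (𝓞 L) n) • x := hz
    rw [Algebra.smul_def] at h2
    have h3 : (algebraMap (𝓞 L) L) (algebraMap ℤ (𝓞 L) n) = (n : L) := by
      rw [← IsScalarTower.algebraMap_apply ℤ (𝓞 L) L]
      exact eq_intCast _ n
    rw [h3] at h2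
    exact h2.symm
  rcases Int.natAbs_eq n with h1 | h1
  · refine ⟨n.natAbs, z, Int.natAbs_ne_zero.2 hn0, ?_⟩
    have h3 : (n : L) = ((n.natAbs : ℕ) : L) := by
      have h4 := congrArg (fun t : ℤ => (t : L)) h1
      rw [Int.cast_natCast] at h4
      exact h4
    rw [← hz', h3]
  · refine ⟨n.natAbs, -z, Int.natAbs_ne_zero.2 hn0, ?_⟩
    have h2 : ((-z : 𝓞 L) : L) = -(z : L) := map_neg _ _
    rw [h2, ← hz']
    have h3 : (n : L) = -((n.natAbs : ℕ) : L) := by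
      have h4 := congrArg (fun t : ℤ => (t : L)) h1
      rw [Int.cast_neg, Int.cast_natCast] at h4
      exact h4
    rw [h3]
    ring

theorem fI_FT (χ : Chr F m) (D : Lat F) (a c : 𝓞 K) (v : L) :
    F.FT D.ν D.b (phc χ D a c) (v / algebraMap K L (c : K)) = mn (fI χ D a c v) := by
  rfl

/-- PROOF. `phc_per` (with `Lat.B_int`, `Lat.q_int`) and a multiple of the period for which `eQ (ν M y τ(v / c)) = 1` for all `y ∈ b` (a denominator of
`v / (c n δ)`). -/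
theorem fI_per (χ : Chr F m) (hm : m ≠ ⊥) (D : Lat F) (a : 𝓞 K) {c : 𝓞 K} (hc : c ≠ 0) (v : L) : IsPer (fI χ D a c v) := by
  obtain ⟨M, hM, hper⟩ := phc_per χ hm D a hc (fun x hx y hy => D.B_int hx hy) (fun x hx => D.q_int hx)
  obtain ⟨N, z, hN, hz⟩ := i7_den (algebraMap K L D.ν * F.τ (v / algebraMap K L (c : K)))
  refine ⟨(nsmulAddMonoidHom (α := D.b) (M * N)).range, i7_fg D.b (Nat.mul_ne_zero hM.ne' hN), ?_⟩
  rintro x _ ⟨y, rfl⟩
  have hNy : (N : 𝓞 L) * (y : 𝓞 L) ∈ D.b := Ideal.mul_mem_left _ _ y.2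
  have e1 : (((x + (nsmulAddMonoidHom (M * N)) y : D.b) : 𝓞 L) : L) =
      ((x : 𝓞 L) : L) + (M : L) * (((N : 𝓞 L) * (y : 𝓞 L) : 𝓞 L) : L) := by
    have h1 : ((x + (nsmulAddMonoidHom (M * N)) y : D.b) : 𝓞 L) = (x : 𝓞 L) + ((M * N : ℕ) : 𝓞 L) * (y : 𝓞 L) := by
      rw [nsmulAddMonoidHom_apply, Submodule.coe_add, Submodule.coe_smul_of_tower, nsmul_eq_mul]
    rw [h1, Nat.cast_mul, mul_assoc]
    have h2 : ∀ s t : 𝓞 L, ((s + (M : 𝓞 L) * t : 𝓞 L) : L) = (s : L) + (M : L) * (t : L) := by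
      intro s t
      rw [i7_add, i7_mul, i7_nat]
    exact h2 _ _
  have e2 : eQ (algebraMap K L D.ν * (((x : 𝓞 L) : L) + (M : L) * (((N : 𝓞 L) * (y : 𝓞 L) : 𝓞 L) : L)) *
      F.τ (v / algebraMap K L (c : K))) = eQ (algebraMap K L D.ν * ((x : 𝓞 L) : L) * F.τ (v / algebraMap K L (c : K))) := by
    have h3 : algebraMap K L D.ν * (((x : 𝓞 L) : L) + (M : L) * (((N : 𝓞 L) * (y : 𝓞 L) : 𝓞 L) : L)) *
      F.τ (v / algebraMap K L (c : K)) = algebraMap K L D.ν * ((x : 𝓞 L) : L) * F.τ (v / algebraMap K L (c : K)) +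
        (((M : 𝓞 L) * (y : 𝓞 L) * z : 𝓞 L) : L) := by
      have h4 : (((N : 𝓞 L) * (y : 𝓞 L) : 𝓞 L) : L) = (N : L) * ((y : 𝓞 L) : L) := by
        rw [i7_mul, i7_nat]
      have h5 : (((M : 𝓞 L) * (y : 𝓞 L) * z : 𝓞 L) : L) = (M : L) * ((y : 𝓞 L) : L) * (z : L) := by
        rw [i7_mul, i7_mul, i7_nat]
      rw [h4, h5, ← hz]
      ring
    rw [h3, eQ_add, i7_int D, mul_one]
  unfold fI
  rw [e1, hper _ x.2 _ hNy, e2]

/-- The effect of a shift by `u ∈ U = m 𝔇 J b` (`U ≤ m * b`).  PROOF. `ε (x + u) = ε x` (`u ∈ m`), `N(x + u) = N(x) + Tr(x τ u) + N(u)`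
(`Fld.norm_add`), `eQ ((a/c) ν N(u)) = 1` (`Lat.U_int` with `u' = u`, `Fld.norm_eq`, in `K`: `eQ` on `K` of an element `δ⁻¹ z`, `z` an integer of `L` in `K`),
`eQ ((a/c) ν Tr(x τ u)) = eQ ((a/c) ν x τ u)` (`Fld.eQL`), and `eQ (ν u τ v / c) = eQ (ν v τ u / c)` (the trace is invariant under `τ`). -/
theorem fI_shift (χ : Chr F m) (D : Lat F) (a : 𝓞 K) {c : 𝓞 K} (hc : c ≠ 0) {J : Ideal (𝓞 L)}
    (hJ : up L c = m * F.tI m * differentIdeal (𝓞 K) (𝓞 L) * differentIdeal (𝓞 K) (𝓞 L) * J) (v : L) (x u : D.b)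
    (hu : (u : 𝓞 L) ∈ m * differentIdeal (𝓞 K) (𝓞 L) * J * D.b) :
    fI χ D a c v (x + u) = fI χ D a c v x *
      eQ (algebraMap K L (D.ν / (c : K)) * (algebraMap K L (a : K) * ((x : 𝓞 L) : L) + v) * F.τ ((u : 𝓞 L) : L)) := by
  have hu' : (u : 𝓞 L) ∈ m := by
    have h1 : m * differentIdeal (𝓞 K) (𝓞 L) * J * D.b ≤ m :=
      le_trans Ideal.mul_le_left (le_trans Ideal.mul_le_left Ideal.mul_le_left)
    exact h1 hu
  have hcK : (c : K) ≠ 0 := by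
    intro h0
    exact hc (RingOfIntegers.coe_injective (h0.trans (map_zero _).symm))
  have hcL : algebraMap K L (c : K) ≠ 0 := by
    intro h0
    exact hcK ((algebraMap K L).injective (h0.trans (map_zero _).symm))
  have hδK : (D.δ : K) ≠ 0 := by
    intro h0
    exact D.δne (RingOfIntegers.coe_injective (h0.trans (map_zero _).symm))
  have ec : (((x + u : D.b) : 𝓞 L) : L) = ((x : 𝓞 L) : L) + ((u : 𝓞 L) : L) := i7_addb x u
  -- the character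
  have e1 : phb χ D.b (((x : 𝓞 L) : L) + ((u : 𝓞 L) : L)) = phb χ D.b ((x : 𝓞 L) : L) := by
    have h1 := phb_coe χ (x + u : D.b).2
    rw [ec] at h1
    rw [h1, phb_coe χ x.2]
    refine χ.per _ _ ?_
    rw [Submodule.coe_add, add_sub_cancel_left]
    exact hu'
  -- the norm of `u`
  have e2 : eQ ((a : K) / (c : K) * (D.ν * Algebra.norm K ((u : 𝓞 L) : L))) = 1 := by
    obtain ⟨z, hz⟩ := D.U_int hc hJ hu hu
    have h1 : algebraMap K L ((D.δ : K) * (D.ν / (c : K) * Algebra.norm K ((u : 𝓞 L) : L))) = (z : L) := by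
      rw [map_mul, map_mul, F.norm_eq]
      have h2 : algebraMap K L (D.ν / (c : K)) * (((u : 𝓞 L) : L) * F.τ ((u : 𝓞 L) : L)) =
          algebraMap K L (D.δ : K)⁻¹ * (z : L) := by
        rw [← mul_assoc]
        exact hz
      rw [h2, ← mul_assoc, ← map_mul, mul_inv_cancel₀ hδK, map_one, one_mul]
    have h3 : IsIntegral ℤ ((D.δ : K) * (D.ν / (c : K) * Algebra.norm K ((u : 𝓞 L) : L))) := by
      refine (isIntegral_algHom_iff (IsScalarTower.toAlgHom ℤ K L) (algebraMap K L).injective).1 ?_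
      have h4 : (IsScalarTower.toAlgHom ℤ K L) ((D.δ : K) * (D.ν / (c : K) * Algebra.norm K ((u : 𝓞 L) : L))) = (z : L) := h1
      rw [h4]
      exact RingOfIntegers.isIntegral_coe z
    have h5 := eQ_intK D.δne D.diff
      (a * ⟨(D.δ : K) * (D.ν / (c : K) * Algebra.norm K ((u : 𝓞 L) : L)), h3⟩ : 𝓞 K)
    have h6 : ((a * ⟨(D.δ : K) * (D.ν / (c : K) * Algebra.norm K ((u : 𝓞 L) : L)), h3⟩ : 𝓞 K) : K) =
        (a : K) * ((D.δ : K) * (D.ν / (c : K) * Algebra.norm K ((u : 𝓞 L) : L))) := rfl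
    rw [h6] at h5
    have h7 : (D.δ : K)⁻¹ * ((a : K) * ((D.δ : K) * (D.ν / (c : K) * Algebra.norm K ((u : 𝓞 L) : L)))) =
        (a : K) / (c : K) * (D.ν * Algebra.norm K ((u : 𝓞 L) : L)) := by
      field_simp
    rw [h7] at h5
    exact h5
  -- the mixed term
  have e3 : eQ ((a : K) / (c : K) * (D.ν * Algebra.trace K L (((x : 𝓞 L) : L) * F.τ ((u : 𝓞 L) : L)))) =
      eQ (algebraMap K L ((a : K) / (c : K) * D.ν) * (((x : 𝓞 L) : L) * F.τ ((u : 𝓞 L) : L))) := by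
    rw [F.n4_tr, mul_assoc]
  have e4 : eQ (algebraMap K L D.ν * ((u : 𝓞 L) : L) * F.τ (v / algebraMap K L (c : K))) =
      eQ (algebraMap K L (D.ν / (c : K)) * (v * F.τ ((u : 𝓞 L) : L))) := by
    have h1 : algebraMap K L D.ν * ((u : 𝓞 L) : L) * F.τ (v / algebraMap K L (c : K)) =
        algebraMap K L (D.ν / (c : K)) * (((u : 𝓞 L) : L) * F.τ v) := by
      rw [map_div₀, map_div₀, AlgEquiv.commutes]
      field_simp
    have h2 : v * F.τ ((u : 𝓞 L) : L) = F.τ (((u : 𝓞 L) : L) * F.τ v) := by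
      rw [map_mul, F.ττ, mul_comm]
    rw [h1, F.n4_tr, h2, F.n4_tr, F.n5_tr]
  have e5 : algebraMap K L (D.ν / (c : K)) * (algebraMap K L (a : K) * ((x : 𝓞 L) : L) + v) * F.τ ((u : 𝓞 L) : L) =
      algebraMap K L ((a : K) / (c : K) * D.ν) * (((x : 𝓞 L) : L) * F.τ ((u : 𝓞 L) : L)) +
        algebraMap K L (D.ν / (c : K)) * (v * F.τ ((u : 𝓞 L) : L)) := by
    rw [map_mul, map_div₀, map_div₀]
    field_simp
  unfold fI phc
  rw [e5, eQ_add, ← e3, ← e4, ec, e1, F.norm_add]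
  have e6 : (a : K) / (c : K) * (D.ν * (Algebra.norm K ((x : 𝓞 L) : L) +
      Algebra.trace K L (((x : 𝓞 L) : L) * F.τ ((u : 𝓞 L) : L)) + Algebra.norm K ((u : 𝓞 L) : L))) =
      (a : K) / (c : K) * (D.ν * Algebra.norm K ((x : 𝓞 L) : L)) +
      (a : K) / (c : K) * (D.ν * Algebra.trace K L (((x : 𝓞 L) : L) * F.τ ((u : 𝓞 L) : L))) +
      (a : K) / (c : K) * (D.ν * Algebra.norm K ((u : 𝓞 L) : L)) := by ring
  have e7 : algebraMap K L D.ν * (((x : 𝓞 L) : L) + ((u : 𝓞 L) : L)) * F.τ (v / algebraMap K L (c : K)) =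
      algebraMap K L D.ν * ((x : 𝓞 L) : L) * F.τ (v / algebraMap K L (c : K)) +
      algebraMap K L D.ν * ((u : 𝓞 L) : L) * F.τ (v / algebraMap K L (c : K)) := by ring
  rw [e6, e7, eQ_add, eQ_add, eQ_add, e2]
  ring

theorem i7_psi_add (D : Lat F) (a c : 𝓞 K) (v : L) (x u u' : D.b) :
    eQ (algebraMap K L (D.ν / (c : K)) * (algebraMap K L (a : K) * ((x : 𝓞 L) : L) + v) *
      F.τ (((u + u' : D.b) : 𝓞 L) : L)) =
    eQ (algebraMap K L (D.ν / (c : K)) * (algebraMap K L (a : K) * ((x : 𝓞 L) : L) + v) * F.τ ((u : 𝓞 L) : L)) *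
    eQ (algebraMap K L (D.ν / (c : K)) * (algebraMap K L (a : K) * ((x : 𝓞 L) : L) + v) * F.τ ((u' : 𝓞 L) : L)) := by
  rw [i7_addb, map_add, mul_add, eQ_add]

theorem i7_psi_shift (D : Lat F) (a : 𝓞 K) {c : 𝓞 K} (hc : c ≠ 0) {J : Ideal (𝓞 L)}
    (hJ : up L c = m * F.tI m * differentIdeal (𝓞 K) (𝓞 L) * differentIdeal (𝓞 K) (𝓞 L) * J) (v : L) (x u u' : D.b)
    (hu : (u : 𝓞 L) ∈ m * differentIdeal (𝓞 K) (𝓞 L) * J * D.b)
    (hu' : (u' : 𝓞 L) ∈ m * differentIdeal (𝓞 K) (𝓞 L) * J * D.b) :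
    eQ (algebraMap K L (D.ν / (c : K)) * (algebraMap K L (a : K) * (((x + u' : D.b) : 𝓞 L) : L) + v) *
      F.τ ((u : 𝓞 L) : L)) =
    eQ (algebraMap K L (D.ν / (c : K)) * (algebraMap K L (a : K) * ((x : 𝓞 L) : L) + v) * F.τ ((u : 𝓞 L) : L)) := by
  obtain ⟨z, hz⟩ := D.U_int hc hJ hu' hu
  have h1 := F.eQ_int D.δne D.diff (algebraMap (𝓞 K) (𝓞 L) a * z)
  have h2 : ((algebraMap (𝓞 K) (𝓞 L) a * z : 𝓞 L) : L) = algebraMap K L (a : K) * (z : L) := rfl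
  have h3 : algebraMap K L (D.ν / (c : K)) * (algebraMap K L (a : K) * (((x : 𝓞 L) : L) + ((u' : 𝓞 L) : L)) + v) *
      F.τ ((u : 𝓞 L) : L) =
      algebraMap K L (D.ν / (c : K)) * (algebraMap K L (a : K) * ((x : 𝓞 L) : L) + v) * F.τ ((u : 𝓞 L) : L) +
      algebraMap K L (a : K) * (algebraMap K L (D.ν / (c : K)) * ((u' : 𝓞 L) : L) * F.τ ((u : 𝓞 L) : L)) := by ring
  have h4 : algebraMap K L (a : K) * (algebraMap K L (D.ν / (c : K)) * ((u' : 𝓞 L) : L) * F.τ ((u : 𝓞 L) : L)) =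
      algebraMap K L (D.δ : K)⁻¹ * ((algebraMap (𝓞 K) (𝓞 L) a * z : 𝓞 L) : L) := by
    rw [hz, h2]
    ring
  rw [i7_addb, h3, eQ_add, h4, h1, mul_one]

theorem i7_bot {c : 𝓞 K} (hc : c ≠ 0) {J : Ideal (𝓞 L)}
    (hJ : up L c = m * F.tI m * differentIdeal (𝓞 K) (𝓞 L) * differentIdeal (𝓞 K) (𝓞 L) * J) :
    m * differentIdeal (𝓞 K) (𝓞 L) * J ≠ ⊥ := by
  have hcO : algebraMap (𝓞 K) (𝓞 L) c ≠ 0 := by
    intro h0
    have h1 : algebraMap K L (c : K) = 0 := by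
      have := congrArg (fun t : 𝓞 L => (t : L)) h0
      exact this.trans (map_zero _)
    have h2 : (c : K) = 0 := (algebraMap K L).injective (h1.trans (map_zero _).symm)
    exact hc (RingOfIntegers.coe_injective (h2.trans (map_zero _).symm))
  have hup : up L c ≠ ⊥ := by
    unfold up
    intro h0
    exact hcO (Ideal.span_singleton_eq_bot.1 h0)
  intro h0
  apply hup
  rw [hJ]
  have h1 : m * F.tI m * differentIdeal (𝓞 K) (𝓞 L) * differentIdeal (𝓞 K) (𝓞 L) * J =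
      m * differentIdeal (𝓞 K) (𝓞 L) * J * (F.tI m * differentIdeal (𝓞 K) (𝓞 L)) := by
    rw [mul_right_comm (m * F.tI m * differentIdeal (𝓞 K) (𝓞 L)), mul_assoc m (F.tI m), mul_comm (F.tI m),
      ← mul_assoc m, mul_right_comm (m * differentIdeal (𝓞 K) (𝓞 L)) (F.tI m) J, mul_assoc _ (F.tI m),
      mul_comm (F.tI m) (differentIdeal (𝓞 K) (𝓞 L))]
  rw [h1, h0, Ideal.bot_mul]

theorem i7_U (b I : Ideal (𝓞 L)) (hI : I ≠ ⊥) : ∃ U : AddSubgroup b, U.FiniteIndex ∧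
    ∀ u : b, u ∈ U ↔ (u : 𝓞 L) ∈ I * b := by
  obtain ⟨U, hU⟩ : ∃ U : AddSubgroup b, ∀ u : b, u ∈ U ↔ (u : 𝓞 L) ∈ I * b :=
    ⟨(I * b).toAddSubgroup.comap b.subtype.toAddMonoidHom, fun u => Iff.rfl⟩
  refine ⟨U, ?_, hU⟩
  have hM : Ideal.absNorm I ≠ 0 := Ideal.absNorm_eq_zero_iff.not.2 hI
  have h1 := i7_fg b hM
  refine AddSubgroup.finiteIndex_of_le (H := (nsmulAddMonoidHom (α := b) (Ideal.absNorm I)).range) ?_
  rintro _ ⟨y, rfl⟩
  rw [hU, nsmulAddMonoidHom_apply, Submodule.coe_smul_of_tower, nsmul_eq_mul]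
  exact Ideal.mul_mem_mul (Ideal.absNorm_mem I) y.2

open Classical in
/-- PROOF. `mn_sub` (M4) with the subgroup `U` of `b` (finite index: it contains a multiple `M b`) and
`ψ x u = eQ (ν / c (a x + v) τ u)`: `h1 = fI_shift`, `h2 = eQ_add`, `h3`: `eQ (ν / c a u' τ u) = 1` (`Lat.U_int`, `Fld.eQ_int`).  By `Lat.U_dual` the
condition `∀ u ∈ U, ψ x u = 1` says that `a x + v ∈ m b`. -/
theorem fI_mean (χ : Chr F m) (hm : m ≠ ⊥) (D : Lat F) (a : 𝓞 K) {c : 𝓞 K} (hc : c ≠ 0) {J : Ideal (𝓞 L)}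
    (hJ : up L c = m * F.tI m * differentIdeal (𝓞 K) (𝓞 L) * differentIdeal (𝓞 K) (𝓞 L) * J) (v : L) :
    mn (fI χ D a c v) = mn (fun x : D.b => if ∃ y ∈ m * D.b, (y : L) = algebraMap K L (a : K) * ((x : 𝓞 L) : L) + v
      then fI χ D a c v x else 0) := by
  obtain ⟨U, hUf, hU⟩ := i7_U D.b (m * differentIdeal (𝓞 K) (𝓞 L) * J) (i7_bot hc hJ)
  have hUJ : ∀ u ∈ U, (u : 𝓞 L) ∈ m * differentIdeal (𝓞 K) (𝓞 L) * J * D.b := by
    intro u hu
    exact (hU u).1 hu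
  have h := mn_sub (fI_per χ hm D a hc v) hUf
    (ψ := fun x u => eQ (algebraMap K L (D.ν / (c : K)) * (algebraMap K L (a : K) * ((x : 𝓞 L) : L) + v) *
      F.τ ((u : 𝓞 L) : L)))
    (fun x u hu => fI_shift χ D a hc hJ v x u (hUJ u hu))
    (fun x u _ u' _ => i7_psi_add D a c v x u u')
    (fun x u hu u' hu' => i7_psi_shift D a hc hJ v x u u' (hUJ u hu) (hUJ u' hu'))
  rw [h]
  refine congrArg mn (funext fun x => ?_)
  have hiff : (∀ u ∈ U, eQ (algebraMap K L (D.ν / (c : K)) * (algebraMap K L (a : K) * ((x : 𝓞 L) : L) + v) *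
      F.τ ((u : 𝓞 L) : L)) = 1) ↔ ∃ y ∈ m * D.b, (y : L) = algebraMap K L (a : K) * ((x : 𝓞 L) : L) + v := by
    rw [← D.U_dual hc hJ]
    constructor
    · intro h1 u hu
      have hub : u ∈ D.b := Ideal.mul_le_right hu
      exact h1 ⟨u, hub⟩ ((hU ⟨u, hub⟩).2 hu)
    · intro h1 u hu
      exact h1 (u : 𝓞 L) (hUJ u hu)
  by_cases hx : ∃ y ∈ m * D.b, (y : L) = algebraMap K L (a : K) * ((x : 𝓞 L) : L) + v
  · rw [if_pos hx, if_pos (hiff.2 hx)]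
  · rw [if_neg hx, if_neg (fun h1 => hx (hiff.1 h1))]

end Pool.Agent.H2S
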