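import Mathlib

/-!
# H2S, chunk J01 (size M, ONLY MATHLIB): a counting lemma for sums, a counting lemma for cosets

`j01`: `Equiv.sigmaFiberEquiv π : (Σ y, {x // π x = y}) ≃ X`.  All fibres are finite (`Nat.finite_of_card_ne_zero`) with `κ` elements.
Summability of `‖f (π x)‖`: transport by the equivalence (`Equiv.summable_iff`), then `summable_sigma_of_nonneg`: on a fibre the function
is constant (`x.2`) and the fibre is finite, `tsum` over the fibre is `κ * ‖f y‖` (`tsum_fintype`, `Finset.sum_const`, `Finset.card_univ`,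
`Nat.card_eq_fintype_card`), and `(hf.mul_left κ)`.  The sum: `Equiv.tsum_eq`, `Summable.tsum_sigma'` (or `HasSum.sigma`), and `tsum_const_smul`
(`Summable.tsum_const_smul`, or `Summable.tsum_mul_left` after `nsmul_eq_mul`).

`j02`: let `ρ = g η > 1`.  `g` is a homomorphism: `g 1 = 1`, `g (x⁻¹) = (g x)⁻¹`, `g (η ^ k) = ρ ^ k` for `k : ℤ` (convenient: first make a
`MonoidHom G →* ℝ` with `MonoidHom.mk'`-like constructor or `{ toFun := g, map_one' := .., map_mul' := hm }`, then `map_zpow₀`-like lemmas; or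
`G →* ℝˣ` with `Units.mk0`).  The map from the subtype to `G ⧸ zpowers η`, `v ↦ mk v`, is bijective (`Nat.card_eq_of_bijective` or
`Nat.card_congr (Equiv.ofBijective ..)`):
injective: `v' = v * η ^ k` (`QuotientGroup.eq`, `Subgroup.mem_zpowers_iff`), so `g v' * c = ρ ^ k * (g v * c)`, both numbers lie in
`[1, ρ)`, so `ρ ^ (-1) < ρ ^ k < ρ ^ 1` and `k = 0` (`zpow_lt_zpow_iff_right₀`);
surjective: for `v` the number `g v * c` is positive; `exists_mem_Ico_zpow (hx : 0 < x) (hy : 1 < y) : ∃ n : ℤ, x ∈ Set.Ico (y ^ n) (y ^ (n + 1))`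
gives `k` with `ρ ^ k ≤ g v * c < ρ ^ (k + 1)`; take `v * η ^ (-k)`.
-/

set_option autoImplicit false
namespace Pool.Agent.H2S

theorem j01 {X Y E : Type*} [NormedAddCommGroup E] [NormedSpace ℝ E] [CompleteSpace E] (π : X → Y) {κ : ℕ} (hκ : 0 < κ)
    (h : ∀ y, Nat.card {x // π x = y} = κ) {f : Y → E} (hf : Summable fun y => ‖f y‖) :
    (Summable fun x => ‖f (π x)‖) ∧ ∑' x, f (π x) = (κ : ℝ) • ∑' y, f y := by
  classical
  have hfin : ∀ y, Finite {x // π x = y} := fun y => Nat.finite_of_card_ne_zero (by rw [h y]; exact hκ.ne')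
  have hf0 : Summable f := hf.of_norm
  have hs1 : Summable fun p : (Σ y, {x // π x = y}) => ‖f p.1‖ := by
    refine (summable_sigma_of_nonneg (fun p => norm_nonneg _)).2 ⟨fun y => ?_, ?_⟩
    · have := hfin y
      exact Summable.of_finite
    · have h1 : (fun y => ∑' _ : {x // π x = y}, ‖f y‖) = fun y => (κ : ℝ) * ‖f y‖ := by
        funext y
        rw [tsum_const, h y, nsmul_eq_mul]
      exact h1 ▸ hf.mul_left (κ : ℝ)
  refine ⟨?_, ?_⟩
  · rw [← (Equiv.sigmaFiberEquiv π).summable_iff]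
    refine hs1.congr fun p => ?_
    obtain ⟨y, x, hx⟩ := p
    subst hx
    rfl
  · rw [← (Equiv.sigmaFiberEquiv π).tsum_eq (fun x => f (π x))]
    have h2 : (fun p : (Σ y, {x // π x = y}) => f (π ((Equiv.sigmaFiberEquiv π) p))) = fun p => f p.1 := by
      funext p
      obtain ⟨y, x, hx⟩ := p
      subst hx
      rfl
    have h3 : Summable fun p : (Σ y, {x // π x = y}) => f p.1 := hs1.of_norm
    rw [h2, h3.tsum_sigma' (fun y => by have := hfin y; exact Summable.of_finite)]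
    have h4 : ∀ y, ∑' _ : {x // π x = y}, f y = (κ : ℝ) • f y := by
      intro y
      rw [tsum_const, h y, Nat.cast_smul_eq_nsmul]
    rw [tsum_congr h4, hf0.tsum_const_smul]

theorem j02 {G : Type*} [CommGroup G] (g : G → ℝ) (hm : ∀ x y, g (x * y) = g x * g y) (hp : ∀ x, 0 < g x)
    (η : G) (hη : 1 < g η) (c : ℝ) (hc : 0 < c) :
    Nat.card {v : G // 1 ≤ g v * c ∧ g v * c < g η} = Nat.card (G ⧸ Subgroup.zpowers η) := by
  obtain ⟨ρ, hρ⟩ : ∃ ρ, ρ = g η := ⟨_, rfl⟩
  rw [← hρ] at hη ⊢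
  have hρ0 : 0 < ρ := zero_lt_one.trans hη
  have h1 : g 1 = 1 := by
    have e := hm 1 1
    rw [mul_one] at e
    have e2 := hp 1
    exact (mul_eq_left₀ e2.ne').1 e.symm
  obtain ⟨φ, hφ⟩ : ∃ φ : G →* ℝ, ∀ x, φ x = g x := ⟨{ toFun := g, map_one' := h1, map_mul' := hm }, fun _ => rfl⟩
  have hk : ∀ (v : G) (k : ℤ), g (v * η ^ k) = g v * ρ ^ k := by
    intro v k
    rw [hm, ← hφ (η ^ k), map_zpow, hφ, ← hρ]
  refine Nat.card_congr (Equiv.ofBijective (fun v => (QuotientGroup.mk v.1 : G ⧸ Subgroup.zpowers η)) ⟨?_, ?_⟩)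
  · rintro ⟨v, hv1, hv2⟩ ⟨v', hv1', hv2'⟩ hvv
    obtain ⟨k, hk1⟩ := Subgroup.mem_zpowers_iff.1 (QuotientGroup.eq.1 hvv)
    have hv : v' = v * η ^ k := by
      rw [hk1, mul_inv_cancel_left]
    have e1 : g v' * c = ρ ^ k * (g v * c) := by
      rw [hv, hk]
      ring
    rcases lt_trichotomy k 0 with h2 | h2 | h2
    · exfalso
      have e2 : ρ ^ (-k) * (g v' * c) = g v * c := by
        rw [e1, ← mul_assoc, ← zpow_add₀ hρ0.ne', neg_add_cancel, zpow_zero, one_mul]
      have e3 : ρ ≤ ρ ^ (-k) := by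
        conv_lhs => rw [← zpow_one ρ]
        exact zpow_le_zpow_right₀ hη.le (by omega)
      have e4 : ρ * 1 ≤ ρ ^ (-k) * (g v' * c) := mul_le_mul e3 hv1' zero_le_one (hρ0.le.trans e3)
      rw [e2, mul_one] at e4
      exact absurd hv2 (not_lt.2 e4)
    · subst h2
      rw [zpow_zero, mul_one] at hv
      exact Subtype.ext hv.symm
    · exfalso
      have e3 : ρ ≤ ρ ^ k := by
        conv_lhs => rw [← zpow_one ρ]
        exact zpow_le_zpow_right₀ hη.le (by omega)
      have e4 : ρ * 1 ≤ ρ ^ k * (g v * c) := mul_le_mul e3 hv1 zero_le_one (hρ0.le.trans e3)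
      rw [← e1, mul_one] at e4
      exact absurd hv2' (not_lt.2 e4)
  · intro q
    obtain ⟨v, rfl⟩ := QuotientGroup.mk_surjective q
    obtain ⟨n, hn1, hn2⟩ := exists_mem_Ico_zpow (mul_pos (hp v) hc) hη
    have hn : 0 < ρ ^ n := zpow_pos hρ0 n
    have e1 : g (v * η ^ (-n)) * c = (g v * c) / ρ ^ n := by
      rw [hk, zpow_neg]
      field_simp
    refine ⟨⟨v * η ^ (-n), ?_, ?_⟩, ?_⟩
    · rw [e1, le_div_iff₀ hn, one_mul]
      exact hn1
    · rw [e1, div_lt_iff₀ hn, mul_comm ρ, ← zpow_add_one₀ hρ0.ne']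
      exact hn2
    · refine QuotientGroup.eq.2 (Subgroup.mem_zpowers_iff.2 ⟨n, ?_⟩)
      rw [mul_inv, zpow_neg, inv_inv, mul_assoc, mul_comm, mul_assoc, mul_inv_cancel, mul_one]

end Pool.Agent.H2S
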