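import Pool.Agent.Lib.H2S.JD
import Pool.Agent.Lib.H2S.J01

/-!
# H2S, chunk J02 (size M): units of `𝓞 L` in a shell

`j02_fin`: by `Fld.emb` every embedding `φ` of `L` satisfies `‖φ v‖ ≤ R` for the `v` in the set (`Complex.norm_conj` for the conjugate
embeddings), so the images of these `v` in `L` lie in the finite set of `NumberField.Embeddings.finite_of_norm_le L ℂ R`
(`{x : L | IsIntegral ℤ x ∧ ∀ φ : L →+* ℂ, ‖φ x‖ ≤ B}` is finite); `Set.Finite.of_finite_image`/`Set.Finite.preimage` with the injectivity of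
`v ↦ ((v : 𝓞 L) : L)` (`Units.ext`, `RingOfIntegers.ext`).

`j02_card`: put `g v = ‖s v‖ / ‖s (τ v)‖ > 0` (multiplicative; units and their images under `s`, `s ∘ τ` are nonzero), `g η = ‖s η‖ ^ 2`
because `‖s (τ η)‖ = ‖s η‖⁻¹` (`h2`, `map_mul`, `map_one`), and `c = ‖s (algebraMap K L ν * x)‖ / ‖s (τ x)‖ > 0`.  By definition
`io ν (v * x) = (s (ν v x), s (τ (v x)))`, and for `A = ‖s (ν v x)‖`, `B = ‖s (τ (v x))‖ > 0`: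
`B ≤ A ∧ A < ρ * B` iff `1 ≤ A / B ∧ A / B < ρ`, `A / B = g v * c`.  So the two subtypes are equal (`Nat.card_congr (Equiv.subtypeEquivRight ..)`)
and `j02` with `G = (𝓞 L)ˣ` gives the claim.

`j02_pos`: by `j02` with `c = 1` the number is `Nat.card {v // 1 ≤ g v ∧ g v < ‖s η‖ ^ 2}`.  This set is finite by `j02_fin`:
`‖s v‖ * ‖s (τ v)‖ = 1` (`Fld.norm_unitL`), so `g v = ‖s v‖ ^ 2`, `‖s v‖ < ‖s η‖` and `‖s (τ v)‖ = ‖s v‖⁻¹ ≤ 1`; and `1` lies in it.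
(`Nat.card_pos` needs `Nonempty` and `Finite`.)
-/

set_option autoImplicit false
namespace Pool.Agent.H2S
open Complex NumberField

variable {K L : Type*} [Field K] [NumberField K] [Field L] [NumberField L] [Algebra K L]

theorem j02_fin (F : Fld K L) (R : ℝ) :
    {v : (𝓞 L)ˣ | ‖F.s ((v : 𝓞 L) : L)‖ ≤ R ∧ ‖F.s (F.τ ((v : 𝓞 L) : L))‖ ≤ R}.Finite := by
  have h := NumberField.Embeddings.finite_of_norm_le L ℂ R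
  have hinj : Function.Injective (fun v : (𝓞 L)ˣ => ((v : 𝓞 L) : L)) := by
    intro v w hvw
    exact Units.ext (RingOfIntegers.ext hvw)
  refine (h.preimage hinj.injOn).subset ?_
  rintro v ⟨h1, h2⟩
  refine ⟨RingOfIntegers.isIntegral_coe _, fun φ => ?_⟩
  rcases F.emb φ ((v : 𝓞 L) : L) with h3 | h3 | h3 | h3
  · rw [h3]; exact h1
  · rw [h3]; exact h2
  · rw [h3, RCLike.norm_conj]; exact h1
  · rw [h3, RCLike.norm_conj]; exact h2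

theorem j02_s0 (F : Fld K L) {x : L} (hx : x ≠ 0) : 0 < ‖F.s x‖ :=
  norm_pos_iff.2 ((map_ne_zero F.s).2 hx)

theorem j02_t0 (F : Fld K L) {x : L} (hx : x ≠ 0) : 0 < ‖F.s (F.τ x)‖ :=
  norm_pos_iff.2 ((map_ne_zero F.s).2 ((map_ne_zero_iff F.τ F.τ.injective).2 hx))

theorem j02_u0 (v : (𝓞 L)ˣ) : ((v : 𝓞 L) : L) ≠ 0 := NumberField.Units.coe_ne_zero v

/-- The homomorphism used in the counting. -/
theorem j02_gen (F : Fld K L) (η : (𝓞 L)ˣ) (h1 : 1 < ‖F.s ((η : 𝓞 L) : L)‖)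
    (h2 : ((η : 𝓞 L) : L) * F.τ ((η : 𝓞 L) : L) = 1) (c : ℝ) (hc : 0 < c) :
    Nat.card {v : (𝓞 L)ˣ // 1 ≤ ‖F.s ((v : 𝓞 L) : L)‖ / ‖F.s (F.τ ((v : 𝓞 L) : L))‖ * c ∧
      ‖F.s ((v : 𝓞 L) : L)‖ / ‖F.s (F.τ ((v : 𝓞 L) : L))‖ * c < ‖F.s ((η : 𝓞 L) : L)‖ ^ 2} = kp η := by
  have e : ‖F.s ((η : 𝓞 L) : L)‖ / ‖F.s (F.τ ((η : 𝓞 L) : L))‖ = ‖F.s ((η : 𝓞 L) : L)‖ ^ 2 := by
    have h3 : ‖F.s ((η : 𝓞 L) : L)‖ * ‖F.s (F.τ ((η : 𝓞 L) : L))‖ = 1 := F.norm_unitL η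
    have h4 := j02_t0 F (j02_u0 η)
    rw [div_eq_iff h4.ne', pow_two, mul_assoc, h3, mul_one]
  have h := j02 (G := (𝓞 L)ˣ) (fun v => ‖F.s ((v : 𝓞 L) : L)‖ / ‖F.s (F.τ ((v : 𝓞 L) : L))‖)
    (fun x y => by
      have e1 : (((x * y : (𝓞 L)ˣ) : 𝓞 L) : L) = ((x : 𝓞 L) : L) * ((y : 𝓞 L) : L) := by
        rw [Units.val_mul]
        exact map_mul (algebraMap (𝓞 L) L) _ _
      beta_reduce
      rw [e1, map_mul, map_mul, map_mul, norm_mul, norm_mul, mul_div_mul_comm])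
    (fun x => div_pos (j02_s0 F (j02_u0 x)) (j02_t0 F (j02_u0 x))) η
    (by
      beta_reduce
      rw [e]
      exact one_lt_pow₀ h1 two_ne_zero) c hc
  rw [e] at h
  exact h

theorem j02_card (F : Fld K L) (η : (𝓞 L)ˣ) (h1 : 1 < ‖F.s ((η : 𝓞 L) : L)‖)
    (h2 : ((η : 𝓞 L) : L) * F.τ ((η : 𝓞 L) : L) = 1) {ν : K} (hν : ν ≠ 0) {x : L} (hx : x ≠ 0) :
    Nat.card {v : (𝓞 L)ˣ // F.io ν (((v : 𝓞 L) : L) * x) ∈ Fd (‖F.s ((η : 𝓞 L) : L)‖ ^ 2)} = kp η := by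
  have hν' : algebraMap K L ν ≠ 0 := (map_ne_zero _).2 hν
  have hνx : algebraMap K L ν * x ≠ 0 := mul_ne_zero hν' hx
  have hc : 0 < ‖F.s (algebraMap K L ν * x)‖ / ‖F.s (F.τ x)‖ := div_pos (j02_s0 F hνx) (j02_t0 F hx)
  rw [← j02_gen F η h1 h2 _ hc]
  refine Nat.card_congr (Equiv.subtypeEquivRight fun v => ?_)
  have hB : 0 < ‖F.s (F.τ ((v : 𝓞 L) : L))‖ * ‖F.s (F.τ x)‖ := mul_pos (j02_t0 F (j02_u0 v)) (j02_t0 F hx)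
  have e1 : ‖F.s ((v : 𝓞 L) : L)‖ / ‖F.s (F.τ ((v : 𝓞 L) : L))‖ *
      (‖F.s (algebraMap K L ν * x)‖ / ‖F.s (F.τ x)‖) =
      ‖F.s (algebraMap K L ν * (((v : 𝓞 L) : L) * x))‖ / (‖F.s (F.τ ((v : 𝓞 L) : L))‖ * ‖F.s (F.τ x)‖) := by
    rw [div_mul_div_comm]
    congr 1
    rw [← norm_mul, ← map_mul]
    congr 2
    ring
  have e2 : ‖F.s (F.τ (((v : 𝓞 L) : L) * x))‖ = ‖F.s (F.τ ((v : 𝓞 L) : L))‖ * ‖F.s (F.τ x)‖ := by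
    rw [map_mul, map_mul, norm_mul]
  rw [e1, one_le_div hB, div_lt_iff₀ hB, ← e2]
  rfl

theorem j02_pos (F : Fld K L) (η : (𝓞 L)ˣ) (h1 : 1 < ‖F.s ((η : 𝓞 L) : L)‖)
    (h2 : ((η : 𝓞 L) : L) * F.τ ((η : 𝓞 L) : L) = 1) : 0 < kp η := by
  rw [← j02_gen F η h1 h2 1 one_pos]
  have hfin : Finite {v : (𝓞 L)ˣ // 1 ≤ ‖F.s ((v : 𝓞 L) : L)‖ / ‖F.s (F.τ ((v : 𝓞 L) : L))‖ * 1 ∧
      ‖F.s ((v : 𝓞 L) : L)‖ / ‖F.s (F.τ ((v : 𝓞 L) : L))‖ * 1 < ‖F.s ((η : 𝓞 L) : L)‖ ^ 2} := by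
    refine Set.Finite.to_subtype ((j02_fin F ‖F.s ((η : 𝓞 L) : L)‖).subset ?_)
    rintro v ⟨h3, h4⟩
    have h5 : ‖F.s ((v : 𝓞 L) : L)‖ * ‖F.s (F.τ ((v : 𝓞 L) : L))‖ = 1 := F.norm_unitL v
    have h6 := j02_t0 F (j02_u0 v)
    have h7 := j02_s0 F (j02_u0 v)
    rw [mul_one] at h3 h4
    rw [one_le_div h6] at h3
    rw [div_lt_iff₀ h6] at h4
    have h8 : ‖F.s ((v : 𝓞 L) : L)‖ ^ 2 < ‖F.s ((η : 𝓞 L) : L)‖ ^ 2 := by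
      calc ‖F.s ((v : 𝓞 L) : L)‖ ^ 2 = ‖F.s ((v : 𝓞 L) : L)‖ * ‖F.s ((v : 𝓞 L) : L)‖ := pow_two _
        _ < ‖F.s ((v : 𝓞 L) : L)‖ * (‖F.s ((η : 𝓞 L) : L)‖ ^ 2 * ‖F.s (F.τ ((v : 𝓞 L) : L))‖) :=
          mul_lt_mul_of_pos_left h4 h7
        _ = ‖F.s ((η : 𝓞 L) : L)‖ ^ 2 * (‖F.s ((v : 𝓞 L) : L)‖ * ‖F.s (F.τ ((v : 𝓞 L) : L))‖) := by ring
        _ = ‖F.s ((η : 𝓞 L) : L)‖ ^ 2 := by rw [h5, mul_one]
    have h9 : ‖F.s ((v : 𝓞 L) : L)‖ < ‖F.s ((η : 𝓞 L) : L)‖ :=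
      lt_of_pow_lt_pow_left₀ 2 (norm_nonneg _) h8
    exact ⟨h9.le, h3.trans h9.le⟩
  have hne : Nonempty {v : (𝓞 L)ˣ // 1 ≤ ‖F.s ((v : 𝓞 L) : L)‖ / ‖F.s (F.τ ((v : 𝓞 L) : L))‖ * 1 ∧
      ‖F.s ((v : 𝓞 L) : L)‖ / ‖F.s (F.τ ((v : 𝓞 L) : L))‖ * 1 < ‖F.s ((η : 𝓞 L) : L)‖ ^ 2} := by
    refine ⟨⟨1, ?_⟩⟩
    have e1 : (((1 : (𝓞 L)ˣ) : 𝓞 L) : L) = 1 := by
      rw [Units.val_one]
      exact map_one (algebraMap (𝓞 L) L)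
    rw [e1, map_one, map_one, norm_one, map_one, norm_one, div_one, one_mul]
    exact ⟨le_refl _, one_lt_pow₀ h1 two_ne_zero⟩
  exact Nat.card_pos

end Pool.Agent.H2S
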