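import Pool.Agent.Lib.H2S.JD

/-!
# H2S, chunk J03 (size M): bound for `ψ`

`j03_eps`: `ε` takes finitely many values: `ε x` depends only on `x` modulo `m` and `𝓞 L ⧸ m` is finite (`m ≠ ⊥`:
`Ideal.finiteQuotientOfFreeOfNeBot` or `Ring.HasFiniteQuotients`), so `Set.range ε` is finite (image of
`q ↦ ε (Quotient.out q)`), hence the norms are bounded by some `B`.  If `‖ε x‖ > 1` then `‖ε (x ^ k)‖ = ‖ε x‖ ^ k` is unbounded
(`tendsto_pow_atTop_atTop_of_one_lt` or `pow_unbounded_of_one_lt`; `ε (x ^ k) = ε x ^ k` by induction from `one`, `mul`): contradiction.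

`j03_abs`: `Ideal.absNorm_relNorm` (`Ideal.absNorm (Ideal.relNorm (𝓞 K) I) = Ideal.absNorm I`, look at its exact form in
`Mathlib/RingTheory/Ideal/Norm/RelNorm.lean`), `Ideal.relNorm_singleton`, `Fld.absNorm`; and `(Algebra.intNorm (𝓞 K) (𝓞 L) x : K) =
Algebra.norm K (x : L)` (`Algebra.algebraMap_intNorm`), `F.sK (Algebra.norm K x) = F.s x * F.s (F.τ x)` (`Fld.norm_eq`, definition of `sK`).
(Alternative: `Ideal.absNorm_span_singleton`, `Algebra.norm_norm`.)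

`j03`: for `a = ⊥` both sides are `0`.  Let `a ≠ ⊥`, `h = Fintype.card (ClassGroup (𝓞 L)) > 0`; `a ^ h` is principal, `= span {x}`
(`pow_card_eq_one`, `ClassGroup.mk0`, `ClassGroup.mk0_eq_one_iff`).  Then `ψ a ^ h = ψ (span {x}) = ε x * s (x * cc (τ x))` (`Psi.prin`), its norm
is `≤ ‖s x‖ * ‖s (τ x)‖` (`j03_eps Ψ.toChr Ψ.mne`; `s (cc y) = conj (s y)` by `Fld.cj`, `Complex.norm_conj`).  So
`(‖ψ a‖ ^ 2) ^ h ≤ (‖s x‖ * ‖s (τ x)‖) ^ 2 = absNorm (span {x}) = (absNorm a) ^ h` (`j03_abs`, `map_pow`), and `pow_le_pow_iff_left₀` gives the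
claim.
-/

set_option autoImplicit false
namespace Pool.Agent.H2S
open Complex NumberField

variable {K L : Type*} [Field K] [NumberField K] [Field L] [NumberField L] [Algebra K L]
  {F : Fld K L} {m : Ideal (𝓞 L)} {p : ℕ}

theorem j03_pow (χ : Chr F m) (x : 𝓞 L) (k : ℕ) : χ.ε (x ^ k) = χ.ε x ^ k := by
  induction k with
  | zero => rw [pow_zero, pow_zero, χ.one]
  | succ k ih => rw [pow_succ, pow_succ, χ.mul, ih]

theorem j03_bd (χ : Chr F m) (hm : m ≠ ⊥) : ∃ B : ℝ, ∀ x : 𝓞 L, ‖χ.ε x‖ ≤ B := by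
  have : Finite (𝓞 L ⧸ m) := Ideal.finiteQuotientOfFreeOfNeBot m hm
  have h1 : (Set.range fun q : 𝓞 L ⧸ m => ‖χ.ε (Quotient.out q)‖).Finite := Set.finite_range _
  obtain ⟨B, hB⟩ := h1.bddAbove
  refine ⟨B, fun x => ?_⟩
  have h2 : χ.ε x = χ.ε (Quotient.out (Ideal.Quotient.mk m x)) := by
    refine χ.per _ _ ?_
    rw [← Ideal.Quotient.eq]
    exact (Quotient.out_eq (Ideal.Quotient.mk m x)).symm
  rw [h2]
  exact hB (Set.mem_range_self (Ideal.Quotient.mk m x))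

theorem j03_eps (χ : Chr F m) (hm : m ≠ ⊥) (x : 𝓞 L) : ‖χ.ε x‖ ≤ 1 := by
  by_contra hx
  rw [not_le] at hx
  obtain ⟨B, hB⟩ := j03_bd χ hm
  obtain ⟨k, hk⟩ := pow_unbounded_of_one_lt B hx
  have h := hB (x ^ k)
  rw [j03_pow, norm_pow] at h
  exact absurd h (not_le.2 hk)

theorem j03_abs (F : Fld K L) (x : 𝓞 L) :
    (Ideal.absNorm (Ideal.span {x}) : ℝ) = (‖F.s (x : L)‖ * ‖F.s (F.τ (x : L))‖) ^ 2 := by
  have h := F.n3_norm (Algebra.norm K (x : L))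
  rw [Algebra.norm_norm] at h
  rw [Ideal.absNorm_span_singleton]
  have h2 : ‖(((Algebra.norm ℚ (x : L) : ℚ)) : ℂ)‖ = (‖F.s (x : L)‖ * ‖F.s (F.τ (x : L))‖) ^ 2 := by
    have h3 : F.sK (Algebra.norm K (x : L)) = F.s (x : L) * F.s (F.τ (x : L)) := by
      rw [Fld.sK, RingHom.comp_apply, F.norm_eq, map_mul]
    rw [h, norm_mul, RCLike.norm_conj, h3, norm_mul, pow_two]
  rw [← h2, ← Algebra.coe_norm_int]
  push_cast
  rw [Complex.norm_intCast, Nat.cast_natAbs]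
  push_cast
  rfl

theorem j03_prin (Ψ : Psi F m p) (x : 𝓞 L) : ‖Ψ.ψ (Ideal.span {x})‖ ^ 2 ≤ Ideal.absNorm (Ideal.span {x}) := by
  rw [j03_abs F, Ψ.prin]
  refine pow_le_pow_left₀ (norm_nonneg _) ?_ 2
  rw [norm_mul, map_mul, norm_mul, F.cj, RCLike.norm_conj]
  exact mul_le_of_le_one_left (by positivity) (j03_eps Ψ.toChr Ψ.mne x)

theorem j03 (Ψ : Psi F m p) (a : Ideal (𝓞 L)) : ‖Ψ.ψ a‖ ^ 2 ≤ Ideal.absNorm a := by
  classical
  rcases eq_or_ne a ⊥ with ha | ha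
  · subst ha
    have : Ψ.ψ ⊥ = 0 := map_zero Ψ.ψ
    rw [this]
    simp
  have hcard : Fintype.card (ClassGroup (𝓞 L)) ≠ 0 := Fintype.card_ne_zero
  set h := Fintype.card (ClassGroup (𝓞 L)) with hh
  have ha0 : a ∈ nonZeroDivisors (Ideal (𝓞 L)) := mem_nonZeroDivisors_iff_ne_zero.2 ha
  have h1 : ClassGroup.mk0 (⟨a, ha0⟩ ^ h : nonZeroDivisors (Ideal (𝓞 L))) = 1 := by
    rw [map_pow]
    exact pow_card_eq_one
  rw [ClassGroup.mk0_eq_one_iff] at h1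
  have h2 : Submodule.IsPrincipal (a ^ h) := by
    have e : (((⟨a, ha0⟩ : nonZeroDivisors (Ideal (𝓞 L))) ^ h : nonZeroDivisors (Ideal (𝓞 L))) : Ideal (𝓞 L)) = a ^ h := by
      rw [SubmonoidClass.coe_pow]
    rw [← e]
    exact h1
  obtain ⟨x, hx⟩ := h2.principal
  have h3 : a ^ h = Ideal.span {x} := hx
  have h4 := j03_prin Ψ x
  rw [← h3, map_pow, map_pow, norm_pow, Nat.cast_pow, pow_right_comm] at h4
  exact (pow_le_pow_iff_left₀ (by positivity) (Nat.cast_nonneg _) hcard).1 h4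

end Pool.Agent.H2S
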