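import Mathlib

/-!
# H2S, chunk J04 (size M, ONLY MATHLIB): `∑ N(a) ^ (-2)` over the ideals of a number field converges

PROOF.  Put `f n = Nat.card {I : Ideal (𝓞 M) // absNorm I = n}` (as a complex number).  `∑ k ∈ Icc 1 n, f k = O(n)`: see the proof of
`NumberField.tendsto_sub_one_mul_dedekindZeta_nhdsGT` in `Mathlib/NumberTheory/NumberField/DedekindZeta.lean`: there it is shown that
`(∑ k ∈ Icc 1 n, f k) / n` tends to a limit (from `NumberField.Ideal.tendsto_norm_le_div_atTop₀ M`); a convergent sequence is bounded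
(`Filter.Tendsto.isBigO_one`).  So `LSeriesSummable_of_sum_norm_bigO_and_nonneg` (`Mathlib/NumberTheory/LSeries/SumCoeff.lean`), with `r = 1`, `s = 2`,
gives `LSeriesSummable f 2`, that is `Summable fun n => LSeries.term f 2 n` with `term f 2 n = f n / n ^ 2` for `n ≠ 0` and `0` for `n = 0`.
Take norms: `Summable fun n => (f n : ℝ) * (n ^ 2)⁻¹` (real; for `n = 0` the value is `0`).
Then `Ideal (𝓞 M) ≃ Σ n, {I // absNorm I = n}` (`(Equiv.sigmaFiberEquiv Ideal.absNorm).symm`), the fibres are finite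
(`Ideal.finite_setOfPred_absNorm_eq`, used in the same proof; for `n = 0` the fibre is `{⊥}`), and `summable_sigma_of_nonneg`:
the sum over the fibre of `n` is `f n * (n ^ 2)⁻¹` (constant function on a finite type).
-/

set_option autoImplicit false
namespace Pool.Agent.H2S
open NumberField

theorem j04_tend (M : Type*) [Field M] [NumberField M] :
    Filter.Tendsto (fun n : ℕ => (∑ k ∈ Finset.Icc 1 n, (Nat.card {I : Ideal (𝓞 M) // Ideal.absNorm I = k} : ℝ)) / (n : ℝ) ^ (1 : ℝ))
      Filter.atTop (nhds (dedekindZeta_residue M)) := by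
  refine ((NumberField.Ideal.tendsto_norm_le_div_atTop₀ M).comp tendsto_natCast_atTop_atTop).congr fun n ↦ ?_
  simp only [Function.comp_apply, Nat.cast_le, ← Nat.cast_sum, Real.rpow_one]
  congr
  rw [← add_left_inj 1, ← Ideal.card_norm_le_eq_card_norm_le_add_one,
    show Finset.Icc 1 n = Finset.Ioc 0 n from Finset.Icc_succ_left_eq_Ioc _ _,
    show 1 = Nat.card {I : Ideal (𝓞 M) // Ideal.absNorm I = 0} by simp [Ideal.absNorm_eq_zero_iff],
    Finset.sum_Ioc_add_eq_sum_Icc (n.zero_le),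
    ← Finset.card_preimage_eq_sum_card_image_eq (fun k _ ↦ Ideal.finite_setOfPred_absNorm_eq k)]
  simp [Set.coe_eq_subtype]

theorem j04_sm (M : Type*) [Field M] [NumberField M] :
    Summable fun n : ℕ => (Nat.card {I : Ideal (𝓞 M) // Ideal.absNorm I = n} : ℝ) * ((n : ℝ) ^ 2)⁻¹ := by
  have h1 := Asymptotics.isBigO_atTop_natCast_rpow_of_tendsto_div_rpow (j04_tend M)
  have h2 := LSeriesSummable_of_sum_norm_bigO_and_nonneg (r := 1) (s := 2)
    (f := fun n => (Nat.card {I : Ideal (𝓞 M) // Ideal.absNorm I = n} : ℝ)) h1 (fun n => Nat.cast_nonneg _) zero_le_one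
    (by norm_num)
  have h3 := h2.norm
  refine h3.congr fun n => ?_
  rcases Nat.eq_zero_or_pos n with hn | hn
  · subst hn
    simp
  · rw [LSeries.term_of_ne_zero hn.ne']
    rw [norm_div]
    have e1 : ‖(n : ℂ) ^ (2 : ℂ)‖ = (n : ℝ) ^ 2 := by
      have : (n : ℂ) ^ (2 : ℂ) = (n : ℂ) ^ (2 : ℕ) := by
        exact_mod_cast Complex.cpow_natCast (n : ℂ) 2
      rw [this, norm_pow, Complex.norm_natCast]
    rw [e1, Complex.norm_real, Real.norm_of_nonneg (Nat.cast_nonneg _), div_eq_mul_inv]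

theorem j04 (M : Type*) [Field M] [NumberField M] :
    Summable fun a : Ideal (𝓞 M) => ((Ideal.absNorm a : ℝ) ^ 2)⁻¹ := by
  rw [← (Equiv.sigmaFiberEquiv (fun a : Ideal (𝓞 M) => Ideal.absNorm a)).summable_iff]
  rw [summable_sigma_of_nonneg (fun x => by simp only [Function.comp_apply]; positivity)]
  have hfin : ∀ n : ℕ, Finite {a : Ideal (𝓞 M) // Ideal.absNorm a = n} := fun n =>
    (Ideal.finite_setOfPred_absNorm_eq n).to_subtype
  refine ⟨fun n => ?_, ?_⟩
  · have := hfin n
    exact Summable.of_finite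
  · refine (j04_sm M).congr fun n => ?_
    have := hfin n
    have := Fintype.ofFinite {a : Ideal (𝓞 M) // Ideal.absNorm a = n}
    rw [tsum_fintype]
    have h : ∀ y : {a : Ideal (𝓞 M) // Ideal.absNorm a = n},
        ((fun a : Ideal (𝓞 M) => ((Ideal.absNorm a : ℝ) ^ 2)⁻¹) ∘
          (Equiv.sigmaFiberEquiv (fun a : Ideal (𝓞 M) => Ideal.absNorm a))) ⟨n, y⟩ = ((n : ℝ) ^ 2)⁻¹ := by
      intro y
      have e : (Equiv.sigmaFiberEquiv (fun a : Ideal (𝓞 M) => Ideal.absNorm a)) ⟨n, y⟩ = y.1 := rfl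
      rw [Function.comp_apply, e, y.2]
    rw [Finset.sum_congr rfl fun y _ => h y, Finset.sum_const, Finset.card_univ, nsmul_eq_mul,
      Nat.card_eq_fintype_card]

end Pool.Agent.H2S
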