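import Pool.Agent.Lib.H2S.T06

/-!
# H2S, chunk J05 (size S/M): bounds and scaling for `kap`

`j05a`: definition (integral of a nonnegative function, `MeasureTheory.integral_nonneg`/`setIntegral_nonneg`).
`j05b`: `exp (-y) ≤ 120 / y ^ 5` for `y > 0` (`Real.pow_div_factorial_le_exp (x) (hx : 0 ≤ x) (n) : x ^ n / n ! ≤ exp x` with `n = 5`,
`Real.exp_neg`), `y = c q`, so `q * exp (-(c q)) ≤ 120 / c ^ 5 * (q ^ 4)⁻¹`.
`j05c`: in `∫ exp (-((t / c) ^ 2 / (4 ρ)) - 16 π ^ 2 (c r) ^ 2 ρ) dρ` over `ρ > 0` substitute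
`ρ = σ / c ^ 2`: the exponent becomes `-(t ^ 2 / (4 σ)) - 16 π ^ 2 r ^ 2 σ`, `dρ = c ^ (-2) dσ`
(`MeasureTheory.integral_comp_mul_left_Ioi (g) (a) (hb : 0 < b) : ∫ x in Ioi a, g (b * x) = b⁻¹ • ∫ x in Ioi (b * a), g x` with `b = c ^ 2`);
or `t04` and `t02` with `j = 0`, `l = c ^ 2`: `JJ 0 (l * a) (b / l) = l ^ (-1) * JJ 0 a b`.
`j05d`: by `t06a`: `kap r t ≤ (8 π ^ 2 r ^ 2)⁻¹ * exp (-(2 π r t))`, and `(8 π ^ 2 r ^ 2)⁻¹ ≤ (r0 ^ 2)⁻¹` for `r ≥ r0 > 0`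
(`8 π ^ 2 ≥ 1`).
-/

set_option autoImplicit false
namespace Pool.Agent.H2S
open Complex MeasureTheory

theorem j05a (r t : ℝ) : 0 ≤ kap r t := by
  unfold kap
  exact setIntegral_nonneg measurableSet_Ioi fun s _ => (Real.exp_pos _).le

theorem j05b {c : ℝ} (hc : 0 < c) : ∃ C : ℝ, 0 < C ∧ ∀ q : ℝ, 0 < q → q * Real.exp (-(c * q)) ≤ C * (q ^ 4)⁻¹ := by
  refine ⟨120 / c ^ 5, by positivity, fun q hq => ?_⟩
  have h1 := Real.pow_div_factorial_le_exp (c * q) (by positivity) 5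
  have h2 : ((Nat.factorial 5 : ℕ) : ℝ) = 120 := by norm_num [Nat.factorial]
  rw [h2] at h1
  rw [Real.exp_neg]
  have h3 : (Real.exp (c * q))⁻¹ ≤ ((c * q) ^ 5 / 120)⁻¹ := inv_anti₀ (by positivity) h1
  refine (mul_le_mul_of_nonneg_left h3 hq.le).trans (le_of_eq ?_)
  field_simp

theorem j05c (r t : ℝ) {c : ℝ} (hc : 0 < c) : kap (c * r) (t / c) = (c ^ 2)⁻¹ * kap r t := by
  have hc2 : 0 < c ^ 2 := by positivity
  have h := t02 0 (16 * Real.pi ^ 2 * r ^ 2) (t ^ 2 / 4) hc2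
  rw [t04, t04]
  have e1 : 16 * Real.pi ^ 2 * (c * r) ^ 2 = c ^ 2 * (16 * Real.pi ^ 2 * r ^ 2) := by ring
  have e2 : (t / c) ^ 2 / 4 = t ^ 2 / 4 / c ^ 2 := by
    field_simp
  rw [e1, e2, h]
  have e3 : (c ^ 2) ^ (-(0 : ℤ) - 1) = (c ^ 2)⁻¹ := by
    have : (-(0 : ℤ) - 1) = -1 := by norm_num
    rw [this, zpow_neg_one]
  rw [e3]

theorem j05d {r0 r t : ℝ} (h0 : 0 < r0) (hr : r0 ≤ r) (ht : 0 < t) :
    kap r t ≤ (r0 ^ 2)⁻¹ * Real.exp (-(2 * Real.pi * r * t)) := by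
  have hr' : 0 < r := h0.trans_le hr
  refine (t06a hr' ht).trans (mul_le_mul_of_nonneg_right ?_ (Real.exp_pos _).le)
  have hp3 := Real.pi_gt_three
  refine inv_anti₀ (by positivity) ?_
  have h1 : r0 ^ 2 ≤ r ^ 2 := by nlinarith
  have h2 : 1 ≤ 8 * Real.pi ^ 2 := by nlinarith
  have h3 : 0 ≤ r ^ 2 := by positivity
  calc r0 ^ 2 ≤ r ^ 2 := h1
    _ ≤ (8 * Real.pi ^ 2) * r ^ 2 := le_mul_of_one_le_left h3 h2

end Pool.Agent.H2S
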