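import Pool.Agent.Lib.H2S.J03
import Pool.Agent.Lib.H2S.J04
import Pool.Agent.Lib.H2S.J05

/-!
# H2S, chunk J06 (size M): absolute convergence, sums over ideals of `𝓞 L` and over pairs

`j06_abs`: `absNorm a = absNorm (relNorm a)` (`Ideal.absNorm_relNorm`), `Fld.absNorm`.
`j06_ge`: `‖sK β‖ ^ 2 = absNorm (span {β})` (`Fld.absNorm`) is a positive integer (`Ideal.absNorm_eq_zero_iff`).
`j06`: with `N = absNorm a` (real), `q = √N`: for `a ≠ ⊥`: `N ≥ 1`, `‖ψ a‖ ≤ q` (`j03`, `Real.le_sqrt`), and by `j05b`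
`q * exp (-(c * q)) ≤ C * (q ^ 4)⁻¹ = C * (N ^ 2)⁻¹`; for `a = ⊥` the term is `0` (`ψ ⊥ = 0`: `map_zero`, `Ideal.zero_eq_bot`).
`Summable.of_nonneg_of_le` with `(j04 L).mul_left C`.
`j06_T`: `T` = pairs `(β, a)` with `β ≠ 0`, `relNorm a = span {β}`.  Choose for each ideal `n` of `𝓞 K` a generator `γ n`
(`F.pid : IsPrincipalIdealRing (𝓞 K)`; `Submodule.IsPrincipal.generator`, `Ideal.span_singleton_generator`).  For `(β, a) ∈ T` the elements `β`
and `γ (relNorm a)` are associated (`Ideal.span_singleton_eq_span_singleton`), so `β = γ (relNorm a) * u`, `u` a unit; the map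
`T → Ideal (𝓞 L) × (𝓞 K)ˣ`, `(β, a) ↦ (a, u)` (choose `u`) is injective.  The term of `(β, a)` is the term of `a` in `j06`
(`‖sK β‖ = √(absNorm a)` by `j06_abs`, `Real.sqrt_sq`), so the function on `T` is the composition of this
injective map with `(a, u) ↦ term of a`, and this is summable since `(𝓞 K)ˣ` is finite (`Fld.units_finite`):
e.g. `Summable.mul_of_nonneg` with the constant function `1` on the finite type, or `summable_prod_of_nonneg`; then
`Summable.comp_injective`.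
`j06_fin`: `absNorm a = absNorm (relNorm a) = absNorm n`, a subset of the finite set `Ideal.finite_setOfPred_absNorm_eq (absNorm n)`
(look at the exact name and form in `Mathlib/RingTheory/Ideal/Norm/AbsNorm.lean`).
-/

set_option autoImplicit false
namespace Pool.Agent.H2S
open Complex NumberField

variable {K L : Type*} [Field K] [NumberField K] [Field L] [NumberField L] [Algebra K L]
  {F : Fld K L} {m : Ideal (𝓞 L)} {p : ℕ}

theorem j06_abs (F : Fld K L) {β : 𝓞 K} {a : Ideal (𝓞 L)} (h : Ideal.relNorm (𝓞 K) a = Ideal.span {β}) :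
    (Ideal.absNorm a : ℝ) = ‖F.sK (β : K)‖ ^ 2 := by
  rw [← Ideal.absNorm_relNorm (R := 𝓞 K) (S := 𝓞 L) a, h, F.absNorm]

theorem j06_ge (F : Fld K L) {β : 𝓞 K} (h : β ≠ 0) : 1 ≤ ‖F.sK (β : K)‖ := by
  have h1 := F.absNorm β
  have h2 : Ideal.absNorm (Ideal.span {β}) ≠ 0 := by
    rw [Ne, Ideal.absNorm_eq_zero_iff, Ideal.span_singleton_eq_bot]
    exact h
  have h3 : (1 : ℝ) ≤ (Ideal.absNorm (Ideal.span {β}) : ℝ) := by
    exact_mod_cast Nat.one_le_iff_ne_zero.2 h2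
  rw [h1] at h3
  by_contra h4
  rw [not_le] at h4
  have h5 : ‖F.sK (β : K)‖ ^ 2 < 1 := by
    have h6 := norm_nonneg (F.sK (β : K))
    nlinarith
  linarith

theorem j06_fin {n : Ideal (𝓞 K)} (hn : n ≠ ⊥) : {a : Ideal (𝓞 L) | Ideal.relNorm (𝓞 K) a = n}.Finite := by
  refine (Ideal.finite_setOfPred_absNorm_eq (S := 𝓞 L) (Ideal.absNorm n)).subset fun a ha => ?_
  have h1 := Ideal.absNorm_relNorm (R := 𝓞 K) (S := 𝓞 L) a
  have h2 : Ideal.relNorm (𝓞 K) a = n := ha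
  rw [h2] at h1
  exact h1.symm

theorem j06 (Ψ : Psi F m p) {c : ℝ} (hc : 0 < c) :
    Summable fun a : Ideal (𝓞 L) => ‖Ψ.ψ a‖ * Real.exp (-(c * Real.sqrt (Ideal.absNorm a))) := by
  obtain ⟨C, hC, hCb⟩ := j05b hc
  refine Summable.of_nonneg_of_le (fun a => by positivity) (fun a => ?_) ((j04 L).mul_left C)
  by_cases ha : a = ⊥
  · have h1 : Ψ.ψ a = 0 := by
      rw [ha, ← Ideal.zero_eq_bot, map_zero]
    rw [h1, norm_zero, zero_mul]
    positivity
  · have hN0 : Ideal.absNorm a ≠ 0 := by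
      rw [Ne, Ideal.absNorm_eq_zero_iff]
      exact ha
    have hN : (0 : ℝ) < (Ideal.absNorm a : ℝ) := by
      exact_mod_cast Nat.pos_of_ne_zero hN0
    have hq : 0 < Real.sqrt (Ideal.absNorm a : ℝ) := Real.sqrt_pos.2 hN
    have h1 : ‖Ψ.ψ a‖ ≤ Real.sqrt (Ideal.absNorm a : ℝ) :=
      (Real.le_sqrt (norm_nonneg _) hN.le).2 (j03 Ψ a)
    have h2 := hCb _ hq
    have h3 : Real.sqrt (Ideal.absNorm a : ℝ) ^ 4 = (Ideal.absNorm a : ℝ) ^ 2 := by
      have h4 : Real.sqrt (Ideal.absNorm a : ℝ) ^ 2 = (Ideal.absNorm a : ℝ) := Real.sq_sqrt hN.le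
      calc Real.sqrt (Ideal.absNorm a : ℝ) ^ 4 = (Real.sqrt (Ideal.absNorm a : ℝ) ^ 2) ^ 2 := by ring
        _ = (Ideal.absNorm a : ℝ) ^ 2 := by rw [h4]
    rw [h3] at h2
    exact (mul_le_mul_of_nonneg_right h1 (Real.exp_pos _).le).trans h2

theorem j06_T (Ψ : Psi F m p) {c : ℝ} (hc : 0 < c) :
    Summable fun q : {q : 𝓞 K × Ideal (𝓞 L) // q.1 ≠ 0 ∧ Ideal.relNorm (𝓞 K) q.2 = Ideal.span {q.1}} =>
      ‖Ψ.ψ q.1.2‖ * Real.exp (-(c * ‖F.sK (q.1.1 : K)‖)) := by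
  have hpid := F.pid
  have hfin := F.units_finite
  have hu : ∀ q : {q : 𝓞 K × Ideal (𝓞 L) // q.1 ≠ 0 ∧ Ideal.relNorm (𝓞 K) q.2 = Ideal.span {q.1}},
      ∃ u : (𝓞 K)ˣ, Submodule.IsPrincipal.generator (Ideal.relNorm (𝓞 K) q.1.2) * (u : 𝓞 K) = q.1.1 := by
    intro q
    have h1 : Ideal.span {Submodule.IsPrincipal.generator (Ideal.relNorm (𝓞 K) q.1.2)} = Ideal.span {q.1.1} := by
      rw [Ideal.span_singleton_generator, q.2.2]
    exact Ideal.span_singleton_eq_span_singleton.1 h1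
  choose u hu using hu
  have h1 : Summable fun x : Ideal (𝓞 L) × (𝓞 K)ˣ =>
      (‖Ψ.ψ x.1‖ * Real.exp (-(c * Real.sqrt (Ideal.absNorm x.1)))) * (1 : ℝ) := by
    have h2 : Summable fun _ : (𝓞 K)ˣ => (1 : ℝ) := Summable.of_finite
    exact Summable.mul_of_nonneg (j06 Ψ hc) h2 (fun a => by positivity) (fun _ => zero_le_one)
  have hinj : Function.Injective
      (fun q : {q : 𝓞 K × Ideal (𝓞 L) // q.1 ≠ 0 ∧ Ideal.relNorm (𝓞 K) q.2 = Ideal.span {q.1}} =>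
        ((q.1.2, u q) : Ideal (𝓞 L) × (𝓞 K)ˣ)) := by
    intro q q' h
    have h3 : q.1.2 = q'.1.2 := congrArg Prod.fst h
    have h4 : u q = u q' := congrArg Prod.snd h
    apply Subtype.ext
    apply Prod.ext
    · rw [← hu q, ← hu q', h3, h4]
    · exact h3
  refine (h1.comp_injective hinj).congr fun q => ?_
  have h5 : Real.sqrt (Ideal.absNorm q.1.2 : ℝ) = ‖F.sK (q.1.1 : K)‖ := by
    rw [j06_abs F q.2.2, Real.sqrt_sq (norm_nonneg _)]
  show (‖Ψ.ψ q.1.2‖ * Real.exp (-(c * Real.sqrt (Ideal.absNorm q.1.2)))) * 1 = _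
  rw [mul_one, h5]

end Pool.Agent.H2S
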