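import Pool.Agent.Lib.H2S.J06

/-!
# H2S, chunk J07 (size M): `FF` as a series `Ks` with the condition `KS`

`j07_A`: `‖A n‖ ≤ ∑ ‖ψ a‖`: `Psi.A` is a `finsum` over a finite set (`j06_fin`): `finsum_mem_eq_finite_toFinset_sum`, `norm_sum_le`.
Here the right hand side is written as a `tsum` over the fibre (a finite type: `tsum_fintype`, `Finset.sum_coe_sort`-like or `Finset.sum_subtype`,
`finsum_mem_eq_finsum_subtype`-like `finsum_subtype_eq_finsum_cond`, `finsum_eq_sum_of_fintype`).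

`j07_KS`: `lb` with `δ' = 1 / ‖sK δ‖`: if `cf β ≠ 0` then `β ≠ 0`, `‖sK (β / δ)‖ = ‖sK β‖ / ‖sK δ‖ ≥ 1 / ‖sK δ‖` (`j06_ge`).
`sm`: given `c > 0`, put `c' = c / ‖sK δ‖`, so that `c * ‖sK (β / δ)‖ = c' * ‖sK β‖`.  By `j06_T` the function
`‖ψ a‖ * exp (-(c' * ‖sK β‖))` is summable over the type `T` of pairs, and `T ≃ Σ (β : {β // β ≠ 0}), {a // relNorm a = span {β}}`; `Summable.sigma`
(or `summable_sigma_of_nonneg`) gives that `β ↦ ∑' a, ‖ψ a‖ * exp (..) = (∑' a, ‖ψ a‖) * exp (..)` is summable over `{β // β ≠ 0}`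
(`tsum_mul_right`), compare with `j07_A`; finally extend by `0` from `{β // β ≠ 0}` to `𝓞 K` (`summable_subtype_iff_indicator`, or
`Function.Injective.summable_iff` with `Subtype.val_injective`).

`j07_Ks`: definitions: `V P w = eT (P.1 * w) * kap ‖w‖ P.2`, `w δ β P = kap ‖sK (β / δ)‖ P.2 * eT (P.1 * sK (β / δ))`
(`tsum_congr`, the case `β = 0` gives `0` on both sides).
-/

set_option autoImplicit false
namespace Pool.Agent.H2S
open Complex NumberField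

variable {K L : Type*} [Field K] [NumberField K] [Field L] [NumberField L] [Algebra K L]
  {F : Fld K L} {m : Ideal (𝓞 L)} {p : ℕ}

theorem j07_A (Ψ : Psi F m p) {n : Ideal (𝓞 K)} (hn : n ≠ ⊥) :
    ‖Ψ.A n‖ ≤ ∑' a : {a : Ideal (𝓞 L) // Ideal.relNorm (𝓞 K) a = n}, ‖Ψ.ψ a.1‖ := by
  classical
  have hfin : {a : Ideal (𝓞 L) | Ideal.relNorm (𝓞 K) a = n}.Finite := j06_fin hn
  have hfin' : Finite {a : Ideal (𝓞 L) // Ideal.relNorm (𝓞 K) a = n} := hfin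
  let _i : Fintype {a : Ideal (𝓞 L) // Ideal.relNorm (𝓞 K) a = n} := Fintype.ofFinite _
  rw [tsum_fintype]
  unfold Psi.A
  rw [finsum_mem_eq_finite_toFinset_sum _ hfin]
  refine (norm_sum_le _ _).trans (le_of_eq ?_)
  exact Finset.sum_subtype hfin.toFinset (fun a => by simp) (fun a => ‖Ψ.ψ a‖)

theorem j07_KS (Ψ : Psi F m p) {δ : 𝓞 K} (hδ : δ ≠ 0) : KS Ψ.cf (F.fr δ) := by
  classical
  have hd : (δ : K) ≠ 0 := fun h => hδ (RingOfIntegers.ext h)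
  have hn : 0 < ‖F.sK (δ : K)‖ := norm_pos_iff.2 ((map_ne_zero F.sK).2 hd)
  have hfr : ∀ β : 𝓞 K, ‖F.fr δ β‖ = ‖F.sK (β : K)‖ / ‖F.sK (δ : K)‖ := by
    intro β
    unfold Fld.fr
    rw [map_div₀, norm_div]
  have hcf : ∀ β : 𝓞 K, β ≠ 0 → Ψ.cf β = Ψ.A (Ideal.span {β}) := fun β h => by
    unfold Psi.cf
    rw [if_neg h]
  have hcf0 : Ψ.cf 0 = 0 := by
    unfold Psi.cf
    rw [if_pos rfl]
  constructor
  · refine ⟨1 / ‖F.sK (δ : K)‖, by positivity, fun β hβ => ?_⟩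
    have h0 : β ≠ 0 := by
      rintro rfl
      exact hβ hcf0
    rw [hfr]
    exact div_le_div_of_nonneg_right (j06_ge F h0) hn.le
  · intro c hc
    have hc' : 0 < c / ‖F.sK (δ : K)‖ := div_pos hc hn
    have hT := j06_T Ψ hc'
    let e : (Σ β : {β : 𝓞 K // β ≠ 0}, {a : Ideal (𝓞 L) // Ideal.relNorm (𝓞 K) a = Ideal.span {β.1}}) ≃
        {q : 𝓞 K × Ideal (𝓞 L) // q.1 ≠ 0 ∧ Ideal.relNorm (𝓞 K) q.2 = Ideal.span {q.1}} :=
      { toFun := fun x => ⟨(x.1.1, x.2.1), x.1.2, x.2.2⟩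
        invFun := fun q => ⟨⟨q.1.1, q.2.1⟩, ⟨q.1.2, q.2.2⟩⟩
        left_inv := fun x => rfl
        right_inv := fun q => rfl }
    have hS := (e.summable_iff.2 hT).sigma
    have h1 : Summable fun β : {β : 𝓞 K // β ≠ 0} => ‖Ψ.cf β.1‖ * Real.exp (-(c * ‖F.fr δ β.1‖)) := by
      refine Summable.of_nonneg_of_le (fun β => mul_nonneg (norm_nonneg _) (Real.exp_nonneg _)) (fun β => ?_) hS
      have e1 : ∀ a : {a : Ideal (𝓞 L) // Ideal.relNorm (𝓞 K) a = Ideal.span {β.1}},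
          ((fun q : {q : 𝓞 K × Ideal (𝓞 L) // q.1 ≠ 0 ∧ Ideal.relNorm (𝓞 K) q.2 = Ideal.span {q.1}} =>
            ‖Ψ.ψ q.1.2‖ * Real.exp (-(c / ‖F.sK (δ : K)‖ * ‖F.sK (q.1.1 : K)‖))) ∘ e) ⟨β, a⟩ =
          ‖Ψ.ψ a.1‖ * Real.exp (-(c * ‖F.fr δ β.1‖)) := by
        intro a
        show ‖Ψ.ψ a.1‖ * Real.exp (-(c / ‖F.sK (δ : K)‖ * ‖F.sK (β.1 : K)‖)) = _
        rw [hfr]
        congr 3
        ring
      rw [tsum_congr e1, tsum_mul_right, hcf _ β.2]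
      refine mul_le_mul_of_nonneg_right (j07_A Ψ ?_) (Real.exp_nonneg _)
      rw [Ne, Ideal.span_singleton_eq_bot]
      exact β.2
    refine (Function.Injective.summable_iff (f := fun β : 𝓞 K => ‖Ψ.cf β‖ * Real.exp (-(c * ‖F.fr δ β‖)))
      (Subtype.val_injective (p := fun β : 𝓞 K => β ≠ 0)) ?_).1 h1
    intro β hβ
    have h0 : β = 0 := by
      by_contra h
      exact hβ ⟨⟨β, h⟩, rfl⟩
    show ‖Ψ.cf β‖ * Real.exp (-(c * ‖F.fr δ β‖)) = 0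
    rw [h0, hcf0, norm_zero, zero_mul]

theorem j07_Ks (Ψ : Psi F m p) (δ : 𝓞 K) (P : ℂ × ℝ) : Ψ.FF δ P = Ks Ψ.cf (F.fr δ) P := by
  classical
  unfold Psi.FF Ks
  refine tsum_congr fun β => ?_
  by_cases h : β = 0
  · rw [if_pos h]
    unfold Psi.cf
    rw [if_pos h, zero_mul]
  · rw [if_neg h]
    unfold Psi.cf Fld.w V Fld.fr
    rw [if_neg h]
    ring

end Pool.Agent.H2S
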