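import Pool.Agent.Lib.H2S.J06

/-!
# H2S, chunk J08 (size M): `FF` as a sum over the ideals of `𝓞 L`

Let `T` be the type of the pairs `(β, a)` with `β ≠ 0`, `relNorm a = span {β}`, and `f (β, a) = ψ a * w δ β P`, `t = P.2 > 0`,
`d = ‖sK δ‖ > 0`.

`j08_w`: `‖w δ β P‖ = kap ‖sK (β / δ)‖ t` (`j05a`, `t06e`), `‖sK (β / δ)‖ = ‖sK β‖ / d ≥ 1 / d` (`j06_ge`); `j05d` with `r0 = 1 / d` gives
`≤ d ^ 2 * exp (-(c * ‖sK β‖))`, `c = 2 π t / d`.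

`j08_T`: by `j08_w`, `‖f (β, a)‖ ≤ d ^ 2 * (‖ψ a‖ * exp (-(c * ‖sK β‖)))`: `j06_T`.

`j08_FF`: `T ≃ Σ (β : {β // β ≠ 0}), {a // relNorm a = span {β}}`, so `∑' T f = ∑' β, ∑' a, f` (`Summable.tsum_sigma`,
`Equiv.tsum_eq`); the inner sum is over a finite type (`j06_fin`) and is `(∑ ψ a) * w δ β P = A (span {β}) * w δ β P`
(`tsum_fintype`, `Finset.sum_mul`, `Psi.A` is the same sum as a `finsum`); finally the sum over `{β // β ≠ 0}` is the sum over `𝓞 K` of the function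
which is `0` at `β = 0` (`tsum_subtype`, `Set.indicator`).

`j08_Om`: `T ≃ Σ a, {β // β ≠ 0 ∧ relNorm a = span {β}}`; for `a ≠ ⊥` the inner index type is equivalent to
`{β // span {β} = relNorm a}` (`relNorm a ≠ ⊥` by `Ideal.relNorm_eq_bot_iff`, so `β ≠ 0` is automatic), it is finite (all `β` are associated, the units
of `𝓞 K` are finite: `Fld.units_finite`; or it is the fibre of a summable function), so the inner sum is `ψ a * wg δ (relNorm a) P = Om δ P a`; for `a = ⊥` the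
inner index type is empty and `Om δ P ⊥ = 0` (`ψ ⊥ = 0`).  `Summable.sigma` for the summability (of the norms: the norm of the finite sum is
at most the sum of the norms), `Summable.tsum_sigma` for the sum.
-/

set_option autoImplicit false
namespace Pool.Agent.H2S
open Complex NumberField

variable {K L : Type*} [Field K] [NumberField K] [Field L] [NumberField L] [Algebra K L]
  {F : Fld K L} {m : Ideal (𝓞 L)} {p : ℕ}

theorem j08_fib {T B : Type*} {f : T → ℂ} (hf : Summable fun x => ‖f x‖) (π : T → B) :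
    (Summable fun b => ‖∑' x : {x // π x = b}, f x‖) ∧ ∑' x, f x = ∑' b, ∑' x : {x // π x = b}, f x := by
  have h1 : Summable (fun q : Σ b, {x // π x = b} => ‖f (Equiv.sigmaFiberEquiv π q)‖) :=
    (Equiv.sigmaFiberEquiv π).summable_iff.2 hf
  have h2 : Summable (fun q : Σ b, {x // π x = b} => f (Equiv.sigmaFiberEquiv π q)) := h1.of_norm
  constructor
  · have h3 := h1.sigma
    refine Summable.of_nonneg_of_le (fun b => norm_nonneg _) (fun b => ?_) h3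
    have h4 : Summable fun x : {x // π x = b} => ‖f x‖ := h1.sigma_factor b
    exact norm_tsum_le_tsum_norm h4
  · rw [← (Equiv.sigmaFiberEquiv π).tsum_eq f, h2.tsum_sigma]
    rfl

theorem j08_kap (F : Fld K L) {δ : 𝓞 K} {P : ℂ × ℝ} {β : 𝓞 K} :
    ‖F.w δ β P‖ = kap (‖F.sK (β : K)‖ / ‖F.sK (δ : K)‖) P.2 := by
  unfold Fld.w
  rw [norm_mul, t06e, mul_one, Complex.norm_real, Real.norm_eq_abs, abs_of_nonneg (j05a _ _), map_div₀, norm_div]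

theorem j08_w (F : Fld K L) {δ : 𝓞 K} (hδ : δ ≠ 0) {P : ℂ × ℝ} (hP : P ∈ H3) {β : 𝓞 K} (hβ : β ≠ 0) :
    ‖F.w δ β P‖ ≤ ‖F.sK (δ : K)‖ ^ 2 * Real.exp (-(2 * Real.pi * P.2 / ‖F.sK (δ : K)‖ * ‖F.sK (β : K)‖)) := by
  have hP' : 0 < P.2 := hP
  have hd : 1 ≤ ‖F.sK (δ : K)‖ := j06_ge F hδ
  have hd0 : 0 < ‖F.sK (δ : K)‖ := lt_of_lt_of_le one_pos hd
  have hb : 1 ≤ ‖F.sK (β : K)‖ := j06_ge F hβ
  have h5 : kap (‖F.sK (β : K)‖ / ‖F.sK (δ : K)‖) P.2 ≤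
      ((1 / ‖F.sK (δ : K)‖) ^ 2)⁻¹ * Real.exp (-(2 * Real.pi * (‖F.sK (β : K)‖ / ‖F.sK (δ : K)‖) * P.2)) :=
    j05d (by positivity) (div_le_div_of_nonneg_right hb hd0.le) hP'
  have h6 : ((1 / ‖F.sK (δ : K)‖) ^ 2)⁻¹ = ‖F.sK (δ : K)‖ ^ 2 := by
    field_simp
  have h8 : 2 * Real.pi * (‖F.sK (β : K)‖ / ‖F.sK (δ : K)‖) * P.2 =
      2 * Real.pi * P.2 / ‖F.sK (δ : K)‖ * ‖F.sK (β : K)‖ := by
    ring
  rw [h6, h8] at h5
  rw [j08_kap]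
  exact h5

theorem j08_T (Ψ : Psi F m p) {δ : 𝓞 K} (hδ : δ ≠ 0) {P : ℂ × ℝ} (hP : P ∈ H3) :
    Summable fun q : {q : 𝓞 K × Ideal (𝓞 L) // q.1 ≠ 0 ∧ Ideal.relNorm (𝓞 K) q.2 = Ideal.span {q.1}} =>
      ‖Ψ.ψ q.1.2 * F.w δ q.1.1 P‖ := by
  have hP' : 0 < P.2 := hP
  have hd : 1 ≤ ‖F.sK (δ : K)‖ := j06_ge F hδ
  have hd0 : 0 < ‖F.sK (δ : K)‖ := lt_of_lt_of_le one_pos hd
  have hc : 0 < 2 * Real.pi * P.2 / ‖F.sK (δ : K)‖ := by
    have := Real.pi_pos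
    positivity
  refine Summable.of_nonneg_of_le (fun q => norm_nonneg _) (fun q => ?_)
    ((j06_T Ψ hc).mul_left (‖F.sK (δ : K)‖ ^ 2))
  rw [norm_mul]
  refine (mul_le_mul_of_nonneg_left (j08_w F hδ hP q.2.1) (norm_nonneg _)).trans (le_of_eq ?_)
  ring

theorem j08_FF (Ψ : Psi F m p) {δ : 𝓞 K} (hδ : δ ≠ 0) {P : ℂ × ℝ} (hP : P ∈ H3) :
    Ψ.FF δ P = ∑' q : {q : 𝓞 K × Ideal (𝓞 L) // q.1 ≠ 0 ∧ Ideal.relNorm (𝓞 K) q.2 = Ideal.span {q.1}},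
      Ψ.ψ q.1.2 * F.w δ q.1.1 P := by
  rw [(j08_fib (j08_T Ψ hδ hP) (fun q => q.1.1)).2]
  unfold Psi.FF
  refine tsum_congr fun β => ?_
  by_cases hβ : β = 0
  · rw [if_pos hβ]
    have : IsEmpty {x : {q : 𝓞 K × Ideal (𝓞 L) // q.1 ≠ 0 ∧ Ideal.relNorm (𝓞 K) q.2 = Ideal.span {q.1}} //
        x.1.1 = β} := ⟨fun x => x.1.2.1 (x.2.trans hβ)⟩
    rw [tsum_empty]
  · rw [if_neg hβ]
    have hs : Ideal.span {β} ≠ ⊥ := fun h => hβ (Ideal.span_singleton_eq_bot.1 h)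
    have hfin : Finite {a : Ideal (𝓞 L) | Ideal.relNorm (𝓞 K) a = Ideal.span {β}} := (j06_fin hs).to_subtype
    have hinj : Function.Injective (fun x : {x : {q : 𝓞 K × Ideal (𝓞 L) //
        q.1 ≠ 0 ∧ Ideal.relNorm (𝓞 K) q.2 = Ideal.span {q.1}} // x.1.1 = β} =>
        (⟨x.1.1.2, by
          have h1 := x.1.2.2
          rw [x.2] at h1
          exact h1⟩ : {a : Ideal (𝓞 L) | Ideal.relNorm (𝓞 K) a = Ideal.span {β}})) := by
      intro x y hxy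
      have h1 : x.1.1.2 = y.1.1.2 := congrArg Subtype.val hxy
      exact Subtype.ext (Subtype.ext (Prod.ext (x.2.trans y.2.symm) h1))
    have hfin2 : Finite {x : {q : 𝓞 K × Ideal (𝓞 L) //
        q.1 ≠ 0 ∧ Ideal.relNorm (𝓞 K) q.2 = Ideal.span {q.1}} // x.1.1 = β} := Finite.of_injective _ hinj
    rw [tsum_eq_finsum (Set.toFinite _)]
    have h2 : ∀ x : {x : {q : 𝓞 K × Ideal (𝓞 L) //
        q.1 ≠ 0 ∧ Ideal.relNorm (𝓞 K) q.2 = Ideal.span {q.1}} // x.1.1 = β},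
        Ψ.ψ x.1.1.2 * F.w δ x.1.1.1 P = Ψ.ψ x.1.1.2 * F.w δ β P := fun x => by rw [x.2]
    rw [finsum_congr h2, ← finsum_mul]
    congr 1
    unfold Psi.A
    rw [← finsum_set_coe_eq_finsum_mem]
    symm
    refine finsum_eq_of_bijective _ ⟨hinj, ?_⟩ (fun x => rfl)
    rintro ⟨a, ha⟩
    exact ⟨⟨⟨(β, a), hβ, ha⟩, rfl⟩, rfl⟩

theorem j08_gen (F : Fld K L) (n : Ideal (𝓞 K)) : Finite {β : 𝓞 K // Ideal.span {β} = n} := by
  have := F.units_finite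
  rcases isEmpty_or_nonempty {β : 𝓞 K // Ideal.span {β} = n} with h | ⟨⟨β0, h0⟩⟩
  · infer_instance
  · refine Finite.of_surjective (fun u : (𝓞 K)ˣ => (⟨β0 * u, by
      rw [Ideal.span_singleton_mul_right_unit u.isUnit, h0]⟩ : {β : 𝓞 K // Ideal.span {β} = n})) ?_
    rintro ⟨β, h⟩
    obtain ⟨u, hu⟩ := Ideal.span_singleton_eq_span_singleton.1 (h0.trans h.symm)
    exact ⟨u, Subtype.ext hu⟩

theorem j08_sum (Ψ : Psi F m p) (δ : 𝓞 K) (P : ℂ × ℝ) (a : Ideal (𝓞 L)) :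
    ∑' x : {x : {q : 𝓞 K × Ideal (𝓞 L) // q.1 ≠ 0 ∧ Ideal.relNorm (𝓞 K) q.2 = Ideal.span {q.1}} //
      x.1.2 = a}, Ψ.ψ x.1.1.2 * F.w δ x.1.1.1 P = Ψ.Om δ P a := by
  by_cases ha : a = ⊥
  · have : IsEmpty {x : {q : 𝓞 K × Ideal (𝓞 L) // q.1 ≠ 0 ∧ Ideal.relNorm (𝓞 K) q.2 = Ideal.span {q.1}} //
        x.1.2 = a} := ⟨fun x => x.1.2.1 (by
          have h1 := x.1.2.2
          have h2 : x.1.1.2 = ⊥ := x.2.trans ha
          rw [h2, Ideal.relNorm_bot] at h1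
          exact Ideal.span_singleton_eq_bot.1 h1.symm)⟩
    rw [tsum_empty, Psi.Om, ha, ← Ideal.zero_eq_bot, map_zero, zero_mul]
  · have hfin := j08_gen F (Ideal.relNorm (𝓞 K) a)
    have hinj : Function.Injective (fun x : {x : {q : 𝓞 K × Ideal (𝓞 L) //
        q.1 ≠ 0 ∧ Ideal.relNorm (𝓞 K) q.2 = Ideal.span {q.1}} // x.1.2 = a} =>
        (⟨x.1.1.1, by
          have h1 := x.1.2.2
          rw [x.2] at h1
          exact h1.symm⟩ : {β : 𝓞 K // Ideal.span {β} = Ideal.relNorm (𝓞 K) a})) := by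
      intro x y hxy
      have h1 : x.1.1.1 = y.1.1.1 := congrArg Subtype.val hxy
      exact Subtype.ext (Subtype.ext (Prod.ext h1 (x.2.trans y.2.symm)))
    have hfin2 : Finite {x : {q : 𝓞 K × Ideal (𝓞 L) //
        q.1 ≠ 0 ∧ Ideal.relNorm (𝓞 K) q.2 = Ideal.span {q.1}} // x.1.2 = a} := Finite.of_injective _ hinj
    rw [tsum_eq_finsum (Set.toFinite _)]
    have h2 : ∀ x : {x : {q : 𝓞 K × Ideal (𝓞 L) //
        q.1 ≠ 0 ∧ Ideal.relNorm (𝓞 K) q.2 = Ideal.span {q.1}} // x.1.2 = a},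
        Ψ.ψ x.1.1.2 * F.w δ x.1.1.1 P = Ψ.ψ a * F.w δ x.1.1.1 P := fun x => by rw [x.2]
    rw [finsum_congr h2, ← mul_finsum, Psi.Om]
    congr 1
    unfold Fld.wg
    refine finsum_eq_of_bijective _ ⟨hinj, ?_⟩ (fun x => rfl)
    rintro ⟨β, hβ⟩
    have hβ0 : β ≠ 0 := by
      rintro rfl
      apply ha
      rw [← Ideal.relNorm_eq_bot_iff (R := 𝓞 K), ← hβ]
      exact Ideal.span_singleton_eq_bot.2 rfl
    exact ⟨⟨⟨(β, a), hβ0, hβ.symm⟩, rfl⟩, rfl⟩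

theorem j08_Om (Ψ : Psi F m p) {δ : 𝓞 K} (hδ : δ ≠ 0) {P : ℂ × ℝ} (hP : P ∈ H3) :
    (Summable fun a => ‖Ψ.Om δ P a‖) ∧
      ∑' q : {q : 𝓞 K × Ideal (𝓞 L) // q.1 ≠ 0 ∧ Ideal.relNorm (𝓞 K) q.2 = Ideal.span {q.1}},
        Ψ.ψ q.1.2 * F.w δ q.1.1 P = ∑' a, Ψ.Om δ P a := by
  obtain ⟨h1, h2⟩ := j08_fib (j08_T Ψ hδ hP) (fun q => q.1.2)
  have h3 : ∀ a, ∑' x : {x : {q : 𝓞 K × Ideal (𝓞 L) // q.1 ≠ 0 ∧ Ideal.relNorm (𝓞 K) q.2 = Ideal.span {q.1}} //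
      x.1.2 = a}, Ψ.ψ x.1.1.2 * F.w δ x.1.1.1 P = Ψ.Om δ P a := fun a => j08_sum Ψ δ P a
  constructor
  · refine h1.congr fun a => ?_
    rw [← h3 a]
  · rw [h2]
    exact tsum_congr h3

end Pool.Agent.H2S
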