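import Pool.Agent.Lib.H2S.J05
import Pool.Agent.Lib.H2S.J06

/-!
# H2S, chunk J09 (size M): the terms of the theta integrals

`j09_wg`: the generators of `span {β}` are exactly the `u * β`, `u` a unit (`Ideal.span_singleton_eq_span_singleton`, associated elements), and `u ↦ u * β` is
injective (`β ≠ 0`): `finsum_comp_equiv`-like: `finsum_eq_of_bijective`, with the bijection `(𝓞 K)ˣ → {β' // span {β'} = span {β}}`.

`j09_gen`: `relNorm (span {x}) = span {intNorm x}` (`Ideal.relNorm_singleton`) `= relNorm a * relNorm D.b = relNorm a * span {D.n}` (`map_mul`,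
`D.norm`).  Let `relNorm a = span {β0}` (`F.pid`).  So `intNorm x` and `β0 * D.n` are associated (`Ideal.span_singleton_mul_span_singleton`,
`Ideal.span_singleton_eq_span_singleton`): `intNorm x = β * D.n` with `β = β0 * u`, `span {β} = span {β0}`.  `β ≠ 0` since `x ≠ 0`
(`Algebra.intNorm_ne_zero` or through `Algebra.norm_ne_zero_iff`).  And `(intNorm x : K) = Algebra.norm K (x : L)` (`Algebra.algebraMap_intNorm`), so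
`D.ν * Algebra.norm K (x : L) = (D.n * D.δ)⁻¹ * (β * D.n) = β / D.δ` (`field_simp`).

`j09_W`: with `β` as in `j09_gen`, `y = io ν x`: `y.1 * y.2 = sK (ν * norm x) = sK (β / δ)` (`Fld.io_mul`).  `W (sK u * P.1, P.2) y =
4 π y.1 conj (y.2) eT (sK u * P.1 * (y.1 * y.2)) kap ‖y.1 * y.2‖ P.2`, `sK u * P.1 * sK (β / δ) = P.1 * sK ((u * β) / δ)`,
`‖sK ((u * β) / δ)‖ = ‖sK (β / δ)‖` (`Fld.norm_unit`), `y.1 = sK ν * s x` (definition of `io`, `map_mul`), `y.2 = s (τ x)`.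

`j09_term`: `phb x = ε x` (`phb_mem`), `ψ (span {x}) = ε x * s (x * cc (τ x)) = ε x * s x * conj (s (τ x))` (`Psi.prin`, `map_mul`, `Fld.cj`),
`ψ (span {x}) = ψ a * ψ D.b` (`map_mul`, `hx`).  Sum `j09_W` over `u` (a finite type, `Fld.units_finite`: `finsum_eq_sum_of_fintype`,
`Finset.mul_sum`) and use `j09_wg`, the definition of `Om`, `relNorm a = span {β}`.

`j09_norm`: for one `u`: `‖phb x * W ..‖ = ‖4 π sK ν ψ (D.b)‖ * ‖ψ a‖ * kap ‖sK (β / δ)‖ P.2` (as in `j09_term`; `t06e`, `j05a`), and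
`‖sK (β / δ)‖ = ‖sK β‖ / ‖sK δ‖ ≥ 1 / ‖sK δ‖`; `j05d` with `r0 = 1 / ‖sK δ‖`, `‖sK β‖ = √(absNorm a)` (`j06_abs`, `Real.sqrt_sq`).
-/

set_option autoImplicit false
namespace Pool.Agent.H2S
open Complex NumberField

variable {K L : Type*} [Field K] [NumberField K] [Field L] [NumberField L] [Algebra K L]
  {F : Fld K L} {m : Ideal (𝓞 L)} {p : ℕ}

theorem j09_wg (F : Fld K L) (δ : 𝓞 K) {β : 𝓞 K} (hβ : β ≠ 0) (P : ℂ × ℝ) :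
    F.wg δ (Ideal.span {β}) P = ∑ᶠ u : (𝓞 K)ˣ, F.w δ ((u : 𝓞 K) * β) P := by
  unfold Fld.wg
  symm
  refine finsum_eq_of_bijective
    (fun u : (𝓞 K)ˣ => (⟨(u : 𝓞 K) * β, Ideal.span_singleton_mul_left_unit u.isUnit β⟩ :
      {β' : 𝓞 K // Ideal.span {β'} = Ideal.span {β}})) ⟨?_, ?_⟩ (fun u => rfl)
  · intro u v huv
    have h1 : (u : 𝓞 K) * β = (v : 𝓞 K) * β := congrArg Subtype.val huv
    exact Units.ext (mul_right_cancel₀ hβ h1)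
  · rintro ⟨β', h⟩
    obtain ⟨u, hu⟩ := Ideal.span_singleton_eq_span_singleton.1 h.symm
    refine ⟨u, Subtype.ext ?_⟩
    change (u : 𝓞 K) * β = β'
    rw [mul_comm]
    exact hu

theorem j09_int (x : 𝓞 L) :
    ((Algebra.intNorm (𝓞 K) (𝓞 L) x : 𝓞 K) : K) = Algebra.norm K (x : L) :=
  Algebra.algebraMap_intNorm (K := K) (L := L) x

theorem j09_gen (D : Lat F) {x : 𝓞 L} (hx0 : x ≠ 0) {a : Ideal (𝓞 L)} (hx : Ideal.span {x} = a * D.b) :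
    ∃ β : 𝓞 K, β ≠ 0 ∧ Ideal.relNorm (𝓞 K) a = Ideal.span {β} ∧
      D.ν * Algebra.norm K (x : L) = (β : K) / (D.δ : K) := by
  have h1 : Ideal.relNorm (𝓞 K) (Ideal.span {x}) = Ideal.span {Algebra.intNorm (𝓞 K) (𝓞 L) x} :=
    Ideal.relNorm_singleton (𝓞 K) x
  rw [hx, map_mul, D.norm] at h1
  obtain ⟨β0, hβ0⟩ := (F.pid.principal (Ideal.relNorm (𝓞 K) a)).principal
  have hβ0' : Ideal.relNorm (𝓞 K) a = Ideal.span {β0} := hβ0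
  rw [hβ0', Ideal.span_singleton_mul_span_singleton] at h1
  obtain ⟨u, hu⟩ := Ideal.span_singleton_eq_span_singleton.1 h1
  have h2 : Algebra.intNorm (𝓞 K) (𝓞 L) x = β0 * u * D.n := by
    rw [← hu]
    ring
  have h3 : Algebra.norm K (x : L) = ((β0 * u : 𝓞 K) : K) * (D.n : K) := by
    rw [← j09_int, h2]
    exact map_mul _ _ _
  refine ⟨β0 * u, ?_, ?_, ?_⟩
  · intro h4
    rw [h4] at h3
    have h5 : Algebra.norm K (x : L) = 0 := by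
      rw [h3]
      simp
    rw [Algebra.norm_eq_zero_iff] at h5
    exact hx0 (RingOfIntegers.ext h5)
  · rw [hβ0', Ideal.span_singleton_mul_right_unit u.isUnit]
  · have hn : (D.n : K) ≠ 0 := fun h => D.nne (RingOfIntegers.ext h)
    have hd : (D.δ : K) ≠ 0 := fun h => D.δne (RingOfIntegers.ext h)
    rw [h3, Lat.ν]
    field_simp

theorem j09_W (D : Lat F) {x : 𝓞 L} {β : 𝓞 K} (h : D.ν * Algebra.norm K (x : L) = (β : K) / (D.δ : K))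
    (P : ℂ × ℝ) (u : (𝓞 K)ˣ) :
    W (F.sK ((u : 𝓞 K) : K) * P.1, P.2) (F.io D.ν (x : L)) =
      4 * Real.pi * F.sK D.ν * (F.s (x : L) * (starRingEnd ℂ) (F.s (F.τ (x : L)))) * F.w D.δ ((u : 𝓞 K) * β) P := by
  have h1 := F.io_mul D.ν (x : L)
  rw [h] at h1
  have h2 : (((u : 𝓞 K) * β : 𝓞 K) : K) / (D.δ : K) = ((u : 𝓞 K) : K) * ((β : K) / (D.δ : K)) := by
    have e : (((u : 𝓞 K) * β : 𝓞 K) : K) = ((u : 𝓞 K) : K) * (β : K) := map_mul (algebraMap (𝓞 K) K) _ _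
    rw [e]
    ring
  unfold W Fld.w
  simp only
  rw [h1, h2, map_mul, norm_mul, F.norm_unit, one_mul]
  have h3 : (F.io D.ν (x : L)).1 = F.sK D.ν * F.s (x : L) := by
    simp only [Fld.io, Fld.sK, RingHom.comp_apply, map_mul]
  have h4 : (F.io D.ν (x : L)).2 = F.s (F.τ (x : L)) := rfl
  rw [h3, h4]
  have h5 : F.sK ((u : 𝓞 K) : K) * P.1 * F.sK ((β : K) / (D.δ : K)) =
      P.1 * (F.sK ((u : 𝓞 K) : K) * F.sK ((β : K) / (D.δ : K))) := by ring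
  rw [h5]
  ring

theorem j09_phb (Ψ : Psi F m p) (D : Lat F) {x : 𝓞 L} {a : Ideal (𝓞 L)}
    (hx : Ideal.span {x} = a * D.b) : phb Ψ.toChr D.b (x : L) = Ψ.ε x := by
  have h1 : Ideal.span {x} ≤ D.b := hx.le.trans Ideal.mul_le_right
  exact phb_mem Ψ.toChr D.b (h1 (Ideal.mem_span_singleton_self x))

theorem j09_psi (Ψ : Psi F m p) (D : Lat F) {x : 𝓞 L} {a : Ideal (𝓞 L)}
    (hx : Ideal.span {x} = a * D.b) :
    Ψ.ε x * (F.s (x : L) * (starRingEnd ℂ) (F.s (F.τ (x : L)))) = Ψ.ψ a * Ψ.ψ D.b := by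
  rw [← map_mul, ← hx, Ψ.prin, map_mul, F.cj]

theorem j09_one (Ψ : Psi F m p) (D : Lat F) {x : 𝓞 L} {a : Ideal (𝓞 L)}
    (hx : Ideal.span {x} = a * D.b) {β : 𝓞 K} (h : D.ν * Algebra.norm K (x : L) = (β : K) / (D.δ : K))
    (P : ℂ × ℝ) (u : (𝓞 K)ˣ) :
    phb Ψ.toChr D.b (x : L) * W (F.sK ((u : 𝓞 K) : K) * P.1, P.2) (F.io D.ν (x : L)) =
      4 * Real.pi * F.sK D.ν * Ψ.ψ D.b * Ψ.ψ a * F.w D.δ ((u : 𝓞 K) * β) P := by
  rw [j09_phb Ψ D hx, j09_W D h]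
  linear_combination (4 * Real.pi * F.sK D.ν * F.w D.δ ((u : 𝓞 K) * β) P) * j09_psi Ψ D hx

theorem j09_term (Ψ : Psi F m p) (D : Lat F) {x : 𝓞 L} (hx0 : x ≠ 0) {a : Ideal (𝓞 L)}
    (hx : Ideal.span {x} = a * D.b) (P : ℂ × ℝ) :
    ∑ᶠ u : (𝓞 K)ˣ, phb Ψ.toChr D.b (x : L) * W (F.sK ((u : 𝓞 K) : K) * P.1, P.2) (F.io D.ν (x : L)) =
      4 * Real.pi * F.sK D.ν * Ψ.ψ D.b * Ψ.Om D.δ P a := by
  obtain ⟨β, hβ, hn, h⟩ := j09_gen D hx0 hx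
  have hfin := F.units_finite
  have h1 : ∀ u : (𝓞 K)ˣ, phb Ψ.toChr D.b (x : L) * W (F.sK ((u : 𝓞 K) : K) * P.1, P.2) (F.io D.ν (x : L)) =
      4 * Real.pi * F.sK D.ν * Ψ.ψ D.b * Ψ.ψ a * F.w D.δ ((u : 𝓞 K) * β) P := fun u => j09_one Ψ D hx h P u
  rw [finsum_congr h1, ← mul_finsum, ← j09_wg F D.δ hβ P, Psi.Om, hn]
  ring

theorem j09_norm (Ψ : Psi F m p) (D : Lat F) {x : 𝓞 L} (hx0 : x ≠ 0) {a : Ideal (𝓞 L)}
    (hx : Ideal.span {x} = a * D.b) {P : ℂ × ℝ} (hP : P ∈ H3) (u : (𝓞 K)ˣ) :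
    ‖phb Ψ.toChr D.b (x : L) * W (F.sK ((u : 𝓞 K) : K) * P.1, P.2) (F.io D.ν (x : L))‖ ≤
      ‖4 * Real.pi * F.sK D.ν * Ψ.ψ D.b‖ * ‖F.sK (D.δ : K)‖ ^ 2 *
        (‖Ψ.ψ a‖ * Real.exp (-(2 * Real.pi * P.2 / ‖F.sK (D.δ : K)‖ * Real.sqrt (Ideal.absNorm a)))) := by
  obtain ⟨β, hβ, hn, h⟩ := j09_gen D hx0 hx
  have hP' : 0 < P.2 := hP
  have hd : 1 ≤ ‖F.sK (D.δ : K)‖ := j06_ge F D.δne
  have hd0 : 0 < ‖F.sK (D.δ : K)‖ := lt_of_lt_of_le one_pos hd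
  have hb : 1 ≤ ‖F.sK (β : K)‖ := j06_ge F hβ
  rw [j09_one Ψ D hx h P u, norm_mul, norm_mul (4 * Real.pi * F.sK D.ν * Ψ.ψ D.b)]
  have h2 : (((u : 𝓞 K) * β : 𝓞 K) : K) / (D.δ : K) = ((u : 𝓞 K) : K) * ((β : K) / (D.δ : K)) := by
    have e : (((u : 𝓞 K) * β : 𝓞 K) : K) = ((u : 𝓞 K) : K) * (β : K) := map_mul (algebraMap (𝓞 K) K) _ _
    rw [e]
    ring
  have h3 : ‖F.sK ((((u : 𝓞 K) * β : 𝓞 K) : K) / (D.δ : K))‖ = ‖F.sK (β : K)‖ / ‖F.sK (D.δ : K)‖ := by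
    rw [h2, map_mul, norm_mul, F.norm_unit, one_mul, map_div₀, norm_div]
  have h4 : ‖F.w D.δ ((u : 𝓞 K) * β) P‖ = kap (‖F.sK (β : K)‖ / ‖F.sK (D.δ : K)‖) P.2 := by
    unfold Fld.w
    rw [norm_mul, t06e, mul_one, Complex.norm_real, Real.norm_eq_abs, abs_of_nonneg (j05a _ _), h3]
  have h5 : kap (‖F.sK (β : K)‖ / ‖F.sK (D.δ : K)‖) P.2 ≤
      ((1 / ‖F.sK (D.δ : K)‖) ^ 2)⁻¹ * Real.exp (-(2 * Real.pi * (‖F.sK (β : K)‖ / ‖F.sK (D.δ : K)‖) * P.2)) :=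
    j05d (by positivity) (div_le_div_of_nonneg_right hb hd0.le) hP'
  have h6 : ((1 / ‖F.sK (D.δ : K)‖) ^ 2)⁻¹ = ‖F.sK (D.δ : K)‖ ^ 2 := by
    field_simp
  have h7 : Real.sqrt (Ideal.absNorm a) = ‖F.sK (β : K)‖ := by
    rw [j06_abs F hn, Real.sqrt_sq (norm_nonneg _)]
  have h8 : 2 * Real.pi * (‖F.sK (β : K)‖ / ‖F.sK (D.δ : K)‖) * P.2 =
      2 * Real.pi * P.2 / ‖F.sK (D.δ : K)‖ * ‖F.sK (β : K)‖ := by
    ring
  rw [h6, h8] at h5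
  rw [h4, h7]
  have h9 : 0 ≤ ‖4 * Real.pi * F.sK D.ν * Ψ.ψ D.b‖ * ‖Ψ.ψ a‖ := by positivity
  have h10 := mul_le_mul_of_nonneg_left h5 h9
  calc ‖4 * Real.pi * F.sK D.ν * Ψ.ψ D.b‖ * ‖Ψ.ψ a‖ * kap (‖F.sK (β : K)‖ / ‖F.sK (D.δ : K)‖) P.2 ≤ _ := h10
    _ = _ := by ring

end Pool.Agent.H2S
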