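import Pool.Agent.Lib.H2S.J02

/-!
# H2S, chunk J10 (size M): points of an ideal `b` in the fundamental domain and ideals `a` with `a b` principal

Write `X` for the type `{x : 𝓞 L // x ≠ 0 ∧ x ∈ b ∧ io ν x ∈ Fd ρ}`, `ρ = ‖s η‖ ^ 2`, and `Y = {a // a ≠ ⊥ ∧ (a * b).IsPrincipal}`.
For `x ∈ X`: `span {x} ≤ b`, so `b ∣ span {x}` (`Ideal.dvd_iff_le`), `span {x} = b * a = a * b`; `a ≠ ⊥` because `x ≠ 0`; choose `a` and put
`π x = a` (`Classical.choose`, or `choose`).  `a` is determined by `x` (`mul_right_cancel₀` for ideals of a Dedekind domain, `b ≠ ⊥`,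
`Ideal.zero_eq_bot`).
The fibre of `a ∈ Y`: `a * b = span {x0}` (`IsPrincipal.principal`, `Ideal.submodule_span_eq`), `x0 ≠ 0`.  For `x ∈ X`: `π x = a` iff
`span {x} = span {x0}` iff `x = v * x0` for a unit `v` (`Ideal.span_singleton_eq_span_singleton`, `Associated`).  So the map
`{v : (𝓞 L)ˣ // io ν (v * x0) ∈ Fd ρ} → {x // π x = a}`, `v ↦ v * x0` is a bijection (`v * x0 ∈ span {x0} = a * b ≤ b`: `Ideal.mul_le_left`;
injective since `x0 ≠ 0`); `Nat.card_congr (Equiv.ofBijective ..)` and `j02_card` with `x = (x0 : L) ≠ 0`.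
-/

set_option autoImplicit false
namespace Pool.Agent.H2S
open Complex NumberField

variable {K L : Type*} [Field K] [NumberField K] [Field L] [NumberField L] [Algebra K L]

theorem j10 (F : Fld K L) (η : (𝓞 L)ˣ) (h1 : 1 < ‖F.s ((η : 𝓞 L) : L)‖)
    (h2 : ((η : 𝓞 L) : L) * F.τ ((η : 𝓞 L) : L) = 1) {b : Ideal (𝓞 L)} (hb : b ≠ ⊥) {ν : K} (hν : ν ≠ 0) :
    ∃ π : {x : 𝓞 L // x ≠ 0 ∧ x ∈ b ∧ F.io ν (x : L) ∈ Fd (‖F.s ((η : 𝓞 L) : L)‖ ^ 2)} →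
        {a : Ideal (𝓞 L) // a ≠ ⊥ ∧ Submodule.IsPrincipal (a * b)},
      (∀ x, Ideal.span {x.1} = (π x).1 * b) ∧ ∀ a, Nat.card {x // π x = a} = kp η := by
  have hex : ∀ x : {x : 𝓞 L // x ≠ 0 ∧ x ∈ b ∧ F.io ν (x : L) ∈ Fd (‖F.s ((η : 𝓞 L) : L)‖ ^ 2)},
      ∃ a : Ideal (𝓞 L), Ideal.span {x.1} = a * b := by
    intro x
    obtain ⟨a, ha⟩ := Ideal.dvd_iff_le.2 ((Ideal.span_singleton_le_iff_mem b).2 x.2.2.1)
    exact ⟨a, by rw [ha, mul_comm]⟩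
  choose a ha using hex
  have hne : ∀ x, a x ≠ ⊥ := by
    intro x h0
    have h3 := ha x
    rw [h0, Ideal.bot_mul, Ideal.span_singleton_eq_bot] at h3
    exact x.2.1 h3
  refine ⟨fun x => ⟨a x, hne x, ⟨x.1, by rw [← ha x]⟩⟩, ha, ?_⟩
  rintro ⟨a₀, ha0, hp⟩
  obtain ⟨x0, hx0⟩ := id hp
  have hx0' : a₀ * b = Ideal.span {x0} := hx0
  have hx0ne : x0 ≠ 0 := by
    rintro rfl
    rw [Ideal.span_singleton_eq_bot.2 rfl] at hx0'
    rcases Ideal.mul_eq_bot.1 hx0' with h | h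
    · exact ha0 h
    · exact hb h
  rw [← j02_card F η h1 h2 hν (x := (x0 : L)) (fun h => hx0ne (RingOfIntegers.ext h))]
  symm
  have hmem : ∀ v : 𝓞 L, v * x0 ∈ b := by
    intro v
    have h3 : v * x0 ∈ a₀ * b := by
      rw [hx0']
      exact Ideal.mul_mem_left _ _ (Ideal.mem_span_singleton_self _)
    exact Ideal.mul_le_right h3
  have huniq : ∀ x : {x : 𝓞 L // x ≠ 0 ∧ x ∈ b ∧ F.io ν (x : L) ∈ Fd (‖F.s ((η : 𝓞 L) : L)‖ ^ 2)},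
      a x = a₀ ↔ Ideal.span {x.1} = Ideal.span {x0} := by
    intro x
    rw [ha x, ← hx0']
    constructor
    · intro h
      rw [h]
    · intro h
      exact mul_right_cancel₀ hb h
  refine Nat.card_congr (Equiv.ofBijective
    (fun v : {v : (𝓞 L)ˣ // F.io ν (((v : 𝓞 L) : L) * (x0 : L)) ∈ Fd (‖F.s ((η : 𝓞 L) : L)‖ ^ 2)} =>
      (⟨⟨(v.1 : 𝓞 L) * x0, mul_ne_zero v.1.ne_zero hx0ne, hmem _, v.2⟩,
        Subtype.ext ((huniq _).2 (Ideal.span_singleton_eq_span_singleton.2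
          ⟨v.1⁻¹, by
            change (v.1 : 𝓞 L) * x0 * ((v.1⁻¹ : (𝓞 L)ˣ) : 𝓞 L) = x0
            rw [mul_comm (v.1 : 𝓞 L), mul_assoc, Units.mul_inv, mul_one]⟩))⟩ :
        {x : {x : 𝓞 L // x ≠ 0 ∧ x ∈ b ∧ F.io ν (x : L) ∈ Fd (‖F.s ((η : 𝓞 L) : L)‖ ^ 2)} //
          (⟨a x, hne x, ⟨x.1, by rw [← ha x]⟩⟩ : {a : Ideal (𝓞 L) // a ≠ ⊥ ∧ Submodule.IsPrincipal (a * b)}) =
            ⟨a₀, ha0, hp⟩})) ⟨?_, ?_⟩)
  · rintro ⟨v, hv⟩ ⟨v', hv'⟩ h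
    have h3 : (v : 𝓞 L) * x0 = (v' : 𝓞 L) * x0 := congrArg (fun z => (z.1.1 : 𝓞 L)) h
    exact Subtype.ext (Units.ext (mul_right_cancel₀ hx0ne h3))
  · rintro ⟨x, hx⟩
    have h3 : a x = a₀ := congrArg Subtype.val hx
    obtain ⟨v, hv⟩ := Ideal.span_singleton_eq_span_singleton.1 ((huniq x).1 h3).symm
    refine ⟨⟨v, ?_⟩, ?_⟩
    · have h4 : ((v : 𝓞 L) : L) * (x0 : L) = (x.1 : L) := by
        rw [← hv, mul_comm x0]
        rfl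
      rw [h4]
      exact x.2.2.2
    · apply Subtype.ext
      apply Subtype.ext
      change (v : 𝓞 L) * x0 = x.1
      rw [← hv, mul_comm]

end Pool.Agent.H2S
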