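import Pool.Agent.Lib.H2S.J08
import Pool.Agent.Lib.H2S.J09
import Pool.Agent.Lib.H2S.J10

/-!
# H2S, chunk J11 (size M): the theta integral of an ideal `b` as a sum over the ideals `a` with `a b` principal

`ρ = ‖s η‖ ^ 2`, `X`, `Y`, `π` as in `j10` (with `b = D.b`, `ν = D.ν ≠ 0`: `D.nne`, `D.δne`).

`j11_GL`: for `P' ∈ H3` (here any `P'`): `GL ρ ν φ P' = ∑' x : L, (Fd ρ).indicator (fun y => φ x * W P' y) (io ν x)` with `φ = phb χ b`; a nonzero term has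
`io ν x ∈ Fd ρ` and `φ x ≠ 0`, so `x = (y : L)` with `y ∈ b` (`phb_not_mem`), and `y ≠ 0` because `io ν 0 = (0, 0)` is not in
`Fd ρ` (`0 < ρ * 0` is false).  So the support lies in the range of the injective map `X → L`, `x ↦ (x : L)`:
`Function.Injective.tsum_eq (hg : Injective g) (hf : support f ⊆ Set.range g) : ∑' c, f (g c) = ∑' b, f b`; on `X` the indicator is the
value (`Set.indicator_of_mem`).

`j11_sm`: for each unit `u`: by `j09_norm` the norm of the term of `x` is at most `C * g (π x)`, `C` the constant of `j09_norm`,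
`g a = ‖ψ a‖ * exp (-(c * √(absNorm a)))`, `c = 2 π P.2 / ‖sK δ‖`.  `g` is summable over `Y` (`j06`, `Summable.subtype` or
`Summable.comp_injective Subtype.val_injective`), so `g ∘ π` is summable over `X` by `j01` (`E = ℝ`, `κ = kp η > 0` by `j02_pos`; note
`‖g a‖ = g a`); `Summable.of_nonneg_of_le`.

`j11`: sum `j11_GL` (at `P' = (sK u * P.1, P.2)`) over the units `u` (finite: `Fld.units_finite`; `finsum_eq_sum_of_fintype`) and exchange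
(`Summable.tsum_finsetSum`, with `j11_sm` and `Summable.of_norm`): the sum is
`∑' x : X, ∑ᶠ u, phb x * W .. = ∑' x : X, 4 π sK ν ψ(b) * Om (π x)` (`j09_term`), `tsum_mul_left`, and by `j01` (`E = ℂ`; `Om` is summable over `Y` in
norm: `j08_Om`, restricted to the subtype) `∑' x : X, Om (π x) = kp η * ∑' a : Y, Om a`.
-/

set_option autoImplicit false
namespace Pool.Agent.H2S
open Complex NumberField

variable {K L : Type*} [Field K] [NumberField K] [Field L] [NumberField L] [Algebra K L]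
  {F : Fld K L} {m : Ideal (𝓞 L)} {p : ℕ}

theorem j11_ne {r : 𝓞 K} (hr : r ≠ 0) : (r : K) ≠ 0 := by
  intro h
  exact hr (RingOfIntegers.coe_injective (h.trans (map_zero _).symm))

theorem j11_nu (D : Lat F) : D.ν ≠ 0 := by
  rw [Lat.ν]
  exact inv_ne_zero (mul_ne_zero (j11_ne D.nne) (j11_ne D.δne))

theorem j11_dl (D : Lat F) : 0 < ‖F.sK (D.δ : K)‖ := by
  rw [norm_pos_iff, Ne, map_eq_zero]
  exact j11_ne D.δne

theorem j11_GL (χ : Chr F m) (ρ : ℝ) (ν : K) (b : Ideal (𝓞 L)) (P : ℂ × ℝ) :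
    F.GL ρ ν (phb χ b) P = ∑' x : {x : 𝓞 L // x ≠ 0 ∧ x ∈ b ∧ F.io ν (x : L) ∈ Fd ρ},
      phb χ b (x.1 : L) * W P (F.io ν (x.1 : L)) := by
  unfold Fld.GL
  set g : {x : 𝓞 L // x ≠ 0 ∧ x ∈ b ∧ F.io ν (x : L) ∈ Fd ρ} → L := fun x => (x.1 : L) with hgd
  have hg : Function.Injective g := fun x y h => Subtype.ext (RingOfIntegers.ext h)
  have h0 : Function.support (fun x : L => (Fd ρ).indicator (fun y => phb χ b x * W P y) (F.io ν x)) ⊆ Set.range g := by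
    intro x hx
    rw [Function.mem_support] at hx
    have h1 : F.io ν x ∈ Fd ρ := by
      by_contra h
      exact hx (Set.indicator_of_notMem h _)
    have h1' : (Fd ρ).indicator (fun y => phb χ b x * W P y) (F.io ν x) = phb χ b x * W P (F.io ν x) :=
      Set.indicator_of_mem h1 _
    have h2 : ∃ y ∈ b, (y : L) = x := by
      by_contra h
      apply hx
      rw [h1', phb_not_mem χ b h, zero_mul]
    obtain ⟨y, hy, rfl⟩ := h2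
    refine ⟨⟨y, ?_, hy, h1⟩, rfl⟩
    rintro rfl
    have h3 : F.io ν ((0 : 𝓞 L) : L) = (0, 0) := by
      have h4 : ((0 : 𝓞 L) : L) = 0 := map_zero _
      rw [h4, Fld.io, mul_zero, map_zero, map_zero, map_zero]
    rw [h3] at h1
    have h5 := h1.2
    simp only [norm_zero, mul_zero, lt_self_iff_false] at h5
  rw [← hg.tsum_eq h0]
  refine tsum_congr fun x => ?_
  exact Set.indicator_of_mem x.2.2.2 _

theorem j11_sm (Ψ : Psi F m p) (η : (𝓞 L)ˣ) (h1 : 1 < ‖F.s ((η : 𝓞 L) : L)‖)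
    (h2 : ((η : 𝓞 L) : L) * F.τ ((η : 𝓞 L) : L) = 1) (D : Lat F) {P : ℂ × ℝ} (hP : P ∈ H3) (u : (𝓞 K)ˣ) :
    Summable fun x : {x : 𝓞 L // x ≠ 0 ∧ x ∈ D.b ∧ F.io D.ν (x : L) ∈ Fd (‖F.s ((η : 𝓞 L) : L)‖ ^ 2)} =>
      ‖phb Ψ.toChr D.b (x.1 : L) * W (F.sK ((u : 𝓞 K) : K) * P.1, P.2) (F.io D.ν (x.1 : L))‖ := by
  have hν : D.ν ≠ 0 := j11_nu D
  obtain ⟨π, hπ1, hπ2⟩ := j10 F η h1 h2 D.bne hν
  have hδ : 0 < ‖F.sK (D.δ : K)‖ := j11_dl D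
  have hP2 : 0 < P.2 := hP
  have hc : 0 < 2 * Real.pi * P.2 / ‖F.sK (D.δ : K)‖ := by positivity
  have hs := (j06 Ψ hc).comp_injective (Subtype.val_injective :
    Function.Injective (Subtype.val : {a : Ideal (𝓞 L) // a ≠ ⊥ ∧ Submodule.IsPrincipal (a * D.b)} → Ideal (𝓞 L)))
  have hj := (j01 π (j02_pos F η h1 h2) hπ2 (f := fun a : {a : Ideal (𝓞 L) // a ≠ ⊥ ∧ Submodule.IsPrincipal (a * D.b)} =>
    ‖Ψ.ψ a.1‖ * Real.exp (-(2 * Real.pi * P.2 / ‖F.sK (D.δ : K)‖ * Real.sqrt (Ideal.absNorm a.1)))) hs.norm).1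
  refine Summable.of_nonneg_of_le (fun x => norm_nonneg _) (fun x => ?_)
    (hj.mul_left (‖4 * Real.pi * F.sK D.ν * Ψ.ψ D.b‖ * ‖F.sK (D.δ : K)‖ ^ 2))
  refine (j09_norm Ψ D x.2.1 (hπ1 x) hP u).trans ?_
  exact mul_le_mul_of_nonneg_left (Real.le_norm_self _) (by positivity)

theorem j11 (Ψ : Psi F m p) (η : (𝓞 L)ˣ) (h1 : 1 < ‖F.s ((η : 𝓞 L) : L)‖)
    (h2 : ((η : 𝓞 L) : L) * F.τ ((η : 𝓞 L) : L) = 1) (D : Lat F) {P : ℂ × ℝ} (hP : P ∈ H3) :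
    ∑ᶠ u : (𝓞 K)ˣ, F.GL (‖F.s ((η : 𝓞 L) : L)‖ ^ 2) D.ν (phb Ψ.toChr D.b) (F.sK ((u : 𝓞 K) : K) * P.1, P.2) =
      4 * Real.pi * F.sK D.ν * Ψ.ψ D.b * (kp η : ℂ) *
        ∑' a : {a : Ideal (𝓞 L) // a ≠ ⊥ ∧ Submodule.IsPrincipal (a * D.b)}, Ψ.Om D.δ P a.1 := by
  classical
  have hν : D.ν ≠ 0 := j11_nu D
  obtain ⟨π, hπ1, hπ2⟩ := j10 F η h1 h2 D.bne hν
  have hfin := F.units_finite
  have := Fintype.ofFinite (𝓞 K)ˣ
  have hO := (j08_Om Ψ D.δne hP).1.comp_injective (Subtype.val_injective :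
    Function.Injective (Subtype.val : {a : Ideal (𝓞 L) // a ≠ ⊥ ∧ Submodule.IsPrincipal (a * D.b)} → Ideal (𝓞 L)))
  have hj := j01 π (j02_pos F η h1 h2) hπ2 (f := fun a : {a : Ideal (𝓞 L) // a ≠ ⊥ ∧ Submodule.IsPrincipal (a * D.b)} =>
    Ψ.Om D.δ P a.1) hO
  rw [finsum_eq_sum_of_fintype]
  have e1 : ∀ u : (𝓞 K)ˣ, F.GL (‖F.s ((η : 𝓞 L) : L)‖ ^ 2) D.ν (phb Ψ.toChr D.b) (F.sK ((u : 𝓞 K) : K) * P.1, P.2) =
      ∑' x : {x : 𝓞 L // x ≠ 0 ∧ x ∈ D.b ∧ F.io D.ν (x : L) ∈ Fd (‖F.s ((η : 𝓞 L) : L)‖ ^ 2)},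
      phb Ψ.toChr D.b (x.1 : L) * W (F.sK ((u : 𝓞 K) : K) * P.1, P.2) (F.io D.ν (x.1 : L)) := fun u =>
    j11_GL Ψ.toChr _ _ _ _
  rw [Finset.sum_congr rfl fun u _ => e1 u,
    ← Summable.tsum_finsetSum fun u _ => (j11_sm Ψ η h1 h2 D hP u).of_norm]
  have e2 : ∀ x : {x : 𝓞 L // x ≠ 0 ∧ x ∈ D.b ∧ F.io D.ν (x : L) ∈ Fd (‖F.s ((η : 𝓞 L) : L)‖ ^ 2)},
      ∑ u : (𝓞 K)ˣ, phb Ψ.toChr D.b (x.1 : L) * W (F.sK ((u : 𝓞 K) : K) * P.1, P.2) (F.io D.ν (x.1 : L)) =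
      4 * Real.pi * F.sK D.ν * Ψ.ψ D.b * Ψ.Om D.δ P (π x).1 := by
    intro x
    rw [← finsum_eq_sum_of_fintype]
    exact j09_term Ψ D x.2.1 (hπ1 x) P
  rw [tsum_congr e2, tsum_mul_left, hj.2, Complex.real_smul, ← mul_assoc]
  push_cast
  rfl

end Pool.Agent.H2S
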