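import Mathlib

/-!
# H2S, chunk J12 (size M, ONLY MATHLIB): representatives of the ideal classes, prime to `m`

Let `S` be the set of the classes `c : ClassGroup (𝓞 L)` such that there is a nonzero ideal `a`, `IsCoprime a m`, with `ClassGroup.mk0 a = c`; it
is finite (`ClassGroup (𝓞 L)` is a `Fintype`), so `e : Fin r ≃ S` (`Finite.equivFin`); choose such an ideal `A c` for `c ∈ S` and put
`b i = (A (e i)) ^ (h - 1)`, `h = Fintype.card (ClassGroup (𝓞 L)) ≥ 1`.  `b i ≠ ⊥` (`pow_ne_zero`, `Ideal.zero_eq_bot`), `IsCoprime (b i) m`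
(`IsCoprime.pow_left`).  For `a ≠ ⊥`, `IsCoprime a m`: `a * b i` is principal iff `mk0 (a * b i) = 1` (`ClassGroup.mk0_eq_one_iff`), iff
`mk0 a * (e i) ^ (h - 1) = 1` (`map_mul`, `map_pow`), iff `mk0 a = e i` (because `(e i) ^ h = 1`: `pow_card_eq_one`, `pow_succ`).  Since
`mk0 a ∈ S`, exactly one `i` has `e i = mk0 a`.
-/

set_option autoImplicit false
namespace Pool.Agent.H2S
open NumberField

theorem j12 {L : Type*} [Field L] [NumberField L] (m : Ideal (𝓞 L)) :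
    ∃ (r : ℕ) (b : Fin r → Ideal (𝓞 L)), (∀ i, b i ≠ ⊥ ∧ IsCoprime (b i) m) ∧
      ∀ a : Ideal (𝓞 L), a ≠ ⊥ → IsCoprime a m → ∃! i, Submodule.IsPrincipal (a * b i) := by
  classical
  set S : Set (ClassGroup (𝓞 L)) := {c | ∃ a : nonZeroDivisors (Ideal (𝓞 L)), IsCoprime (a : Ideal (𝓞 L)) m ∧
    ClassGroup.mk0 a = c} with hS
  have hfin : Finite S := inferInstance
  obtain ⟨r, ⟨e⟩⟩ := Finite.exists_equiv_fin S
  choose A hA1 hA2 using fun c : S => c.2
  set h := Fintype.card (ClassGroup (𝓞 L)) with hh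
  have hpos : 0 < h := Fintype.card_pos
  have hpow : ∀ c : ClassGroup (𝓞 L), c ^ (h - 1) * c = 1 := by
    intro c
    rw [← pow_succ, Nat.sub_add_cancel hpos]
    exact pow_card_eq_one
  refine ⟨r, fun i => ((A (e.symm i) ^ (h - 1) : nonZeroDivisors (Ideal (𝓞 L))) : Ideal (𝓞 L)), fun i => ⟨?_, ?_⟩, ?_⟩
  · exact nonZeroDivisors.coe_ne_zero _
  · show IsCoprime ((A (e.symm i) ^ (h - 1) : nonZeroDivisors (Ideal (𝓞 L))) : Ideal (𝓞 L)) m
    rw [SubmonoidClass.coe_pow]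
    exact (hA1 _).pow_left
  · intro a ha ham
    have ha0 : a ∈ nonZeroDivisors (Ideal (𝓞 L)) := mem_nonZeroDivisors_of_ne_zero ha
    set a' : nonZeroDivisors (Ideal (𝓞 L)) := ⟨a, ha0⟩ with ha'
    have hmem : ClassGroup.mk0 a' ∈ S := ⟨a', ham, rfl⟩
    have key : ∀ i : Fin r, Submodule.IsPrincipal (a * ((A (e.symm i) ^ (h - 1) : nonZeroDivisors (Ideal (𝓞 L))) : Ideal (𝓞 L))) ↔
        i = e ⟨ClassGroup.mk0 a', hmem⟩ := by
      intro i
      have h1 : Submodule.IsPrincipal (a * ((A (e.symm i) ^ (h - 1) : nonZeroDivisors (Ideal (𝓞 L))) : Ideal (𝓞 L))) ↔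
          ClassGroup.mk0 (a' * A (e.symm i) ^ (h - 1)) = 1 :=
        (ClassGroup.mk0_eq_one_iff (a' * A (e.symm i) ^ (h - 1)).2).symm
      rw [h1, map_mul, map_pow, hA2, ← Equiv.symm_apply_eq, Subtype.ext_iff]
      constructor
      · intro h2
        have h3 := hpow ((e.symm i : S) : ClassGroup (𝓞 L))
        rw [mul_comm] at h2
        exact (mul_left_cancel (h3.trans h2.symm))
      · intro h2
        rw [h2, mul_comm]
        exact hpow _
    refine ⟨e ⟨ClassGroup.mk0 a', hmem⟩, (key _).2 rfl, fun i hi => (key i).1 hi⟩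

end Pool.Agent.H2S
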