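import Pool.Agent.Lib.H2S.J11
import Pool.Agent.Lib.H2S.J12

/-!
# H2S, chunk J13 (size M): `FF` is a finite combination of theta integrals

Take `r`, `b` from `j12 m`.  `relNorm (b i) = span {n i}` with `n i ≠ 0` (`F.pid`, `Ideal.relNorm_eq_bot_iff`); `D i : Lat F` is the structure with
`δ`, `hδ`, `hd`, `b i`, `n i`.  Put `c i = (4 π sK (D i).ν ψ (b i) (kp η))⁻¹`; the inverse of a nonzero number (`(D i).ν ≠ 0`; `ψ (b i) ≠ 0` by
`Ψ.ne` and `IsCoprime (b i) m`; `kp η ≠ 0` by `j02_pos`).  By `j11`, `c i * ∑ᶠ u, GL .. = ∑' a : Y i, Om δ P a`, with `Y i` the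
subtype of the `a ≠ ⊥` with `a * b i` principal.  So it remains to show `FF δ P = ∑ i, ∑' a : Y i, Om δ P a`.
By `j08_FF`, `j08_Om`: `FF δ P = ∑' a, Om δ P a`.  For each ideal `a`:
`Om δ P a = ∑ i, (if a ≠ ⊥ ∧ (a * b i).IsPrincipal then Om δ P a else 0)`: if `ψ a = 0` both sides vanish; otherwise `a ≠ ⊥` (`ψ ⊥ = 0`) and `a` is
prime to `m` (`Ψ.ne`), so exactly one `i` contributes (`Finset.sum_eq_single`).  Exchange the finite sum with `∑'`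
(`Summable.tsum_finsetSum`, `Summable.indicator`), `tsum_subtype`.
-/

set_option autoImplicit false
namespace Pool.Agent.H2S
open Complex NumberField

variable {K L : Type*} [Field K] [NumberField K] [Field L] [NumberField L] [Algebra K L]
  {F : Fld K L} {m : Ideal (𝓞 L)} {p : ℕ}

theorem j13 (Ψ : Psi F m p) (η : (𝓞 L)ˣ) (h1 : 1 < ‖F.s ((η : 𝓞 L) : L)‖)
    (h2 : ((η : 𝓞 L) : L) * F.τ ((η : 𝓞 L) : L) = 1) (δ : 𝓞 K) (hδ : δ ≠ 0)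
    (hd : differentIdeal ℤ (𝓞 K) = Ideal.span {δ}) :
    ∃ (r : ℕ) (D : Fin r → Lat F) (c : Fin r → ℂ), (∀ i, (D i).δ = δ ∧ IsCoprime (D i).b m) ∧
      ∀ P ∈ H3, Ψ.FF δ P = ∑ i, c i * ∑ᶠ u : (𝓞 K)ˣ,
        F.GL (‖F.s ((η : 𝓞 L) : L)‖ ^ 2) (D i).ν (phb Ψ.toChr (D i).b) (F.sK ((u : 𝓞 K) : K) * P.1, P.2) := by
  classical
  obtain ⟨r, b, hb, huniq⟩ := j12 (L := L) m
  have hn' : ∀ i, ∃ n : 𝓞 K, n ≠ 0 ∧ Ideal.relNorm (𝓞 K) (b i) = Ideal.span {n} := by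
    intro i
    obtain ⟨n, hn⟩ := F.pid.principal (Ideal.relNorm (𝓞 K) (b i))
    refine ⟨n, ?_, hn⟩
    rintro rfl
    have h3 : Ideal.relNorm (𝓞 K) (b i) = ⊥ := hn.trans (Submodule.span_zero_singleton _)
    exact (hb i).1 (Ideal.relNorm_eq_bot_iff.1 h3)
  choose n hn0 hn using hn'
  have hco : ∀ x : 𝓞 K, x ≠ 0 → (x : K) ≠ 0 := fun x hx h =>
    hx (RingOfIntegers.coe_injective (h.trans (map_zero _).symm))
  obtain ⟨D, hDδ, hDb, hDν⟩ : ∃ D : Fin r → Lat F, (∀ i, (D i).δ = δ) ∧ (∀ i, (D i).b = b i) ∧ ∀ i, (D i).ν ≠ 0 :=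
    ⟨fun i => { δ := δ, δne := hδ, diff := hd, b := b i, bne := (hb i).1, n := n i, nne := hn0 i, norm := hn i },
      fun _ => rfl, fun _ => rfl, fun i => inv_ne_zero (mul_ne_zero (hco _ (hn0 i)) (hco _ hδ))⟩
  have hc : ∀ i, (4 * Real.pi * F.sK (D i).ν * Ψ.ψ (D i).b * (kp η : ℂ)) ≠ 0 := by
    intro i
    have h4 : (4 : ℂ) ≠ 0 := by norm_num
    refine mul_ne_zero (mul_ne_zero (mul_ne_zero (mul_ne_zero h4 ?_) ?_) ?_) ?_
    · exact_mod_cast Real.pi_ne_zero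
    · exact (map_ne_zero F.sK).2 (hDν i)
    · rw [hDb]
      exact (Ψ.ne (b i) (hb i).1).2 (hb i).2
    · exact_mod_cast (j02_pos F η h1 h2).ne'
  refine ⟨r, D, fun i => (4 * Real.pi * F.sK (D i).ν * Ψ.ψ (D i).b * (kp η : ℂ))⁻¹,
    fun i => ⟨hDδ i, by rw [hDb]; exact (hb i).2⟩, fun P hP => ?_⟩
  have hi : ∀ i, (4 * Real.pi * F.sK (D i).ν * Ψ.ψ (D i).b * (kp η : ℂ))⁻¹ * ∑ᶠ u : (𝓞 K)ˣ,
        F.GL (‖F.s ((η : 𝓞 L) : L)‖ ^ 2) (D i).ν (phb Ψ.toChr (D i).b) (F.sK ((u : 𝓞 K) : K) * P.1, P.2) =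
      ∑' a, Set.indicator {a : Ideal (𝓞 L) | a ≠ ⊥ ∧ Submodule.IsPrincipal (a * b i)} (Ψ.Om δ P) a := by
    intro i
    rw [j11 Ψ η h1 h2 (D i) hP, ← mul_assoc, inv_mul_cancel₀ (hc i), one_mul, hDδ, hDb]
    exact tsum_subtype {a : Ideal (𝓞 L) | a ≠ ⊥ ∧ Submodule.IsPrincipal (a * b i)} (Ψ.Om δ P)
  have hs : Summable (Ψ.Om δ P) := (j08_Om Ψ hδ hP).1.of_norm
  rw [Finset.sum_congr rfl (fun i _ => hi i), j08_FF Ψ hδ hP, (j08_Om Ψ hδ hP).2,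
    ← Summable.tsum_finsetSum (fun i _ => hs.indicator _)]
  refine tsum_congr fun a => ?_
  by_cases ha : Ψ.ψ a = 0
  · have h0 : Ψ.Om δ P a = 0 := by rw [Psi.Om, ha, zero_mul]
    rw [h0]
    symm
    refine Finset.sum_eq_zero fun i _ => ?_
    rw [Set.indicator_apply, h0, ite_self]
  · have ha0 : a ≠ ⊥ := by
      rintro rfl
      exact ha (map_zero Ψ.ψ)
    have hcop := (Ψ.ne a ha0).1 ha
    obtain ⟨i, hi1, hu⟩ := huniq a ha0 hcop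
    rw [Finset.sum_eq_single i]
    · rw [Set.indicator_of_mem]
      exact ⟨ha0, hi1⟩
    · intro j _ hj
      rw [Set.indicator_of_notMem]
      exact fun h => hj (hu j h.2)
    · intro h
      exact absurd (Finset.mem_univ i) h

end Pool.Agent.H2S
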