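import Pool.Agent.Lib.H2S.J07

/-!
# H2S, chunk J14 (size S/M): `A` of the unit ideal, invariance of `FF` under units

`j14_one`: `relNorm a = ⊤` iff `a = ⊤` (`j06_abs` with `β = 1`, or `Ideal.absNorm_relNorm` and `Ideal.absNorm_eq_one_iff`; `Ideal.relNorm_top`), so the sum
has the single term `ψ ⊤ = 1` (`map_one`, `Ideal.one_eq_top`).
`j14_unit`: reindex by the equivalence `β ↦ u * β` of `𝓞 K` (`Equiv.tsum_eq (Units.mulLeft u)`): `span {u * β} = span {β}`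
(`Ideal.span_singleton_mul_left_unit`), `‖sK ((u β) / δ)‖ = ‖sK (β / δ)‖` (`Fld.norm_unit`), `P.1 * sK ((u β) / δ) = (sK u * P.1) * sK (β / δ)`.
-/

set_option autoImplicit false
namespace Pool.Agent.H2S
open Complex NumberField

variable {K L : Type*} [Field K] [NumberField K] [Field L] [NumberField L] [Algebra K L]
  {F : Fld K L} {m : Ideal (𝓞 L)} {p : ℕ}

theorem j14_top (a : Ideal (𝓞 L)) : Ideal.relNorm (𝓞 K) a = ⊤ ↔ a = ⊤ := by
  rw [← Ideal.absNorm_eq_one_iff, Ideal.absNorm_relNorm, Ideal.absNorm_eq_one_iff]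

theorem j14_one (Ψ : Psi F m p) : Ψ.A ⊤ = 1 := by
  unfold Psi.A
  have h1 : {a : Ideal (𝓞 L) | Ideal.relNorm (𝓞 K) a = ⊤} = {⊤} := by
    ext a
    exact j14_top a
  rw [h1, finsum_mem_singleton, ← Ideal.one_eq_top, map_one]

theorem j14_unit (Ψ : Psi F m p) (δ : 𝓞 K) (u : (𝓞 K)ˣ) (P : ℂ × ℝ) :
    Ψ.FF δ (F.sK ((u : 𝓞 K) : K) * P.1, P.2) = Ψ.FF δ P := by
  classical
  unfold Psi.FF
  have h := (Units.mulLeft u).tsum_eq (fun β : 𝓞 K => if β = 0 then (0 : ℂ) else Ψ.A (Ideal.span {β}) * F.w δ β P)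
  refine Eq.trans (tsum_congr fun β => ?_) h
  show _ = if (u : 𝓞 K) * β = 0 then (0 : ℂ) else Ψ.A (Ideal.span {(u : 𝓞 K) * β}) * F.w δ ((u : 𝓞 K) * β) P
  by_cases h0 : β = 0
  · rw [if_pos h0, h0, mul_zero, if_pos rfl]
  · rw [if_neg h0, if_neg (mul_ne_zero u.ne_zero h0), Ideal.span_singleton_mul_left_unit u.isUnit]
    have e1 : F.sK ((((u : 𝓞 K) * β : 𝓞 K) : K) / (δ : K)) = F.sK ((u : 𝓞 K) : K) * F.sK ((β : K) / (δ : K)) := by
      rw [show ((((u : 𝓞 K) * β : 𝓞 K)) : K) = ((u : 𝓞 K) : K) * (β : K) from map_mul (algebraMap (𝓞 K) K) _ _,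
        mul_div_assoc, map_mul]
    have e2 : F.sK ((u : 𝓞 K) : K) * P.1 * F.sK ((β : K) / (δ : K)) =
        P.1 * (F.sK ((u : 𝓞 K) : K) * F.sK ((β : K) / (δ : K))) := by ring
    unfold Fld.w
    rw [e1, norm_mul, F.norm_unit, one_mul, e2]

end Pool.Agent.H2S
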