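import Pool.Agent.Lib.H2S.J14
import Pool.Agent.Lib.H2S.N4
import Pool.Agent.Lib.H2S.E05

/-!
# H2S, chunk J15 (size M): `FF` is not constant

`j15_int`: `2 * Re (sK a) = Tr a` (`Fld.trK`: `(Tr a : ℂ) = sK a + conj (sK a)`), `eQ (δ⁻¹ * (β * y)) = 1` by `n4_one` and `eQ_eq_one`: so
`Tr (β y / δ)` is an integer `k`, `fr δ β * sK y = sK (β y / δ)`.

`j15_om`: by `Fld.sK_not_real` some `a : K` has `conj (sK a) ≠ sK a`; write `a = y / n` with `y : 𝓞 K`, `n` a nonzero integer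
(`IsFractionRing.div_surjective`, or `NumberField.exists_..`; or: if `sK y` were real for all `y : 𝓞 K` then also for all quotients), so `conj (sK y) ≠ sK y`
for some `y : 𝓞 K`.

`j15`: suppose `FF δ P = C` on `H3`.  `𝓞 K` is countable and infinite: take an equivalence `e : ℕ ≃ 𝓞 K` (`Denumerable`: `nonempty_denumerable`,
`Denumerable.eqv`; countable: `𝓞 K` embeds in `K`, algebraic over `ℚ`, or has a finite `ℤ`-basis; if `𝓞 K` should not be seen countable directly, use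
`Countable` from `RingOfIntegers.basis`/`Algebra.IsAlgebraic.cardinalMk_le_max`).
Put `a = Ψ.cf ∘ e`, `w = F.fr δ ∘ e`.  `KS a w` from `j07_KS` (reindex, `Equiv.summable_iff`), `Ks a w P = Ks Ψ.cf (F.fr δ) P = FF δ P`
(`Equiv.tsum_eq`, `j07_Ks`).  `w` is injective (`sK` and `x ↦ x / δ` are injective).  `v₁ = 1 = sK 1`, `v₂ = sK y` with `y` from `j15_om`:
linearly independent over `ℝ` (`LinearIndependent.pair_iff`: imaginary part of `v₂` is not `0`: `Complex.conj_eq_iff_im`); `h1`, `h2` by `j15_int`.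
`e05n` gives `a (e.symm 1) = 0`, but this is `Ψ.cf 1 = Ψ.A (span {1}) = Ψ.A ⊤ = 1` (`Ideal.span_singleton_one`, `j14_one`).
-/

set_option autoImplicit false
namespace Pool.Agent.H2S
open Complex NumberField

variable {K L : Type*} [Field K] [NumberField K] [Field L] [NumberField L] [Algebra K L]
  {F : Fld K L} {m : Ideal (𝓞 L)} {p : ℕ}

theorem j15_int (F : Fld K L) {δ : 𝓞 K} (hδ : δ ≠ 0) (hd : differentIdeal ℤ (𝓞 K) = Ideal.span {δ}) (β y : 𝓞 K) :
    ∃ k : ℤ, 2 * (F.fr δ β * F.sK (y : K)).re = k := by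
  have h1 := n4_one hδ hd (β * y)
  rw [eQ_eq_one] at h1
  obtain ⟨k, hk⟩ := h1
  refine ⟨k, ?_⟩
  have h2 := F.trK ((δ : K)⁻¹ * ((β * y : 𝓞 K) : K))
  rw [hk] at h2
  have h3 : F.fr δ β * F.sK (y : K) = F.sK ((δ : K)⁻¹ * ((β * y : 𝓞 K) : K)) := by
    unfold Fld.fr
    rw [← map_mul, show (((β * y : 𝓞 K)) : K) = (β : K) * (y : K) from map_mul (algebraMap (𝓞 K) K) _ _]
    congr 1
    ring
  rw [h3]
  rw [Complex.add_conj] at h2
  have h4 : ((k : ℝ) : ℂ) = ((2 * (F.sK ((δ : K)⁻¹ * ((β * y : 𝓞 K) : K))).re : ℝ) : ℂ) := by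
    rw [← h2]
    push_cast
    rfl
  exact (Complex.ofReal_injective h4).symm

theorem j15_om (F : Fld K L) : ∃ y : 𝓞 K, (starRingEnd ℂ) (F.sK (y : K)) ≠ F.sK (y : K) := by
  obtain ⟨a, ha⟩ := F.sK_not_real
  by_contra hall
  push Not at hall
  apply ha
  obtain ⟨x, y, hy, rfl⟩ := IsFractionRing.div_surjective (A := 𝓞 K) a
  rw [map_div₀, map_div₀]
  exact congrArg₂ (· / ·) (hall x) (hall y)

theorem j15 (Ψ : Psi F m p) (δ : 𝓞 K) (hδ : δ ≠ 0) (hd : differentIdeal ℤ (𝓞 K) = Ideal.span {δ}) (C : ℂ) :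
    ∃ P ∈ H3, Ψ.FF δ P ≠ C := by
  by_contra hall
  push Not at hall
  have hcount : Countable (𝓞 K) := (RingOfIntegers.basis K).equivFun.toEquiv.injective.countable
  obtain ⟨hden⟩ := nonempty_denumerable (𝓞 K)
  let e : ℕ ≃ 𝓞 K := (Denumerable.eqv (𝓞 K)).symm
  have hks := j07_KS Ψ hδ
  have hks' : KS (Ψ.cf ∘ e) (F.fr δ ∘ e) := by
    refine ⟨?_, ?_⟩
    · obtain ⟨d, hd0, hd1⟩ := hks.lb
      exact ⟨d, hd0, fun i hi => hd1 (e i) hi⟩
    · intro c hc
      exact (e.summable_iff).2 (hks.sm c hc)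
  obtain ⟨y, hy⟩ := j15_om F
  have hlin : LinearIndependent ℝ ![(1 : ℂ), F.sK (y : K)] := by
    rw [LinearIndependent.pair_iff]
    intro s t hst
    have him : (F.sK (y : K)).im ≠ 0 := fun h0 => hy (Complex.conj_eq_iff_im.2 h0)
    have h1 := congrArg Complex.im hst
    have h2 := congrArg Complex.re hst
    simp only [Complex.add_im, Complex.real_smul, Complex.mul_im, Complex.ofReal_re, Complex.ofReal_im, Complex.one_im,
      Complex.one_re, Complex.zero_im, mul_zero, zero_mul, add_zero, zero_add] at h1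
    have ht : t = 0 := (mul_eq_zero.1 h1).resolve_right him
    subst ht
    simp only [Complex.add_re, Complex.real_smul, Complex.mul_re, Complex.ofReal_re, Complex.ofReal_im, Complex.one_im,
      Complex.one_re, Complex.zero_re, mul_zero, zero_mul, add_zero, sub_zero, mul_one] at h2
    exact ⟨h2, rfl⟩
  have hK : ∀ P ∈ H3, Ks (Ψ.cf ∘ e) (F.fr δ ∘ e) P = C := by
    intro P hP
    rw [← hall P hP, j07_Ks]
    unfold Ks
    exact e.tsum_eq (fun β => Ψ.cf β * V P (F.fr δ β))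
  have hinj : Function.Injective (F.fr δ ∘ e) := by
    refine Function.Injective.comp ?_ e.injective
    intro x z hxz
    have h1 : (x : K) / (δ : K) = (z : K) / (δ : K) := F.sK.injective hxz
    have h2 : (δ : K) ≠ 0 := fun h => hδ (RingOfIntegers.ext h)
    exact RingOfIntegers.ext ((div_left_inj' h2).1 h1)
  have h1 := e05n hks' hlin (fun i _ => by
    have h2 := j15_int F hδ hd (e i) 1
    rwa [show (((1 : 𝓞 K)) : K) = 1 from map_one (algebraMap (𝓞 K) K), map_one] at h2)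
    (fun i _ => j15_int F hδ hd (e i) y) hinj C hK (e.symm 1)
  have h2 : Ψ.cf 1 = 0 := by
    rw [← h1]
    show Ψ.cf 1 = Ψ.cf (e (e.symm 1))
    rw [Equiv.apply_symm_apply]
  have h3 : Ψ.cf 1 = 1 := by
    unfold Psi.cf
    rw [if_neg one_ne_zero, Ideal.span_singleton_one, j14_one]
  rw [h3] at h2
  exact one_ne_zero h2

end Pool.Agent.H2S
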