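import Pool.Agent.Lib.H2S.N4
import Pool.Agent.Lib.H2S.N3

/-!
# H2S, chunk J16 (size M): sums of additive characters modulo `n`

Put `χ y = eT (sK (y * γ / (n * δ)))` for `y : 𝓞 K`; `χ y = eQ (y γ / (n δ))` (`Fld.eQK`), so `χ (x + y) = χ x * χ y` (`eQ_add`).
`χ (n * y) = eQ (δ⁻¹ * (γ y)) = 1` (`n4_one`), so `χ` depends only on the class modulo `n` (`x - y ∈ span {n}`: `Ideal.mem_span_singleton`).
Case `n ∣ γ`, `γ = n γ'`: `χ y = eQ (δ⁻¹ * (γ' y)) = 1` for all `y`, the sum is `Fintype.card ι = Nat.card (𝓞 K ⧸ span {n})`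
(`Nat.card_eq_of_bijective`, `hb`) `= absNorm (span {n}) = ‖sK n‖ ^ 2` (`Fld.absNorm`; `Ideal.absNorm_apply`, `Submodule.cardQuot_apply`).
Case `¬ n ∣ γ`: by `n4_iff` with `t = γ / n` (not integral: `γ / n = c` would give `γ = n c`) there is `y0 : 𝓞 K` with
`eQ (δ⁻¹ * (γ / n) * y0) ≠ 1`, i.e. `χ y0 ≠ 1`.  Let `σ i` be the index with `mk (b (σ i)) = mk (b i + y0)` (`hb.2`, choice); `σ` is injective
(`hb.1`), hence bijective (`Finite.injective_iff_bijective`), and `χ (b (σ i)) = χ (b i) * χ y0`.  So `S = ∑ χ (b (σ i)) = χ y0 * S`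
(`Fintype.sum_bijective`, `Finset.mul_sum`) and `S = 0`.
-/

set_option autoImplicit false
namespace Pool.Agent.H2S
open Complex NumberField

variable {K L : Type*} [Field K] [NumberField K] [Field L] [NumberField L] [Algebra K L]

open Classical in
theorem j16 (F : Fld K L) {δ : 𝓞 K} (hδ : δ ≠ 0) (hd : differentIdeal ℤ (𝓞 K) = Ideal.span {δ}) {n : 𝓞 K} (hn : n ≠ 0)
    {ι : Type*} [Fintype ι] (b : ι → 𝓞 K) (hb : Function.Bijective fun i => Ideal.Quotient.mk (Ideal.span {n}) (b i))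
    (γ : 𝓞 K) :
    ∑ i, eT (F.sK ((b i : K) * (γ : K) / ((n : K) * (δ : K)))) = if n ∣ γ then ((‖F.sK (n : K)‖ ^ 2 : ℝ) : ℂ) else 0 := by
  have hnK : (n : K) ≠ 0 := fun h => hn (RingOfIntegers.coe_injective (h.trans (map_zero _).symm))
  have hδK : (δ : K) ≠ 0 := fun h => hδ (RingOfIntegers.coe_injective (h.trans (map_zero _).symm))
  set χ : 𝓞 K → ℂ := fun y => eQ ((y : K) * (γ : K) / ((n : K) * (δ : K))) with hχ
  have hadd : ∀ x y, χ (x + y) = χ x * χ y := by
    intro x y
    simp only [hχ]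
    rw [← eQ_add]
    congr 1
    have h1 : ((x + y : 𝓞 K) : K) = (x : K) + (y : K) := map_add _ _ _
    rw [h1]
    ring
  have hmul : ∀ y, χ (n * y) = 1 := by
    intro y
    simp only [hχ]
    rw [← n4_one hδ hd (γ * y)]
    congr 1
    have h1 : ((n * y : 𝓞 K) : K) = (n : K) * (y : K) := map_mul _ _ _
    have h2 : ((γ * y : 𝓞 K) : K) = (γ : K) * (y : K) := map_mul _ _ _
    rw [h1, h2]
    field_simp
  have hcong : ∀ x y, Ideal.Quotient.mk (Ideal.span {n}) x = Ideal.Quotient.mk (Ideal.span {n}) y → χ x = χ y := by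
    intro x y hxy
    rw [Ideal.Quotient.eq, Ideal.mem_span_singleton] at hxy
    obtain ⟨z, hz⟩ := hxy
    have h1 : x = y + n * z := by rw [← hz]; ring
    rw [h1, hadd, hmul, mul_one]
  have hL : ∀ i, eT (F.sK ((b i : K) * (γ : K) / ((n : K) * (δ : K)))) = χ (b i) := fun i => (F.eQK _).symm
  rw [Finset.sum_congr rfl fun i _ => hL i]
  split_ifs with hdv
  · obtain ⟨γ', rfl⟩ := hdv
    have h1 : ∀ y, χ y = 1 := by
      intro y
      simp only [hχ]
      rw [← n4_one hδ hd (γ' * y)]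
      congr 1
      have h1 : ((n * γ' : 𝓞 K) : K) = (n : K) * (γ' : K) := map_mul _ _ _
      have h2 : ((γ' * y : 𝓞 K) : K) = (γ' : K) * (y : K) := map_mul _ _ _
      rw [h1, h2]
      field_simp
    rw [Finset.sum_congr rfl fun i _ => h1 (b i), Finset.sum_const, Finset.card_univ, nsmul_eq_mul, mul_one]
    rw [← F.absNorm n]
    have h2 : Fintype.card ι = Ideal.absNorm (Ideal.span {n}) := by
      rw [← Nat.card_eq_fintype_card, Nat.card_eq_of_bijective _ hb]
      rfl
    rw [h2]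
    push_cast
    rfl
  · have hex : ∃ y0 : 𝓞 K, χ y0 ≠ 1 := by
      by_contra hcon
      push Not at hcon
      apply hdv
      obtain ⟨c, hc⟩ := (n4_iff hδ hd ((γ : K) / (n : K))).1 (fun y => by
        rw [← hcon y]
        simp only [hχ]
        congr 1
        field_simp)
      refine ⟨c, RingOfIntegers.coe_injective ?_⟩
      have h1 : (γ : K) = (n : K) * (c : K) := by
        rw [← hc]
        field_simp
      exact h1.trans (map_mul (algebraMap (𝓞 K) K) n c).symm
    obtain ⟨y0, hy0⟩ := hex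
    choose σ hσ using fun i => hb.2 (Ideal.Quotient.mk (Ideal.span {n}) (b i + y0))
    have hinj : Function.Injective σ := by
      intro i j hij
      apply hb.1
      have h1 := hσ i
      rw [hij, hσ j] at h1
      rw [map_add, map_add] at h1
      exact (add_right_cancel h1).symm
    have hbij : Function.Bijective σ := Finite.injective_iff_bijective.1 hinj
    have hS : ∑ i, χ (b (σ i)) = ∑ i, χ (b i) := Fintype.sum_bijective σ hbij _ _ fun i => rfl
    have hS2 : ∑ i, χ (b (σ i)) = χ y0 * ∑ i, χ (b i) := by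
      rw [Finset.mul_sum]
      refine Finset.sum_congr rfl fun i _ => ?_
      rw [hcong _ _ (hσ i), hadd, mul_comm]
    have h3 : (χ y0 - 1) * ∑ i, χ (b i) = 0 := by
      rw [sub_mul, one_mul, ← hS2, hS, sub_self]
    exact (mul_eq_zero.1 h3).resolve_left (sub_ne_zero.2 hy0)

end Pool.Agent.H2S
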