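import Pool.Agent.Lib.H2S.JD

/-!
# H2S, chunk J17 (size M): good primes and ideals of `𝓞 L`

`up L π = span {algebraMap π}` (`= Ideal.map (algebraMap (𝓞 K) (𝓞 L)) (span {π})`, `Ideal.map_span`, `Set.image_singleton`).

`j17_up`: `Ideal.relNorm_algebraMap` (`relNorm (map I) = I ^ finrank`; look at its exact form) with `F.deg2`
(`Module.finrank (FractionRing ..)`: if the exponent is written with fraction rings, use `Ideal.relNorm_singleton` and
`(intNorm (algebraMap π) : K) = norm K (algebraMap π) = π ^ 2`: `Algebra.algebraMap_intNorm`, `Algebra.norm_algebraMap`, `F.deg2`).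
`j17_cop`: suppose `IsCoprime c (up L π)`: `1 = x + y` with `x ∈ c`, `y = z * algebraMap π` (`Ideal.isCoprime_iff_exists`, `Ideal.mem_span_singleton`).
`N x := intNorm x ∈ relNorm c` (`Ideal.relNorm_singleton`, `Ideal.relNorm_mono`, `span {x} ≤ c`), so `π ∣ N x`.  In `L`: `(N x : K)` is
`x * τ x = (1 - π z) (1 - π τ z) = 1 - π (z + τ z - π z τ z)` (`Fld.norm_eq`), so `1 = π * w` in `L` with
`w = (N x / π) + z + τ z - π z τ z` integral (`Fld.int`); `w = 1 / π` lies in `K` and is integral, so it comes from `𝓞 K` and `π` is a unit: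
contradiction with `hπ`.
`j17_dvd`: `P` nonzero prime, hence maximal (`Ideal.IsPrime.isMaximal`): `c ⊔ P = ⊤` or `c ≤ P` (`Ideal.isCoprime_iff_sup_eq`,
`Ideal.IsMaximal.coprime_of_ne`, or `Ideal.IsMaximal.eq_of_le`); `c ≤ P` iff `P ∣ c` (`Ideal.dvd_iff_le`).
`j17_split`: `up L π ≠ ⊤` (by `j17_up`: otherwise `⊤ = span {π} ^ 2`), `≠ ⊥`: there is a prime ideal `w ∣ up L π` (`Ideal.exists_le_maximal`, `Ideal.dvd_iff_le`), `up L π = w * w'`.
`relNorm w * relNorm w' = span {π} ^ 2`; `span {π}` is prime (`Ideal.span_singleton_prime`), so `relNorm w = span {π} ^ i`, `relNorm w' = span {π} ^ j`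
with `i + j = 2` (`dvd_prime_pow`, ideals are associated iff equal: `associated_iff_eq`; `pow_right_injective`-like comparison or
`Ideal.absNorm`/multiplicity).  `i = 0` is impossible (`relNorm w = ⊤` gives `w = ⊤`: `j17_top`), `j = 0` gives
`w' = ⊤`, `up L π = w` prime, excluded by `hn`.  So `i = j = 1`.  `w'` is prime: it is irreducible, since `w' = a * b` gives `relNorm a * relNorm b = span {π}` prime,
so one of them is `⊤` (`Ideal.prime_iff_isPrime`, `irreducible_iff_prime`).  `w ≠ w'`: otherwise `w ^ 2 ∣ map (algebraMap) (span {π})`, so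
`w ^ (2 - 1) ∣ differentIdeal (𝓞 K) (𝓞 L)` (`pow_sub_one_dvd_differentIdeal`, look at its exact hypotheses), so `relNorm w = span {π}` divides
`relNorm (m * differentIdeal) = lev K m` (`map_dvd`, `Dvd.dvd.mul_left`), i.e. `lev K m ≤ span {π}`, excluded by `GoodPrime.lev`.
-/

set_option autoImplicit false
namespace Pool.Agent.H2S
open Complex NumberField

variable {K L : Type*} [Field K] [NumberField K] [Field L] [NumberField L] [Algebra K L]
  {F : Fld K L} {m : Ideal (𝓞 L)} {p : ℕ}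

theorem j17_top (a : Ideal (𝓞 L)) : Ideal.relNorm (𝓞 K) a = ⊤ ↔ a = ⊤ := by
  constructor
  · intro h
    have h1 := Ideal.absNorm_relNorm (R := 𝓞 K) (S := 𝓞 L) a
    rw [h, Ideal.absNorm_top] at h1
    exact Ideal.absNorm_eq_one_iff.1 h1.symm
  · rintro rfl
    exact Ideal.relNorm_top _

theorem j17_coe_norm (x : 𝓞 L) : ((Algebra.intNorm (𝓞 K) (𝓞 L) x : 𝓞 K) : K) = Algebra.norm K (x : L) :=
  Algebra.algebraMap_intNorm (A := 𝓞 K) (K := K) (L := L) (B := 𝓞 L) x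

theorem j17_coe_map (π : 𝓞 K) : ((algebraMap (𝓞 K) (𝓞 L) π : 𝓞 L) : L) = algebraMap K L (π : K) := rfl

theorem j17_intNorm (F : Fld K L) (π : 𝓞 K) :
    Algebra.intNorm (𝓞 K) (𝓞 L) (algebraMap (𝓞 K) (𝓞 L) π) = π * π := by
  apply RingOfIntegers.ext
  rw [j17_coe_norm, j17_coe_map, Algebra.norm_algebraMap, F.deg2, pow_two]
  exact (map_mul (algebraMap (𝓞 K) K) π π).symm

theorem j17_up (F : Fld K L) (π : 𝓞 K) : Ideal.relNorm (𝓞 K) (up L π) = Ideal.span {π} * Ideal.span {π} := by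
  rw [up, Ideal.relNorm_singleton, j17_intNorm F, Ideal.span_singleton_mul_span_singleton]

theorem j17_cop (F : Fld K L) {π : 𝓞 K} (hπ : Prime π) {c : Ideal (𝓞 L)}
    (h : Ideal.relNorm (𝓞 K) c ≤ Ideal.span {π}) : ¬ IsCoprime c (up L π) := by
  intro hc
  rw [Ideal.isCoprime_iff_exists] at hc
  obtain ⟨x, hx, y, hy, hxy⟩ := hc
  rw [up, Ideal.mem_span_singleton] at hy
  obtain ⟨z, rfl⟩ := hy
  have h1 : Algebra.intNorm (𝓞 K) (𝓞 L) x ∈ Ideal.span {π} := by
    apply h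
    have h2 : Ideal.relNorm (𝓞 K) (Ideal.span {x}) ≤ Ideal.relNorm (𝓞 K) c :=
      Ideal.relNorm_mono (𝓞 K) ((Ideal.span_singleton_le_iff_mem c).2 hx)
    apply h2
    rw [Ideal.relNorm_singleton]
    exact Ideal.mem_span_singleton_self _
  rw [Ideal.mem_span_singleton] at h1
  have hT : ((Algebra.intTrace (𝓞 K) (𝓞 L) z : 𝓞 K) : K) = Algebra.trace K L (z : L) :=
    Algebra.algebraMap_intTrace (A := 𝓞 K) (K := K) (L := L) (B := 𝓞 L) z
  have hxL : (x : L) = 1 - algebraMap K L (π : K) * (z : L) := by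
    have h2 := congrArg (algebraMap (𝓞 L) L) hxy
    rw [map_add, map_mul, map_one] at h2
    rw [← h2]
    change (x : L) = (x : L) + algebraMap K L (π : K) * (z : L) - algebraMap K L (π : K) * (z : L)
    ring
  have h3 : Algebra.intNorm (𝓞 K) (𝓞 L) x =
      1 - π * (Algebra.intTrace (𝓞 K) (𝓞 L) z - π * Algebra.intNorm (𝓞 K) (𝓞 L) z) := by
    apply RingOfIntegers.ext
    apply (algebraMap K L).injective
    have h4 : ((1 - π * (Algebra.intTrace (𝓞 K) (𝓞 L) z - π * Algebra.intNorm (𝓞 K) (𝓞 L) z) : 𝓞 K) : K) =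
        1 - (π : K) * (((Algebra.intTrace (𝓞 K) (𝓞 L) z : 𝓞 K) : K) -
          (π : K) * ((Algebra.intNorm (𝓞 K) (𝓞 L) z : 𝓞 K) : K)) := by
      change algebraMap (𝓞 K) K _ = _
      simp only [map_sub, map_mul, map_one]
    rw [h4, hT, j17_coe_norm, j17_coe_norm]
    simp only [map_sub, map_mul, map_one, F.norm_eq, F.trace_eq]
    rw [hxL]
    simp only [map_sub, map_mul, map_one, AlgEquiv.commutes]
    ring
  rw [h3] at h1
  have h5 : π ∣ 1 := by
    have h6 := dvd_add h1 (dvd_mul_right π (Algebra.intTrace (𝓞 K) (𝓞 L) z - π * Algebra.intNorm (𝓞 K) (𝓞 L) z))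
    rwa [sub_add_cancel] at h6
  exact hπ.not_isUnit (isUnit_of_dvd_one h5)

theorem j17_dvd {c P : Ideal (𝓞 L)} (hP : P.IsPrime) (h0 : P ≠ ⊥) (h : ¬ IsCoprime c P) : P ∣ c := by
  have hM : P.IsMaximal := hP.isMaximal h0
  rw [Ideal.isCoprime_iff_sup_eq] at h
  have h1 : P = c ⊔ P := hM.eq_of_le h le_sup_right
  rw [Ideal.dvd_iff_le]
  rw [h1]
  exact le_sup_left

theorem j17_prime {q : Ideal (𝓞 K)} (hq : Prime q) {a : Ideal (𝓞 L)} (h : Ideal.relNorm (𝓞 K) a = q) : a.IsPrime := by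
  have ha : a ≠ ⊤ := by
    rintro rfl
    rw [Ideal.relNorm_top] at h
    exact hq.not_isUnit (Ideal.isUnit_iff.2 h.symm)
  obtain ⟨M, hM, haM⟩ := Ideal.exists_le_maximal a ha
  obtain ⟨b, hb⟩ := Ideal.dvd_iff_le.2 haM
  have h1 : q = Ideal.relNorm (𝓞 K) M * Ideal.relNorm (𝓞 K) b := by
    rw [← h, hb, map_mul]
  rcases hq.irreducible.isUnit_or_isUnit h1 with h2 | h2
  · exact absurd ((j17_top M).1 (Ideal.isUnit_iff.1 h2)) hM.ne_top
  · have h3 : b = ⊤ := (j17_top b).1 (Ideal.isUnit_iff.1 h2)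
    rw [hb, h3, Ideal.mul_top]
    exact hM.isPrime

theorem j17_split (F : Fld K L) {π : 𝓞 K} (hπ : GoodPrime m p π) (hn : ¬ (up L π).IsPrime) :
    ∃ w w' : Ideal (𝓞 L), w.IsPrime ∧ w'.IsPrime ∧ w ≠ w' ∧ w ≠ ⊥ ∧ w' ≠ ⊥ ∧ w * w' = up L π ∧
      Ideal.relNorm (𝓞 K) w = Ideal.span {π} ∧ Ideal.relNorm (𝓞 K) w' = Ideal.span {π} := by
  have hπ0 : π ≠ 0 := hπ.prime.ne_zero
  have hqb : Ideal.span {π} ≠ ⊥ := fun h => hπ0 (Ideal.span_singleton_eq_bot.1 h)
  have hqp : (Ideal.span {π}).IsPrime := (Ideal.span_singleton_prime hπ0).2 hπ.prime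
  have hqm : (Ideal.span {π}).IsMaximal := hqp.isMaximal hqb
  have hq : Prime (Ideal.span {π}) := Ideal.prime_of_isPrime hqb hqp
  have hU := j17_up (L := L) F π
  have hUb : up L π ≠ ⊥ := by
    intro h
    rw [h, Ideal.relNorm_bot] at hU
    exact mul_ne_zero hqb hqb (hU.symm.trans Ideal.zero_eq_bot.symm)
  have hUt : up L π ≠ ⊤ := by
    intro h
    rw [h, Ideal.relNorm_top] at hU
    exact hq.not_isUnit (Ideal.isUnit_iff.2 (top_le_iff.1 (hU.le.trans Ideal.mul_le_left)))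
  obtain ⟨w, hw, hUw⟩ := Ideal.exists_le_maximal (up L π) hUt
  obtain ⟨w', hw'⟩ := Ideal.dvd_iff_le.2 hUw
  have h1 : Ideal.relNorm (𝓞 K) w * Ideal.relNorm (𝓞 K) w' = Ideal.span {π} * Ideal.span {π} := by
    rw [← map_mul, ← hw', hU]
  have h2 : Ideal.relNorm (𝓞 K) w ∣ Ideal.span {π} ^ 2 := ⟨Ideal.relNorm (𝓞 K) w', by rw [pow_two, h1]⟩
  rw [dvd_prime_pow hq] at h2
  obtain ⟨i, hi, h3⟩ := h2
  rw [associated_iff_eq] at h3
  have h4 : Ideal.relNorm (𝓞 K) w = Ideal.span {π} := by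
    interval_cases i
    · rw [pow_zero, Ideal.one_eq_top] at h3
      exact absurd ((j17_top w).1 h3) hw.ne_top
    · rw [h3, pow_one]
    · exfalso
      rw [h3, pow_two] at h1
      have h5 : Ideal.relNorm (𝓞 K) w' = 1 := by
        apply mul_left_cancel₀ (mul_ne_zero hqb hqb)
        rw [h1, mul_one]
      rw [Ideal.one_eq_top] at h5
      have h6 := (j17_top w').1 h5
      rw [h6, Ideal.mul_top] at hw'
      exact hn (hw' ▸ hw.isPrime)
  have h5 : Ideal.relNorm (𝓞 K) w' = Ideal.span {π} := by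
    rw [h4] at h1
    exact mul_left_cancel₀ hqb h1
  have hwb : w ≠ ⊥ := by
    rintro rfl
    rw [Ideal.bot_mul] at hw'
    exact hUb hw'
  have hwb' : w' ≠ ⊥ := by
    rintro rfl
    rw [Ideal.mul_bot] at hw'
    exact hUb hw'
  refine ⟨w, w', hw.isPrime, j17_prime hq h5, ?_, hwb, hwb', hw'.symm, h4, h5⟩
  rintro rfl
  have h6 : w ^ 2 ∣ (Ideal.span {π}).map (algebraMap (𝓞 K) (𝓞 L)) := by
    rw [Ideal.map_span, Set.image_singleton, pow_two]
    exact ⟨1, by rw [mul_one]; exact hw'⟩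
  have h7 := pow_sub_one_dvd_differentIdeal (𝓞 K) w 2 hqb h6
  rw [show 2 - 1 = 1 from rfl, pow_one] at h7
  have h8 : Ideal.relNorm (𝓞 K) w ∣ lev K m := by
    rw [lev]
    exact map_dvd (Ideal.relNorm (𝓞 K)) (h7.mul_left m)
  rw [h4] at h8
  exact hπ.lev (Ideal.dvd_iff_le.1 h8)

end Pool.Agent.H2S
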