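import Pool.Agent.Lib.H2S.J06
import Pool.Agent.Lib.H2S.J14
import Pool.Agent.Lib.H2S.J17

/-!
# H2S, chunk J18 (size M): the relations of `A`, inert primes; general lemmas

`q = span {π}`, `S n = {a | relNorm a = n}` (finite for `n ≠ ⊥`: `j06_fin`), `A n = ∑ ψ a` over `a ∈ S n`.

`j18_psi`: `Ψ.prin` for `x = algebraMap (𝓞 K) (𝓞 L) π`: `ε x = sg L π` (`Ψ.good`), `τ x = x` (`AlgEquiv.commutes`; `(x : L) = algebraMap K L π`),
`s (cc x) = conj (s x)` (`Fld.cj`), `s x * conj (s x) = ‖s x‖ ^ 2` (`Complex.mul_conj`, `Complex.normSq_eq_norm_sq`), `s x = sK π`.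

`j18_mul`: for a nonzero ideal `d` of `𝓞 L`: the map `c ↦ d * c` is a bijection from `S n` to `{c ∈ S (relNorm d * n) | d ∣ c}` (injective:
`mul_left_cancel₀`; surjective: `c = d * c'`, `relNorm d * relNorm c' = relNorm d * n`, cancel `relNorm d ≠ ⊥`:
`Ideal.relNorm_eq_bot_iff`), and `ψ (d * c) = ψ d * ψ c`.  (`finsum_mem_eq_of_bijOn` or `finsum_mem_image`, `mul_finsum_mem`-like `mul_finsum`; or pass
to `Finset` sums with `Finset.sum_bij`, `Finset.mul_sum`.)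

`j18_inert`: `up L π` is prime, `sg L π = -1` (definition).  Every `c ∈ S (q * n)` satisfies `relNorm c ≤ q` (`Ideal.mul_le_right`), so `up L π ∣ c` (`j17_cop`, `j17_dvd`; `up L π ≠ ⊥`).
(1) `A q = 0`: `c ∈ S q`, `c = up L π * c'`, `q = q * q * relNorm c'` (`j17_up`), cancel: `⊤ = q * relNorm c'`, so `q = ⊤`, `π` a unit: impossible.
(2) if `¬ q ∣ n` then `A (q * n) = 0`: `c = up L π * c'` gives `q * n = q * q * relNorm c'`, `n = q * relNorm c'`.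
(3) `A (q * (q * n)) = ψ (up L π) * A n` (`j18_mul` with `d = up L π`, `j17_up`, all `c` are divisible by `d`), and `ψ (up L π) = - ‖sK π‖ ^ 2`.
-/

set_option autoImplicit false
namespace Pool.Agent.H2S
open Complex NumberField

variable {K L : Type*} [Field K] [NumberField K] [Field L] [NumberField L] [Algebra K L]
  {F : Fld K L} {m : Ideal (𝓞 L)} {p : ℕ}

theorem j18_psi (Ψ : Psi F m p) {π : 𝓞 K} (hπ : GoodPrime m p π) :
    Ψ.ψ (up L π) = sg L π * ((‖F.sK (π : K)‖ ^ 2 : ℝ) : ℂ) := by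
  have h1 : F.s (((algebraMap (𝓞 K) (𝓞 L) π : 𝓞 L) : L) * F.cc (F.τ ((algebraMap (𝓞 K) (𝓞 L) π : 𝓞 L) : L))) =
      ((‖F.sK (π : K)‖ ^ 2 : ℝ) : ℂ) := by
    rw [j17_coe_map, AlgEquiv.commutes, map_mul, F.cj]
    change F.sK (π : K) * (starRingEnd ℂ) (F.sK (π : K)) = _
    rw [Complex.mul_conj, Complex.normSq_eq_norm_sq]
  rw [up, Ψ.prin, Ψ.good π hπ, h1]

theorem j18_mul (Ψ : Psi F m p) {d : Ideal (𝓞 L)} (hd : d ≠ ⊥) {n : Ideal (𝓞 K)} (hn : n ≠ ⊥) :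
    ∑ᶠ c ∈ {c : Ideal (𝓞 L) | Ideal.relNorm (𝓞 K) c = Ideal.relNorm (𝓞 K) d * n ∧ d ∣ c}, Ψ.ψ c =
      Ψ.ψ d * Ψ.A n := by
  have hd' : Ideal.relNorm (𝓞 K) d ≠ 0 := by
    rw [Ideal.zero_eq_bot]
    exact fun h => hd (Ideal.relNorm_eq_bot_iff.1 h)
  have h1 : {c : Ideal (𝓞 L) | Ideal.relNorm (𝓞 K) c = Ideal.relNorm (𝓞 K) d * n ∧ d ∣ c} =
      (fun c => d * c) '' {c : Ideal (𝓞 L) | Ideal.relNorm (𝓞 K) c = n} := by
    ext c
    constructor
    · rintro ⟨h2, c', rfl⟩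
      rw [map_mul] at h2
      exact ⟨c', mul_left_cancel₀ hd' h2, rfl⟩
    · rintro ⟨c', h2, rfl⟩
      refine ⟨?_, dvd_mul_right d c'⟩
      change Ideal.relNorm (𝓞 K) (d * c') = _
      rw [map_mul]
      rw [show Ideal.relNorm (𝓞 K) c' = n from h2]
  rw [h1, finsum_mem_image fun a _ b _ hab => mul_left_cancel₀ hd hab, Psi.A, mul_finsum_mem]
  exact finsum_mem_congr rfl fun c _ => map_mul Ψ.ψ d c

theorem j18_inert (Ψ : Psi F m p) {π : 𝓞 K} (hπ : GoodPrime m p π) (hp : (up L π).IsPrime) {n : Ideal (𝓞 K)}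
    (hn : n ≠ ⊥) : Ψ.A (Ideal.span {π}) = 0 ∧ (¬ Ideal.span {π} ∣ n → Ψ.A (Ideal.span {π} * n) = 0) ∧
      Ψ.A (Ideal.span {π} * (Ideal.span {π} * n)) = -((‖F.sK (π : K)‖ ^ 2 : ℝ) : ℂ) * Ψ.A n := by
  have hπ0 : π ≠ 0 := hπ.prime.ne_zero
  have hqb : Ideal.span {π} ≠ ⊥ := fun h => hπ0 (Ideal.span_singleton_eq_bot.1 h)
  have hU := j17_up (L := L) F π
  have hUb : up L π ≠ ⊥ := by
    intro h
    rw [h, Ideal.relNorm_bot] at hU
    exact mul_ne_zero hqb hqb (hU.symm.trans Ideal.zero_eq_bot.symm)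
  have hdiv : ∀ {c : Ideal (𝓞 L)} {k : Ideal (𝓞 K)}, Ideal.relNorm (𝓞 K) c = Ideal.span {π} * k → up L π ∣ c := by
    intro c k h
    refine j17_dvd hp hUb (j17_cop F hπ.prime ?_)
    rw [h]
    exact Ideal.mul_le_left
  have hdiv2 : ∀ {c : Ideal (𝓞 L)} {k : Ideal (𝓞 K)}, Ideal.relNorm (𝓞 K) c = Ideal.span {π} * k → Ideal.span {π} ∣ k := by
    intro c k h
    obtain ⟨c', rfl⟩ := hdiv h
    rw [map_mul, hU, mul_assoc] at h
    exact ⟨_, (mul_left_cancel₀ hqb h).symm⟩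
  refine ⟨?_, ?_, ?_⟩
  · have h1 : {a : Ideal (𝓞 L) | Ideal.relNorm (𝓞 K) a = Ideal.span {π}} = ∅ := by
      ext c
      simp only [Set.mem_ofPred_eq, Set.mem_empty_iff_false, iff_false]
      intro h
      have h2 : Ideal.span {π} ∣ 1 := hdiv2 (c := c) (k := 1) (by rw [mul_one]; exact h)
      have h3 : IsUnit (Ideal.span {π}) := isUnit_of_dvd_one h2
      rw [Ideal.isUnit_iff, Ideal.span_singleton_eq_top] at h3
      exact hπ.prime.not_isUnit h3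
    rw [Psi.A, h1, finsum_mem_empty]
  · intro hq
    have h1 : {a : Ideal (𝓞 L) | Ideal.relNorm (𝓞 K) a = Ideal.span {π} * n} = ∅ := by
      ext c
      simp only [Set.mem_ofPred_eq, Set.mem_empty_iff_false, iff_false]
      exact fun h => hq (hdiv2 h)
    rw [Psi.A, h1, finsum_mem_empty]
  · have h1 := j18_mul Ψ hUb hn
    have h2 : {c : Ideal (𝓞 L) | Ideal.relNorm (𝓞 K) c = Ideal.relNorm (𝓞 K) (up L π) * n ∧ up L π ∣ c} =
        {c : Ideal (𝓞 L) | Ideal.relNorm (𝓞 K) c = Ideal.span {π} * (Ideal.span {π} * n)} := by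
      ext c
      simp only [Set.mem_ofPred_eq]
      rw [hU, mul_assoc]
      exact ⟨fun h => h.1, fun h => ⟨h, hdiv h⟩⟩
    rw [h2, j18_psi Ψ hπ] at h1
    have h3 : sg L π = -1 := by
      rw [sg, if_pos hp]
    rw [h3, neg_one_mul] at h1
    exact h1

end Pool.Agent.H2S
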