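import Pool.Agent.Lib.H2S.J18

/-!
# H2S, chunk J19 (size M): the relations of `A`

`q = span {π}`, `S n = {a | relNorm a = n}`.

`j19_split`: `up L π` not prime; `w`, `w'` from `j17_split`.  For `n ≠ ⊥`: every `c ∈ S (q * n)` is divisible by `w` or `w'`: otherwise `c` is prime to `w` and to
`w'` (`j17_dvd`), hence to `w * w' = up L π` (`IsCoprime.mul_right`), against `j17_cop` (`relNorm c = q * n ≤ q`).  And `w ∣ c` and `w' ∣ c` together mean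
`up L π = w * w' ∣ c` (`IsCoprime.mul_dvd`; `w`, `w'` are different maximal ideals, so coprime: `Ideal.isCoprime_of_isMaximal`-like).
Inclusion-exclusion: `∑ (c ∈ S (q n)) ψ c + ∑ (c ∈ S (q n), up L π ∣ c) ψ c = ∑ (c ∈ S (q n), w ∣ c) ψ c + ∑ (c ∈ S (q n), w' ∣ c) ψ c = (ψ w + ψ w') * A n`
(`finsum_mem_union_inter` for finite sets, `j18_mul` with `relNorm w = relNorm w' = q`).
`n = ⊤`: `up L π ∣ c` is impossible for `c ∈ S q` (`q * q ∣ q`), so `A q = (ψ w + ψ w') * A ⊤ = ψ w + ψ w'` (`j14_one`; `q * ⊤ = q`).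
`¬ q ∣ n`: `up L π ∣ c` gives `q * q ∣ q * n`, `q ∣ n`: no such `c`; so `A (q * n) = A q * A n`.
`n = q * n'`: `∑ (c ∈ S (q * (q * n')), up L π ∣ c) ψ c = ψ (up L π) * A n'` (`j18_mul`, `j17_up`, `mul_assoc`), and `ψ (up L π) = ‖sK π‖ ^ 2` (`j18_psi`, `sg L π = 1`).

`j19a`, `j19b`: the case `up L π` prime is `j18_inert` (`A q = 0`).
-/

set_option autoImplicit false
namespace Pool.Agent.H2S
open Complex NumberField

variable {K L : Type*} [Field K] [NumberField K] [Field L] [NumberField L] [Algebra K L]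
  {F : Fld K L} {m : Ideal (𝓞 L)} {p : ℕ}

/-- The inclusion-exclusion formula. -/
theorem j19_main (Ψ : Psi F m p) {π : 𝓞 K} (hπ : GoodPrime m p π) {w w' : Ideal (𝓞 L)} (hw : w.IsPrime) (hw' : w'.IsPrime)
    (hne : w ≠ w') (h0 : w ≠ ⊥) (h0' : w' ≠ ⊥) (hww : w * w' = up L π) (hN : Ideal.relNorm (𝓞 K) w = Ideal.span {π})
    (hN' : Ideal.relNorm (𝓞 K) w' = Ideal.span {π}) {n : Ideal (𝓞 K)} (hn : n ≠ ⊥) :
    Ψ.A (Ideal.span {π} * n) + ∑ᶠ c ∈ {c : Ideal (𝓞 L) | Ideal.relNorm (𝓞 K) c = Ideal.span {π} * n ∧ up L π ∣ c}, Ψ.ψ c =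
      (Ψ.ψ w + Ψ.ψ w') * Ψ.A n := by
  have hq0 : Ideal.span {π} ≠ ⊥ := by
    rw [Ne, Ideal.span_singleton_eq_bot]
    exact hπ.prime.ne_zero
  have hqn : Ideal.span {π} * n ≠ ⊥ := by
    rw [← Ideal.zero_eq_bot] at hq0 hn ⊢
    exact mul_ne_zero hq0 hn
  have hcop : IsCoprime w w' := by
    by_contra h
    exact hne (dvd_antisymm (j17_dvd hw h0 (fun h2 => h h2.symm)) (j17_dvd hw' h0' h))
  have hdiv : ∀ c : Ideal (𝓞 L), Ideal.relNorm (𝓞 K) c = Ideal.span {π} * n → w ∣ c ∨ w' ∣ c := by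
    intro c hc
    by_contra h
    rw [not_or] at h
    have h1 : IsCoprime c w := by
      by_contra h2
      exact h.1 (j17_dvd hw h0 h2)
    have h3 : IsCoprime c w' := by
      by_contra h2
      exact h.2 (j17_dvd hw' h0' h2)
    refine j17_cop F hπ.prime (c := c) ?_ ?_
    · rw [hc]
      exact Ideal.mul_le_left
    · rw [← hww]
      exact IsCoprime.mul_right h1 h3
  have hfs : {c : Ideal (𝓞 L) | Ideal.relNorm (𝓞 K) c = Ideal.span {π} * n ∧ w ∣ c}.Finite :=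
    (j06_fin hqn).subset fun c hc => hc.1
  have hft : {c : Ideal (𝓞 L) | Ideal.relNorm (𝓞 K) c = Ideal.span {π} * n ∧ w' ∣ c}.Finite :=
    (j06_fin hqn).subset fun c hc => hc.1
  have key := finsum_mem_union_inter (f := fun c => Ψ.ψ c) hfs hft
  have e1 : {c : Ideal (𝓞 L) | Ideal.relNorm (𝓞 K) c = Ideal.span {π} * n ∧ w ∣ c} ∪
      {c : Ideal (𝓞 L) | Ideal.relNorm (𝓞 K) c = Ideal.span {π} * n ∧ w' ∣ c} =
      {c : Ideal (𝓞 L) | Ideal.relNorm (𝓞 K) c = Ideal.span {π} * n} := by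
    ext c
    constructor
    · rintro (h | h)
      · exact h.1
      · exact h.1
    · intro h
      rcases hdiv c h with h1 | h1
      · exact Or.inl ⟨h, h1⟩
      · exact Or.inr ⟨h, h1⟩
  have e2 : {c : Ideal (𝓞 L) | Ideal.relNorm (𝓞 K) c = Ideal.span {π} * n ∧ w ∣ c} ∩
      {c : Ideal (𝓞 L) | Ideal.relNorm (𝓞 K) c = Ideal.span {π} * n ∧ w' ∣ c} =
      {c : Ideal (𝓞 L) | Ideal.relNorm (𝓞 K) c = Ideal.span {π} * n ∧ up L π ∣ c} := by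
    ext c
    constructor
    · rintro ⟨h, h'⟩
      refine ⟨h.1, ?_⟩
      rw [← hww]
      exact IsCoprime.mul_dvd hcop h.2 h'.2
    · rintro ⟨h, h'⟩
      rw [← hww] at h'
      exact ⟨⟨h, (dvd_mul_right w w').trans h'⟩, ⟨h, (dvd_mul_left w' w).trans h'⟩⟩
  have e3 := j18_mul Ψ h0 hn
  have e4 := j18_mul Ψ h0' hn
  rw [hN] at e3
  rw [hN'] at e4
  rw [e1, e2, e3, e4] at key
  unfold Psi.A at key ⊢
  rw [key]
  ring

theorem j19_split (Ψ : Psi F m p) {π : 𝓞 K} (hπ : GoodPrime m p π) (hp : ¬ (up L π).IsPrime) {n : Ideal (𝓞 K)}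
    (hn : n ≠ ⊥) : (¬ Ideal.span {π} ∣ n → Ψ.A (Ideal.span {π} * n) = Ψ.A (Ideal.span {π}) * Ψ.A n) ∧
      Ψ.A (Ideal.span {π} * (Ideal.span {π} * n)) + ((‖F.sK (π : K)‖ ^ 2 : ℝ) : ℂ) * Ψ.A n =
        Ψ.A (Ideal.span {π}) * Ψ.A (Ideal.span {π} * n) := by
  obtain ⟨w, w', hw, hw', hne, h0, h0', hww, hN, hN'⟩ := j17_split F hπ hp
  have hq0 : Ideal.span {π} ≠ ⊥ := by
    rw [Ne, Ideal.span_singleton_eq_bot]
    exact hπ.prime.ne_zero
  have hqn : Ideal.span {π} * n ≠ ⊥ := by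
    rw [← Ideal.zero_eq_bot] at hq0 hn ⊢
    exact mul_ne_zero hq0 hn
  have hempty : ∀ n' : Ideal (𝓞 K), ¬ Ideal.span {π} ∣ n' →
      ∑ᶠ c ∈ {c : Ideal (𝓞 L) | Ideal.relNorm (𝓞 K) c = Ideal.span {π} * n' ∧ up L π ∣ c}, Ψ.ψ c = 0 := by
    intro n' hn'
    have h1 : {c : Ideal (𝓞 L) | Ideal.relNorm (𝓞 K) c = Ideal.span {π} * n' ∧ up L π ∣ c} = ∅ := by
      rw [Set.eq_empty_iff_forall_notMem]
      rintro c ⟨hc, hd⟩
      have h2 := map_dvd (Ideal.relNorm (𝓞 K)) hd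
      rw [hc, j17_up F] at h2
      exact hn' ((mul_dvd_mul_iff_left hq0).1 h2)
    rw [h1, finsum_mem_empty]
  have hmain : ∀ {n' : Ideal (𝓞 K)}, n' ≠ ⊥ → Ψ.A (Ideal.span {π} * n') +
      ∑ᶠ c ∈ {c : Ideal (𝓞 L) | Ideal.relNorm (𝓞 K) c = Ideal.span {π} * n' ∧ up L π ∣ c}, Ψ.ψ c =
      (Ψ.ψ w + Ψ.ψ w') * Ψ.A n' := fun {n'} h => j19_main Ψ hπ hw hw' hne h0 h0' hww hN hN' h
  have htop : ¬ Ideal.span {π} ∣ (⊤ : Ideal (𝓞 K)) := by
    intro h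
    rw [← Ideal.one_eq_top] at h
    have h1 := isUnit_of_dvd_one h
    rw [Ideal.isUnit_iff, Ideal.span_singleton_eq_top] at h1
    exact hπ.prime.not_isUnit h1
  have hone : (⊤ : Ideal (𝓞 K)) ≠ ⊥ := by
    intro h
    rw [← Ideal.one_eq_top, ← Ideal.zero_eq_bot] at h
    exact one_ne_zero h
  have hA : Ψ.A (Ideal.span {π}) = Ψ.ψ w + Ψ.ψ w' := by
    have h1 := hmain hone
    rw [hempty _ htop, add_zero, j14_one, mul_one, Ideal.mul_top] at h1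
    exact h1
  refine ⟨fun h => ?_, ?_⟩
  · have h1 := hmain hn
    rw [hempty n h, add_zero] at h1
    rw [hA, h1]
  · have h1 := hmain hqn
    have hup0 : up L π ≠ ⊥ := by
      rw [← hww]
      rw [← Ideal.zero_eq_bot] at h0 h0' ⊢
      exact mul_ne_zero h0 h0'
    have h2 := j18_mul Ψ hup0 hn
    rw [j17_up F, mul_assoc, j18_psi Ψ hπ] at h2
    have h3 : sg L π = 1 := by
      unfold sg
      rw [if_neg hp]
    rw [h3, one_mul] at h2
    rw [h2] at h1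
    rw [hA, h1]

theorem j19a (Ψ : Psi F m p) {π : 𝓞 K} (hπ : GoodPrime m p π) {β : 𝓞 K} (hβ : β ≠ 0) (h : ¬ π ∣ β) :
    Ψ.A (Ideal.span {π * β}) = Ψ.A (Ideal.span {π}) * Ψ.A (Ideal.span {β}) := by
  have hn : Ideal.span {β} ≠ ⊥ := by
    rw [Ne, Ideal.span_singleton_eq_bot]
    exact hβ
  have hd : ¬ Ideal.span {π} ∣ Ideal.span {β} := by
    rw [Ideal.dvd_iff_le, Ideal.span_singleton_le_span_singleton]
    exact h
  rw [← Ideal.span_singleton_mul_span_singleton]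
  by_cases hp : (up L π).IsPrime
  · obtain ⟨h1, h2, -⟩ := j18_inert Ψ hπ hp hn
    rw [h2 hd, h1, zero_mul]
  · exact (j19_split Ψ hπ hp hn).1 hd

theorem j19b (Ψ : Psi F m p) {π : 𝓞 K} (hπ : GoodPrime m p π) {β : 𝓞 K} (hβ : β ≠ 0) :
    Ψ.A (Ideal.span {π * (π * β)}) + ((‖F.sK (π : K)‖ ^ 2 : ℝ) : ℂ) * Ψ.A (Ideal.span {β}) =
      Ψ.A (Ideal.span {π}) * Ψ.A (Ideal.span {π * β}) := by
  have hn : Ideal.span {β} ≠ ⊥ := by
    rw [Ne, Ideal.span_singleton_eq_bot]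
    exact hβ
  rw [← Ideal.span_singleton_mul_span_singleton, ← Ideal.span_singleton_mul_span_singleton]
  by_cases hp : (up L π).IsPrime
  · obtain ⟨h1, -, h2⟩ := j18_inert Ψ hπ hp hn
    rw [h2, h1, zero_mul]
    ring
  · exact (j19_split Ψ hπ hp hn).2

end Pool.Agent.H2S
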