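import Pool.Agent.Lib.H2S.J07
import Pool.Agent.Lib.H2S.J08
import Pool.Agent.Lib.H2S.J16

/-!
# H2S, chunk J20A (size M): the Hecke relation of `FF`, preparations

`P = (z, t)`, `c = ‖sK π‖ > 0`, `fr δ β = sK (β / δ)`, `w δ β (z, t) = kap ‖fr δ β‖ t * eT (z * fr δ β)`.

`j20_sm`: `cf 0 = 0`; for `β ≠ 0`: `‖cf β‖ * ‖w δ β P‖ ≤ C ‖cf β‖ exp (-(c' * ‖fr δ β‖))`, `c' = 2 π t`, by `j08_w` (`‖fr δ β‖ = ‖sK β‖ / ‖sK δ‖`); and
`(j07_KS Ψ hδ).sm c'`.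

`j20a`: for `P1 i = ((z + sK (b i)) / sK π, t / c)`: `∑ i, w δ β (P1 i) = kap ‖fr δ β‖ (t / c) * eT (z * sK (β / (π δ))) * ∑ i, eT (sK (b i * β / (π * δ)))`
(`eT (x + y) = eT x * eT y`, by `Complex.exp_add`), and the last sum is `c ^ 2` if `π ∣ β`, else `0` (`j16`).  For `β = π γ`:
`kap ‖fr δ (π γ)‖ (t / c) = kap (c * ‖fr δ γ‖) (t / c) = (c ^ 2)⁻¹ * kap ‖fr δ γ‖ t` (`j05c`), `sK (π γ / (π δ)) = fr δ γ`.  So
`∑ i, w δ (π * γ) (P1 i) = w δ γ P`, and `∑ i, w δ β (P1 i) = 0` if `¬ π ∣ β`.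
-/

set_option autoImplicit false
namespace Pool.Agent.H2S
open Complex NumberField

variable {K L : Type*} [Field K] [NumberField K] [Field L] [NumberField L] [Algebra K L]
  {F : Fld K L} {m : Ideal (𝓞 L)} {p : ℕ}

theorem j20_eT (x y : ℂ) : eT (x + y) = eT x * eT y := by
  unfold eT
  rw [← Complex.exp_add]
  refine congrArg Complex.exp ?_
  rw [Complex.add_re]
  push_cast
  ring

theorem j20_sm (Ψ : Psi F m p) {δ : 𝓞 K} (hδ : δ ≠ 0) {P : ℂ × ℝ} (hP : P ∈ H3) :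
    Summable fun β : 𝓞 K => ‖Ψ.cf β * F.w δ β P‖ := by
  have hP' : 0 < P.2 := hP
  have hd0 : 0 < ‖F.sK (δ : K)‖ := lt_of_lt_of_le one_pos (j06_ge F hδ)
  have hc : 0 < 2 * Real.pi * P.2 := by
    have := Real.pi_pos
    positivity
  refine Summable.of_nonneg_of_le (fun β => norm_nonneg _) (fun β => ?_)
    (((j07_KS Ψ hδ).sm _ hc).mul_left (‖F.sK (δ : K)‖ ^ 2))
  by_cases hβ : β = 0
  · have h0 : Ψ.cf β = 0 := by
      unfold Psi.cf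
      rw [if_pos hβ]
    rw [h0, zero_mul, norm_zero, zero_mul, mul_zero]
  · rw [norm_mul]
    refine (mul_le_mul_of_nonneg_left (j08_w F hδ hP hβ) (norm_nonneg _)).trans (le_of_eq ?_)
    have h1 : 2 * Real.pi * P.2 / ‖F.sK (δ : K)‖ * ‖F.sK (β : K)‖ = 2 * Real.pi * P.2 * ‖F.fr δ β‖ := by
      unfold Fld.fr
      rw [map_div₀, norm_div]
      ring
    rw [h1]
    ring

theorem j20a (F : Fld K L) {δ : 𝓞 K} (hδ : δ ≠ 0) (hd : differentIdeal ℤ (𝓞 K) = Ideal.span {δ}) {π : 𝓞 K} (hπ : π ≠ 0)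
    {ι : Type*} [Fintype ι] (b : ι → 𝓞 K) (hb : Function.Bijective fun i => Ideal.Quotient.mk (Ideal.span {π}) (b i))
    (P : ℂ × ℝ) (β : 𝓞 K) :
    (∀ γ, β = π * γ → ∑ i, F.w δ β ((P.1 + F.sK (b i : K)) / F.sK (π : K), P.2 / ‖F.sK (π : K)‖) = F.w δ γ P) ∧
      (¬ π ∣ β → ∑ i, F.w δ β ((P.1 + F.sK (b i : K)) / F.sK (π : K), P.2 / ‖F.sK (π : K)‖) = 0) := by
  have hπK : (π : K) ≠ 0 := fun h => hπ (RingOfIntegers.coe_injective (h.trans (map_zero _).symm))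
  have hδK : (δ : K) ≠ 0 := fun h => hδ (RingOfIntegers.coe_injective (h.trans (map_zero _).symm))
  have hπs : F.sK (π : K) ≠ 0 := (map_ne_zero F.sK).2 hπK
  have hc : 0 < ‖F.sK (π : K)‖ := norm_pos_iff.2 hπs
  have hsum : ∑ i, F.w δ β ((P.1 + F.sK (b i : K)) / F.sK (π : K), P.2 / ‖F.sK (π : K)‖) =
      (kap ‖F.sK ((β : K) / (δ : K))‖ (P.2 / ‖F.sK (π : K)‖) : ℝ) *
        eT (P.1 / F.sK (π : K) * F.sK ((β : K) / (δ : K))) *
        ∑ i, eT (F.sK ((b i : K) * (β : K) / ((π : K) * (δ : K)))) := by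
    rw [Finset.mul_sum]
    refine Finset.sum_congr rfl fun i _ => ?_
    unfold Fld.w
    dsimp only
    have h1 : (P.1 + F.sK (b i : K)) / F.sK (π : K) * F.sK ((β : K) / (δ : K)) =
        P.1 / F.sK (π : K) * F.sK ((β : K) / (δ : K)) + F.sK ((b i : K) * (β : K) / ((π : K) * (δ : K))) := by
      rw [map_div₀, map_div₀, map_mul, map_mul]
      have hδs : F.sK (δ : K) ≠ 0 := (map_ne_zero F.sK).2 hδK
      field_simp
    rw [h1, j20_eT]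
    ring
  have hj := j16 F hδ hd hπ b hb β
  constructor
  · rintro γ rfl
    rw [hsum, hj, if_pos (dvd_mul_right π γ)]
    have e0 : ((π * γ : 𝓞 K) : K) = (π : K) * (γ : K) := map_mul (algebraMap (𝓞 K) K) π γ
    have e1 : ‖F.sK (((π * γ : 𝓞 K) : K) / (δ : K))‖ = ‖F.sK (π : K)‖ * ‖F.sK ((γ : K) / (δ : K))‖ := by
      rw [e0, mul_div_assoc, map_mul, norm_mul]
    have e2 : P.1 / F.sK (π : K) * F.sK (((π * γ : 𝓞 K) : K) / (δ : K)) = P.1 * F.sK ((γ : K) / (δ : K)) := by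
      rw [e0, mul_div_assoc, map_mul]
      field_simp
    rw [e1, e2, j05c _ _ hc]
    unfold Fld.w
    have hc2 : (((‖F.sK (π : K)‖ ^ 2 : ℝ)) : ℂ) ≠ 0 := by
      exact_mod_cast (pow_pos hc 2).ne'
    rw [Complex.ofReal_mul, Complex.ofReal_inv]
    field_simp
  · intro hnd
    rw [hsum, hj, if_neg hnd, mul_zero]

end Pool.Agent.H2S
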