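import Pool.Agent.Lib.H2S.J19
import Pool.Agent.Lib.H2S.J20A

/-!
# H2S, chunk J20 (size M): the Hecke relation of `FF`

`P = (z, t)`, `c = ‖sK π‖ > 0`, `fr δ β = sK (β / δ)`, `w δ β (z, t) = kap ‖fr δ β‖ t * eT (z * fr δ β)`, and
`FF δ P = ∑' β, cf β * w δ β P` (`cf 0 = 0`; definitions, `tsum_congr`), absolutely convergent for `P ∈ H3` (`j20_sm`).

`j20_1`: `P1 i = ((z + sK (b i)) / sK π, t / c) ∈ H3`.  `∑ i, FF δ (P1 i) = ∑' β, cf β * ∑ i, w δ β (P1 i)` (`Summable.tsum_finsetSum`, `Finset.mul_sum`) and by `j20a` this is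
`∑' γ, cf (π * γ) * w δ γ P` (`Function.Injective.tsum_eq (hg : Injective g) (hf : support f ⊆ Set.range g) : ∑' c, f (g c) = ∑' b, f b` for
`γ ↦ π * γ`; the support lies in the multiples of `π`).

`j20_2`: `w δ β (sK π * z, c * t) = kap ‖fr δ β‖ (c t) * eT (z * fr δ (π β)) = c ^ 2 * w δ (π * β) P` (`j05c` with `t` replaced by `c * t`:
`kap (c r) t = (c ^ 2)⁻¹ * kap r (c t)`, `‖fr δ (π β)‖ = c * ‖fr δ β‖`).  So `FF δ (sK π * z, c * t) = c ^ 2 * ∑' β, cf β * w δ (π * β) P`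
(`tsum_mul_left`).

`j20`: put `g γ = (if π ∣ γ then cf (γ / π) else 0)` (choose the quotient); `∑' β, cf β * w δ (π β) P = ∑' γ, g γ * w δ γ P`
(`Function.Injective.tsum_eq` again).  Then for every `γ`: `cf (π * γ) + c ^ 2 * g γ = A (span {π}) * cf γ`: for `γ = 0` both sides are `0`; for
`γ ≠ 0`, `¬ π ∣ γ`: `j19a`; for `γ = π β`: `j19b`.  Add the two series (`Summable.tsum_add`, `tsum_mul_left`).  Their summability: that of `∑ g γ * w δ γ P`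
follows from `j20_sm` at the point `(sK π * z, c * t)` (as in `j20_2`; `Function.Injective.summable_iff`), that of
`∑ cf (π * γ) * w δ γ P` from the same point estimate: `cf (π * γ) = A (span {π}) * cf γ - c ^ 2 * g γ`.
-/

set_option autoImplicit false
namespace Pool.Agent.H2S
open Complex NumberField

variable {K L : Type*} [Field K] [NumberField K] [Field L] [NumberField L] [Algebra K L]
  {F : Fld K L} {m : Ideal (𝓞 L)} {p : ℕ}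

theorem j20_FF (Ψ : Psi F m p) (δ : 𝓞 K) (P : ℂ × ℝ) : Ψ.FF δ P = ∑' β, Ψ.cf β * F.w δ β P := by
  unfold Psi.FF Psi.cf
  refine tsum_congr fun β => ?_
  split_ifs
  · rw [zero_mul]
  · rfl

theorem j20_pos (F : Fld K L) {π : 𝓞 K} (hπ : π ≠ 0) : 0 < ‖F.sK (π : K)‖ := by
  have hd : (π : K) ≠ 0 := fun h => hπ (RingOfIntegers.ext h)
  exact norm_pos_iff.2 ((map_ne_zero F.sK).2 hd)

theorem j20_cf0 (Ψ : Psi F m p) : Ψ.cf 0 = 0 := by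
  unfold Psi.cf
  rw [if_pos rfl]

theorem j20_cf (Ψ : Psi F m p) {β : 𝓞 K} (h : β ≠ 0) : Ψ.cf β = Ψ.A (Ideal.span {β}) := by
  unfold Psi.cf
  rw [if_neg h]

theorem j20_1 (Ψ : Psi F m p) {δ : 𝓞 K} (hδ : δ ≠ 0) (hd : differentIdeal ℤ (𝓞 K) = Ideal.span {δ}) {π : 𝓞 K} (hπ : π ≠ 0)
    {ι : Type*} [Fintype ι] (b : ι → 𝓞 K) (hb : Function.Bijective fun i => Ideal.Quotient.mk (Ideal.span {π}) (b i))
    {P : ℂ × ℝ} (hP : P ∈ H3) :
    ∑ i, Ψ.FF δ ((P.1 + F.sK (b i : K)) / F.sK (π : K), P.2 / ‖F.sK (π : K)‖) = ∑' γ, Ψ.cf (π * γ) * F.w δ γ P := by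
  have hc := j20_pos F hπ
  have hP1 : ∀ i, ((P.1 + F.sK (b i : K)) / F.sK (π : K), P.2 / ‖F.sK (π : K)‖) ∈ H3 := fun i => div_pos hP hc
  have e1 : ∑ i, Ψ.FF δ ((P.1 + F.sK (b i : K)) / F.sK (π : K), P.2 / ‖F.sK (π : K)‖) =
      ∑' β, ∑ i, Ψ.cf β * F.w δ β ((P.1 + F.sK (b i : K)) / F.sK (π : K), P.2 / ‖F.sK (π : K)‖) := by
    rw [Summable.tsum_finsetSum (fun i _ => (j20_sm Ψ hδ (hP1 i)).of_norm)]
    exact Finset.sum_congr rfl fun i _ => j20_FF Ψ δ _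
  rw [e1]
  have hinj : Function.Injective fun γ : 𝓞 K => π * γ := mul_right_injective₀ hπ
  rw [← Function.Injective.tsum_eq hinj]
  · refine tsum_congr fun γ => ?_
    rw [← Finset.mul_sum, (j20a F hδ hd hπ b hb P (π * γ)).1 γ rfl]
  · intro β hβ
    by_contra h
    apply hβ
    change ∑ i, Ψ.cf β * F.w δ β ((P.1 + F.sK (b i : K)) / F.sK (π : K), P.2 / ‖F.sK (π : K)‖) = 0
    rw [← Finset.mul_sum, (j20a F hδ hd hπ b hb P β).2 ?_, mul_zero]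
    rintro ⟨γ, hγ⟩
    exact h ⟨γ, hγ.symm⟩

theorem j20_w (F : Fld K L) (δ : 𝓞 K) {π : 𝓞 K} (hπ : π ≠ 0) (P : ℂ × ℝ) (β : 𝓞 K) :
    F.w δ β (F.sK (π : K) * P.1, ‖F.sK (π : K)‖ * P.2) = ((‖F.sK (π : K)‖ ^ 2 : ℝ) : ℂ) * F.w δ (π * β) P := by
  have hc := j20_pos F hπ
  have e0 : (((π * β : 𝓞 K) : K) / (δ : K)) = (π : K) * ((β : K) / (δ : K)) := by
    have e : ((π * β : 𝓞 K) : K) = (π : K) * (β : K) := map_mul (algebraMap (𝓞 K) K) π β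
    rw [e, mul_div_assoc]
  have e1 : kap ‖F.sK ((β : K) / (δ : K))‖ (‖F.sK (π : K)‖ * P.2) =
      ‖F.sK (π : K)‖ ^ 2 * kap (‖F.sK (π : K)‖ * ‖F.sK ((β : K) / (δ : K))‖) P.2 := by
    have h := j05c ‖F.sK ((β : K) / (δ : K))‖ (‖F.sK (π : K)‖ * P.2) hc
    rw [mul_div_cancel_left₀ _ hc.ne'] at h
    rw [h]
    have : (‖F.sK (π : K)‖ ^ 2) ≠ 0 := by positivity
    field_simp
  unfold Fld.w
  rw [e0, map_mul, norm_mul, e1]
  have e2 : F.sK (π : K) * P.1 * F.sK ((β : K) / (δ : K)) = P.1 * (F.sK (π : K) * F.sK ((β : K) / (δ : K))) := by ring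
  simp only [e2]
  push_cast
  ring

theorem j20_2 (Ψ : Psi F m p) {δ : 𝓞 K} (hδ : δ ≠ 0) {π : 𝓞 K} (hπ : π ≠ 0) (P : ℂ × ℝ) :
    Ψ.FF δ (F.sK (π : K) * P.1, ‖F.sK (π : K)‖ * P.2) =
      ((‖F.sK (π : K)‖ ^ 2 : ℝ) : ℂ) * ∑' β, Ψ.cf β * F.w δ (π * β) P := by
  rw [j20_FF, ← tsum_mul_left]
  refine tsum_congr fun β => ?_
  rw [j20_w F δ hπ]
  ring

theorem j20 (Ψ : Psi F m p) {δ : 𝓞 K} (hδ : δ ≠ 0) (hd : differentIdeal ℤ (𝓞 K) = Ideal.span {δ}) {π : 𝓞 K}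
    (hπ : GoodPrime m p π) {ι : Type*} [Fintype ι] (b : ι → 𝓞 K)
    (hb : Function.Bijective fun i => Ideal.Quotient.mk (Ideal.span {π}) (b i)) {P : ℂ × ℝ} (hP : P ∈ H3) :
    ∑ i, Ψ.FF δ ((P.1 + F.sK (b i : K)) / F.sK (π : K), P.2 / ‖F.sK (π : K)‖) +
      Ψ.FF δ (F.sK (π : K) * P.1, ‖F.sK (π : K)‖ * P.2) = Ψ.A (Ideal.span {π}) * Ψ.FF δ P := by
  classical
  have hπ0 : π ≠ 0 := hπ.prime.ne_zero
  have hc := j20_pos F hπ0
  have hinj : Function.Injective fun γ : 𝓞 K => π * γ := mul_right_injective₀ hπ0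
  rw [j20_1 Ψ hδ hd hπ0 b hb hP, j20_2 Ψ hδ hπ0, j20_FF Ψ δ P]
  let g : 𝓞 K → ℂ := fun γ => if h : ∃ β, γ = π * β then Ψ.cf h.choose else 0
  have hg1 : ∀ β, g (π * β) = Ψ.cf β := by
    intro β
    have h : ∃ β', π * β = π * β' := ⟨β, rfl⟩
    have h1 : g (π * β) = Ψ.cf h.choose := dif_pos h
    rw [h1, ← hinj h.choose_spec]
  have hg2 : ∀ γ, ¬ π ∣ γ → g γ = 0 := fun γ h => dif_neg fun ⟨β, hβ⟩ => h ⟨β, hβ⟩
  have hS2 : ∑' β, Ψ.cf β * F.w δ (π * β) P = ∑' γ, g γ * F.w δ γ P := by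
    rw [← Function.Injective.tsum_eq (f := fun γ => g γ * F.w δ γ P) hinj]
    · refine tsum_congr fun β => ?_
      rw [hg1]
    · intro γ hγ
      by_contra h
      apply hγ
      change g γ * F.w δ γ P = 0
      rw [hg2 γ (fun ⟨β, hβ⟩ => h ⟨β, hβ.symm⟩), zero_mul]
  have hs2 : Summable fun γ => g γ * F.w δ γ P := by
    refine (Function.Injective.summable_iff hinj ?_).1 ?_
    · intro γ hγ
      rw [hg2 γ (fun ⟨β, hβ⟩ => hγ ⟨β, hβ.symm⟩), zero_mul]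
    · have hP' : (F.sK (π : K) * P.1, ‖F.sK (π : K)‖ * P.2) ∈ H3 := mul_pos hc hP
      have h1 := ((j20_sm Ψ hδ hP').of_norm).mul_left (((‖F.sK (π : K)‖ ^ 2 : ℝ) : ℂ)⁻¹)
      have hc2 : ((‖F.sK (π : K)‖ ^ 2 : ℝ) : ℂ) ≠ 0 := by
        rw [Ne, Complex.ofReal_eq_zero]
        positivity
      have e : (fun γ => g γ * F.w δ γ P) ∘ (fun γ : 𝓞 K => π * γ) = fun β : 𝓞 K =>
          (((‖F.sK (π : K)‖ ^ 2 : ℝ) : ℂ)⁻¹) * (Ψ.cf β * F.w δ β (F.sK (π : K) * P.1, ‖F.sK (π : K)‖ * P.2)) := by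
        funext β
        change g (π * β) * F.w δ (π * β) P = _
        rw [hg1, j20_w F δ hπ0]
        field_simp
      rw [e]
      exact h1
  have hs0 : Summable fun γ => Ψ.cf γ * F.w δ γ P := (j20_sm Ψ hδ hP).of_norm
  have hrel : ∀ γ, Ψ.cf (π * γ) * F.w δ γ P = Ψ.A (Ideal.span {π}) * (Ψ.cf γ * F.w δ γ P) -
      ((‖F.sK (π : K)‖ ^ 2 : ℝ) : ℂ) * (g γ * F.w δ γ P) := by
    intro γ
    have h1 : Ψ.cf (π * γ) + ((‖F.sK (π : K)‖ ^ 2 : ℝ) : ℂ) * g γ = Ψ.A (Ideal.span {π}) * Ψ.cf γ := by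
      by_cases h0 : γ = 0
      · subst h0
        have h2 := hg1 0
        rw [mul_zero] at h2
        rw [mul_zero, h2, j20_cf0]
        ring
      · by_cases h2 : π ∣ γ
        · obtain ⟨β, rfl⟩ := h2
          have hβ : β ≠ 0 := by
            rintro rfl
            exact h0 (mul_zero _)
          rw [hg1, j20_cf Ψ hβ, j20_cf Ψ h0, j20_cf Ψ (mul_ne_zero hπ0 h0)]
          exact j19b Ψ hπ hβ
        · rw [hg2 γ h2, mul_zero, add_zero, j20_cf Ψ h0, j20_cf Ψ (mul_ne_zero hπ0 h0)]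
          exact j19a Ψ hπ h0 h2
    linear_combination F.w δ γ P * h1
  rw [hS2, tsum_congr hrel, Summable.tsum_sub (hs0.mul_left _) (hs2.mul_left _), tsum_mul_left, tsum_mul_left]
  ring

end Pool.Agent.H2S
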