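import Pool.Agent.Lib.H2S.J0

/-!
# H2S, chunk J21 (size M): matrices of determinant `π`, reduction by `Γ₀(N)`

`Gam0 N` = the invertible matrices whose entry `1 0` lies in `N` (the membership is definitional: `Iff.rfl`/`show`).

`j21_ut`: the matrix `!![u, f; 0, v]` has determinant the unit `u * v`: `Matrix.GeneralLinearGroup.mk''`, or `Matrix.nonsingInvUnit`, or give the inverse
`!![u⁻¹, -(u⁻¹ * f * v⁻¹); 0, v⁻¹]` and build the unit `⟨A, B, _, _⟩`.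
`j21_col`: `a`, `c` coprime: `r a + s c = 1`; `!![a, -s; c, r]` has determinant `1` (inverse `!![r, s; -c, a]`), it lies in `Gam0 N` if `c ∈ N`.
`j21_det`: `x = g * !![π, 0; 0, 1] * h`: `det x = det g * π * det h`, `det g`, `det h` units (`Matrix.det_mul`, `Matrix.isUnits_det_units`-like,
`Matrix.det_fin_two_of`); entry `1 0`: `x 1 0 = g 1 0 * π * h 0 0 + g 1 1 * h 1 0 ∈ N` (`Matrix.mul_apply`, `Fin.sum_univ_two`).
`j21_red`: `x = !![a, b; c, d]`, `c ∈ N`, `a d - b c = π v`, `v` a unit.  `𝓞 K` is a principal ideal ring: `span {a, c} = span {e}`, `a = e a'`,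
`c = e c'`, `r a' + s c' = 1` (`e ≠ 0` because `det x ≠ 0`).  `e ∣ det x`, so `e ∣ π`, so `e` is a unit or associated to `π`
(`Irreducible.dvd_iff`, `hπ.irreducible`).  `c' ∈ N`: if `e` is a unit, `c' = e⁻¹ c`.  If `e = π k`, `k` a unit: `span {π}` is maximal
(`PrincipalIdealRing.isMaximal_of_irreducible`), `N` is not contained in it, so `1 = n + π l` with `n ∈ N`, and `c' = n c' + l π c' = n c' + l k⁻¹ c ∈ N`.
`g0 = !![a', -s; c', r] ∈ Gam0 N` (`j21_col`), and `g0⁻¹ * x = !![e, f; 0, k]` for some `f`, `k` (first column: `g0 * (e, 0) = (a, c)`), with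
`e * k = det x = π v`.
If `e` is a unit: `k = e⁻¹ v π`; `!![e, f; 0, k] = !![e, 0; 0, e⁻¹ v] * !![1, e⁻¹ f; 0, π]` (`j21_ut`).
If `e = π k'` (`k'` a unit): `k = k'⁻¹ v` is a unit; `!![e, f; 0, k] = !![k', f; 0, k] * !![π, 0; 0, 1]` (`j21_ut`).
-/

set_option autoImplicit false
namespace Pool.Agent.H2S
open Complex NumberField

variable {K : Type*} [Field K] [NumberField K]

theorem j21_mk {N : Ideal (𝓞 K)} {x : Matrix (Fin 2) (Fin 2) (𝓞 K)} (hd : IsUnit x.det) (hN : x 1 0 ∈ N) :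
    ∃ g ∈ Gam0 N, (g : Matrix (Fin 2) (Fin 2) (𝓞 K)) = x := by
  obtain ⟨g, hg⟩ := (Matrix.isUnit_iff_isUnit_det x).2 hd
  refine ⟨g, ?_, hg⟩
  change (g : Matrix (Fin 2) (Fin 2) (𝓞 K)) 1 0 ∈ N
  rw [hg]
  exact hN

theorem j21_ut (N : Ideal (𝓞 K)) (u v : (𝓞 K)ˣ) (f : 𝓞 K) :
    ∃ g ∈ Gam0 N, (g : Matrix (Fin 2) (Fin 2) (𝓞 K)) = !![(u : 𝓞 K), f; 0, (v : 𝓞 K)] := by
  refine j21_mk ?_ ?_
  · rw [Matrix.det_fin_two_of, mul_zero, sub_zero]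
    exact (u * v).isUnit
  · change (0 : 𝓞 K) ∈ N
    exact N.zero_mem

theorem j21_col {N : Ideal (𝓞 K)} {a c : 𝓞 K} (h : IsCoprime a c) (hc : c ∈ N) :
    ∃ g ∈ Gam0 N, (g : Matrix (Fin 2) (Fin 2) (𝓞 K)) 0 0 = a ∧ (g : Matrix (Fin 2) (Fin 2) (𝓞 K)) 1 0 = c ∧
      (g : Matrix (Fin 2) (Fin 2) (𝓞 K)).det = 1 := by
  obtain ⟨r, s, hrs⟩ := h
  have hd : (!![a, -s; c, r] : Matrix (Fin 2) (Fin 2) (𝓞 K)).det = 1 := by
    rw [Matrix.det_fin_two_of, ← hrs]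
    ring
  obtain ⟨g, hg, hgx⟩ := j21_mk (N := N) (x := !![a, -s; c, r]) (by rw [hd]; exact isUnit_one) hc
  refine ⟨g, hg, ?_, ?_, ?_⟩
  · rw [hgx]
    rfl
  · rw [hgx]
    rfl
  · rw [hgx, hd]

theorem j21_det {N : Ideal (𝓞 K)} {π : 𝓞 K} {x : Matrix (Fin 2) (Fin 2) (𝓞 K)} (hx : x ∈ DC N π) :
    x 1 0 ∈ N ∧ Associated x.det π := by
  obtain ⟨g, hg, h, hh, rfl⟩ := hx
  have hg' : (g : Matrix (Fin 2) (Fin 2) (𝓞 K)) 1 0 ∈ N := hg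
  have hh' : (h : Matrix (Fin 2) (Fin 2) (𝓞 K)) 1 0 ∈ N := hh
  constructor
  · rw [Matrix.mul_apply, Fin.sum_univ_two, Matrix.mul_apply, Matrix.mul_apply, Fin.sum_univ_two, Fin.sum_univ_two]
    refine N.add_mem (N.mul_mem_right _ (N.add_mem (N.mul_mem_right _ hg') ?_)) (N.mul_mem_left _ hh')
    change (g : Matrix (Fin 2) (Fin 2) (𝓞 K)) 1 1 * 0 ∈ N
    rw [mul_zero]
    exact N.zero_mem
  · rw [Matrix.det_mul, Matrix.det_mul, Matrix.det_fin_two_of, mul_one, mul_zero, sub_zero]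
    exact (associated_mul_unit_left _ _ ((Matrix.isUnit_iff_isUnit_det _).1 h.isUnit)).trans
      (associated_unit_mul_left _ _ ((Matrix.isUnit_iff_isUnit_det _).1 g.isUnit))

theorem j21_red (hK : IsPrincipalIdealRing (𝓞 K)) {N : Ideal (𝓞 K)} {π : 𝓞 K} (hπ : Prime π)
    (hN : ¬ N ≤ Ideal.span {π}) {x : Matrix (Fin 2) (Fin 2) (𝓞 K)} (h1 : x 1 0 ∈ N) (h2 : Associated x.det π) :
    (∃ g ∈ Gam0 N, x = (g : Matrix (Fin 2) (Fin 2) (𝓞 K)) * !![π, 0; 0, 1]) ∨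
      ∃ f : 𝓞 K, ∃ g ∈ Gam0 N, x = (g : Matrix (Fin 2) (Fin 2) (𝓞 K)) * !![1, f; 0, π] := by
  have hx := Matrix.eta_fin_two x
  obtain ⟨a, ha⟩ : ∃ a, a = x 0 0 := ⟨_, rfl⟩
  obtain ⟨b, hb⟩ : ∃ b, b = x 0 1 := ⟨_, rfl⟩
  obtain ⟨c, hc⟩ : ∃ c, c = x 1 0 := ⟨_, rfl⟩
  obtain ⟨d, hd⟩ : ∃ d, d = x 1 1 := ⟨_, rfl⟩
  rw [← ha, ← hb, ← hc, ← hd] at hx
  rw [← hc] at h1
  rw [hx, Matrix.det_fin_two_of] at h2
  obtain ⟨v, hv⟩ := h2
  obtain ⟨e, he⟩ := (hK.principal (Ideal.span {a, c})).principal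
  have he' : Ideal.span {a, c} = Ideal.span {e} := he
  have ha1 : a ∈ Ideal.span {a, c} := Ideal.subset_span (Set.mem_insert _ _)
  have hc1 : c ∈ Ideal.span {a, c} := Ideal.subset_span (Set.mem_insert_of_mem _ rfl)
  rw [he', Ideal.mem_span_singleton] at ha1 hc1
  obtain ⟨a', ha'⟩ := ha1
  obtain ⟨c', hc'⟩ := hc1
  have he1 : e ∈ Ideal.span {a, c} := by
    rw [he']
    exact Ideal.mem_span_singleton_self e
  obtain ⟨r, s, hrs⟩ := Ideal.mem_span_pair.1 he1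
  have he0 : e ≠ 0 := by
    intro h0
    apply hπ.ne_zero
    rw [← hv, ha', hc', h0]
    ring
  have hrs1 : r * a' + s * c' = 1 := by
    apply mul_left_cancel₀ he0
    rw [mul_one]
    conv_rhs => rw [← hrs]
    rw [ha', hc']
    ring
  have hek : e * (a' * d - c' * b) = a * d - b * c := by
    rw [ha', hc']
    ring
  have hx2 : x = !![a', -s; c', r] * !![e, r * b + s * d; 0, a' * d - c' * b] := by
    rw [hx, Matrix.mul_fin_two, ha', hc']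
    congr 1
    have e1 : e * a' = a' * e + -s * 0 := by ring
    have e2 : b = a' * (r * b + s * d) + -s * (a' * d - c' * b) := by linear_combination (-b) * hrs1
    have e3 : e * c' = c' * e + r * 0 := by ring
    have e4 : d = c' * (r * b + s * d) + r * (a' * d - c' * b) := by linear_combination (-d) * hrs1
    rw [← e1, ← e2, ← e3, ← e4]
  have hd0 : (!![a', -s; c', r] : Matrix (Fin 2) (Fin 2) (𝓞 K)).det = 1 := by
    rw [Matrix.det_fin_two_of, ← hrs1]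
    ring
  obtain ⟨k, hk⟩ : ∃ k, k = a' * d - c' * b := ⟨_, rfl⟩
  obtain ⟨f, hf⟩ : ∃ f, f = r * b + s * d := ⟨_, rfl⟩
  rw [← hk] at hek
  rw [← hk, ← hf] at hx2
  rw [← hek] at hv
  by_cases hu : IsUnit e
  · right
    obtain ⟨u, rfl⟩ := hu
    have hc2 : c' ∈ N := by
      have h3 : c' = ((u⁻¹ : (𝓞 K)ˣ) : 𝓞 K) * c := by
        rw [hc', Units.inv_mul_cancel_left]
      rw [h3]
      exact N.mul_mem_left _ h1
    obtain ⟨g0, hg0, hg0x⟩ := j21_mk (N := N) (x := !![a', -s; c', r]) (by rw [hd0]; exact isUnit_one) hc2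
    obtain ⟨g1, hg1, hg1x⟩ := j21_ut N u (u⁻¹ * v⁻¹) 0
    refine ⟨((u⁻¹ : (𝓞 K)ˣ) : 𝓞 K) * f, g0 * g1, (Gam0 N).mul_mem hg0 hg1, ?_⟩
    have h4 : !![(u : 𝓞 K), f; 0, k] = !![(u : 𝓞 K), 0; 0, ((u⁻¹ * v⁻¹ : (𝓞 K)ˣ) : 𝓞 K)] * !![1, ((u⁻¹ : (𝓞 K)ˣ) : 𝓞 K) * f; 0, π] := by
      rw [Matrix.mul_fin_two]
      have e1 : (u : 𝓞 K) * 1 + 0 * 0 = u := by ring
      have e2 : (u : 𝓞 K) * (((u⁻¹ : (𝓞 K)ˣ) : 𝓞 K) * f) + 0 * π = f := by
        rw [Units.mul_inv_cancel_left, zero_mul, add_zero]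
      have e3 : (0 : 𝓞 K) * 1 + ((u⁻¹ * v⁻¹ : (𝓞 K)ˣ) : 𝓞 K) * 0 = 0 := by ring
      have e4 : (0 : 𝓞 K) * (((u⁻¹ : (𝓞 K)ˣ) : 𝓞 K) * f) + ((u⁻¹ * v⁻¹ : (𝓞 K)ˣ) : 𝓞 K) * π = k := by
        rw [zero_mul, zero_add, ← hv, Units.val_mul]
        have e5 : ((u⁻¹ : (𝓞 K)ˣ) : 𝓞 K) * u = 1 := Units.inv_mul u
        have e6 : ((v⁻¹ : (𝓞 K)ˣ) : 𝓞 K) * v = 1 := Units.inv_mul v
        linear_combination (k * ((v⁻¹ : (𝓞 K)ˣ) : 𝓞 K) * v) * e5 + k * e6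
      rw [e1, e2, e3, e4]
    rw [hx2, h4, ← hg0x, ← hg1x, Units.val_mul, Matrix.mul_assoc]
  · left
    have hdv : e ∣ π := ⟨k * v, by rw [← hv]; ring⟩
    obtain ⟨t, ht⟩ := hdv
    rcases hπ.irreducible.isUnit_or_isUnit ht with h3 | h3
    · exact absurd h3 hu
    · obtain ⟨w, rfl⟩ := h3
      have hew : e = π * ((w⁻¹ : (𝓞 K)ˣ) : 𝓞 K) := by
        rw [ht, Units.mul_inv_cancel_right]
      have hmax : (Ideal.span {π}).IsMaximal := PrincipalIdealRing.isMaximal_of_irreducible hπ.irreducible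
      have htop : Ideal.span {π} ⊔ N = ⊤ := by
        by_contra h4
        have h5 := hmax.eq_of_le h4 le_sup_left
        exact hN (h5 ▸ le_sup_right)
      have h6 : (1 : 𝓞 K) ∈ Ideal.span {π} ⊔ N := by
        rw [htop]
        trivial
      obtain ⟨y, hy, n, hn, hyn⟩ := Submodule.mem_sup.1 h6
      obtain ⟨l, rfl⟩ := Ideal.mem_span_singleton.1 hy
      have hc2 : c' ∈ N := by
        have h7 : c' = c' * n + l * w * c := by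
          have e5 : ((w⁻¹ : (𝓞 K)ˣ) : 𝓞 K) * w = 1 := Units.inv_mul w
          rw [hc', hew]
          linear_combination (-c') * hyn - (l * π * c') * e5
        rw [h7]
        exact N.add_mem (N.mul_mem_left _ hn) (N.mul_mem_left _ h1)
      have hkw : ((w⁻¹ : (𝓞 K)ˣ) : 𝓞 K) * k * v = 1 := by
        apply mul_left_cancel₀ hπ.ne_zero
        rw [mul_one]
        conv_rhs => rw [← hv, hew]
        ring
      have hku : k = ((w * v⁻¹ : (𝓞 K)ˣ) : 𝓞 K) := by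
        have e5 : ((w⁻¹ : (𝓞 K)ˣ) : 𝓞 K) * w = 1 := Units.inv_mul w
        have e6 : ((v⁻¹ : (𝓞 K)ˣ) : 𝓞 K) * v = 1 := Units.inv_mul v
        rw [Units.val_mul]
        linear_combination (w * ((v⁻¹ : (𝓞 K)ˣ) : 𝓞 K)) * hkw - (k * ((v⁻¹ : (𝓞 K)ˣ) : 𝓞 K) * v) * e5 - k * e6
      obtain ⟨g0, hg0, hg0x⟩ := j21_mk (N := N) (x := !![a', -s; c', r]) (by rw [hd0]; exact isUnit_one) hc2
      obtain ⟨g1, hg1, hg1x⟩ := j21_ut N w⁻¹ (w * v⁻¹) f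
      refine ⟨g0 * g1, (Gam0 N).mul_mem hg0 hg1, ?_⟩
      have h4 : !![e, f; 0, k] = !![((w⁻¹ : (𝓞 K)ˣ) : 𝓞 K), f; 0, ((w * v⁻¹ : (𝓞 K)ˣ) : 𝓞 K)] * !![π, 0; 0, 1] := by
        rw [Matrix.mul_fin_two, ← hku, hew]
        have e1 : ((w⁻¹ : (𝓞 K)ˣ) : 𝓞 K) * π + f * 0 = π * ((w⁻¹ : (𝓞 K)ˣ) : 𝓞 K) := by ring
        have e2 : ((w⁻¹ : (𝓞 K)ˣ) : 𝓞 K) * 0 + f * 1 = f := by ring
        have e3 : (0 : 𝓞 K) * π + k * 0 = 0 := by ring
        have e4 : (0 : 𝓞 K) * 0 + k * 1 = k := by ring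
        rw [e1, e2, e3, e4]
      rw [hx2, h4, ← hg0x, ← hg1x, Units.val_mul, Matrix.mul_assoc]

end Pool.Agent.H2S
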