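import Pool.Agent.Lib.H2S.J21

/-!
# H2S, chunk J22 (size M): a complete system of representatives of `Γ₀(N) \ Γ₀(N) diag(π, 1) Γ₀(N)`

`dd π none = !![π, 0; 0, 1]`, `dd π (some q) = !![1, out q; 0, π]`, `q ∈ 𝓞 K ⧸ span {π}`.

`j22_mod`: `!![1, f; 0, π] = !![1, l; 0, 1] * !![1, f'; 0, π]` if `f = f' + l π` (`Ideal.mem_span_singleton`, `j21_ut` with `u = v = 1`).
`j22_u1`: from `g * !![1, f; 0, π] = g' * !![1, f'; 0, π]`: with `h = g'⁻¹ g`: `h * !![1, f; 0, π] = !![1, f'; 0, π]`; first column: `h 0 0 = 1`,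
`h 1 0 = 0`; entry `0 1`: `f + h 0 1 * π = f'`.
`j22_u2`: `h * !![π, 0; 0, 1] = !![1, f; 0, π]` with `h = g'⁻¹ g`: first column `h 0 0 * π = 1`: `π` would be a unit.
`j22_inf`: `dd π none` is in the double coset (`g = h = 1`).
`j22_one`: every `!![1, f; 0, π]` is in the double coset.  `span {π}` is maximal (`PrincipalIdealRing.isMaximal_of_irreducible`) and `N` is not contained in it, so
there is `n ∈ N` with `1 - n ∈ span {π}`; hence `IsCoprime π n`.  Consider `x = !![π, 0; n, 1] = !![π, 0; 0, 1] * !![1, 0; n, 1]`, where `!![1, 0; n, 1] ∈ Gam0 N`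
(determinant `1`; `j21_col` does not give this matrix, build it directly with the inverse `!![1, 0; -n, 1]`), so `x ∈ DC N π`.  By
`j21_red` either `x = g * !![π, 0; 0, 1]`, impossible: then `n = g 1 0 * π` would be divisible by `π`, but `IsCoprime π n`, `π` not a unit; or
`x = g * !![1, f'; 0, π]`.  So `!![1, f'; 0, π] = g⁻¹ * !![π, 0; 0, 1] * !![1, 0; n, 1] ∈ DC N π`.  Finally
`!![1, f; 0, π] = !![1, f'; 0, π] * !![1, f - f'; 0, 1]` (right multiplication by `Gam0 N`).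
`j22_rep`: existence: `j21_det`, `j21_red`; in the second case replace `f` by `out (mk f)` (`j22_mod`: `f - out (mk f) ∈ span {π}`,
`Ideal.Quotient.eq`, `Quotient.out_eq`).  Uniqueness: `x = g * dd π i = g' * dd π j`: `i = none`, `j = some q` is excluded by `j22_u2`; `i = some q`,
`j = some q'`: `π ∣ out q' - out q` (`j22_u1`), so `q = q'` (`Ideal.Quotient.eq`).
-/

set_option autoImplicit false
namespace Pool.Agent.H2S
open Complex NumberField

variable {K : Type*} [Field K] [NumberField K]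

/-- The representatives. -/
noncomputable def dd (π : 𝓞 K) : Option (𝓞 K ⧸ Ideal.span {π}) → Matrix (Fin 2) (Fin 2) (𝓞 K)
  | none => !![π, 0; 0, 1]
  | some q => !![1, Quotient.out q; 0, π]

/-- Cancellation. -/
theorem j22_inv {A B : Matrix (Fin 2) (Fin 2) (𝓞 K)} {g g' : GL (Fin 2) (𝓞 K)}
    (h : (g : Matrix (Fin 2) (Fin 2) (𝓞 K)) * A = (g' : Matrix (Fin 2) (Fin 2) (𝓞 K)) * B) :
    ((g'⁻¹ * g : GL (Fin 2) (𝓞 K)) : Matrix (Fin 2) (Fin 2) (𝓞 K)) * A = B := by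
  rw [Units.val_mul, mul_assoc, h, ← mul_assoc, Units.inv_mul, one_mul]

theorem j22_mod (N : Ideal (𝓞 K)) {π f f' : 𝓞 K} (h : f - f' ∈ Ideal.span {π}) :
    ∃ g ∈ Gam0 N, !![1, f; 0, π] = (g : Matrix (Fin 2) (Fin 2) (𝓞 K)) * !![1, f'; 0, π] := by
  obtain ⟨l, hl⟩ := Ideal.mem_span_singleton.1 h
  obtain ⟨g, hg, hg2⟩ := j21_ut N (1 : (𝓞 K)ˣ) 1 l
  refine ⟨g, hg, ?_⟩
  have e : f = f' + l * π := by
    rw [mul_comm l π, ← hl]
    ring
  rw [hg2, Units.val_one, Matrix.mul_fin_two, e]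
  simp

theorem j22_u1 {π f f' : 𝓞 K} {g g' : GL (Fin 2) (𝓞 K)}
    (h : (g : Matrix (Fin 2) (Fin 2) (𝓞 K)) * !![1, f; 0, π] = (g' : Matrix (Fin 2) (Fin 2) (𝓞 K)) * !![1, f'; 0, π]) :
    π ∣ f' - f := by
  have e := j22_inv h
  set M : Matrix (Fin 2) (Fin 2) (𝓞 K) := ((g'⁻¹ * g : GL (Fin 2) (𝓞 K)) : Matrix (Fin 2) (Fin 2) (𝓞 K)) with hM
  have e1 := congrFun (congrFun e 0) 0
  have e2 := congrFun (congrFun e 0) 1
  rw [Matrix.mul_apply, Fin.sum_univ_two] at e1 e2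
  simp only [Matrix.of_apply, Matrix.cons_val', Matrix.cons_val_zero, Matrix.cons_val_one, Matrix.cons_val_fin_one,
    mul_one, mul_zero, add_zero] at e1 e2
  rw [e1, one_mul] at e2
  exact ⟨M 0 1, by rw [← e2]; ring⟩

theorem j22_u2 {π f : 𝓞 K} (hπ : Prime π) {g g' : GL (Fin 2) (𝓞 K)} :
    (g : Matrix (Fin 2) (Fin 2) (𝓞 K)) * !![π, 0; 0, 1] ≠ (g' : Matrix (Fin 2) (Fin 2) (𝓞 K)) * !![1, f; 0, π] := by
  intro h
  have e := j22_inv h
  have e1 := congrFun (congrFun e 0) 0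
  rw [Matrix.mul_apply, Fin.sum_univ_two] at e1
  simp only [Matrix.of_apply, Matrix.cons_val', Matrix.cons_val_zero, Matrix.cons_val_one, Matrix.cons_val_fin_one,
    mul_zero, add_zero] at e1
  exact hπ.not_unit (IsUnit.of_mul_eq_one _ (by rw [mul_comm]; exact e1))

theorem j22_one (hK : IsPrincipalIdealRing (𝓞 K)) {N : Ideal (𝓞 K)} {π : 𝓞 K} (hπ : Prime π)
    (hN : ¬ N ≤ Ideal.span {π}) (f : 𝓞 K) : !![1, f; 0, π] ∈ DC N π := by
  obtain ⟨n, hn, hn2⟩ := SetLike.not_le_iff_exists.1 hN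
  rw [Ideal.mem_span_singleton] at hn2
  let h : GL (Fin 2) (𝓞 K) := ⟨!![1, 0; n, 1], !![1, 0; -n, 1], by
    rw [Matrix.mul_fin_two, Matrix.one_fin_two]
    simp, by
    rw [Matrix.mul_fin_two, Matrix.one_fin_two]
    simp⟩
  have hh : (h : Matrix (Fin 2) (Fin 2) (𝓞 K)) = !![1, 0; n, 1] := rfl
  have hh1 : h ∈ Gam0 N := by
    show (h : Matrix (Fin 2) (Fin 2) (𝓞 K)) 1 0 ∈ N
    rw [hh]
    simpa using hn
  have hx : (!![π, 0; n, 1] : Matrix (Fin 2) (Fin 2) (𝓞 K)) ∈ DC N π := by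
    refine ⟨1, (Gam0 N).one_mem, h, hh1, ?_⟩
    rw [hh, Units.val_one, one_mul, Matrix.mul_fin_two]
    simp
  obtain ⟨h1, h2⟩ := j21_det hx
  rcases j21_red hK hπ hN h1 h2 with ⟨g, hg, he⟩ | ⟨f', g, hg, he⟩
  · exfalso
    apply hn2
    have e1 := congrFun (congrFun he 1) 0
    rw [Matrix.mul_apply, Fin.sum_univ_two] at e1
    simp only [Matrix.of_apply, Matrix.cons_val', Matrix.cons_val_zero, Matrix.cons_val_one, Matrix.cons_val_fin_one,
      mul_zero, add_zero] at e1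
    exact ⟨_, by rw [e1, mul_comm]⟩
  · obtain ⟨u, hu, hu2⟩ := j21_ut N (1 : (𝓞 K)ˣ) 1 (f - f')
    refine ⟨g⁻¹, (Gam0 N).inv_mem hg, h * u, (Gam0 N).mul_mem hh1 hu, ?_⟩
    have e1 : (!![1, f'; 0, π] : Matrix (Fin 2) (Fin 2) (𝓞 K)) =
        ((g⁻¹ : GL (Fin 2) (𝓞 K)) : Matrix (Fin 2) (Fin 2) (𝓞 K)) * !![π, 0; n, 1] := by
      rw [he, ← mul_assoc, Units.inv_mul, one_mul]
    have e2 : (!![π, 0; n, 1] : Matrix (Fin 2) (Fin 2) (𝓞 K)) = !![π, 0; 0, 1] * (h : Matrix (Fin 2) (Fin 2) (𝓞 K)) := by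
      rw [hh, Matrix.mul_fin_two]
      simp
    have e3 : (!![1, f; 0, π] : Matrix (Fin 2) (Fin 2) (𝓞 K)) = !![1, f'; 0, π] * (u : Matrix (Fin 2) (Fin 2) (𝓞 K)) := by
      rw [hu2, Units.val_one, Matrix.mul_fin_two]
      simp
    rw [e3, e1, e2, Units.val_mul]
    simp only [mul_assoc]

theorem j22_rep (hK : IsPrincipalIdealRing (𝓞 K)) {N : Ideal (𝓞 K)} {π : 𝓞 K} (hπ : Prime π)
    (hN : ¬ N ≤ Ideal.span {π}) : (∀ i, dd π i ∈ DC N π) ∧
      ∀ x ∈ DC N π, ∃! i, ∃ g ∈ Gam0 N, x = (g : Matrix (Fin 2) (Fin 2) (𝓞 K)) * dd π i := by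
  refine ⟨?_, ?_⟩
  · rintro (_ | q)
    · refine ⟨1, (Gam0 N).one_mem, 1, (Gam0 N).one_mem, ?_⟩
      rw [Units.val_one, one_mul, mul_one]
      rfl
    · exact j22_one hK hπ hN _
  · intro x hx
    obtain ⟨h1, h2⟩ := j21_det hx
    rcases j21_red hK hπ hN h1 h2 with ⟨g, hg, he⟩ | ⟨f, g, hg, he⟩
    · refine ⟨none, ⟨g, hg, he⟩, ?_⟩
      rintro (_ | q) ⟨g', hg', he'⟩
      · rfl
      · exact absurd (he.symm.trans he') (j22_u2 hπ)
    · have hq : f - Quotient.out (Ideal.Quotient.mk (Ideal.span {π}) f) ∈ Ideal.span {π} := by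
        rw [← Ideal.Quotient.eq]
        exact (Ideal.Quotient.mk_out _).symm
      obtain ⟨g2, hg2, he2⟩ := j22_mod N hq
      refine ⟨some (Ideal.Quotient.mk (Ideal.span {π}) f), ⟨g * g2, (Gam0 N).mul_mem hg hg2, ?_⟩, ?_⟩
      · rw [he, he2, Units.val_mul, mul_assoc]
        rfl
      · rintro (_ | q) ⟨g', hg', he'⟩
        · exact absurd (he'.symm.trans he) (j22_u2 hπ)
        · have e1 : π ∣ Quotient.out q - f := j22_u1 (he.symm.trans he')
          congr 1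
          rw [← Ideal.Quotient.mk_out q]
          rw [Ideal.Quotient.eq, Ideal.mem_span_singleton]
          exact e1

end Pool.Agent.H2S
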