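import Pool.Agent.Lib.H2S.B1
import Pool.Agent.Lib.H2S.J22

/-!
# H2S, chunk J23 (size M): the Hecke operator on a homomorphism of `Γ₀(N)`, general form

Hypotheses: `f : ℂ × ℝ → ℂ`, `f (act g P) = f P + Φ g` on `H3` for `g ∈ Γ₀(N)`, and `∑ i, f (act (dd π i) P) = a * f P` on `H3` (sum over the finite type
`Option (𝓞 K ⧸ span {π})`).  Conclusion: `Eigen N π Φ a`.

PROOF.  Let `r = Fintype.card (Option ..)`, `e : Fin r ≃ Option (𝓞 K ⧸ span {π})` (`Fintype.equivFin`), `δ i = dd π (e i)`.  The first two clauses of `Eigen` are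
`j22_rep`, transported by `e`.  Let `γ ∈ Γ₀(N)`.  For each `i`, `δ i * γ ∈ DC N π` (multiply `h` by `γ` on the right), so there are `t i` and `g i ∈ Γ₀(N)` with
`δ i * γ = g i * δ (t i)` (choice).  `t` is injective: if `t i = t j` then `g i⁻¹ * δ i * γ = g j⁻¹ * δ j * γ`, so `δ i = (g i * g j⁻¹) * δ j`, and the
uniqueness (applied to `x = δ i = 1 * δ i`) gives `i = j`.  So `t` is bijective (`Finite.injective_iff_bijective`).
Take `P = (0, 1) ∈ H3`.  `j23_act`: `actO σ (g * h) P = actO σ g (actO σ h P)` for matrices with nonzero determinant (`act_mul` in `B1.lean`;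
`(g * h).map σ = g.map σ * h.map σ`: `Matrix.map_mul`; the determinant of the mapped matrix is the image of the determinant, `RingHom.map_det`, `σ` injective on
`𝓞 K`).  `det (δ i)` is associated to `π ≠ 0` (`j21_det`), `det` of elements of `GL` is a unit.
`∑ i, f (actO σ (δ i) (actO σ γ P)) = a * f (actO σ γ P) = a * (f P + Φ γ)` (`act_mem`: `actO σ γ P ∈ H3`), and on the other hand each term is
`f (actO σ (δ i * γ) P) = f (actO σ (g i) (actO σ (δ (t i)) P)) = f (actO σ (δ (t i)) P) + Φ (g i)`; the sum over `i` is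
`∑ i, f (actO σ (δ i) P) + ∑ Φ (g i) = a * f P + ∑ i, Φ (g i)` (`t` bijective: `Fintype.sum_bijective`; `e`: `Equiv.sum_comp`).  So
`∑ i, Φ (g i) = a * Φ γ`.
-/

set_option autoImplicit false
namespace Pool.Agent.H2S
open Complex NumberField

variable {K : Type*} [Field K] [NumberField K]

theorem j23_det (σ : K →+* ℂ) (g : Matrix (Fin 2) (Fin 2) (𝓞 K)) :
    (g.map fun a => σ (a : K)).det = σ ((g.det : 𝓞 K) : K) := by
  rw [Matrix.det_fin_two, Matrix.det_fin_two]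
  simp only [Matrix.map_apply, map_sub, map_mul]

theorem j23_ne (σ : K →+* ℂ) {g : Matrix (Fin 2) (Fin 2) (𝓞 K)} (hg : g.det ≠ 0) :
    (g.map fun a => σ (a : K)).det ≠ 0 := by
  rw [j23_det]
  intro h
  rw [map_eq_zero] at h
  exact hg (RingOfIntegers.ext h)

theorem j23_mul (σ : K →+* ℂ) (g h : Matrix (Fin 2) (Fin 2) (𝓞 K)) :
    (g * h).map (fun a => σ (a : K)) = g.map (fun a => σ (a : K)) * h.map (fun a => σ (a : K)) := by
  ext i j
  simp only [Matrix.map_apply, Matrix.mul_apply, Fin.sum_univ_two, map_add, map_mul]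

theorem j23_act (σ : K →+* ℂ) {g h : Matrix (Fin 2) (Fin 2) (𝓞 K)} (hg : g.det ≠ 0) (hh : h.det ≠ 0) {P : ℂ × ℝ}
    (hP : P ∈ H3) : actO σ (g * h) P = actO σ g (actO σ h P) ∧ actO σ h P ∈ H3 := by
  constructor
  · unfold actO
    rw [j23_mul]
    exact act_mul (j23_ne σ hg) (j23_ne σ hh) hP
  · exact act_mem (j23_ne σ hh) hP

theorem j23 (hK : IsPrincipalIdealRing (𝓞 K)) (σ : K →+* ℂ) {N : Ideal (𝓞 K)} {π : 𝓞 K} (hπ : Prime π)
    (hN : ¬ N ≤ Ideal.span {π}) [Fintype (𝓞 K ⧸ Ideal.span {π})] (f : ℂ × ℝ → ℂ) (Φ : Gam0 N → ℂ) (a : ℂ)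
    (h1 : ∀ g : Gam0 N, ∀ P ∈ H3, f (actO σ ((g : GL (Fin 2) (𝓞 K)) : Matrix (Fin 2) (Fin 2) (𝓞 K)) P) = f P + Φ g)
    (h2 : ∀ P ∈ H3, ∑ i, f (actO σ (dd π i) P) = a * f P) : Eigen N π Φ a := by
  obtain ⟨hin, huniq⟩ := j22_rep hK hπ hN
  obtain ⟨e⟩ : Nonempty (Fin (Fintype.card (Option (𝓞 K ⧸ Ideal.span {π}))) ≃ Option (𝓞 K ⧸ Ideal.span {π})) :=
    ⟨(Fintype.equivFin _).symm⟩
  have hdd : ∀ i, (dd π i).det ≠ 0 := fun i =>
    (Associated.ne_zero_iff (j21_det (hin i)).2).2 hπ.ne_zero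
  have hgl : ∀ g : GL (Fin 2) (𝓞 K), (g : Matrix (Fin 2) (Fin 2) (𝓞 K)).det ≠ 0 := fun g =>
    (Matrix.isUnits_det_units g).ne_zero
  refine ⟨_, fun i => dd π (e i), fun i => hin _, ?_, ?_⟩
  · intro x hx
    obtain ⟨i, hi, hui⟩ := huniq x hx
    refine ⟨e.symm i, ?_, ?_⟩
    · show ∃ g ∈ Gam0 N, x = (g : Matrix (Fin 2) (Fin 2) (𝓞 K)) * dd π (e (e.symm i))
      rw [e.apply_symm_apply]
      exact hi
    · intro j hj
      have h3 := hui (e j) hj
      rw [← h3, e.symm_apply_apply]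
  · intro γ
    have key : ∀ i, ∃ t, ∃ g : Gam0 N, dd π (e i) * ((γ : GL (Fin 2) (𝓞 K)) : Matrix (Fin 2) (Fin 2) (𝓞 K)) =
        ((g : GL (Fin 2) (𝓞 K)) : Matrix (Fin 2) (Fin 2) (𝓞 K)) * dd π (e t) := by
      intro i
      have h3 : dd π (e i) * ((γ : GL (Fin 2) (𝓞 K)) : Matrix (Fin 2) (Fin 2) (𝓞 K)) ∈ DC N π := by
        obtain ⟨g, hg, h, hh, heq⟩ := hin (e i)
        exact ⟨g, hg, h * γ, mul_mem hh γ.2, by rw [heq, Units.val_mul, mul_assoc]⟩
      obtain ⟨j, ⟨g, hg, heq⟩, -⟩ := huniq _ h3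
      exact ⟨e.symm j, ⟨g, hg⟩, by rw [e.apply_symm_apply]; exact heq⟩
    choose t g hg using key
    refine ⟨t, g, hg, ?_⟩
    have hinj : Function.Injective t := by
      intro i j hij
      have h3 := hg i
      have h4 := hg j
      rw [hij] at h3
      have h5 : dd π (e (t j)) = (((g j : GL (Fin 2) (𝓞 K))⁻¹ : GL (Fin 2) (𝓞 K)) : Matrix (Fin 2) (Fin 2) (𝓞 K)) *
          (dd π (e j) * ((γ : GL (Fin 2) (𝓞 K)) : Matrix (Fin 2) (Fin 2) (𝓞 K))) := by
        rw [h4, Units.inv_mul_cancel_left]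
      rw [h5, ← mul_assoc, ← mul_assoc, Units.mul_left_inj, ← Units.val_mul] at h3
      have h6 : e i = e j := (huniq _ (hin (e i))).unique
        ⟨1, one_mem _, by rw [Units.val_one, one_mul]⟩
        ⟨(g i : GL (Fin 2) (𝓞 K)) * (g j : GL (Fin 2) (𝓞 K))⁻¹, mul_mem (g i).2 (inv_mem (g j).2), h3⟩
      exact e.injective h6
    have hbij : Function.Bijective t := Finite.injective_iff_bijective.1 hinj
    have hP0 : ((0, 1) : ℂ × ℝ) ∈ H3 := by
      show (0 : ℝ) < 1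
      exact zero_lt_one
    have hγ := j23_act σ (hgl γ) (hgl γ) hP0
    have h3 := h2 _ hγ.2
    rw [h1 γ _ hP0, ← Equiv.sum_comp e] at h3
    have h4 : ∀ i, f (actO σ (dd π (e i)) (actO σ ((γ : GL (Fin 2) (𝓞 K)) : Matrix (Fin 2) (Fin 2) (𝓞 K)) (0, 1))) =
        f (actO σ (dd π (e (t i))) (0, 1)) + Φ (g i) := by
      intro i
      rw [← (j23_act σ (hdd _) (hgl γ) hP0).1, hg i, (j23_act σ (hgl _) (hdd _) hP0).1,
        h1 (g i) _ (j23_act σ (hgl (g i)) (hdd _) hP0).2]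
    rw [Finset.sum_congr rfl fun i _ => h4 i, Finset.sum_add_distrib,
      hbij.sum_comp (fun i => f (actO σ (dd π (e i)) (0, 1))),
      Equiv.sum_comp e (fun i => f (actO σ (dd π i) (0, 1))), h2 _ hP0, mul_add] at h3
    exact add_left_cancel h3

end Pool.Agent.H2S
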