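import Pool.Agent.Lib.H2S.J20
import Pool.Agent.Lib.H2S.J23

/-!
# H2S, chunk J24 (size S/M): the Hecke relations for `Φ`

`j24_n`, `j24_s`: the definition of `act`: for `!![π, 0; 0, 1]`: `D = ‖0 * z + 1‖ ^ 2 + ‖0‖ ^ 2 * t ^ 2 = 1`; for `!![1, b; 0, π]`: `D = ‖σ π‖ ^ 2`,
`(z + b) * conj (σ π) / ‖σ π‖ ^ 2 = (z + b) / σ π` (`Complex.mul_conj`, `Complex.normSq_eq_norm_sq`), `‖σ π‖ * t / ‖σ π‖ ^ 2 = t / ‖σ π‖`
(entries of `Matrix.map`: `Matrix.map_apply`, `Matrix.of_apply`, `Matrix.cons_val_zero`, ..; `Matrix.det_fin_two`).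

`j24`: apply `j23` with `f = FF δ`, `σ = F.sK`, `N = lev K m`, `a = A (span {π})`; the type `𝓞 K ⧸ span {π}` is finite (`π ≠ 0`; `Fintype.ofFinite`).
`h2`: the sum over `Option` is the term `none` plus the sum over the classes `q` (`Fintype.sum_option`), and these are the terms of `j20` with
`ι = 𝓞 K ⧸ span {π}`, `b = Quotient.out` (`hb`: `Ideal.Quotient.mk (out q) = q`, `Quotient.out_eq`, so the map is the identity, `Function.bijective_id`).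
-/

set_option autoImplicit false
namespace Pool.Agent.H2S
open Complex NumberField

variable {K L : Type*} [Field K] [NumberField K] [Field L] [NumberField L] [Algebra K L]
  {F : Fld K L} {m : Ideal (𝓞 L)} {p : ℕ}

theorem j24_ne (σ : K →+* ℂ) {π : 𝓞 K} (hπ : π ≠ 0) : σ (π : K) ≠ 0 := by
  intro h
  have h1 : (π : K) = 0 := (map_eq_zero σ).1 h
  exact RingOfIntegers.coe_ne_zero_iff.2 hπ h1

theorem j24_n (σ : K →+* ℂ) (π : 𝓞 K) (P : ℂ × ℝ) :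
    actO σ (dd π none) P = (σ (π : K) * P.1, ‖σ (π : K)‖ * P.2) := by
  have e : (dd π none).map (fun a => σ (a : K)) = !![σ (π : K), 0; 0, 1] := by
    ext i j
    fin_cases i <;> fin_cases j <;> simp [dd]
  unfold actO
  rw [e, act_diag _ _ one_ne_zero, div_one, norm_one, div_one]

theorem j24_s (σ : K →+* ℂ) {π : 𝓞 K} (hπ : π ≠ 0) (q : 𝓞 K ⧸ Ideal.span {π}) (P : ℂ × ℝ) :
    actO σ (dd π (some q)) P = ((P.1 + σ ((Quotient.out q : 𝓞 K) : K)) / σ (π : K), P.2 / ‖σ (π : K)‖) := by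
  have hp := j24_ne σ hπ
  have hn : (‖σ (π : K)‖ : ℝ) ≠ 0 := (norm_pos_iff.mpr hp).ne'
  obtain ⟨g, hg⟩ : ∃ g : Matrix (Fin 2) (Fin 2) ℂ, g = (dd π (some q)).map (fun a => σ (a : K)) := ⟨_, rfl⟩
  have g00 : g 0 0 = 1 := by rw [hg]; simp [dd]
  have g01 : g 0 1 = σ ((Quotient.out q : 𝓞 K) : K) := by rw [hg]; simp [dd]
  have g10 : g 1 0 = 0 := by rw [hg]; simp [dd]
  have g11 : g 1 1 = σ (π : K) := by rw [hg]; simp [dd]
  have hc : (starRingEnd ℂ) (σ (π : K)) = (‖σ (π : K)‖ : ℂ) ^ 2 / σ (π : K) := by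
    rw [eq_div_iff hp, mul_comm, Complex.mul_conj, ← Complex.ofReal_pow, Complex.sq_norm]
  have hnc : ((‖σ (π : K)‖ : ℝ) : ℂ) ≠ 0 := by exact_mod_cast hn
  unfold actO
  rw [← hg]
  refine Prod.ext ?_ ?_
  · show ((g 0 0 * P.1 + g 0 1) * (starRingEnd ℂ) (g 1 0 * P.1 + g 1 1) + g 0 0 * (starRingEnd ℂ) (g 1 0) * (P.2 : ℂ) ^ 2) /
      ((‖g 1 0 * P.1 + g 1 1‖ ^ 2 + ‖g 1 0‖ ^ 2 * P.2 ^ 2 : ℝ) : ℂ) = _
    rw [g00, g01, g10, g11, zero_mul, zero_add, map_zero, one_mul, mul_zero, zero_mul, add_zero, norm_zero, hc]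
    push_cast
    field_simp
    ring
  · show ‖g.det‖ * P.2 / (‖g 1 0 * P.1 + g 1 1‖ ^ 2 + ‖g 1 0‖ ^ 2 * P.2 ^ 2) = _
    rw [Matrix.det_fin_two, g00, g01, g10, g11, zero_mul, zero_add, one_mul, mul_zero, sub_zero, norm_zero]
    field_simp
    ring

theorem j24 (Ψ : Psi F m p) (δ : 𝓞 K) (hδ : δ ≠ 0) (hd : differentIdeal ℤ (𝓞 K) = Ideal.span {δ})
    (Φ : Gam0 (lev K m) → ℂ)
    (hΦ : ∀ g : Gam0 (lev K m), ∀ P ∈ H3, Ψ.FF δ (actO F.sK ((g : GL (Fin 2) (𝓞 K)) : Matrix (Fin 2) (Fin 2) (𝓞 K)) P) =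
      Ψ.FF δ P + Φ g) (π : 𝓞 K) (hπ : GoodPrime m p π) :
    Eigen (lev K m) π Φ (Ψ.A (Ideal.span {π})) := by
  have hπ0 : π ≠ 0 := hπ.prime.ne_zero
  have hfin : Finite (𝓞 K ⧸ Ideal.span {π}) := by
    refine Ideal.finiteQuotientOfFreeOfNeBot _ ?_
    intro h
    exact hπ0 (Ideal.span_singleton_eq_bot.1 h)
  have hft : Fintype (𝓞 K ⧸ Ideal.span {π}) := Fintype.ofFinite _
  refine j23 F.pid F.sK hπ.prime hπ.lev (Ψ.FF δ) Φ (Ψ.A (Ideal.span {π})) hΦ ?_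
  intro P hP
  have hb : Function.Bijective fun q : 𝓞 K ⧸ Ideal.span {π} =>
      Ideal.Quotient.mk (Ideal.span {π}) (Quotient.out q : 𝓞 K) := by
    have e : (fun q : 𝓞 K ⧸ Ideal.span {π} => Ideal.Quotient.mk (Ideal.span {π}) (Quotient.out q : 𝓞 K)) = id := by
      funext q
      exact Quotient.out_eq q
    rw [e]
    exact Function.bijective_id
  rw [Fintype.sum_option, j24_n, add_comm, ← j20 Ψ hδ hd hπ (fun q : 𝓞 K ⧸ Ideal.span {π} => (Quotient.out q : 𝓞 K)) hb hP]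
  congr 1
  refine Finset.sum_congr rfl fun q _ => ?_
  rw [j24_s F.sK hπ0]

end Pool.Agent.H2S
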