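import Pool.Agent.Lib.H2S.T01

/-!
# H2S, chunk T05 (size M): bounds for `JJ`

`t05p`: the integrand is positive on `(0, ∞)`, integrable (`t01`): `setIntegral_pos_iff_support_of_nonneg_ae` or
`MeasureTheory.integral_pos_of_...`; e.g. `JJ j a b ≥ ∫ over (1, 2)` of a continuous positive function.
`t05a`, `t05b`: for `s > 0`: `a s + b / s ≥ √(a b) + (a s + b / s) / 2` because `a s + b / s ≥ 2 √(a b)`
(`(√(a s) - √(b / s)) ^ 2 ≥ 0`, `√(a s) √(b / s) = √(a b)`).  So
`exp (-(a s + b / s)) ≤ exp (-√(a b)) exp (- (a / 2) s) exp (- (b / 2) / s)`.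
(a) drop the last factor: `JJ 0 a b ≤ exp (-√(a b)) * ∫ exp (-(a / 2) s) = exp (-√(a b)) * (2 / a)`
    (`integral_exp_neg_mul_Ioi`-like: `integral_exp_mul_Ioi`/`integral_exp_neg_Ioi_zero`, `Real.integral_exp_neg_mul_...`).
(b) `s⁻¹ exp (- (b / 2) / s) ≤ 2 / b` because `x exp (-x) ≤ 1` for `x = (b / 2) / s` (`Real.add_one_le_exp`): so
    `JJ (-1) a b ≤ exp (-√(a b)) * (2 / b) * (2 / a)`.
Use `setIntegral_mono_on` with the integrability of both sides.
-/

set_option autoImplicit false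
namespace Pool.Agent.H2S
open Complex MeasureTheory

private theorem t05_aux {a b s : ℝ} (ha : 0 < a) (hb : 0 < b) (hs : 0 < s) :
    Real.exp (-(a * s + b / s)) ≤
      Real.exp (-Real.sqrt (a * b)) * Real.exp (-(a / 2) * s) * Real.exp (-((b / 2) / s)) := by
  rw [← Real.exp_add, ← Real.exp_add]
  refine Real.exp_le_exp.mpr ?_
  have h1 : Real.sqrt (a * s) * Real.sqrt (b / s) = Real.sqrt (a * b) := by
    rw [← Real.sqrt_mul (by positivity)]
    congr 1
    field_simp
  have h2 : Real.sqrt (a * s) ^ 2 = a * s := Real.sq_sqrt (by positivity)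
  have h3 : Real.sqrt (b / s) ^ 2 = b / s := Real.sq_sqrt (by positivity)
  have h4 := sq_nonneg (Real.sqrt (a * s) - Real.sqrt (b / s))
  have h5 : b / 2 / s = (b / s) / 2 := by ring
  rw [h5]
  nlinarith

private theorem t05_int {a : ℝ} (ha : 0 < a) (C : ℝ) :
    IntegrableOn (fun s : ℝ => C * Real.exp (-(a / 2) * s)) (Set.Ioi 0) :=
  (integrableOn_exp_mul_Ioi (a := -(a / 2)) (by linarith) 0).const_mul C

private theorem t05_val {a : ℝ} (ha : 0 < a) (C : ℝ) :
    ∫ s in Set.Ioi (0 : ℝ), C * Real.exp (-(a / 2) * s) = C * (2 / a) := by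
  rw [MeasureTheory.integral_const_mul, integral_exp_mul_Ioi (by linarith)]
  simp only [mul_zero, Real.exp_zero]
  congr 1
  field_simp

theorem t05p (j : ℤ) {a b : ℝ} (ha : 0 < a) (hb : 0 < b) : 0 < JJ j a b := by
  have hpos : ∀ s ∈ Set.Ioi (0 : ℝ), 0 < s ^ j * Real.exp (-(a * s + b / s)) := by
    intro s hs
    have hs' : (0 : ℝ) < s := hs
    positivity
  unfold JJ
  rw [setIntegral_pos_iff_support_of_nonneg_ae _ (t01 j ha hb)]
  · have h : Set.Ioi (0 : ℝ) ⊆
        (Function.support fun s : ℝ => s ^ j * Real.exp (-(a * s + b / s))) ∩ Set.Ioi 0 := by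
      intro s hs
      exact ⟨(hpos s hs).ne', hs⟩
    refine lt_of_lt_of_le ?_ (measure_mono h)
    simp
  · refine Filter.eventually_of_mem (self_mem_ae_restrict measurableSet_Ioi) ?_
    intro s hs
    exact (hpos s hs).le

theorem t05a {a b : ℝ} (ha : 0 < a) (hb : 0 < b) : JJ 0 a b ≤ 2 / a * Real.exp (-Real.sqrt (a * b)) := by
  rw [mul_comm, ← t05_val ha]
  unfold JJ
  refine setIntegral_mono_on (t01 0 ha hb) (t05_int ha _) measurableSet_Ioi fun s hs => ?_
  have hs' : (0 : ℝ) < s := hs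
  rw [zpow_zero, one_mul]
  refine (t05_aux ha hb hs').trans ?_
  refine mul_le_of_le_one_right (by positivity) ?_
  refine Real.exp_le_one_iff.mpr ?_
  have : 0 ≤ b / 2 / s := by positivity
  linarith

theorem t05b {a b : ℝ} (ha : 0 < a) (hb : 0 < b) : JJ (-1) a b ≤ 4 / (a * b) * Real.exp (-Real.sqrt (a * b)) := by
  have h0 : 4 / (a * b) * Real.exp (-Real.sqrt (a * b)) =
      Real.exp (-Real.sqrt (a * b)) * (2 / b) * (2 / a) := by
    field_simp
    ring
  rw [h0, ← t05_val ha]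
  unfold JJ
  refine setIntegral_mono_on (t01 (-1) ha hb) (t05_int ha _) measurableSet_Ioi fun s hs => ?_
  have hs' : (0 : ℝ) < s := hs
  have h1 := t05_aux ha hb hs'
  have h2 : s⁻¹ * Real.exp (-((b / 2) / s)) ≤ 2 / b := by
    have h3 : (b / 2 / s) * Real.exp (-(b / 2 / s)) ≤ 1 := by
      have h4 : b / 2 / s ≤ Real.exp (b / 2 / s) := by
        have := Real.add_one_le_exp (b / 2 / s)
        linarith
      rw [Real.exp_neg, ← div_eq_mul_inv]
      exact (div_le_one (Real.exp_pos _)).mpr h4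
    have h5 : s⁻¹ * Real.exp (-((b / 2) / s)) = 2 / b * ((b / 2 / s) * Real.exp (-(b / 2 / s))) := by
      field_simp
    rw [h5]
    exact mul_le_of_le_one_right (by positivity) h3
  calc s ^ (-1 : ℤ) * Real.exp (-(a * s + b / s))
      ≤ s ^ (-1 : ℤ) * (Real.exp (-Real.sqrt (a * b)) * Real.exp (-(a / 2) * s) *
        Real.exp (-((b / 2) / s))) := mul_le_mul_of_nonneg_left h1 (by positivity)
    _ = (Real.exp (-Real.sqrt (a * b)) * Real.exp (-(a / 2) * s)) *
        (s⁻¹ * Real.exp (-((b / 2) / s))) := by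
        rw [zpow_neg_one]
        ring
    _ ≤ (Real.exp (-Real.sqrt (a * b)) * Real.exp (-(a / 2) * s)) * (2 / b) :=
        mul_le_mul_of_nonneg_left h2 (by positivity)
    _ = Real.exp (-Real.sqrt (a * b)) * (2 / b) * Real.exp (-(a / 2) * s) := by ring

end Pool.Agent.H2S
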