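import Pool.Agent.Lib.H2S.T04
import Pool.Agent.Lib.H2S.T05

/-!
# H2S, chunk T06 (size S/M): bounds for `kap`, `kapt`, `V`, `DV`

With `a = 16 π ^ 2 r ^ 2`, `b = t ^ 2 / 4`: `√(a b) = 2 π r t` (`Real.sqrt_eq_iff_mul_self_eq` or `Real.sqrt_sq` of
`(2 π r t) ^ 2`), `2 / a = 1 / (8 π ^ 2 r ^ 2)`, `(t / 2) * 4 / (a b) = 1 / (2 π ^ 2 r ^ 2 t)`.
`t06V`: `‖eT w‖ = 1` (`Complex.norm_exp_ofReal_mul_I`), `‖V P w‖ = kap ‖w‖ P.2`.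
`t06D`: `‖DV P w ξ‖ ≤ 4 π |Re (ξ.1 w)| kap + |kapt| |ξ.2| ≤ (4 π ‖w‖ kap + |kapt|) ‖ξ‖` (`‖ξ.1‖ ≤ ‖ξ‖`, `|ξ.2| ≤ ‖ξ‖`,
`Complex.abs_re_le_norm`), `ContinuousLinearMap.opNorm_le_bound`, `DV_apply`; then `t06a`, `t06b`:
`4 π r / (8 π ^ 2 r ^ 2) + 1 / (2 π ^ 2 r ^ 2 t)` with `1 / (2 π r) ≤ 1 / r`, `1 / (2 π ^ 2 r ^ 2 t) ≤ 1 / (r ^ 2 t)`.
-/

set_option autoImplicit false
namespace Pool.Agent.H2S
open Complex MeasureTheory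

theorem t06_A {r : ℝ} (hr : 0 < r) : 0 < 16 * Real.pi ^ 2 * r ^ 2 := by
  have := Real.pi_pos
  positivity

theorem t06_sqrt {r t : ℝ} (hr : 0 < r) (ht : 0 < t) :
    Real.sqrt (16 * Real.pi ^ 2 * r ^ 2 * (t ^ 2 / 4)) = 2 * Real.pi * r * t := by
  have h1 : 16 * Real.pi ^ 2 * r ^ 2 * (t ^ 2 / 4) = (2 * Real.pi * r * t) ^ 2 := by ring
  have hp := Real.pi_pos
  rw [h1, Real.sqrt_sq (by positivity)]

theorem t06p {r t : ℝ} (hr : 0 < r) (ht : 0 < t) : 0 < kap r t := by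
  rw [t04]
  exact t05p 0 (t06_A hr) (by positivity)

theorem t06a {r t : ℝ} (hr : 0 < r) (ht : 0 < t) :
    kap r t ≤ (8 * Real.pi ^ 2 * r ^ 2)⁻¹ * Real.exp (-(2 * Real.pi * r * t)) := by
  have h1 := t05a (t06_A hr) (show (0 : ℝ) < t ^ 2 / 4 by positivity)
  rw [t06_sqrt hr ht] at h1
  rw [t04]
  refine h1.trans (le_of_eq ?_)
  have hp := Real.pi_pos
  have h2 : 2 / (16 * Real.pi ^ 2 * r ^ 2) = (8 * Real.pi ^ 2 * r ^ 2)⁻¹ := by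
    field_simp
    norm_num
  rw [h2]

theorem t06b {r t : ℝ} (hr : 0 < r) (ht : 0 < t) :
    |kapt r t| ≤ (2 * Real.pi ^ 2 * r ^ 2 * t)⁻¹ * Real.exp (-(2 * Real.pi * r * t)) := by
  have h1 := t05b (t06_A hr) (show (0 : ℝ) < t ^ 2 / 4 by positivity)
  have h0 := t05p (-1) (t06_A hr) (show (0 : ℝ) < t ^ 2 / 4 by positivity)
  rw [t06_sqrt hr ht] at h1
  have hp := Real.pi_pos
  unfold kapt
  rw [abs_mul, abs_neg, abs_of_pos (show 0 < t / 2 by positivity), abs_of_pos h0]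
  refine (mul_le_mul_of_nonneg_left h1 (by positivity)).trans (le_of_eq ?_)
  have h2 : t / 2 * (4 / (16 * Real.pi ^ 2 * r ^ 2 * (t ^ 2 / 4))) = (2 * Real.pi ^ 2 * r ^ 2 * t)⁻¹ := by
    field_simp
    norm_num
  rw [← mul_assoc, h2]

theorem t06e (w : ℂ) : ‖eT w‖ = 1 := by
  unfold eT
  exact Complex.norm_exp_ofReal_mul_I _

theorem t06V {P : ℂ × ℝ} (hP : P ∈ H3) {w : ℂ} (hw : w ≠ 0) :
    ‖V P w‖ ≤ (8 * Real.pi ^ 2 * ‖w‖ ^ 2)⁻¹ * Real.exp (-(2 * Real.pi * ‖w‖ * P.2)) := by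
  have hr : 0 < ‖w‖ := norm_pos_iff.2 hw
  have ht : 0 < P.2 := hP
  unfold V
  rw [norm_mul, t06e, one_mul, Complex.norm_real, Real.norm_eq_abs, abs_of_pos (t06p hr ht)]
  exact t06a hr ht

theorem t06D {P : ℂ × ℝ} (hP : P ∈ H3) {w : ℂ} (hw : w ≠ 0) :
    ‖DV P w‖ ≤ (‖w‖⁻¹ + (‖w‖ ^ 2 * P.2)⁻¹) * Real.exp (-(2 * Real.pi * ‖w‖ * P.2)) := by
  have hr : 0 < ‖w‖ := norm_pos_iff.2 hw
  have ht : 0 < P.2 := hP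
  have hp := Real.pi_pos
  have hp3 := Real.pi_gt_three
  have hk := t06p hr ht
  have hka := t06a hr ht
  have hkb := t06b hr ht
  set E : ℝ := Real.exp (-(2 * Real.pi * ‖w‖ * P.2)) with hE
  have hE0 : 0 < E := Real.exp_pos _
  have h1 : 4 * Real.pi * ‖w‖ * kap ‖w‖ P.2 ≤ ‖w‖⁻¹ * E := by
    have h2 : 4 * Real.pi * ‖w‖ * kap ‖w‖ P.2 ≤
        4 * Real.pi * ‖w‖ * ((8 * Real.pi ^ 2 * ‖w‖ ^ 2)⁻¹ * E) :=
      mul_le_mul_of_nonneg_left hka (by positivity)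
    have h3 : 4 * Real.pi * ‖w‖ * ((8 * Real.pi ^ 2 * ‖w‖ ^ 2)⁻¹ * E) = (2 * Real.pi)⁻¹ * (‖w‖⁻¹ * E) := by
      field_simp
      norm_num
    have h4 : (2 * Real.pi)⁻¹ ≤ 1 := inv_le_one_of_one_le₀ (by linarith)
    have h5 : 0 ≤ ‖w‖⁻¹ * E := by positivity
    rw [h3] at h2
    exact h2.trans (mul_le_of_le_one_left h5 h4)
  have h2 : |kapt ‖w‖ P.2| ≤ (‖w‖ ^ 2 * P.2)⁻¹ * E := by
    refine hkb.trans (mul_le_mul_of_nonneg_right ?_ hE0.le)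
    refine inv_anti₀ (by positivity) ?_
    have h3 : 1 ≤ 2 * Real.pi ^ 2 := by nlinarith
    have h4 : 0 ≤ ‖w‖ ^ 2 * P.2 := by positivity
    calc ‖w‖ ^ 2 * P.2 ≤ (2 * Real.pi ^ 2) * (‖w‖ ^ 2 * P.2) := le_mul_of_one_le_left h4 h3
      _ = 2 * Real.pi ^ 2 * ‖w‖ ^ 2 * P.2 := by ring
  refine ContinuousLinearMap.opNorm_le_bound _ (by positivity) fun ξ => ?_
  rw [DV_apply, norm_mul, t06e, one_mul]
  have h3 : ‖ξ.1‖ ≤ ‖ξ‖ := norm_fst_le ξ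
  have h4 : |ξ.2| ≤ ‖ξ‖ := norm_snd_le ξ
  have h5 : |(ξ.1 * w).re| ≤ ‖ξ‖ * ‖w‖ := by
    refine (Complex.abs_re_le_norm _).trans ?_
    rw [norm_mul]
    exact mul_le_mul_of_nonneg_right h3 hr.le
  refine (norm_add_le _ _).trans ?_
  rw [norm_mul, Complex.norm_I, mul_one, Complex.norm_real, Complex.norm_real, Real.norm_eq_abs,
    Real.norm_eq_abs, abs_mul _ (kap ‖w‖ P.2), abs_mul _ ((ξ.1 * w).re), abs_mul (kapt ‖w‖ P.2), abs_of_pos hk,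
    abs_of_pos (show 0 < 4 * Real.pi by positivity)]
  have h6 : 4 * Real.pi * |(ξ.1 * w).re| * kap ‖w‖ P.2 ≤ ‖w‖⁻¹ * E * ‖ξ‖ := by
    calc 4 * Real.pi * |(ξ.1 * w).re| * kap ‖w‖ P.2
        ≤ 4 * Real.pi * (‖ξ‖ * ‖w‖) * kap ‖w‖ P.2 := by
          refine mul_le_mul_of_nonneg_right ?_ hk.le
          exact mul_le_mul_of_nonneg_left h5 (by positivity)
      _ = (4 * Real.pi * ‖w‖ * kap ‖w‖ P.2) * ‖ξ‖ := by ring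
      _ ≤ ‖w‖⁻¹ * E * ‖ξ‖ := mul_le_mul_of_nonneg_right h1 (norm_nonneg _)
  have h7 : |kapt ‖w‖ P.2| * |ξ.2| ≤ (‖w‖ ^ 2 * P.2)⁻¹ * E * ‖ξ‖ :=
    mul_le_mul h2 h4 (abs_nonneg _) (by positivity)
  calc _ ≤ ‖w‖⁻¹ * E * ‖ξ‖ + (‖w‖ ^ 2 * P.2)⁻¹ * E * ‖ξ‖ := add_le_add h6 h7
    _ = _ := by ring

end Pool.Agent.H2S
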