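import Pool.Agent.Lib.H2S.J0
import Pool.Agent.Lib.H2S.N3
import Pool.Agent.Lib.H2S.T06

/-!
# H2S, module J: more definitions (helper57)

`phb χ b`: the function `ε` on the ideal `b`, extended by zero.  `wg δ n P`: the sum of `w δ β P` over the generators `β` of the
ideal `n` of `𝓞 K`.  `Om δ P a = ψ a * wg δ (N a) P`, so that `FF δ P` is the sum of `Om δ P a` over the ideals `a` of `𝓞 L`.
`kp η`: the index of the subgroup generated by the unit `η`.
-/

set_option autoImplicit false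
namespace Pool.Agent.H2S
open Complex NumberField

variable {K L : Type*} [Field K] [NumberField K] [Field L] [NumberField L] [Algebra K L]
  {F : Fld K L} {m : Ideal (𝓞 L)} {p : ℕ}

/-- `φ_b x = ε x` for `x ∈ b`, `0` otherwise. -/
noncomputable def phb (χ : Chr F m) (b : Ideal (𝓞 L)) (x : L) : ℂ :=
  open Classical in if h : ∃ y ∈ b, (y : L) = x then χ.ε h.choose else 0

theorem phb_mem (χ : Chr F m) (b : Ideal (𝓞 L)) {y : 𝓞 L} (hy : y ∈ b) : phb χ b (y : L) = χ.ε y := by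
  have h : ∃ z ∈ b, (z : L) = (y : L) := ⟨y, hy, rfl⟩
  unfold phb
  rw [dif_pos h]
  have h2 := h.choose_spec.2
  have h3 : h.choose = y := RingOfIntegers.ext h2
  rw [h3]

theorem phb_not_mem (χ : Chr F m) (b : Ideal (𝓞 L)) {x : L} (hx : ¬ ∃ y ∈ b, (y : L) = x) : phb χ b x = 0 := by
  unfold phb
  rw [dif_neg hx]

/-- The sum of `w δ β P` over the generators `β` of the ideal `n`. -/
noncomputable def Fld.wg (F : Fld K L) (δ : 𝓞 K) (n : Ideal (𝓞 K)) (P : ℂ × ℝ) : ℂ :=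
  ∑ᶠ β : {β : 𝓞 K // Ideal.span {β} = n}, F.w δ β.1 P

/-- The contribution of the ideal `a` to `FF δ P`. -/
noncomputable def Psi.Om (Ψ : Psi F m p) (δ : 𝓞 K) (P : ℂ × ℝ) (a : Ideal (𝓞 L)) : ℂ :=
  Ψ.ψ a * F.wg δ (Ideal.relNorm (𝓞 K) a) P

open Classical in
/-- The coefficients of `FF`. -/
noncomputable def Psi.cf (Ψ : Psi F m p) (β : 𝓞 K) : ℂ := if β = 0 then 0 else Ψ.A (Ideal.span {β})

/-- The frequencies of `FF`. -/
noncomputable def Fld.fr (F : Fld K L) (δ β : 𝓞 K) : ℂ := F.sK ((β : K) / (δ : K))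

/-- The index of the subgroup of the units generated by `η`. -/
noncomputable def kp (η : (𝓞 L)ˣ) : ℕ := Nat.card ((𝓞 L)ˣ ⧸ Subgroup.zpowers η)

end Pool.Agent.H2S
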