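import Pool.Agent.Lib.H2S.J13
import Pool.Agent.Lib.H2S.J15
import Pool.Agent.Lib.H2S.J24

/-!
# H2S, module J: statements needed by the other modules (helper57)
-/

set_option autoImplicit false
namespace Pool.Agent.H2S
open Complex NumberField

variable {K L : Type*} [Field K] [NumberField K] [Field L] [NumberField L] [Algebra K L]
  {F : Fld K L} {m : Ideal (𝓞 L)} {p : ℕ}

/-- J3.  `FF` is a finite combination of theta integrals. -/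
theorem FF_eq (Ψ : Psi F m p) (η : (𝓞 L)ˣ) (h1 : 1 < ‖F.s ((η : 𝓞 L) : L)‖)
    (h2 : ((η : 𝓞 L) : L) * F.τ ((η : 𝓞 L) : L) = 1) (δ : 𝓞 K) (hδ : δ ≠ 0)
    (hd : differentIdeal ℤ (𝓞 K) = Ideal.span {δ}) :
    ∃ (r : ℕ) (D : Fin r → Lat F) (c : Fin r → ℂ), (∀ i, (D i).δ = δ ∧ IsCoprime (D i).b m) ∧
      ∀ P ∈ H3, Ψ.FF δ P = ∑ i, c i * ∑ᶠ u : (𝓞 K)ˣ,
        F.GL (‖F.s ((η : 𝓞 L) : L)‖ ^ 2) (D i).ν (phb Ψ.toChr (D i).b) (F.sK ((u : 𝓞 K) : K) * P.1, P.2) :=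
  j13 Ψ η h1 h2 δ hδ hd

/-- J6.  Absolute convergence. -/
theorem FF_summable (Ψ : Psi F m p) (δ : 𝓞 K) (hδ : δ ≠ 0) (t : ℝ) (ht : 0 < t) :
    Summable fun β : 𝓞 K => open Classical in
      if β = 0 then 0 else ‖Ψ.A (Ideal.span {β})‖ * kap ‖F.sK ((β : K) / (δ : K))‖ t := by
  have h0 : 0 < ‖F.sK (δ : K)‖ := lt_of_lt_of_le one_pos (j06_ge F hδ)
  have h1 := ((j07_KS Ψ hδ).sm (2 * Real.pi * t) (by positivity)).mul_left (((1 / ‖F.sK (δ : K)‖) ^ 2)⁻¹)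
  refine Summable.of_nonneg_of_le (fun β => ?_) (fun β => ?_) h1
  · by_cases hβ : β = 0
    · rw [if_pos hβ]
    · rw [if_neg hβ]
      exact mul_nonneg (norm_nonneg _) (j05a _ _)
  · by_cases hβ : β = 0
    · rw [if_pos hβ]
      positivity
    · rw [if_neg hβ]
      have h2 : 1 / ‖F.sK (δ : K)‖ ≤ ‖F.sK ((β : K) / (δ : K))‖ := by
        rw [map_div₀, norm_div]
        gcongr
        exact j06_ge F hβ
      have h3 := j05d (r0 := 1 / ‖F.sK (δ : K)‖) (by positivity) h2 ht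
      have h4 : Ψ.cf β = Ψ.A (Ideal.span {β}) := by
        unfold Psi.cf
        rw [if_neg hβ]
      rw [← h4]
      calc ‖Ψ.cf β‖ * kap ‖F.sK ((β : K) / (δ : K))‖ t
          ≤ ‖Ψ.cf β‖ * (((1 / ‖F.sK (δ : K)‖) ^ 2)⁻¹ *
              Real.exp (-(2 * Real.pi * ‖F.sK ((β : K) / (δ : K))‖ * t))) := by gcongr
        _ = ((1 / ‖F.sK (δ : K)‖) ^ 2)⁻¹ * (‖Ψ.cf β‖ * Real.exp (-(2 * Real.pi * t * ‖F.fr δ β‖))) := by
          unfold Fld.fr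
          rw [show 2 * Real.pi * t * ‖F.sK ((β : K) / (δ : K))‖ =
            2 * Real.pi * ‖F.sK ((β : K) / (δ : K))‖ * t by ring]
          ring

/-- J5.  `FF` is not constant. -/
theorem FF_not_const (Ψ : Psi F m p) (δ : 𝓞 K) (hδ : δ ≠ 0)
    (hd : differentIdeal ℤ (𝓞 K) = Ideal.span {δ}) (C : ℂ) : ∃ P ∈ H3, Ψ.FF δ P ≠ C :=
  j15 Ψ δ hδ hd C

/-- `FF (u z, t) = FF (z, t)`. -/
theorem FF_unit (Ψ : Psi F m p) (δ : 𝓞 K) (u : (𝓞 K)ˣ) (P : ℂ × ℝ) :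
    Ψ.FF δ (F.sK ((u : 𝓞 K) : K) * P.1, P.2) = Ψ.FF δ P :=
  j14_unit Ψ δ u P

/-- J8.  The Hecke relations for the homomorphism `Φ`. -/
theorem FF_eigen (Ψ : Psi F m p) (δ : 𝓞 K) (hδ : δ ≠ 0) (hd : differentIdeal ℤ (𝓞 K) = Ideal.span {δ})
    (Φ : Gam0 (lev K m) → ℂ)
    (hΦ : ∀ g : Gam0 (lev K m), ∀ P ∈ H3, Ψ.FF δ (actO F.sK ((g : GL (Fin 2) (𝓞 K)) : Matrix (Fin 2) (Fin 2) (𝓞 K)) P) =
      Ψ.FF δ P + Φ g) (π : 𝓞 K) (hπ : GoodPrime m p π) :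
    Eigen (lev K m) π Φ (Ψ.A (Ideal.span {π})) :=
  j24 Ψ δ hδ hd Φ hΦ π hπ

end Pool.Agent.H2S
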