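import Pool.Agent.Lib.H2S.J0

/-!
# K0: definitions for the Teichmüller lift
-/

set_option autoImplicit false
namespace Pool.Agent.H2S
open Complex NumberField

variable {K L : Type*} [Field K] [NumberField K] [Field L] [NumberField L] [Algebra K L]

/-- The ring of algebraic integers in `ℂ`. -/
abbrev Oc : Type := integralClosure ℤ ℂ

/-- `x * cc (τ x)` as an element of `𝓞 L` (through the map of `𝓞 L` given by the automorphism `cc ∘ τ`). -/
noncomputable def Fld.nc (F : Fld K L) (x : 𝓞 L) : 𝓞 L :=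
  ⟨(x : L) * F.cc (F.τ (x : L)), by
    have h1 : IsIntegral ℤ (F.τ (x : L)) := by
      have := x.isIntegral_coe.map (F.τ : L →ₐ[K] L).toRingHom.toIntAlgHom
      exact this
    have h2 : IsIntegral ℤ (F.cc (F.τ (x : L))) := by
      have := h1.map (F.cc : L →+* L).toIntAlgHom
      exact this
    exact x.isIntegral_coe.mul h2⟩

theorem Fld.coe_nc (F : Fld K L) (x : 𝓞 L) : ((F.nc x : 𝓞 L) : L) = (x : L) * F.cc (F.τ (x : L)) := rfl

/-- The Hecke character mod `p` of CM type at `p`, modulus `m`. -/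
structure ModChi (F : Fld K L) (m : Ideal (𝓞 L)) (p : ℕ) (k : Type*) [Field k] where
  pprime : p.Prime
  p3 : 3 < p
  char : CharP k p
  closed : IsAlgClosed k
  mne : m ≠ ⊥
  mp : IsCoprime m (Ideal.span {(p : 𝓞 L)})
  r : 𝓞 L →+* k
  χ : Ideal (𝓞 L) →*₀ k
  ne : ∀ a, a ≠ ⊥ → (χ a ≠ 0 ↔ IsCoprime a (m * Ideal.span {(p : 𝓞 L)}))
  h1 : ∀ x : 𝓞 L, x - 1 ∈ m → IsCoprime (Ideal.span {x}) (Ideal.span {(p : 𝓞 L)}) → χ (Ideal.span {x}) = r (F.nc x)
  h2 : ∀ π : 𝓞 K, GoodPrime m p π → χ (up L π) =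
    (open Classical in if (up L π).IsPrime then -1 else 1) * (Ideal.absNorm (Ideal.span {π}) : k)

end Pool.Agent.H2S
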