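import Pool.Agent.Lib.H2S.K0

/-!
# K2: roots of unity of order prime to `p`, Teichmüller representatives
-/

set_option autoImplicit false
namespace Pool.Agent.H2S
open Complex

/-- PROOF. If `ζ ^ n = 1 = ζ' ^ n` with `n` prime to `p` and `R ζ = R ζ'`: `ξ = ζ / ζ'` has `ξ ^ n = 1`, `R ξ = 1`; if `ξ ≠ 1` then
`1 + ξ + ... + ξ ^ (n-1) = 0`, so `n = 0` in `k`, contradiction. -/
theorem root_inj {k : Type*} [Field k] {p : ℕ} (hp : p.Prime) [CharP k p] (R : Oc →+* k) {n : ℕ} (hn : ¬ p ∣ n)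
    {ζ ζ' : Oc} (h : ζ ^ n = 1) (h' : ζ' ^ n = 1) (hR : R ζ = R ζ') : ζ = ζ' := by
  have hn0 : n ≠ 0 := by
    rintro rfl
    exact hn (dvd_zero _)
  obtain ⟨m, rfl⟩ := Nat.exists_eq_succ_of_ne_zero hn0
  have hR' : R (ζ * ζ' ^ m) = 1 := by
    rw [map_mul, hR, ← map_mul, ← pow_succ', h', map_one]
  have hξ : (ζ * ζ' ^ m) ^ (m + 1) = 1 := by
    rw [mul_pow, h, one_mul, ← pow_mul, mul_comm, pow_mul, h', one_pow]
  have h1 : ζ * ζ' ^ m = 1 := by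
    by_contra hne
    have h2 : (∑ i ∈ Finset.range (m + 1), (ζ * ζ' ^ m) ^ i) * (ζ * ζ' ^ m - 1) = 0 := by
      rw [geom_sum_mul, hξ, sub_self]
    have h3 : ∑ i ∈ Finset.range (m + 1), (ζ * ζ' ^ m) ^ i = 0 := by
      rcases mul_eq_zero.1 h2 with h4 | h4
      · exact h4
      · exact absurd (sub_eq_zero.1 h4) hne
    have h4 := congrArg R h3
    rw [map_sum, map_zero] at h4
    have h5 : ∑ i ∈ Finset.range (m + 1), R ((ζ * ζ' ^ m) ^ i) = ((m + 1 : ℕ) : k) := by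
      rw [Finset.sum_congr rfl (fun i _ => by rw [map_pow, hR', one_pow] :
        ∀ i ∈ Finset.range (m + 1), R ((ζ * ζ' ^ m) ^ i) = 1)]
      simp
    rw [h5, CharP.cast_eq_zero_iff k p] at h4
    exact hn h4
  have h2 : ζ * ζ' ^ m * ζ' = ζ' := by rw [h1, one_mul]
  rwa [mul_assoc, ← pow_succ, h', mul_one] at h2

/-- PROOF. Let `y ^ n = 1`, `y ≠ 0`.  Write `n = p ^ a n'` with `n'` prime to `p`: `y ^ n' = 1` as `k` has characteristic `p`
(`(y ^ n' - 1) ^ (p ^ a) = 0`).  The `n'` different powers of `ζ = exp (2 π i / n')` have different images (`root_inj`), which are `n'` roots of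
`X ^ n' - 1`, so `y` is one of them. -/
theorem root_surj {k : Type*} [Field k] {p : ℕ} (hp : p.Prime) [CharP k p] (R : Oc →+* k) {n : ℕ} (hn : 0 < n) {y : k}
    (h : y ^ n = 1) : ∃ (n' : ℕ) (ζ : Oc), ¬ p ∣ n' ∧ 0 < n' ∧ ζ ^ n' = 1 ∧ R ζ = y := by
  have : Fact p.Prime := ⟨hp⟩
  obtain ⟨a, n', hn', rfl⟩ := Nat.exists_eq_pow_mul_and_not_dvd hn.ne' p hp.ne_one
  have hy : y ^ n' = 1 := (ExpChar.pow_prime_pow_mul_eq_one_iff p a n' y).1 h
  have hn0 : n' ≠ 0 := by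
    rintro rfl
    exact hn' (dvd_zero _)
  have hprim := Complex.isPrimitiveRoot_exp n' hn0
  have hint : IsIntegral ℤ (Complex.exp (2 * Real.pi * Complex.I / n')) :=
    hprim.isIntegral (Nat.pos_of_ne_zero hn0)
  let z : Oc := ⟨Complex.exp (2 * Real.pi * Complex.I / n'), hint⟩
  have hz : z ^ n' = 1 := by
    apply Subtype.ext
    exact hprim.pow_eq_one
  have hz2 : ∀ l, 0 < l → l < n' → z ^ l ≠ 1 := by
    intro l h0 hl h1
    have h2 : (Complex.exp (2 * Real.pi * Complex.I / n')) ^ l = 1 := congrArg Subtype.val h1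
    exact hprim.pow_ne_one_of_pos_of_lt h0.ne' hl h2
  have hR : IsPrimitiveRoot (R z) n' := by
    refine IsPrimitiveRoot.mk_of_lt _ (Nat.pos_of_ne_zero hn0) ?_ ?_
    · rw [← map_pow, hz, map_one]
    · intro l h0 hl h1
      refine hz2 l h0 hl (root_inj hp R hn' ?_ (one_pow _) ?_)
      · rw [← pow_mul, mul_comm, pow_mul, hz, one_pow]
      · rw [map_pow, h1, map_one]
  have : NeZero n' := ⟨hn0⟩
  obtain ⟨i, -, hi⟩ := hR.eq_pow_of_pow_eq_one hy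
  refine ⟨n', z ^ i, hn', Nat.pos_of_ne_zero hn0, ?_, ?_⟩
  · rw [← pow_mul, mul_comm, pow_mul, hz, one_pow]
  · rw [map_pow, hi]

/-- The Teichmüller representatives.  PROOF. `root_surj` and `choose`; uniqueness by `root_inj` (exponent: product of the two exponents). -/
theorem exists_teich {k : Type*} [Field k] {p : ℕ} (hp : p.Prime) [CharP k p] (R : Oc →+* k) :
    ∃ T : k → Oc, (∀ y, (∃ n : ℕ, 0 < n ∧ y ^ n = 1) → R (T y) = y ∧ ∃ n : ℕ, ¬ p ∣ n ∧ 0 < n ∧ T y ^ n = 1) ∧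
      (∀ y y', (∃ n : ℕ, 0 < n ∧ y ^ n = 1) → (∃ n : ℕ, 0 < n ∧ y' ^ n = 1) → T (y * y') = T y * T y') ∧
      (∀ (ζ : Oc) (n : ℕ), ¬ p ∣ n → 0 < n → ζ ^ n = 1 → T (R ζ) = ζ) := by
  have h1 : ∀ y : k, ∃ t : Oc, (∃ n : ℕ, 0 < n ∧ y ^ n = 1) →
      R t = y ∧ ∃ n : ℕ, ¬ p ∣ n ∧ 0 < n ∧ t ^ n = 1 := by
    intro y
    by_cases hy : ∃ n : ℕ, 0 < n ∧ y ^ n = 1
    · obtain ⟨n, hn, hyn⟩ := hy
      obtain ⟨n', t, h1, h2, h3, h4⟩ := root_surj hp R hn hyn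
      exact ⟨t, fun _ => ⟨h4, n', h1, h2, h3⟩⟩
    · exact ⟨1, fun h => absurd h hy⟩
  choose T hT using h1
  refine ⟨T, hT, ?_, ?_⟩
  · intro y y' hy hy'
    obtain ⟨e1, n1, h1, -, h2⟩ := hT y hy
    obtain ⟨e2, n2, h3, -, h4⟩ := hT y' hy'
    have hyy : ∃ n : ℕ, 0 < n ∧ (y * y') ^ n = 1 := by
      obtain ⟨a, ha, hay⟩ := hy
      obtain ⟨b, hb, hby⟩ := hy'
      refine ⟨a * b, Nat.mul_pos ha hb, ?_⟩
      rw [mul_pow, pow_mul, hay, one_pow, mul_comm a b, pow_mul, hby, one_pow, one_mul]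
    obtain ⟨e3, n3, h5, -, h6⟩ := hT (y * y') hyy
    have hN : ¬ p ∣ n3 * (n1 * n2) := by
      rw [hp.dvd_mul, hp.dvd_mul]
      tauto
    refine root_inj hp R hN ?_ ?_ ?_
    · rw [pow_mul, h6, one_pow]
    · rw [mul_comm n3, pow_mul, mul_pow, pow_mul, h2, one_pow, mul_comm n1, pow_mul, h4, one_pow,
        one_mul, one_pow]
    · rw [e3, map_mul, e1, e2]
  · intro ζ n hn h0 hζ
    obtain ⟨e1, n1, h1, -, h2⟩ := hT (R ζ) ⟨n, h0, by rw [← map_pow, hζ, map_one]⟩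
    have hN : ¬ p ∣ n1 * n := by
      rw [hp.dvd_mul]
      tauto
    refine root_inj hp R hN ?_ ?_ e1
    · rw [pow_mul, h2, one_pow]
    · rw [mul_comm, pow_mul, hζ, one_pow]

end Pool.Agent.H2S
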