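import Pool.Agent.Lib.H2S.K0

/-!
# K3: elements with prescribed coprimality
-/

set_option autoImplicit false
namespace Pool.Agent.H2S
open Complex NumberField

variable {L : Type*} [Field L] [NumberField L]

/-- PROOF. Chinese remainder theorem (`Ideal` version: `m ⊔ J = ⊤`, write `1 = a + b`, `a ∈ m`, `b ∈ J`, and take `x' = b x + a`:
`x' - x = a (1 - x) ∈ m`, `x' - 1 = b (x - 1) ∈ J`). -/
theorem exists_congr {m J : Ideal (𝓞 L)} (h : IsCoprime m J) (x : 𝓞 L) : ∃ x' : 𝓞 L, x' - x ∈ m ∧ x' - 1 ∈ J := by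
  obtain ⟨a, ha, b, hb, hab⟩ := Ideal.isCoprime_iff_exists.1 h
  refine ⟨b * x + a, ?_, ?_⟩
  · have h1 : b * x + a - x = a * (1 - x) := by
      linear_combination x * hab
    rw [h1]
    exact Ideal.mul_mem_right _ _ ha
  · have h1 : b * x + a - 1 = b * (x - 1) := by
      linear_combination hab
    rw [h1]
    exact Ideal.mul_mem_right _ _ hb

/-- PROOF. `x' - x ∈ m` and `(x)`, `m` coprime give `(x')`, `m` coprime. -/
theorem coprime_congr {m : Ideal (𝓞 L)} {x x' : 𝓞 L} (h : x' - x ∈ m) (hx : IsCoprime (Ideal.span {x}) m) :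
    IsCoprime (Ideal.span {x'}) m := by
  obtain ⟨a, ha, b, hb, hab⟩ := Ideal.isCoprime_iff_exists.1 hx
  obtain ⟨c, rfl⟩ := Ideal.mem_span_singleton'.1 ha
  refine Ideal.isCoprime_iff_exists.2 ⟨c * x', Ideal.mem_span_singleton'.2 ⟨c, rfl⟩,
    b - c * (x' - x), Ideal.sub_mem _ hb (Ideal.mul_mem_left _ _ h), ?_⟩
  linear_combination hab

/-- An inverse modulo `m` which is prime to `J`.  PROOF. `a x + b = 1` with `b ∈ m`; `exists_congr` for `a`. -/
theorem exists_inv {m J : Ideal (𝓞 L)} (h : IsCoprime m J) {x : 𝓞 L} (hx : IsCoprime (Ideal.span {x}) m) :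
    ∃ y : 𝓞 L, y * x - 1 ∈ m ∧ y - 1 ∈ J := by
  obtain ⟨a, ha, b, hb, hab⟩ := Ideal.isCoprime_iff_exists.1 hx
  obtain ⟨c, rfl⟩ := Ideal.mem_span_singleton'.1 ha
  obtain ⟨y, hy1, hy2⟩ := exists_congr h c
  refine ⟨y, ?_, hy2⟩
  have h1 : y * x - 1 = x * (y - c) - b := by
    linear_combination hab
  rw [h1]
  exact Ideal.sub_mem _ (Ideal.mul_mem_left _ _ hy1) hb

/-- PROOF. Let `P_1, ..., P_r` be the prime ideals dividing `J`.  `a ≠ a P_i` (cancellation), so there is `z_i ∈ a`, `z_i ∉ a P_i`.  By the Chinese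
remainder theorem choose `t_i ∈ ∏ (j ≠ i) P_j` with `t_i - 1 ∈ P_i`, and `z = ∑ t_i z_i ∈ a`: modulo `a P_i`, `z = z_i`, so `z ∉ a P_i`.
`a ∣ (z)`, `(z) = a c`, and `P_i` does not divide `c`.  (If `r = 0` take any `z ≠ 0` in `a`.) -/
theorem exists_elt {a J : Ideal (𝓞 L)} (ha : a ≠ ⊥) (hJ : J ≠ ⊥) :
    ∃ (z : 𝓞 L) (c : Ideal (𝓞 L)), z ≠ 0 ∧ Ideal.span {z} = a * c ∧ IsCoprime c J := by
  have key : ∀ z : 𝓞 L, a * J ⊔ Ideal.span {z} = a → z ≠ 0 →
      ∃ (z : 𝓞 L) (c : Ideal (𝓞 L)), z ≠ 0 ∧ Ideal.span {z} = a * c ∧ IsCoprime c J := by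
    intro z hz hz0
    have h1 : Ideal.span {z} ≤ a := le_sup_right.trans hz.le
    obtain ⟨c, hc⟩ := Ideal.dvd_iff_le.2 h1
    refine ⟨z, c, hz0, hc, ?_⟩
    have h2 : a * (J ⊔ c) = a * 1 := by
      rw [mul_one, Ideal.mul_sup, ← hc, hz]
    have h3 : J ⊔ c = 1 := mul_left_cancel₀ (by simpa using ha) h2
    rw [Ideal.isCoprime_iff_sup_eq, sup_comm, h3, Ideal.one_eq_top]
  obtain ⟨z, hz⟩ := IsDedekindDomain.exists_sup_span_eq (I := a * J) (J := a) Ideal.mul_le_left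
    (mul_ne_zero (by simpa using ha) (by simpa using hJ))
  by_cases hz0 : z = 0
  · obtain ⟨w, hw, hw0⟩ := Submodule.exists_mem_ne_zero_of_ne_bot ha
    refine key w ?_ hw0
    rw [hz0, Ideal.span_singleton_zero, sup_bot_eq] at hz
    rw [hz, sup_eq_left, Ideal.span_singleton_le_iff_mem]
    exact hw
  · exact key z hz hz0

/-- Representatives of the ideal classes prime to `J`: every ideal class contains the inverse of such an ideal.  PROOF. For a class `C` choose an ideal `a` in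
`C` and `z`, `c` by `exists_elt`: `c` is prime to `J` and has the class `C⁻¹`. -/
theorem exists_class {J : Ideal (𝓞 L)} (hJ : J ≠ ⊥) (C : ClassGroup (𝓞 L)) :
    ∃ (c : nonZeroDivisors (Ideal (𝓞 L))), ClassGroup.mk0 c = C ∧ IsCoprime (c : Ideal (𝓞 L)) J := by
  obtain ⟨⟨a, ha⟩, rfl⟩ := ClassGroup.mk0_surjective C
  obtain ⟨⟨b, hb⟩, hab⟩ := ClassGroup.mk0_surjective (ClassGroup.mk0 ⟨a, ha⟩)⁻¹
  have hb0 : b ≠ ⊥ := by
    have := nonZeroDivisors.ne_zero hb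
    simpa using this
  obtain ⟨z, c, hz0, hz, hc⟩ := exists_elt hb0 hJ
  have hc0 : c ≠ 0 := by
    rintro rfl
    rw [mul_zero] at hz
    exact hz0 (by simpa using hz)
  refine ⟨⟨c, mem_nonZeroDivisors_of_ne_zero hc0⟩, ?_, hc⟩
  have h1 : ClassGroup.mk0 (⟨b, hb⟩ * ⟨c, mem_nonZeroDivisors_of_ne_zero hc0⟩ :
      nonZeroDivisors (Ideal (𝓞 L))) = 1 := by
    rw [ClassGroup.mk0_eq_one_iff]
    refine ⟨⟨z, ?_⟩⟩
    change b * c = _
    rw [← hz]
  rw [map_mul, hab] at h1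
  exact (inv_mul_eq_one.1 h1).symm

end Pool.Agent.H2S
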