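import Pool.Agent.Lib.H2S.K0
import Pool.Agent.Lib.H2S.N3

/-!
# K6: the norm of a unit to the field fixed by `cc ∘ τ`
-/

set_option autoImplicit false
namespace Pool.Agent.H2S
open Complex NumberField

variable {K L : Type*} [Field K] [NumberField K] [Field L] [NumberField L] [Algebra K L]

theorem k6_pow {M : Type*} [Field M] {w : M} {m : ℤ} (hm : |m| ≤ 2) (h : w ^ 2 + 1 = m * w) : w ^ 12 = 1 := by
  obtain ⟨h1, h2⟩ := abs_le.1 hm
  have h3 : m = -2 ∨ m = -1 ∨ m = 0 ∨ m = 1 ∨ m = 2 := by omega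
  rcases h3 with rfl | rfl | rfl | rfl | rfl
  · have h4 : (w + 1) ^ 2 = 0 := by
      push_cast at h
      linear_combination h
    have h5 : w + 1 = 0 := pow_eq_zero_iff two_ne_zero |>.1 h4
    have h6 : w = -1 := by linear_combination h5
    rw [h6]
    norm_num
  · have h4 : w ^ 3 = 1 := by
      push_cast at h
      linear_combination (w - 1) * h
    have h5 : w ^ 12 = (w ^ 3) ^ 4 := by ring
    rw [h5, h4, one_pow]
  · have h4 : w ^ 2 = -1 := by
      push_cast at h
      linear_combination h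
    have h5 : w ^ 12 = (w ^ 2) ^ 6 := by ring
    rw [h5, h4]
    norm_num
  · have h4 : w ^ 3 = -1 := by
      push_cast at h
      linear_combination (w + 1) * h
    have h5 : w ^ 12 = (w ^ 3) ^ 4 := by ring
    rw [h5, h4]
    norm_num
  · have h4 : (w - 1) ^ 2 = 0 := by
      push_cast at h
      linear_combination h
    have h5 : w - 1 = 0 := pow_eq_zero_iff two_ne_zero |>.1 h4
    have h6 : w = 1 := by linear_combination h5
    rw [h6, one_pow]

/-- PROOF. `w = u * cc (τ u)`.  For every embedding `φ` of `L`: `|φ (cc y)| = |φ y|` (`F.cj`), and by `Fld.emb` `{|φ u|, |φ (τ u)|} = {|s u|, |s (τ u)|}`, so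
`|φ w| = |s u| |s (τ u)| = 1` (`Fld.norm_unitL`).  So `w` is a root of unity (`NumberField.Units.mem_torsion` or
`NumberField.Embeddings.pow_eq_one_of_norm_eq_one`), of order `n`, say.  `w` is fixed by `g = cc ∘ τ`, an automorphism of `L / ℚ` with `g ∘ g = 1`, `g ≠ 1`
(`g` is not the identity on `K`: `Fld.sK_not_real`).  The fixed field of `{1, g}` has degree `4 / 2 = 2` over `ℚ`, so `φ(n) = [ℚ(w) : ℚ]` divides `2`
(`IsPrimitiveRoot`, minimal polynomial = cyclotomic polynomial), so `n ∈ {1, 2, 3, 4, 6}` and `w ^ 12 = 1`. -/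
theorem Fld.nc_unit (F : Fld K L) (u : (𝓞 L)ˣ) : F.nc (u : 𝓞 L) ^ 12 = 1 := by
  obtain ⟨w, hw⟩ : ∃ w : L, w = ((F.nc (u : 𝓞 L) : 𝓞 L) : L) := ⟨_, rfl⟩
  have hwu : w = ((u : 𝓞 L) : L) * F.cc (F.τ ((u : 𝓞 L) : L)) := by rw [hw, F.coe_nc]
  have hs : ‖F.s w‖ = 1 := by
    rw [hwu, map_mul, norm_mul, F.cj, RCLike.norm_conj]
    exact F.norm_unitL u
  have h1 : w * F.cc w = 1 := by
    apply F.s.injective
    rw [map_mul, F.cj, map_one, RCLike.mul_conj, hs]
    norm_num
  have h2 : F.τ w = F.cc w := by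
    rw [hwu, map_mul, map_mul, F.cccc, ← F.ccτ, F.ττ, mul_comm]
  obtain ⟨t, ht⟩ : ∃ t : K, t = Algebra.trace K L w := ⟨_, rfl⟩
  have h3 : algebraMap K L t = w + F.cc w := by rw [ht, F.trace_eq, h2]
  have h4 : F.sK t = F.s w + (starRingEnd ℂ) (F.s w) := by
    rw [Fld.sK, RingHom.comp_apply, h3, map_add, F.cj]
  have h5 : (starRingEnd ℂ) (F.sK t) = F.sK t := by
    rw [h4, map_add, Complex.conj_conj, add_comm]
  have h6 := F.trK t
  rw [h5] at h6
  have h7 : t = ((Algebra.trace ℚ K t / 2 : ℚ) : K) := by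
    apply F.sK.injective
    rw [map_ratCast, Rat.cast_div, h6]
    push_cast
    ring
  have h8 : IsIntegral ℤ t := by
    rw [ht]
    refine Algebra.isIntegral_trace ?_
    rw [hw]
    exact (F.nc (u : 𝓞 L)).isIntegral_coe
  obtain ⟨q, hq⟩ : ∃ q : ℚ, t = (q : K) := ⟨_, h7⟩
  have h9 : IsIntegral ℤ q := by
    refine (isIntegral_algebraMap_iff (algebraMap ℚ K).injective).1 ?_
    rw [eq_ratCast, ← hq]
    exact h8
  obtain ⟨m, hm⟩ := IsIntegrallyClosed.isIntegral_iff.1 h9
  have h10 : t = (m : K) := by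
    rw [hq, ← hm, eq_intCast, Rat.cast_intCast]
  have h11 : |m| ≤ 2 := by
    have h12 : ‖F.sK t‖ ≤ 2 := by
      rw [h4]
      refine (norm_add_le _ _).trans ?_
      rw [RCLike.norm_conj, hs]
      norm_num
    rw [h10, map_intCast, Complex.norm_intCast] at h12
    exact_mod_cast h12
  have h12 : w ^ 2 + 1 = m * w := by
    have h13 : algebraMap K L t = (m : L) := by rw [h10, map_intCast]
    rw [← h13, h3, ← h1]
    ring
  apply RingOfIntegers.coe_injective
  rw [map_pow, map_one]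
  have h13 := k6_pow h11 h12
  rw [hw] at h13
  exact h13

end Pool.Agent.H2S
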