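import Pool.Agent.Lib.H2S.K2
import Pool.Agent.Lib.H2S.K5
import Pool.Agent.Lib.H2S.K6

/-!
# K7: the character `ε`
-/

set_option autoImplicit false
namespace Pool.Agent.H2S
open Complex NumberField

variable {K L : Type*} [Field K] [NumberField K] [Field L] [NumberField L] [Algebra K L]
  {F : Fld K L} {m : Ideal (𝓞 L)} {p : ℕ} {k : Type*} [Field k]

/-- The image of an integer in `Oc`. -/
noncomputable def k7_oc (F : Fld K L) (x : 𝓞 L) : Oc :=
  ⟨F.s (x : L), by
    have := x.isIntegral_coe.map (F.s : L →+* ℂ).toIntAlgHom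
    exact this⟩

theorem k7_oc_coe (F : Fld K L) (x : 𝓞 L) : ((k7_oc F x : Oc) : ℂ) = F.s (x : L) := rfl

/-- PROOF. `ε x = T (e x)` for `x` prime to `m`, `0` otherwise (`ModChi.exists_e`, `exists_teich`).  The condition for a unit `u`:
`w = T (e u) * s (nc u)` is in `Oc`, `w ^ (12 n) = 1` with `n` prime to `p` (`Fld.nc_unit`; `12 n` is prime to `p` as `p > 3`) and
`R w = e u * r (nc u) = χ ((u)) = χ ⊤ = 1`, so `w = 1` (`root_inj`). -/
theorem ModChi.exists_chr (X : ModChi F m p k) (R : Oc →+* k) (hR : ∀ x : 𝓞 L, ∀ y : Oc, (y : ℂ) = F.s (x : L) → R y = X.r x) :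
    ∃ c : Chr F m, (∀ x, IsCoprime (Ideal.span {x}) m → ∃ n : ℕ, ¬ p ∣ n ∧ 0 < n ∧ c.ε x ^ n = 1) ∧
      (∀ x, IsCoprime (Ideal.span {x}) (m * Ideal.span {(p : 𝓞 L)}) →
        ∃ z : Oc, (z : ℂ) = c.ε x ∧ X.χ (Ideal.span {x}) = R z * X.r (F.nc x)) := by
  classical
  have hchar := X.char
  obtain ⟨e, e1, emul, eper, ezero, efin, echi⟩ := X.exists_e
  obtain ⟨T, hT1, hT2, hT3⟩ := exists_teich X.pprime R
  have hunitcop : ∀ (u : (𝓞 L)ˣ) (I : Ideal (𝓞 L)), IsCoprime (Ideal.span {(u : 𝓞 L)}) I := by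
    intro u I
    rw [Ideal.span_singleton_eq_top.2 u.isUnit, ← Ideal.one_eq_top]
    exact isCoprime_one_left
  have hT1' : T 1 = 1 := by
    have h := hT3 1 1 (fun h => X.pprime.one_lt.not_ge (Nat.le_of_dvd one_pos h)) one_pos (one_pow 1)
    rw [map_one] at h
    exact h
  let c : Chr F m :=
    { ε := fun x => if IsCoprime (Ideal.span {x}) m then ((T (e x) : Oc) : ℂ) else 0
      one := by
        have h1 : IsCoprime (Ideal.span {(1 : 𝓞 L)}) m := k5_one
        simp only [if_pos h1, e1, hT1']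
        rfl
      mul := by
        intro x y
        by_cases hx : IsCoprime (Ideal.span {x}) m
        · by_cases hy : IsCoprime (Ideal.span {y}) m
          · rw [if_pos hx, if_pos hy, if_pos (k5_span_mul.2 ⟨hx, hy⟩), emul, hT2 _ _ (efin x hx) (efin y hy)]
            rfl
          · rw [if_neg hy, mul_zero, if_neg (fun h => hy (k5_span_mul.1 h).2)]
        · rw [if_neg hx, zero_mul, if_neg (fun h => hx (k5_span_mul.1 h).1)]
      per := by
        intro x y h
        have h' : y - x ∈ m := by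
          rw [← neg_sub]
          exact m.neg_mem h
        by_cases hx : IsCoprime (Ideal.span {x}) m
        · have hy := coprime_congr h' hx
          rw [if_pos hx, if_pos hy, eper x y h]
        · rw [if_neg hx, if_neg (fun hy => hx (coprime_congr h hy))]
      zero := fun x hx => if_neg hx
      unit := by
        intro u
        have hu := hunitcop u m
        rw [if_pos hu]
        obtain ⟨h1, n, hn1, hn2, hn3⟩ := hT1 (e u) (efin u hu)
        have h2 : R (T (e u) * k7_oc F (F.nc (u : 𝓞 L))) = 1 := by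
          rw [map_mul, h1, hR (F.nc (u : 𝓞 L)) _ (k7_oc_coe F _), ← echi u (hunitcop u _),
            Ideal.span_singleton_eq_top.2 u.isUnit, ← Ideal.one_eq_top, map_one]
        have h3 : k7_oc F (F.nc (u : 𝓞 L)) ^ 12 = 1 := by
          have h4 := F.nc_unit u
          have h5 : ((F.nc (u : 𝓞 L) ^ 12 : 𝓞 L) : L) = 1 := by
            rw [h4]
            exact k5_coe_one
          apply Subtype.ext
          have h6 : ((k7_oc F (F.nc (u : 𝓞 L)) ^ 12 : Oc) : ℂ) = F.s ((F.nc (u : 𝓞 L) : L) ^ 12) := by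
            rw [map_pow]
            rfl
          rw [h6]
          have h7 : ((F.nc (u : 𝓞 L) : L) ^ 12) = 1 := by
            rw [← h5]
            exact (map_pow (algebraMap (𝓞 L) L) _ 12).symm
          rw [h7, map_one]
          rfl
        have h4 : (T (e u) * k7_oc F (F.nc (u : 𝓞 L))) ^ (12 * n) = 1 := by
          rw [mul_pow, pow_mul (k7_oc F (F.nc (u : 𝓞 L))), h3, one_pow, mul_one, mul_comm 12 n, pow_mul, hn3, one_pow]
        have h5 : ¬ p ∣ 12 * n := by
          intro h
          rcases (Nat.Prime.dvd_mul X.pprime).1 h with h | h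
          · have h6 : (12 : ℕ) = 2 * 2 * 3 := by norm_num
            rw [h6] at h
            rcases (Nat.Prime.dvd_mul X.pprime).1 h with h | h
            · rcases (Nat.Prime.dvd_mul X.pprime).1 h with h | h
              · have := Nat.le_of_dvd (by norm_num) h
                have := X.p3
                omega
              · have := Nat.le_of_dvd (by norm_num) h
                have := X.p3
                omega
            · have := Nat.le_of_dvd (by norm_num) h
              have := X.p3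
              omega
          · exact hn1 h
        have h6 : T (e u) * k7_oc F (F.nc (u : 𝓞 L)) = 1 :=
          root_inj X.pprime R h5 h4 (one_pow _) (by rw [h2, map_one])
        have h7 := congrArg (fun z : Oc => (z : ℂ)) h6
        exact h7 }
  refine ⟨c, ?_, ?_⟩
  · intro x hx
    obtain ⟨h1, n, hn1, hn2, hn3⟩ := hT1 (e x) (efin x hx)
    refine ⟨n, hn1, hn2, ?_⟩
    change (if IsCoprime (Ideal.span {x}) m then ((T (e x) : Oc) : ℂ) else 0) ^ n = 1
    rw [if_pos hx]
    have h7 := congrArg (fun z : Oc => (z : ℂ)) hn3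
    exact h7
  · intro x hx
    have hx' := (IsCoprime.mul_right_iff.1 hx).1
    refine ⟨T (e x), ?_, ?_⟩
    · change _ = (if IsCoprime (Ideal.span {x}) m then ((T (e x) : Oc) : ℂ) else 0)
      rw [if_pos hx']
    · rw [(hT1 (e x) (efin x hx')).1]
      exact echi x hx

/-- A good prime is prime to `m p`. -/
theorem k7_cop (X : ModChi F m p k) {π : 𝓞 K} (hπ : GoodPrime m p π) :
    IsCoprime (Ideal.span {algebraMap (𝓞 K) (𝓞 L) π}) (m * Ideal.span {(p : 𝓞 L)}) := by
  have hmax : (Ideal.span {π}).IsMaximal := by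
    have h1 : (Ideal.span {π}).IsPrime := (Ideal.span_singleton_prime hπ.prime.ne_zero).2 hπ.prime
    exact h1.isMaximal (by simpa using hπ.prime.ne_zero)
  refine IsCoprime.mul_right_iff.2 ⟨?_, ?_⟩
  · rw [Ideal.isCoprime_iff_sup_eq]
    by_contra hne
    obtain ⟨P, hP, hle⟩ := Ideal.exists_le_maximal _ hne
    have h1 : Ideal.span {π} ≤ P.comap (algebraMap (𝓞 K) (𝓞 L)) := by
      rw [Ideal.span_singleton_le_iff_mem, Ideal.mem_comap]
      exact hle (Ideal.mem_sup_left (Ideal.mem_span_singleton_self _))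
    have h2 : P.comap (algebraMap (𝓞 K) (𝓞 L)) ≠ ⊤ := by
      rw [Ne, Ideal.comap_eq_top_iff]
      exact hP.ne_top
    have h3 := hmax.eq_of_le h2 h1
    apply hπ.lev
    rw [h3]
    unfold lev
    refine le_trans (Ideal.relNorm_mono (𝓞 K) (?_ : m * differentIdeal (𝓞 K) (𝓞 L) ≤ P)) (Ideal.relNorm_le_comap (𝓞 K) P)
    exact le_trans Ideal.mul_le_left (le_trans le_sup_right hle)
  · have h1 : (p : 𝓞 K) ∉ Ideal.span {π} := by
      rw [Ideal.mem_span_singleton]
      exact hπ.p
    have h2 : Ideal.span {π} ⊔ Ideal.span {(p : 𝓞 K)} = ⊤ := by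
      by_contra hne
      have h3 := hmax.eq_of_le hne le_sup_left
      apply h1
      rw [h3]
      exact Ideal.mem_sup_right (Ideal.mem_span_singleton_self _)
    have h3 : IsCoprime π (p : 𝓞 K) := by
      rw [← Ideal.isCoprime_span_singleton_iff, Ideal.isCoprime_iff_sup_eq]
      exact h2
    have h4 := h3.map (algebraMap (𝓞 K) (𝓞 L))
    rw [map_natCast] at h4
    exact (Ideal.isCoprime_span_singleton_iff _ _).2 h4

/-- The norm of an element of `K`. -/
theorem k7_nc (F : Fld K L) (π : 𝓞 K) :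
    F.nc (algebraMap (𝓞 K) (𝓞 L) π) = ((Ideal.absNorm (Ideal.span {π}) : ℕ) : 𝓞 L) := by
  apply RingOfIntegers.ext
  apply F.s.injective
  rw [F.coe_nc]
  have h1 : ((algebraMap (𝓞 K) (𝓞 L) π : 𝓞 L) : L) = algebraMap K L (π : K) := rfl
  rw [h1, AlgEquiv.commutes, map_mul, F.cj]
  have h2 : (((Ideal.absNorm (Ideal.span {π}) : ℕ) : 𝓞 L) : L) = ((Ideal.absNorm (Ideal.span {π}) : ℕ) : L) :=
    map_natCast (algebraMap (𝓞 L) L) _
  rw [h2, map_natCast]
  have h3 := F.absNorm π
  have h4 : (((Ideal.absNorm (Ideal.span {π}) : ℕ) : ℝ) : ℂ) = ((‖F.sK (π : K)‖ ^ 2 : ℝ) : ℂ) := by rw [h3]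
  have h5 : F.s (algebraMap K L (π : K)) = F.sK (π : K) := rfl
  rw [h5, Complex.mul_conj, Complex.normSq_eq_norm_sq, ← h4]
  push_cast
  rfl

/-- PROOF. `π` prime to `m p`: if a prime `P` divides `m` and `π` then `π` divides `relNorm P`, which divides `lev K m`.  `nc π = π * cc π` is the
rational integer `N = absNorm (π)` (apply `s`, `Fld.absNorm`), not zero in `k` (it is a power of the rational prime below `π`, different from `p`).
`χ (π) = R z * N` and `h2`: `R z = 1` or `-1`; `z` is a root of unity of order prime to `p`, as are `1` and `-1` (`p` odd), so `z = 1` or `-1`. -/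
theorem ModChi.good (X : ModChi F m p k) (R : Oc →+* k) (c : Chr F m)
    (h1 : ∀ x, IsCoprime (Ideal.span {x}) m → ∃ n : ℕ, ¬ p ∣ n ∧ 0 < n ∧ c.ε x ^ n = 1)
    (h2 : ∀ x, IsCoprime (Ideal.span {x}) (m * Ideal.span {(p : 𝓞 L)}) →
        ∃ z : Oc, (z : ℂ) = c.ε x ∧ X.χ (Ideal.span {x}) = R z * X.r (F.nc x)) (π : 𝓞 K) (hπ : GoodPrime m p π) :
    c.ε (algebraMap (𝓞 K) (𝓞 L) π) = sg L π := by
  have hchar := X.char
  have hcop := k7_cop X hπ
  have hcopm := (IsCoprime.mul_right_iff.1 hcop).1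
  have hcopp := (IsCoprime.mul_right_iff.1 hcop).2
  obtain ⟨n, hn1, hn2, hn3⟩ := h1 _ hcopm
  obtain ⟨z, hz1, hz2⟩ := h2 _ hcop
  have hN : X.r (F.nc (algebraMap (𝓞 K) (𝓞 L) π)) ≠ 0 := X.r_nc_ne hcopp
  have h3 := X.h2 π hπ
  have h4 : X.r (F.nc (algebraMap (𝓞 K) (𝓞 L) π)) = (Ideal.absNorm (Ideal.span {π}) : k) := by
    rw [k7_nc, map_natCast]
  have hzn : z ^ n = 1 := by
    apply Subtype.ext
    have h5 : ((z ^ n : Oc) : ℂ) = (z : ℂ) ^ n := rfl
    rw [h5, hz1, hn3]
    rfl
  have hp2 : ¬ p ∣ 2 * n := by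
    intro h
    rcases (Nat.Prime.dvd_mul X.pprime).1 h with h | h
    · have := Nat.le_of_dvd (by norm_num) h
      have := X.p3
      omega
    · exact hn1 h
  have hz2n : z ^ (2 * n) = 1 := by rw [mul_comm, pow_mul, hzn, one_pow]
  unfold up at h3
  rw [h3, ← h4] at hz2
  rw [← hz1]
  unfold sg up
  by_cases hpr : (Ideal.span {algebraMap (𝓞 K) (𝓞 L) π}).IsPrime
  · rw [if_pos hpr] at hz2 ⊢
    have h5 : R z = -1 := (mul_right_cancel₀ hN hz2).symm
    have h6 : z = -1 := by
      refine root_inj X.pprime R hp2 hz2n ?_ ?_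
      · rw [pow_mul, neg_one_sq, one_pow]
      · rw [h5, map_neg, map_one]
    rw [h6]
    rfl
  · rw [if_neg hpr] at hz2 ⊢
    have h5 : R z = 1 := (mul_right_cancel₀ hN hz2).symm
    have h6 : z = 1 := by
      refine root_inj X.pprime R hp2 hz2n (one_pow _) ?_
      rw [h5, map_one]
    rw [h6]
    rfl

end Pool.Agent.H2S
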