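import Pool.Agent.Lib.H2S.D

/-!
# H2S: number fields, definitions

`Fld K L`: `K` imaginary quadratic of class number one, `L / K` quadratic, `L` a CM field; an embedding `s` of `L`,
the generator `τ` of `Gal (L / K)`, the complex conjugation `cc` of `L`.
-/

set_option autoImplicit false
namespace Pool.Agent.H2S
open Complex NumberField
open scoped ComplexConjugate

/-- The fields. -/
structure Fld (K L : Type*) [Field K] [NumberField K] [Field L] [NumberField L] [Algebra K L] where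
  deg : Module.finrank ℚ K = 2
  cplx : IsTotallyComplex K
  pid : IsPrincipalIdealRing (𝓞 K)
  deg2 : Module.finrank K L = 2
  s : L →+* ℂ
  τ : L ≃ₐ[K] L
  τne : τ ≠ 1
  cc : L ≃+* L
  cj : ∀ (φ : L →+* ℂ) (x : L), φ (cc x) = conj (φ x)

/-- Periodicity with respect to a subgroup. -/
def Per {A : Type*} [AddCommGroup A] (J : AddSubgroup A) (f : A → ℂ) : Prop := ∀ x, ∀ y ∈ J, f (x + y) = f x

/-- The mean over the cosets of `J`. -/
noncomputable def mJ {A : Type*} [AddCommGroup A] (J : AddSubgroup A) (f : A → ℂ) : ℂ :=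
  (Nat.card (A ⧸ J) : ℂ)⁻¹ * ∑ᶠ q : A ⧸ J, f (Quotient.out q)

open Classical in
/-- The mean of a function which is periodic with respect to a subgroup of finite index. -/
noncomputable def mn {A : Type*} [AddCommGroup A] (f : A → ℂ) : ℂ :=
  if h : ∃ J : AddSubgroup A, J.FiniteIndex ∧ Per J f then mJ h.choose f else 0

/-- `f` is periodic with respect to a subgroup of finite index. -/
def IsPer {A : Type*} [AddCommGroup A] (f : A → ℂ) : Prop := ∃ J : AddSubgroup A, J.FiniteIndex ∧ Per J f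

section
variable {K L : Type*} [Field K] [NumberField K] [Field L] [NumberField L] [Algebra K L]

/-- `exp (2 π i Tr_{K/ℚ} a)`. -/
noncomputable def eQ {M : Type*} [Field M] [NumberField M] (a : M) : ℂ :=
  Complex.exp (2 * Real.pi * Complex.I * ((Algebra.trace ℚ M a : ℚ) : ℂ))

/-- The embedding of `K` in `ℂ`. -/
noncomputable def Fld.sK (F : Fld K L) : K →+* ℂ := F.s.comp (algebraMap K L)

/-- The embedding of `L` in `ℂ × ℂ` attached to `ν`. -/
noncomputable def Fld.io (F : Fld K L) (ν : K) (x : L) : ℂ × ℂ := (F.s (algebraMap K L ν * x), F.s (F.τ x))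

/-- The sum of `φ x * W P (io ν x)` over the `x` in the fundamental domain. -/
noncomputable def Fld.GL (F : Fld K L) (ρ : ℝ) (ν : K) (φ : L → ℂ) (P : ℂ × ℝ) : ℂ :=
  ∑' x : L, (Fd ρ).indicator (fun y => φ x * W P y) (F.io ν x)

/-- The Fourier transform, over an ideal `b`, with respect to `Tr (ν x τ y)`. -/
noncomputable def Fld.FT (F : Fld K L) (ν : K) (b : Ideal (𝓞 L)) (φ : L → ℂ) (y : L) : ℂ :=
  mn (fun x : b => φ ((x : 𝓞 L) : L) * eQ (algebraMap K L ν * ((x : 𝓞 L) : L) * F.τ y))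

/-- Points of `SL₂ (𝓞 K)` act on the upper half-space: the action of a complex matrix. -/
noncomputable def act (g : Matrix (Fin 2) (Fin 2) ℂ) (P : ℂ × ℝ) : ℂ × ℝ :=
  let D : ℝ := ‖g 1 0 * P.1 + g 1 1‖ ^ 2 + ‖g 1 0‖ ^ 2 * P.2 ^ 2
  (((g 0 0 * P.1 + g 0 1) * conj (g 1 0 * P.1 + g 1 1) + g 0 0 * conj (g 1 0) * (P.2 : ℂ) ^ 2) / (D : ℂ),
    ‖g.det‖ * P.2 / D)

/-- The modulus `m`, the different, the level. -/
noncomputable def lev (K : Type*) {L : Type*} [Field K] [NumberField K] [Field L] [NumberField L] [Algebra K L]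
    (m : Ideal (𝓞 L)) : Ideal (𝓞 K) :=
  Ideal.relNorm (𝓞 K) (m * differentIdeal (𝓞 K) (𝓞 L))

/-- The data for the theta integral of an ideal `b`. -/
structure Lat (F : Fld K L) where
  δ : 𝓞 K
  δne : δ ≠ 0
  diff : differentIdeal ℤ (𝓞 K) = Ideal.span {δ}
  b : Ideal (𝓞 L)
  bne : b ≠ ⊥
  n : 𝓞 K
  nne : n ≠ 0
  norm : Ideal.relNorm (𝓞 K) b = Ideal.span {n}

/-- `ν = 1 / (n δ)`. -/
noncomputable def Lat.ν {F : Fld K L} (D : Lat F) : K := ((D.n : K) * (D.δ : K))⁻¹

/-- A character of the residue ring `𝓞 L / m` (extended by zero) with the condition for the units. -/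
structure Chr (F : Fld K L) (m : Ideal (𝓞 L)) where
  ε : 𝓞 L → ℂ
  one : ε 1 = 1
  mul : ∀ x y, ε (x * y) = ε x * ε y
  per : ∀ x y, x - y ∈ m → ε x = ε y
  zero : ∀ x, ¬ IsCoprime (Ideal.span {x}) m → ε x = 0
  unit : ∀ u : (𝓞 L)ˣ, ε u * F.s (((u : 𝓞 L) : L) * F.cc (F.τ ((u : 𝓞 L) : L))) = 1

end

end Pool.Agent.H2S
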