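import Pool.Agent.Lib.H2S.N0

/-!
# N1: elementary facts about the fields
-/

set_option autoImplicit false
namespace Pool.Agent.H2S
open Complex NumberField

variable {K L : Type*} [Field K] [NumberField K] [Field L] [NumberField L] [Algebra K L]

theorem Fld.n1_quad (F : Fld K L) : Algebra.IsQuadraticExtension K L := ⟨F.deg2⟩

theorem Fld.n1_gal (F : Fld K L) : IsGalois K L := by
  have := F.n1_quad
  infer_instance

/-- PROOF. `L / K` has degree `2`, so it is Galois and `Gal (L / K)` has two elements `1`, `τ` (`IsGalois.card_aut_eq_finrank`; `IsGalois` from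
`IsQuadraticExtension` or `Algebra.IsQuadraticExtension`, characteristic zero). -/
theorem Fld.gal (F : Fld K L) (g : L ≃ₐ[K] L) : g = 1 ∨ g = F.τ := by
  classical
  have := F.n1_gal
  have := F.n1_quad
  have h := IsGalois.card_aut_eq_finrank K L
  rw [F.deg2] at h
  by_contra hne
  push Not at hne
  have h3 : Nat.card ({1, F.τ, g} : Finset (L ≃ₐ[K] L)) = 3 := by
    rw [Nat.card_eq_fintype_card, Fintype.card_coe]
    exact Finset.card_eq_three.2 ⟨1, F.τ, g, F.τne.symm, hne.1.symm, hne.2.symm, rfl⟩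
  have h4 : Nat.card ({1, F.τ, g} : Finset (L ≃ₐ[K] L)) ≤ Nat.card (L ≃ₐ[K] L) :=
    Nat.card_le_card_of_injective (fun x => (x : L ≃ₐ[K] L)) Subtype.coe_injective
  omega

theorem Fld.isGalois (F : Fld K L) : IsGalois K L := F.n1_gal

/-- PROOF. `F.τ * F.τ = 1` or `= F.τ` by `gal`; the second gives `τ = 1`. -/
theorem Fld.ττ (F : Fld K L) (x : L) : F.τ (F.τ x) = x := by
  have h : F.τ * F.τ = 1 := by
    rcases F.gal (F.τ * F.τ) with h | h
    · exact h
    · exact absurd (mul_eq_left.1 h) F.τne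
  have := DFunLike.congr_fun h x
  simpa using this

theorem Fld.n1_univ (F : Fld K L) [Fintype (L ≃ₐ[K] L)] [DecidableEq (L ≃ₐ[K] L)] :
    (Finset.univ : Finset (L ≃ₐ[K] L)) = {1, F.τ} := by
  ext g
  simpa using F.gal g

/-- PROOF. `Algebra.norm_eq_prod_automorphisms` and `gal`. -/
theorem Fld.norm_eq (F : Fld K L) (x : L) : algebraMap K L (Algebra.norm K x) = x * F.τ x := by
  classical
  have := F.n1_gal
  rw [Algebra.norm_eq_prod_automorphisms, F.n1_univ, Finset.prod_pair F.τne.symm]
  rfl

/-- PROOF. `trace_eq_sum_automorphisms` and `gal`. -/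
theorem Fld.trace_eq (F : Fld K L) (x : L) : algebraMap K L (Algebra.trace K L x) = x + F.τ x := by
  classical
  have := F.n1_gal
  rw [trace_eq_sum_automorphisms, F.n1_univ, Finset.sum_pair F.τne.symm]
  rfl

/-- PROOF. A fixed point of the Galois group lies in `K` (`IsGalois.mem_bot_iff_fixed` or `IntermediateField`). -/
theorem Fld.fixed (F : Fld K L) {x : L} (h : F.τ x = x) : ∃ a : K, algebraMap K L a = x := by
  have := F.n1_gal
  have := (IsGalois.mem_range_algebraMap_iff_fixed (F := K) (E := L) x).2 (by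
    intro g
    rcases F.gal g with rfl | rfl
    · rfl
    · exact h)
  exact this

/-- PROOF. Apply `F.s` (injective): `F.cj F.s`, star is an involution. -/
theorem Fld.cccc (F : Fld K L) (x : L) : F.cc (F.cc x) = x := by
  apply F.s.injective
  rw [F.cj, F.cj, Complex.conj_conj]

/-- PROOF. Apply `F.s` (injective).  `F.s (F.cc (F.τ x)) = star (F.s (F.τ x))` and, with `F.cj` for the embedding `F.s.comp F.τ`,
`F.s (F.τ (F.cc x)) = star (F.s (F.τ x))`. -/
theorem Fld.ccτ (F : Fld K L) (x : L) : F.cc (F.τ x) = F.τ (F.cc x) := by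
  apply F.s.injective
  rw [F.cj]
  have h := F.cj (F.s.comp (F.τ : L →+* L)) x
  simp only [RingHom.comp_apply, RingHom.coe_coe] at h
  exact h.symm

/-- PROOF. `F.τ (F.cc a) = F.cc (F.τ a) = F.cc a`, `fixed`. -/
theorem Fld.ccK (F : Fld K L) (a : K) : ∃ a' : K, F.cc (algebraMap K L a) = algebraMap K L a' := by
  have h : F.τ (F.cc (algebraMap K L a)) = F.cc (algebraMap K L a) := by
    rw [← F.ccτ, AlgEquiv.commutes]
  obtain ⟨a', ha⟩ := F.fixed h
  exact ⟨a', ha.symm⟩

/-- Complex conjugation is not trivial on `K`.  PROOF. `K` is totally complex: the embedding `F.sK` is not real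
(`IsTotallyComplex`, `ComplexEmbedding.IsReal`). -/
theorem Fld.sK_not_real (F : Fld K L) : ∃ a : K, (starRingEnd ℂ) (F.sK a) ≠ F.sK a := by
  by_contra hne
  push Not at hne
  have := F.cplx
  have h1 : ComplexEmbedding.IsReal F.sK := by
    rw [ComplexEmbedding.isReal_iff]
    ext a
    exact hne a
  have h4 : (InfinitePlace.mk F.sK).IsReal := InfinitePlace.isReal_mk_iff.2 h1
  exact InfinitePlace.not_isReal_iff_isComplex.2 (IsTotallyComplex.isComplex (InfinitePlace.mk F.sK)) h4

/-- The ring of integers is stable.  PROOF. `τ`, `cc` map integral elements to integral elements (`map_isIntegral_int` / `IsIntegral.map`). -/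
theorem Fld.int (F : Fld K L) (x : 𝓞 L) : IsIntegral ℤ (F.τ (x : L)) ∧ IsIntegral ℤ (F.cc (x : L)) := by
  refine ⟨?_, ?_⟩
  · exact map_isIntegral_int (F.τ : L →+* L) (RingOfIntegers.isIntegral_coe x)
  · exact map_isIntegral_int (F.cc : L →+* L) (RingOfIntegers.isIntegral_coe x)

end Pool.Agent.H2S
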