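import Mathlib

/-!
# R1: reduction of a homomorphism with values in `ℂ`
-/

set_option autoImplicit false
namespace Pool.Agent.H2S

/-- PROOF. Let `Q = ker R` (maximal) and `A = span O (range of S)`, finitely generated, not zero, torsion free.  `Q • A ≠ A` (as submodules): otherwise, by
Nakayama (`Submodule.exists_sub_one_mem_and_smul_eq_zero_of_fg_of_le_smul`) there is `x` with `x - 1 ∈ Q` and `x • A = 0`, so `x = 0` and `-1 ∈ Q`.  The
quotient `A ⧸ (Q • ⊤)` is a nonzero vector space over the field `O ⧸ Q`; choose a linear functional which is not zero, and compose with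
`O ⧸ Q → k` (`Ideal.Quotient.lift`): an additive map `lam : A → k` with `lam (x • a) = R x * lam a`, not zero, so not zero on some element of `S`
(`S` spans `A`).  Extend `lam` to a function on `V` by `0` (only its values on `A` are used). -/
theorem exists_functional {O V k : Type*} [CommRing O] [AddCommGroup V] [Module O V] [Field k] (R : O →+* k)
    (hR : (RingHom.ker R).IsMaximal) (htf : ∀ (x : O) (v : V), x • v = 0 → x = 0 ∨ v = 0) (S : Set V)
    (hfg : (Submodule.span O S).FG) (hne : ∃ v ∈ S, v ≠ 0) :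
    ∃ lam : V → k, (∀ v ∈ Submodule.span O S, ∀ w ∈ Submodule.span O S, lam (v + w) = lam v + lam w) ∧
      (∀ (x : O), ∀ v ∈ Submodule.span O S, lam (x • v) = R x * lam v) ∧ ∃ v ∈ S, lam v ≠ 0 := by
  classical
  obtain ⟨A, hA⟩ : ∃ A, A = Submodule.span O S := ⟨_, rfl⟩
  rw [← hA] at hfg ⊢
  have hSA : ∀ v ∈ S, v ∈ A := fun v hv => by
    rw [hA]
    exact Submodule.subset_span hv
  have h1 : ∃ s ∈ S, s ∉ RingHom.ker R • A := by
    by_contra h
    push Not at h
    have h2 : A ≤ RingHom.ker R • A := by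
      conv_lhs => rw [hA]
      exact Submodule.span_le.2 h
    obtain ⟨r, hr, hr0⟩ := Submodule.exists_sub_one_mem_and_smul_eq_zero_of_fg_of_le_smul (RingHom.ker R) A hfg h2
    obtain ⟨v, hv, hv0⟩ := hne
    rcases htf r v (hr0 v (hSA v hv)) with h3 | h3
    · rw [h3, zero_sub, neg_mem_iff] at hr
      exact hR.ne_top ((Ideal.eq_top_iff_one _).2 hr)
    · exact hv0 h3
  obtain ⟨s, hs, hsQ⟩ := h1
  let _ : Field (O ⧸ RingHom.ker R) := Ideal.Quotient.field (RingHom.ker R)
  have h2 : (Submodule.Quotient.mk ⟨s, hSA s hs⟩ : A ⧸ (RingHom.ker R • (⊤ : Submodule O A))) ≠ 0 := by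
    rw [Ne, Submodule.Quotient.mk_eq_zero, Submodule.mem_smul_top_iff]
    exact hsQ
  have h3 : ∃ φ : Module.Dual (O ⧸ RingHom.ker R) (A ⧸ (RingHom.ker R • (⊤ : Submodule O A))),
      φ (Submodule.Quotient.mk ⟨s, hSA s hs⟩) ≠ 0 := by
    by_contra h
    push Not at h
    exact h2 ((Module.forall_dual_apply_eq_zero_iff (O ⧸ RingHom.ker R) _).1 h)
  obtain ⟨φ, hφ⟩ := h3
  refine ⟨fun v => if h : v ∈ A then RingHom.kerLift R (φ (Submodule.Quotient.mk ⟨v, h⟩)) else 0, ?_, ?_, s, hs, ?_⟩
  · intro v hv w hw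
    show (if h : v + w ∈ A then RingHom.kerLift R (φ (Submodule.Quotient.mk ⟨v + w, h⟩)) else 0) =
      (if h : v ∈ A then RingHom.kerLift R (φ (Submodule.Quotient.mk ⟨v, h⟩)) else 0) +
      (if h : w ∈ A then RingHom.kerLift R (φ (Submodule.Quotient.mk ⟨w, h⟩)) else 0)
    rw [dif_pos hv, dif_pos hw, dif_pos (A.add_mem hv hw), ← map_add, ← map_add]
    rfl
  · intro x v hv
    show (if h : x • v ∈ A then RingHom.kerLift R (φ (Submodule.Quotient.mk ⟨x • v, h⟩)) else 0) =
      R x * (if h : v ∈ A then RingHom.kerLift R (φ (Submodule.Quotient.mk ⟨v, h⟩)) else 0)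
    rw [dif_pos hv, dif_pos (A.smul_mem x hv)]
    have h4 : (Submodule.Quotient.mk ⟨x • v, A.smul_mem x hv⟩ : A ⧸ (RingHom.ker R • (⊤ : Submodule O A))) =
        (Ideal.Quotient.mk (RingHom.ker R) x) • (Submodule.Quotient.mk ⟨v, hv⟩ : A ⧸ (RingHom.ker R • (⊤ : Submodule O A))) := rfl
    rw [h4, map_smul, smul_eq_mul, map_mul, RingHom.kerLift_mk]
  · show (if h : s ∈ A then RingHom.kerLift R (φ (Submodule.Quotient.mk ⟨s, h⟩)) else 0) ≠ 0
    rw [dif_pos (hSA s hs)]
    intro h
    exact hφ ((RingHom.kerLift_injective R) (h.trans (map_zero _).symm))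

/-- PROOF. If `s` generates `G` (finite set), the values of `f` on `s` span the same submodule as all values (`Subgroup.closure_induction`). -/
theorem fg_range {G O V : Type*} [Group G] [Group.FG G] [CommRing O] [AddCommGroup V] [Module O V] (f : G → V)
    (hf : ∀ g h, f (g * h) = f g + f h) : (Submodule.span O (Set.range f)).FG := by
  classical
  obtain ⟨s, hs⟩ := (Group.FG.out : (⊤ : Subgroup G).FG)
  have h1 : f 1 = 0 := by
    have h := hf 1 1
    rw [mul_one] at h
    exact left_eq_add.1 h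
  have hinv : ∀ g, f g⁻¹ = - f g := by
    intro g
    have h := hf g g⁻¹
    rw [mul_inv_cancel, h1] at h
    exact (neg_eq_of_add_eq_zero_right h.symm).symm
  refine ⟨s.image f, ?_⟩
  apply le_antisymm
  · refine Submodule.span_mono ?_
    intro v hv
    rw [Finset.coe_image] at hv
    obtain ⟨g, -, rfl⟩ := hv
    exact ⟨g, rfl⟩
  · refine Submodule.span_le.2 ?_
    rintro _ ⟨g, rfl⟩
    have hg : g ∈ Subgroup.closure (s : Set G) := by
      rw [hs]
      exact Subgroup.mem_top g
    show f g ∈ Submodule.span O ((s.image f : Finset V) : Set V)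
    induction hg using Subgroup.closure_induction with
    | mem x hx =>
      refine Submodule.subset_span ?_
      rw [Finset.coe_image]
      exact ⟨x, hx, rfl⟩
    | one =>
      rw [h1]
      exact Submodule.zero_mem _
    | mul x y _ _ hx hy =>
      rw [hf]
      exact Submodule.add_mem _ hx hy
    | inv x _ hx =>
      rw [hinv]
      exact Submodule.neg_mem _ hx

end Pool.Agent.H2S
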