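import Pool.Agent.Lib.H2S.TD

/-!
# H2S, chunk T01 (size S/M): integrability of `s ^ j exp (-(a s + b / s))`

`0 ≤ s ^ j exp (-(a s + b / s))` on `(0, ∞)`.  Let `n : ℕ` be `(-j).toNat` (so `j + n ≥ 0`, `j + n = k` with `k : ℕ`).
From `x ^ n / n! ≤ exp x` (`Real.pow_div_factorial_le_exp`, or `Real.add_one_le_exp` and powers) with `x = b / s`:
`exp (- b / s) ≤ n! * (s / b) ^ n`.  So the function is `≤ (n! / b ^ n) * (s ^ k * exp (- a s))`, integrable on `(0, ∞)`
(`Real.integrableOn_rpow_mul_exp_neg_mul_rpow`, `integrableOn_rpow_mul_exp_neg_mul_sq`-like lemmas, or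
`Real.GammaIntegral_convergent` after scaling; e.g. `integrableOn_rpow_mul_exp_neg_mul_rpow (hs : -1 < s) (hp : 1 ≤ p)
(hb : 0 < b) : IntegrableOn (fun x => x ^ s * exp (- b * x ^ p)) (Ioi 0)` with `p = 1`).  Use `Integrable.mono'`
(measurability: `ContinuousOn` on `Ioi 0`, `ContinuousOn.aestronglyMeasurable`).
-/

set_option autoImplicit false
namespace Pool.Agent.H2S
open Complex MeasureTheory

theorem t01_exp (n : ℕ) {b s : ℝ} (hb : 0 < b) (hs : 0 < s) :
    Real.exp (-(b / s)) ≤ (n.factorial : ℝ) / b ^ n * s ^ n := by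
  have h1 := Real.pow_div_factorial_le_exp (b / s) (by positivity) n
  have h2 : (0 : ℝ) < (b / s) ^ n / n.factorial := by positivity
  rw [Real.exp_neg]
  refine (inv_anti₀ h2 h1).trans (le_of_eq ?_)
  rw [inv_div, div_pow]
  field_simp

theorem t01 (j : ℤ) {a b : ℝ} (ha : 0 < a) (hb : 0 < b) :
    IntegrableOn (fun s : ℝ => s ^ j * Real.exp (-(a * s + b / s))) (Set.Ioi 0) := by
  obtain ⟨n, k, hk⟩ : ∃ n k : ℕ, j + n = k := ⟨(-j).toNat, (j + (-j).toNat).toNat, by omega⟩
  have h0 : IntegrableOn (fun s : ℝ => s ^ (k : ℝ) * Real.exp (-a * s ^ (1 : ℝ))) (Set.Ioi 0) :=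
    integrableOn_rpow_mul_exp_neg_mul_rpow (by
      have := Nat.cast_nonneg (α := ℝ) k
      linarith) one_pos ha
  have h1 := h0.const_mul ((n.factorial : ℝ) / b ^ n)
  refine Integrable.mono' h1 ?_ ?_
  · refine ContinuousOn.aestronglyMeasurable ?_ measurableSet_Ioi
    refine ContinuousOn.mul ?_ ?_
    · exact fun s hs => (continuousAt_zpow₀ s j (Or.inl (ne_of_gt hs))).continuousWithinAt
    · refine Real.continuous_exp.comp_continuousOn ?_
      refine ContinuousOn.neg (ContinuousOn.add (by fun_prop) ?_)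
      exact ContinuousOn.div continuousOn_const continuousOn_id fun s hs => ne_of_gt hs
  · refine (ae_restrict_iff' measurableSet_Ioi).2 (Filter.Eventually.of_forall fun s hs => ?_)
    have hs' : (0 : ℝ) < s := hs
    rw [Real.norm_of_nonneg (by positivity), Real.rpow_natCast, Real.rpow_one]
    have h2 : s ^ k = s ^ j * s ^ n := by
      rw [← zpow_natCast, ← zpow_natCast, ← zpow_add₀ hs'.ne', hk]
    have h3 : Real.exp (-(a * s + b / s)) = Real.exp (-a * s) * Real.exp (-(b / s)) := by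
      rw [← Real.exp_add]
      congr 1
      ring
    rw [h2, h3]
    have h4 := t01_exp n hb hs'
    have h5 : 0 < s ^ j * Real.exp (-a * s) := mul_pos (zpow_pos hs' j) (Real.exp_pos _)
    calc s ^ j * (Real.exp (-a * s) * Real.exp (-(b / s)))
        = (s ^ j * Real.exp (-a * s)) * Real.exp (-(b / s)) := by ring
      _ ≤ (s ^ j * Real.exp (-a * s)) * ((n.factorial : ℝ) / b ^ n * s ^ n) :=
          mul_le_mul_of_nonneg_left h4 h5.le
      _ = (n.factorial : ℝ) / b ^ n * (s ^ j * s ^ n * Real.exp (-a * s)) := by ring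

end Pool.Agent.H2S
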