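import Pool.Agent.Lib.H2S.TD

/-!
# H2S, chunk T02 (size S/M): scaling and inversion of `JJ`; the identity `b JJ (-2) a b = a JJ 0 a b`

`t02`: substitute `s → s / l` (`MeasureTheory.integral_comp_mul_left_Ioi (g) (a) (hb : 0 < b) :
∫ x in Ioi a, g (b * x) = b⁻¹ • ∫ x in Ioi (b * a), g x`), here with `g s = s ^ j exp (-(a s + b / s))` and the factor `l`:
`g (l * s) = l ^ j * (s ^ j * exp (-(l a s + (b / l) / s)))` for `s > 0` (`setIntegral_congr_fun measurableSet_Ioi`).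
`t02i`: substitute `s → 1 / s`: `MeasureTheory.integral_comp_rpow_Ioi (g) (hp : p ≠ 0) :
∫ x in Ioi 0, (|p| * x ^ (p - 1)) • g (x ^ p) = ∫ y in Ioi 0, g y` with `p = -1`, `g s = s ^ (-2 - j) exp (-(a s + b / s))`;
for `x > 0`: `x ^ (-1 - 1 : ℝ) = x ^ (-2 : ℤ)` (`Real.rpow_intCast`), `x ^ (-1 : ℝ) = x⁻¹`, `(x⁻¹) ^ (-2 - j) = x ^ (2 + j)`.
`t02d`: `JJ (-2) a b = JJ 0 b a` (`t02i` with `j = 0`), and `b = l a`, `a = b / l` with `l = b / a`:
`JJ 0 b a = JJ 0 (l * a) (b / l) = l ^ (-1) JJ 0 a b = (a / b) JJ 0 a b`.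
-/

set_option autoImplicit false
namespace Pool.Agent.H2S
open Complex MeasureTheory

theorem t02 (j : ℤ) (a b : ℝ) {l : ℝ} (hl : 0 < l) : JJ j (l * a) (b / l) = l ^ (-j - 1) * JJ j a b := by
  have h1 := integral_comp_mul_left_Ioi (fun s : ℝ => s ^ j * Real.exp (-(a * s + b / s))) 0 hl
  rw [mul_zero] at h1
  beta_reduce at h1
  have e : l ^ (-j - 1) = l ^ (-j) * l⁻¹ := by rw [zpow_sub_one₀ hl.ne']
  have h2 : ∫ s in Set.Ioi (0 : ℝ), s ^ j * Real.exp (-(l * a * s + b / l / s)) =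
      ∫ s in Set.Ioi (0 : ℝ), l ^ (-j) * ((l * s) ^ j * Real.exp (-(a * (l * s) + b / (l * s)))) := by
    refine setIntegral_congr_fun measurableSet_Ioi fun s hs => ?_
    beta_reduce
    have e1 : l ^ (-j) * l ^ j = 1 := by rw [← zpow_add₀ hl.ne', neg_add_cancel, zpow_zero]
    have e2 : a * (l * s) + b / (l * s) = l * a * s + b / l / s := by rw [div_div]; ring
    rw [mul_zpow, e2]
    calc s ^ j * Real.exp (-(l * a * s + b / l / s)) = 1 * (s ^ j * Real.exp (-(l * a * s + b / l / s))) := (one_mul _).symm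
      _ = _ := by rw [← e1]; ring
  unfold JJ
  rw [h2, integral_const_mul, h1, smul_eq_mul, e, mul_assoc]

theorem t02i (j : ℤ) (a b : ℝ) : JJ (-2 - j) a b = JJ j b a := by
  have h1 := integral_comp_rpow_Ioi (fun s : ℝ => s ^ (-2 - j) * Real.exp (-(a * s + b / s))) (p := -1) (by norm_num)
  unfold JJ
  rw [← h1]
  refine setIntegral_congr_fun measurableSet_Ioi fun x hx => ?_
  have hx0 : (0 : ℝ) < x := hx
  beta_reduce
  have e1 : x ^ (-1 - 1 : ℝ) = x ^ (-2 : ℤ) := by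
    rw [← Real.rpow_intCast]
    norm_num
  have e2 : x ^ (-1 : ℝ) = x⁻¹ := Real.rpow_neg_one x
  have e3 : x ^ (-2 : ℤ) * x⁻¹ ^ (-2 - j) = x ^ j := by
    rw [inv_zpow', ← zpow_add₀ hx0.ne']
    congr 1
    ring
  have e4 : a * x⁻¹ + b / x⁻¹ = b * x + a / x := by
    rw [div_inv_eq_mul, div_eq_mul_inv, add_comm]
  rw [e1, e2, e4, abs_neg, abs_one, one_mul, smul_eq_mul, ← mul_assoc, e3]

theorem t02d {a b : ℝ} (ha : 0 < a) (hb : 0 < b) : b * JJ (-2) a b = a * JJ 0 a b := by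
  have h1 := t02i 0 a b
  have h2 := t02 0 a b (l := b / a) (div_pos hb ha)
  have e1 : b / a * a = b := div_mul_cancel₀ b ha.ne'
  have e2 : b / (b / a) = a := by field_simp
  have e3 : (b / a) ^ (-0 - 1 : ℤ) = a / b := by
    have : (-0 - 1 : ℤ) = -1 := by norm_num
    rw [this, zpow_neg_one, inv_div]
  have e4 : (-2 - 0 : ℤ) = -2 := by norm_num
  rw [e4] at h1
  rw [e1, e2, e3] at h2
  rw [h1, h2]
  field_simp

end Pool.Agent.H2S
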