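import Pool.Agent.Lib.H2S.T01

/-!
# H2S, chunk T03 (size M): derivative of `JJ j a b` with respect to `b`

`hasDerivAt_integral_of_dominated_loc_of_deriv_le` for the measure `volume.restrict (Ioi 0)` on the ball with centre `b` and
radius `b / 2` (so `b' > b / 2`): `F b' s = s ^ j * exp (-(a s + b' / s))`, derivative
`F' b' s = - s ^ (j - 1) * exp (-(a s + b' / s))` (`s > 0`: `s ^ j * s⁻¹ = s ^ (j - 1)`, `zpow_sub_one₀`),
bound `s ^ (j - 1) * exp (-(a s + (b / 2) / s))`, integrable by `t01 (j - 1) ha (half_pos hb)`.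
Then `∫ F' b s = - JJ (j - 1) a b` (`integral_neg`).
-/

set_option autoImplicit false
namespace Pool.Agent.H2S
open Complex MeasureTheory

theorem t03 (j : ℤ) {a b : ℝ} (ha : 0 < a) (hb : 0 < b) :
    HasDerivAt (fun b' => JJ j a b') (-JJ (j - 1) a b) b := by
  have hmeas : ∀ (k : ℤ) (c : ℝ), AEStronglyMeasurable (fun s : ℝ => s ^ k * Real.exp (-(a * s + c / s)))
      (volume.restrict (Set.Ioi 0)) := fun k c => by
    refine ContinuousOn.aestronglyMeasurable (fun s hs => ?_) measurableSet_Ioi
    have hs0 : s ≠ 0 := (show (0 : ℝ) < s from hs).ne'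
    have h1 : ContinuousAt (fun s : ℝ => s ^ k) s := continuousAt_zpow₀ s k (Or.inl hs0)
    have h2 : ContinuousAt (fun s : ℝ => Real.exp (-(a * s + c / s))) s :=
      Real.continuous_exp.continuousAt.comp ((((continuousAt_const.mul continuousAt_id)).add
        (continuousAt_const.div continuousAt_id hs0)).neg)
    exact (h1.mul h2).continuousWithinAt
  have key := hasDerivAt_integral_of_dominated_loc_of_deriv_le (μ := volume.restrict (Set.Ioi (0 : ℝ)))
    (F := fun b' s => s ^ j * Real.exp (-(a * s + b' / s)))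
    (F' := fun b' s => -(s ^ (j - 1) * Real.exp (-(a * s + b' / s)))) (x₀ := b) (s := Metric.ball b (b / 2))
    (bound := fun s => s ^ (j - 1) * Real.exp (-(a * s + b / 2 / s))) (Metric.ball_mem_nhds b (half_pos hb))
    (Filter.Eventually.of_forall fun c => hmeas j c) (t01 j ha hb) (hmeas (j - 1) b).neg
    ((ae_restrict_iff' measurableSet_Ioi).2 (Filter.Eventually.of_forall fun s hs c hc => ?_))
    (t01 (j - 1) ha (half_pos hb))
    ((ae_restrict_iff' measurableSet_Ioi).2 (Filter.Eventually.of_forall fun s hs c hc => ?_))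
  · have h := key.2
    beta_reduce at h
    rw [integral_neg] at h
    exact h
  · have hs0 : (0 : ℝ) < s := hs
    rw [norm_neg, Real.norm_of_nonneg (mul_nonneg (zpow_nonneg hs0.le _) (Real.exp_nonneg _))]
    refine mul_le_mul_of_nonneg_left (Real.exp_le_exp.2 ?_) (zpow_nonneg hs0.le _)
    have h1 : b / 2 ≤ c := by
      rw [Metric.mem_ball, Real.dist_eq, abs_lt] at hc
      linarith [hc.1]
    have h2 : b / 2 / s ≤ c / s := div_le_div_of_nonneg_right h1 hs0.le
    linarith
  · have hs0 : (0 : ℝ) < s := hs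
    have h1 : HasDerivAt (fun b' : ℝ => -(a * s + b' / s)) (-(1 / s)) c :=
      (((hasDerivAt_id c).div_const s).const_add (a * s)).neg
    have h2 := (h1.exp).const_mul (s ^ j)
    have e : s ^ j * (Real.exp (-(a * s + c / s)) * -(1 / s)) = -(s ^ (j - 1) * Real.exp (-(a * s + c / s))) := by
      rw [zpow_sub_one₀ hs0.ne']
      ring
    rw [e] at h2
    exact h2

end Pool.Agent.H2S
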