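import Pool.Agent.Lib.H2S.T02
import Pool.Agent.Lib.H2S.T03

/-!
# H2S, chunk T04 (size S/M): `kap` and its derivatives

`t04`: unfold (`zpow_zero`, `t ^ 2 / (4 ρ) = (t ^ 2 / 4) / ρ`, `ring_nf` in the exponent, `integral_congr`/`congr`).
`t04a`: `kap r t = JJ 0 (16 π ^ 2 r ^ 2) (t ^ 2 / 4)` (`t04`, as functions of `t`), `t03` with `j = 0` composed with
`t ↦ t ^ 2 / 4` (derivative `t / 2`, `HasDerivAt.comp`): `- JJ (-1) .. * (t / 2) = kapt r t` (note `(0 : ℤ) - 1 = -1` by `rfl`/`norm_num`).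
`t04b`: product rule: the derivative of `-(t / 2) * JJ (-1) A (t ^ 2 / 4)`, `A = 16 π ^ 2 r ^ 2`, is
`-(1 / 2) * JJ (-1) A (t ^ 2 / 4) + (-(t / 2)) * (- JJ (-2) A (t ^ 2 / 4) * (t / 2))`.  The first term is `kapt r t / t`;
the second is `(t ^ 2 / 4) * JJ (-2) A (t ^ 2 / 4) = A * JJ 0 A (t ^ 2 / 4) = A * kap r t` by `t02d`.
-/

set_option autoImplicit false
namespace Pool.Agent.H2S
open Complex MeasureTheory

theorem t04 (r t : ℝ) : kap r t = JJ 0 (16 * Real.pi ^ 2 * r ^ 2) (t ^ 2 / 4) := by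
  unfold kap JJ
  refine setIntegral_congr_fun measurableSet_Ioi fun s hs => ?_
  beta_reduce
  rw [zpow_zero, one_mul, div_div]
  congr 1
  ring

theorem t04a {r t : ℝ} (hr : 0 < r) (ht : 0 < t) : HasDerivAt (fun t' => kap r t') (kapt r t) t := by
  have h0 : (fun t' => kap r t') = fun t' => JJ 0 (16 * Real.pi ^ 2 * r ^ 2) (t' ^ 2 / 4) := funext fun t' => t04 r t'
  have hA : 0 < 16 * Real.pi ^ 2 * r ^ 2 := by positivity
  have hB : 0 < t ^ 2 / 4 := by positivity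
  have h1 : HasDerivAt (fun t' : ℝ => t' ^ 2 / 4) (t / 2) t := by
    have h := (hasDerivAt_pow 2 t).div_const 4
    have e : ((2 : ℕ) : ℝ) * t ^ (2 - 1) / 4 = t / 2 := by norm_num; ring
    rw [e] at h
    exact h
  have h2 := HasDerivAt.comp t (t03 0 hA hB) h1
  rw [h0]
  have e : -JJ (0 - 1) (16 * Real.pi ^ 2 * r ^ 2) (t ^ 2 / 4) * (t / 2) = kapt r t := by
    unfold kapt
    have e1 : (0 - 1 : ℤ) = -1 := rfl
    rw [e1]
    ring
  rw [e] at h2
  exact h2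

theorem t04b {r t : ℝ} (hr : 0 < r) (ht : 0 < t) :
    HasDerivAt (fun t' => kapt r t') (16 * Real.pi ^ 2 * r ^ 2 * kap r t + kapt r t / t) t := by
  have hA : 0 < 16 * Real.pi ^ 2 * r ^ 2 := by positivity
  have hB : 0 < t ^ 2 / 4 := by positivity
  have h1 : HasDerivAt (fun t' : ℝ => t' ^ 2 / 4) (t / 2) t := by
    have h := (hasDerivAt_pow 2 t).div_const 4
    have e : ((2 : ℕ) : ℝ) * t ^ (2 - 1) / 4 = t / 2 := by norm_num; ring
    rw [e] at h
    exact h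
  have h2 := HasDerivAt.comp t (t03 (-1) hA hB) h1
  have h3 : HasDerivAt (fun t' : ℝ => -(t' / 2)) (-(1 / 2)) t := ((hasDerivAt_id t).div_const 2).neg
  have h4 := h3.mul h2
  have h5 := t02d hA hB
  have e : -(1 / 2) * ((fun b' => JJ (-1) (16 * Real.pi ^ 2 * r ^ 2) b') ∘ fun t' : ℝ => t' ^ 2 / 4) t +
      -(t / 2) * (-JJ (-1 - 1) (16 * Real.pi ^ 2 * r ^ 2) (t ^ 2 / 4) * (t / 2)) =
      16 * Real.pi ^ 2 * r ^ 2 * kap r t + kapt r t / t := by
    rw [t04, ← h5]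
    unfold kapt
    have e1 : (-1 - 1 : ℤ) = -2 := rfl
    rw [e1]
    simp only [Function.comp_apply]
    field_simp
    ring
  rw [e] at h4
  exact h4

end Pool.Agent.H2S
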