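import Pool.Agent.Lib.H2S.T04

/-!
# H2S, chunk T08 (size M): the derivative of `W` as an integral over `s`

Let `a = 2 π t ‖x₁‖ ^ 2`, `b = 2 π t ‖x₂‖ ^ 2` (`t = P.2`), both positive.  For `s > 0`
`Th P s ξ x * s⁻¹ = t (I x₁ ^ 2 ζ * s ^ 0 - 2 x₁ conj x₂ θ * s ^ (-1) + I conj x₂ ^ 2 conj ζ * s ^ (-2)) * eT (z x₁ x₂) *
exp (-(a s + b / s))`: integrable on `(0, ∞)` by `t01` (`j = 0, -1, -2`, `Integrable.ofReal`, `const_mul`), which is `t08i`, and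
`∫ = t (I x₁ ^ 2 ζ JJ 0 a b - 2 x₁ conj x₂ θ JJ (-1) a b + I conj x₂ ^ 2 conj ζ JJ (-2) a b) eT (z x₁ x₂)` (`integral_ofReal`).
On the other side, with `r = ‖x₁ x₂‖`, `A = 16 π ^ 2 r ^ 2`, `B = t ^ 2 / 4` (`t04`):
 (1) `l = 8 π ‖x₂‖ ^ 2 / t`: `A = l * a`, `B = b / l`, so by `t02`: `kap r t = JJ 0 A B = (t / (8 π ‖x₂‖ ^ 2)) JJ 0 a b`, and
     `JJ (-1) A B = JJ (-1) a b`, `kapt r t = -(t / 2) JJ (-1) a b`;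
 (2) `l = 8 π ‖x₁‖ ^ 2 / t`: `A = l * b`, `B = a / l`: `kap r t = (t / (8 π ‖x₁‖ ^ 2)) JJ 0 b a` and `JJ 0 b a = JJ (-2) a b` (`t02i`).
`4 π Re (ζ w) = 2 π (ζ w + conj ζ conj w)`, `w = x₁ x₂` (`Complex.add_conj`, `Complex.re_eq_add_conj`), and
`x₂ conj x₂ = ‖x₂‖ ^ 2`, `x₁ conj x₁ = ‖x₁‖ ^ 2` (`Complex.mul_conj`, `Complex.normSq_eq_norm_sq`):
`4 π x₁ conj x₂ * 2 π I ζ x₁ x₂ kap = 8 π ^ 2 I ζ x₁ ^ 2 ‖x₂‖ ^ 2 kap = π I t ζ x₁ ^ 2 JJ 0 a b` (use (1)),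
`4 π x₁ conj x₂ * 2 π I conj ζ conj x₁ conj x₂ kap = 8 π ^ 2 I conj ζ conj x₂ ^ 2 ‖x₁‖ ^ 2 kap = π I t conj ζ conj x₂ ^ 2 JJ (-2) a b` (use (2)),
`4 π x₁ conj x₂ * kapt r t θ = - 2 π t x₁ conj x₂ θ JJ (-1) a b`.  Sum: `π ∫ Th P s ξ x s⁻¹ ds`.
-/

set_option autoImplicit false
namespace Pool.Agent.H2S
open Complex MeasureTheory

theorem t08_EE (P : ℂ × ℝ) (s : ℝ) (x : ℂ × ℂ) : EE P s x = eT (P.1 * (x.1 * x.2)) *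
    (Real.exp (-(2 * Real.pi * P.2 * ‖x.1‖ ^ 2 * s + 2 * Real.pi * P.2 * ‖x.2‖ ^ 2 / s)) : ℝ) := by
  unfold EE
  congr 3
  rw [div_eq_mul_inv]
  ring_nf

theorem t08_Th (P ξ : ℂ × ℝ) (x : ℂ × ℂ) {s : ℝ} (hs : 0 < s) :
    (P.2 * Complex.I * x.1 ^ 2 * ξ.1 * eT (P.1 * (x.1 * x.2))) * ((s ^ (0 : ℤ) *
        Real.exp (-(2 * Real.pi * P.2 * ‖x.1‖ ^ 2 * s + 2 * Real.pi * P.2 * ‖x.2‖ ^ 2 / s)) : ℝ) : ℂ) +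
      (-(P.2 * 2 * x.1 * (starRingEnd ℂ) x.2 * ξ.2 * eT (P.1 * (x.1 * x.2)))) * ((s ^ (-1 : ℤ) *
        Real.exp (-(2 * Real.pi * P.2 * ‖x.1‖ ^ 2 * s + 2 * Real.pi * P.2 * ‖x.2‖ ^ 2 / s)) : ℝ) : ℂ) +
      (P.2 * Complex.I * (starRingEnd ℂ) x.2 ^ 2 * (starRingEnd ℂ) ξ.1 * eT (P.1 * (x.1 * x.2))) * ((s ^ (-2 : ℤ) *
        Real.exp (-(2 * Real.pi * P.2 * ‖x.1‖ ^ 2 * s + 2 * Real.pi * P.2 * ‖x.2‖ ^ 2 / s)) : ℝ) : ℂ) =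
      Th P s ξ x * (s : ℂ)⁻¹ := by
  have hs0 : (s : ℂ) ≠ 0 := by exact_mod_cast hs.ne'
  unfold Th
  rw [t08_EE]
  have e1 : s ^ (-1 : ℤ) = s⁻¹ := zpow_neg_one s
  have e2 : s ^ (-2 : ℤ) = s⁻¹ ^ 2 := by
    rw [inv_pow, zpow_neg]
    rfl
  rw [zpow_zero, e1, e2]
  push_cast
  field_simp
  ring

theorem t08_pos {P : ℂ × ℝ} (hP : P ∈ H3) {z : ℂ} (h : z ≠ 0) : 0 < 2 * Real.pi * P.2 * ‖z‖ ^ 2 := by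
  have h1 : 0 < P.2 := hP
  have h2 : 0 < ‖z‖ := norm_pos_iff.2 h
  have h3 := Real.pi_pos
  positivity

theorem t08i {P : ℂ × ℝ} (hP : P ∈ H3) (ξ : ℂ × ℝ) {x : ℂ × ℂ} (h1 : x.1 ≠ 0) (h2 : x.2 ≠ 0) :
    IntegrableOn (fun s : ℝ => Th P s ξ x * (s : ℂ)⁻¹) (Set.Ioi 0) := by
  have ha := t08_pos hP h1
  have hb := t08_pos hP h2
  refine IntegrableOn.congr_fun ?_ (fun s hs => t08_Th P ξ x hs) measurableSet_Ioi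
  exact (((t01 0 ha hb).ofReal.const_mul _).add ((t01 (-1) ha hb).ofReal.const_mul _)).add
    ((t01 (-2) ha hb).ofReal.const_mul _)

theorem t08_int {P : ℂ × ℝ} (hP : P ∈ H3) (ξ : ℂ × ℝ) {x : ℂ × ℂ} (h1 : x.1 ≠ 0) (h2 : x.2 ≠ 0) :
    ∫ s in Set.Ioi (0 : ℝ), Th P s ξ x * (s : ℂ)⁻¹ =
      (P.2 * Complex.I * x.1 ^ 2 * ξ.1 * eT (P.1 * (x.1 * x.2))) *
        (JJ 0 (2 * Real.pi * P.2 * ‖x.1‖ ^ 2) (2 * Real.pi * P.2 * ‖x.2‖ ^ 2) : ℂ) +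
      (-(P.2 * 2 * x.1 * (starRingEnd ℂ) x.2 * ξ.2 * eT (P.1 * (x.1 * x.2)))) *
        (JJ (-1) (2 * Real.pi * P.2 * ‖x.1‖ ^ 2) (2 * Real.pi * P.2 * ‖x.2‖ ^ 2) : ℂ) +
      (P.2 * Complex.I * (starRingEnd ℂ) x.2 ^ 2 * (starRingEnd ℂ) ξ.1 * eT (P.1 * (x.1 * x.2))) *
        (JJ (-2) (2 * Real.pi * P.2 * ‖x.1‖ ^ 2) (2 * Real.pi * P.2 * ‖x.2‖ ^ 2) : ℂ) := by
  have ha := t08_pos hP h1
  have hb := t08_pos hP h2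
  have i0 := (t01 0 ha hb).ofReal (𝕜 := ℂ)
  have i1 := (t01 (-1) ha hb).ofReal (𝕜 := ℂ)
  have i2 := (t01 (-2) ha hb).ofReal (𝕜 := ℂ)
  rw [setIntegral_congr_fun measurableSet_Ioi (fun s hs => (t08_Th P ξ x hs).symm)]
  have e1 := integral_add ((i0.const_mul (P.2 * Complex.I * x.1 ^ 2 * ξ.1 * eT (P.1 * (x.1 * x.2)))).add
    (i1.const_mul (-(P.2 * 2 * x.1 * (starRingEnd ℂ) x.2 * ξ.2 * eT (P.1 * (x.1 * x.2))))))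
    (i2.const_mul (P.2 * Complex.I * (starRingEnd ℂ) x.2 ^ 2 * (starRingEnd ℂ) ξ.1 * eT (P.1 * (x.1 * x.2))))
  have e2 := integral_add (i0.const_mul (P.2 * Complex.I * x.1 ^ 2 * ξ.1 * eT (P.1 * (x.1 * x.2))))
    (i1.const_mul (-(P.2 * 2 * x.1 * (starRingEnd ℂ) x.2 * ξ.2 * eT (P.1 * (x.1 * x.2)))))
  simp only [Pi.add_apply] at e1
  refine e1.trans ?_
  rw [e2, integral_const_mul, integral_const_mul, integral_const_mul, integral_ofReal, integral_ofReal, integral_ofReal]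
  rfl

theorem t08_kap {P : ℂ × ℝ} (hP : P ∈ H3) {x : ℂ × ℂ} (h1 : x.1 ≠ 0) (h2 : x.2 ≠ 0) :
    8 * Real.pi * ‖x.2‖ ^ 2 * kap ‖x.1 * x.2‖ P.2 =
        P.2 * JJ 0 (2 * Real.pi * P.2 * ‖x.1‖ ^ 2) (2 * Real.pi * P.2 * ‖x.2‖ ^ 2) ∧
      8 * Real.pi * ‖x.1‖ ^ 2 * kap ‖x.1 * x.2‖ P.2 =
        P.2 * JJ (-2) (2 * Real.pi * P.2 * ‖x.1‖ ^ 2) (2 * Real.pi * P.2 * ‖x.2‖ ^ 2) ∧
      kapt ‖x.1 * x.2‖ P.2 =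
        -(P.2 / 2) * JJ (-1) (2 * Real.pi * P.2 * ‖x.1‖ ^ 2) (2 * Real.pi * P.2 * ‖x.2‖ ^ 2) := by
  have ht : 0 < P.2 := hP
  have hn1 : 0 < ‖x.1‖ := norm_pos_iff.2 h1
  have hn2 : 0 < ‖x.2‖ := norm_pos_iff.2 h2
  have hpi := Real.pi_pos
  have hl : 0 < 8 * Real.pi * ‖x.2‖ ^ 2 / P.2 := by positivity
  have hl' : 0 < 8 * Real.pi * ‖x.1‖ ^ 2 / P.2 := by positivity
  have eA : 16 * Real.pi ^ 2 * ‖x.1 * x.2‖ ^ 2 = 8 * Real.pi * ‖x.2‖ ^ 2 / P.2 * (2 * Real.pi * P.2 * ‖x.1‖ ^ 2) := by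
    rw [norm_mul]
    field_simp
    ring
  have eB : P.2 ^ 2 / 4 = 2 * Real.pi * P.2 * ‖x.2‖ ^ 2 / (8 * Real.pi * ‖x.2‖ ^ 2 / P.2) := by
    field_simp
    ring
  have eA' : 16 * Real.pi ^ 2 * ‖x.1 * x.2‖ ^ 2 = 8 * Real.pi * ‖x.1‖ ^ 2 / P.2 * (2 * Real.pi * P.2 * ‖x.2‖ ^ 2) := by
    rw [norm_mul]
    field_simp
    ring
  have eB' : P.2 ^ 2 / 4 = 2 * Real.pi * P.2 * ‖x.1‖ ^ 2 / (8 * Real.pi * ‖x.1‖ ^ 2 / P.2) := by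
    field_simp
    ring
  refine ⟨?_, ?_, ?_⟩
  · rw [t04, eA, eB, t02 0 _ _ hl]
    have e : (-(0 : ℤ) - 1) = -1 := by norm_num
    rw [e, zpow_neg_one]
    field_simp
  · rw [t04, eA', eB', t02 0 _ _ hl']
    have e : (-(0 : ℤ) - 1) = -1 := by norm_num
    have e2 := t02i 0 (2 * Real.pi * P.2 * ‖x.1‖ ^ 2) (2 * Real.pi * P.2 * ‖x.2‖ ^ 2)
    rw [sub_zero] at e2
    rw [e, zpow_neg_one, e2]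
    field_simp
  · unfold kapt
    rw [eA, eB, t02 (-1) _ _ hl]
    have e : (-(-1 : ℤ) - 1) = 0 := by norm_num
    rw [e, zpow_zero, one_mul]

theorem t08 {P : ℂ × ℝ} (hP : P ∈ H3) (ξ : ℂ × ℝ) {x : ℂ × ℂ} (h1 : x.1 ≠ 0) (h2 : x.2 ≠ 0) :
    4 * Real.pi * x.1 * (starRingEnd ℂ) x.2 * DV P (x.1 * x.2) ξ =
      Real.pi * ∫ s in Set.Ioi (0 : ℝ), Th P s ξ x * (s : ℂ)⁻¹ := by
  obtain ⟨k1, k2, k3⟩ := t08_kap hP h1 h2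
  rw [t08_int hP ξ h1 h2, DV_apply, k3]
  have hre : (((ξ.1 * (x.1 * x.2)).re : ℝ) : ℂ) =
      (ξ.1 * (x.1 * x.2) + (starRingEnd ℂ) ξ.1 * ((starRingEnd ℂ) x.1 * (starRingEnd ℂ) x.2)) / 2 := by
    rw [Complex.re_eq_add_conj, map_mul, map_mul]
  have c1 := congrArg (fun r : ℝ => (r : ℂ)) k1
  have c2 := congrArg (fun r : ℝ => (r : ℂ)) k2
  have m1 : x.1 * (starRingEnd ℂ) x.1 = (‖x.1‖ : ℂ) ^ 2 := Complex.mul_conj' x.1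
  have m2 : x.2 * (starRingEnd ℂ) x.2 = (‖x.2‖ : ℂ) ^ 2 := Complex.mul_conj' x.2
  simp only [Complex.ofReal_mul, Complex.ofReal_pow, Complex.ofReal_ofNat] at c1 c2
  push_cast
  rw [hre]
  generalize eT (P.1 * (x.1 * x.2)) = E
  generalize hK : ((kap ‖x.1 * x.2‖ P.2 : ℝ) : ℂ) = K at c1 c2 ⊢
  generalize hJ0 : ((JJ 0 (2 * Real.pi * P.2 * ‖x.1‖ ^ 2) (2 * Real.pi * P.2 * ‖x.2‖ ^ 2) : ℝ) : ℂ) = J0 at c1 c2 ⊢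
  generalize hJ1 : ((JJ (-1) (2 * Real.pi * P.2 * ‖x.1‖ ^ 2) (2 * Real.pi * P.2 * ‖x.2‖ ^ 2) : ℝ) : ℂ) = J1
  generalize hJ2 : ((JJ (-2) (2 * Real.pi * P.2 * ‖x.1‖ ^ 2) (2 * Real.pi * P.2 * ‖x.2‖ ^ 2) : ℝ) : ℂ) = J2 at c1 c2 ⊢
  generalize (starRingEnd ℂ) ξ.1 = cz
  generalize (starRingEnd ℂ) x.1 = cx1 at m1 ⊢
  generalize (starRingEnd ℂ) x.2 = cx2 at m2 ⊢
  linear_combination (E * 8 * Real.pi ^ 2 * Complex.I * ξ.1 * x.1 ^ 2 * K) * m2 +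
    (E * 8 * Real.pi ^ 2 * Complex.I * cz * cx2 ^ 2 * K) * m1 +
    (E * Real.pi * Complex.I * ξ.1 * x.1 ^ 2) * c1 + (E * Real.pi * Complex.I * cz * cx2 ^ 2) * c2

end Pool.Agent.H2S
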