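import Mathlib

/-!
# H2S, chunk T09 (size M, only Mathlib): moments of the Gaussian on the real line, with a complex linear term

For `a > 0` and `c : ℂ` let `g_k u = u ^ k * exp (- a u ^ 2 + c u)` (`k = 0, 1, 2, 3`).
`t09i`: integrable: `‖g_k u‖ = |u| ^ k exp (- a u ^ 2 + (re c) u) ≤ C exp (- (a / 2) u ^ 2)`:
`|u| ^ k ≤ k! exp |u|` and `(|re c| + 1) |u| ≤ (a / 2) u ^ 2 + (|re c| + 1) ^ 2 / (2 a)`; `integrable_exp_neg_mul_sq`.
(Alternatively `integrable_cexp_quadratic` and `Integrable` of polynomial times Gaussian.)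
`t09a`: `integral_cexp_quadratic` (`b = - a`, `d = 0`): `∫ exp (- a u ^ 2 + c u) = (π / a) ^ (1 / 2 : ℂ) * exp (c ^ 2 / (4 a))`;
here `M` is any value of the integral, so only the two relations between the moments are needed:
`t09b`: `integral_eq_zero_of_hasDerivAt_of_integrable` for `g_0`: `g_0' = - 2 a g_1 + c g_0`, so `2 a ∫ g_1 = c ∫ g_0`.
`t09c`: for `g_1`: `g_1' = g_0 - 2 a g_2 + c g_1`, so `2 a ∫ g_2 = ∫ g_0 + c ∫ g_1`.
-/

set_option autoImplicit false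
namespace Pool.Agent.H2S
open Complex MeasureTheory

theorem t09i {a : ℝ} (ha : 0 < a) (c : ℂ) (k : ℕ) :
    Integrable fun u : ℝ => (u : ℂ) ^ k * Complex.exp (-(a : ℂ) * (u : ℂ) ^ 2 + c * u) := by
  have hcont : Continuous fun u : ℝ => (u : ℂ) ^ k * Complex.exp (-(a : ℂ) * (u : ℂ) ^ 2 + c * u) := by
    fun_prop
  have hint : Integrable fun u : ℝ => (k.factorial * Real.exp ((1 + |c.re|) ^ 2 / (2 * a))) * Real.exp (-(a / 2) * u ^ 2) :=
    (integrable_exp_neg_mul_sq (by positivity)).const_mul _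
  refine hint.mono' hcont.aestronglyMeasurable (Filter.Eventually.of_forall fun u => ?_)
  have hnorm : ‖(u : ℂ) ^ k * Complex.exp (-(a : ℂ) * (u : ℂ) ^ 2 + c * u)‖ = |u| ^ k * Real.exp (-a * u ^ 2 + c.re * u) := by
    rw [norm_mul, norm_pow, Complex.norm_real, Real.norm_eq_abs, Complex.norm_exp]
    have h1 : (-(a : ℂ) * (u : ℂ) ^ 2 + c * u).re = -a * u ^ 2 + c.re * u := by
      have h2 : -(a : ℂ) * (u : ℂ) ^ 2 = ((-a * u ^ 2 : ℝ) : ℂ) := by push_cast; ring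
      rw [h2, Complex.add_re, Complex.ofReal_re, Complex.re_mul_ofReal]
    rw [h1]
  rw [hnorm]
  have h1 : |u| ^ k ≤ k.factorial * Real.exp |u| := by
    have := Real.pow_div_factorial_le_exp |u| (abs_nonneg u) k
    rwa [div_le_iff₀' (by positivity)] at this
  have h2 : |u| + (-a * u ^ 2 + c.re * u) ≤ (1 + |c.re|) ^ 2 / (2 * a) + -(a / 2) * u ^ 2 := by
    have h3 : c.re * u ≤ |c.re| * |u| := by
      rw [← abs_mul]
      exact le_abs_self _
    have h4 : (1 + |c.re|) * |u| ≤ (a / 2) * u ^ 2 + (1 + |c.re|) ^ 2 / (2 * a) := by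
      have h5 : (a / 2) * u ^ 2 + (1 + |c.re|) ^ 2 / (2 * a) - (1 + |c.re|) * |u| = (a * |u| - (1 + |c.re|)) ^ 2 / (2 * a) := by
        rw [← sq_abs u]
        field_simp
        ring
      have h6 : 0 ≤ (a * |u| - (1 + |c.re|)) ^ 2 / (2 * a) := by positivity
      linarith
    nlinarith
  calc |u| ^ k * Real.exp (-a * u ^ 2 + c.re * u)
      ≤ (k.factorial * Real.exp |u|) * Real.exp (-a * u ^ 2 + c.re * u) :=
        mul_le_mul_of_nonneg_right h1 (Real.exp_pos _).le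
    _ = k.factorial * Real.exp (|u| + (-a * u ^ 2 + c.re * u)) := by rw [mul_assoc, ← Real.exp_add]
    _ ≤ k.factorial * Real.exp ((1 + |c.re|) ^ 2 / (2 * a) + -(a / 2) * u ^ 2) :=
        mul_le_mul_of_nonneg_left (Real.exp_le_exp.2 h2) (by positivity)
    _ = (k.factorial * Real.exp ((1 + |c.re|) ^ 2 / (2 * a))) * Real.exp (-(a / 2) * u ^ 2) := by
        rw [Real.exp_add, mul_assoc]

theorem t09a {a : ℝ} (ha : 0 < a) (c : ℂ) :
    ∫ u : ℝ, Complex.exp (-(a : ℂ) * (u : ℂ) ^ 2 + c * u) =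
      (Real.sqrt (Real.pi / a) : ℂ) * Complex.exp (c ^ 2 / (4 * a)) := by
  have h1 := integral_cexp_quadratic (b := -(a : ℂ)) (by simpa using ha) c 0
  simp only [add_zero] at h1
  rw [h1, neg_neg, zero_sub]
  have h2 : ((Real.pi : ℂ) / (a : ℂ)) ^ (1 / 2 : ℂ) = (Real.sqrt (Real.pi / a) : ℂ) := by
    rw [Real.sqrt_eq_rpow, Complex.ofReal_cpow (by positivity)]
    push_cast
    rfl
  rw [h2]
  congr 2
  rw [mul_neg, div_neg, neg_neg]

private theorem t09_r (u : ℝ) : HasDerivAt (fun u : ℝ => (u : ℂ)) 1 u := by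
  simpa using (hasDerivAt_id u).ofReal_comp

private theorem t09_d {a : ℝ} (c : ℂ) (u : ℝ) :
    HasDerivAt (fun u : ℝ => Complex.exp (-(a : ℂ) * (u : ℂ) ^ 2 + c * u))
      (c * Complex.exp (-(a : ℂ) * (u : ℂ) ^ 2 + c * u) -
        2 * a * ((u : ℂ) * Complex.exp (-(a : ℂ) * (u : ℂ) ^ 2 + c * u))) u := by
  have h1 := ((((t09_r u).fun_pow 2).const_mul (-(a : ℂ))).fun_add ((t09_r u).const_mul c)).cexp
  refine h1.congr_deriv ?_
  push_cast
  ring

theorem t09b {a : ℝ} (ha : 0 < a) (c : ℂ) :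
    ∫ u : ℝ, (u : ℂ) * Complex.exp (-(a : ℂ) * (u : ℂ) ^ 2 + c * u) =
      c / (2 * a) * ∫ u : ℝ, Complex.exp (-(a : ℂ) * (u : ℂ) ^ 2 + c * u) := by
  have hd : ∀ u : ℝ, HasDerivAt (fun u : ℝ => Complex.exp (-(a : ℂ) * (u : ℂ) ^ 2 + c * u))
      (c * Complex.exp (-(a : ℂ) * (u : ℂ) ^ 2 + c * u) -
        2 * a * ((u : ℂ) * Complex.exp (-(a : ℂ) * (u : ℂ) ^ 2 + c * u))) u := fun u => t09_d c u
  have i0 := t09i ha c 0
  have i1 := t09i ha c 1
  simp only [pow_zero, one_mul] at i0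
  simp only [pow_one] at i1
  have h1 := integral_eq_zero_of_hasDerivAt_of_integrable hd ((i0.const_mul c).sub (i1.const_mul (2 * a))) i0
  rw [integral_sub (i0.const_mul c) (i1.const_mul (2 * a)), integral_const_mul, integral_const_mul, sub_eq_zero] at h1
  have ha' : (a : ℂ) ≠ 0 := Complex.ofReal_ne_zero.2 ha.ne'
  generalize (∫ u : ℝ, (u : ℂ) * Complex.exp (-(a : ℂ) * (u : ℂ) ^ 2 + c * u)) = X at h1 ⊢
  generalize (∫ u : ℝ, Complex.exp (-(a : ℂ) * (u : ℂ) ^ 2 + c * u)) = Y at h1 ⊢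
  rw [div_mul_eq_mul_div, h1]
  field_simp

theorem t09c {a : ℝ} (ha : 0 < a) (c : ℂ) :
    ∫ u : ℝ, (u : ℂ) ^ 2 * Complex.exp (-(a : ℂ) * (u : ℂ) ^ 2 + c * u) =
      ((c / (2 * a)) ^ 2 + 1 / (2 * a)) * ∫ u : ℝ, Complex.exp (-(a : ℂ) * (u : ℂ) ^ 2 + c * u) := by
  have hd : ∀ u : ℝ, HasDerivAt (fun u : ℝ => (u : ℂ) * Complex.exp (-(a : ℂ) * (u : ℂ) ^ 2 + c * u))
      (Complex.exp (-(a : ℂ) * (u : ℂ) ^ 2 + c * u) + (c * ((u : ℂ) * Complex.exp (-(a : ℂ) * (u : ℂ) ^ 2 + c * u)) -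
        2 * a * ((u : ℂ) ^ 2 * Complex.exp (-(a : ℂ) * (u : ℂ) ^ 2 + c * u)))) u := by
    intro u
    have h1 := (t09_r u).mul (t09_d (a := a) c u)
    refine h1.congr_deriv ?_
    ring
  have i0 := t09i ha c 0
  have i1 := t09i ha c 1
  have i2 := t09i ha c 2
  simp only [pow_zero, one_mul] at i0
  simp only [pow_one] at i1
  have h1 := integral_eq_zero_of_hasDerivAt_of_integrable hd
    (i0.add ((i1.const_mul c).sub (i2.const_mul (2 * a)))) i1
  have i3 : Integrable fun u : ℝ => c * ((u : ℂ) * Complex.exp (-(a : ℂ) * (u : ℂ) ^ 2 + c * u)) -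
        2 * a * ((u : ℂ) ^ 2 * Complex.exp (-(a : ℂ) * (u : ℂ) ^ 2 + c * u)) := (i1.const_mul c).sub (i2.const_mul (2 * a))
  rw [integral_add i0 i3, integral_sub (i1.const_mul c) (i2.const_mul (2 * a)),
    integral_const_mul, integral_const_mul, t09b ha c] at h1
  have ha' : (a : ℂ) ≠ 0 := Complex.ofReal_ne_zero.2 ha.ne'
  generalize (∫ u : ℝ, (u : ℂ) ^ 2 * Complex.exp (-(a : ℂ) * (u : ℂ) ^ 2 + c * u)) = X at h1 ⊢
  generalize (∫ u : ℝ, Complex.exp (-(a : ℂ) * (u : ℂ) ^ 2 + c * u)) = Y at h1 ⊢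
  have h2 : 2 * a * X = Y + c * (c / (2 * a) * Y) := by linear_combination -h1
  have h3 : X = (2 * a * X) / (2 * a) := by field_simp
  rw [h3, h2]
  field_simp
  ring

end Pool.Agent.H2S
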