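import Pool.Agent.Lib.H2S.T09

/-!
# H2S, chunk T10 (size M): moments of the Gaussian on `ℂ`, with complex linear terms

`ℂ` with Lebesgue measure is `ℝ × ℝ` (`Complex.volume_preserving_equiv_real_prod`, `Complex.measurableEquivRealProd`):
`∫ x : ℂ, f x = ∫ p : ℝ × ℝ, f (p.1 + p.2 * I)`.  With `x = u + v I`: `‖x‖ ^ 2 = u ^ 2 + v ^ 2`,
`β x + γ conj x = c u + d v`, `c = β + γ`, `d = (β - γ) I`, so the exponential is the product of
`exp (- a u ^ 2 + c u)` and `exp (- a v ^ 2 + d v)`.  Fubini for products: `MeasureTheory.integral_prod_mul`,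
`Integrable.mul_prod` (integrability of every factor: `t09i`).
`j = 0`: `(π / a) exp ((c ^ 2 + d ^ 2) / (4 a))`, `c ^ 2 + d ^ 2 = 4 β γ`, `√(π / a) ^ 2 = π / a`.
`j = 1`: `x = u + v I`: `∫ = (c / (2 a) + I d / (2 a)) M`, `c + I d = 2 γ`, `M` the integral for `j = 0`.
`j = 2`: `x ^ 2 = u ^ 2 - v ^ 2 + 2 I u v`: `((c / 2a) ^ 2 + 1 / 2a - (d / 2a) ^ 2 - 1 / 2a + 2 I c d / (2a) ^ 2) M =
((c + I d) / (2 a)) ^ 2 M = (γ / a) ^ 2 M`.
`t10c` (with `conj x`): apply the change of variables `x → conj x` (measure preserving: `Complex.conjLIE` is a linear isometry,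
`LinearIsometryEquiv.measurePreserving`), which exchanges `β` and `γ`.
-/

set_option autoImplicit false
namespace Pool.Agent.H2S
open Complex MeasureTheory

private theorem t10_eq (a : ℝ) (β γ : ℂ) (j : ℕ) (p : ℝ × ℝ) :
    (Complex.measurableEquivRealProd.symm p) ^ j * Complex.exp (-(a : ℂ) * (‖Complex.measurableEquivRealProd.symm p‖ : ℂ) ^ 2 +
      β * Complex.measurableEquivRealProd.symm p + γ * (starRingEnd ℂ) (Complex.measurableEquivRealProd.symm p)) =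
    ∑ m ∈ Finset.range (j + 1), ((j.choose m : ℂ) * Complex.I ^ (j - m)) *
      (((p.1 : ℂ) ^ m * Complex.exp (-(a : ℂ) * (p.1 : ℂ) ^ 2 + (β + γ) * p.1)) *
        ((p.2 : ℂ) ^ (j - m) * Complex.exp (-(a : ℂ) * (p.2 : ℂ) ^ 2 + ((β - γ) * Complex.I) * p.2))) := by
  have h0 : Complex.measurableEquivRealProd.symm p = (p.1 : ℂ) + p.2 * Complex.I := by
    refine Complex.ext ?_ ?_
    · simp [Complex.measurableEquivRealProd]
    · simp [Complex.measurableEquivRealProd]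
  have h1 : ((‖(p.1 : ℂ) + p.2 * Complex.I‖ : ℝ) : ℂ) ^ 2 = (p.1 : ℂ) ^ 2 + (p.2 : ℂ) ^ 2 := by
    rw [← Complex.ofReal_pow, Complex.sq_norm, Complex.normSq_add_mul_I]
    push_cast
    ring
  have h2 : (starRingEnd ℂ) ((p.1 : ℂ) + p.2 * Complex.I) = (p.1 : ℂ) - p.2 * Complex.I := by
    rw [map_add, map_mul, Complex.conj_ofReal, Complex.conj_ofReal, Complex.conj_I]
    ring
  rw [h0, h1, h2, add_pow, Finset.sum_mul]
  refine Finset.sum_congr rfl fun m _ => ?_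
  have h3 : Complex.exp (-(a : ℂ) * ((p.1 : ℂ) ^ 2 + (p.2 : ℂ) ^ 2) + β * ((p.1 : ℂ) + p.2 * Complex.I) +
      γ * ((p.1 : ℂ) - p.2 * Complex.I)) = Complex.exp (-(a : ℂ) * (p.1 : ℂ) ^ 2 + (β + γ) * p.1) *
        Complex.exp (-(a : ℂ) * (p.2 : ℂ) ^ 2 + ((β - γ) * Complex.I) * p.2) := by
    rw [← Complex.exp_add]
    congr 1
    ring
  rw [h3, mul_pow]
  ring

private theorem t10_int {a : ℝ} (ha : 0 < a) (β γ : ℂ) (j : ℕ) :
    ∫ x : ℂ, x ^ j * Complex.exp (-(a : ℂ) * (‖x‖ : ℂ) ^ 2 + β * x + γ * (starRingEnd ℂ) x) =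
    ∑ m ∈ Finset.range (j + 1), ((j.choose m : ℂ) * Complex.I ^ (j - m)) *
      ((∫ u : ℝ, (u : ℂ) ^ m * Complex.exp (-(a : ℂ) * (u : ℂ) ^ 2 + (β + γ) * u)) *
        (∫ u : ℝ, (u : ℂ) ^ (j - m) * Complex.exp (-(a : ℂ) * (u : ℂ) ^ 2 + ((β - γ) * Complex.I) * u))) := by
  rw [← (Complex.volume_preserving_equiv_real_prod.symm).integral_comp
    Complex.measurableEquivRealProd.symm.measurableEmbedding]
  simp only [t10_eq]
  rw [show (volume : Measure (ℝ × ℝ)) = (volume : Measure ℝ).prod volume from rfl, integral_finsetSum _ fun m _ => (((t09i ha (β + γ) m).mul_prod (t09i ha ((β - γ) * Complex.I) (j - m))).const_mul _)]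
  refine Finset.sum_congr rfl fun m _ => ?_
  rw [integral_const_mul, ← integral_prod_mul]

private theorem t10_conj (a : ℝ) (β γ : ℂ) (j : ℕ) (x : ℂ) :
    ((fun x : ℂ => x ^ j * Complex.exp (-(a : ℂ) * (‖x‖ : ℂ) ^ 2 + γ * x + β * (starRingEnd ℂ) x)) ∘ Complex.conjLIE) x =
      (starRingEnd ℂ) x ^ j * Complex.exp (-(a : ℂ) * (‖x‖ : ℂ) ^ 2 + β * x + γ * (starRingEnd ℂ) x) := by
  show (starRingEnd ℂ) x ^ j * Complex.exp (-(a : ℂ) * (‖(starRingEnd ℂ) x‖ : ℂ) ^ 2 + γ * (starRingEnd ℂ) x +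
    β * (starRingEnd ℂ) ((starRingEnd ℂ) x)) = _
  rw [RCLike.norm_conj, Complex.conj_conj]
  congr 2
  ring

theorem t10i {a : ℝ} (ha : 0 < a) (β γ : ℂ) (j : ℕ) (hj : j ≤ 2) :
    Integrable fun x : ℂ => x ^ j * Complex.exp (-(a : ℂ) * (‖x‖ : ℂ) ^ 2 + β * x + γ * (starRingEnd ℂ) x) := by
  rw [← (Complex.volume_preserving_equiv_real_prod.symm).integrable_comp_emb
    Complex.measurableEquivRealProd.symm.measurableEmbedding]
  have h1 : ((fun x : ℂ => x ^ j * Complex.exp (-(a : ℂ) * (‖x‖ : ℂ) ^ 2 + β * x + γ * (starRingEnd ℂ) x)) ∘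
      Complex.measurableEquivRealProd.symm) = _ := funext fun p => t10_eq a β γ j p
  rw [h1]
  exact integrable_finsetSum _ fun m _ => (((t09i ha (β + γ) m).mul_prod (t09i ha ((β - γ) * Complex.I) (j - m))).const_mul _)

theorem t10 {a : ℝ} (ha : 0 < a) (β γ : ℂ) (j : ℕ) (hj : j ≤ 2) :
    ∫ x : ℂ, x ^ j * Complex.exp (-(a : ℂ) * (‖x‖ : ℂ) ^ 2 + β * x + γ * (starRingEnd ℂ) x) =
      (Real.pi / a : ℂ) * (γ / a) ^ j * Complex.exp (β * γ / a) := by
  rw [t10_int ha β γ j]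
  have ha' : (a : ℂ) ≠ 0 := Complex.ofReal_ne_zero.2 ha.ne'
  have hM : (∫ u : ℝ, Complex.exp (-(a : ℂ) * (u : ℂ) ^ 2 + (β + γ) * u)) *
      (∫ u : ℝ, Complex.exp (-(a : ℂ) * (u : ℂ) ^ 2 + (β - γ) * Complex.I * u)) =
        (Real.pi / a : ℂ) * Complex.exp (β * γ / a) := by
    rw [t09a ha, t09a ha]
    have h1 : ((Real.sqrt (Real.pi / a) : ℝ) : ℂ) * ((Real.sqrt (Real.pi / a) : ℝ) : ℂ) = (Real.pi / a : ℂ) := by
      rw [← Complex.ofReal_mul, Real.mul_self_sqrt (by positivity)]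
      push_cast
      rfl
    have h2 : Complex.exp ((β + γ) ^ 2 / (4 * a)) * Complex.exp (((β - γ) * Complex.I) ^ 2 / (4 * a)) =
        Complex.exp (β * γ / a) := by
      rw [← Complex.exp_add]
      congr 1
      rw [mul_pow, Complex.I_sq]
      field_simp
      ring
    rw [mul_mul_mul_comm, h1, h2]
  have hb1 := t09b ha (β + γ)
  have hb2 := t09b ha ((β - γ) * Complex.I)
  have hc1 := t09c ha (β + γ)
  have hc2 := t09c ha ((β - γ) * Complex.I)
  have hI : Complex.I ^ 2 = -1 := Complex.I_sq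
  interval_cases j
  · rw [Finset.sum_range_one]
    simp only [pow_zero, Nat.sub_zero, one_mul, mul_one, Nat.choose_self, Nat.cast_one]
    rw [hM]
  · rw [Finset.sum_range_succ, Finset.sum_range_one]
    simp only [pow_zero, pow_one, Nat.sub_zero, Nat.sub_self, one_mul, mul_one, Nat.choose_self, Nat.choose_zero_right, Nat.cast_one]
    rw [hb1, hb2]
    generalize (∫ u : ℝ, Complex.exp (-(a : ℂ) * (u : ℂ) ^ 2 + (β + γ) * u)) = X at hM ⊢
    generalize (∫ u : ℝ, Complex.exp (-(a : ℂ) * (u : ℂ) ^ 2 + (β - γ) * Complex.I * u)) = Y at hM ⊢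
    have h3 : (Real.pi / a : ℂ) * (γ / a) * Complex.exp (β * γ / a) = (γ / a) * (X * Y) := by rw [hM]; ring
    rw [h3]
    field_simp
    linear_combination (X * Y * (β - γ)) * hI
  · rw [Finset.sum_range_succ, Finset.sum_range_succ, Finset.sum_range_one]
    have e1 : Nat.choose 2 1 = 2 := rfl
    simp only [pow_zero, pow_one, Nat.sub_zero, Nat.sub_self, one_mul, mul_one, Nat.choose_self, Nat.choose_zero_right, Nat.cast_one, e1,
      show 2 - 1 = 1 from rfl, Nat.cast_ofNat]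
    rw [hb1, hb2, hc1, hc2]
    generalize (∫ u : ℝ, Complex.exp (-(a : ℂ) * (u : ℂ) ^ 2 + (β + γ) * u)) = X at hM ⊢
    generalize (∫ u : ℝ, Complex.exp (-(a : ℂ) * (u : ℂ) ^ 2 + (β - γ) * Complex.I * u)) = Y at hM ⊢
    have h3 : (Real.pi / a : ℂ) * (γ / a) ^ 2 * Complex.exp (β * γ / a) = (γ / a) ^ 2 * (X * Y) := by rw [hM]; ring
    rw [h3]
    field_simp
    linear_combination (X * Y * ((β - γ) ^ 2 * Complex.I ^ 2 + 2 * a + 2 * (β ^ 2 - γ ^ 2) - (β - γ) ^ 2)) * hI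

theorem t10ci {a : ℝ} (ha : 0 < a) (β γ : ℂ) (j : ℕ) (hj : j ≤ 2) :
    Integrable fun x : ℂ => (starRingEnd ℂ) x ^ j *
      Complex.exp (-(a : ℂ) * (‖x‖ : ℂ) ^ 2 + β * x + γ * (starRingEnd ℂ) x) := by
  have h1 := t10i ha γ β j hj
  have h2 := (Complex.conjLIE.measurePreserving).integrable_comp_emb
    Complex.conjLIE.toHomeomorph.measurableEmbedding (g := fun x : ℂ => x ^ j *
      Complex.exp (-(a : ℂ) * (‖x‖ : ℂ) ^ 2 + γ * x + β * (starRingEnd ℂ) x))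
  refine (h2.2 h1).congr (Filter.Eventually.of_forall fun x => ?_)
  exact t10_conj a β γ j x

theorem t10c {a : ℝ} (ha : 0 < a) (β γ : ℂ) (j : ℕ) (hj : j ≤ 2) :
    ∫ x : ℂ, (starRingEnd ℂ) x ^ j * Complex.exp (-(a : ℂ) * (‖x‖ : ℂ) ^ 2 + β * x + γ * (starRingEnd ℂ) x) =
      (Real.pi / a : ℂ) * (β / a) ^ j * Complex.exp (β * γ / a) := by
  have h1 := t10 ha γ β j hj
  have h2 := (Complex.conjLIE.measurePreserving).integral_comp
    Complex.conjLIE.toHomeomorph.measurableEmbedding (fun x : ℂ => x ^ j *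
      Complex.exp (-(a : ℂ) * (‖x‖ : ℂ) ^ 2 + γ * x + β * (starRingEnd ℂ) x))
  rw [h1] at h2
  rw [mul_comm β γ, ← h2]
  exact integral_congr_ae (Filter.Eventually.of_forall fun x => (t10_conj a β γ j x).symm)

end Pool.Agent.H2S
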