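import Pool.Agent.Lib.H2S.TD

/-!
# H2S, chunk T11 (size M): the inversion `wi` of the upper half-space and its derivative `dwi`

Let `D = ‖z‖ ^ 2 + t ^ 2 > 0`, `P = (z, t)`, `wi P = (- conj z / D, t / D)`.
`t11m`: clear.  `t11w`: the `D` of `wi P` is `(‖z‖ ^ 2 + t ^ 2) / D ^ 2 = 1 / D` (`norm_div`, `norm_neg`, `Complex.norm_conj`).
`t11d`: `HasFDerivAt.prodMk`.  `D` has derivative `ξ ↦ 2 Re (conj z ζ) + 2 t θ` (write `‖z‖ ^ 2 = z.re ^ 2 + z.im ^ 2`,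
`Complex.sq_norm`, `Complex.normSq_apply`, or `HasStrictFDerivAt.norm_sq`);
`d (- conj z / D) = - conj ζ / D + conj z (2 Re (conj z ζ) + 2 t θ) / D ^ 2` and `2 Re (conj z ζ) = conj z ζ + z conj ζ`
(`Complex.add_conj`), `‖z‖ ^ 2 = z conj z`: this is the first component of `dwi P ξ`;
`d (t / D) = θ / D - t (2 Re (conj z ζ) + 2 t θ) / D ^ 2`: the second component.
Compare with `dwi_apply` (`HasFDerivAt.congr_fderiv`, `ContinuousLinearMap.ext`, `Prod.ext`).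
`t11i`: `wi ∘ wi = id` near `P` (`H3` is open, `t11w`), so `dwi (wi P) ∘L dwi P` and `id` are derivatives of the same
function at `P`: `HasFDerivAt.comp`, `HasFDerivAt.unique`, `HasFDerivAt.congr_of_eventuallyEq`.
-/

set_option autoImplicit false
namespace Pool.Agent.H2S
open Complex MeasureTheory

theorem t11o : IsOpen H3 := by
  exact isOpen_lt continuous_const continuous_snd

theorem t11m {P : ℂ × ℝ} (hP : P ∈ H3) : wi P ∈ H3 := by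
  have ht : 0 < P.2 := hP
  change 0 < P.2 / (‖P.1‖ ^ 2 + P.2 ^ 2)
  positivity

theorem t11w {P : ℂ × ℝ} (hP : P ∈ H3) : wi (wi P) = P := by
  have ht : 0 < P.2 := hP
  have hD : 0 < ‖P.1‖ ^ 2 + P.2 ^ 2 := by positivity
  have hD' : ‖-(starRingEnd ℂ) P.1 / ((‖P.1‖ ^ 2 + P.2 ^ 2 : ℝ) : ℂ)‖ ^ 2 + (P.2 / (‖P.1‖ ^ 2 + P.2 ^ 2)) ^ 2 =
      (‖P.1‖ ^ 2 + P.2 ^ 2)⁻¹ := by
    rw [norm_div, norm_neg, RCLike.norm_conj, Complex.norm_real, Real.norm_of_nonneg hD.le]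
    field_simp
  refine Prod.ext ?_ ?_
  · change -(starRingEnd ℂ) (-(starRingEnd ℂ) P.1 / ((‖P.1‖ ^ 2 + P.2 ^ 2 : ℝ) : ℂ)) /
      ((‖-(starRingEnd ℂ) P.1 / ((‖P.1‖ ^ 2 + P.2 ^ 2 : ℝ) : ℂ)‖ ^ 2 + (P.2 / (‖P.1‖ ^ 2 + P.2 ^ 2)) ^ 2 : ℝ) : ℂ) = P.1
    rw [hD', map_div₀, map_neg, Complex.conj_conj, Complex.conj_ofReal, Complex.ofReal_inv]
    have hDc : ((‖P.1‖ ^ 2 + P.2 ^ 2 : ℝ) : ℂ) ≠ 0 := Complex.ofReal_ne_zero.2 hD.ne'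
    generalize ((‖P.1‖ ^ 2 + P.2 ^ 2 : ℝ) : ℂ) = D at hDc ⊢
    field_simp
  · change P.2 / (‖P.1‖ ^ 2 + P.2 ^ 2) /
      (‖-(starRingEnd ℂ) P.1 / ((‖P.1‖ ^ 2 + P.2 ^ 2 : ℝ) : ℂ)‖ ^ 2 + (P.2 / (‖P.1‖ ^ 2 + P.2 ^ 2)) ^ 2) = P.2
    rw [hD']
    field_simp

theorem t11_alg (z zc ζ ζc t θ D : ℂ) (hD : D = z * zc + t ^ 2) (hD0 : D ≠ 0) :
    D⁻¹ * (-ζc) + (-(D ^ 2)⁻¹ * (zc * ζ + z * ζc + 2 * t * θ)) * (-zc) =
      (D ^ 2)⁻¹ * (-t ^ 2 * ζc + zc ^ 2 * ζ + 2 * zc * t * θ) := by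
  field_simp
  rw [hD]
  ring

theorem t11d {P : ℂ × ℝ} (hP : P ∈ H3) : HasFDerivAt wi (dwi P) P := by
  have ht : 0 < P.2 := hP
  have hD : 0 < ‖P.1‖ ^ 2 + P.2 ^ 2 := by positivity
  have hf : HasFDerivAt (fun Q : ℂ × ℝ => Q.1) (ContinuousLinearMap.fst ℝ ℂ ℝ) P := hasFDerivAt_fst
  have hs : HasFDerivAt (fun Q : ℂ × ℝ => Q.2) (ContinuousLinearMap.snd ℝ ℂ ℝ) P := hasFDerivAt_snd
  have h1 := (hf.norm_sq).fun_add (hs.pow 2)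
  have h2 := (hasDerivAt_inv hD.ne').comp_hasFDerivAt P h1
  have h3 : HasFDerivAt (fun Q : ℂ × ℝ => -(starRingEnd ℂ) Q.1)
      (-((Complex.conjCLE : ℂ →L[ℝ] ℂ).comp (ContinuousLinearMap.fst ℝ ℂ ℝ))) P :=
    ((Complex.conjCLE : ℂ →L[ℝ] ℂ).hasFDerivAt.comp P hf).neg
  have h4 := (h2.smul h3).prodMk (h2.smul hs)
  have e1 : (fun Q : ℂ × ℝ => (((Inv.inv ∘ fun Q : ℂ × ℝ => ‖Q.1‖ ^ 2 + Q.2 ^ 2) Q) • (-(starRingEnd ℂ) Q.1),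
      ((Inv.inv ∘ fun Q : ℂ × ℝ => ‖Q.1‖ ^ 2 + Q.2 ^ 2) Q) • Q.2)) = wi := funext fun Q => by
    refine Prod.ext ?_ ?_
    · change (‖Q.1‖ ^ 2 + Q.2 ^ 2)⁻¹ • (-(starRingEnd ℂ) Q.1) = -(starRingEnd ℂ) Q.1 / ((‖Q.1‖ ^ 2 + Q.2 ^ 2 : ℝ) : ℂ)
      rw [Complex.real_smul, Complex.ofReal_inv, div_eq_inv_mul]
    · change (‖Q.1‖ ^ 2 + Q.2 ^ 2)⁻¹ • Q.2 = Q.2 / (‖Q.1‖ ^ 2 + Q.2 ^ 2)
      rw [smul_eq_mul, div_eq_inv_mul]
  have h5 : HasFDerivAt (fun Q : ℂ × ℝ => (((Inv.inv ∘ fun Q : ℂ × ℝ => ‖Q.1‖ ^ 2 + Q.2 ^ 2) Q) • (-(starRingEnd ℂ) Q.1),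
      ((Inv.inv ∘ fun Q : ℂ × ℝ => ‖Q.1‖ ^ 2 + Q.2 ^ 2) Q) • Q.2)) _ P := h4
  rw [e1] at h5
  refine h5.congr_fderiv (ContinuousLinearMap.ext fun ξ => ?_)
  have hin : inner ℝ P.1 ξ.1 = ((starRingEnd ℂ) P.1 * ξ.1).re := by
    rw [Complex.inner]
    first | rfl | rw [mul_comm]
  rw [dwi_apply]
  refine Prod.ext ?_ ?_
  · simp only [ContinuousLinearMap.prod_apply, ContinuousLinearMap.add_apply, ContinuousLinearMap.smul_apply,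
      ContinuousLinearMap.smulRight_apply, ContinuousLinearMap.neg_apply, ContinuousLinearMap.comp_apply,
      ContinuousLinearMap.coe_fst', ContinuousLinearMap.coe_snd', Function.comp_apply, smul_eq_mul, innerSL_apply_apply,
      ContinuousLinearEquiv.coe_coe, Complex.conjCLE_apply, hin, Complex.real_smul, nsmul_eq_mul]
    have hR : ((((starRingEnd ℂ) P.1 * ξ.1).re : ℝ) : ℂ) = ((starRingEnd ℂ) P.1 * ξ.1 + P.1 * (starRingEnd ℂ) ξ.1) / 2 := by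
      have := Complex.add_conj ((starRingEnd ℂ) P.1 * ξ.1)
      rw [map_mul, Complex.conj_conj] at this
      rw [this]
      push_cast
      ring
    have hn : ((‖P.1‖ : ℝ) : ℂ) ^ 2 = P.1 * (starRingEnd ℂ) P.1 := (Complex.mul_conj' P.1).symm
    have hDc : ((‖P.1‖ ^ 2 + P.2 ^ 2 : ℝ) : ℂ) ≠ 0 := Complex.ofReal_ne_zero.2 hD.ne'
    have hDe : ((‖P.1‖ ^ 2 + P.2 ^ 2 : ℝ) : ℂ) = P.1 * (starRingEnd ℂ) P.1 + (P.2 : ℂ) ^ 2 := by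
      push_cast
      rw [hn]
    have key := t11_alg P.1 ((starRingEnd ℂ) P.1) ξ.1 ((starRingEnd ℂ) ξ.1) P.2 ξ.2 _ hDe hDc
    push_cast at key hR ⊢
    rw [hR, ← key]
    ring
  · simp only [ContinuousLinearMap.prod_apply, ContinuousLinearMap.add_apply, ContinuousLinearMap.smul_apply,
      ContinuousLinearMap.smulRight_apply, ContinuousLinearMap.neg_apply, ContinuousLinearMap.comp_apply,
      ContinuousLinearMap.coe_fst', ContinuousLinearMap.coe_snd', Function.comp_apply, smul_eq_mul, innerSL_apply_apply,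
      ContinuousLinearEquiv.coe_coe, Complex.conjCLE_apply, hin, Complex.real_smul, nsmul_eq_mul]
    generalize ((starRingEnd ℂ) P.1 * ξ.1).re = r
    push_cast
    field_simp
    ring

theorem t11i {P : ℂ × ℝ} (hP : P ∈ H3) (ξ : ℂ × ℝ) : dwi (wi P) (dwi P ξ) = ξ := by
  have h1 := (t11d (t11m hP)).comp P (t11d hP)
  have h2 : HasFDerivAt (wi ∘ wi) (ContinuousLinearMap.id ℝ (ℂ × ℝ)) P :=
    (hasFDerivAt_id P).congr_of_eventuallyEq (by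
      filter_upwards [t11o.mem_nhds hP] with Q hQ
      exact t11w hQ)
  exact DFunLike.congr_fun (h1.unique h2) ξ

end Pool.Agent.H2S
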