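import Pool.Agent.Lib.H2S.TD

/-!
# H2S, T12: the polynomial identity of the Fourier transform of `Th`
-/

set_option autoImplicit false
namespace Pool.Agent.H2S
open Complex MeasureTheory

theorem t12 (z zc t s θ ζ ζc y₁ y₂ R X C : ℂ) (hRd : R = z * zc + t ^ 2) (hR : R ≠ 0) (hs : s ≠ 0) (ht : t ≠ 0)
    (hX : X = (I * t * s * y₁ - z * y₂) / R) (hC : C = I * (zc * X + y₂) / (t * s)) :
    I * s * ζ * C ^ 2 - 2 * θ * C * X + I * s⁻¹ * ζc * X ^ 2 =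
      I * s * y₁ ^ 2 * ((R ^ 2)⁻¹ * (-t ^ 2 * ζc + zc ^ 2 * ζ + 2 * zc * t * θ)) -
      2 * y₁ * y₂ * ((R ^ 2)⁻¹ * ((z * zc - t ^ 2) * θ - t * (z * ζc + zc * ζ))) +
      I * s⁻¹ * y₂ ^ 2 * ((R ^ 2)⁻¹ * (-t ^ 2 * ζ + z ^ 2 * ζc + 2 * z * t * θ)) := by
  have hC' : C = (-(s * zc * y₁) + I * t * y₂) / (R * s) := by
    rw [hC, hX]
    field_simp
    linear_combination (s * t * zc * y₁) * Complex.I_sq + I * y₂ * hRd
  rw [hC', hX]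
  field_simp
  linear_combination (ζc * t ^ 2 * s ^ 2 * y₁ ^ 2 * I + t ^ 2 * ζ * y₂ ^ 2 * I - 2 * θ * t ^ 2 * s * y₁ * y₂ + 2 * s * t * y₁ * y₂ * (θ * t) - 2 * s * t * y₁ * y₂ * (zc * ζ + z * ζc + t * θ)) * Complex.I_sq

end Pool.Agent.H2S
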