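import Pool.Agent.Lib.H2S.TD

/-!
# H2S: the inner integral of the Fourier transform of `Th`
-/

set_option autoImplicit false
namespace Pool.Agent.H2S
open Complex MeasureTheory

/-- The result of the integration over the first variable. -/
noncomputable def Ti (P : ℂ × ℝ) (s : ℝ) (ξ : ℂ × ℝ) (y : ℂ × ℂ) (v : ℂ) : ℂ :=
  (2 * s : ℂ)⁻¹ * (I * s * ξ.1 * (I * ((starRingEnd ℂ) P.1 * (starRingEnd ℂ) v + (starRingEnd ℂ) y.2) / (P.2 * s)) ^ 2 -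
    2 * ξ.2 * (I * ((starRingEnd ℂ) P.1 * (starRingEnd ℂ) v + (starRingEnd ℂ) y.2) / (P.2 * s)) * (starRingEnd ℂ) v +
    I * (s : ℂ)⁻¹ * (starRingEnd ℂ) ξ.1 * (starRingEnd ℂ) v ^ 2) *
  Complex.exp (-((2 * Real.pi * (‖P.1‖ ^ 2 + P.2 ^ 2) / (P.2 * s) : ℝ) : ℂ) * (‖v‖ : ℂ) ^ 2 +
    (2 * Real.pi * I * y.1 - 2 * Real.pi * P.1 * (starRingEnd ℂ) y.2 / (P.2 * s)) * v +
    (2 * Real.pi * I * (starRingEnd ℂ) y.1 - 2 * Real.pi * (starRingEnd ℂ) P.1 * y.2 / (P.2 * s)) * (starRingEnd ℂ) v) *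
  Complex.exp (-((2 * Real.pi * ‖y.2‖ ^ 2 / (P.2 * s) : ℝ) : ℂ))

end Pool.Agent.H2S
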