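import Pool.Agent.Lib.H2S.T10
import Pool.Agent.Lib.H2S.T12
import Pool.Agent.Lib.H2S.T13D

/-!
# H2S, chunk T13B (size M): integration over the second variable

Notation `z = P.1`, `t = P.2 > 0`, `R = ‖z‖ ^ 2 + t ^ 2 > 0`, `a = 2 π R / (t s)`,
`β = 2 π I y₁ - 2 π z conj y₂ / (t s)`, `γ = 2 π I conj y₁ - 2 π conj z y₂ / (t s)` (the coefficients in `Ti`).
`Ti` is `(2 s)⁻¹ * (polynomial of degree 2 in conj v) * exp (- a ‖v‖ ^ 2 + β v + γ conj v) * const`; expand the polynomial as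
`c₀ + c₁ conj v + c₂ conj v ^ 2`; by `t10c`, `t10ci` (`j = 0, 1, 2`) the integral is
`(2 s)⁻¹ (π / a) (c₀ + c₁ X + c₂ X ^ 2) exp (β γ / a) * const`, `X = β / a = (I t s y₁ - z conj y₂) / R`, `π / a = t s / (2 R)`.
With `C = I (conj z X + conj y₂) / (t s)` the polynomial is `I s ζ C ^ 2 - 2 θ C X + I s⁻¹ conj ζ X ^ 2`: use `t12` with
`zc = conj z`, `ζc = conj ζ`, `y₂ := conj y₂`.  `(2 s)⁻¹ (t s / (2 R)) = (1 / 4) (t / R)`, `t / R = (wi P).2`; the right-hand side of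
`t12` is the bracket of `Th (wi P) s (dwi P ξ) y` (`dwi_apply`; `2 Re (conj z ζ) = conj z ζ + z conj ζ`).
Exponent: `β γ / a - 2 π ‖y₂‖ ^ 2 / (t s) = - 2 π (t / R) (s ‖y₁‖ ^ 2 + s⁻¹ ‖y₂‖ ^ 2) + 2 π I (- conj z y₁ y₂ / R + conj)`
(`‖y₁‖ ^ 2 = y₁ conj y₁` etc., `field_simp; ring`), which is the exponent of `EE (wi P) s y`
(`eT w = exp (2 π I (w + conj w))`).
-/

set_option autoImplicit false
namespace Pool.Agent.H2S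
open Complex MeasureTheory

theorem t13b_three {f0 f1 f2 : ℂ → ℂ} (i0 : Integrable f0) (i1 : Integrable f1) (i2 : Integrable f2) {c2 c1 c0 : ℂ} :
    ∫ u, (c2 * f2 u + c1 * f1 u + c0 * f0 u) = c2 * (∫ u, f2 u) + c1 * (∫ u, f1 u) + c0 * ∫ u, f0 u := by
  have h1 : Integrable fun u => c2 * f2 u + c1 * f1 u := (i2.const_mul c2).add (i1.const_mul c1)
  rw [integral_add h1 (i0.const_mul c0), integral_add (i2.const_mul c2) (i1.const_mul c1), integral_const_mul,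
    integral_const_mul, integral_const_mul]

theorem t13b_eT (w : ℂ) : eT w = Complex.exp (2 * Real.pi * I * (w + (starRingEnd ℂ) w)) := by
  unfold eT
  congr 1
  rw [Complex.add_conj]
  push_cast
  ring

theorem t13b_ex (z zc y1 y1c y2 y2c t s p R : ℂ) (ht : t ≠ 0) (hs : s ≠ 0) (hp : p ≠ 0) (hR : R ≠ 0) (hRd : R = z * zc + t ^ 2) :
    (2 * p * I * y1 - 2 * p * z * y2c / (t * s)) * (2 * p * I * y1c - 2 * p * zc * y2 / (t * s)) / (2 * p * R / (t * s)) +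
      -(2 * p * (y2 * y2c) / (t * s)) =
    2 * p * I * (-zc / R * (y1 * y2) + -z / R * (y1c * y2c)) + -(2 * p * (t / R) * (s * (y1 * y1c) + s⁻¹ * (y2 * y2c))) := by
  have hI : I ^ 2 = -1 := Complex.I_sq
  field_simp
  linear_combination (s ^ 2 * t ^ 2 * y1 * y1c) * hI - y2 * y2c * hRd

theorem t13b {P : ℂ × ℝ} (hP : P ∈ H3) {s : ℝ} (hs : 0 < s) (ξ : ℂ × ℝ) (y : ℂ × ℂ) :
    ∫ v : ℂ, Ti P s ξ y v = (1 / 4 : ℂ) * Th (wi P) s (dwi P ξ) y := by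
  have ht : 0 < P.2 := hP
  have hpi := Real.pi_pos
  have hR : 0 < ‖P.1‖ ^ 2 + P.2 ^ 2 := by positivity
  have ha : 0 < 2 * Real.pi * (‖P.1‖ ^ 2 + P.2 ^ 2) / (P.2 * s) := by positivity
  have htc : (P.2 : ℂ) ≠ 0 := Complex.ofReal_ne_zero.2 ht.ne'
  have hsc : (s : ℂ) ≠ 0 := Complex.ofReal_ne_zero.2 hs.ne'
  have hpc : (Real.pi : ℂ) ≠ 0 := Complex.ofReal_ne_zero.2 hpi.ne'
  have hRc : ((‖P.1‖ ^ 2 + P.2 ^ 2 : ℝ) : ℂ) ≠ 0 := Complex.ofReal_ne_zero.2 hR.ne'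
  have hz : ((‖P.1‖ : ℝ) : ℂ) ^ 2 = P.1 * (starRingEnd ℂ) P.1 := (Complex.mul_conj' P.1).symm
  have hy1 : ((‖y.1‖ : ℝ) : ℂ) ^ 2 = y.1 * (starRingEnd ℂ) y.1 := (Complex.mul_conj' y.1).symm
  have hy2 : ((‖y.2‖ : ℝ) : ℂ) ^ 2 = y.2 * (starRingEnd ℂ) y.2 := (Complex.mul_conj' y.2).symm
  have hRd : ((‖P.1‖ ^ 2 + P.2 ^ 2 : ℝ) : ℂ) = P.1 * (starRingEnd ℂ) P.1 + (P.2 : ℂ) ^ 2 := by
    push_cast
    rw [hz]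
  obtain ⟨β, hβ⟩ : ∃ β : ℂ, β = 2 * Real.pi * I * y.1 - 2 * Real.pi * P.1 * (starRingEnd ℂ) y.2 / (P.2 * s) := ⟨_, rfl⟩
  obtain ⟨γ, hγ⟩ : ∃ γ : ℂ, γ = 2 * Real.pi * I * (starRingEnd ℂ) y.1 - 2 * Real.pi * (starRingEnd ℂ) P.1 * y.2 / (P.2 * s) := ⟨_, rfl⟩
  obtain ⟨K, hK⟩ : ∃ K : ℂ, K = Complex.exp (-((2 * Real.pi * ‖y.2‖ ^ 2 / (P.2 * s) : ℝ) : ℂ)) := ⟨_, rfl⟩
  obtain ⟨a, had⟩ : ∃ a : ℝ, a = 2 * Real.pi * (‖P.1‖ ^ 2 + P.2 ^ 2) / (P.2 * s) := ⟨_, rfl⟩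
  rw [← had] at ha
  have hpt : ∀ v : ℂ, Ti P s ξ y v =
      ((2 * s : ℂ)⁻¹ * K * (I * s * ξ.1 * (I * (starRingEnd ℂ) P.1 / (P.2 * s)) ^ 2 - 2 * ξ.2 * (I * (starRingEnd ℂ) P.1 / (P.2 * s)) +
        I * (s : ℂ)⁻¹ * (starRingEnd ℂ) ξ.1)) * ((starRingEnd ℂ) v ^ 2 * Complex.exp (-(a : ℂ) * (‖v‖ : ℂ) ^ 2 + β * v + γ * (starRingEnd ℂ) v)) +
      ((2 * s : ℂ)⁻¹ * K * (2 * (I * s * ξ.1 * (I * (starRingEnd ℂ) P.1 / (P.2 * s)) * (I * (starRingEnd ℂ) y.2 / (P.2 * s))) -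
        2 * ξ.2 * (I * (starRingEnd ℂ) y.2 / (P.2 * s)))) * ((starRingEnd ℂ) v ^ 1 * Complex.exp (-(a : ℂ) * (‖v‖ : ℂ) ^ 2 + β * v + γ * (starRingEnd ℂ) v)) +
      ((2 * s : ℂ)⁻¹ * K * (I * s * ξ.1 * (I * (starRingEnd ℂ) y.2 / (P.2 * s)) ^ 2)) *
        ((starRingEnd ℂ) v ^ 0 * Complex.exp (-(a : ℂ) * (‖v‖ : ℂ) ^ 2 + β * v + γ * (starRingEnd ℂ) v)) := fun v => by
    unfold Ti
    rw [← had, ← hβ, ← hγ, ← hK]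
    ring
  simp only [hpt]
  have i2 := t10ci ha β γ 2 (by norm_num)
  have i1 := t10ci ha β γ 1 (by norm_num)
  have i0 := t10ci ha β γ 0 (by norm_num)
  rw [t13b_three i0 i1 i2, t10c ha β γ 2 (by norm_num), t10c ha β γ 1 (by norm_num), t10c ha β γ 0 (by norm_num)]
  have hX : β / (a : ℂ) = (I * P.2 * s * y.1 - P.1 * (starRingEnd ℂ) y.2) / ((‖P.1‖ ^ 2 + P.2 ^ 2 : ℝ) : ℂ) := by
    rw [hβ, had, Complex.ofReal_div, Complex.ofReal_mul (2 * Real.pi)]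
    generalize ((‖P.1‖ ^ 2 + P.2 ^ 2 : ℝ) : ℂ) = R at hRc ⊢
    push_cast
    field_simp
  obtain ⟨X, hXd⟩ : ∃ X : ℂ, X = β / (a : ℂ) := ⟨_, rfl⟩
  obtain ⟨C, hC⟩ : ∃ C : ℂ, C = I * ((starRingEnd ℂ) P.1 * X + (starRingEnd ℂ) y.2) / (P.2 * s) := ⟨_, rfl⟩
  have key := t12 P.1 ((starRingEnd ℂ) P.1) P.2 s ξ.2 ξ.1 ((starRingEnd ℂ) ξ.1) y.1 ((starRingEnd ℂ) y.2) _ X C hRd hRc hsc htc
    (by rw [hXd, hX]) hC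
  have e1 : (2 * s : ℂ)⁻¹ * (Real.pi / (a : ℂ)) = (1 / 4 : ℂ) * (P.2 / ((‖P.1‖ ^ 2 + P.2 ^ 2 : ℝ) : ℂ)) := by
    rw [had, Complex.ofReal_div, Complex.ofReal_mul (2 * Real.pi)]
    generalize ((‖P.1‖ ^ 2 + P.2 ^ 2 : ℝ) : ℂ) = R at hRc ⊢
    push_cast
    field_simp
    norm_num
  have e3 : Complex.exp (β * γ / (a : ℂ)) * K = EE (wi P) s y := by
    unfold EE
    rw [t13b_eT, hK, Complex.ofReal_exp, ← Complex.exp_add, ← Complex.exp_add]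
    congr 1
    have h := t13b_ex P.1 ((starRingEnd ℂ) P.1) y.1 ((starRingEnd ℂ) y.1) y.2 ((starRingEnd ℂ) y.2) P.2 s
      Real.pi _ htc hsc hpc hRc hRd
    have h1 : (starRingEnd ℂ) ((wi P).1 * (y.1 * y.2)) =
        -P.1 / ((‖P.1‖ ^ 2 + P.2 ^ 2 : ℝ) : ℂ) * ((starRingEnd ℂ) y.1 * (starRingEnd ℂ) y.2) := by
      unfold wi
      rw [map_mul, map_mul, map_div₀, map_neg, Complex.conj_conj, Complex.conj_ofReal]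
    have h2 : (wi P).1 * (y.1 * y.2) = -(starRingEnd ℂ) P.1 / ((‖P.1‖ ^ 2 + P.2 ^ 2 : ℝ) : ℂ) * (y.1 * y.2) := rfl
    have h3 : ((-(2 * Real.pi * (wi P).2 * (s * ‖y.1‖ ^ 2 + s⁻¹ * ‖y.2‖ ^ 2)) : ℝ) : ℂ) =
        -(2 * Real.pi * (P.2 / ((‖P.1‖ ^ 2 + P.2 ^ 2 : ℝ) : ℂ)) * (s * (y.1 * (starRingEnd ℂ) y.1) + (s : ℂ)⁻¹ * (y.2 * (starRingEnd ℂ) y.2))) := by
      rw [← hy1, ← hy2]
      unfold wi
      push_cast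
      ring
    have h4 : (-((2 * Real.pi * ‖y.2‖ ^ 2 / (P.2 * s) : ℝ) : ℂ)) = -(2 * Real.pi * (y.2 * (starRingEnd ℂ) y.2) / (P.2 * s)) := by
      rw [← hy2]
      push_cast
      ring
    have h5 : (a : ℂ) = 2 * Real.pi * ((‖P.1‖ ^ 2 + P.2 ^ 2 : ℝ) : ℂ) / (P.2 * s) := by
      rw [had]
      push_cast
      ring
    rw [h1, h2, h3, h4, h5, hβ, hγ]
    exact h
  have e4 : Th (wi P) s (dwi P ξ) y = (P.2 / ((‖P.1‖ ^ 2 + P.2 ^ 2 : ℝ) : ℂ)) * (I * s * ξ.1 * C ^ 2 - 2 * ξ.2 * C * X +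
      I * (s : ℂ)⁻¹ * (starRingEnd ℂ) ξ.1 * X ^ 2) * EE (wi P) s y := by
    have key' := key
    rw [mul_assoc I (s : ℂ)⁻¹, mul_assoc I (s : ℂ)⁻¹] at key'
    unfold Th
    rw [dwi_apply]
    have hRe : ((((‖P.1‖ ^ 2 + P.2 ^ 2) ^ 2)⁻¹ * ((‖P.1‖ ^ 2 - P.2 ^ 2) * ξ.2 - 2 * P.2 * ((starRingEnd ℂ) P.1 * ξ.1).re) : ℝ) : ℂ) =
        (((‖P.1‖ ^ 2 + P.2 ^ 2 : ℝ) : ℂ) ^ 2)⁻¹ * ((P.1 * (starRingEnd ℂ) P.1 - (P.2 : ℂ) ^ 2) * ξ.2 -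
          P.2 * (P.1 * (starRingEnd ℂ) ξ.1 + (starRingEnd ℂ) P.1 * ξ.1)) := by
      have h1 := Complex.add_conj ((starRingEnd ℂ) P.1 * ξ.1)
      rw [map_mul, Complex.conj_conj] at h1
      rw [← hz, add_comm (P.1 * (starRingEnd ℂ) ξ.1), h1]
      push_cast
      ring
    have hcj : (starRingEnd ℂ) (((((‖P.1‖ ^ 2 + P.2 ^ 2) ^ 2 : ℝ) : ℂ))⁻¹ * (-(P.2 : ℂ) ^ 2 * (starRingEnd ℂ) ξ.1 +
          (starRingEnd ℂ) P.1 ^ 2 * ξ.1 + 2 * (starRingEnd ℂ) P.1 * P.2 * ξ.2)) =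
        (((‖P.1‖ ^ 2 + P.2 ^ 2 : ℝ) : ℂ) ^ 2)⁻¹ * (-(P.2 : ℂ) ^ 2 * ξ.1 + P.1 ^ 2 * (starRingEnd ℂ) ξ.1 + 2 * P.1 * P.2 * ξ.2) := by
      simp only [map_mul, map_add, map_neg, map_pow, map_inv₀, Complex.conj_conj, Complex.conj_ofReal, Complex.ofReal_pow, map_ofNat]
    dsimp only
    rw [hRe, hcj]
    have hw2 : (((wi P).2 : ℝ) : ℂ) = P.2 / ((‖P.1‖ ^ 2 + P.2 ^ 2 : ℝ) : ℂ) := by
      unfold wi
      rw [Complex.ofReal_div]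
    rw [hw2, key, Complex.ofReal_pow]
  rw [e4, hC]
  rw [← hXd]
  calc _ = ((2 * s : ℂ)⁻¹ * (Real.pi / (a : ℂ))) * (I * s * ξ.1 * (I * ((starRingEnd ℂ) P.1 * X + (starRingEnd ℂ) y.2) / (P.2 * s)) ^ 2 -
          2 * ξ.2 * (I * ((starRingEnd ℂ) P.1 * X + (starRingEnd ℂ) y.2) / (P.2 * s)) * X +
          I * (s : ℂ)⁻¹ * (starRingEnd ℂ) ξ.1 * X ^ 2) * (Complex.exp (β * γ / (a : ℂ)) * K) := by ring
    _ = _ := by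
        rw [e1, e3]
        ring

end Pool.Agent.H2S
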