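import Pool.Agent.Lib.H2S.TD

/-!
# H2S, chunk T15 (size S/M): bounds for `Th`

`‖eT w‖ = 1` (`Complex.norm_exp_ofReal_mul_I`), so with `q = s ‖x₁‖ ^ 2 + s⁻¹ ‖x₂‖ ^ 2`, `t = P.2`:
`‖Th‖ ≤ t (s ‖x₁‖ ^ 2 ‖ζ‖ + 2 ‖x₁‖ ‖x₂‖ |θ| + s⁻¹ ‖x₂‖ ^ 2 ‖ζ‖) exp (- 2 π t q)`, `‖ζ‖, |θ| ≤ ‖ξ‖` (`norm_fst_le`, `norm_snd_le`) and
`2 ‖x₁‖ ‖x₂‖ ≤ q` (`(√s ‖x₁‖ - ‖x₂‖ / √s) ^ 2 ≥ 0`).  So `‖Th‖ ≤ 2 t q ‖ξ‖ exp (- 2 π t q)`, and with `y = π t q ≥ 0`: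
`2 t q exp (- y) = (2 / π) y exp (- y) ≤ 1` (`y ≤ exp y` by `Real.add_one_le_exp`; `2 / π < 1`, `Real.pi_gt_three`).
`t15r`: for `1 ≤ s ≤ ρ`: `q ≥ ‖x‖ ^ 2 / ρ` (`‖x‖ = max ‖x₁‖ ‖x₂‖`, `Prod.norm_def`, two cases).
`t15c`: `Th` is a composition of continuous functions (`fun_prop`/`continuity` after unfolding `Th`, `EE`, `eT`;
`Complex.continuous_conj`, `Complex.continuous_re`).
-/

set_option autoImplicit false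
namespace Pool.Agent.H2S
open Complex MeasureTheory

theorem t15_eT (w : ℂ) : ‖eT w‖ = 1 := by
  unfold eT
  exact Complex.norm_exp_ofReal_mul_I _

/-- The quadratic form bounds the product. -/
theorem t15_q {s a b : ℝ} (hs : 0 < s) : 2 * a * b ≤ s * a ^ 2 + s⁻¹ * b ^ 2 := by
  have h1 : s * a ^ 2 + s⁻¹ * b ^ 2 - 2 * a * b = s⁻¹ * (s * a - b) ^ 2 := by
    field_simp
    ring
  have h2 : 0 ≤ s⁻¹ * (s * a - b) ^ 2 := mul_nonneg (inv_pos.2 hs).le (sq_nonneg _)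
  linarith

theorem t15 {P : ℂ × ℝ} (hP : P ∈ H3) {s : ℝ} (hs : 0 < s) (ξ : ℂ × ℝ) (x : ℂ × ℂ) :
    ‖Th P s ξ x‖ ≤ ‖ξ‖ * Real.exp (-(Real.pi * P.2 * (s * ‖x.1‖ ^ 2 + s⁻¹ * ‖x.2‖ ^ 2))) := by
  have ht : 0 < P.2 := hP
  obtain ⟨a, ha⟩ : ∃ a, a = ‖x.1‖ := ⟨_, rfl⟩
  obtain ⟨b, hb⟩ : ∃ b, b = ‖x.2‖ := ⟨_, rfl⟩
  obtain ⟨q, hq⟩ : ∃ q, q = s * a ^ 2 + s⁻¹ * b ^ 2 := ⟨_, rfl⟩
  have ha0 : 0 ≤ a := by rw [ha]; exact norm_nonneg _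
  have hb0 : 0 ≤ b := by rw [hb]; exact norm_nonneg _
  have hsi : 0 < s⁻¹ := inv_pos.2 hs
  have hq0 : 0 ≤ q := by rw [hq]; positivity
  have hN := norm_nonneg ξ
  have h1 : ‖ξ.1‖ ≤ ‖ξ‖ := norm_fst_le ξ
  have h2 : |ξ.2| ≤ ‖ξ‖ := norm_snd_le ξ
  have hEE : ‖EE P s x‖ = Real.exp (-(2 * Real.pi * P.2 * q)) := by
    unfold EE
    rw [norm_mul, t15_eT, one_mul, Complex.norm_real, Real.norm_eq_abs, abs_of_pos (Real.exp_pos _), hq, ha, hb]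
  have hbr : ‖Complex.I * s * x.1 ^ 2 * ξ.1 - 2 * x.1 * (starRingEnd ℂ) x.2 * ξ.2 +
      Complex.I * (s : ℂ)⁻¹ * (starRingEnd ℂ) x.2 ^ 2 * (starRingEnd ℂ) ξ.1‖ ≤ 2 * q * ‖ξ‖ := by
    calc _ ≤ ‖Complex.I * s * x.1 ^ 2 * ξ.1 - 2 * x.1 * (starRingEnd ℂ) x.2 * ξ.2‖ +
          ‖Complex.I * (s : ℂ)⁻¹ * (starRingEnd ℂ) x.2 ^ 2 * (starRingEnd ℂ) ξ.1‖ := norm_add_le _ _
      _ ≤ (‖Complex.I * s * x.1 ^ 2 * ξ.1‖ + ‖2 * x.1 * (starRingEnd ℂ) x.2 * ξ.2‖) +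
          ‖Complex.I * (s : ℂ)⁻¹ * (starRingEnd ℂ) x.2 ^ 2 * (starRingEnd ℂ) ξ.1‖ :=
          add_le_add_left (norm_sub_le _ _) _
      _ = (s * a ^ 2 * ‖ξ.1‖ + 2 * a * b * |ξ.2|) + s⁻¹ * b ^ 2 * ‖ξ.1‖ := by
          simp only [norm_mul, norm_pow, norm_inv, Complex.norm_I, Complex.norm_real, Real.norm_eq_abs,
            RCLike.norm_conj, Complex.norm_ofNat, one_mul, abs_of_pos hs, ha, hb]
      _ ≤ (s * a ^ 2 * ‖ξ‖ + 2 * a * b * ‖ξ‖) + s⁻¹ * b ^ 2 * ‖ξ‖ := by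
          refine add_le_add (add_le_add ?_ ?_) ?_
          · exact mul_le_mul_of_nonneg_left h1 (by positivity)
          · exact mul_le_mul_of_nonneg_left h2 (by positivity)
          · exact mul_le_mul_of_nonneg_left h1 (by positivity)
      _ = (q + 2 * a * b) * ‖ξ‖ := by rw [hq]; ring
      _ ≤ (q + q) * ‖ξ‖ := by
          refine mul_le_mul_of_nonneg_right (add_le_add_right ?_ _) hN
          rw [hq]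
          exact t15_q hs
      _ = 2 * q * ‖ξ‖ := by ring
  have h3 : ‖Th P s ξ x‖ ≤ P.2 * (2 * q * ‖ξ‖) * Real.exp (-(2 * Real.pi * P.2 * q)) := by
    unfold Th
    rw [norm_mul, norm_mul, hEE, Complex.norm_real, Real.norm_eq_abs, abs_of_pos ht]
    exact mul_le_mul_of_nonneg_right (mul_le_mul_of_nonneg_left hbr ht.le) (Real.exp_pos _).le
  obtain ⟨y, hy⟩ : ∃ y, y = Real.pi * P.2 * q := ⟨_, rfl⟩
  have hy0 : 0 ≤ y := by rw [hy]; positivity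
  have h4 : Real.exp (-(2 * Real.pi * P.2 * q)) = Real.exp (-y) * Real.exp (-y) := by
    rw [← Real.exp_add, hy]
    congr 1
    ring
  have h5 : P.2 * (2 * q) * Real.exp (-y) ≤ 1 := by
    have h6 : P.2 * (2 * q) ≤ y := by
      rw [hy]
      have h7 : 0 ≤ P.2 * q := by positivity
      have h8 := mul_le_mul_of_nonneg_right Real.pi_gt_three.le h7
      linarith
    have h7 : y ≤ Real.exp y := by linarith [Real.add_one_le_exp y]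
    rw [Real.exp_neg, ← div_eq_mul_inv, div_le_one (Real.exp_pos _)]
    exact h6.trans h7
  have h6 : Real.exp (-(Real.pi * P.2 * (s * ‖x.1‖ ^ 2 + s⁻¹ * ‖x.2‖ ^ 2))) = Real.exp (-y) := by
    rw [hy, hq, ha, hb]
  rw [h6]
  calc ‖Th P s ξ x‖ ≤ P.2 * (2 * q * ‖ξ‖) * Real.exp (-(2 * Real.pi * P.2 * q)) := h3
    _ = (P.2 * (2 * q) * Real.exp (-y)) * (‖ξ‖ * Real.exp (-y)) := by rw [h4]; ring
    _ ≤ 1 * (‖ξ‖ * Real.exp (-y)) :=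
        mul_le_mul_of_nonneg_right h5 (mul_nonneg hN (Real.exp_pos _).le)
    _ = ‖ξ‖ * Real.exp (-y) := one_mul _

theorem t15r {P : ℂ × ℝ} (hP : P ∈ H3) {s ρ : ℝ} (h1 : 1 ≤ s) (h2 : s ≤ ρ) (ξ : ℂ × ℝ) (x : ℂ × ℂ) :
    ‖Th P s ξ x‖ ≤ ‖ξ‖ * Real.exp (-(Real.pi * P.2 / ρ * ‖x‖ ^ 2)) := by
  have ht : 0 < P.2 := hP
  have hs : 0 < s := by linarith
  have hρ : 0 < ρ := by linarith
  refine (t15 hP hs ξ x).trans (mul_le_mul_of_nonneg_left ?_ (norm_nonneg _))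
  rw [Real.exp_le_exp, neg_le_neg_iff]
  have h3 : ρ⁻¹ * ‖x‖ ^ 2 ≤ s * ‖x.1‖ ^ 2 + s⁻¹ * ‖x.2‖ ^ 2 := by
    have hs1 : ρ⁻¹ ≤ s⁻¹ := inv_anti₀ hs h2
    have hs2 : ρ⁻¹ ≤ s := (inv_le_one_of_one_le₀ (h1.trans h2)).trans h1
    have ha : 0 ≤ ‖x.1‖ ^ 2 := by positivity
    have hb : 0 ≤ ‖x.2‖ ^ 2 := by positivity
    have hsi : 0 < s⁻¹ := inv_pos.2 hs
    rw [Prod.norm_def]
    rcases max_choice ‖x.1‖ ‖x.2‖ with h | h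
    · rw [h]
      have := mul_le_mul_of_nonneg_right hs2 ha
      have := mul_nonneg hsi.le hb
      linarith
    · rw [h]
      have := mul_le_mul_of_nonneg_right hs1 hb
      have := mul_nonneg hs.le ha
      linarith
  have h4 : 0 ≤ Real.pi * P.2 := by positivity
  calc Real.pi * P.2 / ρ * ‖x‖ ^ 2 = Real.pi * P.2 * (ρ⁻¹ * ‖x‖ ^ 2) := by ring
    _ ≤ _ := mul_le_mul_of_nonneg_left h3 h4

theorem t15c (P : ℂ × ℝ) (s : ℝ) (ξ : ℂ × ℝ) : Continuous fun x : ℂ × ℂ => Th P s ξ x := by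
  unfold Th EE eT
  fun_prop

theorem t15s (P : ℂ × ℝ) (ξ : ℂ × ℝ) (x : ℂ × ℂ) : ContinuousOn (fun s : ℝ => Th P s ξ x) (Set.Ioi 0) := by
  have h1 : ContinuousOn (fun s : ℝ => s⁻¹) (Set.Ioi 0) :=
    continuousOn_inv₀.mono fun s hs => (ne_of_gt (Set.mem_Ioi.1 hs) : s ≠ 0)
  have h2 : ContinuousOn (fun s : ℝ => ((s : ℂ))⁻¹) (Set.Ioi 0) := by
    have h3 : (fun s : ℝ => ((s : ℂ))⁻¹) = fun s : ℝ => ((s⁻¹ : ℝ) : ℂ) := by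
      funext s
      rw [Complex.ofReal_inv]
    rw [h3]
    exact Complex.continuous_ofReal.comp_continuousOn h1
  unfold Th EE
  fun_prop

end Pool.Agent.H2S
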