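import Pool.Agent.Lib.H2S.T13A
import Pool.Agent.Lib.H2S.T13B
import Pool.Agent.Lib.H2S.T15

/-!
# H2S, chunk T13 (size S/M): the Fourier transform of `Th`

The function `x ↦ Th P s ξ x * exp (2 π I pr x y)` on `ℂ × ℂ` is continuous (`t15c`) and its norm is at most (`t15`)
`‖ξ‖ * exp (- π t s ‖x₁‖ ^ 2) * exp (- π t s⁻¹ ‖x₂‖ ^ 2)`, a product of integrable functions (`t10i` with `β = γ = 0`, `j = 0` and
`Integrable.norm`; `Integrable.mul_prod`): it is integrable, and `MeasureTheory.integral_prod_symm` (inner integral over the FIRST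
variable) with `t13a` for the inner and `t13b` for the outer integral gives `t13`.  `Measure.volume_eq_prod`.
-/

set_option autoImplicit false
namespace Pool.Agent.H2S
open Complex MeasureTheory

theorem t13 {P : ℂ × ℝ} (hP : P ∈ H3) {s : ℝ} (hs : 0 < s) (ξ : ℂ × ℝ) (y : ℂ × ℂ) :
    ∫ x : ℂ × ℂ, Th P s ξ x * Complex.exp (2 * Real.pi * I * (pr x y : ℝ)) =
      (1 / 4 : ℂ) * Th (wi P) s (dwi P ξ) y := by
  have ht : 0 < P.2 := hP
  have hpi := Real.pi_pos
  have hg : ∀ a : ℝ, 0 < a → Integrable fun u : ℂ => Real.exp (-(a * ‖u‖ ^ 2)) := fun a ha => by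
    have h := (t10i ha 0 0 0 (by norm_num)).norm
    refine h.congr (Filter.Eventually.of_forall fun u => ?_)
    beta_reduce
    have e : -(a : ℂ) * (‖u‖ : ℂ) ^ 2 + 0 * u + 0 * (starRingEnd ℂ) u = ((-(a * ‖u‖ ^ 2) : ℝ) : ℂ) := by
      push_cast
      ring
    rw [pow_zero, one_mul, e, ← Complex.ofReal_exp, Complex.norm_real, Real.norm_of_nonneg (Real.exp_nonneg _)]
  have hint : Integrable (fun x : ℂ × ℂ => Th P s ξ x * Complex.exp (2 * Real.pi * I * (pr x y : ℝ)))
      ((volume : Measure ℂ).prod volume) := by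
    have h1 := ((hg (Real.pi * P.2 * s) (by positivity)).mul_prod (hg (Real.pi * P.2 * s⁻¹) (by positivity))).const_mul ‖ξ‖
    refine h1.mono' ?_ (Filter.Eventually.of_forall fun x => ?_)
    · refine Continuous.aestronglyMeasurable ?_
      have h2 : Continuous fun x : ℂ × ℂ => ((pr x y : ℝ) : ℂ) := by
        unfold pr
        fun_prop
      exact (t15c P s ξ).mul (Complex.continuous_exp.comp (continuous_const.mul h2))
    · have h2 : ‖Complex.exp (2 * Real.pi * I * (pr x y : ℝ))‖ = 1 := by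
        have e : (2 * Real.pi * I * (pr x y : ℝ) : ℂ) = ((2 * Real.pi * pr x y : ℝ) : ℂ) * I := by
          push_cast
          ring
        rw [e, Complex.norm_exp_ofReal_mul_I]
      rw [norm_mul, h2, mul_one]
      refine (t15 hP hs ξ x).trans (le_of_eq ?_)
      rw [← Real.exp_add]
      congr 2
      ring
  rw [Measure.volume_eq_prod, integral_prod_symm _ hint]
  have h1 : ∀ v : ℂ, ∫ u : ℂ, Th P s ξ (u, v) * Complex.exp (2 * Real.pi * I * (pr (u, v) y : ℝ)) = Ti P s ξ y v := fun v =>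
    t13a hP hs ξ y v
  simp only [h1]
  exact t13b hP hs ξ y

end Pool.Agent.H2S
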