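import Pool.Agent.Lib.H2S.T10
import Pool.Agent.Lib.H2S.T13D

/-!
# H2S, chunk T13A (size M): integration over the first variable

Notation `z = P.1`, `t = P.2 > 0`, `β = 2 π I (z v + y.2)`, `γ = 2 π I conj (z v + y.2)`, `a = 2 π t s`.
`eT w = exp (2 π I (w + conj w))` (`4 π Re w = 2 π (w + conj w)`), and `pr x y = (x₁ y₂ + x₂ y₁) + conj`, so
`Th P s ξ (u, v) * exp (2 π I pr (u, v) y) = t (I s ζ u ^ 2 - 2 θ conj v u + I s⁻¹ conj ζ conj v ^ 2) *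
 exp (- a ‖u‖ ^ 2 + β u + γ conj u) * K`,   `K = exp (- 2 π t s⁻¹ ‖v‖ ^ 2 + 2 π I (v y₁ + conj (v y₁)))`.
(First show this identity for every `u`; all exponentials are combined with `Complex.exp_add`; `‖v‖ ^ 2 = v conj v`.)
By `t10`, `t10i` for `j = 2, 1, 0` (`integral_add`, `integral_sub`, `integral_const_mul`, `integral_mul_const`):
`∫ = t (π / a) (I s ζ (γ / a) ^ 2 - 2 θ conj v (γ / a) + I s⁻¹ conj ζ conj v ^ 2) exp (β γ / a) * K`,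
`t π / a = 1 / (2 s)`, `γ / a = I conj (z v + y₂) / (t s)`, `β γ / a = - 2 π ‖z v + y₂‖ ^ 2 / (t s)` and
`‖z v + y₂‖ ^ 2 = (z v + y₂) (conj z conj v + conj y₂)`.  Expanding the exponent gives `Ti`.
-/

set_option autoImplicit false
namespace Pool.Agent.H2S
open Complex MeasureTheory

theorem t13a_three {f0 f1 f2 : ℂ → ℂ} (i0 : Integrable f0) (i1 : Integrable f1) (i2 : Integrable f2) {c2 c1 c0 : ℂ} :
    ∫ u, (c2 * f2 u + c1 * f1 u + c0 * f0 u) = c2 * (∫ u, f2 u) + c1 * (∫ u, f1 u) + c0 * ∫ u, f0 u := by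
  have h1 : Integrable fun u => c2 * f2 u + c1 * f1 u := (i2.const_mul c2).add (i1.const_mul c1)
  rw [integral_add h1 (i0.const_mul c0), integral_add (i2.const_mul c2) (i1.const_mul c1), integral_const_mul,
    integral_const_mul, integral_const_mul]

theorem t13a_eT (w : ℂ) : eT w = Complex.exp (2 * Real.pi * I * (w + (starRingEnd ℂ) w)) := by
  unfold eT
  congr 1
  rw [Complex.add_conj]
  push_cast
  ring

theorem t13a_pr (x y : ℂ × ℂ) : Complex.exp (2 * Real.pi * I * (pr x y : ℝ)) =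
    Complex.exp (2 * Real.pi * I * ((x.1 * y.2 + x.2 * y.1) + (starRingEnd ℂ) (x.1 * y.2 + x.2 * y.1))) := by
  unfold pr
  congr 1
  rw [Complex.add_conj]

theorem t13a_ex (z zc v vc y1 y1c y2 y2c t s p : ℂ) (ht : t ≠ 0) (hs : s ≠ 0) (hp : p ≠ 0) :
    -(2 * p * (t * (s⁻¹ * (v * vc)))) + 2 * p * I * (v * y1 + vc * y1c) +
      2 * p * I * (z * v + y2) * (2 * p * I * (zc * vc + y2c)) / (2 * p * t * s) =
    -(2 * p * (z * zc + t ^ 2) / (t * s)) * (v * vc) + (2 * p * I * y1 - 2 * p * z * y2c / (t * s)) * v +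
      (2 * p * I * y1c - 2 * p * zc * y2 / (t * s)) * vc + -(2 * p * (y2 * y2c) / (t * s)) := by
  have hI : I ^ 2 = -1 := Complex.I_sq
  field_simp
  linear_combination (z * v + y2) * (zc * vc + y2c) * hI

theorem t13a {P : ℂ × ℝ} (hP : P ∈ H3) {s : ℝ} (hs : 0 < s) (ξ : ℂ × ℝ) (y : ℂ × ℂ) (v : ℂ) :
    ∫ u : ℂ, Th P s ξ (u, v) * Complex.exp (2 * Real.pi * I * (pr (u, v) y : ℝ)) = Ti P s ξ y v := by
  have ht : 0 < P.2 := hP
  have hpi := Real.pi_pos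
  have ha : 0 < 2 * Real.pi * P.2 * s := by positivity
  have htc : (P.2 : ℂ) ≠ 0 := Complex.ofReal_ne_zero.2 ht.ne'
  have hsc : (s : ℂ) ≠ 0 := Complex.ofReal_ne_zero.2 hs.ne'
  have hpc : (Real.pi : ℂ) ≠ 0 := Complex.ofReal_ne_zero.2 hpi.ne'
  obtain ⟨β, hβ⟩ : ∃ β : ℂ, β = 2 * Real.pi * I * (P.1 * v + y.2) := ⟨_, rfl⟩
  obtain ⟨γ, hγ⟩ : ∃ γ : ℂ, γ = 2 * Real.pi * I * ((starRingEnd ℂ) P.1 * (starRingEnd ℂ) v + (starRingEnd ℂ) y.2) := ⟨_, rfl⟩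
  obtain ⟨K, hK⟩ : ∃ K : ℂ, K = Complex.exp (-(2 * Real.pi * (P.2 * ((s : ℂ)⁻¹ * (v * (starRingEnd ℂ) v)))) +
    2 * Real.pi * I * (v * y.1 + (starRingEnd ℂ) v * (starRingEnd ℂ) y.1)) := ⟨_, rfl⟩
  have hv : ((‖v‖ : ℝ) : ℂ) ^ 2 = v * (starRingEnd ℂ) v := (Complex.mul_conj' v).symm
  have hpt : ∀ u : ℂ, Th P s ξ (u, v) * Complex.exp (2 * Real.pi * I * (pr (u, v) y : ℝ)) =
      (P.2 * K * (I * s * ξ.1)) * (u ^ 2 * Complex.exp (-((2 * Real.pi * P.2 * s : ℝ) : ℂ) * (‖u‖ : ℂ) ^ 2 + β * u + γ * (starRingEnd ℂ) u)) +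
      (P.2 * K * (-2 * ξ.2 * (starRingEnd ℂ) v)) * (u ^ 1 * Complex.exp (-((2 * Real.pi * P.2 * s : ℝ) : ℂ) * (‖u‖ : ℂ) ^ 2 + β * u + γ * (starRingEnd ℂ) u)) +
      (P.2 * K * (I * (s : ℂ)⁻¹ * (starRingEnd ℂ) ξ.1 * (starRingEnd ℂ) v ^ 2)) *
        (u ^ 0 * Complex.exp (-((2 * Real.pi * P.2 * s : ℝ) : ℂ) * (‖u‖ : ℂ) ^ 2 + β * u + γ * (starRingEnd ℂ) u)) := fun u => by
    have hE : Complex.exp (2 * Real.pi * I * (P.1 * (u * v) + (starRingEnd ℂ) (P.1 * (u * v)))) *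
        Complex.exp ((-(2 * Real.pi * P.2 * (s * ‖u‖ ^ 2 + s⁻¹ * ‖v‖ ^ 2)) : ℝ) : ℂ) *
        Complex.exp (2 * Real.pi * I * ((u * y.2 + v * y.1) + (starRingEnd ℂ) (u * y.2 + v * y.1))) =
        K * Complex.exp (-((2 * Real.pi * P.2 * s : ℝ) : ℂ) * (‖u‖ : ℂ) ^ 2 + β * u + γ * (starRingEnd ℂ) u) := by
      rw [hK, ← Complex.exp_add, ← Complex.exp_add, ← Complex.exp_add, hβ, hγ]
      congr 1
      push_cast
      rw [hv]
      simp only [map_add, map_mul]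
      ring
    unfold Th EE
    beta_reduce
    rw [t13a_eT, t13a_pr, Complex.ofReal_exp]
    dsimp only
    have hr : ∀ A B C D E' : ℂ, A * B * (C * D) * E' = A * B * (C * D * E') := fun A B C D E' => by ring
    rw [hr, hE]
    ring
  simp only [hpt]
  have i2 := t10i ha β γ 2 (by norm_num)
  have i1 := t10i ha β γ 1 (by norm_num)
  have i0 := t10i ha β γ 0 (by norm_num)
  rw [t13a_three i0 i1 i2, t10 ha β γ 2 (by norm_num), t10 ha β γ 1 (by norm_num), t10 ha β γ 0 (by norm_num)]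
  have e1 : (P.2 : ℂ) * (Real.pi / ((2 * Real.pi * P.2 * s : ℝ) : ℂ)) = (2 * s : ℂ)⁻¹ := by
    push_cast
    field_simp
  have e2 : γ / ((2 * Real.pi * P.2 * s : ℝ) : ℂ) =
      I * ((starRingEnd ℂ) P.1 * (starRingEnd ℂ) v + (starRingEnd ℂ) y.2) / (P.2 * s) := by
    rw [hγ]
    push_cast
    field_simp
  have e3 : K * Complex.exp (β * γ / ((2 * Real.pi * P.2 * s : ℝ) : ℂ)) =
      Complex.exp (-((2 * Real.pi * (‖P.1‖ ^ 2 + P.2 ^ 2) / (P.2 * s) : ℝ) : ℂ) * (‖v‖ : ℂ) ^ 2 +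
    (2 * Real.pi * I * y.1 - 2 * Real.pi * P.1 * (starRingEnd ℂ) y.2 / (P.2 * s)) * v +
    (2 * Real.pi * I * (starRingEnd ℂ) y.1 - 2 * Real.pi * (starRingEnd ℂ) P.1 * y.2 / (P.2 * s)) * (starRingEnd ℂ) v) *
  Complex.exp (-((2 * Real.pi * ‖y.2‖ ^ 2 / (P.2 * s) : ℝ) : ℂ)) := by
    rw [hK, ← Complex.exp_add, ← Complex.exp_add]
    congr 1
    have h := t13a_ex P.1 ((starRingEnd ℂ) P.1) v ((starRingEnd ℂ) v) y.1 ((starRingEnd ℂ) y.1) y.2 ((starRingEnd ℂ) y.2) P.2 s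
      Real.pi htc hsc hpc
    have hz : ((‖P.1‖ : ℝ) : ℂ) ^ 2 = P.1 * (starRingEnd ℂ) P.1 := (Complex.mul_conj' P.1).symm
    have hy : ((‖y.2‖ : ℝ) : ℂ) ^ 2 = y.2 * (starRingEnd ℂ) y.2 := (Complex.mul_conj' y.2).symm
    push_cast
    rw [hz, hy, hv, hβ, hγ]
    exact h
  calc _ = ((P.2 : ℂ) * (Real.pi / ((2 * Real.pi * P.2 * s : ℝ) : ℂ))) *
        (I * s * ξ.1 * (γ / ((2 * Real.pi * P.2 * s : ℝ) : ℂ)) ^ 2 -
          2 * ξ.2 * (γ / ((2 * Real.pi * P.2 * s : ℝ) : ℂ)) * (starRingEnd ℂ) v +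
          I * (s : ℂ)⁻¹ * (starRingEnd ℂ) ξ.1 * (starRingEnd ℂ) v ^ 2) *
        (K * Complex.exp (β * γ / ((2 * Real.pi * P.2 * s : ℝ) : ℂ))) := by ring
    _ = _ := by
        rw [e1, e2, e3]
        unfold Ti
        ring

end Pool.Agent.H2S
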