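import Pool.Agent.Lib.H2S.TD

/-!
# H2S, chunk T14 (size M): change of variables `ℝ ^ 4 → ℂ × ℂ`

`u ↦ lr b u = ∑ u j • b j` is linear `(Fin 4 → ℝ) → ℂ × ℂ`; it is injective because `u j = pr (lr b u) (b' j)` (`t14c`; `pr` is additive and
real-homogeneous in the first variable), and both spaces have real dimension `4` (`Complex.finrank_real_complex`,
`Module.finrank_prod`, `Module.finrank_fin_fun`), so it is a continuous linear equivalence `L`
(`LinearEquiv.ofInjectiveOfFinrankEq`-like: `LinearMap.linearEquivOfInjective`, `LinearEquiv.toContinuousLinearEquiv`).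
The image of Lebesgue measure under `L` is an additive Haar measure on `ℂ × ℂ` (instance for
`ContinuousLinearEquiv`: `ContinuousLinearEquiv.isAddHaarMeasure_map`), so it is `c • volume` with `c : ℝ≥0` (or `ℝ≥0∞`), `c ≠ 0`
(`MeasureTheory.Measure.isAddLeftInvariant_eq_smul`, `Measure.addHaarScalarFactor`); then
`∫ g (L u) = ∫ g d(map L volume) = c * ∫ g` (`MeasurableEquiv`/`MeasurableEmbedding.integral_map`, `integral_smul_measure` /
`integral_smul_nnreal_measure`).
-/

set_option autoImplicit false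
namespace Pool.Agent.H2S
open Complex MeasureTheory

/-- The pairing as a linear map in the first variable. -/
noncomputable def t14_L (y : ℂ × ℂ) : ℂ × ℂ →ₗ[ℝ] ℝ where
  toFun x := pr x y
  map_add' x x' := by
    unfold pr
    simp only [Prod.fst_add, Prod.snd_add, add_mul, Complex.add_re]
    ring
  map_smul' c x := by
    unfold pr
    simp only [Prod.smul_fst, Prod.smul_snd, Complex.real_smul, smul_eq_mul, RingHom.id_apply, mul_assoc,
      Complex.add_re, Complex.re_ofReal_mul]
    ring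

theorem t14c {b b' : Fin 4 → ℂ × ℂ} (hb : Dual b b') (u : Fin 4 → ℝ) (j : Fin 4) : pr (lr b u) (b' j) = u j := by
  have h1 : pr (lr b u) (b' j) = ∑ i, u i * pr (b i) (b' j) := by
    have h2 : t14_L (b' j) (lr b u) = ∑ i, u i * t14_L (b' j) (b i) := by
      unfold lr
      rw [map_sum]
      refine Finset.sum_congr rfl fun i _ => ?_
      rw [map_smul, smul_eq_mul]
    exact h2
  have hb' : ∀ i j, pr (b i) (b' j) = if i = j then 1 else 0 := hb
  rw [h1]
  simp only [hb']
  rw [Finset.sum_eq_single j]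
  · simp
  · intro i _ hi
    rw [if_neg hi, mul_zero]
  · intro h
    exact absurd (Finset.mem_univ j) h

theorem t14l (b : Fin 4 → ℂ × ℂ) (m : Fin 4 → ℤ) : lp b m = lr b (fun j => (m j : ℝ)) := by
  rfl

theorem t14 {b b' : Fin 4 → ℂ × ℂ} (hb : Dual b b') :
    ∃ c : ℝ, 0 < c ∧ ∀ g : ℂ × ℂ → ℂ, ∫ u : Fin 4 → ℝ, g (lr b u) = (c : ℂ) * ∫ x : ℂ × ℂ, g x := by
  let f : (Fin 4 → ℝ) →ₗ[ℝ] ℂ × ℂ := Fintype.linearCombination ℝ b
  have hf : ∀ u, f u = lr b u := fun u => Fintype.linearCombination_apply ℝ b u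
  have hinj : Function.Injective f := by
    intro u v huv
    rw [hf, hf] at huv
    funext j
    rw [← t14c hb u j, huv, t14c hb v j]
  have hdim : Module.finrank ℝ (Fin 4 → ℝ) = Module.finrank ℝ (ℂ × ℂ) := by
    rw [Module.finrank_fin_fun, Module.finrank_prod, Complex.finrank_real_complex]
  let e : (Fin 4 → ℝ) ≃L[ℝ] ℂ × ℂ := (f.linearEquivOfInjective hinj hdim).toContinuousLinearEquiv
  have he : ∀ u, e u = lr b u := fun u => hf u
  have hA : (Measure.map e (volume : Measure (Fin 4 → ℝ))).IsAddHaarMeasure :=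
    ContinuousLinearEquiv.isAddHaarMeasure_map e volume
  have hV : (volume : Measure (ℂ × ℂ)).IsAddHaarMeasure := by
    rw [Measure.volume_eq_prod]
    infer_instance
  obtain ⟨c, hc, hceq⟩ : ∃ c : NNReal, 0 < c ∧
      Measure.map e (volume : Measure (Fin 4 → ℝ)) = c • (volume : Measure (ℂ × ℂ)) :=
    ⟨_, Measure.addHaarScalarFactor_pos_of_isAddHaarMeasure (Measure.map e (volume : Measure (Fin 4 → ℝ)))
      (volume : Measure (ℂ × ℂ)), Measure.isAddLeftInvariant_eq_smul _ _⟩
  refine ⟨c, NNReal.coe_pos.2 hc, fun g => ?_⟩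
  have h3 : ∫ u : Fin 4 → ℝ, g (lr b u) = ∫ x, g x ∂(Measure.map e (volume : Measure (Fin 4 → ℝ))) := by
    have h4 := MeasureTheory.integral_map_equiv (μ := (volume : Measure (Fin 4 → ℝ)))
      e.toHomeomorph.toMeasurableEquiv g
    exact h4.symm
  rw [h3, hceq, integral_smul_nnreal_measure]
  rfl

end Pool.Agent.H2S
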