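import Pool.Agent.Lib.H2S.T14
import Pool.Agent.Lib.H53M.TP

/-!
# H2S, chunk T16 (size S/M): lower bound for lattice points, convergence of lattice sums

`t16`: `|u j| = |pr (lr b u) (b' j)| ≤ 4 ‖lr b u‖ ‖b' j‖` (`t14c`; `|pr x y| = 2 |Re (x₁ y₂ + x₂ y₁)| ≤ 4 ‖x‖ ‖y‖`,
`Complex.abs_re_le_norm`, `norm_fst_le`, `norm_snd_le`), sum over `j`: `∑ |u j| ≤ 4 (∑ ‖b' j‖) ‖lr b u‖`; `δ = (4 ∑ ‖b' j‖ + 1)⁻¹`.
`t16s`: `c ‖lp b m‖ ^ 2 ≥ c δ ^ 2 (∑ |m j|) ^ 2 ≥ c δ ^ 2 ∑ |m j|` (`∑ |m j|` is a natural number `n`, `n ^ 2 ≥ n`), `t14l` and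
`H53M.TP_summable 4 (c δ ^ 2)`, `Summable.of_nonneg_of_le`.
`t16d`: for `m ≠ 0` some `|m j| ≥ 1`, so `‖lp b m‖ ≥ δ`.
-/

set_option autoImplicit false
namespace Pool.Agent.H2S
open Complex MeasureTheory

theorem t16_pr (x y : ℂ × ℂ) : |pr x y| ≤ 4 * ‖x‖ * ‖y‖ := by
  unfold pr
  rw [abs_mul, abs_two]
  have h1 : |(x.1 * y.2 + x.2 * y.1).re| ≤ ‖x‖ * ‖y‖ + ‖x‖ * ‖y‖ := by
    refine (Complex.abs_re_le_norm _).trans ((norm_add_le _ _).trans (add_le_add ?_ ?_))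
    · rw [norm_mul]
      exact mul_le_mul (norm_fst_le x) (norm_snd_le y) (norm_nonneg _) (norm_nonneg _)
    · rw [norm_mul]
      exact mul_le_mul (norm_snd_le x) (norm_fst_le y) (norm_nonneg _) (norm_nonneg _)
  linarith

theorem t16_one {m : Fin 4 → ℤ} (hm : m ≠ 0) : 1 ≤ ∑ j, |(m j : ℝ)| := by
  obtain ⟨j, hj⟩ : ∃ j, m j ≠ 0 := by
    by_contra h
    push Not at h
    exact hm (funext h)
  have h1 : (1 : ℝ) ≤ |(m j : ℝ)| := by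
    have h2 : (1 : ℤ) ≤ |m j| := Int.one_le_abs hj
    exact_mod_cast h2
  refine h1.trans (Finset.single_le_sum (f := fun j => |(m j : ℝ)|) (fun i _ => abs_nonneg _) (Finset.mem_univ j))

theorem t16 {b b' : Fin 4 → ℂ × ℂ} (hb : Dual b b') :
    ∃ δ : ℝ, 0 < δ ∧ ∀ u : Fin 4 → ℝ, δ * ∑ j, |u j| ≤ ‖lr b u‖ := by
  obtain ⟨S, hS⟩ : ∃ S : ℝ, S = 4 * ∑ j, ‖b' j‖ + 1 := ⟨_, rfl⟩
  have hS0 : 0 < S := by
    have : 0 ≤ ∑ j, ‖b' j‖ := Finset.sum_nonneg fun j _ => norm_nonneg _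
    linarith
  refine ⟨S⁻¹, inv_pos.2 hS0, fun u => ?_⟩
  have h1 : ∑ j, |u j| ≤ S * ‖lr b u‖ := by
    calc ∑ j, |u j| = ∑ j, |pr (lr b u) (b' j)| := by
          refine Finset.sum_congr rfl fun j _ => ?_
          rw [t14c hb u j]
      _ ≤ ∑ j, 4 * ‖lr b u‖ * ‖b' j‖ := Finset.sum_le_sum fun j _ => t16_pr _ _
      _ = (4 * ∑ j, ‖b' j‖) * ‖lr b u‖ := by
          rw [← Finset.mul_sum]
          ring
      _ ≤ S * ‖lr b u‖ := by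
          refine mul_le_mul_of_nonneg_right ?_ (norm_nonneg _)
          linarith
  rw [inv_mul_le_iff₀ hS0]
  exact h1

theorem t16s {b b' : Fin 4 → ℂ × ℂ} (hb : Dual b b') {c : ℝ} (hc : 0 < c) :
    Summable fun m : Fin 4 → ℤ => Real.exp (-(c * ‖lp b m‖ ^ 2)) := by
  obtain ⟨δ, hδ, h⟩ := t16 hb
  have h1 := H53M.TP_summable 4 (c * δ ^ 2) (by positivity)
  refine Summable.of_nonneg_of_le (fun m => (Real.exp_pos _).le) (fun m => ?_) h1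
  rw [Real.exp_le_exp, neg_le_neg_iff]
  have h2 := h (fun j => (m j : ℝ))
  rw [← t14l] at h2
  obtain ⟨n, hn⟩ : ∃ n : ℝ, n = ∑ j, |(m j : ℝ)| := ⟨_, rfl⟩
  rw [← hn] at h2 ⊢
  have hn0 : 0 ≤ n := by rw [hn]; exact Finset.sum_nonneg fun j _ => abs_nonneg _
  have hn2 : n ≤ n ^ 2 := by
    have h3 : n = ((∑ j, |m j| : ℤ) : ℝ) := by rw [hn]; push_cast; rfl
    rw [h3]
    exact_mod_cast Int.le_self_sq (∑ j, |m j|)
  have h4 : (δ * n) ^ 2 ≤ ‖lp b m‖ ^ 2 := pow_le_pow_left₀ (by positivity) h2 2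
  calc c * δ ^ 2 * n ≤ c * δ ^ 2 * n ^ 2 := mul_le_mul_of_nonneg_left hn2 (by positivity)
    _ = c * (δ * n) ^ 2 := by ring
    _ ≤ c * ‖lp b m‖ ^ 2 := mul_le_mul_of_nonneg_left h4 hc.le

theorem t16d {b b' : Fin 4 → ℂ × ℂ} (hb : Dual b b') :
    ∃ δ : ℝ, 0 < δ ∧ ∀ m : Fin 4 → ℤ, m ≠ 0 → δ ≤ ‖lp b m‖ := by
  obtain ⟨δ, hδ, h⟩ := t16 hb
  refine ⟨δ, hδ, fun m hm => ?_⟩
  have h2 := h (fun j => (m j : ℝ))
  rw [← t14l] at h2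
  refine le_trans ?_ h2
  have h3 := mul_le_mul_of_nonneg_left (t16_one hm) hδ.le
  rwa [mul_one] at h3

theorem t16i {b b' : Fin 4 → ℂ × ℂ} (hb : Dual b b') (m k : Fin 4 → ℤ) (h : lp b m = lp b k) : m = k := by
  funext j
  rw [t14l, t14l] at h
  have h1 := t14c hb (fun j => (m j : ℝ)) j
  rw [h, t14c hb (fun j => (k j : ℝ)) j] at h1
  exact_mod_cast h1.symm

end Pool.Agent.H2S
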