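import Pool.Agent.Lib.H2S.T15
import Pool.Agent.Lib.H2S.T16

/-!
# H2S, chunk T17 (size S/M): exponential decay of `Th` on `ℝ ^ 4`

Continuity: `t15c` composed with the continuous map `u ↦ lr b (M u)` (finite sum, `fun_prop`/`continuity`).
Decay: `q = s ‖x₁‖ ^ 2 + s⁻¹ ‖x₂‖ ^ 2 ≥ c₁ ‖x‖ ^ 2`, `c₁ = min s s⁻¹`, and `‖lr b (M u)‖ ≥ δ M ∑ |u j|` (`t16`), so by `t15`
`‖Th‖ ≤ ‖ξ‖ exp (- ε (∑ |u j|) ^ 2)` with `ε = π t c₁ δ ^ 2 M ^ 2 > 0`, and `y ^ 2 ≥ y - 1` (`y ^ 2 - y + 1 ≥ 0`), so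
`≤ ‖ξ‖ exp ε * exp (- ε ∑ |u j|)`: `H53M.EDec`.
-/

set_option autoImplicit false
namespace Pool.Agent.H2S
open Complex MeasureTheory

theorem t17_norm {s : ℝ} (hs : 0 < s) (x : ℂ × ℂ) :
    min s s⁻¹ * ‖x‖ ^ 2 ≤ s * ‖x.1‖ ^ 2 + s⁻¹ * ‖x.2‖ ^ 2 := by
  have hs' : 0 < s⁻¹ := inv_pos.2 hs
  have h1 : 0 ≤ s * ‖x.1‖ ^ 2 := by positivity
  have h2 : 0 ≤ s⁻¹ * ‖x.2‖ ^ 2 := by positivity
  rw [Prod.norm_def]
  rcases le_total ‖x.1‖ ‖x.2‖ with h | h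
  · rw [max_eq_right h]
    have h3 : min s s⁻¹ * ‖x.2‖ ^ 2 ≤ s⁻¹ * ‖x.2‖ ^ 2 :=
      mul_le_mul_of_nonneg_right (min_le_right _ _) (by positivity)
    linarith
  · rw [max_eq_left h]
    have h3 : min s s⁻¹ * ‖x.1‖ ^ 2 ≤ s * ‖x.1‖ ^ 2 :=
      mul_le_mul_of_nonneg_right (min_le_left _ _) (by positivity)
    linarith

theorem t17 {b b' : Fin 4 → ℂ × ℂ} (hb : Dual b b') {P : ℂ × ℝ} (hP : P ∈ H3) {s : ℝ} (hs : 0 < s) (ξ : ℂ × ℝ)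
    {M : ℝ} (hM : 0 < M) :
    Continuous (fun u : Fin 4 → ℝ => Th P s ξ (lr b (fun j => M * u j))) ∧
      H53M.EDec (fun u : Fin 4 → ℝ => Th P s ξ (lr b (fun j => M * u j))) := by
  constructor
  · have h : Continuous (fun u : Fin 4 → ℝ => lr b (fun j => M * u j)) := by
      unfold lr
      fun_prop
    exact (t15c P s ξ).comp h
  · obtain ⟨δ, hδ, hd⟩ := t16 hb
    have hs' : 0 < s⁻¹ := inv_pos.2 hs
    have hc : 0 < min s s⁻¹ := lt_min hs hs'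
    have hP' : 0 < P.2 := hP
    set ε : ℝ := Real.pi * P.2 * min s s⁻¹ * (δ * M) ^ 2 with hε
    have hε0 : 0 < ε := by
      have := Real.pi_pos
      positivity
    refine ⟨‖ξ‖ * Real.exp ε, ε, hε0, fun u => ?_⟩
    refine (t15 hP hs ξ _).trans ?_
    rw [mul_assoc ‖ξ‖, ← Real.exp_add]
    refine mul_le_mul_of_nonneg_left (Real.exp_le_exp.2 ?_) (norm_nonneg _)
    have h1 := hd (fun j => M * u j)
    have h2 : ∑ j, |M * u j| = M * ∑ j, |u j| := by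
      rw [Finset.mul_sum]
      refine Finset.sum_congr rfl fun j _ => ?_
      rw [abs_mul, abs_of_pos hM]
    rw [h2] at h1
    have hy : 0 ≤ ∑ j, |u j| := Finset.sum_nonneg fun j _ => abs_nonneg _
    set y : ℝ := ∑ j, |u j| with hydef
    have h3 : (δ * (M * y)) ^ 2 ≤ ‖lr b (fun j => M * u j)‖ ^ 2 :=
      pow_le_pow_left₀ (by positivity) h1 2
    have h4 := t17_norm hs (lr b (fun j => M * u j))
    have h5 : min s s⁻¹ * (δ * (M * y)) ^ 2 ≤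
        s * ‖(lr b (fun j => M * u j)).1‖ ^ 2 + s⁻¹ * ‖(lr b (fun j => M * u j)).2‖ ^ 2 :=
      (mul_le_mul_of_nonneg_left h3 hc.le).trans h4
    have h6 : Real.pi * P.2 * (min s s⁻¹ * (δ * (M * y)) ^ 2) ≤ Real.pi * P.2 *
        (s * ‖(lr b (fun j => M * u j)).1‖ ^ 2 + s⁻¹ * ‖(lr b (fun j => M * u j)).2‖ ^ 2) :=
      mul_le_mul_of_nonneg_left h5 (mul_nonneg Real.pi_pos.le hP'.le)
    have h7 : Real.pi * P.2 * (min s s⁻¹ * (δ * (M * y)) ^ 2) = ε * y ^ 2 := by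
      rw [hε]
      ring
    have h8 : ε * (y - 1) ≤ ε * y ^ 2 := by
      refine mul_le_mul_of_nonneg_left ?_ hε0.le
      nlinarith [sq_nonneg (y - 1)]
    linarith

end Pool.Agent.H2S
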