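import Pool.Agent.Lib.H2S.T13
import Pool.Agent.Lib.H2S.T14
import Pool.Agent.Lib.H53M.TP0

/-!
# H2S, chunk T18 (size M): the Fourier transform of `u ↦ Th P s ξ (lr b (M u))` on `ℝ ^ 4`

Let `c` be the constant of `t14`, `κ = c / 4`.  Let `y = lp (M⁻¹ b') m`, and
`g x = Th P s ξ x * exp (- 2 π I pr x y)`.  For `v = M u`: `∑ m j u j = ∑ m j v j / M = pr (lr b v) y`
(`t14c`: `v j = pr (lr b v) (b' j)`, `pr` is additive and real-homogeneous in the second variable), so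
`FT f m = ∫ g (lr b (M u)) du = M ^ (-4) ∫ g (lr b v) dv = M ^ (-4) c ∫ g x dx` (`MeasureTheory.Measure.integral_comp_smul`,
`Module.finrank_fin_fun`; `t14`), and `pr x (-y) = - pr x y`, so by `t13` at `- y`: `∫ g = (1 / 4) Th (wi P) s (dwi P ξ) (-y)`, and
`Th` is even in its last argument (`(-x₁) ^ 2`, `(-x₁) conj (-x₂)`, ..: `simp [Th, EE]`).
-/

set_option autoImplicit false
namespace Pool.Agent.H2S
open Complex MeasureTheory

theorem t18_even (P : ℂ × ℝ) (s : ℝ) (ξ : ℂ × ℝ) (x : ℂ × ℂ) : Th P s ξ (-x) = Th P s ξ x := by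
  simp [Th, EE]

theorem t18_pr_neg (x y : ℂ × ℂ) : pr x (-y) = -pr x y := by
  simp only [pr, Prod.fst_neg, Prod.snd_neg, mul_neg, Complex.neg_re, Complex.add_re]
  ring

theorem t18_pr_add (x y z : ℂ × ℂ) : pr x (y + z) = pr x y + pr x z := by
  simp only [pr, Prod.fst_add, Prod.snd_add, mul_add, Complex.add_re]
  ring

theorem t18_pr_smul (c : ℝ) (x y : ℂ × ℂ) : pr x (c • y) = c * pr x y := by
  have h1 : x.1 * (c • y).2 + x.2 * (c • y).1 = (c : ℂ) * (x.1 * y.2 + x.2 * y.1) := by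
    simp only [Prod.smul_fst, Prod.smul_snd, Complex.real_smul]
    ring
  simp only [pr]
  rw [h1, Complex.re_ofReal_mul]
  ring

theorem t18_pr_zero (x : ℂ × ℂ) : pr x 0 = 0 := by
  simp [pr]

theorem t18_pr_sum (x : ℂ × ℂ) (m : Fin 4 → ℝ) (b : Fin 4 → ℂ × ℂ) :
    pr x (∑ j, m j • b j) = ∑ j, m j * pr x (b j) := by
  rw [Fin.sum_univ_four, Fin.sum_univ_four]
  simp only [t18_pr_add, t18_pr_smul]

theorem t18 {b b' : Fin 4 → ℂ × ℂ} (hb : Dual b b') :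
    ∃ κ : ℝ, 0 < κ ∧ ∀ M : ℕ, 0 < M → ∀ P ∈ H3, ∀ s : ℝ, 0 < s → ∀ (ξ : ℂ × ℝ) (m : Fin 4 → ℤ),
      H53M.FT (fun u : Fin 4 → ℝ => Th P s ξ (lr b (fun j => (M : ℝ) * u j))) (fun j => (m j : ℝ)) =
        ((κ / (M : ℝ) ^ 4 : ℝ) : ℂ) * Th (wi P) s (dwi P ξ) (lp (fun j => ((M : ℝ)⁻¹) • b' j) m) := by
  obtain ⟨c, hc, hcg⟩ := t14 hb
  refine ⟨c / 4, by positivity, fun M hM P hP s hs ξ m => ?_⟩
  have hM0 : (M : ℝ) ≠ 0 := by positivity
  set y : ℂ × ℂ := lp (fun j => ((M : ℝ)⁻¹) • b' j) m with hy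
  set g : ℂ × ℂ → ℂ := fun x => Th P s ξ x * Complex.exp (2 * Real.pi * I * (pr x (-y) : ℝ)) with hg
  have h1 : ∀ u : Fin 4 → ℝ, Th P s ξ (lr b (fun j => (M : ℝ) * u j)) *
      Complex.exp (-(2 * Real.pi * Complex.I * ∑ j, (((m j : ℝ)) : ℂ) * (u j : ℂ))) =
      (fun v : Fin 4 → ℝ => g (lr b v)) ((M : ℝ) • u) := by
    intro u
    have e1 : (M : ℝ) • u = fun j => (M : ℝ) * u j := rfl
    have e2 : pr (lr b (fun j => (M : ℝ) * u j)) (-y) = -∑ j, (m j : ℝ) * u j := by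
      rw [t18_pr_neg, hy, lp, t18_pr_sum]
      congr 1
      refine Finset.sum_congr rfl fun j _ => ?_
      rw [t18_pr_smul, t14c hb]
      field_simp
    simp only [hg, e1, e2]
    congr 2
    push_cast
    ring
  have h2 : H53M.FT (fun u : Fin 4 → ℝ => Th P s ξ (lr b (fun j => (M : ℝ) * u j))) (fun j => (m j : ℝ)) =
      ∫ u : Fin 4 → ℝ, (fun v : Fin 4 → ℝ => g (lr b v)) ((M : ℝ) • u) := by
    unfold H53M.FT
    exact integral_congr_ae (Filter.Eventually.of_forall h1)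
  rw [h2, MeasureTheory.Measure.integral_comp_smul volume (fun v : Fin 4 → ℝ => g (lr b v)) (M : ℝ),
    Module.finrank_fin_fun, hcg, hg, t13 hP hs ξ (-y), t18_even]
  rw [abs_of_pos (by positivity : (0 : ℝ) < ((M : ℝ) ^ 4)⁻¹), Complex.real_smul]
  push_cast
  ring

end Pool.Agent.H2S
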