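import Mathlib

/-!
# H2S, chunk T19A (size M, only Mathlib): residue classes in `ℤ ^ 4`

`t19a`: the map `(r, k) ↦ (j ↦ r j + M k j)` is a bijection `(Fin 4 → Fin M) × (Fin 4 → ℤ) ≃ (Fin 4 → ℤ)`
(inverse: `Int.emod`, `Int.ediv`; or `Int.divModEquiv`), so by `Equiv.tsum_eq`, `Summable.tsum_prod` (the summability of the
composition: `Equiv.summable_iff`) and `tsum_fintype` the sum decomposes.
`t19b`: the map `r ↦ e r mod M` of `Fin 4 → Fin M` to itself is injective: if `e r = e r' + M k` then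
`r = r' + M (e⁻¹ k)` (`e⁻¹` is additive, `e⁻¹ (M • k) = M • e⁻¹ k`), so `r j = r' j mod M`, `r = r'`.  It is a bijection of a finite set
(`Finite.injective_iff_bijective`), and `g (e r) = g (e r mod M)` by `hg`: `Function.Bijective.sum_comp`.
-/

set_option autoImplicit false
namespace Pool.Agent.H2S

private noncomputable def t19a_fun {M : ℕ} (p : (Fin 4 → Fin M) × (Fin 4 → ℤ)) : Fin 4 → ℤ :=
  fun j => ((p.1 j : ℕ) : ℤ) + (M : ℤ) * p.2 j

private noncomputable def t19a_mod {M : ℕ} (hM : 0 < M) (m : Fin 4 → ℤ) : Fin 4 → Fin M :=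
  fun j => ⟨(m j % (M : ℤ)).toNat, by
    have h1 : 0 ≤ m j % (M : ℤ) := Int.emod_nonneg _ (by omega)
    have h2 : m j % (M : ℤ) < M := Int.emod_lt_of_pos _ (by omega)
    omega⟩

private theorem t19a_mod_eq {M : ℕ} (hM : 0 < M) (m : Fin 4 → ℤ) (j : Fin 4) :
    (((t19a_mod hM m j : Fin M) : ℕ) : ℤ) = m j % (M : ℤ) := by
  have h1 : 0 ≤ m j % (M : ℤ) := Int.emod_nonneg _ (by omega)
  unfold t19a_mod
  simp only
  rw [Int.toNat_of_nonneg h1]

private noncomputable def t19a_equiv {M : ℕ} (hM : 0 < M) :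
    (Fin 4 → Fin M) × (Fin 4 → ℤ) ≃ (Fin 4 → ℤ) where
  toFun := t19a_fun
  invFun m := (t19a_mod hM m, fun j => m j / (M : ℤ))
  left_inv := by
    rintro ⟨r, k⟩
    have hM' : (M : ℤ) ≠ 0 := by omega
    have hr : ∀ j, ((r j : ℕ) : ℤ) < M := fun j => by
      have := (r j).2
      omega
    have e1 : t19a_mod hM (t19a_fun (r, k)) = r := by
      funext j
      apply Fin.ext
      have h := t19a_mod_eq hM (t19a_fun (r, k)) j
      have h2 : t19a_fun (r, k) j % (M : ℤ) = ((r j : ℕ) : ℤ) := by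
        unfold t19a_fun
        simp only
        rw [Int.add_mul_emod_self_left]
        exact Int.emod_eq_of_lt (by omega) (hr j)
      rw [h2] at h
      exact_mod_cast h
    have e2 : (fun j => t19a_fun (r, k) j / (M : ℤ)) = k := by
      funext j
      unfold t19a_fun
      simp only
      rw [Int.add_mul_ediv_left _ _ hM', Int.ediv_eq_zero_of_lt (by omega) (hr j), zero_add]
    exact Prod.ext e1 e2
  right_inv := by
    intro m
    funext j
    unfold t19a_fun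
    simp only
    rw [t19a_mod_eq]
    exact Int.emod_add_mul_ediv _ _

theorem t19a {M : ℕ} (hM : 0 < M) (F : (Fin 4 → ℤ) → ℂ) (hF : Summable F) :
    ∑' m, F m = ∑ r : Fin 4 → Fin M, ∑' k : Fin 4 → ℤ, F (fun j => ((r j : ℕ) : ℤ) + (M : ℤ) * k j) := by
  rw [← (t19a_equiv hM).tsum_eq F]
  have hs : Summable (fun p : (Fin 4 → Fin M) × (Fin 4 → ℤ) => F (t19a_equiv hM p)) :=
    (t19a_equiv hM).summable_iff.2 hF
  rw [hs.tsum_prod, tsum_fintype]
  rfl

private theorem t19a_per {M : ℕ} (hM : 0 < M) (g : (Fin 4 → ℤ) → ℂ) (hg : ∀ m k, g (m + (M : ℤ) • k) = g m)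
    (m : Fin 4 → ℤ) : g (fun j => (((t19a_mod hM m j : Fin M) : ℕ) : ℤ)) = g m := by
  have h := hg (fun j => (((t19a_mod hM m j : Fin M) : ℕ) : ℤ)) (fun j => m j / (M : ℤ))
  rw [← h]
  congr 1
  funext j
  simp only [Pi.add_apply, Pi.smul_apply, smul_eq_mul]
  rw [t19a_mod_eq]
  exact Int.emod_add_mul_ediv _ _

theorem t19b {M : ℕ} (hM : 0 < M) (g : (Fin 4 → ℤ) → ℂ) (hg : ∀ m k, g (m + (M : ℤ) • k) = g m)
    (e : (Fin 4 → ℤ) ≃ (Fin 4 → ℤ)) (he : ∀ m k, e (m + k) = e m + e k) :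
    ∑ r : Fin 4 → Fin M, g (e (fun j => ((r j : ℕ) : ℤ))) = ∑ r : Fin 4 → Fin M, g (fun j => ((r j : ℕ) : ℤ)) := by
  let E : (Fin 4 → ℤ) ≃+ (Fin 4 → ℤ) := { e with map_add' := he }
  have hE : ∀ m, E m = e m := fun _ => rfl
  let φ : (Fin 4 → Fin M) → (Fin 4 → Fin M) := fun r => t19a_mod hM (e (fun j => ((r j : ℕ) : ℤ)))
  have hinj : Function.Injective φ := by
    intro r r' h
    have h1 : ∀ j, e (fun j => ((r j : ℕ) : ℤ)) j % (M : ℤ) = e (fun j => ((r' j : ℕ) : ℤ)) j % (M : ℤ) := by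
      intro j
      rw [← t19a_mod_eq hM, ← t19a_mod_eq hM]
      have := congrFun h j
      simp only [φ] at this
      rw [this]
    have h2 : ∀ j, ∃ c : ℤ, e (fun j => ((r j : ℕ) : ℤ)) j = e (fun j => ((r' j : ℕ) : ℤ)) j + (M : ℤ) * c := by
      intro j
      obtain ⟨c, hc⟩ := Int.ModEq.dvd (h1 j).symm
      exact ⟨c, by linarith⟩
    choose c hc using h2
    have h3 : e (fun j => ((r j : ℕ) : ℤ)) = e (fun j => ((r' j : ℕ) : ℤ)) + (M : ℤ) • c := by
      funext j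
      simp only [Pi.add_apply, Pi.smul_apply, smul_eq_mul]
      exact hc j
    have h4 : (fun j => ((r j : ℕ) : ℤ)) = (fun j => ((r' j : ℕ) : ℤ)) + (M : ℤ) • E.symm c := by
      apply E.injective
      rw [map_add, map_zsmul, AddEquiv.apply_symm_apply]
      exact h3
    funext j
    have h5 := congrFun h4 j
    simp only [Pi.add_apply, Pi.smul_apply, smul_eq_mul] at h5
    have hr := (r j).2
    have hr' := (r' j).2
    apply Fin.ext
    have h6 : ((r j : ℕ) : ℤ) % (M : ℤ) = ((r' j : ℕ) : ℤ) % (M : ℤ) := by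
      rw [h5, Int.add_mul_emod_self_left]
    rw [Int.emod_eq_of_lt (by omega) (by omega), Int.emod_eq_of_lt (by omega) (by omega)] at h6
    exact_mod_cast h6
  have hbij : Function.Bijective φ := Finite.injective_iff_bijective.1 hinj
  rw [← hbij.sum_comp (fun r : Fin 4 → Fin M => g (fun j => ((r j : ℕ) : ℤ)))]
  apply Finset.sum_congr rfl
  intro r _
  exact (t19a_per hM g hg _).symm

theorem t19p {M : ℕ} (hM : 0 < M) (g : (Fin 4 → ℤ) → ℂ) (hg : ∀ m k, g (m + (M : ℤ) • k) = g m) :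
    ∃ B : ℝ, ∀ m, ‖g m‖ ≤ B := by
  refine ⟨∑ r : Fin 4 → Fin M, ‖g (fun j => ((r j : ℕ) : ℤ))‖, fun m => ?_⟩
  rw [← t19a_per hM g hg m]
  exact Finset.single_le_sum (f := fun r : Fin 4 → Fin M => ‖g (fun j => ((r j : ℕ) : ℤ))‖)
    (fun _ _ => norm_nonneg _) (Finset.mem_univ (t19a_mod hM m))

end Pool.Agent.H2S
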