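import Pool.Agent.Lib.H2S.T17
import Pool.Agent.Lib.H2S.T18
import Pool.Agent.Lib.H2S.T19A

/-!
# H2S, chunk T19 (size M): Poisson summation for `Th` with a periodic weight

Take `κ` from `t18`.  Let `F m = φ m * Th P s ξ (lp b m)`: summable because `φ` is bounded (`t19p`) and by `t17` with `M = 1` and
`H53M.TP_summable_shift` (with `c = 0`; `lp b m = lr b m` by `t14l`).  By `t19a`:
`∑ F = ∑_r φ(r) ∑_k Th P s ξ (lr b (r + M k))` (`φ (r + M k) = φ r`), `lr b (r + M k) = lr b (M (c + k))` with `c = r / M`, and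
`H53M.TP` for `f u = Th P s ξ (lr b (M u))` (`t17`; the summability of the Fourier transforms is `t18` and the decay of
`Th (wi P) s (dwi P ξ)` on the lattice `M⁻¹ b'`, for which `Dual (M⁻¹ • b') (M • b)` holds: `t17`, `H53M.TP_summable_shift` again):
`∑_k f (c + k) = ∑_m FT f m * exp (2 π I ∑ m j c j) = (κ / M ^ 4) ∑_m Th (wi P) .. (lp b'' m) * exp (2 π I ∑ m j r j / M)`.
Exchange the finite sum over `r` with `∑_m` (`Summable.tsum_finsetSum`, every term is summable: the exponential has norm `1`) and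
recognise `fh M φ m` (`tsum_mul_left`, `Finset.sum_mul`).
-/

set_option autoImplicit false
namespace Pool.Agent.H2S
open Complex MeasureTheory

theorem t19_wi {P : ℂ × ℝ} (hP : P ∈ H3) : wi P ∈ H3 := by
  have h : 0 < P.2 := hP
  show 0 < P.2 / (‖P.1‖ ^ 2 + P.2 ^ 2)
  positivity

theorem t19_dual {b b' : Fin 4 → ℂ × ℂ} (hb : Dual b b') {M : ℕ} (hM : 0 < M) :
    Dual (fun j => ((M : ℝ)⁻¹) • b' j) (fun j => (M : ℝ) • b j) := by
  intro i j
  have h := hb j i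
  have hM' : (M : ℝ) ≠ 0 := by positivity
  have e : pr (((M : ℝ)⁻¹) • b' i) ((M : ℝ) • b j) = pr (b j) (b' i) := by
    unfold pr
    simp only [Prod.smul_fst, Prod.smul_snd, smul_mul_smul_comm, inv_mul_cancel₀ hM', one_smul]
    congr 2
    ring
  show pr (((M : ℝ)⁻¹) • b' i) ((M : ℝ) • b j) = _
  rw [e, h]
  by_cases hij : i = j
  · rw [if_pos hij, if_pos hij.symm]
  · rw [if_neg hij, if_neg (Ne.symm hij)]

theorem t19_sum {b b' : Fin 4 → ℂ × ℂ} (hb : Dual b b') {P : ℂ × ℝ} (hP : P ∈ H3) {s : ℝ} (hs : 0 < s) (ξ : ℂ × ℝ) :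
    Summable fun m : Fin 4 → ℤ => Th P s ξ (lp b m) := by
  have h := H53M.TP_summable_shift (t17 hb hP hs ξ one_pos).2 0
  refine h.congr fun m => ?_
  rw [t14l]
  congr 2
  funext j
  simp

theorem t19 {b b' : Fin 4 → ℂ × ℂ} (hb : Dual b b') :
    ∃ κ : ℝ, 0 < κ ∧ ∀ M : ℕ, 0 < M → ∀ φ : (Fin 4 → ℤ) → ℂ, (∀ m k, φ (m + (M : ℤ) • k) = φ m) →
      ∀ P ∈ H3, ∀ s : ℝ, 0 < s → ∀ ξ : ℂ × ℝ,
      ∑' m, φ m * Th P s ξ (lp b m) = ((κ / (M : ℝ) ^ 4 : ℝ) : ℂ) *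
        ∑' m, fh M φ m * Th (wi P) s (dwi P ξ) (lp (fun j => ((M : ℝ)⁻¹) • b' j) m) := by
  obtain ⟨κ, hκ, h18⟩ := t18 hb
  refine ⟨κ, hκ, fun M hM φ hφ P hP s hs ξ => ?_⟩
  obtain ⟨B, hB⟩ := t19p hM φ hφ
  have hM' : (M : ℝ) ≠ 0 := by positivity
  have hMc : (M : ℂ) ≠ 0 := by exact_mod_cast hM.ne'
  have hF : Summable fun m => φ m * Th P s ξ (lp b m) := by
    refine Summable.of_norm_bounded ((t19_sum hb hP hs ξ).norm.mul_left B) fun m => ?_
    rw [norm_mul]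
    exact mul_le_mul_of_nonneg_right (hB m) (norm_nonneg _)
  have hA : Summable fun m => Th (wi P) s (dwi P ξ) (lp (fun j => ((M : ℝ)⁻¹) • b' j) m) :=
    t19_sum (t19_dual hb hM) (t19_wi hP) hs _
  rw [t19a hM _ hF]
  obtain ⟨hc, hd⟩ := t17 hb hP hs ξ (M := (M : ℝ)) (by positivity)
  have hs18 : Summable fun m : Fin 4 → ℤ => H53M.FT (fun u : Fin 4 → ℝ => Th P s ξ (lr b (fun j => (M : ℝ) * u j))) (fun j => (m j : ℝ)) := by
    refine (hA.mul_left ((κ / (M : ℝ) ^ 4 : ℝ) : ℂ)).congr fun m => ?_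
    rw [h18 M hM P hP s hs ξ m]
  have hnorm : ∀ (r : Fin 4 → Fin M) (m : Fin 4 → ℤ), ‖Complex.exp (2 * Real.pi * Complex.I * ∑ j, (m j : ℂ) * ((((r j : ℕ) : ℝ) / M : ℝ) : ℂ))‖ = 1 := by
    intro r m
    have e : 2 * Real.pi * Complex.I * ∑ j, (m j : ℂ) * ((((r j : ℕ) : ℝ) / M : ℝ) : ℂ) =
        ((2 * Real.pi * ∑ j, (m j : ℝ) * (((r j : ℕ) : ℝ) / M) : ℝ) : ℂ) * Complex.I := by
      push_cast
      ring
    rw [e, Complex.norm_exp_ofReal_mul_I]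
  have key : ∀ r : Fin 4 → Fin M, ∑' k : Fin 4 → ℤ, φ (fun j => ((r j : ℕ) : ℤ) + (M : ℤ) * k j) * Th P s ξ (lp b (fun j => ((r j : ℕ) : ℤ) + (M : ℤ) * k j)) =
      ∑' m : Fin 4 → ℤ, φ (fun j => ((r j : ℕ) : ℤ)) * (((κ / (M : ℝ) ^ 4 : ℝ) : ℂ) * Th (wi P) s (dwi P ξ) (lp (fun j => ((M : ℝ)⁻¹) • b' j) m) *
        Complex.exp (2 * Real.pi * Complex.I * ∑ j, (m j : ℂ) * ((((r j : ℕ) : ℝ) / M : ℝ) : ℂ))) := by
    intro r
    have h := H53M.TP hc hd hs18 (fun j => ((r j : ℕ) : ℝ) / M)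
    rw [tsum_mul_left]
    have e1 : ∀ k : Fin 4 → ℤ, φ (fun j => ((r j : ℕ) : ℤ) + (M : ℤ) * k j) = φ (fun j => ((r j : ℕ) : ℤ)) := by
      intro k
      have h1 := hφ (fun j => ((r j : ℕ) : ℤ)) k
      rw [← h1]
      congr 1
    have e2 : ∀ k : Fin 4 → ℤ, Th P s ξ (lp b (fun j => ((r j : ℕ) : ℤ) + (M : ℤ) * k j)) =
        Th P s ξ (lr b (fun j => (M : ℝ) * (((r j : ℕ) : ℝ) / M + k j))) := by
      intro k
      rw [t14l]
      congr 2
      funext j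
      push_cast
      field_simp
    simp only [e1, e2]
    rw [tsum_mul_left]
    congr 1
    rw [h]
    refine tsum_congr fun m => ?_
    rw [h18 M hM P hP s hs ξ m]
  rw [Finset.sum_congr rfl fun r _ => key r, ← Summable.tsum_finsetSum, ← tsum_mul_left]
  · refine tsum_congr fun m => ?_
    unfold fh
    rw [Finset.sum_mul, Finset.mul_sum]
    refine Finset.sum_congr rfl fun r _ => ?_
    have e : 2 * Real.pi * Complex.I * ∑ j, (m j : ℂ) * ((((r j : ℕ) : ℝ) / M : ℝ) : ℂ) =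
        2 * Real.pi * Complex.I * (∑ j, ((r j : ℕ) : ℂ) * (m j : ℂ)) / (M : ℂ) := by
      rw [mul_div_assoc, Finset.sum_div]
      congr 1
      refine Finset.sum_congr rfl fun j _ => ?_
      push_cast
      ring
    rw [e]
    ring
  · intro r _
    refine Summable.mul_left _ ?_
    refine Summable.of_norm_bounded ((hA.mul_left ((κ / (M : ℝ) ^ 4 : ℝ) : ℂ)).norm) fun m => ?_
    rw [norm_mul, hnorm r m, mul_one]

end Pool.Agent.H2S
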