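import Pool.Agent.Lib.H2S.T16

/-!
# H2S, chunk T20 (size S/M): equivariance of `Th`, powers of `e`

`t20`: `(h x₁) ^ 2 s = h ^ 2 s x₁ ^ 2`, `h x₁ conj (h⁻¹ x₂) = (h conj h⁻¹) x₁ conj x₂`, `s⁻¹ conj (h⁻¹ x₂) ^ 2 = s⁻¹ (conj h⁻¹) ^ 2 conj x₂ ^ 2`,
and `‖h‖ ^ 2 = h conj h` (`Complex.mul_conj`, `Complex.normSq_eq_norm_sq`), so the bracket of the left side is `h conj h⁻¹` times the bracket
of the right side; `z (h x₁ h⁻¹ x₂) = z x₁ x₂`, and `s ‖h x₁‖ ^ 2 = (‖h‖ ^ 2 s) ‖x₁‖ ^ 2`, `s⁻¹ ‖h⁻¹ x₂‖ ^ 2 = (‖h‖ ^ 2 s)⁻¹ ‖x₂‖ ^ 2`: the same `EE`.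
`t20p`: induction over `k : ℤ` (`Int.induction_on`, or `zpow_add_one`, `zpow_sub_one`): `lp b (e m) = (h x₁, h⁻¹ x₂)`; for `e⁻¹` apply
`he.map` to `e⁻¹ m`.  `t20f`: induction as well: `φ (e⁻¹ m) = φ m * (h conj h⁻¹)`.
`t20a`: `lp b (e (m + k)) = lp b (e m + e k)` (`lp b` is additive), `t16i`.
-/

set_option autoImplicit false
namespace Pool.Agent.H2S
open Complex MeasureTheory

theorem t20_EE {h : ℂ} (hh : h ≠ 0) (P : ℂ × ℝ) (s : ℝ) (x : ℂ × ℂ) :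
    EE P s (h * x.1, h⁻¹ * x.2) = EE P (‖h‖ ^ 2 * s) x := by
  have h0 : ‖h‖ ≠ 0 := norm_ne_zero_iff.2 hh
  have e1 : h * x.1 * (h⁻¹ * x.2) = x.1 * x.2 := by
    field_simp
  have e2 : s * ‖h * x.1‖ ^ 2 + s⁻¹ * ‖h⁻¹ * x.2‖ ^ 2 =
      ‖h‖ ^ 2 * s * ‖x.1‖ ^ 2 + (‖h‖ ^ 2 * s)⁻¹ * ‖x.2‖ ^ 2 := by
    rw [norm_mul, norm_mul, norm_inv, mul_inv, mul_pow, mul_pow, inv_pow]
    ring
  simp only [EE]
  rw [e1, e2]

theorem t20_inv {h : ℂ} (hh : h ≠ 0) {b : Fin 4 → ℂ × ℂ} {e : (Fin 4 → ℤ) ≃ (Fin 4 → ℤ)} (he : Stab h b e)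
    (m : Fin 4 → ℤ) : lp b ((e : Equiv.Perm (Fin 4 → ℤ))⁻¹ m) = (h⁻¹ * (lp b m).1, h * (lp b m).2) := by
  have h1 := he.map ((e : Equiv.Perm (Fin 4 → ℤ))⁻¹ m)
  have h2 : e ((e : Equiv.Perm (Fin 4 → ℤ))⁻¹ m) = m := e.apply_symm_apply m
  rw [h2] at h1
  rw [h1]
  refine Prod.ext ?_ ?_
  · change _ = h⁻¹ * (h * _)
    rw [← mul_assoc, inv_mul_cancel₀ hh, one_mul]
  · change _ = h * (h⁻¹ * _)
    rw [← mul_assoc, mul_inv_cancel₀ hh, one_mul]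

theorem t20_add (b : Fin 4 → ℂ × ℂ) (m k : Fin 4 → ℤ) : lp b (m + k) = lp b m + lp b k := by
  simp only [lp, Pi.add_apply]
  rw [← Finset.sum_add_distrib]
  refine Finset.sum_congr rfl fun j _ => ?_
  push_cast
  rw [add_smul]

theorem t20 {h : ℂ} (hh : h ≠ 0) (P : ℂ × ℝ) (s : ℝ) (ξ : ℂ × ℝ) (x : ℂ × ℂ) :
    Th P s ξ (h * x.1, h⁻¹ * x.2) = (h * (starRingEnd ℂ) h⁻¹) * Th P (‖h‖ ^ 2 * s) ξ x := by
  have hk : (starRingEnd ℂ) h ≠ 0 := (map_ne_zero _).2 hh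
  have e : ((‖h‖ ^ 2 * s : ℝ) : ℂ) = h * (starRingEnd ℂ) h * s := by
    rw [Complex.mul_conj, Complex.normSq_eq_norm_sq]
    push_cast
    ring
  simp only [Th]
  rw [t20_EE hh, e, mul_inv, mul_inv, map_mul, map_inv₀]
  generalize (s : ℂ)⁻¹ = r
  generalize EE P (‖h‖ ^ 2 * s) x = E
  field_simp

theorem t20p {h : ℂ} (hh : h ≠ 0) {b : Fin 4 → ℂ × ℂ} {e : (Fin 4 → ℤ) ≃ (Fin 4 → ℤ)} (he : Stab h b e) (k : ℤ)
    (m : Fin 4 → ℤ) : lp b (((e : Equiv.Perm (Fin 4 → ℤ)) ^ k) m) = (h ^ k * (lp b m).1, (h ^ k)⁻¹ * (lp b m).2) := by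
  induction k using Int.induction_on generalizing m with
  | zero =>
    rw [zpow_zero, zpow_zero, inv_one, one_mul, one_mul]
    rfl
  | succ k ih =>
    rw [zpow_add_one, Equiv.Perm.mul_apply, ih, he.map, zpow_add_one₀ hh]
    refine Prod.ext ?_ ?_
    · change h ^ (k : ℤ) * (h * (lp b m).1) = h ^ (k : ℤ) * h * (lp b m).1
      ring
    · change (h ^ (k : ℤ))⁻¹ * (h⁻¹ * (lp b m).2) = (h ^ (k : ℤ) * h)⁻¹ * (lp b m).2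
      rw [mul_inv]
      ring
  | pred k ih =>
    rw [zpow_sub_one, Equiv.Perm.mul_apply, ih, t20_inv hh he, zpow_sub_one₀ hh]
    refine Prod.ext ?_ ?_
    · change h ^ (-(k : ℤ)) * (h⁻¹ * (lp b m).1) = h ^ (-(k : ℤ)) * h⁻¹ * (lp b m).1
      ring
    · change (h ^ (-(k : ℤ)))⁻¹ * (h * (lp b m).2) = (h ^ (-(k : ℤ)) * h⁻¹)⁻¹ * (lp b m).2
      rw [mul_inv, inv_inv]
      ring

theorem t20f {h : ℂ} (hh : h ≠ 0) (e : (Fin 4 → ℤ) ≃ (Fin 4 → ℤ)) (φ : (Fin 4 → ℤ) → ℂ)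
    (hφ : ∀ m, φ (e m) * (h * (starRingEnd ℂ) h⁻¹) = φ m) (k : ℤ) (m : Fin 4 → ℤ) :
    φ (((e : Equiv.Perm (Fin 4 → ℤ)) ^ k) m) * (h ^ k * (starRingEnd ℂ) (h ^ k)⁻¹) = φ m := by
  have hk : (starRingEnd ℂ) h ≠ 0 := (map_ne_zero _).2 hh
  induction k using Int.induction_on generalizing m with
  | zero =>
    rw [zpow_zero, zpow_zero, inv_one, map_one, one_mul, mul_one]
    rfl
  | succ k ih =>
    rw [zpow_add_one, Equiv.Perm.mul_apply, zpow_add_one₀ hh, mul_inv, map_mul]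
    have h1 := ih (e m)
    have h2 := hφ m
    rw [← h2, ← h1]
    ring
  | pred k ih =>
    rw [zpow_sub_one, Equiv.Perm.mul_apply, zpow_sub_one₀ hh, mul_inv, map_mul, inv_inv]
    have h1 := ih ((e : Equiv.Perm (Fin 4 → ℤ))⁻¹ m)
    have h2 := hφ ((e : Equiv.Perm (Fin 4 → ℤ))⁻¹ m)
    have h3 : e ((e : Equiv.Perm (Fin 4 → ℤ))⁻¹ m) = m := e.apply_symm_apply m
    rw [h3, ← h1, map_inv₀] at h2
    have h4 : (starRingEnd ℂ) h * ((starRingEnd ℂ) h)⁻¹ = 1 := mul_inv_cancel₀ hk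
    have h5 : h * h⁻¹ = 1 := mul_inv_cancel₀ hh
    linear_combination (-(h⁻¹ * (starRingEnd ℂ) h)) * h2 + (φ m * (starRingEnd ℂ) h * ((starRingEnd ℂ) h)⁻¹) * h5 + φ m * h4

theorem t20a {b b' : Fin 4 → ℂ × ℂ} (hb : Dual b b') {h : ℂ} {e : (Fin 4 → ℤ) ≃ (Fin 4 → ℤ)} (he : Stab h b e)
    (m k : Fin 4 → ℤ) : e (m + k) = e m + e k := by
  refine t16i hb _ _ ?_
  rw [he.map, t20_add, t20_add, he.map, he.map]
  refine Prod.ext ?_ ?_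
  · change h * ((lp b m).1 + (lp b k).1) = h * (lp b m).1 + h * (lp b k).1
    ring
  · change h⁻¹ * ((lp b m).2 + (lp b k).2) = h⁻¹ * (lp b m).2 + h⁻¹ * (lp b k).2
    ring

end Pool.Agent.H2S
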