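import Mathlib

/-!
# H2S, chunk T21 (size M, only Mathlib): `∫` over `(0, ∞)` as a sum over the intervals `(ρ ^ k, ρ ^ (k + 1)]`

`Ioi 0 = ⋃ k : ℤ, Ioc (ρ ^ k) (ρ ^ (k + 1))`, disjoint (`exists_mem_Ioc_zpow`, `zpow_lt_zpow_iff_right₀` / `zpow_le_zpow_iff_right₀` for
`1 < ρ`).  `MeasureTheory.integral_iUnion` (or `hasSum_integral_iUnion`, `.tsum_eq`).  In the `k`-th integral substitute `s → ρ ^ k s`:
`MeasureTheory.setIntegral`-version of `integral_comp_mul_left`: e.g. `intervalIntegral.integral_comp_mul_left` with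
`intervalIntegral.integral_of_le`:  `∫ s in Ioc (ρ ^ k) (ρ ^ (k + 1)), f s = ρ ^ k * ∫ s in Ioc 1 ρ, f (ρ ^ k * s)`
(`ρ ^ k * 1 = ρ ^ k`, `ρ ^ k * ρ = ρ ^ (k + 1)`, `zpow_add_one₀`).
-/

set_option autoImplicit false
namespace Pool.Agent.H2S
open Complex MeasureTheory

theorem t21_union {ρ : ℝ} (hρ : 1 < ρ) : Set.Ioi (0 : ℝ) = ⋃ k : ℤ, Set.Ioc (ρ ^ k) (ρ ^ (k + 1)) := by
  ext x
  simp only [Set.mem_Ioi, Set.mem_iUnion]
  constructor
  · intro hx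
    exact exists_mem_Ioc_zpow hx hρ
  · rintro ⟨k, hk⟩
    exact lt_trans (zpow_pos (by linarith) k) hk.1

theorem t21_disj {ρ : ℝ} (hρ : 1 < ρ) :
    Pairwise (Function.onFun Disjoint fun k : ℤ => Set.Ioc (ρ ^ k) (ρ ^ (k + 1))) := by
  intro i j hij
  rw [Function.onFun, Set.disjoint_left]
  intro x hx hy
  apply hij
  have h1 : i < j + 1 := (zpow_lt_zpow_iff_right₀ hρ).1 (lt_of_lt_of_le hx.1 hy.2)
  have h2 : j < i + 1 := (zpow_lt_zpow_iff_right₀ hρ).1 (lt_of_lt_of_le hy.1 hx.2)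
  omega

theorem t21 {ρ : ℝ} (hρ : 1 < ρ) (f : ℝ → ℂ) (hf : IntegrableOn f (Set.Ioi 0)) :
    ∫ s in Set.Ioi (0 : ℝ), f s = ∑' k : ℤ, ∫ s in Set.Ioc 1 ρ, ((ρ ^ k : ℝ) : ℂ) * f (ρ ^ k * s) := by
  have h0 : (0 : ℝ) < ρ := by linarith
  rw [t21_union hρ, integral_iUnion (fun k => measurableSet_Ioc) (t21_disj hρ) (by rw [← t21_union hρ]; exact hf)]
  refine tsum_congr fun k => ?_
  have hk : (0 : ℝ) < ρ ^ k := zpow_pos h0 k
  have e : (ρ ^ (k + 1) : ℝ) = ρ ^ k * ρ := zpow_add_one₀ h0.ne' k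
  rw [← intervalIntegral.integral_of_le (le_of_lt ((zpow_lt_zpow_iff_right₀ hρ).2 (lt_add_one k))),
    ← intervalIntegral.integral_of_le hρ.le, intervalIntegral.integral_const_mul,
    intervalIntegral.integral_comp_mul_left f hk.ne', mul_one, e]
  rw [Complex.real_smul, ← mul_assoc, ← Complex.ofReal_mul, mul_inv_cancel₀ hk.ne', Complex.ofReal_one, one_mul]

end Pool.Agent.H2S
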