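import Pool.Agent.Lib.H2S.T20

/-!
# H2S, chunk T22 (size M): every nonzero lattice point is `e ^ k m` for exactly one `k` and one `m` in the fundamental domain

Let `ρ = ‖h‖ ^ 2 > 1`, `D = {m | lp b m ∈ Fd ρ}`.  `0 ∉ D` (`0 < ρ * 0` is false).  For `m ≠ 0`, `x = lp b m`, `x₁ ≠ 0`, `x₂ ≠ 0` (`he.ne1`,
`he.ne2`), and by `t20p` `lp b (e ^ k m) ∈ Fd ρ` iff `‖h‖ ^ (-k) ‖x₂‖ ≤ ‖h‖ ^ k ‖x₁‖ < ρ ‖h‖ ^ (-k) ‖x₂‖`, iff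
`‖x₂‖ / ‖x₁‖ ≤ ρ ^ k < ρ * (‖x₂‖ / ‖x₁‖)`, iff (with `q = ‖x₁‖ / ‖x₂‖ > 0`) `ρ ^ (-k) ≤ q < ρ ^ (-k + 1)`: exactly one `k`
(`exists_mem_Ico_zpow`, uniqueness from the monotonicity of `ρ ^ k`).
So `D × ℤ → {m // m ≠ 0}`, `(m, k) ↦ e ^ k m` is a bijection (`e ^ k m ≠ 0` for `m ∈ D`: `lp b (e ^ k m)` has nonzero coordinates;
injective: `e ^ k m = e ^ k' m'` gives `m' = e ^ (k - k') m`, both in the domain, `k - k' = 0`; surjective: existence for `m`).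
The left side is `∑' m : D, ∑' k, I (e ^ k m)` (`tsum_subtype`-like: `Set.indicator`, `tsum_subtype D`), `= ∑' p : D × ℤ` (`Summable.tsum_prod`,
summability from `hI` and the injectivity), `= ∑' m : {m // m ≠ 0}, I m = ∑' m, I m` (`tsum_subtype_eq_of_support_subset`, `I 0 = 0`).
-/

set_option autoImplicit false
namespace Pool.Agent.H2S
open Complex MeasureTheory

theorem t22_lp0 (b : Fin 4 → ℂ × ℂ) : lp b 0 = 0 := by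
  unfold lp
  simp

/-- `e ^ k m` is in the fundamental domain iff `‖x₂‖ ≤ ρ ^ k ‖x₁‖ < ρ ‖x₂‖`. -/
theorem t22_iff {h : ℂ} (hh : 1 < ‖h‖) {b : Fin 4 → ℂ × ℂ} {e : (Fin 4 → ℤ) ≃ (Fin 4 → ℤ)} (he : Stab h b e) (m : Fin 4 → ℤ) (k : ℤ) :
    lp b (((e : Equiv.Perm (Fin 4 → ℤ)) ^ k) m) ∈ Fd (‖h‖ ^ 2) ↔
      ‖(lp b m).2‖ ≤ (‖h‖ ^ 2) ^ k * ‖(lp b m).1‖ ∧ (‖h‖ ^ 2) ^ k * ‖(lp b m).1‖ < ‖h‖ ^ 2 * ‖(lp b m).2‖ := by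
  have h0 : h ≠ 0 := by
    rintro rfl
    rw [norm_zero] at hh
    linarith
  rw [t20p h0 he k m]
  have ht : 0 < ‖h‖ ^ k := zpow_pos (by linarith) k
  have e1 : (‖h‖ ^ 2) ^ k = ‖h‖ ^ k * ‖h‖ ^ k := by
    rw [pow_two, mul_zpow]
  have e2 : ‖h ^ k * (lp b m).1‖ = ‖h‖ ^ k * ‖(lp b m).1‖ := by rw [norm_mul, norm_zpow]
  have e3 : ‖(h ^ k)⁻¹ * (lp b m).2‖ = (‖h‖ ^ k)⁻¹ * ‖(lp b m).2‖ := by rw [norm_mul, norm_inv, norm_zpow]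
  show ‖(h ^ k)⁻¹ * (lp b m).2‖ ≤ ‖h ^ k * (lp b m).1‖ ∧ ‖h ^ k * (lp b m).1‖ < ‖h‖ ^ 2 * ‖(h ^ k)⁻¹ * (lp b m).2‖ ↔ _
  rw [e1, e2, e3]
  have e4 : ‖h‖ ^ k * ((‖h‖ ^ k)⁻¹ * ‖(lp b m).2‖) = ‖(lp b m).2‖ := mul_inv_cancel_left₀ ht.ne' _
  constructor
  · rintro ⟨h1, h2⟩
    have h3 := mul_le_mul_of_nonneg_left h1 ht.le
    have h4 := mul_lt_mul_of_pos_left h2 ht
    rw [e4] at h3
    have e5 : ‖h‖ ^ k * (‖h‖ ^ 2 * ((‖h‖ ^ k)⁻¹ * ‖(lp b m).2‖)) = ‖h‖ ^ 2 * ‖(lp b m).2‖ := by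
      rw [mul_left_comm, e4]
    rw [e5] at h4
    constructor
    · linarith
    · linarith
  · rintro ⟨h1, h2⟩
    constructor
    · refine le_of_mul_le_mul_left ?_ ht
      rw [e4]
      linarith
    · refine lt_of_mul_lt_mul_left ?_ ht.le
      rw [mul_left_comm (‖h‖ ^ k) (‖h‖ ^ 2), e4]
      linarith

theorem t22_ex {h : ℂ} (hh : 1 < ‖h‖) {b : Fin 4 → ℂ × ℂ} {e : (Fin 4 → ℤ) ≃ (Fin 4 → ℤ)} (he : Stab h b e) {m : Fin 4 → ℤ} (hm : m ≠ 0) :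
    ∃ k : ℤ, lp b (((e : Equiv.Perm (Fin 4 → ℤ)) ^ k) m) ∈ Fd (‖h‖ ^ 2) := by
  have hρ : 1 < ‖h‖ ^ 2 := by nlinarith
  have h1 : 0 < ‖(lp b m).1‖ := norm_pos_iff.2 (he.ne1 m hm)
  have h2 : 0 < ‖(lp b m).2‖ := norm_pos_iff.2 (he.ne2 m hm)
  obtain ⟨n, hn1, hn2⟩ := exists_mem_Ioc_zpow (div_pos h2 h1) hρ
  refine ⟨n + 1, (t22_iff hh he m (n + 1)).2 ⟨?_, ?_⟩⟩
  · rw [div_le_iff₀ h1] at hn2
    exact hn2
  · rw [lt_div_iff₀ h1] at hn1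
    rw [zpow_add_one₀ (by positivity)]
    nlinarith

theorem t22_un {h : ℂ} (hh : 1 < ‖h‖) {b : Fin 4 → ℂ × ℂ} {e : (Fin 4 → ℤ) ≃ (Fin 4 → ℤ)} (he : Stab h b e) {m : Fin 4 → ℤ} (hm : m ≠ 0)
    {k k' : ℤ} (hk : lp b (((e : Equiv.Perm (Fin 4 → ℤ)) ^ k) m) ∈ Fd (‖h‖ ^ 2)) (hk' : lp b (((e : Equiv.Perm (Fin 4 → ℤ)) ^ k') m) ∈ Fd (‖h‖ ^ 2)) : k = k' := by
  have hρ : 1 < ‖h‖ ^ 2 := by nlinarith
  have h1 : 0 < ‖(lp b m).1‖ := norm_pos_iff.2 (he.ne1 m hm)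
  rw [t22_iff hh he] at hk hk'
  have key : ∀ a c : ℤ, (‖h‖ ^ 2) ^ a * ‖(lp b m).1‖ < ‖h‖ ^ 2 * ‖(lp b m).2‖ → ‖(lp b m).2‖ ≤ (‖h‖ ^ 2) ^ c * ‖(lp b m).1‖ → a ≤ c := by
    intro a c ha hc
    have h3 : (‖h‖ ^ 2) ^ a * ‖(lp b m).1‖ < (‖h‖ ^ 2) ^ (c + 1) * ‖(lp b m).1‖ := by
      rw [zpow_add_one₀ (by positivity)]
      nlinarith
    have h4 := lt_of_mul_lt_mul_right h3 h1.le
    have h5 := (zpow_lt_zpow_iff_right₀ hρ).1 h4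
    omega
  exact le_antisymm (key k k' hk.2 hk'.1) (key k' k hk'.2 hk.1)

theorem t22 {h : ℂ} (hh : 1 < ‖h‖) {b : Fin 4 → ℂ × ℂ} {e : (Fin 4 → ℤ) ≃ (Fin 4 → ℤ)} (he : Stab h b e)
    (I : (Fin 4 → ℤ) → ℂ) (hI : Summable fun m => ‖I m‖) (h0 : I 0 = 0) :
    ∑' m, (Fd (‖h‖ ^ 2)).indicator (fun _ => ∑' k : ℤ, I (((e : Equiv.Perm (Fin 4 → ℤ)) ^ k) m)) (lp b m) = ∑' m, I m := by
  set D : Set (Fin 4 → ℤ) := {m | lp b m ∈ Fd (‖h‖ ^ 2)} with hD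
  have hD0 : ∀ m ∈ D, m ≠ 0 := by
    rintro m hm rfl
    have h1 : lp b 0 ∈ Fd (‖h‖ ^ 2) := hm
    rw [t22_lp0] at h1
    have h2 : ‖(0 : ℂ × ℂ).1‖ < ‖h‖ ^ 2 * ‖(0 : ℂ × ℂ).2‖ := h1.2
    simp at h2
  have hne : ∀ (m : Fin 4 → ℤ) (k : ℤ), m ≠ 0 → ((e : Equiv.Perm (Fin 4 → ℤ)) ^ k) m ≠ 0 := by
    intro m k hm h0'
    have hz : h ≠ 0 := by
      rintro rfl
      rw [norm_zero] at hh
      linarith
    have h1 := t20p hz he k m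
    rw [h0', t22_lp0] at h1
    have h2 : (0 : ℂ) = h ^ k * (lp b m).1 := congrArg Prod.fst h1
    rcases mul_eq_zero.1 h2.symm with h3 | h3
    · exact zpow_ne_zero k hz h3
    · exact he.ne1 m hm h3
  let Φ : D × ℤ → {m : Fin 4 → ℤ | m ≠ 0} := fun p => ⟨((e : Equiv.Perm (Fin 4 → ℤ)) ^ p.2) p.1.1, hne _ _ (hD0 _ p.1.2)⟩
  have hcomp : ∀ (a c : ℤ) (m : Fin 4 → ℤ), ((e : Equiv.Perm (Fin 4 → ℤ)) ^ (a + c)) m = ((e : Equiv.Perm (Fin 4 → ℤ)) ^ a) (((e : Equiv.Perm (Fin 4 → ℤ)) ^ c) m) := by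
    intro a c m
    rw [zpow_add]
    rfl
  have hΦ : Function.Bijective Φ := by
    constructor
    · rintro ⟨⟨m, hm⟩, k⟩ ⟨⟨m', hm'⟩, k'⟩ heq
      have h1 : ((e : Equiv.Perm (Fin 4 → ℤ)) ^ k) m = ((e : Equiv.Perm (Fin 4 → ℤ)) ^ k') m' := congrArg Subtype.val heq
      have h2 : ((e : Equiv.Perm (Fin 4 → ℤ)) ^ (-k' + k)) m = m' := by
        rw [hcomp, h1, ← hcomp, neg_add_cancel, zpow_zero]
        rfl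
      have h3 : -k' + k = 0 := by
        refine t22_un hh he (hD0 m hm) (k := -k' + k) (k' := 0) ?_ ?_
        · rw [h2]
          exact hm'
        · rw [zpow_zero]
          exact hm
      have h4 : m = m' := by
        rw [h3, zpow_zero] at h2
        exact h2
      have h5 : k = k' := by omega
      subst h4
      subst h5
      rfl
    · rintro ⟨n, hn⟩
      obtain ⟨k, hk⟩ := t22_ex hh he hn
      refine ⟨⟨⟨_, hk⟩, -k⟩, Subtype.ext ?_⟩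
      show ((e : Equiv.Perm (Fin 4 → ℤ)) ^ (-k)) (((e : Equiv.Perm (Fin 4 → ℤ)) ^ k) n) = n
      rw [← hcomp, neg_add_cancel, zpow_zero]
      rfl
  have hIs : Summable I := hI.of_norm
  have hsum : Summable fun p : D × ℤ => I (((e : Equiv.Perm (Fin 4 → ℤ)) ^ p.2) p.1.1) :=
    hIs.comp_injective (i := fun p : D × ℤ => (Φ p).1) (Subtype.val_injective.comp hΦ.1)
  have e1 : ∀ m : Fin 4 → ℤ, (Fd (‖h‖ ^ 2)).indicator (fun _ => ∑' k : ℤ, I (((e : Equiv.Perm (Fin 4 → ℤ)) ^ k) m)) (lp b m) =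
      D.indicator (fun m => ∑' k : ℤ, I (((e : Equiv.Perm (Fin 4 → ℤ)) ^ k) m)) m := by
    intro m
    by_cases hm : lp b m ∈ Fd (‖h‖ ^ 2)
    · rw [Set.indicator_of_mem hm, Set.indicator_of_mem (show m ∈ D from hm)]
    · rw [Set.indicator_of_notMem hm, Set.indicator_of_notMem (show m ∉ D from hm)]
  rw [tsum_congr e1, ← tsum_subtype D fun m => ∑' k : ℤ, I (((e : Equiv.Perm (Fin 4 → ℤ)) ^ k) m)]
  have e2 : ∑' p : D × ℤ, I (((e : Equiv.Perm (Fin 4 → ℤ)) ^ p.2) p.1.1) = ∑' (m : D) (k : ℤ), I (((e : Equiv.Perm (Fin 4 → ℤ)) ^ k) m.1) := hsum.tsum_prod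
  rw [← e2]
  have e3 : ∑' p : D × ℤ, I (((e : Equiv.Perm (Fin 4 → ℤ)) ^ p.2) p.1.1) = ∑' n : {m : Fin 4 → ℤ | m ≠ 0}, I n :=
    (Equiv.ofBijective Φ hΦ).tsum_eq fun n => I n.1
  rw [e3]
  refine tsum_subtype_eq_of_support_subset ?_
  intro m hm hm0
  exact hm (by rw [hm0, h0])

end Pool.Agent.H2S
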