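import Pool.Agent.Lib.H2S.T08
import Pool.Agent.Lib.H2S.T15
import Pool.Agent.Lib.H2S.T21
import Pool.Agent.Lib.H2S.T22
import Pool.Agent.Lib.H2S.T23

/-!
# H2S, T24: unfolding
-/

set_option autoImplicit false
namespace Pool.Agent.H2S
open Complex MeasureTheory

/-- The terms after unfolding. -/
noncomputable def t24_g (b : Fin 4 → ℂ × ℂ) (φ : (Fin 4 → ℤ) → ℂ) (P ξ : ℂ × ℝ) (m : Fin 4 → ℤ) (s : ℝ) : ℂ :=
  φ m * Th P s ξ (lp b m) * (s : ℂ)⁻¹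

theorem t24_pt {h : ℂ} (hh : 1 < ‖h‖) {b : Fin 4 → ℂ × ℂ} {e : (Fin 4 → ℤ) ≃ (Fin 4 → ℤ)} (he : Stab h b e)
    {φ : (Fin 4 → ℤ) → ℂ} (hφ : ∀ m, φ (e m) * (h * (starRingEnd ℂ) h⁻¹) = φ m) (P ξ : ℂ × ℝ) (m : Fin 4 → ℤ) (k : ℤ)
    (s : ℝ) : ((((‖h‖ ^ 2) ^ k : ℝ)) : ℂ) * t24_g b φ P ξ m ((‖h‖ ^ 2) ^ k * s) =
      t24_g b φ P ξ (((e : Equiv.Perm (Fin 4 → ℤ)) ^ k) m) s := by
  have h0 : h ≠ 0 := by
    intro h0
    rw [h0, norm_zero] at hh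
    linarith
  have hk : h ^ k ≠ 0 := zpow_ne_zero _ h0
  have hρ : (‖h‖ ^ 2) ^ k = ‖h ^ k‖ ^ 2 := by
    rw [norm_zpow, ← zpow_natCast, ← zpow_natCast, ← zpow_mul, ← zpow_mul, mul_comm]
  have hρ0 : ((((‖h‖ ^ 2) ^ k : ℝ)) : ℂ) ≠ 0 := by
    have : (0 : ℝ) < (‖h‖ ^ 2) ^ k := zpow_pos (pow_pos (by linarith) 2) k
    exact_mod_cast this.ne'
  unfold t24_g
  have h1 := t20 hk P s ξ (lp b m)
  have h2 := t20p h0 he k m
  have h3 := t20f h0 e φ hφ k m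
  rw [h2, h1, ← hρ, ← h3]
  push_cast at hρ0 ⊢
  rw [mul_inv]
  field_simp

theorem t24_bd {b : Fin 4 → ℂ × ℂ} {φ : (Fin 4 → ℤ) → ℂ} {B : ℝ} (hB : ∀ m, ‖φ m‖ ≤ B) {P : ℂ × ℝ} (hP : P ∈ H3)
    (ξ : ℂ × ℝ) {ρ : ℝ} (m : Fin 4 → ℤ) {s : ℝ} (hs : s ∈ Set.Ioc 1 ρ) :
    ‖t24_g b φ P ξ m s‖ ≤ B * ‖ξ‖ * Real.exp (-(Real.pi * P.2 / ρ * ‖lp b m‖ ^ 2)) := by
  have hs1 : 1 ≤ s := hs.1.le
  have h1 := t15r hP hs1 hs.2 ξ (lp b m)
  have hB0 : 0 ≤ B := (norm_nonneg _).trans (hB 0)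
  have h2 : ‖((s : ℂ))⁻¹‖ ≤ 1 := by
    rw [norm_inv, Complex.norm_real, Real.norm_of_nonneg (by linarith)]
    exact inv_le_one_of_one_le₀ hs1
  unfold t24_g
  rw [norm_mul, norm_mul]
  calc ‖φ m‖ * ‖Th P s ξ (lp b m)‖ * ‖((s : ℂ))⁻¹‖
      ≤ (B * (‖ξ‖ * Real.exp (-(Real.pi * P.2 / ρ * ‖lp b m‖ ^ 2)))) * 1 := by
        refine mul_le_mul (mul_le_mul (hB m) h1 (norm_nonneg _) hB0) h2 (norm_nonneg _) ?_
        positivity
    _ = _ := by ring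

theorem t24_int {b : Fin 4 → ℂ × ℂ} {φ : (Fin 4 → ℤ) → ℂ} {B : ℝ} (hB : ∀ m, ‖φ m‖ ≤ B) {P : ℂ × ℝ} (hP : P ∈ H3)
    (ξ : ℂ × ℝ) (ρ : ℝ) (m : Fin 4 → ℤ) : IntegrableOn (t24_g b φ P ξ m) (Set.Ioc 1 ρ) := by
  have hmeas : AEStronglyMeasurable (t24_g b φ P ξ m) (volume.restrict (Set.Ioc 1 ρ)) := by
    refine ContinuousOn.aestronglyMeasurable ?_ measurableSet_Ioc
    have hsub : Set.Ioc (1 : ℝ) ρ ⊆ Set.Ioi 0 := fun s hs => lt_trans one_pos hs.1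
    refine ContinuousOn.mul (ContinuousOn.mul continuousOn_const ((t15s P ξ (lp b m)).mono hsub)) ?_
    refine ContinuousOn.inv₀ Complex.continuous_ofReal.continuousOn fun s hs => ?_
    have : (0 : ℝ) < s := hsub hs
    exact_mod_cast this.ne'
  have hc : IntegrableOn (fun _ : ℝ => B * ‖ξ‖ * Real.exp (-(Real.pi * P.2 / ρ * ‖lp b m‖ ^ 2))) (Set.Ioc 1 ρ) :=
    integrableOn_const (by simp)
  refine Integrable.mono' hc hmeas ?_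
  exact (ae_restrict_iff' measurableSet_Ioc).2 (Filter.Eventually.of_forall fun s hs => t24_bd hB hP ξ m hs)

theorem t24_nrm {b : Fin 4 → ℂ × ℂ} {φ : (Fin 4 → ℤ) → ℂ} {B : ℝ} (hB : ∀ m, ‖φ m‖ ≤ B) {P : ℂ × ℝ} (hP : P ∈ H3)
    (ξ : ℂ × ℝ) {ρ : ℝ} (hρ : 1 < ρ) (m : Fin 4 → ℤ) : ∫ s in Set.Ioc 1 ρ, ‖t24_g b φ P ξ m s‖ ≤
      (ρ - 1) * (B * ‖ξ‖) * Real.exp (-(Real.pi * P.2 / ρ * ‖lp b m‖ ^ 2)) := by
  have h1 : ∫ s in Set.Ioc 1 ρ, ‖t24_g b φ P ξ m s‖ ≤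
      ∫ _s in Set.Ioc 1 ρ, B * ‖ξ‖ * Real.exp (-(Real.pi * P.2 / ρ * ‖lp b m‖ ^ 2)) := by
    refine setIntegral_mono_on (t24_int hB hP ξ ρ m).norm (integrableOn_const (by simp)) measurableSet_Ioc fun s hs => ?_
    exact t24_bd hB hP ξ m hs
  refine h1.trans (le_of_eq ?_)
  rw [setIntegral_const, Real.volume_real_Ioc_of_le hρ.le, smul_eq_mul]
  ring

theorem t24 {b b' : Fin 4 → ℂ × ℂ} (hb : Dual b b') {h : ℂ} (hh : 1 < ‖h‖) {e : (Fin 4 → ℤ) ≃ (Fin 4 → ℤ)}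
    (he : Stab h b e) {φ : (Fin 4 → ℤ) → ℂ} {B : ℝ} (hB : ∀ m, ‖φ m‖ ≤ B)
    (hφ : ∀ m, φ (e m) * (h * (starRingEnd ℂ) h⁻¹) = φ m) {P : ℂ × ℝ} (hP : P ∈ H3) (ξ : ℂ × ℝ) :
    ∑' m, ga (‖h‖ ^ 2) b φ m * DV P (gw b m) ξ =
      Real.pi * ∫ s in Set.Ioc 1 (‖h‖ ^ 2), (∑' m, φ m * Th P s ξ (lp b m)) * (s : ℂ)⁻¹ := by
  have hρ : 1 < ‖h‖ ^ 2 := by nlinarith
  have hP2 : 0 < P.2 := hP
  obtain ⟨I, hI⟩ : ∃ I : (Fin 4 → ℤ) → ℂ, I = fun m => ∫ s in Set.Ioc 1 (‖h‖ ^ 2), t24_g b φ P ξ m s := ⟨_, rfl⟩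
  have hsum : Summable fun m : Fin 4 → ℤ => (‖h‖ ^ 2 - 1) * (B * ‖ξ‖) *
      Real.exp (-(Real.pi * P.2 / ‖h‖ ^ 2 * ‖lp b m‖ ^ 2)) := by
    refine Summable.mul_left _ (t16s hb ?_)
    positivity
  have hsumI : Summable fun m => ∫ s in Set.Ioc 1 (‖h‖ ^ 2), ‖t24_g b φ P ξ m s‖ :=
    Summable.of_nonneg_of_le (fun m => integral_nonneg fun s => norm_nonneg _) (fun m => t24_nrm hB hP ξ hρ m) hsum
  have hI1 : Summable fun m => ‖I m‖ := by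
    refine Summable.of_nonneg_of_le (fun m => norm_nonneg _) (fun m => ?_) hsumI
    rw [hI]
    exact norm_integral_le_integral_norm _
  have hI0 : I 0 = 0 := by
    have h0 : ∀ s, t24_g b φ P ξ 0 s = 0 := by
      intro s
      have : lp b 0 = 0 := by simp [lp]
      unfold t24_g
      rw [this]
      simp [Th]
    rw [hI]
    simp [h0]
  have h22 := t22 hh he I hI1 hI0
  have hstep : ∀ m, ga (‖h‖ ^ 2) b φ m * DV P (gw b m) ξ = Real.pi *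
      (Fd (‖h‖ ^ 2)).indicator (fun _ => ∑' k : ℤ, I (((e : Equiv.Perm (Fin 4 → ℤ)) ^ k) m)) (lp b m) := by
    intro m
    by_cases hm : lp b m ∈ Fd (‖h‖ ^ 2)
    · obtain ⟨hx1, hx2⟩ := t23x hm
      have h08 := t08 hP ξ hx1 hx2
      have hint : IntegrableOn (t24_g b φ P ξ m) (Set.Ioi 0) := by
        refine ((t08i hP ξ hx1 hx2).const_mul (φ m)).congr ?_
        refine Filter.Eventually.of_forall fun s => ?_
        simp only [t24_g]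
        ring
      have h21 := t21 hρ _ hint
      rw [Set.indicator_of_mem hm]
      have e1 : ga (‖h‖ ^ 2) b φ m * DV P (gw b m) ξ = Real.pi * ∫ s in Set.Ioi (0 : ℝ), t24_g b φ P ξ m s := by
        have e2 : ∫ s in Set.Ioi (0 : ℝ), t24_g b φ P ξ m s =
            φ m * ∫ s in Set.Ioi (0 : ℝ), Th P s ξ (lp b m) * (s : ℂ)⁻¹ := by
          rw [← integral_const_mul]
          refine integral_congr_ae (Filter.Eventually.of_forall fun s => ?_)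
          simp only [t24_g]
          ring
        have e3 : ga (‖h‖ ^ 2) b φ m = φ m * (4 * Real.pi * (lp b m).1 * (starRingEnd ℂ) (lp b m).2) :=
          Set.indicator_of_mem hm _
        rw [e2, e3, gw]
        calc φ m * (4 * Real.pi * (lp b m).1 * (starRingEnd ℂ) (lp b m).2) * DV P ((lp b m).1 * (lp b m).2) ξ
            = φ m * (4 * Real.pi * (lp b m).1 * (starRingEnd ℂ) (lp b m).2 * DV P ((lp b m).1 * (lp b m).2) ξ) := by ring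
          _ = _ := by
            rw [h08]
            ring
      rw [e1, h21]
      congr 1
      refine tsum_congr fun k => ?_
      rw [hI]
      simp only
      congr 1
      funext s
      exact t24_pt hh he hφ P ξ m k s
    · rw [Set.indicator_of_notMem hm, mul_zero]
      have e3 : ga (‖h‖ ^ 2) b φ m = 0 := Set.indicator_of_notMem hm _
      rw [e3, zero_mul]
  rw [tsum_congr hstep, tsum_mul_left, h22, hI]
  congr 1
  have h5 := integral_tsum_of_summable_integral_norm (μ := volume.restrict (Set.Ioc 1 (‖h‖ ^ 2)))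
    (F := fun m s => t24_g b φ P ξ m s) (fun m => t24_int hB hP ξ _ m) hsumI
  rw [h5]
  refine integral_congr_ae (Filter.Eventually.of_forall fun s => ?_)
  simp only [t24_g]
  rw [← tsum_mul_right]

end Pool.Agent.H2S
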