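import Pool.Agent.Lib.H2S.T19A
import Pool.Agent.Lib.H2S.T20

/-!
# H2S, chunk T25 (size M): the finite Fourier transform is equivariant

`pr (h x₁, h⁻¹ x₂) (h y₁, h⁻¹ y₂) = pr x y`, and `∑ r j m j = pr (lp b r) (lp b' m)` for integer vectors (`t14c`, `t14l`), so
`∑ (e r) j (e' m) j = ∑ r j m j` (`he.map`, `he'.map`): this is `t25b`.
`t25`: the function `g r = φ r * exp (2 π I (∑ r j (e' m) j) / M)` is periodic mod `M` (the exponent changes by an integer multiple of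
`2 π I`, `Complex.exp_int_mul_two_pi_mul_I`), so by `t19b` (`e` is additive: `t20a`)
`fh M φ (e' m) = ∑ g r = ∑ g (e r) = ∑ φ (e r) exp (2 π I (∑ r j m j) / M)`, and `φ (e r) * (h conj h⁻¹) = φ r`.
`t25s`, `t25d`: `lp (M⁻¹ b') m = M⁻¹ • lp b' m`; `pr` is symmetric and real-bilinear.
-/

set_option autoImplicit false
namespace Pool.Agent.H2S
open Complex MeasureTheory

theorem t25_add (x x' y : ℂ × ℂ) : pr (x + x') y = pr x y + pr x' y := by
  unfold pr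
  simp only [Prod.fst_add, Prod.snd_add, Complex.add_re, add_mul]
  ring

theorem t25_smul (c : ℝ) (x y : ℂ × ℂ) : pr (c • x) y = c * pr x y := by
  unfold pr
  simp only [Prod.smul_fst, Prod.smul_snd, Complex.real_smul]
  have e : (c : ℂ) * x.1 * y.2 + (c : ℂ) * x.2 * y.1 = (c : ℂ) * (x.1 * y.2 + x.2 * y.1) := by ring
  rw [e, Complex.re_ofReal_mul]
  ring

theorem t25_symm (x y : ℂ × ℂ) : pr x y = pr y x := by
  unfold pr
  congr 2
  ring

/-- `pr` as a linear map in the first variable. -/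
noncomputable def t25_L (y : ℂ × ℂ) : ℂ × ℂ →ₗ[ℝ] ℝ where
  toFun x := pr x y
  map_add' x x' := t25_add x x' y
  map_smul' c x := t25_smul c x y

theorem t25_lp (b : Fin 4 → ℂ × ℂ) (m : Fin 4 → ℤ) (y : ℂ × ℂ) : pr (lp b m) y = ∑ j, (m j : ℝ) * pr (b j) y := by
  have h : t25_L y (lp b m) = ∑ j, (m j : ℝ) * t25_L y (b j) := by
    unfold lp
    rw [map_sum]
    refine Finset.sum_congr rfl fun j _ => ?_
    rw [map_smul, smul_eq_mul]
  exact h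

theorem t25_pair {b b' : Fin 4 → ℂ × ℂ} (hb : Dual b b') (r m : Fin 4 → ℤ) :
    pr (lp b r) (lp b' m) = ∑ j, (r j : ℝ) * (m j : ℝ) := by
  rw [t25_lp]
  refine Finset.sum_congr rfl fun j _ => ?_
  rw [t25_symm, t25_lp, Finset.sum_eq_single j]
  · rw [t25_symm, hb j j, if_pos rfl, mul_one]
  · intro i _ hij
    rw [t25_symm, hb j i, if_neg (Ne.symm hij), mul_zero]
  · intro h
    exact absurd (Finset.mem_univ j) h

theorem t25b {b b' : Fin 4 → ℂ × ℂ} (hb : Dual b b') {h : ℂ} (hh : h ≠ 0) {e e' : (Fin 4 → ℤ) ≃ (Fin 4 → ℤ)}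
    (he : Stab h b e) (he' : Stab h b' e') (r m : Fin 4 → ℤ) : ∑ j, (e r) j * (e' m) j = ∑ j, r j * m j := by
  have h1 : pr (lp b (e r)) (lp b' (e' m)) = pr (lp b r) (lp b' m) := by
    rw [he.map, he'.map]
    unfold pr
    congr 2
    field_simp
  rw [t25_pair hb, t25_pair hb] at h1
  exact_mod_cast h1

theorem t25 {b b' : Fin 4 → ℂ × ℂ} (hb : Dual b b') {h : ℂ} (hh : h ≠ 0) {e e' : (Fin 4 → ℤ) ≃ (Fin 4 → ℤ)}
    (he : Stab h b e) (he' : Stab h b' e') {M : ℕ} (hM : 0 < M) {φ : (Fin 4 → ℤ) → ℂ}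
    (hper : ∀ m k, φ (m + (M : ℤ) • k) = φ m) (hφ : ∀ m, φ (e m) * (h * (starRingEnd ℂ) h⁻¹) = φ m) (m : Fin 4 → ℤ) :
    fh M φ (e' m) * (h * (starRingEnd ℂ) h⁻¹) = fh M φ m := by
  have hper2 : ∀ (r k : Fin 4 → ℤ) (n : Fin 4 → ℤ),
      Complex.exp (2 * Real.pi * Complex.I * ((∑ j, (r + (M : ℤ) • k) j * n j : ℤ) : ℂ) / (M : ℂ)) =
        Complex.exp (2 * Real.pi * Complex.I * ((∑ j, r j * n j : ℤ) : ℂ) / (M : ℂ)) := by
    intro r k n
    have hM' : (M : ℂ) ≠ 0 := by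
      exact_mod_cast hM.ne'
    have e1 : (∑ j, (r + (M : ℤ) • k) j * n j : ℤ) = (∑ j, r j * n j) + (M : ℤ) * ∑ j, k j * n j := by
      rw [Finset.mul_sum, ← Finset.sum_add_distrib]
      refine Finset.sum_congr rfl fun j _ => ?_
      simp only [Pi.add_apply, Pi.smul_apply, smul_eq_mul]
      ring
    have e2 : 2 * Real.pi * Complex.I * (((∑ j, r j * n j) + (M : ℤ) * ∑ j, k j * n j : ℤ) : ℂ) / (M : ℂ) =
        2 * Real.pi * Complex.I * ((∑ j, r j * n j : ℤ) : ℂ) / (M : ℂ) +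
          ((∑ j, k j * n j : ℤ) : ℂ) * (2 * Real.pi * Complex.I) := by
      rw [Int.cast_add, Int.cast_mul, Int.cast_natCast]
      field_simp
    rw [e1, e2, Complex.exp_add, Complex.exp_int_mul_two_pi_mul_I, mul_one]
  have key := t19b hM (fun r => φ r * Complex.exp (2 * Real.pi * Complex.I * ((∑ j, r j * (e' m) j : ℤ) : ℂ) / (M : ℂ)))
    (fun r k => by
      show φ (r + (M : ℤ) • k) * _ = φ r * _
      rw [hper, hper2]) e (t20a hb he)
  have e3 : fh M φ (e' m) = ∑ r : Fin 4 → Fin M, φ (fun j => ((r j : ℕ) : ℤ)) *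
      Complex.exp (2 * Real.pi * Complex.I * ((∑ j, ((r j : ℕ) : ℤ) * (e' m) j : ℤ) : ℂ) / (M : ℂ)) := by
    unfold fh
    refine Finset.sum_congr rfl fun r _ => ?_
    push_cast
    rfl
  have e4 : fh M φ m = ∑ r : Fin 4 → Fin M, φ (fun j => ((r j : ℕ) : ℤ)) *
      Complex.exp (2 * Real.pi * Complex.I * ((∑ j, ((r j : ℕ) : ℤ) * m j : ℤ) : ℂ) / (M : ℂ)) := by
    unfold fh
    refine Finset.sum_congr rfl fun r _ => ?_
    push_cast
    rfl
  rw [e3, e4]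
  refine (congrArg (fun z => z * (h * (starRingEnd ℂ) h⁻¹)) key.symm).trans ?_
  show (∑ r : Fin 4 → Fin M, _) * _ = _
  rw [Finset.sum_mul]
  refine Finset.sum_congr rfl fun r _ => ?_
  have e5 := t25b hb hh he he' (fun j => ((r j : ℕ) : ℤ)) m
  show φ (e fun j => ((r j : ℕ) : ℤ)) *
    Complex.exp (2 * Real.pi * Complex.I * ((∑ j, (e fun j => ((r j : ℕ) : ℤ)) j * (e' m) j : ℤ) : ℂ) / (M : ℂ)) * _ = _
  rw [e5, ← hφ (fun j => ((r j : ℕ) : ℤ))]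
  ring

theorem t25n (M : ℕ) (φ : (Fin 4 → ℤ) → ℂ) : ∃ B : ℝ, ∀ m, ‖fh M φ m‖ ≤ B := by
  refine ⟨∑ r : Fin 4 → Fin M, ‖φ (fun j => ((r j : ℕ) : ℤ))‖, fun m => ?_⟩
  unfold fh
  refine (norm_sum_le _ _).trans (Finset.sum_le_sum fun r _ => ?_)
  rw [norm_mul]
  have e : 2 * Real.pi * Complex.I * (∑ j, ((r j : ℕ) : ℂ) * (m j : ℂ)) / (M : ℂ) =
      ((2 * Real.pi * (∑ j, ((r j : ℕ) : ℝ) * (m j : ℝ)) / (M : ℝ) : ℝ) : ℂ) * Complex.I := by
    push_cast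
    ring
  rw [e, Complex.norm_exp_ofReal_mul_I, mul_one]

theorem t25s {h : ℂ} {b' : Fin 4 → ℂ × ℂ} {e' : (Fin 4 → ℤ) ≃ (Fin 4 → ℤ)} (he' : Stab h b' e') {M : ℕ} (hM : 0 < M) :
    Stab h (fun j => ((M : ℝ)⁻¹) • b' j) e' := by
  have hM' : ((M : ℝ)⁻¹) ≠ 0 := inv_ne_zero (by exact_mod_cast hM.ne')
  have hl : ∀ m : Fin 4 → ℤ, lp (fun j => ((M : ℝ)⁻¹) • b' j) m = ((M : ℝ)⁻¹) • lp b' m := by
    intro m
    unfold lp
    rw [Finset.smul_sum]
    exact Finset.sum_congr rfl fun j _ => smul_comm _ _ _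
  refine ⟨fun m => ?_, fun m hm => ?_, fun m hm => ?_⟩
  · rw [hl, hl, he'.map]
    refine Prod.ext ?_ ?_
    · simp only [Prod.smul_fst, mul_smul_comm]
    · simp only [Prod.smul_snd, mul_smul_comm]
  · rw [hl, Prod.smul_fst]
    exact smul_ne_zero hM' (he'.ne1 m hm)
  · rw [hl, Prod.smul_snd]
    exact smul_ne_zero hM' (he'.ne2 m hm)

theorem t25d {b b' : Fin 4 → ℂ × ℂ} (hb : Dual b b') {M : ℕ} (hM : 0 < M) :
    Dual (fun j => ((M : ℝ)⁻¹) • b' j) (fun j => (M : ℝ) • b j) := by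
  have hM' : (M : ℝ) ≠ 0 := by exact_mod_cast hM.ne'
  intro i j
  show pr (((M : ℝ)⁻¹) • b' i) ((M : ℝ) • b j) = _
  rw [t25_smul, t25_symm, t25_smul, inv_mul_cancel_left₀ hM', hb j i]
  by_cases hij : i = j
  · rw [if_pos hij, if_pos hij.symm]
  · rw [if_neg hij, if_neg (Ne.symm hij)]

end Pool.Agent.H2S
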