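import Pool.Agent.Lib.H2S.T11
import Pool.Agent.Lib.H2S.T19
import Pool.Agent.Lib.H2S.T24
import Pool.Agent.Lib.H2S.T25
import Pool.Agent.Lib.H2S.E02

/-!
# H2S, T26: Theorem W
-/

set_option autoImplicit false
namespace Pool.Agent.H2S
open Complex MeasureTheory

theorem t26_conv : Convex ℝ H3 := by
  intro P hP Q hQ a b ha hb hab
  have hP' : 0 < P.2 := hP
  have hQ' : 0 < Q.2 := hQ
  change 0 < a * P.2 + b * Q.2
  rcases ha.eq_or_lt with h | h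
  · have : b = 1 := by linarith
    rw [← h, this]
    linarith
  · have := mul_pos h hP'
    have := mul_nonneg hb hQ'.le
    linarith

theorem t26 (b b' : Fin 4 → ℂ × ℂ) (hb : Dual b b') (h : ℂ) (hh : 1 < ‖h‖) (e e' : (Fin 4 → ℤ) ≃ (Fin 4 → ℤ))
    (he : Stab h b e) (he' : Stab h b' e') :
    ∃ κ : ℝ, 0 < κ ∧ ∀ (M : ℕ), 0 < M → ∀ φ : (Fin 4 → ℤ) → ℂ, (∀ m k, φ (m + (M : ℤ) • k) = φ m) →
      (∀ m, φ (e m) * (h * (starRingEnd ℂ) h⁻¹) = φ m) → ∃ C : ℂ, ∀ P ∈ H3,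
        G (‖h‖ ^ 2) b φ (wi P) =
          ((κ / (M : ℝ) ^ 4 : ℝ) : ℂ) * G (‖h‖ ^ 2) (fun j => ((M : ℝ)⁻¹) • b' j) (fh M φ) P + C := by
  have hρ : 1 < ‖h‖ ^ 2 := by nlinarith
  have h0 : h ≠ 0 := by
    intro h0
    rw [h0, norm_zero] at hh
    linarith
  obtain ⟨κ, hκ, h19⟩ := t19 hb
  refine ⟨κ, hκ, fun M hM φ hper hφ => ?_⟩
  obtain ⟨B, hB⟩ := t19p hM φ hper
  obtain ⟨B', hB'⟩ := t25n M φ
  have hb'' := t25d hb hM
  have he'' := t25s he' hM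
  have hφ' := t25 hb h0 he he' hM hper hφ
  have hk := t23k hb hρ hB
  have hk'' := t23k hb'' hρ hB'
  obtain ⟨c, hc⟩ : ∃ c : ℂ, c = ((κ / (M : ℝ) ^ 4 : ℝ) : ℂ) := ⟨_, rfl⟩
  rw [← hc]
  obtain ⟨f, hf⟩ : ∃ f : ℂ × ℝ → ℂ, f = fun P => Ks (ga (‖h‖ ^ 2) b φ) (gw b) (wi P) -
    c * Ks (ga (‖h‖ ^ 2) (fun j => ((M : ℝ)⁻¹) • b' j) (fh M φ)) (gw (fun j => ((M : ℝ)⁻¹) • b' j)) P := ⟨_, rfl⟩
  have hder : ∀ P ∈ H3, HasFDerivAt f (0 : ℂ × ℝ →L[ℝ] ℂ) P := by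
    intro P hP
    have hwP := t11m hP
    have h1 := (e02 hk hwP).comp P (t11d hP)
    have h2 := (e02 hk'' hP).const_smul c
    have h3 := h1.sub h2
    have h4 : ((∑' i, ga (‖h‖ ^ 2) b φ i • DV (wi P) (gw b i)).comp (dwi P) -
        c • ∑' i, ga (‖h‖ ^ 2) (fun j => ((M : ℝ)⁻¹) • b' j) (fh M φ) i •
          DV P (gw (fun j => ((M : ℝ)⁻¹) • b' j) i)) = 0 := by
      refine ContinuousLinearMap.ext fun ξ => ?_
      have e1 := t24 hb hh he hB hφ hwP (dwi P ξ)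
      have e2 := t24 hb'' hh he'' hB' hφ' hP ξ
      have e3 := e02e hk hwP (dwi P ξ)
      have e4 := e02e hk'' hP ξ
      have e5 : ∫ s in Set.Ioc 1 (‖h‖ ^ 2), (∑' m, φ m * Th (wi P) s (dwi P ξ) (lp b m)) * (s : ℂ)⁻¹ =
          c * ∫ s in Set.Ioc 1 (‖h‖ ^ 2),
            (∑' m, fh M φ m * Th P s ξ (lp (fun j => ((M : ℝ)⁻¹) • b' j) m)) * (s : ℂ)⁻¹ := by
        rw [← integral_const_mul]
        refine setIntegral_congr_fun measurableSet_Ioc fun s hs => ?_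
        have hs0 : 0 < s := lt_trans one_pos hs.1
        have e6 := h19 M hM φ hper (wi P) hwP s hs0 (dwi P ξ)
        rw [t11w hP, t11i hP, ← hc] at e6
        rw [e6]
        ring
      rw [sub_apply, ContinuousLinearMap.comp_apply, smul_apply, e3, e4, e1, e2,
        e5, zero_apply, smul_eq_mul]
      ring
    rw [h4] at h3
    rw [hf]
    exact h3
  obtain ⟨C, hC⟩ := t11o.exists_is_const_of_fderiv_eq_zero t26_conv.isPreconnected (f := f) (𝕜 := ℝ)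
    (fun P hP => (hder P hP).differentiableAt.differentiableWithinAt) (fun P hP => (hder P hP).fderiv)
  refine ⟨C, fun P hP => ?_⟩
  have h5 := hC P hP
  rw [hf] at h5
  simp only at h5
  rw [t23g, t23g, ← h5]
  ring

end Pool.Agent.H2S
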