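import Pool.Agent.Lib.H2S.D

/-!
# H2S: more definitions of the analytic part (modules T, E, X)
-/

set_option autoImplicit false
namespace Pool.Agent.H2S
open Complex MeasureTheory

/-- `∫ s ^ j exp (- (a s + b / s)) ds` over `s > 0`. -/
noncomputable def JJ (j : ℤ) (a b : ℝ) : ℝ :=
  ∫ s in Set.Ioi (0 : ℝ), s ^ j * Real.exp (-(a * s + b / s))

/-- The derivative of `kap r t` with respect to `t`. -/
noncomputable def kapt (r t : ℝ) : ℝ := -(t / 2) * JJ (-1) (16 * Real.pi ^ 2 * r ^ 2) (t ^ 2 / 4)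

/-- The basic harmonic function with frequency `w`. -/
noncomputable def V (P : ℂ × ℝ) (w : ℂ) : ℂ := eT (P.1 * w) * (kap ‖w‖ P.2 : ℝ)

/-- The derivative of `V · w` at `P`. -/
noncomputable def DV (P : ℂ × ℝ) (w : ℂ) : ℂ × ℝ →L[ℝ] ℂ :=
  LinearMap.toContinuousLinearMap
    { toFun := fun ξ => eT (P.1 * w) *
        (((4 * Real.pi * (ξ.1 * w).re * kap ‖w‖ P.2 : ℝ) : ℂ) * Complex.I + ((kapt ‖w‖ P.2 * ξ.2 : ℝ) : ℂ))
      map_add' := by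
        intro ξ η
        simp only [Prod.fst_add, Prod.snd_add, add_mul, Complex.add_re, mul_add]
        push_cast
        ring
      map_smul' := by
        intro c ξ
        simp only [Prod.smul_fst, Prod.smul_snd, Complex.real_smul, smul_eq_mul, RingHom.id_apply,
          mul_assoc, Complex.re_ofReal_mul]
        push_cast
        ring }

theorem DV_apply (P : ℂ × ℝ) (w : ℂ) (ξ : ℂ × ℝ) : DV P w ξ = eT (P.1 * w) *
    (((4 * Real.pi * (ξ.1 * w).re * kap ‖w‖ P.2 : ℝ) : ℂ) * Complex.I + ((kapt ‖w‖ P.2 * ξ.2 : ℝ) : ℂ)) := rfl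

/-- The Gaussian with parameter `s`. -/
noncomputable def EE (P : ℂ × ℝ) (s : ℝ) (x : ℂ × ℂ) : ℂ :=
  eT (P.1 * (x.1 * x.2)) * (Real.exp (-(2 * Real.pi * P.2 * (s * ‖x.1‖ ^ 2 + s⁻¹ * ‖x.2‖ ^ 2))) : ℝ)

/-- The integrand of the derivative of `W`. -/
noncomputable def Th (P : ℂ × ℝ) (s : ℝ) (ξ : ℂ × ℝ) (x : ℂ × ℂ) : ℂ :=
  P.2 * (Complex.I * s * x.1 ^ 2 * ξ.1 - 2 * x.1 * (starRingEnd ℂ) x.2 * ξ.2 +
    Complex.I * (s : ℂ)⁻¹ * (starRingEnd ℂ) x.2 ^ 2 * (starRingEnd ℂ) ξ.1) * EE P s x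

/-- The derivative of `wi` at `P`. -/
noncomputable def dwi (P : ℂ × ℝ) : ℂ × ℝ →L[ℝ] ℂ × ℝ :=
  LinearMap.toContinuousLinearMap
    { toFun := fun ξ => (((((‖P.1‖ ^ 2 + P.2 ^ 2) ^ 2 : ℝ) : ℂ))⁻¹ * (-(P.2 : ℂ) ^ 2 * (starRingEnd ℂ) ξ.1 +
          (starRingEnd ℂ) P.1 ^ 2 * ξ.1 + 2 * (starRingEnd ℂ) P.1 * P.2 * ξ.2),
        ((‖P.1‖ ^ 2 + P.2 ^ 2) ^ 2)⁻¹ * ((‖P.1‖ ^ 2 - P.2 ^ 2) * ξ.2 -
          2 * P.2 * ((starRingEnd ℂ) P.1 * ξ.1).re))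
      map_add' := by
        intro ξ η
        refine Prod.ext ?_ ?_
        · simp only [Prod.fst_add, Prod.snd_add, map_add]
          push_cast
          ring
        · simp only [Prod.fst_add, Prod.snd_add, mul_add, Complex.add_re]
          ring
      map_smul' := by
        intro c ξ
        refine Prod.ext ?_ ?_
        · simp only [Prod.smul_fst, Prod.smul_snd, Complex.real_smul, smul_eq_mul, RingHom.id_apply, map_mul,
            Complex.conj_ofReal]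
          push_cast
          ring
        · simp only [Prod.smul_fst, Prod.smul_snd, Complex.real_smul, smul_eq_mul, RingHom.id_apply]
          have h : (starRingEnd ℂ) P.1 * ((c : ℂ) * ξ.1) = (c : ℂ) * ((starRingEnd ℂ) P.1 * ξ.1) := by ring
          rw [h, Complex.re_ofReal_mul]
          ring }

theorem dwi_apply (P ξ : ℂ × ℝ) : dwi P ξ =
    (((((‖P.1‖ ^ 2 + P.2 ^ 2) ^ 2 : ℝ) : ℂ))⁻¹ * (-(P.2 : ℂ) ^ 2 * (starRingEnd ℂ) ξ.1 +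
          (starRingEnd ℂ) P.1 ^ 2 * ξ.1 + 2 * (starRingEnd ℂ) P.1 * P.2 * ξ.2),
        ((‖P.1‖ ^ 2 + P.2 ^ 2) ^ 2)⁻¹ * ((‖P.1‖ ^ 2 - P.2 ^ 2) * ξ.2 -
          2 * P.2 * ((starRingEnd ℂ) P.1 * ξ.1).re)) := rfl

/-- The point of `ℂ × ℂ` with real coordinates `u`. -/
noncomputable def lr (b : Fin 4 → ℂ × ℂ) (u : Fin 4 → ℝ) : ℂ × ℂ := ∑ j, u j • b j

/-- The conditions on the coefficients and frequencies of a series `∑ a i * V P (w i)`. -/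
structure KS {ι : Type*} (a w : ι → ℂ) : Prop where
  lb : ∃ δ : ℝ, 0 < δ ∧ ∀ i, a i ≠ 0 → δ ≤ ‖w i‖
  sm : ∀ c : ℝ, 0 < c → Summable fun i => ‖a i‖ * Real.exp (-(c * ‖w i‖))

/-- The series `∑ a i * V P (w i)`. -/
noncomputable def Ks {ι : Type*} (a w : ι → ℂ) (P : ℂ × ℝ) : ℂ := ∑' i, a i * V P (w i)

/-- The coefficients of `G`. -/
noncomputable def ga (ρ : ℝ) (b : Fin 4 → ℂ × ℂ) (φ : (Fin 4 → ℤ) → ℂ) (m : Fin 4 → ℤ) : ℂ :=
  (Fd ρ).indicator (fun x => φ m * (4 * Real.pi * x.1 * (starRingEnd ℂ) x.2)) (lp b m)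

/-- The frequencies of `G`. -/
noncomputable def gw (b : Fin 4 → ℂ × ℂ) (m : Fin 4 → ℤ) : ℂ := (lp b m).1 * (lp b m).2

/-- Hyperbolic harmonic functions: `u` is differentiable on `H3`, has second derivatives along the coordinate
lines, and `t (u_xx + u_yy + u_tt) = u_t`. -/
def Harm {E : Type*} [NormedAddCommGroup E] [NormedSpace ℝ E] (u : ℂ × ℝ → E) : Prop :=
  (∀ P ∈ H3, DifferentiableAt ℝ u P) ∧ ∃ ux uy ut uxx uyy utt : ℂ × ℝ → E, ∀ P ∈ H3,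
    HasDerivAt (fun s : ℝ => u (P.1 + s, P.2)) (ux P) 0 ∧
    HasDerivAt (fun s : ℝ => u (P.1 + s * Complex.I, P.2)) (uy P) 0 ∧
    HasDerivAt (fun s : ℝ => u (P.1, P.2 + s)) (ut P) 0 ∧
    HasDerivAt (fun s : ℝ => ux (P.1 + s, P.2)) (uxx P) 0 ∧
    HasDerivAt (fun s : ℝ => uy (P.1 + s * Complex.I, P.2)) (uyy P) 0 ∧
    HasDerivAt (fun s : ℝ => ut (P.1, P.2 + s)) (utt P) 0 ∧
    P.2 • (uxx P + uyy P + utt P) = ut P

/-- `S` is an oscillating series with nonzero frequencies, periodic under `v₁`, `v₂`, small for large `t`. -/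
def Osc (v₁ v₂ : ℂ) (S : ℂ × ℝ → ℂ) : Prop :=
  ∃ (ι : Type) (c : ι → ℝ → ℂ) (w : ι → ℂ), (∀ i, w i ≠ 0) ∧ (∀ i, ∃ k : ℤ, 2 * (w i * v₁).re = k) ∧
    (∀ i, ∃ k : ℤ, 2 * (w i * v₂).re = k) ∧ (∀ t, 0 < t → Summable fun i => ‖c i t‖) ∧
    Filter.Tendsto (fun t => ∑' i, ‖c i t‖) Filter.atTop (nhds 0) ∧
    ∀ P ∈ H3, S P = ∑' i, c i P.2 * eT (w i * P.1)

end Pool.Agent.H2S
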