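import Pool.Agent.Lib.H2S.T26

/-!
# H2S, module T: Theorem W and the facts about `G` that the other modules use (statements)
-/

set_option autoImplicit false
namespace Pool.Agent.H2S
open Complex MeasureTheory

/-- THEOREM W. -/
theorem thW (b b' : Fin 4 → ℂ × ℂ) (hb : Dual b b') (h : ℂ) (hh : 1 < ‖h‖) (e e' : (Fin 4 → ℤ) ≃ (Fin 4 → ℤ))
    (he : Stab h b e) (he' : Stab h b' e') :
    ∃ κ : ℝ, 0 < κ ∧ ∀ (M : ℕ), 0 < M → ∀ φ : (Fin 4 → ℤ) → ℂ, (∀ m k, φ (m + (M : ℤ) • k) = φ m) →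
      (∀ m, φ (e m) * (h * (starRingEnd ℂ) h⁻¹) = φ m) → ∃ C : ℂ, ∀ P ∈ H3,
        G (‖h‖ ^ 2) b φ (wi P) =
          ((κ / (M : ℝ) ^ 4 : ℝ) : ℂ) * G (‖h‖ ^ 2) (fun j => ((M : ℝ)⁻¹) • b' j) (fh M φ) P + C :=
  t26 b b' hb h hh e e' he he'

end Pool.Agent.H2S
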