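import Pool.Agent.Lib.H2S.J0

/-!
# U0: definitions for the uniform exceptional set
-/

set_option autoImplicit false
namespace Pool.Agent.H2S
open Complex NumberField

variable {K L : Type*} [Field K] [NumberField K] [Field L] [NumberField L] [Algebra K L]

/-- The conditions on `χ` which are used for the exceptional set. -/
def UPre (N : Ideal (𝓞 K)) (p : ℕ) {k : Type*} [Field k] (r₁ r₂ : 𝓞 L →+* k) (m : Ideal (𝓞 L))
    (χ : Ideal (𝓞 L) →*₀ k) : Prop :=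
  (∀ x : 𝓞 L, x - 1 ∈ m → IsCoprime (Ideal.span {x}) (Ideal.span {(p : 𝓞 L)}) → χ (Ideal.span {x}) = r₁ x * r₂ x) ∧
  ∀ π : 𝓞 K, (Prime π ∧ ¬ π ∣ (p : 𝓞 K) ∧ ¬ N ≤ Ideal.span {π}) →
    χ (up L π) ^ 2 = (Ideal.absNorm (Ideal.span {π}) : k) ^ 2

/-- CM type: `r₂ = r₁ ∘ cc ∘ τ`. -/
def CMT (τ : L ≃ₐ[K] L) {k : Type*} [Field k] (r₁ r₂ : 𝓞 L →+* k) : Prop :=
  ∃ cc : L ≃+* L, (∀ (φ : L →+* ℂ) (x : L), φ (cc x) = (starRingEnd ℂ) (φ x)) ∧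
    ∀ x y : 𝓞 L, (y : L) = cc (τ (x : L)) → r₂ x = r₁ y

end Pool.Agent.H2S
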