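import Pool.Agent.Lib.H2S.Z6

/-!
# U1: the product `r₁ r₂` is the norm on `𝓞 K` (any ideal `N` in the place of the level)
-/

set_option autoImplicit false
namespace Pool.Agent.H2S
open Complex NumberField

variable {K L : Type*} [Field K] [NumberField K] [Field L] [NumberField L] [Algebra K L]

theorem u1_sq [IsPrincipalIdealRing (𝓞 K)] {N : Ideal (𝓞 K)} {p : ℕ} {k : Type*} [Field k] (χ : Ideal (𝓞 L) →*₀ k)
    (h2 : ∀ π : 𝓞 K, (Prime π ∧ ¬ π ∣ (p : 𝓞 K) ∧ ¬ N ≤ Ideal.span {π}) → χ (up L π) ^ 2 = (Ideal.absNorm (Ideal.span {π}) : k) ^ 2)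
    (x : 𝓞 K) (hx0 : x ≠ 0) (hx : ∀ π : 𝓞 K, Prime π → π ∣ x → ¬ π ∣ (p : 𝓞 K) ∧ ¬ N ≤ Ideal.span {π}) :
    χ (up L x) ^ 2 = (Ideal.absNorm (Ideal.span {x}) : k) ^ 2 := by
  revert hx0 hx
  refine UniqueFactorizationMonoid.induction_on_prime (P := fun x : 𝓞 K => x ≠ 0 →
    (∀ π : 𝓞 K, Prime π → π ∣ x → ¬ π ∣ (p : 𝓞 K) ∧ ¬ N ≤ Ideal.span {π}) →
    χ (up L x) ^ 2 = (Ideal.absNorm (Ideal.span {x}) : k) ^ 2) x ?_ ?_ ?_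
  · intro h; exact absurd rfl h
  · intro x hu _ _
    have h1 : up L x = 1 := by
      rw [up, Ideal.one_eq_top, Ideal.span_singleton_eq_top]; exact hu.map _
    have h2 : Ideal.span {x} = (⊤ : Ideal (𝓞 K)) := Ideal.span_singleton_eq_top.2 hu
    rw [h1, map_one, h2, Ideal.absNorm_top]; simp
  · intro y π hy hπ ih _ hx
    have h3 := hx π hπ (dvd_mul_right _ _)
    rw [z5_up_mul, map_mul, mul_pow, ih hy (fun q hq hd => hx q hq (hd.mul_left _)), h2 π ⟨hπ, h3.1, h3.2⟩,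
      ← Ideal.span_singleton_mul_span_singleton, map_mul Ideal.absNorm]
    push_cast
    ring

theorem u1_mod {N : Ideal (𝓞 K)} (hN : N ≠ ⊥) {m : Ideal (𝓞 L)} (hm : m ≠ ⊥) {p : ℕ} (hp : p.Prime) (hmp : IsCoprime m (Ideal.span {(p : 𝓞 L)})) :
    ∃ M : ℕ, ¬ p ∣ M ∧ ((M : ℕ) : 𝓞 L) ∈ m ∧ ∃ e : ℕ, ((p ^ e * M : ℕ) : 𝓞 K) ∈ N := by
  have hn0 : Ideal.absNorm (N) ≠ 0 := Ideal.absNorm_ne_zero_iff_mem_nonZeroDivisors.2 (mem_nonZeroDivisors_of_ne_zero hN)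
  obtain ⟨e, n₁, hn₁, hn⟩ := Nat.exists_eq_pow_mul_and_not_dvd hn0 p hp.ne_one
  have hn2 : ¬ p ∣ Ideal.absNorm m := by
    intro hd
    haveI : Fact p.Prime := ⟨hp⟩
    have hm0 : Ideal.absNorm m ≠ 0 :=
      Ideal.absNorm_ne_zero_iff_mem_nonZeroDivisors.2 (mem_nonZeroDivisors_of_ne_zero hm)
    haveI : Finite (𝓞 L ⧸ m) := Ideal.finiteQuotientOfFreeOfNeBot m hm
    rw [Ideal.absNorm_apply, Submodule.cardQuot_apply] at hd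
    obtain ⟨x, hx⟩ := exists_prime_addOrderOf_dvd_card' p hd
    have h1 : p • x = 0 := by rw [← hx]; exact addOrderOf_nsmul_eq_zero x
    obtain ⟨a, ha, b, hb, hab⟩ := Ideal.isCoprime_iff_exists.1 hmp
    obtain ⟨c, rfl⟩ := Ideal.mem_span_singleton'.1 hb
    have h2 : x = 0 := by
      have h3 : (Ideal.Quotient.mk m) (a + c * (p : 𝓞 L)) * x = x := by rw [hab, map_one, one_mul]
      rw [← h3, map_add, Ideal.Quotient.eq_zero_iff_mem.2 ha, zero_add, map_mul, map_natCast, mul_assoc,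
        ← nsmul_eq_mul, h1, mul_zero]
    rw [h2, addOrderOf_zero] at hx
    exact hp.ne_one hx.symm
  refine ⟨n₁ * Ideal.absNorm m, ?_, ?_, e, ?_⟩
  · intro h
    rcases (hp.dvd_mul).1 h with h | h
    · exact hn₁ h
    · exact hn2 h
  · push_cast
    exact Ideal.mul_mem_left _ _ (Ideal.absNorm_mem m)
  · rw [← mul_assoc, ← hn]
    push_cast
    exact Ideal.mul_mem_right _ _ (Ideal.absNorm_mem _)

theorem u1_key [IsPrincipalIdealRing (𝓞 K)]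
    {N : Ideal (𝓞 K)} (hN : N ≠ ⊥) {m : Ideal (𝓞 L)} (hm : m ≠ ⊥) {p : ℕ} (hp : p.Prime)
    (hmp : IsCoprime m (Ideal.span {(p : 𝓞 L)})) {k : Type*} [Field k] [CharP k p] (r₁ r₂ : 𝓞 L →+* k)
    (χ : Ideal (𝓞 L) →*₀ k)
    (h1 : ∀ x : 𝓞 L, x - 1 ∈ m → IsCoprime (Ideal.span {x}) (Ideal.span {(p : 𝓞 L)}) →
      χ (Ideal.span {x}) = r₁ x * r₂ x)
    (h2 : ∀ π : 𝓞 K, (Prime π ∧ ¬ π ∣ (p : 𝓞 K) ∧ ¬ N ≤ Ideal.span {π}) → χ (up L π) ^ 2 = (Ideal.absNorm (Ideal.span {π}) : k) ^ 2)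
    (σ : 𝓞 K →+* 𝓞 K) (hσ : ∀ a : 𝓞 K, a * σ a = ((Algebra.norm ℤ a : ℤ) : 𝓞 K))
    (he : ∀ a : 𝓞 K, r₂ (algebraMap (𝓞 K) (𝓞 L) a) = r₁ (algebraMap (𝓞 K) (𝓞 L) a))
    (z : 𝓞 K) (hz : r₁ (algebraMap (𝓞 K) (𝓞 L) z) ≠ 0) (hz' : r₁ (algebraMap (𝓞 K) (𝓞 L) (σ z)) ≠ 0) :
    r₁ (algebraMap (𝓞 K) (𝓞 L) z) ^ 2 = r₁ (algebraMap (𝓞 K) (𝓞 L) (σ z)) ^ 2 := by
  obtain ⟨M, hpM, hMm, e, he2⟩ := u1_mod hN hm hp hmp
  have hcop : IsCoprime (M : ℤ) (p : ℤ) := by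
    rw [Nat.isCoprime_iff_coprime]
    exact ((Nat.Prime.coprime_iff_not_dvd hp).2 hpM).symm
  obtain ⟨M', v, hMv⟩ := hcop
  have hk1 : (M' : k) * (M : k) = 1 := by
    have h3 := congrArg (Int.cast : ℤ → k) hMv
    push_cast at h3
    rw [CharP.cast_eq_zero k p, mul_zero, add_zero] at h3
    exact h3
  set x : 𝓞 K := 1 + (M : 𝓞 K) * ((M' : 𝓞 K) * (z - 1)) with hx
  have hfx : r₁ (algebraMap (𝓞 K) (𝓞 L) x) = r₁ (algebraMap (𝓞 K) (𝓞 L) z) := by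
    rw [hx]
    simp only [map_add, map_mul, map_one, map_natCast, map_intCast, map_sub]
    linear_combination (r₁ (algebraMap (𝓞 K) (𝓞 L) z) - 1) * hk1
  have hfsx : r₁ (algebraMap (𝓞 K) (𝓞 L) (σ x)) = r₁ (algebraMap (𝓞 K) (𝓞 L) (σ z)) := by
    rw [hx]
    simp only [map_add, map_mul, map_one, map_natCast, map_intCast, map_sub]
    linear_combination (r₁ (algebraMap (𝓞 K) (𝓞 L) (σ z)) - 1) * hk1
  set n : ℤ := Algebra.norm ℤ x with hn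
  have hnk : (n : k) = r₁ (algebraMap (𝓞 K) (𝓞 L) z) * r₁ (algebraMap (𝓞 K) (𝓞 L) (σ z)) := by
    rw [← hfx, ← hfsx, ← map_mul, ← map_mul, hσ x, map_intCast, map_intCast]
  have hn0 : (n : k) ≠ 0 := by
    rw [hnk]; exact mul_ne_zero hz hz'
  have hpn : ¬ (p : ℤ) ∣ n := fun h => hn0 ((CharP.intCast_eq_zero_iff k p n).2 h)
  have hcn : IsCoprime n (p : ℤ) :=
    ((Nat.prime_iff_prime_int.1 hp).coprime_iff_not_dvd.2 hpn).symm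
  have hcK : IsCoprime x (p : 𝓞 K) := by
    obtain ⟨u, w, huw⟩ := hcn
    refine ⟨(u : 𝓞 K) * σ x, (w : 𝓞 K), ?_⟩
    have h3 := congrArg (Int.cast : ℤ → 𝓞 K) huw
    push_cast at h3
    rw [mul_assoc, mul_comm (σ x) x, hσ x]
    exact h3
  have hcL : IsCoprime (algebraMap (𝓞 K) (𝓞 L) x) (p : 𝓞 L) := by
    have h3 := hcK.map (algebraMap (𝓞 K) (𝓞 L))
    rwa [map_natCast] at h3
  have hx0 : x ≠ 0 := by
    rintro h0
    rw [h0, map_zero, map_zero] at hfx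
    exact hz hfx.symm
  have hcond : ∀ π : 𝓞 K, Prime π → π ∣ x → ¬ π ∣ (p : 𝓞 K) ∧ ¬ N ≤ Ideal.span {π} := by
    intro π hπ hd
    have hA : ¬ π ∣ (p : 𝓞 K) := fun h => hπ.not_isUnit (hcK.isUnit_of_dvd' hd h)
    refine ⟨hA, fun h => ?_⟩
    have h3 := Ideal.mem_span_singleton.1 (h he2)
    push_cast at h3
    rcases hπ.dvd_or_dvd h3 with h4 | h4
    · exact hA (hπ.dvd_of_dvd_pow h4)
    · have h5 : π ∣ x - (M : 𝓞 K) * ((M' : 𝓞 K) * (z - 1)) := dvd_sub hd (h4.mul_right _)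
      have h6 : x - (M : 𝓞 K) * ((M' : 𝓞 K) * (z - 1)) = 1 := by rw [hx]; ring
      rw [h6] at h5
      exact hπ.not_isUnit (isUnit_of_dvd_one h5)
  have hsq := u1_sq χ h2 x hx0 hcond
  have hval : χ (up L x) = r₁ (algebraMap (𝓞 K) (𝓞 L) x) * r₂ (algebraMap (𝓞 K) (𝓞 L) x) := by
    refine h1 _ ?_ ?_
    · rw [hx]
      simp only [map_add, map_mul, map_one, map_natCast, map_intCast, map_sub]
      rw [add_sub_cancel_left]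
      exact m.mul_mem_right _ hMm
    · exact (Ideal.isCoprime_span_singleton_iff _ _).2 hcL
  have hab : ((Ideal.absNorm (Ideal.span {x}) : ℕ) : k) ^ 2 = (n : k) ^ 2 := by
    rw [Ideal.absNorm_span_singleton, ← hn]
    have h3 : ((n.natAbs : ℕ) : ℤ) ^ 2 = n ^ 2 := Int.natAbs_sq n
    have h4 := congrArg (Int.cast : ℤ → k) h3
    rw [Int.cast_pow, Int.cast_pow, Int.cast_natCast] at h4
    exact h4
  rw [hval, hab, he, hnk, hfx] at hsq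
  have h7 : r₁ (algebraMap (𝓞 K) (𝓞 L) z) ^ 2 ≠ 0 := pow_ne_zero _ hz
  apply mul_left_cancel₀ h7
  linear_combination hsq

theorem U1_norm [IsTotallyComplex K] [IsPrincipalIdealRing (𝓞 K)] (hK : Module.finrank ℚ K = 2)
    {N : Ideal (𝓞 K)} (hN : N ≠ ⊥) {m : Ideal (𝓞 L)} (hm : m ≠ ⊥) {p : ℕ} (hp : p.Prime) (hp3 : 3 < p)
    (hmp : IsCoprime m (Ideal.span {(p : 𝓞 L)})) {k : Type*} [Field k] [CharP k p] (r₁ r₂ : 𝓞 L →+* k)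
    (χ : Ideal (𝓞 L) →*₀ k)
    (h1 : ∀ x : 𝓞 L, x - 1 ∈ m → IsCoprime (Ideal.span {x}) (Ideal.span {(p : 𝓞 L)}) →
      χ (Ideal.span {x}) = r₁ x * r₂ x)
    (h2 : ∀ π : 𝓞 K, (Prime π ∧ ¬ π ∣ (p : 𝓞 K) ∧ ¬ N ≤ Ideal.span {π}) → χ (up L π) ^ 2 = (Ideal.absNorm (Ideal.span {π}) : k) ^ 2) (a : 𝓞 K) :
    r₁ (algebraMap (𝓞 K) (𝓞 L) a) * r₂ (algebraMap (𝓞 K) (𝓞 L) a) = ((Algebra.norm ℤ a : ℤ) : k) := by
  obtain ⟨σ, hσ, hσσ, hσc, hσf⟩ := Z3_conj (K := K) hK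
  have hdich : ∀ a : 𝓞 K, r₂ (algebraMap (𝓞 K) (𝓞 L) a) = r₁ (algebraMap (𝓞 K) (𝓞 L) a) ∨
      r₂ (algebraMap (𝓞 K) (𝓞 L) a) = r₁ (algebraMap (𝓞 K) (𝓞 L) (σ a)) := by
    intro a
    obtain ⟨s, hs⟩ := hσf (a + σ a) (by rw [map_add, hσσ, add_comm])
    have e1 : r₂ (algebraMap (𝓞 K) (𝓞 L) a) + r₂ (algebraMap (𝓞 K) (𝓞 L) (σ a)) =
        r₁ (algebraMap (𝓞 K) (𝓞 L) a) + r₁ (algebraMap (𝓞 K) (𝓞 L) (σ a)) := by
      rw [← map_add, ← map_add, ← map_add, ← map_add, hs]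
      simp only [map_intCast]
    have e2 : r₂ (algebraMap (𝓞 K) (𝓞 L) a) * r₂ (algebraMap (𝓞 K) (𝓞 L) (σ a)) =
        r₁ (algebraMap (𝓞 K) (𝓞 L) a) * r₁ (algebraMap (𝓞 K) (𝓞 L) (σ a)) := by
      rw [← map_mul, ← map_mul, ← map_mul, ← map_mul, hσ]
      simp only [map_intCast]
    have e3 : (r₂ (algebraMap (𝓞 K) (𝓞 L) a) - r₁ (algebraMap (𝓞 K) (𝓞 L) a)) *
        (r₂ (algebraMap (𝓞 K) (𝓞 L) a) - r₁ (algebraMap (𝓞 K) (𝓞 L) (σ a))) = 0 := by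
      linear_combination r₂ (algebraMap (𝓞 K) (𝓞 L) a) * e1 - e2
    rcases mul_eq_zero.1 e3 with h | h
    · exact Or.inl (sub_eq_zero.1 h)
    · exact Or.inr (sub_eq_zero.1 h)
  have key : ∀ a : 𝓞 K, r₂ (algebraMap (𝓞 K) (𝓞 L) a) = r₁ (algebraMap (𝓞 K) (𝓞 L) (σ a)) := by
    rcases z6_dich ((r₂.comp (algebraMap (𝓞 K) (𝓞 L))).toAddMonoidHom)
      ((r₁.comp (algebraMap (𝓞 K) (𝓞 L))).toAddMonoidHom)
      (((r₁.comp (algebraMap (𝓞 K) (𝓞 L))).comp σ).toAddMonoidHom) hdich with h | h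
    · have he : ∀ a : 𝓞 K, r₂ (algebraMap (𝓞 K) (𝓞 L) a) = r₁ (algebraMap (𝓞 K) (𝓞 L) a) := h
      intro z
      rw [he]
      obtain ⟨n, hn1, hn2, hn3⟩ := z6_choose hp hp3 (r₁ (algebraMap (𝓞 K) (𝓞 L) z))
        (r₁ (algebraMap (𝓞 K) (𝓞 L) (σ z)))
      have e1 : r₁ (algebraMap (𝓞 K) (𝓞 L) (z + n)) = r₁ (algebraMap (𝓞 K) (𝓞 L) z) + n := by
        simp only [map_add, map_natCast]
      have e2 : r₁ (algebraMap (𝓞 K) (𝓞 L) (σ (z + n))) = r₁ (algebraMap (𝓞 K) (𝓞 L) (σ z)) + n := by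
        simp only [map_add, map_natCast]
      have h3 := u1_key hN hm hp hmp r₁ r₂ χ h1 h2 σ hσ he (z + n) (by rw [e1]; exact hn1) (by rw [e2]; exact hn2)
      rw [e1, e2] at h3
      have h4 : (r₁ (algebraMap (𝓞 K) (𝓞 L) z) - r₁ (algebraMap (𝓞 K) (𝓞 L) (σ z))) *
          (r₁ (algebraMap (𝓞 K) (𝓞 L) z) + r₁ (algebraMap (𝓞 K) (𝓞 L) (σ z)) + 2 * n) = 0 := by
        linear_combination h3
      exact sub_eq_zero.1 ((mul_eq_zero.1 h4).resolve_right hn3)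
    · exact h
  rw [key, ← map_mul, ← map_mul, hσ, map_intCast, map_intCast]

end Pool.Agent.H2S
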