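import Pool.Agent.Lib.H2S.Z1
import Pool.Agent.Lib.H2S.Z2
import Pool.Agent.Lib.H2S.Z4
import Pool.Agent.Lib.H2S.U0
import Pool.Agent.Lib.H2S.U1

/-!
# U2: the exceptional set of `(L, m)`
-/

set_option autoImplicit false
namespace Pool.Agent.H2S
open NumberField

theorem U2_exc (K L : Type) [Field K] [NumberField K] [Field L] [NumberField L] [Algebra K L] [IsTotallyComplex K]
    [IsPrincipalIdealRing (𝓞 K)] (hK : Module.finrank ℚ K = 2) (hL : Module.finrank K L = 2)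
    {N : Ideal (𝓞 K)} (hN : N ≠ ⊥) {m : Ideal (𝓞 L)} (hm : m ≠ ⊥) :
    ∃ S : Finset ℕ, ∀ p : ℕ, p.Prime → 3 < p → p ∉ S → IsCoprime m (Ideal.span {(p : 𝓞 L)}) →
      ∀ τ : L ≃ₐ[K] L, τ ≠ 1 →
      ∀ (k : Type) [Field k] [CharP k p] (r₁ r₂ : 𝓞 L →+* k) (χ : Ideal (𝓞 L) →*₀ k),
        UPre N p r₁ r₂ m χ → CMT τ r₁ r₂ := by
  classical
  have hquad : Algebra.IsQuadraticExtension K L := ⟨hL⟩
  have hgal : IsGalois K L := inferInstance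
  have hcard : Nat.card (L ≃ₐ[K] L) = 2 := by rw [IsGalois.card_aut_eq_finrank, hL]
  obtain ⟨τ, hτ⟩ : ∃ τ : L ≃ₐ[K] L, τ ≠ 1 := by
    by_contra hc
    push Not at hc
    have : Nat.card (L ≃ₐ[K] L) = 1 := by
      rw [Nat.card_eq_one_iff_unique]
      exact ⟨⟨fun a b => by rw [hc a, hc b]⟩, ⟨1⟩⟩
    omega
  have hall : ∀ g : L ≃ₐ[K] L, g = 1 ∨ g = τ := by
    intro g
    by_contra hc
    push Not at hc
    have : ({1, τ, g} : Finset (L ≃ₐ[K] L)).card ≤ Nat.card (L ≃ₐ[K] L) := by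
      rw [Nat.card_eq_fintype_card]
      exact Finset.card_le_univ _
    rw [hcard, Finset.card_eq_three.2 ⟨1, τ, g, hτ.symm, hc.1.symm, hc.2.symm, rfl⟩] at this
    omega
  obtain ⟨ε, hε1, hεm, φ, hφ⟩ := Z1_unit hK hL τ hτ hm
  obtain ⟨σ, hσ1, hσσ, hσ2, hσ3⟩ := Z3_conj hK
  have hi : IsIntegral ℤ (τ ((ε : 𝓞 L) : L)) := by
    have := (ε : 𝓞 L).isIntegral_coe.map (τ : L →ₐ[K] L).toRingHom.toIntAlgHom
    exact this
  have hprod : ((ε : 𝓞 L)) * ⟨τ ((ε : 𝓞 L) : L), hi⟩ = 1 := by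
    apply RingOfIntegers.ext
    exact hε1
  obtain ⟨t, ht⟩ : ∃ t : 𝓞 K, ((ε : 𝓞 L)) + ⟨τ ((ε : 𝓞 L) : L), hi⟩ = algebraMap (𝓞 K) (𝓞 L) t := by
    have hττ : τ (τ ((ε : 𝓞 L) : L)) = ((ε : 𝓞 L) : L) := by
      rcases hall (τ * τ) with h | h
      · exact DFunLike.congr_fun h ((ε : 𝓞 L) : L)
      · exact absurd (mul_eq_left.1 h) hτ
    obtain ⟨t, ht⟩ : ∃ t : K, algebraMap K L t = ((ε : 𝓞 L) : L) + τ ((ε : 𝓞 L) : L) := by
      have h1 := (IsGalois.mem_bot_iff_fixed (F := K) (E := L) (((ε : 𝓞 L) : L) + τ ((ε : 𝓞 L) : L))).2 (by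
        intro g
        rcases hall g with rfl | rfl
        · rfl
        · rw [map_add, hττ, add_comm])
      exact IntermediateField.mem_bot.1 h1
    have hint : IsIntegral ℤ t := by
      have h2 : IsIntegral ℤ (algebraMap K L t) := by
        rw [ht]
        exact (ε : 𝓞 L).isIntegral_coe.add hi
      exact (isIntegral_algebraMap_iff (algebraMap K L).injective).1 h2
    refine ⟨⟨t, hint⟩, ?_⟩
    apply RingOfIntegers.ext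
    exact ht.symm
  have hpre : ∀ p : ℕ, p.Prime → 3 < p → IsCoprime m (Ideal.span {(p : 𝓞 L)}) →
      ∀ (k : Type) [Field k] [CharP k p] (r₁ r₂ : 𝓞 L →+* k) (χ : Ideal (𝓞 L) →*₀ k),
        UPre N p r₁ r₂ m χ → (∀ a : 𝓞 K, r₁ (algebraMap (𝓞 K) (𝓞 L) a) *
          r₂ (algebraMap (𝓞 K) (𝓞 L) a) = ((Algebra.norm ℤ a : ℤ) : k)) ∧ r₁ (ε : 𝓞 L) * r₂ (ε : 𝓞 L) = 1 := by
    intro p hp hp3 hmp k _ _ r₁ r₂ χ hχ
    refine ⟨fun a => U1_norm hK hN hm hp hp3 hmp r₁ r₂ χ hχ.1 hχ.2 a, ?_⟩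
    have htop : Ideal.span {(ε : 𝓞 L)} = ⊤ := Ideal.span_singleton_eq_top.2 ε.isUnit
    have hco : IsCoprime (Ideal.span {(ε : 𝓞 L)}) (Ideal.span {(p : 𝓞 L)}) := by
      rw [htop, ← Ideal.one_eq_top]
      exact isCoprime_one_left
    rw [← hχ.1 (ε : 𝓞 L) hεm hco, htop, ← Ideal.one_eq_top]
    exact map_one χ
  by_cases hint : t = σ t
  · obtain ⟨n, hn⟩ := hσ3 t hint.symm
    obtain ⟨cc, hcc, hccε⟩ := Z2_cm hK hL τ ((ε : 𝓞 L) : L) hε1 φ hφ n (by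
      have := congrArg (algebraMap (𝓞 L) L) ht
      rw [hn] at this
      simpa using this)
    obtain ⟨D, hD0, hD⟩ := Z4_type hL τ ε hε1 φ hφ σ hσ1 hσ2 cc hcc hccε
    refine ⟨D.primeFactors, fun p hp hp3 hpS hmp τ' hτ' k _ _ r₁ r₂ χ hχ => ?_⟩
    obtain ⟨hn1, hn2⟩ := hpre p hp hp3 hmp k r₁ r₂ χ hχ
    have : τ' = τ := (hall τ').resolve_left hτ'
    rw [this]
    exact ⟨cc, hcc, hD p hp (fun h => hpS (Nat.mem_primeFactors.2 ⟨hp, h, hD0⟩)) k r₁ r₂ hn1 hn2⟩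
  · refine ⟨(Algebra.norm ℤ (t - σ t)).natAbs.primeFactors, fun p hp hp3 hpS hmp τ' hτ' k _ _ r₁ r₂ χ hχ => ?_⟩
    exfalso
    obtain ⟨hn1, hn2⟩ := hpre p hp hp3 hmp k r₁ r₂ χ hχ
    have h := Z3_div r₁ r₂ hn1 σ hσ1 (ε : 𝓞 L) ⟨τ ((ε : 𝓞 L) : L), hi⟩ hprod t ht hn2
    apply hpS
    refine Nat.mem_primeFactors.2 ⟨hp, Int.natCast_dvd.1 h, ?_⟩
    rw [Int.natAbs_ne_zero]
    exact Algebra.norm_ne_zero_iff.2 (sub_ne_zero.2 hint)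

end Pool.Agent.H2S
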