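import Pool.Agent.Lib.H2S.TD

/-!
# H2S, chunk X03 (size S/M): second derivative test, real parts of harmonic functions

`x03`: suppose `c > 0`.  `f' 0 = 0` (`IsLocalMax.hasDerivAt_eq_zero`), so `f' s / s → c > 0` and `f' s > 0` for small `s > 0`
(`hasDerivAt_iff_tendsto_slope`, or `HasDerivAt.eventually`-like); so `f` is strictly increasing on some `[0, r]` (`strictMonoOn_of_deriv_pos`), contradiction with the
local maximum.  (Alternatively `isLocalMin_of_deriv_deriv_pos` and: `f` is locally constant, so `c = 0`.)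
`x03L`: compose all derivatives with the continuous linear map `L` (`L.hasFDerivAt.comp_hasDerivAt`, `DifferentiableAt` composition; `L (P.2 • x) = P.2 • L x`).
-/

set_option autoImplicit false
namespace Pool.Agent.H2S
open Complex MeasureTheory

theorem x03 {f f' : ℝ → ℝ} {c : ℝ} (h : ∀ᶠ s in nhds (0 : ℝ), HasDerivAt f (f' s) s) (h2 : HasDerivAt f' c 0)
    (hmax : IsLocalMax f 0) : c ≤ 0 := by
  by_contra hc
  rw [not_le] at hc
  have hE : deriv f =ᶠ[nhds 0] f' := h.mono fun s hs => hs.deriv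
  have h0 : HasDerivAt f (f' 0) 0 := h.self_of_nhds
  have hdd : deriv (deriv f) 0 = c := by
    rw [hE.deriv_eq, h2.deriv]
  have hd : deriv f 0 = 0 := hmax.deriv_eq_zero
  have hmin : IsLocalMin f 0 :=
    isLocalMin_of_deriv_deriv_pos (by rw [hdd]; exact hc) hd h0.continuousAt
  have hconst : f =ᶠ[nhds 0] fun _ => f 0 := by
    filter_upwards [hmax, hmin] with s h1 h3
    exact le_antisymm h1 h3
  have hz : deriv f =ᶠ[nhds 0] fun _ => 0 := by
    have h4 := hconst.deriv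
    filter_upwards [h4] with s hs
    rw [hs, deriv_const]
  have hf0 : f' =ᶠ[nhds 0] fun _ => (0 : ℝ) := hE.symm.trans hz
  have h5 : deriv f' 0 = 0 := by
    rw [hf0.deriv_eq, deriv_const]
  rw [h2.deriv] at h5
  linarith

theorem x03L {u : ℂ × ℝ → ℂ} (hu : Harm u) (L : ℂ →L[ℝ] ℝ) : Harm fun P => L (u P) := by
  obtain ⟨hd, ux, uy, ut, uxx, uyy, utt, h⟩ := hu
  refine ⟨fun P hP => L.differentiableAt.comp P (hd P hP), fun P => L (ux P), fun P => L (uy P),
    fun P => L (ut P), fun P => L (uxx P), fun P => L (uyy P), fun P => L (utt P), fun P hP => ?_⟩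
  obtain ⟨h1, h2, h3, h4, h5, h6, h7⟩ := h P hP
  refine ⟨L.hasFDerivAt.comp_hasDerivAt (0 : ℝ) h1, L.hasFDerivAt.comp_hasDerivAt (0 : ℝ) h2,
    L.hasFDerivAt.comp_hasDerivAt (0 : ℝ) h3, L.hasFDerivAt.comp_hasDerivAt (0 : ℝ) h4,
    L.hasFDerivAt.comp_hasDerivAt (0 : ℝ) h5, L.hasFDerivAt.comp_hasDerivAt (0 : ℝ) h6, ?_⟩
  beta_reduce
  rw [← h7, L.map_smul, map_add, map_add]

theorem x03a {u v : ℂ × ℝ → ℂ} (hu : Harm u) (hv : Harm v) : Harm fun P => u P + v P := by
  obtain ⟨hd, ux, uy, ut, uxx, uyy, utt, h⟩ := hu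
  obtain ⟨hd', vx, vy, vt, vxx, vyy, vtt, h'⟩ := hv
  refine ⟨fun P hP => (hd P hP).add (hd' P hP), fun P => ux P + vx P, fun P => uy P + vy P,
    fun P => ut P + vt P, fun P => uxx P + vxx P, fun P => uyy P + vyy P, fun P => utt P + vtt P,
    fun P hP => ?_⟩
  obtain ⟨h1, h2, h3, h4, h5, h6, h7⟩ := h P hP
  obtain ⟨k1, k2, k3, k4, k5, k6, k7⟩ := h' P hP
  refine ⟨h1.add k1, h2.add k2, h3.add k3, h4.add k4, h5.add k5, h6.add k6, ?_⟩
  beta_reduce
  rw [← h7, ← k7, ← smul_add]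
  congr 1
  ring

theorem x03c {u : ℂ × ℝ → ℂ} (hu : Harm u) (c : ℂ) : Harm fun P => c * u P := by
  obtain ⟨hd, ux, uy, ut, uxx, uyy, utt, h⟩ := hu
  refine ⟨fun P hP => (hd P hP).const_mul c, fun P => c * ux P, fun P => c * uy P,
    fun P => c * ut P, fun P => c * uxx P, fun P => c * uyy P, fun P => c * utt P, fun P hP => ?_⟩
  obtain ⟨h1, h2, h3, h4, h5, h6, h7⟩ := h P hP
  refine ⟨h1.const_mul c, h2.const_mul c, h3.const_mul c, h4.const_mul c, h5.const_mul c,
    h6.const_mul c, ?_⟩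
  beta_reduce
  rw [← h7, Complex.real_smul, Complex.real_smul]
  ring

end Pool.Agent.H2S
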