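import Pool.Agent.Lib.H2S.X03

/-!
# H2S, chunk X04 (size M): comparison with the barrier

Let `q P = ‖P.1 - Q.1‖ ^ 2 + (P.2 - Q.2) ^ 2 = (re (P.1 - Q.1)) ^ 2 + (im (P.1 - Q.1)) ^ 2 + (P.2 - Q.2) ^ 2`, `e = exp (- α q P)`,
`d₁ = re (P.1 - Q.1)`, `d₂ = im (P.1 - Q.1)`, `d₃ = P.2 - Q.2`.  Along the `j`-th coordinate line through `P` the function
`s ↦ exp (- α q)` is `exp (- α (q P + 2 d_j s + s ^ 2))`; its derivative at `s` is `- 2 α (d_j + s) exp (..)`, and the derivative of this at `0` is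
`(4 α ^ 2 d_j ^ 2 - 2 α) e`.  The function `g s = u (P + s e_j) + ε exp (..)` has a local maximum at `s = 0`
(`hmax` composed with the continuous map `s ↦ P + s e_j`), is differentiable near `0` (the hypothesis `Harm` at the points `P + s e_j ∈ H3`,
translated: `HasDerivAt (fun s' => u (P.1 + s', P.2)) (ux (P.1 + s, P.2)) s` for small `s`), so by `x03`
`u_jj + ε (4 α ^ 2 d_j ^ 2 - 2 α) e ≤ 0` for `j = 1, 2, 3`, and `u_t + ε (- 2 α d₃) e = 0` (`IsLocalMax.hasDerivAt_eq_zero`).  Multiply the sum of the three inequalities by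
`t = P.2 > 0`: `u_t + ε t (4 α ^ 2 q - 6 α) e ≤ 0`, so `2 α d₃ + t (4 α ^ 2 q - 6 α) ≤ 0` (`ε e > 0`); divide by `2 α`:
`(t - Q.2) + t (2 α q - 3) ≤ 0`.
-/

set_option autoImplicit false
namespace Pool.Agent.H2S
open Complex MeasureTheory

/-- The second derivative test along a line. -/
theorem x04_line {u v : ℂ × ℝ → ℝ} {q : ℂ × ℝ → ℝ} {α ε d q0 w : ℝ} {γ : ℝ → ℂ × ℝ} (hγ : Continuous γ)
    (hq : ∀ s, q (γ s) = q0 + 2 * d * s + s ^ 2)
    (h1 : ∀ᶠ s in nhds (0 : ℝ), HasDerivAt (fun s => u (γ s)) (v (γ s)) s)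
    (h2 : HasDerivAt (fun s => v (γ s)) w 0)
    (hmax : IsLocalMax (fun P' : ℂ × ℝ => u P' + ε * Real.exp (-(α * q P'))) (γ 0)) :
    w + ε * (4 * α ^ 2 * d ^ 2 - 2 * α) * Real.exp (-(α * q0)) ≤ 0 ∧
      v (γ 0) + ε * (-(2 * α * d)) * Real.exp (-(α * q0)) = 0 := by
  have hm : IsLocalMax (fun s => u (γ s) + ε * Real.exp (-(α * (q0 + 2 * d * s + s ^ 2)))) 0 := by
    have h3 := hmax.comp_continuous hγ.continuousAt
    have h4 : ((fun P' : ℂ × ℝ => u P' + ε * Real.exp (-(α * q P'))) ∘ γ) =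
        fun s => u (γ s) + ε * Real.exp (-(α * (q0 + 2 * d * s + s ^ 2))) := by
      funext s
      show u (γ s) + ε * Real.exp (-(α * q (γ s))) = _
      rw [hq]
    rw [h4] at h3
    exact h3
  have hp : ∀ s : ℝ, HasDerivAt (fun s : ℝ => -(α * (q0 + 2 * d * s + s ^ 2))) (-(α * (2 * d + 2 * s))) s := by
    intro s
    have a1 : HasDerivAt (fun s : ℝ => q0 + 2 * d * s + s ^ 2) (0 + 2 * d * 1 + 2 * s ^ (2 - 1) * 1) s :=
      ((hasDerivAt_const s q0).add ((hasDerivAt_id s).const_mul (2 * d))).add ((hasDerivAt_id s).pow 2)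
    have a2 := (a1.const_mul α).neg
    refine a2.congr_deriv ?_
    norm_num
  have he : ∀ s : ℝ, HasDerivAt (fun s : ℝ => ε * Real.exp (-(α * (q0 + 2 * d * s + s ^ 2))))
      (ε * (Real.exp (-(α * (q0 + 2 * d * s + s ^ 2))) * (-(α * (2 * d + 2 * s))))) s := fun s =>
    ((hp s).exp).const_mul ε
  have hf : ∀ᶠ s in nhds (0 : ℝ), HasDerivAt (fun s => u (γ s) + ε * Real.exp (-(α * (q0 + 2 * d * s + s ^ 2))))
      (v (γ s) + ε * (Real.exp (-(α * (q0 + 2 * d * s + s ^ 2))) * (-(α * (2 * d + 2 * s))))) s := by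
    filter_upwards [h1] with s hs
    exact hs.add (he s)
  have hl : HasDerivAt (fun s : ℝ => -(α * (2 * d + 2 * s))) (-(α * (0 + 2 * 1))) 0 :=
    (((hasDerivAt_const (0 : ℝ) (2 * d)).add ((hasDerivAt_id (0 : ℝ)).const_mul 2)).const_mul α).neg
  have hf2 := h2.add ((((hp 0).exp).mul hl).const_mul ε)
  have h5 := x03 hf hf2 hm
  have h6 := hm.hasDerivAt_eq_zero hf.self_of_nhds
  have e0 : -(α * (q0 + 2 * d * 0 + (0 : ℝ) ^ 2)) = -(α * q0) := by ring
  rw [e0] at h5 h6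
  constructor
  · refine le_trans (le_of_eq ?_) h5
    ring
  · refine Eq.trans ?_ h6
    ring

theorem x04_shift {g : ℝ → ℝ} {c s : ℝ} (h : HasDerivAt (fun s' => g (s + s')) c 0) : HasDerivAt g c s := by
  have h1 : HasDerivAt (fun s' => g (s + s')) c (s - s) := by
    rw [sub_self]
    exact h
  have h2 := HasDerivAt.comp_sub_const s s h1
  have h3 : (fun x => g (s + (x - s))) = g := by
    funext x
    congr 1
    ring
  rw [h3] at h2
  exact h2

theorem x04 {u : ℂ × ℝ → ℝ} (hu : Harm u) {Q : ℂ × ℝ} {α ε : ℝ} (hα : 0 < α) (hε : 0 < ε) {P : ℂ × ℝ} (hP : P ∈ H3)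
    (hmax : IsLocalMax (fun P' : ℂ × ℝ => u P' + ε * Real.exp (-(α * (‖P'.1 - Q.1‖ ^ 2 + (P'.2 - Q.2) ^ 2)))) P) :
    P.2 * (2 * α * (‖P.1 - Q.1‖ ^ 2 + (P.2 - Q.2) ^ 2) - 2) ≤ Q.2 := by
  obtain ⟨-, ux, uy, ut, uxx, uyy, utt, hd⟩ := hu
  have ht : 0 < P.2 := hP
  have hn : ∀ z : ℂ, ‖z‖ ^ 2 = z.re ^ 2 + z.im ^ 2 := by
    intro z
    rw [← Complex.normSq_eq_norm_sq, Complex.normSq_apply]
    ring
  obtain ⟨q0, hq0⟩ : ∃ q0, q0 = ‖P.1 - Q.1‖ ^ 2 + (P.2 - Q.2) ^ 2 := ⟨_, rfl⟩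
  have hq0' : q0 = (P.1 - Q.1).re ^ 2 + (P.1 - Q.1).im ^ 2 + (P.2 - Q.2) ^ 2 := by
    rw [hq0, hn]
  obtain ⟨-, -, -, dxx, dyy, dtt, heq⟩ := hd P hP
  have k1 := x04_line (u := u) (v := ux) (q := fun P' : ℂ × ℝ => ‖P'.1 - Q.1‖ ^ 2 + (P'.2 - Q.2) ^ 2) (α := α) (ε := ε)
    (d := (P.1 - Q.1).re) (q0 := q0) (w := uxx P) (γ := fun s : ℝ => (P.1 + (s : ℂ), P.2)) (by fun_prop)
    (by
      intro s
      show ‖P.1 + (s : ℂ) - Q.1‖ ^ 2 + (P.2 - Q.2) ^ 2 = _
      rw [hn, hq0']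
      simp only [Complex.sub_re, Complex.sub_im, Complex.add_re, Complex.add_im, Complex.ofReal_re, Complex.ofReal_im]
      ring)
    (by
      refine Filter.Eventually.of_forall fun s => ?_
      apply x04_shift
      have h1 := (hd (P.1 + (s : ℂ), P.2) hP).1
      refine h1.congr_of_eventuallyEq (Filter.Eventually.of_forall fun s' => ?_)
      show u (P.1 + ((s + s' : ℝ) : ℂ), P.2) = u (P.1 + (s : ℂ) + (s' : ℂ), P.2)
      rw [Complex.ofReal_add, add_assoc])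
    dxx (by simpa using hmax)
  have k2 := x04_line (u := u) (v := uy) (q := fun P' : ℂ × ℝ => ‖P'.1 - Q.1‖ ^ 2 + (P'.2 - Q.2) ^ 2) (α := α) (ε := ε)
    (d := (P.1 - Q.1).im) (q0 := q0) (w := uyy P) (γ := fun s : ℝ => (P.1 + (s : ℂ) * Complex.I, P.2)) (by fun_prop)
    (by
      intro s
      show ‖P.1 + (s : ℂ) * Complex.I - Q.1‖ ^ 2 + (P.2 - Q.2) ^ 2 = _
      rw [hn, hq0']
      simp only [Complex.sub_re, Complex.sub_im, Complex.add_re, Complex.add_im, Complex.ofReal_re, Complex.ofReal_im,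
        Complex.mul_re, Complex.mul_im, Complex.I_re, Complex.I_im]
      ring)
    (by
      refine Filter.Eventually.of_forall fun s => ?_
      apply x04_shift
      have h1 := (hd (P.1 + (s : ℂ) * Complex.I, P.2) hP).2.1
      refine h1.congr_of_eventuallyEq (Filter.Eventually.of_forall fun s' => ?_)
      show u (P.1 + ((s + s' : ℝ) : ℂ) * Complex.I, P.2) = u (P.1 + (s : ℂ) * Complex.I + (s' : ℂ) * Complex.I, P.2)
      rw [Complex.ofReal_add, add_mul, add_assoc])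
    dyy (by simpa using hmax)
  have k3 := x04_line (u := u) (v := ut) (q := fun P' : ℂ × ℝ => ‖P'.1 - Q.1‖ ^ 2 + (P'.2 - Q.2) ^ 2) (α := α) (ε := ε)
    (d := P.2 - Q.2) (q0 := q0) (w := utt P) (γ := fun s : ℝ => (P.1, P.2 + s)) (by fun_prop)
    (by
      intro s
      show ‖P.1 - Q.1‖ ^ 2 + (P.2 + s - Q.2) ^ 2 = _
      rw [hq0]
      ring)
    (by
      have h0 : ∀ᶠ s in nhds (0 : ℝ), 0 < P.2 + s := by
        have hc : Filter.Tendsto (fun s : ℝ => P.2 + s) (nhds 0) (nhds (P.2 + 0)) :=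
          (continuous_const.add continuous_id).tendsto 0
        rw [add_zero] at hc
        exact hc.eventually (lt_mem_nhds ht)
      filter_upwards [h0] with s hs
      apply x04_shift
      have h1 := (hd (P.1, P.2 + s) hs).2.2.1
      refine h1.congr_of_eventuallyEq (Filter.Eventually.of_forall fun s' => ?_)
      show u (P.1, P.2 + (s + s')) = u (P.1, P.2 + s + s')
      rw [add_assoc])
    dtt (by simpa using hmax)
  have k4 : ut P + ε * -(2 * α * (P.2 - Q.2)) * Real.exp (-(α * q0)) = 0 := by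
    have h1 := k3.2
    rw [add_zero] at h1
    exact h1
  obtain ⟨e, he⟩ : ∃ e, e = Real.exp (-(α * q0)) := ⟨_, rfl⟩
  have hepos : 0 < e := by
    rw [he]
    exact Real.exp_pos _
  have k1' := k1.1
  have k2' := k2.1
  have k3' := k3.1
  rw [← he] at k1' k2' k3' k4
  have heq' : P.2 * (uxx P + uyy P + utt P) = ut P := heq
  rw [← hq0]
  have k5 : (uxx P + uyy P + utt P) + ε * e * (4 * α ^ 2 * q0 - 6 * α) ≤ 0 := by
    rw [hq0']
    refine le_trans (le_of_eq ?_) (add_nonpos (add_nonpos k1' k2') k3')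
    ring
  have k6 : P.2 * ((uxx P + uyy P + utt P) + ε * e * (4 * α ^ 2 * q0 - 6 * α)) ≤ 0 :=
    mul_nonpos_of_nonneg_of_nonpos ht.le k5
  have k7 : (2 * α * (ε * e)) * ((P.2 - Q.2) + P.2 * (2 * α * q0 - 3)) ≤ 0 := by
    refine le_trans (le_of_eq ?_) k6
    linear_combination -k4 - heq'
  have k8 : (P.2 - Q.2) + P.2 * (2 * α * q0 - 3) ≤ 0 := by
    by_contra h
    push Not at h
    have := mul_pos (mul_pos (mul_pos two_pos hα) (mul_pos hε hepos)) h
    linarith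
  linarith

end Pool.Agent.H2S
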