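import Pool.Agent.Lib.H2S.X04

/-!
# H2S, chunk X05 (size M/L): Hopf's lemma

Let `q P = ‖P.1 - Q.1‖ ^ 2 + (P.2 - Q.2) ^ 2` (continuous; `q P ≤ R ^ 2` implies `|P.2 - Q.2| ≤ R`, so `P.2 ≥ Q.2 - R > 0`, `P ∈ H3`).
Suppose `q y = R ^ 2` and `u y = M` (`u y ≤ M` by `hM`).  Choose `α > 0` with `(Q.2 - R) (2 α (R / 2) ^ 2 - 2) > Q.2`.
The set `{q = (R / 2) ^ 2}` is compact (closed and bounded in `ℂ × ℝ`) and nonempty, `u < M` on it, so there is `η > 0` with `u ≤ M - η` on it; put `ε = η`.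
Let `K = {(R / 2) ^ 2 ≤ q ≤ R ^ 2}` (compact, nonempty), `f P = u P + ε exp (- α q P)` (continuous on `K`, since `u` is differentiable on `H3`).
Let `x` be a maximum point of `f` on `K`.  Claim `f x ≤ M + ε exp (- α R ^ 2)`:
 * if `q x = R ^ 2`: `u x ≤ M`.
 * if `q x = (R / 2) ^ 2`: `u x ≤ M - η` and `ε exp (..) ≤ ε = η`, so `f x ≤ M`.
 * otherwise `x` is in the open set `{(R / 2) ^ 2 < q < R ^ 2}`, so `x` is a local maximum of `f`, and `x04` gives `x.2 (2 α q x - 2) ≤ Q.2`; but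
   `x.2 ≥ Q.2 - R > 0` and `q x ≥ (R / 2) ^ 2`, and `2 α (R / 2) ^ 2 - 2 > 0`: `x.2 (2 α q x - 2) ≥ (Q.2 - R) (2 α (R / 2) ^ 2 - 2) > Q.2`, contradiction.
Now let `y_s = y + s (Q - y)`, `0 ≤ s ≤ 1 / 2`: `q y_s = (1 - s) ^ 2 R ^ 2`, so `y_s ∈ K` and
`g s = u (y_s) + ε exp (- α (1 - s) ^ 2 R ^ 2) ≤ M + ε exp (- α R ^ 2) = g 0`.  `u` has a local maximum at `y` (`y ∈ H3` open, `hM`), so its derivative at `y` is `0`
(`IsLocalMax.fderiv_eq_zero`), and `g` has derivative `0 + ε 2 α R ^ 2 exp (- α R ^ 2) > 0` at `0`: contradiction with `g s ≤ g 0` for small `s > 0`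
(`HasDerivAt` positive implies `g s > g 0` for small `s > 0`).
-/

set_option autoImplicit false
namespace Pool.Agent.H2S
open Complex MeasureTheory

theorem x05 {u : ℂ × ℝ → ℝ} (hu : Harm u) {M : ℝ} (hM : ∀ P ∈ H3, u P ≤ M) {Q : ℂ × ℝ} {R : ℝ} (hR : 0 < R)
    (hQ : R < Q.2) (hlt : ∀ P : ℂ × ℝ, ‖P.1 - Q.1‖ ^ 2 + (P.2 - Q.2) ^ 2 < R ^ 2 → u P < M) (y : ℂ × ℝ)
    (hy : ‖y.1 - Q.1‖ ^ 2 + (y.2 - Q.2) ^ 2 = R ^ 2) : u y < M := by
  by_contra hcon
  have hRQ : 0 < Q.2 - R := by linarith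
  have hR2 : 0 < R ^ 2 := by positivity
  obtain ⟨q, hq⟩ : ∃ q : ℂ × ℝ → ℝ, q = fun P : ℂ × ℝ => ‖P.1 - Q.1‖ ^ 2 + (P.2 - Q.2) ^ 2 := ⟨_, rfl⟩
  have hqP : ∀ P : ℂ × ℝ, q P = ‖P.1 - Q.1‖ ^ 2 + (P.2 - Q.2) ^ 2 := fun P => by rw [hq]
  have cq : Continuous q := by
    rw [hq]
    exact ((continuous_fst.sub continuous_const).norm.pow 2).add ((continuous_snd.sub continuous_const).pow 2)
  have hqy : q y = R ^ 2 := by rw [hqP]; exact hy
  have hlow : ∀ P : ℂ × ℝ, q P ≤ R ^ 2 → Q.2 - R ≤ P.2 := by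
    intro P hP
    rw [hqP] at hP
    have h1 : (P.2 - Q.2) ^ 2 ≤ R ^ 2 := by nlinarith [sq_nonneg ‖P.1 - Q.1‖]
    have h2 := abs_le_of_sq_le_sq h1 hR.le
    have h3 := (abs_le.1 h2).1
    linarith
  have hH : ∀ P : ℂ × ℝ, q P ≤ R ^ 2 → P ∈ H3 := by
    intro P hP
    have h1 := hlow P hP
    show 0 < P.2
    linarith
  have hcomp : ∀ S : Set (ℂ × ℝ), IsClosed S → (∀ P ∈ S, q P ≤ R ^ 2) → IsCompact S := by
    intro S hS hS1
    refine IsCompact.of_isClosed_subset (isCompact_closedBall Q R) hS fun P hP => ?_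
    have h1 := hS1 P hP
    rw [hqP] at h1
    have h2 : ‖P.1 - Q.1‖ ^ 2 ≤ R ^ 2 := by nlinarith [sq_nonneg (P.2 - Q.2)]
    have h3 : (P.2 - Q.2) ^ 2 ≤ R ^ 2 := by nlinarith [sq_nonneg ‖P.1 - Q.1‖]
    have h4 := abs_le_of_sq_le_sq h2 hR.le
    have h5 := abs_le_of_sq_le_sq h3 hR.le
    rw [abs_of_nonneg (norm_nonneg _)] at h4
    rw [Metric.mem_closedBall, Prod.dist_eq]
    refine max_le ?_ ?_
    · rw [dist_eq_norm]
      exact h4
    · rw [Real.dist_eq]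
      exact h5
  have huc : ∀ P ∈ H3, ContinuousAt u P := fun P hP => (hu.1 P hP).continuousAt
  -- the exponent
  obtain ⟨α, hα, hα1⟩ : ∃ α : ℝ, 0 < α ∧ 2 * α * (R / 2) ^ 2 - 2 = Q.2 / (Q.2 - R) + 1 := by
    have h1 : 0 < Q.2 / (Q.2 - R) := div_pos (hR.trans hQ) hRQ
    refine ⟨(Q.2 / (Q.2 - R) + 3) * 2 / R ^ 2, by positivity, ?_⟩
    field_simp
    ring
  have hα2 : Q.2 < (Q.2 - R) * (2 * α * (R / 2) ^ 2 - 2) := by
    rw [hα1, mul_add, mul_div_cancel₀ _ hRQ.ne', mul_one]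
    linarith
  have hα3 : 0 < 2 * α * (R / 2) ^ 2 - 2 := by
    rw [hα1]
    have h1 : 0 < Q.2 / (Q.2 - R) := div_pos (hR.trans hQ) hRQ
    linarith
  -- the inner sphere
  have hp0 : q (Q.1, Q.2 + R / 2) = (R / 2) ^ 2 := by
    rw [hqP]
    simp
  have hS1 : IsCompact {P : ℂ × ℝ | q P = (R / 2) ^ 2} := by
    refine hcomp _ (isClosed_eq cq continuous_const) fun P hP => ?_
    have h1 : q P = (R / 2) ^ 2 := hP
    rw [h1]
    nlinarith
  obtain ⟨x₀, hx₀, hx₁⟩ := hS1.exists_isMaxOn ⟨_, hp0⟩ (f := u) (fun P hP => (huc P (hH P (by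
    have h1 : q P = (R / 2) ^ 2 := hP
    rw [h1]
    nlinarith))).continuousWithinAt)
  have hx₂ : u x₀ < M := by
    refine hlt x₀ ?_
    rw [← hqP]
    have h1 : q x₀ = (R / 2) ^ 2 := hx₀
    rw [h1]
    nlinarith
  obtain ⟨ε, hε⟩ : ∃ ε : ℝ, ε = M - u x₀ := ⟨_, rfl⟩
  have hε0 : 0 < ε := by linarith
  obtain ⟨f, hf⟩ : ∃ f : ℂ × ℝ → ℝ, f = fun P' : ℂ × ℝ => u P' + ε * Real.exp (-(α * (‖P'.1 - Q.1‖ ^ 2 + (P'.2 - Q.2) ^ 2))) := ⟨_, rfl⟩
  have hfP : ∀ P, f P = u P + ε * Real.exp (-(α * q P)) := fun P => by rw [hf, hqP]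
  have hK : IsCompact {P : ℂ × ℝ | (R / 2) ^ 2 ≤ q P ∧ q P ≤ R ^ 2} :=
    hcomp _ ((isClosed_le continuous_const cq).inter (isClosed_le cq continuous_const)) fun P hP => hP.2
  have cf : ContinuousOn f {P : ℂ × ℝ | (R / 2) ^ 2 ≤ q P ∧ q P ≤ R ^ 2} := by
    intro P hP
    have h1 : f = fun P => u P + ε * Real.exp (-(α * q P)) := funext hfP
    rw [h1]
    have h2 : ContinuousAt (fun P => ε * Real.exp (-(α * q P))) P :=
      (continuous_const.mul (Real.continuous_exp.comp (continuous_const.mul cq).neg)).continuousAt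
    exact ((huc P (hH P hP.2)).add h2).continuousWithinAt
  obtain ⟨x, hxK, hx⟩ := hK.exists_isMaxOn ⟨(Q.1, Q.2 + R / 2), by
    constructor
    · rw [hp0]
    · rw [hp0]
      nlinarith⟩ cf
  have hfx : f x ≤ M + ε * Real.exp (-(α * R ^ 2)) := by
    have hxH : x ∈ H3 := hH x hxK.2
    rcases hxK.2.lt_or_eq with h1 | h1
    · rcases hxK.1.lt_or_eq with h2 | h2
      · exfalso
        have hop : IsOpen {P : ℂ × ℝ | (R / 2) ^ 2 < q P ∧ q P < R ^ 2} :=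
          (isOpen_lt continuous_const cq).inter (isOpen_lt cq continuous_const)
        have hnb : {P : ℂ × ℝ | (R / 2) ^ 2 ≤ q P ∧ q P ≤ R ^ 2} ∈ nhds x :=
          Filter.mem_of_superset (hop.mem_nhds ⟨h2, h1⟩) fun P hP => ⟨hP.1.le, hP.2.le⟩
        have hloc : IsLocalMax f x := hx.isLocalMax hnb
        rw [hf] at hloc
        have h3 := x04 hu hα hε0 hxH hloc
        rw [← hqP] at h3
        have h4 := hlow x hxK.2
        have h5 : 2 * α * (R / 2) ^ 2 - 2 ≤ 2 * α * q x - 2 := by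
          have h6 : 2 * α * (R / 2) ^ 2 ≤ 2 * α * q x := mul_le_mul_of_nonneg_left hxK.1 (by positivity)
          linarith
        have h6 : (Q.2 - R) * (2 * α * (R / 2) ^ 2 - 2) ≤ x.2 * (2 * α * q x - 2) :=
          mul_le_mul h4 h5 hα3.le (hRQ.le.trans h4)
        linarith
      · have h3 : u x ≤ u x₀ := hx₁ (show q x = (R / 2) ^ 2 from h2.symm)
        have h4 : Real.exp (-(α * q x)) ≤ 1 := by
          rw [Real.exp_le_one_iff, ← h2]
          have h5 : 0 ≤ α * (R / 2) ^ 2 := by positivity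
          linarith
        have h5 : 0 < Real.exp (-(α * R ^ 2)) := Real.exp_pos _
        rw [hfP]
        have h6 : ε * Real.exp (-(α * q x)) ≤ ε := by nlinarith
        have h7 : 0 < ε * Real.exp (-(α * R ^ 2)) := mul_pos hε0 h5
        linarith
    · rw [hfP, h1]
      have h3 := hM x hxH
      linarith
  have hyH : y ∈ H3 := hH y hqy.le
  have huy : u y = M := le_antisymm (hM y hyH) (not_lt.1 hcon)
  have hopH : IsOpen H3 := isOpen_lt continuous_const continuous_snd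
  have hmaxu : IsLocalMax u y := by
    filter_upwards [hopH.mem_nhds hyH] with P hP
    rw [huy]
    exact hM P hP
  have hfd : HasFDerivAt u (0 : ℂ × ℝ →L[ℝ] ℝ) y := by
    have h1 := (hu.1 y hyH).hasFDerivAt
    rwa [hmaxu.fderiv_eq_zero] at h1
  have hγ : HasDerivAt (fun s : ℝ => y + s • (Q - y)) (Q - y) 0 := by
    have h1 := ((hasDerivAt_id (0 : ℝ)).smul_const (Q - y)).const_add y
    simpa using h1
  have hγ0 : y + (0 : ℝ) • (Q - y) = y := by simp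
  have hug : HasDerivAt (fun s : ℝ => u (y + s • (Q - y))) 0 0 := by
    have h1 : HasFDerivAt u (0 : ℂ × ℝ →L[ℝ] ℝ) (y + (0 : ℝ) • (Q - y)) := by
      rw [hγ0]
      exact hfd
    have h2 := HasFDerivAt.comp_hasDerivAt (0 : ℝ) h1 hγ
    simp only [_root_.zero_apply] at h2
    exact h2
  have hqγ : ∀ s : ℝ, q (y + s • (Q - y)) = (1 - s) ^ 2 * R ^ 2 := by
    intro s
    have e1 : (y + s • (Q - y)).1 - Q.1 = ((1 - s : ℝ) : ℂ) * (y.1 - Q.1) := by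
      simp only [Prod.fst_add, Prod.smul_fst, Prod.fst_sub, Complex.real_smul]
      push_cast
      ring
    have e2 : (y + s • (Q - y)).2 - Q.2 = (1 - s) * (y.2 - Q.2) := by
      simp only [Prod.snd_add, Prod.smul_snd, Prod.snd_sub, smul_eq_mul]
      ring
    rw [hqP, e1, e2, norm_mul, Complex.norm_real, mul_pow, mul_pow, Real.norm_eq_abs, sq_abs, ← mul_add, hy]
  have hexp : HasDerivAt (fun s : ℝ => ε * Real.exp (-(α * ((1 - s) ^ 2 * R ^ 2))))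
      (ε * (Real.exp (-(α * ((1 - 0) ^ 2 * R ^ 2))) * (2 * α * R ^ 2))) 0 := by
    have h1 : HasDerivAt (fun s : ℝ => -(α * ((1 - s) ^ 2 * R ^ 2))) (2 * α * R ^ 2) 0 := by
      have h2 : HasDerivAt (fun s : ℝ => (1 - s)) (-1) 0 := by
        have h3 := (hasDerivAt_id (0 : ℝ)).const_sub 1
        simpa using h3
      have h4 := (((h2.pow 2).mul_const (R ^ 2)).const_mul α).neg
      have h5 : -(α * (((2 : ℕ) : ℝ) * (1 - 0) ^ (2 - 1) * (-1) * R ^ 2)) = 2 * α * R ^ 2 := by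
        push_cast
        ring
      rw [h5] at h4
      exact h4
    exact h1.exp.const_mul ε
  have hg := hug.add hexp
  have hgle : ∀ s ∈ Set.Ioo (0 : ℝ) (1 / 2), u (y + s • (Q - y)) + ε * Real.exp (-(α * ((1 - s) ^ 2 * R ^ 2))) ≤
      u (y + (0 : ℝ) • (Q - y)) + ε * Real.exp (-(α * ((1 - 0) ^ 2 * R ^ 2))) := by
    intro s hs
    have h1 : y + s • (Q - y) ∈ {P : ℂ × ℝ | (R / 2) ^ 2 ≤ q P ∧ q P ≤ R ^ 2} := by
      constructor
      · rw [hqγ]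
        have h2 : (1 / 2 : ℝ) ^ 2 ≤ (1 - s) ^ 2 := pow_le_pow_left₀ (by norm_num) (by linarith [hs.2]) 2
        nlinarith
      · rw [hqγ]
        have h2 : (1 - s) ^ 2 ≤ 1 ^ 2 := pow_le_pow_left₀ (by linarith [hs.2]) (by linarith [hs.1]) 2
        nlinarith
    have h2 : f (y + s • (Q - y)) ≤ f x := hx h1
    rw [hfP, hqγ] at h2
    rw [hγ0, huy]
    have h3 : (1 - (0 : ℝ)) ^ 2 * R ^ 2 = R ^ 2 := by ring
    rw [h3]
    exact h2.trans hfx
  have hslope := (hasDerivWithinAt_iff_tendsto_slope' (s := Set.Ioi (0 : ℝ)) (by simp)).1 (hg.hasDerivWithinAt (s := Set.Ioi (0 : ℝ)))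
  have hle : (0 : ℝ) + ε * (Real.exp (-(α * ((1 - 0) ^ 2 * R ^ 2))) * (2 * α * R ^ 2)) ≤ 0 := by
    refine le_of_tendsto hslope ?_
    filter_upwards [Ioo_mem_nhdsGT (show (0 : ℝ) < 1 / 2 by norm_num)] with s hs
    rw [slope_def_field]
    refine div_nonpos_of_nonpos_of_nonneg ?_ ?_
    · have h1 := hgle s hs
      simp only [Pi.add_apply]
      linarith
    · linarith [hs.1]
  have hpos : 0 < ε * (Real.exp (-(α * ((1 - 0) ^ 2 * R ^ 2))) * (2 * α * R ^ 2)) := by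
    have h1 : 0 < Real.exp (-(α * ((1 - 0) ^ 2 * R ^ 2))) := Real.exp_pos _
    positivity
  linarith

end Pool.Agent.H2S
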