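import Pool.Agent.Lib.H2S.X05

/-!
# H2S, chunk X06 (size M): the strong maximum principle

`M = u P₀`, `Z = {P ∈ H3 | u P = M}`.  Claim: if `P₁ ∈ Z` and `q₁ Q := ‖P₁.1 - Q.1‖ ^ 2 + (P₁.2 - Q.2) ^ 2 < (P₁.2 / 3) ^ 2` then `u Q = M`.
Proof: `|Q.2 - P₁.2| < P₁.2 / 3`, so `Q.2 > (2 / 3) P₁.2`.  Suppose `u Q ≠ M`, so `u Q < M`.
The set `C = {P | ‖P.1 - Q.1‖ ^ 2 + (P.2 - Q.2) ^ 2 ≤ q₁ Q, u P = M}` is compact (the ball lies in `H3` because `√(q₁ Q) < P₁.2 / 3 < Q.2`, `u` is continuous there) and contains `P₁`; let `y ∈ C`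
minimise `‖y.1 - Q.1‖ ^ 2 + (y.2 - Q.2) ^ 2 =: R ^ 2`, `R ≥ 0`.  `R > 0` because `y ≠ Q` (`u Q ≠ M`), `R ≤ √(q₁ Q) < Q.2`; for `‖P.1 - Q.1‖ ^ 2 + (P.2 - Q.2) ^ 2 < R ^ 2` we have
`P ∉ C`, so `u P ≠ M`, `u P < M`.  `x05` gives `u y < M`: contradiction.
So `Z` is open, and `{P ∈ H3 | u P < M}` is open (`u` continuous on the open set `H3`), `H3` is the disjoint union of these two and convex (preconnected), `P₀ ∈ Z`: `Z = H3`
(`IsPreconnected.subset_left_of_subset_union`).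
-/

set_option autoImplicit false
namespace Pool.Agent.H2S
open Complex MeasureTheory

/-- The square of the euclidean distance. -/
noncomputable def x06_q (Q P : ℂ × ℝ) : ℝ := ‖P.1 - Q.1‖ ^ 2 + (P.2 - Q.2) ^ 2

theorem x06_q_cont (Q : ℂ × ℝ) : Continuous (x06_q Q) := by
  unfold x06_q
  fun_prop

theorem x06_q_cont2 (P : ℂ × ℝ) : Continuous (fun Q => x06_q Q P) := by
  unfold x06_q
  fun_prop

theorem x06_q_nonneg (Q P : ℂ × ℝ) : 0 ≤ x06_q Q P := by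
  unfold x06_q
  positivity

theorem x06_q_eq {Q P : ℂ × ℝ} (h : x06_q Q P = 0) : P = Q := by
  unfold x06_q at h
  have h1 := sq_nonneg ‖P.1 - Q.1‖
  have h2 := sq_nonneg (P.2 - Q.2)
  have h3 : ‖P.1 - Q.1‖ ^ 2 = 0 := by linarith
  have h4 : (P.2 - Q.2) ^ 2 = 0 := by linarith
  refine Prod.ext ?_ ?_
  · exact sub_eq_zero.mp (norm_eq_zero.mp (pow_eq_zero_iff two_ne_zero |>.mp h3))
  · exact sub_eq_zero.mp (pow_eq_zero_iff two_ne_zero |>.mp h4)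

theorem x06_snd {Q P : ℂ × ℝ} {r : ℝ} (hr : 0 ≤ r) (h : x06_q Q P ≤ r ^ 2) : |P.2 - Q.2| ≤ r := by
  apply abs_le_of_sq_le_sq _ hr
  unfold x06_q at h
  have h1 := sq_nonneg ‖P.1 - Q.1‖
  linarith

theorem x06_compact (Q : ℂ × ℝ) {r : ℝ} (hr : 0 ≤ r) : IsCompact {P : ℂ × ℝ | x06_q Q P ≤ r ^ 2} := by
  refine (isCompact_closedBall Q r).of_isClosed_subset (isClosed_le (x06_q_cont Q) continuous_const) ?_
  intro P hP
  rw [Metric.mem_closedBall, Prod.dist_eq, max_le_iff]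
  constructor
  · rw [dist_eq_norm]
    have h1 : ‖P.1 - Q.1‖ ^ 2 ≤ r ^ 2 := by
      have h2 : x06_q Q P ≤ r ^ 2 := hP
      unfold x06_q at h2
      have := sq_nonneg (P.2 - Q.2)
      linarith
    exact abs_le_of_sq_le_sq' h1 hr |>.2
  · rw [Real.dist_eq]
    exact x06_snd hr hP

theorem x06_cont {u : ℂ × ℝ → ℝ} (hu : Harm u) : ContinuousOn u H3 :=
  fun P hP => (hu.1 P hP).continuousAt.continuousWithinAt

/-- The set of the maximum points is open. -/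
theorem x06_open {u : ℂ × ℝ → ℝ} (hu : Harm u) {M : ℝ} (hmax : ∀ P ∈ H3, u P ≤ M) {P₁ : ℂ × ℝ} (hP₁ : P₁ ∈ H3)
    (h1 : u P₁ = M) {Q : ℂ × ℝ} (hQ : x06_q Q P₁ < (P₁.2 / 3) ^ 2) : Q ∈ H3 ∧ u Q = M := by
  have ht : 0 < P₁.2 := hP₁
  set r := Real.sqrt (x06_q Q P₁) with hr
  have hr0 : 0 ≤ r := Real.sqrt_nonneg _
  have hrr : r ^ 2 = x06_q Q P₁ := Real.sq_sqrt (x06_q_nonneg _ _)
  have hrlt : r < P₁.2 / 3 := by
    apply lt_of_pow_lt_pow_left₀ 2 (by positivity)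
    rw [hrr]
    exact hQ
  have hQ2 := abs_le.mp (x06_snd hr0 hrr.ge)
  have hQ0 : r < Q.2 := by linarith [hQ2.1, hQ2.2]
  have hQH : Q ∈ H3 := by
    change 0 < Q.2
    linarith
  refine ⟨hQH, ?_⟩
  by_contra hne
  have hlt0 : u Q < M := lt_of_le_of_ne (hmax Q hQH) hne
  have hsub : {P : ℂ × ℝ | x06_q Q P ≤ r ^ 2} ⊆ H3 := by
    intro P hP
    have h2 := abs_le.mp (x06_snd hr0 hP)
    change 0 < P.2
    linarith [h2.1]
  have hK := x06_compact Q hr0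
  have hC : IsClosed ({P : ℂ × ℝ | x06_q Q P ≤ r ^ 2} ∩ u ⁻¹' {M}) :=
    ((x06_cont hu).mono hsub).preimage_isClosed_of_isClosed hK.isClosed isClosed_singleton
  have hCc : IsCompact ({P : ℂ × ℝ | x06_q Q P ≤ r ^ 2} ∩ u ⁻¹' {M}) :=
    hK.of_isClosed_subset hC Set.inter_subset_left
  obtain ⟨y, hyC, hymin⟩ := hCc.exists_isMinOn ⟨P₁, hrr.ge, h1⟩ (x06_q_cont Q).continuousOn
  have hyM : u y = M := hyC.2
  have hyr : x06_q Q y ≤ r ^ 2 := hyC.1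
  set R := Real.sqrt (x06_q Q y) with hR
  have hRR : R ^ 2 = x06_q Q y := Real.sq_sqrt (x06_q_nonneg _ _)
  have hRpos : 0 < R := by
    apply Real.sqrt_pos.mpr
    rcases (x06_q_nonneg Q y).lt_or_eq with h | h
    · exact h
    · exfalso
      have := x06_q_eq h.symm
      rw [this] at hyM
      exact hne hyM
  have hRr : R ≤ r := by
    apply le_of_sq_le_sq _ hr0
    rw [hRR]
    exact hyr
  have hfin := x05 hu hmax hRpos (lt_of_le_of_lt hRr hQ0) (fun P hP => by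
    have hP' : x06_q Q P < R ^ 2 := hP
    have hPr : x06_q Q P ≤ r ^ 2 := by
      rw [hRR] at hP'
      exact hP'.le.trans hyr
    refine lt_of_le_of_ne (hmax P (hsub hPr)) ?_
    intro hPM
    have h3 : x06_q Q y ≤ x06_q Q P := hymin (show P ∈ {P : ℂ × ℝ | x06_q Q P ≤ r ^ 2} ∩ u ⁻¹' {M} from ⟨hPr, hPM⟩)
    rw [← hRR] at h3
    exact absurd hP' (not_lt.mpr h3)) y hRR.symm
  exact absurd hyM hfin.ne

theorem x06_H3_open : IsOpen H3 := isOpen_lt continuous_const continuous_snd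

theorem x06_H3_conn : IsPreconnected H3 := by
  have h : H3 = (Set.univ : Set ℂ) ×ˢ (Set.Ioi (0 : ℝ)) := by
    ext P
    simp [H3]
  rw [h]
  exact isPreconnected_univ.prod isPreconnected_Ioi

theorem x06 {u : ℂ × ℝ → ℝ} (hu : Harm u) {P₀ : ℂ × ℝ} (hP₀ : P₀ ∈ H3) (hmax : ∀ P ∈ H3, u P ≤ u P₀) :
    ∀ P ∈ H3, u P = u P₀ := by
  have hZ : IsOpen {P : ℂ × ℝ | P ∈ H3 ∧ u P = u P₀} := by
    rw [isOpen_iff_mem_nhds]
    rintro P₁ ⟨hP₁, h1⟩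
    have ht : 0 < P₁.2 := hP₁
    have hU : IsOpen {Q : ℂ × ℝ | x06_q Q P₁ < (P₁.2 / 3) ^ 2} := isOpen_lt (x06_q_cont2 P₁) continuous_const
    refine Filter.mem_of_superset (hU.mem_nhds ?_) ?_
    · change x06_q P₁ P₁ < (P₁.2 / 3) ^ 2
      have h9 : x06_q P₁ P₁ = 0 := by simp [x06_q]
      rw [h9]
      positivity
    · intro Q hQ
      exact x06_open hu hmax hP₁ h1 hQ
  have hV : IsOpen (H3 ∩ u ⁻¹' (Set.Iio (u P₀))) :=
    (x06_cont hu).isOpen_inter_preimage x06_H3_open isOpen_Iio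
  have hdis : Disjoint {P : ℂ × ℝ | P ∈ H3 ∧ u P = u P₀} (H3 ∩ u ⁻¹' (Set.Iio (u P₀))) := by
    rw [Set.disjoint_left]
    rintro P ⟨_, h1⟩ ⟨_, h2⟩
    have h3 : u P < u P₀ := h2
    exact h3.ne h1
  have hcov : H3 ⊆ {P : ℂ × ℝ | P ∈ H3 ∧ u P = u P₀} ∪ (H3 ∩ u ⁻¹' (Set.Iio (u P₀))) := by
    intro P hP
    rcases (hmax P hP).lt_or_eq with h | h
    · exact Or.inr ⟨hP, h⟩
    · exact Or.inl ⟨hP, h⟩
  have h := x06_H3_conn.subset_left_of_subset_union hZ hV hdis hcov ⟨P₀, hP₀, hP₀, rfl⟩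
  intro P hP
  exact (h hP).2

end Pool.Agent.H2S
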