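import Pool.Agent.Lib.H2S.TD

/-!
# H2S, X08: oscillating series are closed under sums and scalars
-/

set_option autoImplicit false
namespace Pool.Agent.H2S
open Complex MeasureTheory

theorem x08z (v₁ v₂ : ℂ) : Osc v₁ v₂ (fun _ => 0) := by
  refine ⟨Empty, fun i _ => i.elim, fun i => i.elim, fun i => i.elim, fun i => i.elim, fun i => i.elim, ?_, ?_, ?_⟩
  · intro t _
    exact (hasSum_empty (f := fun i : Empty => ‖(i.elim : ℂ)‖)).summable
  · simp
  · intro P _
    simp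

theorem x08a {v₁ v₂ : ℂ} {S S' : ℂ × ℝ → ℂ} (hS : Osc v₁ v₂ S) (hS' : Osc v₁ v₂ S') :
    Osc v₁ v₂ (fun P => S P + S' P) := by
  obtain ⟨ι, c, w, h1, h2, h3, h4, h5, h6⟩ := hS
  obtain ⟨ι', c', w', h1', h2', h3', h4', h5', h6'⟩ := hS'
  have key : ∀ (f : ι → ℝ) (f' : ι' → ℝ), Summable f → Summable f' →
      HasSum (Sum.elim f f') (∑' i, f i + ∑' i, f' i) := by
    intro f f' hf hf'
    have h8 : HasSum ((Sum.elim f f') ∘ Sum.inl) (∑' i, f i) := hf.hasSum
    have h9 : HasSum ((Sum.elim f f') ∘ Sum.inr) (∑' i, f' i) := hf'.hasSum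
    exact h8.sum h9
  refine ⟨ι ⊕ ι', Sum.elim c c', Sum.elim w w', ?_, ?_, ?_, ?_, ?_, ?_⟩
  · rintro (i | i)
    · exact h1 i
    · exact h1' i
  · rintro (i | i)
    · exact h2 i
    · exact h2' i
  · rintro (i | i)
    · exact h3 i
    · exact h3' i
  · intro t ht
    refine (key _ _ (h4 t ht) (h4' t ht)).summable.congr ?_
    rintro (i | i) <;> rfl
  · have h7 := h5.add h5'
    rw [add_zero] at h7
    refine h7.congr' ?_
    filter_upwards [Filter.eventually_gt_atTop (0 : ℝ)] with t ht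
    rw [← (key _ _ (h4 t ht) (h4' t ht)).tsum_eq]
    refine tsum_congr ?_
    rintro (i | i) <;> rfl
  · intro P hP
    have ht : 0 < P.2 := hP
    have nrm : ∀ w : ℂ, ‖eT w‖ = 1 := by
      intro w
      unfold eT
      rw [Complex.norm_exp_ofReal_mul_I]
    have hs : Summable fun i => c i P.2 * eT (w i * P.1) := by
      refine Summable.of_norm ((h4 _ ht).congr fun i => ?_)
      rw [norm_mul, nrm, mul_one]
    have hs' : Summable fun i => c' i P.2 * eT (w' i * P.1) := by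
      refine Summable.of_norm ((h4' _ ht).congr fun i => ?_)
      rw [norm_mul, nrm, mul_one]
    have h8 : HasSum ((fun i : ι ⊕ ι' => Sum.elim c c' i P.2 * eT (Sum.elim w w' i * P.1)) ∘ Sum.inl)
        (∑' i, c i P.2 * eT (w i * P.1)) := hs.hasSum
    have h9 : HasSum ((fun i : ι ⊕ ι' => Sum.elim c c' i P.2 * eT (Sum.elim w w' i * P.1)) ∘ Sum.inr)
        (∑' i, c' i P.2 * eT (w' i * P.1)) := hs'.hasSum
    change S P + S' P = _
    rw [h6 P hP, h6' P hP]
    exact (h8.sum h9).tsum_eq.symm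

theorem x08c {v₁ v₂ : ℂ} {S : ℂ × ℝ → ℂ} (hS : Osc v₁ v₂ S) (a : ℂ) : Osc v₁ v₂ (fun P => a * S P) := by
  obtain ⟨ι, c, w, h1, h2, h3, h4, h5, h6⟩ := hS
  refine ⟨ι, fun i t => a * c i t, w, h1, h2, h3, ?_, ?_, ?_⟩
  · intro t ht
    refine ((h4 t ht).mul_left ‖a‖).congr fun i => ?_
    rw [norm_mul]
  · have h7 := h5.const_mul ‖a‖
    rw [mul_zero] at h7
    refine h7.congr fun t => ?_
    rw [← tsum_mul_left]
    refine tsum_congr fun i => ?_
    rw [norm_mul]
  · intro P hP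
    change a * S P = _
    rw [h6 P hP, ← tsum_mul_left]
    refine tsum_congr fun i => ?_
    ring

theorem x08s {v₁ v₂ : ℂ} {κ : Type*} (s : Finset κ) (a : κ → ℂ) (S : κ → ℂ × ℝ → ℂ) (hS : ∀ k ∈ s, Osc v₁ v₂ (S k)) :
    Osc v₁ v₂ (fun P => ∑ k ∈ s, a k * S k P) := by
  classical
  induction s using Finset.induction_on with
  | empty => simpa using x08z v₁ v₂
  | insert k s hk ih =>
    have h1 := x08a (x08c (hS k (Finset.mem_insert_self k s)) (a k)) (ih fun j hj => hS j (Finset.mem_insert_of_mem hj))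
    have h2 : (fun P => ∑ j ∈ insert k s, a j * S j P) = fun P => a k * S k P + ∑ j ∈ s, a j * S j P := by
      funext P
      rw [Finset.sum_insert hk]
    rw [h2]
    exact h1

/-- equality on `H3` suffices -/
theorem x08e {v₁ v₂ : ℂ} {S S' : ℂ × ℝ → ℂ} (hS : Osc v₁ v₂ S) (h : ∀ P ∈ H3, S' P = S P) : Osc v₁ v₂ S' := by
  obtain ⟨ι, c, w, h1, h2, h3, h4, h5, h6⟩ := hS
  exact ⟨ι, c, w, h1, h2, h3, h4, h5, fun P hP => (h P hP).trans (h6 P hP)⟩

end Pool.Agent.H2S
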