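import Pool.Agent.Lib.H2S.T02
import Pool.Agent.Lib.H2S.T04
import Pool.Agent.Lib.H2S.X08

/-!
# H2S, X09: scaling of `kap`, affine changes of variables, multiples of periods
-/

set_option autoImplicit false
namespace Pool.Agent.H2S
open Complex MeasureTheory

/-- `kap (c r) (t / c) = c⁻² kap r t`. -/
theorem x09c (r t : ℝ) {c : ℝ} (hc : 0 < c) : kap (c * r) (t / c) = (c ^ 2)⁻¹ * kap r t := by
  rw [t04, t04]
  have h1 : 16 * Real.pi ^ 2 * (c * r) ^ 2 = c ^ 2 * (16 * Real.pi ^ 2 * r ^ 2) := by ring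
  have h2 : (t / c) ^ 2 / 4 = t ^ 2 / 4 / c ^ 2 := by
    field_simp
  rw [h1, h2, t02 0 _ _ (by positivity)]
  congr 1
  norm_num [zpow_neg]

theorem x09d (r t : ℝ) {c : ℝ} (hc : 0 < c) : kap r (c * t) = c ^ 2 * kap (c * r) t := by
  have h := x09c r (c * t) hc
  rw [mul_div_cancel_left₀ _ hc.ne'] at h
  rw [h]
  field_simp

theorem x09t (w w' : ℂ) : eT (w + w') = eT w * eT w' := by
  unfold eT
  rw [← Complex.exp_add]
  congr 1
  rw [Complex.add_re]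
  push_cast
  ring

theorem x09n (w : ℂ) : ‖eT w‖ = 1 := by
  unfold eT
  rw [Complex.norm_exp_ofReal_mul_I]

/-- `V` at `(α z + β, |α| t)`. -/
theorem x09V {α : ℂ} (hα : α ≠ 0) (β : ℂ) (P : ℂ × ℝ) (w : ℂ) :
    V (α * P.1 + β, ‖α‖ * P.2) w = ((‖α‖ ^ 2 : ℝ) : ℂ) * (eT (β * w) * V P (α * w)) := by
  have hn : 0 < ‖α‖ := norm_pos_iff.2 hα
  unfold V
  simp only
  rw [x09d _ _ hn, norm_mul, add_mul, x09t]
  have : α * P.1 * w = P.1 * (α * w) := by ring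
  rw [this]
  push_cast
  ring

theorem x09m {ι : Type*} (a w : ι → ℂ) {α : ℂ} (hα : α ≠ 0) (β : ℂ) (P : ℂ × ℝ) :
    Ks a w (α * P.1 + β, ‖α‖ * P.2) =
      ((‖α‖ ^ 2 : ℝ) : ℂ) * Ks (fun i => eT (β * w i) * a i) (fun i => α * w i) P := by
  unfold Ks
  rw [← tsum_mul_left]
  refine tsum_congr fun i => ?_
  rw [x09V hα]
  ring

theorem x09s {ι : Type*} {a w : ι → ℂ} (hk : KS a w) {α : ℂ} (hα : α ≠ 0) (β : ℂ) :
    KS (fun i => eT (β * w i) * a i) (fun i => α * w i) := by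
  have hn : 0 < ‖α‖ := norm_pos_iff.2 hα
  obtain ⟨δ, hδ, h⟩ := hk.lb
  refine ⟨⟨‖α‖ * δ, by positivity, fun i hi => ?_⟩, fun c hc => ?_⟩
  · rw [norm_mul]
    exact mul_le_mul_of_nonneg_left (h i fun h0 => hi (by simp only [h0, mul_zero])) hn.le
  · refine (hk.sm (c * ‖α‖) (by positivity)).congr fun i => ?_
    rw [norm_mul, x09n, one_mul, norm_mul]
    congr 2
    ring

theorem x09k {v₁ v₂ : ℂ} {S : ℂ × ℝ → ℂ} (hS : Osc v₁ v₂ S) (k : ℤ) : Osc (k * v₁) (k * v₂) S := by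
  obtain ⟨ι, c, w, h1, h2, h3, h4, h5, h6⟩ := hS
  have key : ∀ (x v : ℂ), (∃ l : ℤ, 2 * (x * v).re = l) → ∃ l : ℤ, 2 * (x * ((k : ℂ) * v)).re = l := by
    rintro x v ⟨l, hl⟩
    refine ⟨k * l, ?_⟩
    have : x * ((k : ℂ) * v) = ((k : ℝ) : ℂ) * (x * v) := by
      push_cast
      ring
    rw [this, Complex.re_ofReal_mul]
    push_cast
    linear_combination (k : ℝ) * hl
  exact ⟨ι, c, w, h1, fun i => key _ _ (h2 i), fun i => key _ _ (h3 i), h4, h5, h6⟩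

end Pool.Agent.H2S
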