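import Mathlib

/-!
# Z3: the conjugation of `K` and the divisibility
-/

set_option autoImplicit false
namespace Pool.Agent.H2S
open Complex NumberField

variable {K L : Type*} [Field K] [NumberField K] [Field L] [NumberField L] [Algebra K L]

/-- PROOF. `K / ℚ` is quadratic, so Galois of group `{1, σ₀}`; `σ = σ₀` on `𝓞 K` (`RingOfIntegers.mapRingHom` or
`galRestrict`).  `Algebra.norm ℚ a = a * σ₀ a` (`Algebra.norm_eq_prod_automorphisms`), `Algebra.coe_norm_int`.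
An embedding `φ : K →+* ℂ` is not real (`IsTotallyComplex`); `φ ∘ σ₀` and `conj ∘ φ` are both different from `φ` and there
are only two embeddings, so they are equal.  If `σ a = a` then `a` is rational (Galois), and integral over `ℤ`, so an
integer (`IsIntegrallyClosed ℤ`). -/
theorem Z3_conj [IsTotallyComplex K] (hK : Module.finrank ℚ K = 2) :
    ∃ σ : 𝓞 K →+* 𝓞 K, (∀ a : 𝓞 K, a * σ a = ((Algebra.norm ℤ a : ℤ) : 𝓞 K)) ∧ (∀ a : 𝓞 K, σ (σ a) = a) ∧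
      (∀ (φ : K →+* ℂ) (a : 𝓞 K), φ ((σ a : 𝓞 K) : K) = (starRingEnd ℂ) (φ (a : K))) ∧
      ∀ a : 𝓞 K, σ a = a → ∃ n : ℤ, a = (n : 𝓞 K) := by
  classical
  have : Algebra.IsQuadraticExtension ℚ K := ⟨hK⟩
  have hgal : IsGalois ℚ K := inferInstance
  have hcard : Nat.card Gal(K/ℚ) = 2 := by rw [IsGalois.card_aut_eq_finrank, hK]
  obtain ⟨σ₀, hσ₀, huniq⟩ := (Nat.card_eq_two_iff' (1 : Gal(K/ℚ))).1 hcard
  have hall : ∀ g : Gal(K/ℚ), g = 1 ∨ g = σ₀ := by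
    intro g
    by_cases h : g = 1
    · exact Or.inl h
    · exact Or.inr (huniq g h)
  have hinv : ∀ x : K, σ₀ (σ₀ x) = x := by
    intro x
    rcases hall (σ₀ * σ₀) with h | h
    · exact congrArg (fun f : Gal(K/ℚ) => f x) h
    · exact absurd (mul_eq_left.1 h) hσ₀
  have hnorm : ∀ x : K, algebraMap ℚ K (Algebra.norm ℚ x) = x * σ₀ x := by
    intro x
    rw [Algebra.norm_eq_prod_automorphisms]
    have hu : (Finset.univ : Finset Gal(K/ℚ)) = {1, σ₀} := by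
      ext g
      simp only [Finset.mem_univ, Finset.mem_insert, Finset.mem_singleton, true_iff]
      exact hall g
    rw [hu, Finset.prod_pair (Ne.symm hσ₀)]
    rfl
  let σ : 𝓞 K →+* 𝓞 K := RingOfIntegers.mapRingHom σ₀
  have hσ : ∀ a : 𝓞 K, ((σ a : 𝓞 K) : K) = σ₀ (a : K) := fun a => rfl
  refine ⟨σ, ?_, ?_, ?_, ?_⟩
  · intro a
    apply RingOfIntegers.ext
    have h1 := hnorm (a : K)
    rw [← Algebra.coe_norm_int] at h1
    have h2 : ((a * σ a : 𝓞 K) : K) = (a : K) * σ₀ (a : K) := by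
      rw [← hσ]
      exact map_mul _ _ _
    rw [h2, ← h1]
    simp
  · intro a
    apply RingOfIntegers.ext
    rw [hσ, hσ, hinv]
  · intro φ a
    rw [hσ]
    have h1 : φ ≠ φ.comp (σ₀ : K →+* K) := by
      intro h
      apply hσ₀
      ext x
      have h2 := congrArg (fun f : K →+* ℂ => f x) h
      exact (φ.injective h2).symm
    have h2 : φ ≠ (starRingEnd ℂ).comp φ := by
      intro h
      have h3 := IsTotallyComplex.isComplex (InfinitePlace.mk φ)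
      rw [← InfinitePlace.not_isReal_iff_isComplex] at h3
      apply h3
      refine ⟨φ, ?_, rfl⟩
      rw [ComplexEmbedding.isReal_iff]
      exact h.symm
    have h3 : φ.comp (σ₀ : K →+* K) = (starRingEnd ℂ).comp φ := by
      by_contra h4
      have h5 : ({φ, φ.comp (σ₀ : K →+* K), (starRingEnd ℂ).comp φ} : Finset (K →+* ℂ)).card ≤ 2 := by
        have h6 := Embeddings.card K ℂ
        rw [hK] at h6
        rw [← h6]
        exact Finset.card_le_univ _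
      rw [Finset.card_eq_three.2 ⟨_, _, _, h1, h2, h4, rfl⟩] at h5
      omega
    exact congrArg (fun f : K →+* ℂ => f (a : K)) h3
  · intro a ha
    have h1 : (a : K) ∈ (⊥ : IntermediateField ℚ K) := by
      rw [IsGalois.mem_bot_iff_fixed]
      intro f
      rcases hall f with h | h
      · rw [h]; rfl
      · rw [h, ← hσ, ha]
    obtain ⟨q, hq⟩ := IntermediateField.mem_bot.1 h1
    have h2 : IsIntegral ℤ (algebraMap ℚ K q) := by
      rw [hq]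
      exact a.2
    have h3 : IsIntegral ℤ q := (isIntegral_algebraMap_iff (algebraMap ℚ K).injective).1 h2
    obtain ⟨n, hn⟩ := IsIntegrallyClosed.isIntegral_iff.1 h3
    refine ⟨n, ?_⟩
    apply RingOfIntegers.ext
    rw [← hq, ← hn]
    simp


/-- PROOF. For `a` with `r₁ a ≠ 0`: `r₁ a * r₂ a = N a = r₁ (a * σ a) = r₁ a * r₁ (σ a)`, so `r₂ a = r₁ (σ a)`.  If `r₁ a = 0`
then `r₁ (a + 1) = 1 ≠ 0`, so `r₂ (a + 1) = r₁ (σ (a + 1))`, and again `r₂ a = r₁ (σ a)`. -/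
theorem Z3_rest {k : Type*} [Field k] (r₁ r₂ : 𝓞 L →+* k)
    (hn : ∀ a : 𝓞 K, r₁ (algebraMap (𝓞 K) (𝓞 L) a) * r₂ (algebraMap (𝓞 K) (𝓞 L) a) = ((Algebra.norm ℤ a : ℤ) : k))
    (σ : 𝓞 K →+* 𝓞 K) (hσ : ∀ a : 𝓞 K, a * σ a = ((Algebra.norm ℤ a : ℤ) : 𝓞 K)) (a : 𝓞 K) :
    r₂ (algebraMap (𝓞 K) (𝓞 L) a) = r₁ (algebraMap (𝓞 K) (𝓞 L) (σ a)) := by
  have key : ∀ b : 𝓞 K, r₁ (algebraMap (𝓞 K) (𝓞 L) b) ≠ 0 →
      r₂ (algebraMap (𝓞 K) (𝓞 L) b) = r₁ (algebraMap (𝓞 K) (𝓞 L) (σ b)) := by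
    intro b hb
    apply mul_left_cancel₀ hb
    have h1 := congrArg (fun x => r₁ (algebraMap (𝓞 K) (𝓞 L) x)) (hσ b)
    simp only [map_mul, map_intCast] at h1
    rw [hn, h1]
  by_cases h : r₁ (algebraMap (𝓞 K) (𝓞 L) a) = 0
  · have h1 : r₁ (algebraMap (𝓞 K) (𝓞 L) (a + 1)) ≠ 0 := by
      rw [map_add, map_add, h, map_one, map_one, zero_add]
      exact one_ne_zero
    have h2 := key _ h1
    simp only [map_add, map_one] at h2
    exact add_right_cancel h2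
  · exact key a h


/-- PROOF. `ε' = τ ε` as an element of `𝓞 L`; `r₁ ε * r₁ ε' = 1` and `r₂ ε * r₂ ε' = 1`, `r₁ ε * r₂ ε = 1`, so
`r₁ ε' = r₂ ε` and `r₂ ε' = r₁ ε`: `r₁ t = r₁ ε + r₂ ε = r₂ t`, and `r₂ t = r₁ (σ t)` (`Z3_rest`).  So `r₁ (t - σ t) = 0`, and
`r₁` of the norm `(t - σ t) * σ (t - σ t)` is `0` in `k`: `CharP.intCast_eq_zero_iff`. -/
theorem Z3_div {k : Type*} [Field k] {p : ℕ} [CharP k p] (r₁ r₂ : 𝓞 L →+* k)
    (hn : ∀ a : 𝓞 K, r₁ (algebraMap (𝓞 K) (𝓞 L) a) * r₂ (algebraMap (𝓞 K) (𝓞 L) a) = ((Algebra.norm ℤ a : ℤ) : k))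
    (σ : 𝓞 K →+* 𝓞 K) (hσ : ∀ a : 𝓞 K, a * σ a = ((Algebra.norm ℤ a : ℤ) : 𝓞 K))
    (ε ε' : 𝓞 L) (h1 : ε * ε' = 1) (t : 𝓞 K) (ht : ε + ε' = algebraMap (𝓞 K) (𝓞 L) t) (h : r₁ ε * r₂ ε = 1) :
    (p : ℤ) ∣ Algebra.norm ℤ (t - σ t) := by
  have e1 : r₁ ε * r₁ ε' = 1 := by rw [← map_mul, h1, map_one]
  have e2 : r₂ ε * r₂ ε' = 1 := by rw [← map_mul, h1, map_one]
  have hne1 : r₁ ε ≠ 0 := left_ne_zero_of_mul_eq_one h
  have hne2 : r₂ ε ≠ 0 := right_ne_zero_of_mul_eq_one h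
  have e3 : r₁ ε' = r₂ ε := by
    apply mul_left_cancel₀ hne1
    rw [e1, h]
  have e4 : r₂ ε' = r₁ ε := by
    apply mul_left_cancel₀ hne2
    rw [e2, mul_comm, h]
  have e5 : r₁ (algebraMap (𝓞 K) (𝓞 L) t) = r₂ (algebraMap (𝓞 K) (𝓞 L) t) := by
    rw [← ht, map_add, map_add, e3, e4, add_comm]
  have e6 := Z3_rest r₁ r₂ hn σ hσ t
  have e7 : r₁ (algebraMap (𝓞 K) (𝓞 L) (t - σ t)) = 0 := by
    rw [map_sub, map_sub, ← e6, e5, sub_self]
  have e8 := congrArg (fun x => r₁ (algebraMap (𝓞 K) (𝓞 L) x)) (hσ (t - σ t))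
  simp only [map_mul, map_intCast] at e8
  rw [e7, zero_mul] at e8
  exact (CharP.intCast_eq_zero_iff k p _).1 e8.symm


end Pool.Agent.H2S
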